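import Pool.Agent.FAN.StA

/-!
# FAN, block 1, module CLS: one more room (helper91)
-/

set_option autoImplicit false

namespace Pool.Agent.FAN

variable {S : TriSys}

private lemma cls_le_h3 (q : Pl S) (x v : ℂ) (c : ℝ) :
    c ≤ q.h3 x v ↔ ∀ i, c ≤ |cx v (q.V i - x)| := by
  unfold Pl.h3
  rw [le_min_iff, le_min_iff]
  constructor
  · rintro ⟨h0, h1, h2⟩ i
    fin_cases i
    · exact h0
    · exact h1
    · exact h2
  · intro h
    exact ⟨h 0, h 1, h 2⟩

private lemma cls_base (h1 : Sa_GLU) (q : Pl S) (x v : ℂ) (j : ZMod 3) :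
    min (q.h3 x v) ((q.nx j).h3 x v) =
      min (q.h3 x v) |cx v ((q.nx j).V (q.en j) - x)| := by
  obtain ⟨g1, g2, -, -⟩ := h1 S q j
  apply le_antisymm
  · refine le_min (min_le_left _ _) ?_
    exact (cls_le_h3 _ _ _ _).1 (min_le_right _ _) _
  · refine le_min (min_le_left _ _) ?_
    rw [cls_le_h3]
    have hq := (cls_le_h3 q x v _).1 (min_le_left (q.h3 x v)
      |cx v ((q.nx j).V (q.en j) - x)|)
    have hc : ∀ e i : ZMod 3, i = e ∨ i = e + 1 ∨ i = e + 2 := by decide
    intro i
    rcases hc (q.en j) i with rfl | rfl | rfl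
    · exact min_le_right _ _
    · rw [g1]
      exact hq _
    · rw [g2]
      exact hq _

/-- (CLS) one more room: only its apex is new -/
theorem m_CLS (h1 : Sa_GLU) : Sa_CLS := by
  intro S js
  induction js with
  | nil =>
    intro q x v j
    exact cls_base h1 q x v j
  | cons i js ih =>
    intro q x v j
    show min (q.h3 x v) (clr (q.nx i) (js ++ [j]) x v) = _
    rw [ih (q.nx i) x v j, ← min_assoc]
    rfl

end Pool.Agent.FAN
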