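import Pool.Agent.FAN.Base

/-!
# Runs: concatenation, motions, reversal (helper15)
-/

set_option autoImplicit false

open scoped ComplexConjugate

namespace Pool.Agent.FAN

noncomputable section

variable {S : TriSys}

theorem m_GLU : Sa_GLU := fun _ q j => ⟨Pl.V_nx1 q j, Pl.V_nx2 q j, Pl.nx_nx q j, Pl.nx_en q j⟩

theorem m_ORI : Sa_ORI := by
  intro S q i
  have h := q.orient i
  have e : cx (q.V (i + 1) - q.V i) (q.V (i + 2) - q.V i) =
      cx (q.V (i + 2) - q.V (i + 1)) (q.V i - q.V (i + 1)) := by
    simp only [cx, Complex.sub_re, Complex.sub_im]; ring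
  rw [e]; exact h

/-! ## concatenation -/

theorem Run_append (js js' : List (ZMod 3)) (q : Pl S) (x v : ℂ) :
    Run q x v (js ++ js') ↔ Run q x v js ∧ Run (endP q js) x v js' := by
  induction js generalizing q with
  | nil => simp [Run, endP]
  | cons j js ih =>
    simp only [List.cons_append, Run, endP]
    rw [ih, and_assoc]

theorem endP_append (js js' : List (ZMod 3)) (q : Pl S) :
    endP q (js ++ js') = endP (endP q js) js' := by
  induction js generalizing q with
  | nil => simp [endP]
  | cons j js ih =>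
    simp only [List.cons_append, endP]
    rw [ih]

theorem eI_append (js js' : List (ZMod 3)) (q : Pl S) (i : ZMod 3) :
    eI q i (js ++ js') = eI (endP q js) (eI q i js) js' := by
  induction js generalizing q i with
  | nil => simp [endP, eI]
  | cons j js ih =>
    simp only [List.cons_append, endP, eI]
    rw [ih]

theorem cts_append (js js' : List (ZMod 3)) (q : Pl S) (x v : ℂ) :
    cts q x v (js ++ js') = cts q x v js ++ cts (endP q js) x v js' := by
  induction js generalizing q with
  | nil => simp [endP, cts]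
  | cons j js ih =>
    simp only [List.cons_append, endP, cts]
    rw [ih]

theorem rev_append (js js' : List (ZMod 3)) (q : Pl S) :
    rev q (js ++ js') = rev (endP q js) js' ++ rev q js := by
  induction js generalizing q with
  | nil => simp [endP, rev]
  | cons j js ih =>
    simp only [List.cons_append, endP, rev]
    rw [ih, List.append_assoc]

theorem vl_snoc (js : List (ZMod 3)) (j : ZMod 3) (q : Pl S) :
    vl q (js ++ [j]) = vl q js ++
      [((endP q js).nx j).V 0, ((endP q js).nx j).V 1, ((endP q js).nx j).V 2] := by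
  induction js generalizing q with
  | nil => simp [endP, vl]
  | cons j js ih =>
    simp only [List.cons_append, endP, vl]
    rw [ih]

theorem Run_take {js js' : List (ZMod 3)} {q : Pl S} {x v : ℂ} (h : Run q x v (js ++ js')) :
    Run q x v js := ((Run_append js js' q x v).1 h).1

theorem Run_comparable (js js' : List (ZMod 3)) (q : Pl S) (x v : ℂ) (h : Run q x v js)
    (h' : Run q x v js') : js <+: js' ∨ js' <+: js := by
  induction js generalizing q js' with
  | nil => left; exact ⟨js', rfl⟩
  | cons j js ih =>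
    cases js' with
    | nil => right; exact ⟨j :: js, rfl⟩
    | cons j' js' =>
      have e : j = j' := Pl.Ex_unique h.1 h'.1
      subst e
      rcases ih js' (q.nx j) h.2 h'.2 with ⟨t, ht⟩ | ⟨t, ht⟩
      · left; exact ⟨t, by rw [List.cons_append, ht]⟩
      · right; exact ⟨t, by rw [List.cons_append, ht]⟩

theorem exists_exit (q : Pl S) (x v : ℂ) (h : q.In x) (hv : ∀ i, cx v (q.V i - x) ≠ 0) :
    ∃ j, q.Ex x v j := by
  have h3 := (Pl.In_iff3 q x 0).1 h
  have hb := Pl.bary q x v x 0
  rw [sub_self x] at hb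
  have e0 : cx v 0 = 0 := by simp [cx]
  rw [e0, mul_zero] at hb
  have a1 : (0 : ZMod 3) + 1 = 1 := by decide
  have a2 : (0 : ZMod 3) + 2 = 2 := by decide
  rw [a1, a2] at hb h3
  obtain ⟨w0, w1, w2⟩ := h3
  by_contra hc
  push Not at hc
  have c0 : 0 < cx v (q.V 2 - x) → 0 ≤ cx v (q.V 1 - x) := by
    intro hp
    by_contra hn
    exact hc 0 ⟨by rw [a2]; exact hp, by rw [a1]; exact not_le.1 hn⟩
  have b1 : (1 : ZMod 3) + 1 = 2 := by decide
  have b2 : (1 : ZMod 3) + 2 = 0 := by decide
  have d1 : (2 : ZMod 3) + 1 = 0 := by decide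
  have d2 : (2 : ZMod 3) + 2 = 1 := by decide
  have c1 : 0 < cx v (q.V 0 - x) → 0 ≤ cx v (q.V 2 - x) := by
    intro hp
    by_contra hn
    exact hc 1 ⟨by rw [b2]; exact hp, by rw [b1]; exact not_le.1 hn⟩
  have c2 : 0 < cx v (q.V 1 - x) → 0 ≤ cx v (q.V 0 - x) := by
    intro hp
    by_contra hn
    exact hc 2 ⟨by rw [d2]; exact hp, by rw [d1]; exact not_le.1 hn⟩
  have n0 := hv 0
  have n1 := hv 1
  have n2 := hv 2
  rcases lt_or_gt_of_ne n0 with g0 | g0
  · -- all negative
    have g1 : cx v (q.V 1 - x) < 0 := by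
      rcases lt_or_gt_of_ne n1 with g | g
      · exact g
      · exact absurd (c2 g) (not_le.2 g0)
    have g2 : cx v (q.V 2 - x) < 0 := by
      rcases lt_or_gt_of_ne n2 with g | g
      · exact g
      · exact absurd (c0 g) (not_le.2 g1)
    have f0 := mul_neg_of_pos_of_neg w0 g0
    have f1 := mul_neg_of_pos_of_neg w1 g1
    have f2 := mul_neg_of_pos_of_neg w2 g2
    linarith
  · have g2 : 0 < cx v (q.V 2 - x) := lt_of_le_of_ne (c1 g0) (Ne.symm n2)
    have g1 : 0 < cx v (q.V 1 - x) := lt_of_le_of_ne (c0 g2) (Ne.symm n1)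
    have f0 := mul_pos w0 g0
    have f1 := mul_pos w1 g1
    have f2 := mul_pos w2 g2
    linarith

theorem Ex_iff_En (q : Pl S) (x v : ℂ) (j : ZMod 3) : q.Ex x v j ↔ (q.nx j).En x v (q.en j) := by
  simp only [Pl.Ex, Pl.En, Pl.V_nx1, Pl.V_nx2]

theorem En_not_Ex (q : Pl S) (x v : ℂ) (i : ZMod 3) (h : q.En x v i) : ¬ q.Ex x v i := by
  intro h'
  have := h.1
  have := h'.2
  linarith

theorem m_EXU : Sa_EXU := by
  intro S
  exact ⟨fun q x v j j' h h' => Pl.Ex_unique h h', Ex_iff_En, En_not_Ex,
    fun q x v i h => ⟨fun ha => h.left ha, fun ha => h.right ha⟩,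
    fun q x v i j h hj => h.exit hj,
    Run_comparable, exists_exit,
    fun js js' q x v i => ⟨Run_append js js' q x v, endP_append js js' q, eI_append js js' q i,
      cts_append js js' q x v⟩⟩

/-! ## motions -/

theorem Run_mv (c e : ℂ) (hc : ‖c‖ = 1) (js : List (ZMod 3)) (q : Pl S) (x v : ℂ) :
    Run (q.mv c e hc) (c * x + e) (c * v) js ↔ Run q x v js := by
  induction js generalizing q with
  | nil => simp [Run]
  | cons j js ih =>
    simp only [Run]
    rw [Pl.Ex_mv, Pl.nx_mv, ih]

theorem endP_mv (c e : ℂ) (hc : ‖c‖ = 1) (js : List (ZMod 3)) (q : Pl S) :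
    endP (q.mv c e hc) js = (endP q js).mv c e hc := by
  induction js generalizing q with
  | nil => rfl
  | cons j js ih =>
    simp only [endP]
    rw [Pl.nx_mv, ih]

theorem eI_mv (c e : ℂ) (hc : ‖c‖ = 1) (js : List (ZMod 3)) (q : Pl S) (i : ZMod 3) :
    eI (q.mv c e hc) i js = eI q i js := by
  induction js generalizing q i with
  | nil => rfl
  | cons j js ih =>
    simp only [eI]
    rw [Pl.nx_mv, Pl.en_mv, ih]

theorem rev_mv (c e : ℂ) (hc : ‖c‖ = 1) (js : List (ZMod 3)) (q : Pl S) :
    rev (q.mv c e hc) js = rev q js := by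
  induction js generalizing q with
  | nil => rfl
  | cons j js ih =>
    simp only [rev]
    rw [Pl.nx_mv, Pl.en_mv, ih]

theorem cts_mv (c e : ℂ) (hc : ‖c‖ = 1) (js : List (ZMod 3)) (q : Pl S) (x v : ℂ) :
    cts (q.mv c e hc) (c * x + e) (c * v) js = cts q x v js := by
  induction js generalizing q with
  | nil => rfl
  | cons j js ih =>
    simp only [cts]
    rw [Pl.ct_mv, Pl.nx_mv, ih]

theorem clr_mv (c e : ℂ) (hc : ‖c‖ = 1) (js : List (ZMod 3)) (q : Pl S) (x v : ℂ) :
    clr (q.mv c e hc) js (c * x + e) (c * v) = clr q js x v := by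
  induction js generalizing q with
  | nil => simp only [clr]; rw [Pl.h3_mv]
  | cons j js ih =>
    simp only [clr]
    rw [Pl.h3_mv, Pl.nx_mv, ih]

theorem vl_mv (c e : ℂ) (hc : ‖c‖ = 1) (js : List (ZMod 3)) (q : Pl S) :
    vl (q.mv c e hc) js = (vl q js).map fun p => c * p + e := by
  induction js generalizing q with
  | nil => simp [vl, Pl.V_mv]
  | cons j js ih =>
    simp only [vl]
    rw [Pl.nx_mv, ih]
    simp [Pl.V_mv]

theorem av_mv (c e : ℂ) (hc : ‖c‖ = 1) (js : List (ZMod 3)) (q : Pl S) (x v : ℂ) :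
    av (q.mv c e hc) js (c * x + e) (c * v) = av q js x v := by
  simp only [av]
  rw [vl_mv, clr_mv, List.map_map, List.map_map]
  have e1 : ∀ p : ℂ, cx (c * v) (c * p + e - (c * x + e)) = cx v (p - x) := by
    intro p
    rw [show c * p + e - (c * x + e) = c * (p - x) by ring, cx_mul1 hc]
  have e2 : ∀ p : ℂ, dt (c * v) (c * p + e - (c * x + e)) = dt v (p - x) := by
    intro p
    rw [show c * p + e - (c * x + e) = c * (p - x) by ring, dt_mul1 hc]
  congr 3
  · funext p
    simp only [Function.comp, e1, e2]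
  · funext p
    simp only [Function.comp, e1]

theorem m_MOV : Sa_MOV := by
  intro S c e hc
  exact ⟨Pl.V_mv c e hc, fun q j => ⟨Pl.nx_mv c e hc q j, Pl.en_mv c e hc q j⟩, Pl.In_mv c e hc,
    fun q x v j => ⟨Pl.Ex_mv c e hc q x v j, Pl.ct_mv c e hc q x v j⟩,
    fun js q x v i => ⟨Run_mv c e hc js q x v, endP_mv c e hc js q, eI_mv c e hc js q i,
      rev_mv c e hc js q, clr_mv c e hc js q x v, av_mv c e hc js q x v⟩⟩

/-! ## reversal -/

theorem endP_rev (js : List (ZMod 3)) (q : Pl S) : endP (endP q js) (rev q js) = q := by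
  induction js generalizing q with
  | nil => rfl
  | cons j js ih =>
    simp only [endP, rev]
    rw [endP_append, ih]
    simp only [endP]
    rw [Pl.nx_nx]

theorem rev_rev (js : List (ZMod 3)) (q : Pl S) : rev (endP q js) (rev q js) = js := by
  induction js generalizing q with
  | nil => rfl
  | cons j js ih =>
    simp only [endP, rev]
    rw [rev_append, ih, endP_rev]
    simp only [rev, List.nil_append, List.cons_append]
    rw [Pl.nx_en]

theorem Ex_rev_iff (q : Pl S) (x v : ℂ) (N : ℝ) (j : ZMod 3) :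
    (q.nx j).Ex (x + N * v) (-v) (q.en j) ↔ q.Ex x v j := by
  simp only [Pl.Ex, Pl.V_nx1, Pl.V_nx2]
  have e : ∀ p : ℂ, cx (-v) (p - (x + N * v)) = -cx v (p - x) := by
    intro p
    rw [cx_neg_left, show p - (x + N * v) = (p - x) - N * v by ring, cx_sub_right, cx_real_right,
      cx_self, mul_zero, sub_zero]
  rw [e, e]
  constructor
  · rintro ⟨h1, h2⟩; exact ⟨by linarith, by linarith⟩
  · rintro ⟨h1, h2⟩; exact ⟨by linarith, by linarith⟩

theorem Run_rev (js : List (ZMod 3)) (q : Pl S) (x v : ℂ) (N : ℝ) :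
    Run (endP q js) (x + N * v) (-v) (rev q js) ↔ Run q x v js := by
  induction js generalizing q with
  | nil => simp [Run, rev]
  | cons j js ih =>
    simp only [endP, rev, Run]
    rw [Run_append, ih, endP_rev]
    simp only [Run, and_true]
    rw [Ex_rev_iff, and_comm]

theorem rev_length (js : List (ZMod 3)) (q : Pl S) : (rev q js).length = js.length := by
  induction js generalizing q with
  | nil => rfl
  | cons j js ih => simp only [rev, List.length_append, ih, List.length_cons, List.length_nil]

theorem vl_perm (js : List (ZMod 3)) (q : Pl S) :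
    (vl (endP q js) (rev q js)).Perm (vl q js) := by
  induction js generalizing q with
  | nil => exact List.Perm.refl _
  | cons j js ih =>
    simp only [endP, rev, vl]
    rw [vl_snoc, endP_rev, Pl.nx_nx]
    have h1 := (ih (q.nx j)).append_right [q.V 0, q.V 1, q.V 2]
    exact h1.trans (List.perm_append_comm)

theorem clr_le (js : List (ZMod 3)) (q : Pl S) (x v : ℂ) :
    ∀ p ∈ vl q js, clr q js x v ≤ |cx v (p - x)| := by
  induction js generalizing q with
  | nil =>
    intro p hp
    simp only [vl, List.mem_cons, List.not_mem_nil, or_false] at hp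
    simp only [clr, Pl.h3]
    rcases hp with rfl | rfl | rfl
    · exact min_le_left _ _
    · exact (min_le_right _ _).trans (min_le_left _ _)
    · exact (min_le_right _ _).trans (min_le_right _ _)
  | cons j js ih =>
    intro p hp
    simp only [vl, List.mem_cons] at hp
    simp only [clr, Pl.h3]
    rcases hp with rfl | rfl | rfl | hp
    · exact (min_le_left _ _).trans (min_le_left _ _)
    · exact (min_le_left _ _).trans ((min_le_right _ _).trans (min_le_left _ _))
    · exact (min_le_left _ _).trans ((min_le_right _ _).trans (min_le_right _ _))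
    · exact (min_le_right _ _).trans (ih (q.nx j) p hp)

theorem h3_mem (q : Pl S) (x v : ℂ) :
    ∃ p ∈ [q.V 0, q.V 1, q.V 2], q.h3 x v = |cx v (p - x)| := by
  simp only [Pl.h3]
  rcases min_choice |cx v (q.V 0 - x)| (min |cx v (q.V 1 - x)| |cx v (q.V 2 - x)|) with h | h
  · exact ⟨q.V 0, by simp, h⟩
  · rcases min_choice |cx v (q.V 1 - x)| |cx v (q.V 2 - x)| with h' | h'
    · exact ⟨q.V 1, by simp, by rw [h, h']⟩
    · exact ⟨q.V 2, by simp, by rw [h, h']⟩

theorem clr_mem (js : List (ZMod 3)) (q : Pl S) (x v : ℂ) :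
    ∃ p ∈ vl q js, clr q js x v = |cx v (p - x)| := by
  induction js generalizing q with
  | nil => exact h3_mem q x v
  | cons j js ih =>
    simp only [clr]
    rcases min_choice (q.h3 x v) (clr (q.nx j) js x v) with h | h
    · obtain ⟨p, hp, hp'⟩ := h3_mem q x v
      refine ⟨p, ?_, by rw [h, hp']⟩
      simp only [List.mem_cons, List.not_mem_nil, or_false] at hp
      simp only [vl, List.mem_cons]
      rcases hp with h | h | h
      · exact Or.inl h
      · exact Or.inr (Or.inl h)
      · exact Or.inr (Or.inr (Or.inl h))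
    · obtain ⟨p, hp, hp'⟩ := ih (q.nx j)
      refine ⟨p, ?_, by rw [h, hp']⟩
      simp only [vl, List.mem_cons]
      exact Or.inr (Or.inr (Or.inr hp))

theorem cx_rev_point (p x v : ℂ) (N : ℝ) : cx (-v) (p - (x + N * v)) = -cx v (p - x) := by
  rw [cx_neg_left, show p - (x + N * v) = (p - x) - N * v by ring, cx_sub_right, cx_real_right,
    cx_self, mul_zero, sub_zero]

theorem dt_rev_point (p x v : ℂ) (N : ℝ) (hv : ‖v‖ = 1) :
    dt (-v) (p - (x + N * v)) = N - dt v (p - x) := by
  have h : dt v v = 1 := by rw [dt_self, hv]; norm_num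
  simp only [dt, Complex.neg_re, Complex.neg_im, Complex.sub_re, Complex.sub_im, Complex.add_re,
    Complex.add_im, Complex.mul_re, Complex.mul_im, Complex.ofReal_re, Complex.ofReal_im] at h ⊢
  linear_combination N * h

theorem clr_rev (js : List (ZMod 3)) (q : Pl S) (x v : ℂ) (N : ℝ) :
    clr (endP q js) (rev q js) (x + N * v) (-v) = clr q js x v := by
  have hp := vl_perm js q
  apply le_antisymm
  · obtain ⟨p, h1, h2⟩ := clr_mem js q x v
    rw [h2]
    have h3 := clr_le (rev q js) (endP q js) (x + N * v) (-v) p (hp.mem_iff.2 h1)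
    rwa [cx_rev_point, abs_neg] at h3
  · obtain ⟨p, h1, h2⟩ := clr_mem (rev q js) (endP q js) (x + N * v) (-v)
    rw [h2, cx_rev_point, abs_neg]
    exact clr_le js q x v p (hp.mem_iff.1 h1)

theorem av_den_pos (js : List (ZMod 3)) (q : Pl S) (x v : ℂ) :
    0 < ((vl q js).map fun p => if |cx v (p - x)| = clr q js x v then (1 : ℝ) else 0).sum := by
  obtain ⟨p, h1, h2⟩ := clr_mem js q x v
  have hnn : ∀ l : List ℂ, 0 ≤
      (l.map fun p => if |cx v (p - x)| = clr q js x v then (1 : ℝ) else 0).sum := by
    intro l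
    apply List.sum_nonneg
    intro y hy
    rw [List.mem_map] at hy
    obtain ⟨a, _, rfl⟩ := hy
    split_ifs <;> norm_num
  obtain ⟨l1, l2, hl⟩ := List.append_of_mem h1
  rw [hl, List.map_append, List.sum_append, List.map_cons, List.sum_cons, if_pos h2.symm]
  have a1 := hnn l1
  have a2 := hnn l2
  linarith

theorem av_rev (js : List (ZMod 3)) (q : Pl S) (x v : ℂ) (N : ℝ) (hv : ‖v‖ = 1) :
    av (endP q js) (rev q js) (x + N * v) (-v) = N - av q js x v := by
  have hp := vl_perm js q
  simp only [av]
  rw [clr_rev]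
  simp only [cx_rev_point, abs_neg, dt_rev_point _ _ _ _ hv]
  rw [(hp.map fun p => if |cx v (p - x)| = clr q js x v then (1 : ℝ) else 0).sum_eq,
    (hp.map fun p => if |cx v (p - x)| = clr q js x v then N - dt v (p - x) else 0).sum_eq]
  have hd := av_den_pos js q x v
  set D := ((vl q js).map fun p => if |cx v (p - x)| = clr q js x v then (1 : ℝ) else 0).sum
    with hD
  have e : ((vl q js).map fun p => if |cx v (p - x)| = clr q js x v then N - dt v (p - x)
      else 0).sum = N * D -
      ((vl q js).map fun p => if |cx v (p - x)| = clr q js x v then dt v (p - x) else 0).sum := by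
    rw [hD]
    induction (vl q js) with
    | nil => simp
    | cons a l ih =>
      simp only [List.map_cons, List.sum_cons]
      rw [ih]
      split_ifs <;> ring
  rw [e]
  field_simp

theorem m_REV : Sa_REV := by
  intro S q x v N js
  exact ⟨(Run_rev js q x v N).symm, endP_rev js q, rev_rev js q, clr_rev js q x v N,
    av_rev js q x v N⟩

end

end Pool.Agent.FAN
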