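import Pool.Agent.FAN.StA
import Pool.Agent.FAN.Base2

/-!
# FAN, block 1, module CLV (helper12): the clearance is the minimum over the list of vertices
-/

set_option autoImplicit false

namespace Pool.Agent.FAN

variable {S : TriSys}

private theorem clv_V (js : List (ZMod 3)) (q : Pl S) (i : ZMod 3) : q.V i ∈ vl q js := by
  have h : i = 0 ∨ i = 1 ∨ i = 2 := by
    revert i
    decide
  cases js with
  | nil => rcases h with h | h | h <;> subst h <;> simp [vl]
  | cons j js => rcases h with h | h | h <;> subst h <;> simp [vl]

private theorem clv_end (js : List (ZMod 3)) : ∀ (q : Pl S) (i : ZMod 3),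
    (endP q js).V i ∈ vl q js := by
  induction js with
  | nil => exact fun q i => clv_V [] q i
  | cons j js ih =>
    intro q i
    have h := ih (q.nx j) i
    simp only [endP, vl, List.mem_cons]
    exact Or.inr (Or.inr (Or.inr h))

theorem m_CLV : Sa_CLV := by
  intro S js q x v
  refine ⟨clr_le js q x v, clr_mem js q x v, ?_, clv_V js q, clv_end js q⟩
  obtain ⟨p, -, h⟩ := clr_mem js q x v
  rw [h]
  exact abs_nonneg _

end Pool.Agent.FAN
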