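import Pool.Agent.FAN.StA

/-!
# FAN, CTS: crossing times of a run are increasing (helper76)
-/

set_option autoImplicit false

open scoped ComplexConjugate
open MeasureTheory Set

namespace Pool.Agent.FAN

variable {S : TriSys}

/-- All crossing times of a run come after the entering time of the first room. -/
private theorem cts_key (h1 : Sa_EXU) (h2 : Sa_TIM) :
    ∀ (js : List (ZMod 3)) (q : Pl S) (x v : ℂ) (i : ZMod 3), q.En x v i → Run q x v js →
      ∀ t ∈ cts q x v js, q.ct x v i < t := by
  intro js
  induction js with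
  | nil =>
    intro q x v i _ _ t ht
    simp [cts] at ht
  | cons j js ih =>
    intro q x v i hE hR t ht
    obtain ⟨hEx, hR'⟩ := hR
    have h4 : q.ct x v i < q.ct x v j := (h2 S).2.2.2.1 q x v i j hE hEx
    have hEn : (q.nx j).En x v (q.en j) := ((h1 S).2.1 q x v j).1 hEx
    have hct : (q.nx j).ct x v (q.en j) = q.ct x v j := (h2 S).1 q x v j
    have ht' : t = q.ct x v j ∨ t ∈ cts (q.nx j) x v js := by
      simpa [cts] using ht
    rcases ht' with rfl | ht'
    · exact h4
    · have h5 := ih (q.nx j) x v (q.en j) hEn hR' t ht'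
      rw [hct] at h5
      exact h4.trans h5

/-- The crossing times of a run are strictly increasing. -/
private theorem cts_pw (h1 : Sa_EXU) (h2 : Sa_TIM) :
    ∀ (js : List (ZMod 3)) (q : Pl S) (x v : ℂ), Run q x v js →
      (cts q x v js).Pairwise (· < ·) := by
  intro js
  induction js with
  | nil =>
    intro q x v _
    simp [cts]
  | cons j js ih =>
    intro q x v hR
    obtain ⟨hEx, hR'⟩ := hR
    have hEn : (q.nx j).En x v (q.en j) := ((h1 S).2.1 q x v j).1 hEx
    have hct : (q.nx j).ct x v (q.en j) = q.ct x v j := (h2 S).1 q x v j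
    have hk := cts_key h1 h2 js (q.nx j) x v (q.en j) hEn hR'
    rw [hct] at hk
    show (q.ct x v j :: cts (q.nx j) x v js).Pairwise (· < ·)
    exact List.pairwise_cons.2 ⟨hk, ih (q.nx j) x v hR'⟩

/-- A point of the line in the interior of the last room comes after the entering time of the first
room. -/
private theorem cts_in (h1 : Sa_EXU) (h2 : Sa_TIM) :
    ∀ (js : List (ZMod 3)) (q : Pl S) (x v : ℂ) (i : ZMod 3) (τ : ℝ), q.En x v i → Run q x v js →
      (endP q js).In (x + τ * v) → q.ct x v i < τ ∧ ∀ t ∈ cts q x v js, t < τ := by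
  intro js
  induction js with
  | nil =>
    intro q x v i τ hE _ hI
    refine ⟨(h2 S).2.2.1 q x v i τ hE hI, ?_⟩
    intro t ht
    simp [cts] at ht
  | cons j js ih =>
    intro q x v i τ hE hR hI
    obtain ⟨hEx, hR'⟩ := hR
    have h4 : q.ct x v i < q.ct x v j := (h2 S).2.2.2.1 q x v i j hE hEx
    have hEn : (q.nx j).En x v (q.en j) := ((h1 S).2.1 q x v j).1 hEx
    have hct : (q.nx j).ct x v (q.en j) = q.ct x v j := (h2 S).1 q x v j
    have h5 := ih (q.nx j) x v (q.en j) τ hEn hR' hI
    rw [hct] at h5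
    refine ⟨h4.trans h5.1, ?_⟩
    intro t ht
    have ht' : t = q.ct x v j ∨ t ∈ cts (q.nx j) x v js := by
      simpa [cts] using ht
    rcases ht' with rfl | ht'
    · exact h5.1
    · exact h5.2 t ht'

theorem m_CTS (h1 : Sa_EXU) (h2 : Sa_TIM) : Sa_CTS := by
  intro S
  refine ⟨cts_pw h1 h2, ?_, ?_, ?_⟩
  · intro js q x v j hR t ht
    have hp := cts_pw h1 h2 (js ++ [j]) q x v hR
    have hc : cts q x v (js ++ [j]) = cts q x v js ++ cts (endP q js) x v [j] :=
      ((h1 S).2.2.2.2.2.2.2 js [j] q x v 0).2.2.2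
    rw [hc] at hp
    have hp' := (List.pairwise_append.1 hp).2.2 t ht ((endP q js).ct x v j)
    exact hp' (by simp [cts])
  · intro js q x v τ hR hI t ht
    cases js with
    | nil => simp [cts] at ht
    | cons j js =>
      obtain ⟨hEx, hR'⟩ := hR
      have hEn : (q.nx j).En x v (q.en j) := ((h1 S).2.1 q x v j).1 hEx
      have hct : (q.nx j).ct x v (q.en j) = q.ct x v j := (h2 S).1 q x v j
      have h5 := cts_in h1 h2 js (q.nx j) x v (q.en j) τ hEn hR' hI
      rw [hct] at h5
      have ht' : t = q.ct x v j ∨ t ∈ cts (q.nx j) x v js := by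
        simpa [cts] using ht
      rcases ht' with rfl | ht'
      · exact h5.1
      · exact h5.2 t ht'
  · intro js q x v hI hR t ht
    cases js with
    | nil => simp [cts] at ht
    | cons j js =>
      obtain ⟨hEx, hR'⟩ := hR
      have hEn : (q.nx j).En x v (q.en j) := ((h1 S).2.1 q x v j).1 hEx
      have hct : (q.nx j).ct x v (q.en j) = q.ct x v j := (h2 S).1 q x v j
      have h0 : 0 < q.ct x v j := (h2 S).2.2.2.2.2.2.1 q x v j hI hEx
      have hk := cts_key h1 h2 js (q.nx j) x v (q.en j) hEn hR'
      rw [hct] at hk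
      have ht' : t = q.ct x v j ∨ t ∈ cts (q.nx j) x v js := by
        simpa [cts] using ht
      rcases ht' with rfl | ht'
      · exact h0
      · exact h0.trans (hk t ht')

end Pool.Agent.FAN
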