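import Pool.Agent.FAN.StA

/-!
# FAN, block 1: DIA (helper35). Diameters and altitudes of the rooms.
-/

set_option autoImplicit false

open scoped ComplexConjugate
open MeasureTheory Set

namespace Pool.Agent.FAN

private theorem dia_cx_le (v w : ℂ) (hv : ‖v‖ = 1) : cx v w ≤ ‖w‖ := by
  have h : cx v w = (conj v * w).im := by
    simp [cx, Complex.mul_im]
    ring
  rw [h]
  calc (conj v * w).im ≤ |(conj v * w).im| := le_abs_self _
    _ ≤ ‖conj v * w‖ := Complex.abs_im_le_norm _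
    _ = ‖w‖ := by rw [norm_mul, RCLike.norm_conj, hv, one_mul]

private theorem dia_cx_mul (a z w : ℂ) (ha : ‖a‖ = 1) : cx (a * z) (a * w) = cx z w := by
  have h : a.re * a.re + a.im * a.im = 1 := by
    have h1 : Complex.normSq a = 1 := by
      rw [Complex.normSq_eq_norm_sq, ha]; norm_num
    rwa [Complex.normSq_apply] at h1
  simp only [cx, Complex.mul_re, Complex.mul_im]
  linear_combination (z.re * w.im - z.im * w.re) * h

private theorem dia_ori (S : TriSys) (r : S.R) (i : ZMod 3) :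
    0 < cx (S.P r (i + 1) - S.P r i) (S.P r (i + 2) - S.P r i) := by
  have h := S.pos r
  fin_cases i
  · exact h
  · have h3 : ((1 : ZMod 3) + 2) = 0 := by decide
    have h4 : ((1 : ZMod 3) + 1) = 2 := by decide
    show 0 < cx (S.P r ((1 : ZMod 3) + 1) - S.P r (1 : ZMod 3))
      (S.P r ((1 : ZMod 3) + 2) - S.P r (1 : ZMod 3))
    rw [h3, h4]
    simp only [cx, Complex.sub_re, Complex.sub_im] at h ⊢
    linarith
  · have h3 : ((2 : ZMod 3) + 2) = 1 := by decide
    have h4 : ((2 : ZMod 3) + 1) = 0 := by decide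
    show 0 < cx (S.P r ((2 : ZMod 3) + 1) - S.P r (2 : ZMod 3))
      (S.P r ((2 : ZMod 3) + 2) - S.P r (2 : ZMod 3))
    rw [h3, h4]
    simp only [cx, Complex.sub_re, Complex.sub_im] at h ⊢
    linarith

private theorem dia_V_sub {S : TriSys} (q : Pl S) (i j : ZMod 3) :
    q.V i - q.V j = q.a * (S.P q.r i - S.P q.r j) := by
  simp only [Pl.V]; ring

private theorem dia_norm_V {S : TriSys} (q : Pl S) (i j : ZMod 3) :
    ‖q.V i - q.V j‖ = ‖S.P q.r i - S.P q.r j‖ := by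
  rw [dia_V_sub, norm_mul, q.ha, one_mul]

theorem m_DIA (h1 : Sa_TIM) : Sa_DIA := by
  intro S
  classical
  haveI : Fintype S.R := S.fR
  set D : ℝ := 1 + ∑ d : S.R × ZMod 3 × ZMod 3, ‖S.P d.1 d.2.1 - S.P d.1 d.2.2‖ with hD
  set f : S.R × ZMod 3 → ℝ := fun d =>
    cx (S.P d.1 (d.2 + 1) - S.P d.1 d.2) (S.P d.1 (d.2 + 2) - S.P d.1 d.2) /
      ‖S.P d.1 (d.2 + 2) - S.P d.1 (d.2 + 1)‖ with hf
  have hfpos : ∀ d, 0 < f d := by
    intro d
    exact div_pos (dia_ori S d.1 d.2) (norm_pos_iff.2 (S.ne12 d))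
  set h : ℝ := (1 + ∑ d, (f d)⁻¹)⁻¹ with hh
  have hsum : 0 ≤ ∑ d, (f d)⁻¹ := Finset.sum_nonneg fun d _ => (inv_pos.2 (hfpos d)).le
  have hpos : 0 < h := inv_pos.2 (by linarith)
  have hle : ∀ d, h ≤ f d := by
    intro d
    have h2 : (f d)⁻¹ ≤ ∑ d, (f d)⁻¹ :=
      Finset.single_le_sum (f := fun d => (f d)⁻¹) (fun d _ => (inv_pos.2 (hfpos d)).le)
        (Finset.mem_univ d)
    have h3 : (f d)⁻¹ ≤ 1 + ∑ d, (f d)⁻¹ := by linarith
    have h4 := inv_anti₀ (inv_pos.2 (hfpos d)) h3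
    rwa [inv_inv] at h4
  have hV : ∀ (q : Pl S) (i j : ZMod 3), ‖q.V i - q.V j‖ ≤ D := by
    intro q i j
    rw [dia_norm_V]
    have h2 := Finset.single_le_sum
      (f := fun d : S.R × ZMod 3 × ZMod 3 => ‖S.P d.1 d.2.1 - S.P d.1 d.2.2‖)
      (s := Finset.univ) (fun d _ => norm_nonneg _) (Finset.mem_univ (q.r, i, j))
    have h3 : ‖S.P q.r i - S.P q.r j‖ ≤
      ∑ d : S.R × ZMod 3 × ZMod 3, ‖S.P d.1 d.2.1 - S.P d.1 d.2.2‖ := h2
    linarith
  have hD1 : 1 ≤ D := by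
    have : 0 ≤ ∑ d : S.R × ZMod 3 × ZMod 3, ‖S.P d.1 d.2.1 - S.P d.1 d.2.2‖ :=
      Finset.sum_nonneg fun d _ => norm_nonneg _
    linarith
  refine ⟨D, h, hD1, hpos, hV, ?_, ?_, ?_⟩
  · intro q y i hy
    have w0 := hy 0
    have w1 := hy 1
    have w2 := hy 2
    have e1 : ((1 : ZMod 3) + 2) = 0 := by decide
    have e2 : ((1 : ZMod 3) + 1) = 2 := by decide
    have e3 : ((2 : ZMod 3) + 2) = 1 := by decide
    have e4 : ((2 : ZMod 3) + 1) = 0 := by decide
    have e5 : ((0 : ZMod 3) + 2) = 2 := by decide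
    have e6 : ((0 : ZMod 3) + 1) = 1 := by decide
    rw [e5, e6] at w0
    rw [e1, e2] at w1
    rw [e3, e4] at w2
    set a0 := cx (q.V 2 - q.V 1) (y - q.V 1) with ha0
    set a1 := cx (q.V 0 - q.V 2) (y - q.V 2) with ha1
    set a2 := cx (q.V 1 - q.V 0) (y - q.V 0) with ha2
    have hid : ((a0 + a1 + a2 : ℝ) : ℂ) * (y - q.V i) =
        (a0 : ℂ) * (q.V 0 - q.V i) + (a1 : ℂ) * (q.V 1 - q.V i) + (a2 : ℂ) * (q.V 2 - q.V i) := by
      apply Complex.ext
      · simp only [ha0, ha1, ha2, cx, Complex.mul_re, Complex.mul_im, Complex.add_re, Complex.add_im,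
          Complex.sub_re, Complex.sub_im, Complex.ofReal_re, Complex.ofReal_im]
        ring
      · simp only [ha0, ha1, ha2, cx, Complex.mul_re, Complex.mul_im, Complex.add_re, Complex.add_im,
          Complex.sub_re, Complex.sub_im, Complex.ofReal_re, Complex.ofReal_im]
        ring
    have hs : 0 < a0 + a1 + a2 := by linarith
    have hn : (a0 + a1 + a2) * ‖y - q.V i‖ ≤ (a0 + a1 + a2) * D := by
      have h5 : ‖((a0 + a1 + a2 : ℝ) : ℂ) * (y - q.V i)‖ = (a0 + a1 + a2) * ‖y - q.V i‖ := by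
        rw [norm_mul, Complex.norm_real, Real.norm_of_nonneg hs.le]
      rw [← h5, hid]
      refine (norm_add₃_le).trans ?_
      rw [norm_mul, norm_mul, norm_mul, Complex.norm_real, Complex.norm_real, Complex.norm_real,
        Real.norm_of_nonneg w0.le, Real.norm_of_nonneg w1.le, Real.norm_of_nonneg w2.le]
      have b0 := mul_le_mul_of_nonneg_left (hV q 0 i) w0.le
      have b1 := mul_le_mul_of_nonneg_left (hV q 1 i) w1.le
      have b2 := mul_le_mul_of_nonneg_left (hV q 2 i) w2.le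
      linarith
    exact le_of_mul_le_mul_left hn hs
  · intro q x v i j hE
    obtain ⟨l, hl0, hl1, hl⟩ := (h1 S).2.2.2.2.2.2.2.1 q x v j hE
    have hid : x + q.ct x v j * v - q.V i =
        ((1 - l : ℝ) : ℂ) * (q.V (j + 1) - q.V i) + (l : ℂ) * (q.V (j + 2) - q.V i) := by
      rw [hl]; push_cast; ring
    rw [hid]
    refine (norm_add_le _ _).trans ?_
    rw [norm_mul, norm_mul, Complex.norm_real, Complex.norm_real, Real.norm_of_nonneg hl0.le,
      Real.norm_of_nonneg (by linarith : (0 : ℝ) ≤ 1 - l)]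
    have b0 := mul_le_mul_of_nonneg_left (hV q (j + 1) i) (by linarith : (0 : ℝ) ≤ 1 - l)
    have b1 := mul_le_mul_of_nonneg_left (hV q (j + 2) i) hl0.le
    linarith
  · intro q v i hv hE
    obtain ⟨g1, g2⟩ := hE
    have hden : cx v (q.V (i + 2) - q.V (i + 1)) =
        cx v (q.V (i + 2) - q.V i) - cx v (q.V (i + 1) - q.V i) := by
      simp only [cx, Complex.sub_re, Complex.sub_im]; ring
    have hden0 : 0 < cx v (q.V (i + 2) - q.V (i + 1)) := by rw [hden]; linarith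
    have hdenle : cx v (q.V (i + 2) - q.V (i + 1)) ≤ ‖S.P q.r (i + 2) - S.P q.r (i + 1)‖ := by
      refine (dia_cx_le _ _ hv).trans ?_
      rw [dia_norm_V]
    have hnum : cx (q.V (i + 1) - q.V i) (q.V (i + 2) - q.V i) =
        cx (S.P q.r (i + 1) - S.P q.r i) (S.P q.r (i + 2) - S.P q.r i) := by
      rw [dia_V_sub, dia_V_sub, dia_cx_mul _ _ _ q.ha]
    refine (hle (q.r, i)).trans ?_
    simp only [hf, Pl.ct]
    rw [hnum]
    exact div_le_div_of_nonneg_left (dia_ori S q.r i).le hden0 hdenle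

end Pool.Agent.FAN
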