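import Pool.Agent.FAN.StA

/-!
# FAN, block 1, module ENT (helper75): the entering edge of the last room
-/

set_option autoImplicit false

namespace Pool.Agent.FAN

theorem m_ENT (h1 : Sa_EXU) (h2 : Sa_TIM) (h3 : Sa_CTS) : Sa_ENT := by
  intro S js
  have hE := (h1 S).2.1
  have hT := (h2 S).1
  have hC := (h3 S).1
  induction js with
  | nil => intro q x v i h; exact absurd rfl h
  | cons j js ih =>
    intro q x v i _ hR
    obtain ⟨hj, hR'⟩ := hR
    rcases eq_or_ne js [] with rfl | hne
    · have e : (q.nx j).ct x v (q.en j) = q.ct x v j := hT q x v j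
      refine ⟨(hE q x v j).1 hj, rfl, ?_, ?_⟩
      · change (q.nx j).ct x v (q.en j) ∈ [q.ct x v j]
        rw [e]
        exact List.mem_singleton_self _
      · intro t ht
        change t ∈ [q.ct x v j] at ht
        change t ≤ (q.nx j).ct x v (q.en j)
        rw [e, List.mem_singleton.1 ht]
    · obtain ⟨a1, -, a3, a4⟩ := ih (q.nx j) x v (q.en j) hne hR'
      refine ⟨a1, rfl, List.mem_cons_of_mem _ a3, ?_⟩
      intro t ht
      change t ∈ q.ct x v j :: cts (q.nx j) x v js at ht
      rcases List.mem_cons.1 ht with rfl | ht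
      · have h4 := hC (j :: js) q x v ⟨hj, hR'⟩
        change (q.ct x v j :: cts (q.nx j) x v js).Pairwise (· < ·) at h4
        exact ((List.pairwise_cons.1 h4).1 _ a3).le
      · exact a4 t ht

end Pool.Agent.FAN
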