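import Pool.Agent.FAN.StA

/-!
# FAN, block 1, LEN (helper30)

The number of crossed edges is at most linear in the time. Potential `A t + B g`, where `g` is the angle
(arctan) of the crossed edge seen from the end point of the edge within distance `ℓ / 2` of the crossing
point, and `0` if there is no such end point. It grows by at least one at every room.
-/

set_option autoImplicit false

open scoped ComplexConjugate
open MeasureTheory Set

namespace Pool.Agent.FAN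

/-- the angle at `O` between the perpendicular to the line and the point `x + t v` -/
private noncomputable def len_arc (x v O : ℂ) (t : ℝ) : ℝ :=
  Real.arctan ((t - dt v (O - x)) / |cx v (O - x)|)

private theorem len_arc_lt (x v O : ℂ) (t : ℝ) : len_arc x v O t < Real.pi / 2 :=
  Real.arctan_lt_pi_div_two _

private theorem len_arc_gt (x v O : ℂ) (t : ℝ) : -(Real.pi / 2) < len_arc x v O t :=
  Real.neg_pi_div_two_lt_arctan _

private theorem len_nsq (x v O : ℂ) (t : ℝ) (hv : ‖v‖ = 1) :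
    ‖x + t * v - O‖ ^ 2 = (t - dt v (O - x)) ^ 2 + |cx v (O - x)| ^ 2 := by
  have h1 : v.re ^ 2 + v.im ^ 2 = 1 := by
    have h := Complex.sq_norm v
    rw [hv, Complex.normSq_apply] at h
    nlinarith [h]
  rw [sq_abs, Complex.sq_norm, Complex.normSq_apply]
  simp only [cx, dt, Complex.add_re, Complex.add_im, Complex.sub_re, Complex.sub_im, Complex.mul_re,
    Complex.mul_im, Complex.ofReal_re, Complex.ofReal_im]
  linear_combination (t ^ 2 - ((O.re - x.re) ^ 2 + (O.im - x.im) ^ 2)) * h1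

private theorem len_cx (x v O : ℂ) (t t' : ℝ) :
    cx (x + t * v - O) (x + t' * v - O) = (t' - t) * cx v (O - x) := by
  simp only [cx, Complex.add_re, Complex.add_im, Complex.sub_re, Complex.sub_im, Complex.mul_re,
    Complex.mul_im, Complex.ofReal_re, Complex.ofReal_im]
  ring

/-- twice the area of the triangle `O, x + t v, x + t' v` -/
private theorem len_area (x v O E E' : ℂ) (t t' l l' s : ℝ) (hl : 0 < l) (hl' : 0 < l')
    (ht : t < t') (h : x + t * v - O = l * (E - O)) (h' : x + t' * v - O = l' * (E' - O))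
    (hs : s * ‖E - O‖ * ‖E' - O‖ ≤ |cx (E - O) (E' - O)|) :
    s * ‖x + t * v - O‖ * ‖x + t' * v - O‖ ≤ (t' - t) * |cx v (O - x)| := by
  have e1 : (t' - t) * |cx v (O - x)| = |cx (x + t * v - O) (x + t' * v - O)| := by
    rw [len_cx, abs_mul, abs_of_pos (sub_pos.2 ht)]
  have e2 : cx ((l : ℂ) * (E - O)) (l' * (E' - O)) = l * l' * cx (E - O) (E' - O) := by
    simp only [cx, Complex.mul_re, Complex.mul_im, Complex.ofReal_re, Complex.ofReal_im]
    ring
  rw [e1, h, h', e2, norm_mul, norm_mul, Complex.norm_real, Complex.norm_real, Real.norm_eq_abs,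
    Real.norm_eq_abs, abs_of_pos hl, abs_of_pos hl', abs_mul, abs_of_pos (mul_pos hl hl')]
  calc s * (l * ‖E - O‖) * (l' * ‖E' - O‖) = l * l' * (s * ‖E - O‖ * ‖E' - O‖) := by ring
    _ ≤ l * l' * |cx (E - O) (E' - O)| :=
      mul_le_mul_of_nonneg_left hs (mul_pos hl hl').le

private theorem len_sqrt (a h d : ℝ) (hh : 0 < h) (hd : 0 ≤ d) (e : d ^ 2 = a ^ 2 + h ^ 2) :
    Real.sqrt (1 + (a / h) ^ 2) = d / h := by
  have e1 : 1 + (a / h) ^ 2 = (d / h) ^ 2 := by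
    rw [div_pow, div_pow, e]
    field_simp
    ring
  rw [e1, Real.sqrt_sq (div_nonneg hd hh.le)]

/-- the angle grows by at least `s` -/
private theorem len_angle (a b h d d' s : ℝ) (hh : 0 < h) (hd : 0 ≤ d) (hd' : 0 ≤ d')
    (e : d ^ 2 = a ^ 2 + h ^ 2) (e' : d' ^ 2 = b ^ 2 + h ^ 2) (hab : a < b)
    (H : s * d * d' ≤ (b - a) * h) :
    s ≤ Real.arctan (b / h) - Real.arctan (a / h) := by
  have hd0 : 0 < d := by
    rcases hd.eq_or_lt with h0 | h0
    · rw [← h0] at e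
      nlinarith [sq_nonneg a, mul_pos hh hh]
    · exact h0
  have hd0' : 0 < d' := by
    rcases hd'.eq_or_lt with h0 | h0
    · rw [← h0] at e'
      nlinarith [sq_nonneg b, mul_pos hh hh]
    · exact h0
  have h1 : Real.sin (Real.arctan (b / h) - Real.arctan (a / h)) = (b - a) * h / (d * d') := by
    rw [Real.sin_sub, Real.sin_arctan, Real.sin_arctan, Real.cos_arctan, Real.cos_arctan,
      len_sqrt a h d hh hd e, len_sqrt b h d' hh hd' e']
    field_simp
  have h2 : 0 ≤ Real.arctan (b / h) - Real.arctan (a / h) := by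
    rw [sub_nonneg]
    exact Real.arctan_mono (div_le_div_of_nonneg_right hab.le hh.le)
  have h3 := Real.sin_le h2
  rw [h1] at h3
  refine le_trans ?_ h3
  rw [le_div_iff₀ (mul_pos hd0 hd0')]
  linarith

/-- one room with pivot `O` -/
private theorem len_step (x v O E E' : ℂ) (t t' l l' s : ℝ) (hv : ‖v‖ = 1) (hs0 : 0 < s)
    (hO : cx v (O - x) ≠ 0) (hl : 0 < l) (hl' : 0 < l')
    (ht : t < t') (h : x + t * v - O = l * (E - O)) (h' : x + t' * v - O = l' * (E' - O))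
    (hs : s * ‖E - O‖ * ‖E' - O‖ ≤ |cx (E - O) (E' - O)|) :
    s ≤ len_arc x v O t' - len_arc x v O t ∧ s * ‖x + t * v - O‖ ≤ t' - t ∧
      s * ‖x + t' * v - O‖ ≤ t' - t := by
  have H := len_area x v O E E' t t' l l' s hl hl' ht h h' hs
  have hh : 0 < |cx v (O - x)| := abs_pos.2 hO
  have e := len_nsq x v O t hv
  have e' := len_nsq x v O t' hv
  have d0 := norm_nonneg (x + t * v - O)
  have d0' := norm_nonneg (x + t' * v - O)
  have k1 : |cx v (O - x)| ≤ ‖x + t * v - O‖ := by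
    refine le_of_not_gt fun hlt => ?_
    nlinarith [sq_nonneg (t - dt v (O - x))]
  have k2 : |cx v (O - x)| ≤ ‖x + t' * v - O‖ := by
    refine le_of_not_gt fun hlt => ?_
    nlinarith [sq_nonneg (t' - dt v (O - x))]
  refine ⟨?_, ?_, ?_⟩
  · refine len_angle _ _ _ _ _ s hh d0 d0' e e' (by linarith) ?_
    calc s * ‖x + t * v - O‖ * ‖x + t' * v - O‖ ≤ (t' - t) * |cx v (O - x)| := H
      _ = _ := by ring
  · have h1 : s * ‖x + t * v - O‖ * |cx v (O - x)| ≤ s * ‖x + t * v - O‖ * ‖x + t' * v - O‖ :=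
      mul_le_mul_of_nonneg_left k2 (mul_nonneg hs0.le d0)
    exact le_of_mul_le_mul_right (h1.trans H) hh
  · have h1 : s * ‖x + t' * v - O‖ * |cx v (O - x)| ≤ s * ‖x + t' * v - O‖ * ‖x + t * v - O‖ :=
      mul_le_mul_of_nonneg_left k1 (mul_nonneg hs0.le d0')
    refine le_of_mul_le_mul_right (h1.trans (le_trans (le_of_eq ?_) H)) hh
    ring

open Classical in
/-- the angle at the close end point -/
private noncomputable def len_g (x v : ℂ) (ℓ : ℝ) (L R : ℂ) (t : ℝ) : ℝ :=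
  if ‖x + t * v - L‖ < ℓ / 2 then len_arc x v L t else
    if ‖x + t * v - R‖ < ℓ / 2 then len_arc x v R t else 0

private theorem len_g_left (x v : ℂ) (ℓ : ℝ) (L R : ℂ) (t : ℝ) (h : ‖x + t * v - L‖ < ℓ / 2) :
    len_g x v ℓ L R t = len_arc x v L t := by
  rw [len_g, if_pos h]

private theorem len_g_right (x v : ℂ) (ℓ : ℝ) (L R : ℂ) (t : ℝ) (hLR : ℓ ≤ ‖L - R‖)
    (h : ‖x + t * v - R‖ < ℓ / 2) : len_g x v ℓ L R t = len_arc x v R t := by
  have h1 : ¬ ‖x + t * v - L‖ < ℓ / 2 := by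
    intro h2
    have h3 : ‖L - R‖ ≤ ‖x + t * v - R‖ + ‖x + t * v - L‖ := by
      calc ‖L - R‖ = ‖(x + t * v - R) - (x + t * v - L)‖ := by congr 1; ring
        _ ≤ _ := norm_sub_le _ _
    linarith
  rw [len_g, if_neg h1, if_pos h]

private theorem len_g_le (x v : ℂ) (ℓ : ℝ) (L R : ℂ) (t : ℝ) :
    len_g x v ℓ L R t ≤ Real.pi / 2 := by
  have hp := Real.pi_pos
  rw [len_g]
  split_ifs
  · exact (len_arc_lt _ _ _ _).le
  · exact (len_arc_lt _ _ _ _).le
  · linarith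

private theorem len_g_ge (x v : ℂ) (ℓ : ℝ) (L R : ℂ) (t : ℝ) :
    -(Real.pi / 2) ≤ len_g x v ℓ L R t := by
  have hp := Real.pi_pos
  rw [len_g]
  split_ifs
  · exact (len_arc_gt _ _ _ _).le
  · exact (len_arc_gt _ _ _ _).le
  · linarith

private theorem len_mul_norm (a z w : ℂ) (ha : ‖a‖ = 1) : cx (a * z) (a * w) = cx z w := by
  have h1 : a.re ^ 2 + a.im ^ 2 = 1 := by
    have h := Complex.sq_norm a
    rw [ha, Complex.normSq_apply] at h
    nlinarith [h]
  simp only [cx, Complex.mul_re, Complex.mul_im]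
  linear_combination (z.re * w.im - z.im * w.re) * h1

private theorem len_pos_inf {α : Type} [Finite α] (f : α → ℝ) (hf : ∀ a, 0 < f a) :
    ∃ s : ℝ, 0 < s ∧ ∀ a, s ≤ f a := by
  rcases isEmpty_or_nonempty α with h | h
  · exact ⟨1, one_pos, fun a => (h.false a).elim⟩
  · obtain ⟨a, ha⟩ := Finite.exists_min f
    exact ⟨f a, hf a, ha⟩

variable {S : TriSys}

private theorem len_Vsub (q : Pl S) (i j : ZMod 3) :
    q.V i - q.V j = q.a * (S.P q.r i - S.P q.r j) := by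
  simp only [Pl.V]
  ring

private theorem len_ell (S : TriSys) : ∃ ℓ : ℝ, 0 < ℓ ∧ ∀ (q : Pl S) (i : ZMod 3),
    ℓ ≤ ‖q.V (i + 2) - q.V (i + 1)‖ := by
  obtain ⟨s, hs, h⟩ := len_pos_inf (fun d : S.R × ZMod 3 => ‖S.P d.1 (d.2 + 2) - S.P d.1 (d.2 + 1)‖)
    (fun d => norm_pos_iff.2 (S.ne12 d))
  refine ⟨s, hs, fun q i => ?_⟩
  rw [len_Vsub, norm_mul, q.ha, one_mul]
  exact h (q.r, i)

private theorem len_sin (h2 : Sa_ORI) (S : TriSys) : ∃ s : ℝ, 0 < s ∧ ∀ (q : Pl S) (i : ZMod 3),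
    s * ‖q.V (i + 1) - q.V i‖ * ‖q.V (i + 2) - q.V i‖ ≤
      cx (q.V (i + 1) - q.V i) (q.V (i + 2) - q.V i) := by
  have hpos : ∀ d : S.R × ZMod 3,
      0 < cx (S.P d.1 (d.2 + 1) - S.P d.1 d.2) (S.P d.1 (d.2 + 2) - S.P d.1 d.2) := by
    intro d
    have h := h2 S (Pl.home S d.1) d.2
    simpa [Pl.V, Pl.home] using h
  have hn1 : ∀ d : S.R × ZMod 3, 0 < ‖S.P d.1 (d.2 + 1) - S.P d.1 d.2‖ := by
    intro d
    rw [norm_pos_iff]
    intro h0
    have h := hpos d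
    rw [h0] at h
    simp [cx] at h
  have hn2 : ∀ d : S.R × ZMod 3, 0 < ‖S.P d.1 (d.2 + 2) - S.P d.1 d.2‖ := by
    intro d
    rw [norm_pos_iff]
    intro h0
    have h := hpos d
    rw [h0] at h
    simp [cx] at h
  obtain ⟨s, hs, h⟩ := len_pos_inf (fun d : S.R × ZMod 3 =>
    cx (S.P d.1 (d.2 + 1) - S.P d.1 d.2) (S.P d.1 (d.2 + 2) - S.P d.1 d.2) /
      (‖S.P d.1 (d.2 + 1) - S.P d.1 d.2‖ * ‖S.P d.1 (d.2 + 2) - S.P d.1 d.2‖))
    (fun d => div_pos (hpos d) (mul_pos (hn1 d) (hn2 d)))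
  refine ⟨s, hs, fun q i => ?_⟩
  rw [len_Vsub, len_Vsub, len_mul_norm _ _ _ q.ha, norm_mul, norm_mul, q.ha, one_mul, one_mul]
  have h3 := h (q.r, i)
  simp only at h3
  rw [le_div_iff₀ (mul_pos (hn1 (q.r, i)) (hn2 (q.r, i)))] at h3
  linarith

/-- the potential grows by at least one -/
private theorem len_grow (h3 : Sa_EXU) (h4 : Sa_TIM) (ℓ s A B : ℝ) (hℓ : 0 < ℓ) (hs : 0 < s)
    (hB : B * s = 1) (hA : A * (s * (ℓ / 2)) = 1 + B * Real.pi)
    (hell : ∀ (q : Pl S) (i : ZMod 3), ℓ ≤ ‖q.V (i + 2) - q.V (i + 1)‖)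
    (hsin : ∀ (q : Pl S) (i : ZMod 3), s * ‖q.V (i + 1) - q.V i‖ * ‖q.V (i + 2) - q.V i‖ ≤
      cx (q.V (i + 1) - q.V i) (q.V (i + 2) - q.V i))
    (q : Pl S) (x v : ℂ) (hv : ‖v‖ = 1) (i j : ZMod 3) (hE : q.En x v i) (hX : q.Ex x v j) :
    A * q.ct x v i + B * len_g x v ℓ (q.V (i + 1)) (q.V (i + 2)) (q.ct x v i) + 1 ≤
      A * q.ct x v j + B * len_g x v ℓ (q.V (j + 2)) (q.V (j + 1)) (q.ct x v j) := by
  have hp := Real.pi_pos
  have hB0 : 0 < B := by
    rcases lt_or_ge 0 B with h | h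
    · exact h
    · nlinarith
  have hA0 : 0 < A := by
    rcases lt_or_ge 0 A with h | h
    · exact h
    · have : 0 < s * (ℓ / 2) := by positivity
      have : 0 < B * Real.pi := by positivity
      nlinarith
  have htt : q.ct x v i < q.ct x v j := (h4 S).2.2.2.1 q x v i j hE hX
  obtain ⟨l, hl0, hl1, hl⟩ := (h4 S).2.2.2.2.2.2.2.1 q x v i (Or.inr hE)
  obtain ⟨l', hl0', hl1', hl'⟩ := (h4 S).2.2.2.2.2.2.2.1 q x v j (Or.inl hX)
  have g1 := len_g_le x v ℓ (q.V (i + 1)) (q.V (i + 2)) (q.ct x v i)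
  have g2 := len_g_ge x v ℓ (q.V (j + 2)) (q.V (j + 1)) (q.ct x v j)
  -- the pivot
  have key : ∀ O E E' : ℂ, ∀ m m' : ℝ, cx v (O - x) ≠ 0 → 0 < m → 0 < m' →
      x + q.ct x v i * v - O = m * (E - O) → x + q.ct x v j * v - O = m' * (E' - O) →
      s * ‖E - O‖ * ‖E' - O‖ ≤ |cx (E - O) (E' - O)| →
      (‖x + q.ct x v i * v - O‖ < ℓ / 2 →
        len_g x v ℓ (q.V (i + 1)) (q.V (i + 2)) (q.ct x v i) = len_arc x v O (q.ct x v i)) →
      (‖x + q.ct x v j * v - O‖ < ℓ / 2 →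
        len_g x v ℓ (q.V (j + 2)) (q.V (j + 1)) (q.ct x v j) = len_arc x v O (q.ct x v j)) →
      A * q.ct x v i + B * len_g x v ℓ (q.V (i + 1)) (q.V (i + 2)) (q.ct x v i) + 1 ≤
        A * q.ct x v j + B * len_g x v ℓ (q.V (j + 2)) (q.V (j + 1)) (q.ct x v j) := by
    intro O E E' m m' hO hm hm' e e' hs1 G1 G2
    obtain ⟨k1, k2, k3⟩ := len_step x v O E E' _ _ m m' s hv hs hO hm hm' htt e e' hs1
    by_cases c1 : ‖x + q.ct x v i * v - O‖ < ℓ / 2
    · by_cases c2 : ‖x + q.ct x v j * v - O‖ < ℓ / 2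
      · rw [G1 c1, G2 c2]
        have a1 : B * s ≤ B * (len_arc x v O (q.ct x v j) - len_arc x v O (q.ct x v i)) :=
          mul_le_mul_of_nonneg_left k1 hB0.le
        have a2 : A * q.ct x v i < A * q.ct x v j := mul_lt_mul_of_pos_left htt hA0
        rw [mul_sub] at a1
        linarith
      · have a1 : s * (ℓ / 2) ≤ q.ct x v j - q.ct x v i :=
          (mul_le_mul_of_nonneg_left (not_lt.1 c2) hs.le).trans k3
        have a2 : A * (s * (ℓ / 2)) ≤ A * (q.ct x v j - q.ct x v i) :=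
          mul_le_mul_of_nonneg_left a1 hA0.le
        have a3 := mul_le_mul_of_nonneg_left g1 hB0.le
        have a4 := mul_le_mul_of_nonneg_left g2 hB0.le
        rw [mul_sub] at a2
        linarith
    · have a1 : s * (ℓ / 2) ≤ q.ct x v j - q.ct x v i :=
        (mul_le_mul_of_nonneg_left (not_lt.1 c1) hs.le).trans k2
      have a2 : A * (s * (ℓ / 2)) ≤ A * (q.ct x v j - q.ct x v i) :=
        mul_le_mul_of_nonneg_left a1 hA0.le
      have a3 := mul_le_mul_of_nonneg_left g1 hB0.le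
      have a4 := mul_le_mul_of_nonneg_left g2 hB0.le
      rw [mul_sub] at a2
      linarith
  have z3 : ∀ k : ZMod 3, k + 1 + 1 = k + 2 ∧ k + 1 + 2 = k ∧ k + 2 + 1 = k ∧ k + 2 + 2 = k + 1 := by
    decide
  rcases (h3 S).2.2.2.2.1 q x v i j hE hX with ⟨hj, hi⟩ | ⟨hj, hi⟩
  · -- pivot `V (i + 2)`
    subst hj
    rw [(z3 i).1, (z3 i).2.1] at hl' ⊢ key
    refine key (q.V (i + 2)) (q.V (i + 1)) (q.V i) (1 - l) l' (ne_of_lt hE.2) (by linarith) hl0' ?_ ?_
      ?_ ?_ ?_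
    · rw [hl]
      push_cast
      ring
    · rw [hl']
      ring
    · have h := hsin q (i + 2)
      rw [(z3 i).2.2.1, (z3 i).2.2.2] at h
      have e : cx (q.V (i + 1) - q.V (i + 2)) (q.V i - q.V (i + 2)) =
          - cx (q.V i - q.V (i + 2)) (q.V (i + 1) - q.V (i + 2)) := by
        simp only [cx]
        ring
      rw [e, abs_neg]
      refine le_trans (le_trans (le_of_eq ?_) h) (le_abs_self _)
      ring
    · intro c
      refine len_g_right x v ℓ _ _ _ ?_ c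
      rw [norm_sub_rev]
      exact hell q i
    · intro c
      refine len_g_right x v ℓ _ _ _ ?_ c
      have h := hell q (i + 1)
      rwa [(z3 i).1, (z3 i).2.1] at h
  · -- pivot `V (i + 1)`
    subst hj
    rw [(z3 i).2.2.1, (z3 i).2.2.2] at hl' ⊢ key
    refine key (q.V (i + 1)) (q.V (i + 2)) (q.V i) l (1 - l') (ne_of_gt hE.1) hl0 (by linarith) ?_ ?_
      ?_ ?_ ?_
    · rw [hl]
      ring
    · rw [hl']
      push_cast
      ring
    · have h := hsin q (i + 1)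
      rw [(z3 i).1, (z3 i).2.1] at h
      exact h.trans (le_abs_self _)
    · intro c
      exact len_g_left x v ℓ _ _ _ c
    · intro c
      exact len_g_left x v ℓ _ _ _ c

private theorem len_ind (h1 : Sa_GLU) (h3 : Sa_EXU) (h4 : Sa_TIM) (ℓ s A B : ℝ) (hℓ : 0 < ℓ)
    (hs : 0 < s) (hB : B * s = 1) (hA : A * (s * (ℓ / 2)) = 1 + B * Real.pi) (hA0 : 0 ≤ A) (hB0 : 0 ≤ B)
    (hell : ∀ (q : Pl S) (i : ZMod 3), ℓ ≤ ‖q.V (i + 2) - q.V (i + 1)‖)
    (hsin : ∀ (q : Pl S) (i : ZMod 3), s * ‖q.V (i + 1) - q.V i‖ * ‖q.V (i + 2) - q.V i‖ ≤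
      cx (q.V (i + 1) - q.V i) (q.V (i + 2) - q.V i))
    (x v : ℂ) (hv : ‖v‖ = 1) (T₂ : ℝ) : ∀ (js : List (ZMod 3)) (q : Pl S) (i : ZMod 3),
    q.En x v i → Run q x v js → q.ct x v i ≤ T₂ → (∀ t ∈ cts q x v js, t ≤ T₂) →
    (js.length : ℝ) + (A * q.ct x v i + B * len_g x v ℓ (q.V (i + 1)) (q.V (i + 2)) (q.ct x v i)) ≤
      A * T₂ + B * (Real.pi / 2) := by
  intro js
  induction js with
  | nil =>
    intro q i _ _ ht _
    have g1 := mul_le_mul_of_nonneg_left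
      (len_g_le x v ℓ (q.V (i + 1)) (q.V (i + 2)) (q.ct x v i)) hB0
    have g2 := mul_le_mul_of_nonneg_left ht hA0
    simp only [List.length_nil, Nat.cast_zero]
    linarith
  | cons j js ih =>
    intro q i hE hR ht hT
    obtain ⟨hX, hR'⟩ := hR
    have hE' : (q.nx j).En x v (q.en j) := ((h3 S).2.1 q x v j).1 hX
    obtain ⟨e1, e2, -, -⟩ := h1 S q j
    have e3 := (h4 S).1 q x v j
    have hj : q.ct x v j ≤ T₂ := hT _ (by simp [cts])
    have := ih (q.nx j) (q.en j) hE' hR' (by rw [e3]; exact hj) (fun t ht => hT t (by simp [cts, ht]))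
    rw [e1, e2, e3] at this
    have hg := len_grow h3 h4 ℓ s A B hℓ hs hB hA hell hsin q x v hv i j hE hX
    simp only [List.length_cons, Nat.cast_add, Nat.cast_one]
    linarith

theorem m_LEN (h1 : Sa_GLU) (h2 : Sa_ORI) (h3 : Sa_EXU) (h4 : Sa_TIM) : Sa_LEN := by
  intro S
  obtain ⟨ℓ, hℓ, hell⟩ := len_ell S
  obtain ⟨s, hs, hsin⟩ := len_sin h2 S
  have hp := Real.pi_pos
  obtain ⟨B, hB0, hB⟩ : ∃ B : ℝ, 0 < B ∧ B * s = 1 := ⟨1 / s, by positivity, by field_simp⟩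
  obtain ⟨A, hA0, hA⟩ : ∃ A : ℝ, 0 < A ∧ A * (s * (ℓ / 2)) = 1 + B * Real.pi :=
    ⟨(1 + B * Real.pi) / (s * (ℓ / 2)), by positivity, by field_simp⟩
  refine ⟨1 + B * Real.pi + A, by positivity, ?_⟩
  intro js q x v T₁ T₂ hv hT hR hcts
  have hT0 : 0 ≤ T₂ - T₁ := by linarith
  have hBp : 0 < B * Real.pi := by positivity
  rcases js with _ | ⟨j, js⟩
  · simp only [List.length_nil, Nat.cast_zero]
    positivity
  · obtain ⟨hX, hR'⟩ := hR
    have hE' : (q.nx j).En x v (q.en j) := ((h3 S).2.1 q x v j).1 hX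
    have e3 := (h4 S).1 q x v j
    have hj := hcts (q.ct x v j) (by simp [cts])
    have := len_ind h1 h3 h4 ℓ s A B hℓ hs hB hA hA0.le hB0.le hell hsin x v hv T₂ js (q.nx j) (q.en j)
      hE' hR' (by rw [e3]; exact hj.2) (fun t ht => (hcts t (by simp [cts, ht])).2)
    have g1 := mul_le_mul_of_nonneg_left (len_g_ge x v ℓ ((q.nx j).V (q.en j + 1))
      ((q.nx j).V (q.en j + 2)) ((q.nx j).ct x v (q.en j))) hB0.le
    rw [e3] at this g1
    have g2 := mul_le_mul_of_nonneg_left hj.1 hA0.le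
    simp only [List.length_cons, Nat.cast_add, Nat.cast_one]
    have k1 : 0 ≤ (1 + B * Real.pi) * (T₂ - T₁) := by positivity
    nlinarith

end Pool.Agent.FAN
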