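import Pool.Agent.FAN.StA

/-!
# FAN, block 1: module PWR, reversal of phase points
-/

set_option autoImplicit false

open scoped ComplexConjugate
open MeasureTheory Set

namespace Pool.Agent.FAN

/-- PWR. -/
theorem m_PWR (h1 : Sa_MOV) (h2 : Sa_REV) (h3 : Sa_UNI) : Sa_PWR := by
  intro S r x v N js hv hPW q hq
  obtain ⟨hx, hrun, hend⟩ := hPW
  have hPW : PW S r x v N js := ⟨hx, hrun, hend⟩
  rw [← hq] at hend
  have ha0 : q.a ≠ 0 := by
    rw [← norm_ne_zero_iff, q.ha]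
    exact one_ne_zero
  have hc : ‖q.a⁻¹‖ = 1 := by rw [norm_inv, q.ha, inv_one]
  obtain ⟨r1, r2, r3, r4, r5⟩ := h2 S (Pl.home S r) x v N js
  rw [← hq] at r1 r2 r3 r4 r5
  obtain ⟨-, -, m3, -, m5⟩ := h1 S q.a⁻¹ (-q.b / q.a) hc
  obtain ⟨n1, n2, -, -, n5, n6⟩ := m5 (rev (Pl.home S r) js) q (x + N * v) (-v) 0
  -- the two placed rooms
  have e1 : q.mv q.a⁻¹ (-q.b / q.a) hc = Pl.home S q.r := by
    ext
    · rfl
    · change q.a⁻¹ * q.a = 1
      exact inv_mul_cancel₀ ha0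
    · change q.a⁻¹ * q.b + -q.b / q.a = 0
      field_simp
      ring
  have e2 : (Pl.home S r).mv q.a⁻¹ (-q.b / q.a) hc =
      ⟨r, q.a⁻¹, -q.b / q.a, by rw [norm_inv, q.ha, inv_one]⟩ := by
    ext
    · rfl
    · change q.a⁻¹ * 1 = q.a⁻¹
      rw [mul_one]
    · change q.a⁻¹ * 0 + -q.b / q.a = -q.b / q.a
      rw [mul_zero, zero_add]
  have ex : q.a⁻¹ * (x + N * v) + -q.b / q.a = (x + N * v - q.b) / q.a := by
    field_simp
    ring
  have ev' : q.a⁻¹ * -v = -v / q.a := by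
    field_simp
  rw [e1, ex, ev'] at n1 n5 n6
  rw [e1, r2, e2] at n2
  have hin := (m3 q (x + N * v)).2 hend
  rw [e1, ex] at hin
  have hfin : (endP (Pl.home S q.r) (rev (Pl.home S r) js)).In
      ((x + N * v - q.b) / q.a + N * (-v / q.a)) := by
    have h5 := (m3 (Pl.home S r) x).2 hx
    have h6 : (x + N * v - q.b) / q.a + N * (-v / q.a) = q.a⁻¹ * x + -q.b / q.a := by
      field_simp
      ring
    rw [n2, h6, ← e2]
    exact h5
  have hP : PW S q.r ((x + N * v - q.b) / q.a) (-v / q.a) N (rev (Pl.home S r) js) :=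
    ⟨hin, n1.2 (r1.1 hrun), hfin⟩
  obtain ⟨-, d1, s1⟩ := h3 S _ _ _ _ _ _ hP hP
  obtain ⟨-, d2, s2⟩ := h3 S _ _ _ _ _ _ hPW hPW
  refine ⟨hP, n2, ?_, ?_⟩
  · rw [d1, d2, n5, r4]
  · rw [s1, s2, d2, n5, n6, r4, r5 hv]
    ring

end Pool.Agent.FAN
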