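import Pool.Agent.FAN.StA

/-!
# FAN, block 1: TIM, crossing times (helper95)
-/

set_option autoImplicit false

open scoped ComplexConjugate
open MeasureTheory Set

namespace Pool.Agent.FAN

variable {S : TriSys}

/-- the affine function of an edge -/
noncomputable def timG (q : Pl S) (j : ZMod 3) (y : ℂ) : ℝ :=
  cx (q.V (j + 2) - q.V (j + 1)) (y - q.V (j + 1))

theorem tim_line (q : Pl S) (x v : ℂ) (j : ZMod 3) (τ : ℝ) :
    timG q j (x + τ * v) =
      cx (q.V (j + 1) - x) (q.V (j + 2) - x) - τ * cx v (q.V (j + 2) - q.V (j + 1)) := by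
  unfold timG cx
  simp only [Complex.sub_re, Complex.sub_im, Complex.add_re, Complex.add_im, Complex.mul_re,
    Complex.mul_im, Complex.ofReal_re, Complex.ofReal_im]
  ring

theorem tim_ct (q : Pl S) (x v : ℂ) (j : ZMod 3) (τ : ℝ)
    (hD : cx v (q.V (j + 2) - q.V (j + 1)) ≠ 0) :
    timG q j (x + τ * v) = cx v (q.V (j + 2) - q.V (j + 1)) * (q.ct x v j - τ) := by
  rw [tim_line, mul_sub]
  unfold Pl.ct
  rw [mul_div_cancel₀ _ hD]
  ring

theorem tim_sub (v a b x : ℂ) : cx v (a - b) = cx v (a - x) - cx v (b - x) := by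
  unfold cx
  simp only [Complex.sub_re, Complex.sub_im]
  ring

theorem tim_Ex {q : Pl S} {x v : ℂ} {j : ZMod 3} (h : q.Ex x v j) :
    0 < cx v (q.V (j + 2) - q.V (j + 1)) := by
  rw [tim_sub v _ _ x]
  linarith [h.1, h.2]

theorem tim_En {q : Pl S} {x v : ℂ} {i : ZMod 3} (h : q.En x v i) :
    cx v (q.V (i + 2) - q.V (i + 1)) < 0 := by
  rw [tim_sub v _ _ x]
  linarith [h.1, h.2]

theorem tim_conv (q : Pl S) (x v : ℂ) (j : ZMod 3) (h : q.Ex x v j ∨ q.En x v j) :
    ∃ l : ℝ, 0 < l ∧ l < 1 ∧ x + q.ct x v j * v = (1 - l) * q.V (j + 1) + l * q.V (j + 2) := by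
  set D := cx v (q.V (j + 2) - q.V (j + 1)) with hDdef
  have hD : D = cx v (q.V (j + 2) - x) - cx v (q.V (j + 1) - x) := tim_sub v _ _ x
  have hD0 : D ≠ 0 := by
    rcases h with h | h
    · exact (tim_Ex h).ne'
    · exact (tim_En h).ne
  refine ⟨-cx v (q.V (j + 1) - x) / D, ?_, ?_, ?_⟩
  · rcases h with h | h
    · exact div_pos (by linarith [h.2]) (tim_Ex h)
    · exact div_pos_of_neg_of_neg (by linarith [h.1]) (tim_En h)
  · rcases h with h | h
    · rw [div_lt_one (tim_Ex h)]
      linarith [h.1]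
    · rw [div_lt_one_of_neg (tim_En h)]
      linarith [h.2]
  · have e1 : ∀ l : ℝ, D * l = -cx v (q.V (j + 1) - x) →
        ∀ c : ℝ, D * c = cx (q.V (j + 1) - x) (q.V (j + 2) - x) →
        x + c * v = (1 - l) * q.V (j + 1) + l * q.V (j + 2) := by
      intro l hl c hc
      have key : (D : ℂ) * (x + c * v) = D * ((1 - l) * q.V (j + 1) + l * q.V (j + 2)) := by
        apply Complex.ext
        · simp only [Complex.add_re, Complex.mul_re, Complex.ofReal_re, Complex.ofReal_im,
            Complex.sub_re, Complex.one_re, Complex.sub_im, Complex.one_im, Complex.add_im,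
            Complex.mul_im]
          unfold cx at hl hc hD
          simp only [Complex.sub_re, Complex.sub_im] at hl hc hD
          linear_combination v.re * hc + ((q.V (j + 1)).re - (q.V (j + 2)).re) * hl +
            (x.re - (q.V (j + 1)).re) * hD
        · simp only [Complex.add_re, Complex.mul_re, Complex.ofReal_re, Complex.ofReal_im,
            Complex.sub_re, Complex.one_re, Complex.sub_im, Complex.one_im, Complex.add_im,
            Complex.mul_im]
          unfold cx at hl hc hD
          simp only [Complex.sub_re, Complex.sub_im] at hl hc hD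
          linear_combination v.im * hc + ((q.V (j + 1)).im - (q.V (j + 2)).im) * hl +
            (x.im - (q.V (j + 1)).im) * hD
      exact mul_left_cancel₀ (by exact_mod_cast hD0) key
    apply e1
    · rw [mul_div_cancel₀ _ hD0]
    · unfold Pl.ct
      rw [← hDdef, mul_div_cancel₀ _ hD0]

theorem tim_aff (q : Pl S) (k : ZMod 3) (l : ℝ) (a b : ℂ) :
    timG q k ((1 - l) * a + l * b) = (1 - l) * timG q k a + l * timG q k b := by
  unfold timG cx
  simp only [Complex.sub_re, Complex.sub_im, Complex.add_re, Complex.add_im, Complex.mul_re,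
    Complex.mul_im, Complex.ofReal_re, Complex.ofReal_im, Complex.one_re, Complex.one_im]
  ring

theorem tim_z1 (q : Pl S) (k : ZMod 3) : timG q k (q.V (k + 1)) = 0 := by
  unfold timG cx
  simp

theorem tim_z2 (q : Pl S) (k : ZMod 3) : timG q k (q.V (k + 2)) = 0 := by
  unfold timG cx
  ring

theorem tim_a12 : ∀ j : ZMod 3, j + 1 + 1 = j + 2 := by decide
theorem tim_a13 : ∀ j : ZMod 3, j + 1 + 2 = j := by decide
theorem tim_a21 : ∀ j : ZMod 3, j + 2 + 1 = j := by decide
theorem tim_a22 : ∀ j : ZMod 3, j + 2 + 2 = j + 1 := by decide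
theorem tim_ne : ∀ i j : ZMod 3, i ≠ j → j = i + 1 ∨ j = i + 2 := by decide

theorem tim_pos (h2 : Sa_ORI) (q : Pl S) (k : ZMod 3) : 0 < timG q k (q.V k) := by
  have h := h2 S q (k + 1)
  rw [tim_a12, tim_a13] at h
  exact h

/-- the crossing point with the edge `j` is on the inner side of the other edges -/
theorem tim_other (h2 : Sa_ORI) (q : Pl S) (x v : ℂ) (j k : ZMod 3)
    (h : q.Ex x v j ∨ q.En x v j) (hjk : j ≠ k) : 0 < timG q k (x + q.ct x v j * v) := by
  obtain ⟨l, hl0, hl1, hl⟩ := tim_conv q x v j h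
  rw [hl, tim_aff]
  have hp := tim_pos h2 q k
  rcases tim_ne j k hjk with rfl | rfl
  · have e1 : timG q (j + 1) (q.V (j + 2)) = 0 := by
      have := tim_z1 q (j + 1)
      rwa [tim_a12] at this
    rw [e1, mul_zero, add_zero]
    exact mul_pos (by linarith) hp
  · have e1 : timG q (j + 2) (q.V (j + 1)) = 0 := by
      have := tim_z2 q (j + 2)
      rwa [tim_a22] at this
    rw [e1, mul_zero, zero_add]
    exact mul_pos hl0 hp

/-- an affine function which is positive at two parameters is positive in between -/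
theorem tim_mid (q : Pl S) (x v : ℂ) (k : ZMod 3) {s t τ : ℝ} (hst : s ≤ τ) (ht : τ ≤ t)
    (h1 : 0 < timG q k (x + s * v)) (h2 : 0 < timG q k (x + t * v)) :
    0 < timG q k (x + τ * v) := by
  rw [tim_line] at h1 h2 ⊢
  set D := cx v (q.V (k + 2) - q.V (k + 1))
  rcases le_total 0 D with hD | hD
  · have := mul_le_mul_of_nonneg_right ht hD
    linarith
  · have := mul_le_mul_of_nonpos_right hst hD
    linarith

theorem m_TIM (h1 : Sa_GLU) (h2 : Sa_ORI) (h3 : Sa_EXU) : Sa_TIM := by
  intro S
  obtain ⟨-, -, e3, -⟩ := h3 S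
  have p2 : ∀ (q : Pl S) (x v : ℂ) (j : ZMod 3) (τ : ℝ), q.Ex x v j →
      (0 < timG q j (x + τ * v) ↔ τ < q.ct x v j) := by
    intro q x v j τ h
    rw [tim_ct q x v j τ (tim_Ex h).ne', mul_pos_iff_of_pos_left (tim_Ex h), sub_pos]
  have p3 : ∀ (q : Pl S) (x v : ℂ) (i : ZMod 3) (τ : ℝ), q.En x v i →
      (0 < timG q i (x + τ * v) ↔ q.ct x v i < τ) := by
    intro q x v i τ h
    have hD := tim_En h
    rw [tim_ct q x v i τ hD.ne]
    constructor
    · intro hp
      by_contra hle
      rw [not_lt] at hle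
      have := mul_nonpos_of_nonpos_of_nonneg hD.le (sub_nonneg.2 hle)
      linarith
    · intro hlt
      exact mul_pos_of_neg_of_neg hD (sub_neg.2 hlt)
  refine ⟨?_, ?_, ?_, ?_, ?_, ?_, ?_, ?_, ?_⟩
  · intro q x v j
    obtain ⟨g1, g2, -, -⟩ := h1 S q j
    unfold Pl.ct
    rw [g1, g2]
    have n1 : cx (q.V (j + 2) - x) (q.V (j + 1) - x) =
        -cx (q.V (j + 1) - x) (q.V (j + 2) - x) := by
      unfold cx
      ring
    have n2 : cx v (q.V (j + 1) - q.V (j + 2)) = -cx v (q.V (j + 2) - q.V (j + 1)) := by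
      unfold cx
      simp only [Complex.sub_re, Complex.sub_im]
      ring
    rw [n1, n2, neg_div_neg_eq]
  · intro q x v j τ h hin
    exact (p2 q x v j τ h).1 (hin j)
  · intro q x v i τ h hin
    exact (p3 q x v i τ h).1 (hin i)
  · intro q x v i j hi hj
    have hij : i ≠ j := by
      rintro rfl
      exact e3 q x v i hi hj
    exact (p2 q x v j _ hj).1 (tim_other h2 q x v i j (Or.inr hi) hij)
  · intro q x v i j τ hi hj h4 h5 k
    show 0 < timG q k (x + τ * v)
    by_cases hki : k = i
    · subst hki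
      exact (p3 q x v k τ hi).2 h4
    · by_cases hkj : k = j
      · subst hkj
        exact (p2 q x v k τ hj).2 h5
      · exact tim_mid q x v k h4.le h5.le
          (tim_other h2 q x v i k (Or.inr hi) (Ne.symm hki))
          (tim_other h2 q x v j k (Or.inl hj) (Ne.symm hkj))
  · intro q x v j τ hin hj h0 h5 k
    show 0 < timG q k (x + τ * v)
    by_cases hkj : k = j
    · subst hkj
      exact (p2 q x v k τ hj).2 h5
    · refine tim_mid q x v k h0 h5.le ?_ (tim_other h2 q x v j k (Or.inl hj) (Ne.symm hkj))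
      rw [Complex.ofReal_zero, zero_mul, add_zero]
      exact hin k
  · intro q x v j hin hj
    apply (p2 q x v j 0 hj).1
    rw [Complex.ofReal_zero, zero_mul, add_zero]
    exact hin j
  · exact tim_conv
  · intro q x v i hv hi hc
    have hv2 : v.re * v.re + v.im * v.im = 1 := by
      have h := Complex.normSq_eq_norm_sq v
      rw [hv, one_pow, Complex.normSq_apply] at h
      exact h
    have hV : q.V i = x + dt v (q.V i - x) * v := by
      obtain ⟨w, hw⟩ : ∃ w, w = q.V i - x := ⟨_, rfl⟩
      have hVw : q.V i = x + w := by rw [hw]; ring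
      rw [← hw] at hc ⊢
      rw [hVw]
      congr 1
      unfold cx at hc
      unfold dt
      apply Complex.ext
      · simp only [Complex.mul_re, Complex.ofReal_re, Complex.ofReal_im]
        linear_combination (-w.re) * hv2 - v.im * hc
      · simp only [Complex.mul_im, Complex.ofReal_re, Complex.ofReal_im]
        linear_combination (-w.im) * hv2 + v.re * hc
    refine ⟨hV, ?_⟩
    apply (p3 q x v i _ hi).1
    rw [← hV]
    exact tim_pos h2 q i

end Pool.Agent.FAN
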