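import Pool.Agent.FAN.StA

/-!
# FAN, block 1: `Sa_UNI` (helper39)

The word of a segment is unique.
-/

set_option autoImplicit false

open scoped ComplexConjugate
open MeasureTheory Set

namespace Pool.Agent.FAN

private theorem uni_aux (h1 : Sa_EXU) (h2 : Sa_TIM) (h3 : Sa_CTS) (S : TriSys) (r : S.R)
    (x v : ℂ) (N : ℝ) (js js' : List (ZMod 3)) (h : PW S r x v N js) (h' : PW S r x v N js')
    (hp : js <+: js') : js = js' := by
  obtain ⟨t, ht⟩ := hp
  cases t with
  | nil => simpa using ht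
  | cons j rest =>
    exfalso
    subst ht
    obtain ⟨-, -, -, -, -, -, -, e8⟩ := h1 S
    obtain ⟨-, t2, -⟩ := h2 S
    obtain ⟨-, -, c3, -⟩ := h3 S
    obtain ⟨-, hr, hin⟩ := h
    obtain ⟨-, hr', hin'⟩ := h'
    have e := e8 js (j :: rest) (Pl.home S r) x v 0
    have hrun := (e.1.1 hr').2
    have hex : (endP (Pl.home S r) js).Ex x v j := hrun.1
    have hlt : N < (endP (Pl.home S r) js).ct x v j := t2 _ x v j N hex hin
    have hmem : (endP (Pl.home S r) js).ct x v j ∈ cts (Pl.home S r) x v (js ++ j :: rest) := by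
      rw [e.2.2.2]
      exact List.mem_append_right _ (List.mem_cons_self ..)
    have hlt' := c3 (js ++ j :: rest) (Pl.home S r) x v N hr' hin' _ hmem
    exact absurd (lt_trans hlt hlt') (lt_irrefl _)

/-- The word of a segment is unique. -/
theorem m_UNI (h1 : Sa_EXU) (h2 : Sa_TIM) (h3 : Sa_CTS) : Sa_UNI := by
  have key : ∀ (S : TriSys) (r : S.R) (x v : ℂ) (N : ℝ) (js js' : List (ZMod 3)),
      PW S r x v N js → PW S r x v N js' → js = js' := by
    intro S r x v N js js' h h'
    obtain ⟨-, -, -, -, -, e6, -⟩ := h1 S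
    rcases e6 js js' (Pl.home S r) x v h.2.1 h'.2.1 with hp | hp
    · exact uni_aux h1 h2 h3 S r x v N js js' h h' hp
    · exact (uni_aux h1 h2 h3 S r x v N js' js h' h hp).symm
  intro S r x v N js js' h h'
  have hex : ∃ js, PW S r x v N js := ⟨js, h⟩
  have hch : hex.choose = js := key S r x v N _ _ hex.choose_spec h
  refine ⟨key S r x v N js js' h h', ?_, ?_⟩
  · rw [DD, dif_pos hex, hch]
  · rw [SS, dif_pos hex, hch]

end Pool.Agent.FAN
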