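import Pool.Agent.FAN.StP

/-!
# FAN, block 6: module DEV, the end of a generalized diagonal in the unfolded picture
-/

set_option autoImplicit false

open scoped ComplexConjugate
open MeasureTheory Set Metric
open Pool.Agent.Billiard Pool.Agent.Lib_helper45

namespace Pool.Agent.FAN

/-- DEV. -/
theorem p_DEV : Sp_DEV := by
  intro P W
  induction W with
  | nil =>
    rintro z u t T j ⟨-, h, -⟩
    exact h.symm
  | cons a W ih =>
    rintro z u t T j ⟨t', -, -, -, h⟩
    have h1 := ih _ _ _ _ _ h
    change Bil.refl P a (Bil.dev P W (P.vertex j)) = z + T * u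
    rw [h1, ← Bil.refl_add, Bil.refl_refl]

end Pool.Agent.FAN
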