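import Pool.Agent.FAN.TDefs
import Pool.Agent.FAN.P_DEV
import Pool.Agent.Lib_helper45.Bil.Length

/-!
# FAN, block 7, module GRW (helper23): growth of the complexity and generalized diagonals, all vertices
-/

set_option autoImplicit false

open scoped ComplexConjugate
open Set Filter Topology Metric
open Pool.Agent.Billiard Pool.Agent.Lib_helper45 Pool.Agent.Lib_helper45.Bil

namespace Pool.Agent.FAN

/-- `D` is an inward direction at the point `v`. -/
def InD (P : Polygon) (v D : ℂ) : Prop :=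
  D ≠ 0 ∧ ∃ τ₀ : ℝ, 0 < τ₀ ∧ ∀ τ ∈ Ioc 0 τ₀, v + (τ : ℂ) * D ∈ U P

theorem Vis_InD {P : Polygon} {v D : ℂ} {W : List (ZMod P.k)} {j : ZMod P.k} (hD : D ≠ 0)
    (h : Vis P v D 0 W j 1) : InD P v D := by
  cases W with
  | nil =>
    obtain ⟨_, _, h3⟩ := h
    exact ⟨hD, 1 / 2, by norm_num, fun τ hτ => h3 τ ⟨hτ.1, by linarith [hτ.2]⟩⟩
  | cons a W =>
    obtain ⟨t', ht, h3, _, _⟩ := h
    exact ⟨hD, t' / 2, by linarith, fun τ hτ => h3 τ ⟨hτ.1, by linarith [hτ.2]⟩⟩

/-- A direction that does not point along `q`. -/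
theorem bgrw_ray {q D : ℂ} (hq : q ≠ 0) (hD : ∀ l : ℝ, 0 < l → D ≠ l * q) (h0 : D ≠ 0) :
    ∀ᶠ u in 𝓝 D, ∀ l : ℝ, 0 < l → u ≠ l * q := by
  by_cases hc : (q * conj D).im = 0
  · obtain ⟨l, hl⟩ := parallel_of_cross hq hc
    have hl0 : l < 0 := by
      rcases lt_trichotomy l 0 with h | h | h
      · exact h
      · exfalso
        rw [h] at hl
        exact h0 (by rw [hl]; simp)
      · exact absurd hl (hD l h)
    have h1 : (D * conj q).re < 0 := by
      have : D * conj q = ((l * ‖q‖ ^ 2 : ℝ) : ℂ) := by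
        rw [hl, mul_assoc, Complex.mul_conj, Complex.normSq_eq_norm_sq]
        push_cast
        ring
      rw [this, Complex.ofReal_re]
      exact mul_neg_of_neg_of_pos hl0 (pow_pos (norm_pos_iff.2 hq) 2)
    have hcont : Continuous fun u : ℂ => (u * conj q).re := by fun_prop
    have h2 : ∀ᶠ u in 𝓝 D, (u * conj q).re < 0 := (hcont.tendsto D).eventually (gt_mem_nhds h1)
    filter_upwards [h2] with u hu m hm he
    have : u * conj q = ((m * ‖q‖ ^ 2 : ℝ) : ℂ) := by
      rw [he, mul_assoc, Complex.mul_conj, Complex.normSq_eq_norm_sq]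
      push_cast
      ring
    rw [this, Complex.ofReal_re] at hu
    have := mul_pos hm (pow_pos (norm_pos_iff.2 hq) 2)
    linarith
  · have hcont : Continuous fun u : ℂ => (q * conj u).im := by fun_prop
    have h2 : ∀ᶠ u in 𝓝 D, (q * conj u).im ≠ 0 :=
      (hcont.tendsto D).eventually (isOpen_ne.mem_nhds hc)
    filter_upwards [h2] with u hu m hm he
    apply hu
    rw [he, cross_self]

/-- Inward directions form an open set, locally uniformly. -/
theorem bgrw_sector {P : Polygon} (j : ZMod P.k) {D : ℂ} (h : InD P (P.vertex j) D) :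
    ∃ τ₁ : ℝ, 0 < τ₁ ∧ ∀ᶠ u in 𝓝 D, u ≠ 0 ∧ ∀ τ ∈ Ioc 0 τ₁, P.vertex j + (τ : ℂ) * u ∈ U P := by
  obtain ⟨i, rfl⟩ : ∃ i, j = i + 1 := ⟨j - 1, by ring⟩
  obtain ⟨h0, τ₀, hτ₀, hU⟩ := h
  obtain ⟨r, hr, hb⟩ := vertex_ball i
  have hside : ∀ q : ℂ, (∀ s : ℝ, 0 < s → s < 1 → P.vertex (i + 1) + (s : ℂ) * q ∈ Gam P) →
      ∀ l : ℝ, 0 < l → D ≠ l * q := by
    intro q hq l hl he
    set s : ℝ := min (τ₀ * l) (1 / 2) with hs
    have hs0 : 0 < s := lt_min (by positivity) (by norm_num)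
    have h1 := hq s hs0 ((min_le_right _ _).trans_lt (by norm_num))
    have h2 := hU (s / l) ⟨by positivity, by
      rw [div_le_iff₀ hl]
      exact min_le_left _ _⟩
    have h3 : ((s / l : ℝ) : ℂ) * D = (s : ℂ) * q := by
      rw [he]
      push_cast
      have : (l : ℂ) ≠ 0 := by exact_mod_cast hl.ne'
      field_simp
    rw [h3] at h2
    exact not_mem_U_of_Gam h1 h2
  have e1 := bgrw_ray (neg_ne_zero.2 (dir_ne i)) (hside (-dir P i) fun s hs hs1 =>
    rel_subset_Gam i (mem_rel_iff.2 ⟨1 - s, by linarith, by linarith, by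
      unfold dir; push_cast; ring⟩)) h0
  have e2 := bgrw_ray (dir_ne (i + 1)) (hside (dir P (i + 1)) fun s hs hs1 =>
    rel_subset_Gam (i + 1) (mem_rel_iff.2 ⟨s, hs, hs1, rfl⟩)) h0
  have e3 : ∀ᶠ u in 𝓝 D, u ≠ 0 := isOpen_ne.mem_nhds h0
  obtain ⟨ρ, hρ, hball⟩ := Metric.mem_nhds_iff.1 ((e1.and e2).and e3)
  have hDn : 0 ≤ ‖D‖ := norm_nonneg D
  set τ₁ : ℝ := min τ₀ (r / (2 * (‖D‖ + ρ))) with hτ₁
  have hτ₁0 : 0 < τ₁ := lt_min hτ₀ (by positivity)
  have hτ₁r : τ₁ * (‖D‖ + ρ) < r := by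
    have h1 : τ₁ * (‖D‖ + ρ) ≤ r / (2 * (‖D‖ + ρ)) * (‖D‖ + ρ) :=
      mul_le_mul_of_nonneg_right (min_le_right _ _) (by linarith)
    have h2 : r / (2 * (‖D‖ + ρ)) * (‖D‖ + ρ) = r / 2 := by
      have : ‖D‖ + ρ ≠ 0 := by linarith
      field_simp
    linarith
  refine ⟨τ₁, hτ₁0, ?_⟩
  have hpre : IsPreconnected ((fun p : ℝ × ℂ => P.vertex (i + 1) + (p.1 : ℂ) * p.2) ''
      (Ioc 0 τ₁ ×ˢ ball D ρ)) := by
    refine (isPreconnected_Ioc.prod (convex_ball D ρ).isPreconnected).image _ ?_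
    exact Continuous.continuousOn (by fun_prop)
  have hsub := subset_U (P := P) hpre (by
    rintro _ ⟨⟨τ, u⟩, ⟨hτ, hu⟩, rfl⟩ hG
    simp only at hτ hu hG
    obtain ⟨⟨g1, g2⟩, g3⟩ := hball hu
    have hun : ‖u‖ < ‖D‖ + ρ := by
      have h5 : ‖u - D‖ < ρ := by rwa [mem_ball, dist_eq_norm] at hu
      have h6 : ‖u‖ ≤ ‖D‖ + ‖u - D‖ := by
        have := norm_add_le D (u - D)
        rwa [add_sub_cancel] at this
      linarith
    have hin : P.vertex (i + 1) + (τ : ℂ) * u ∈ ball (P.vertex (i + 1)) r := by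
      rw [mem_ball, dist_eq_norm, add_sub_cancel_left, norm_mul, Complex.norm_real,
        Real.norm_eq_abs, abs_of_pos hτ.1]
      have h7 : τ * ‖u‖ ≤ τ₁ * (‖D‖ + ρ) := mul_le_mul hτ.2 hun.le (norm_nonneg _) hτ₁0.le
      linarith
    have hτc : (τ : ℂ) ≠ 0 := by exact_mod_cast hτ.1.ne'
    have hne : P.vertex (i + 1) + (τ : ℂ) * u ≠ P.vertex (i + 1) := by
      intro he
      have h8 : (τ : ℂ) * u = 0 := by linear_combination he
      exact (mul_ne_zero hτc g3) h8
    rcases hb _ hin hG hne with h | h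
    · obtain ⟨l, l0, l1, he⟩ := mem_rel_iff.1 h
      apply g1 ((1 - l) / τ) (div_pos (by linarith) hτ.1)
      have e : P.vertex (i + 1) = P.vertex i + dir P i := by unfold dir; ring
      rw [e] at he
      push_cast
      field_simp
      linear_combination he
    · obtain ⟨l, l0, l1, he⟩ := mem_rel_iff.1 h
      apply g2 (l / τ) (div_pos l0 hτ.1)
      push_cast
      field_simp
      linear_combination he) ⟨_, ⟨(τ₁, D), ⟨⟨hτ₁0, le_rfl⟩, mem_ball_self hρ⟩, rfl⟩,
        hU τ₁ ⟨hτ₁0, min_le_left _ _⟩⟩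
  filter_upwards [Metric.ball_mem_nhds D hρ] with u hu
  exact ⟨(hball hu).2, fun τ hτ => hsub ⟨(τ, u), ⟨hτ, hu⟩, rfl⟩⟩

/-- Codes of length `n` of rays from the vertex `j`. -/
def RV (P : Polygon) (j : ZMod P.k) (n : ℕ) : Set (List (ZMod P.k)) :=
  {X | X.length = n ∧ ∃ u, InD P (P.vertex j) u ∧ Path P (P.vertex j) u 0 X}

theorem RV_subset {P : Polygon} (j : ZMod P.k) (n : ℕ) : RV P j n ⊆ WS P n := by
  rintro X ⟨hX, u, ⟨hu, τ, hτ, hU⟩, hp⟩
  exact ⟨hX, isCode_iff.2 ⟨_, u, τ, hu, hU τ ⟨hτ, le_rfl⟩, hp.of_start hτ.le hU⟩⟩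

theorem RV_finite {P : Polygon} (j : ZMod P.k) (n : ℕ) : (RV P j n).Finite :=
  (WS_finite n).subset (RV_subset j n)

/-- Parallel rays next to a ray from a vertex, followed backwards to the boundary. -/
theorem bgrw_hit {P : Polygon} {v u : ℂ} {τ₀ s : ℝ} (hs : s = 1 ∨ s = -1) (hu : u ≠ 0)
    (hU : v + (τ₀ : ℂ) * u ∈ U P) {X : List (ZMod P.k)} (hp : Path P v u τ₀ X) :
    ∀ᶠ δ : ℝ in 𝓝[>] 0, ∃ (c : ZMod P.k) (τ : ℝ), τ < τ₀ ∧
      v + (Complex.I * ((s * δ : ℝ) : ℂ)) * u + (τ : ℂ) * u ∈ rel P c ∧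
      (∀ τ' ∈ Ioc τ τ₀, v + (Complex.I * ((s * δ : ℝ) : ℂ)) * u + (τ' : ℂ) * u ∈ U P) ∧
      P.IsCode (c :: X) := by
  have hss : s * s = 1 := by rcases hs with h | h <;> rw [h] <;> norm_num
  have hcont : Continuous fun δ : ℝ => (v + (Complex.I * ((s * δ : ℝ) : ℂ)) * u, u) := by fun_prop
  have hev1 : ∀ᶠ δ : ℝ in 𝓝 0, Path P (v + (Complex.I * ((s * δ : ℝ) : ℂ)) * u) u τ₀ X := by
    have := hcont.tendsto 0
    simp only [mul_zero, Complex.ofReal_zero, zero_mul, add_zero] at this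
    exact this.eventually (hp.eventually hU)
  have hev2 : ∀ᶠ δ : ℝ in 𝓝 0, v + (Complex.I * ((s * δ : ℝ) : ℂ)) * u + τ₀ * u ∈ U P := by
    have hc : Continuous fun δ : ℝ => v + (Complex.I * ((s * δ : ℝ) : ℂ)) * u + τ₀ * u := by
      fun_prop
    have := hc.tendsto 0
    simp only [mul_zero, Complex.ofReal_zero, zero_mul, add_zero] at this
    exact this.eventually (isOpen_U.mem_nhds hU)
  have hev3 : ∀ᶠ δ : ℝ in 𝓝[>] 0, ∀ j : ZMod P.k, δ ≠ s * ((P.vertex j - v) / u).im := by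
    rw [eventually_all]
    intro j
    exact ev_ne _
  have hw := nhdsWithin_le_nhds (s := Ioi (0 : ℝ)) (a := (0 : ℝ))
  filter_upwards [(hev1.and hev2).filter_mono hw, hev3] with δ h12 h3
  obtain ⟨h1, h2⟩ := h12
  set z' := v + (Complex.I * ((s * δ : ℝ) : ℂ)) * u with hz'
  have e : ∀ s : ℝ, z' + (s : ℂ) * (-u) = z' + ((-s : ℝ) : ℂ) * u := by intro s; push_cast; ring
  have hstart : z' + ((-τ₀ : ℝ) : ℂ) * (-u) ∈ U P := by rw [e, neg_neg]; exact h2
  obtain ⟨t', ht', hG, hUU⟩ := exists_hit (neg_ne_zero.2 hu) hstart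
  have hnv : ∀ j, z' + (t' : ℂ) * (-u) ≠ P.vertex j := by
    intro j hj
    apply h3 j
    rw [← hj, hz']
    have : (v + Complex.I * ((s * δ : ℝ) : ℂ) * u + (t' : ℂ) * (-u) - v) / u =
        Complex.I * ((s * δ : ℝ) : ℂ) - t' := by
      field_simp; ring
    rw [this]
    have e2 : (Complex.I * ((s * δ : ℝ) : ℂ) - t').im = s * δ := by simp
    rw [e2, ← mul_assoc, hss, one_mul]
  obtain ⟨c, hc⟩ := exists_rel_of_Gam hG hnv
  rw [e] at hc
  have hUU' : ∀ τ' ∈ Ioc (-t') τ₀, z' + (τ' : ℂ) * u ∈ U P := by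
    intro τ hτ
    have := hUU (-τ) ⟨by linarith [hτ.2], by linarith [hτ.1]⟩
    rw [e, neg_neg] at this
    exact this
  refine ⟨c, -t', by linarith, hc, hUU', ?_⟩
  refine cons_code hu (by linarith : 0 < τ₀ + t') hc (fun τ hτ => ?_) ?_
  · exact hUU' τ ⟨hτ.1, by linarith [hτ.2]⟩
  · have : -t' + (τ₀ + t') = τ₀ := by ring
    rw [this]; exact h1

/-- TWO LEFT EXTENSIONS of the code of a ray from a vertex. -/
theorem bgrw_two {P : Polygon} (j : ZMod P.k) {n : ℕ} {X : List (ZMod P.k)} (hX : X ∈ RV P j n) :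
    ∃ c c', c ≠ c' ∧ P.IsCode (c :: X) ∧ P.IsCode (c' :: X) := by
  obtain ⟨i, rfl⟩ : ∃ i, j = i + 1 := ⟨j - 1, by ring⟩
  obtain ⟨_, u, ⟨hu, τ₀, hτ₀, hU⟩, hp0⟩ := hX
  have hp := hp0.of_start hτ₀.le hU
  have hUτ := hU τ₀ ⟨hτ₀, le_rfl⟩
  obtain ⟨r, hr, hb⟩ := vertex_ball i
  have hun : 0 < ‖u‖ := norm_pos_iff.2 hu
  -- the directions of the two sides
  have hq1 : ∀ s : ℝ, 0 < s → s < 1 → P.vertex (i + 1) + (s : ℂ) * dir P (i + 1) ∈ Gam P :=
    fun s hs hs1 => rel_subset_Gam (i + 1) (mem_rel_iff.2 ⟨s, hs, hs1, rfl⟩)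
  have hq2 : ∀ s : ℝ, 0 < s → s < 1 → P.vertex (i + 1) + (s : ℂ) * (-dir P i) ∈ Gam P :=
    fun s hs hs1 => rel_subset_Gam i (mem_rel_iff.2 ⟨1 - s, by linarith, by linarith, by
      unfold dir; push_cast; ring⟩)
  have hneg : ∀ q : ℂ, q ≠ 0 → (∀ s : ℝ, 0 < s → s < 1 → P.vertex (i + 1) + (s : ℂ) * q ∈ Gam P) →
      (q / u).im = 0 → ∃ l : ℝ, l < 0 ∧ q = l * u := by
    intro q hq hqG him
    have e : q = ((q / u).re : ℂ) * u := by
      have h1 : q / u = ((q / u).re : ℂ) := by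
        apply Complex.ext
        · simp
        · rw [him]; simp
      rw [← h1, div_mul_cancel₀ _ hu]
    refine ⟨(q / u).re, ?_, e⟩
    by_contra hh
    push Not at hh
    rcases eq_or_lt_of_le hh with h | h
    · rw [← h] at e
      exact hq (by rw [e]; simp)
    · set l := (q / u).re with hl
      set s : ℝ := min (τ₀ / l) (1 / 2) with hs
      have hs0 : 0 < s := lt_min (by positivity) (by norm_num)
      have h1 := hqG s hs0 ((min_le_right _ _).trans_lt (by norm_num))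
      have h2 := hU (s * l) ⟨by positivity, by
        have : s ≤ τ₀ / l := min_le_left _ _
        rwa [le_div_iff₀ h] at this⟩
      have h3 : ((s * l : ℝ) : ℂ) * u = (s : ℂ) * q := by
        rw [e]
        push_cast
        ring
      rw [h3] at h2
      exact not_mem_U_of_Gam h1 h2
  obtain ⟨q, hqG, hqb⟩ : ∃ q : ℂ, (∀ s : ℝ, 0 < s → s < 1 →
      P.vertex (i + 1) + (s : ℂ) * q ∈ Gam P) ∧ (q / u).im ≠ 0 := by
    by_contra hcon
    push Not at hcon
    obtain ⟨l₁, hl₁, e1⟩ := hneg _ (dir_ne (i + 1)) hq1 (hcon _ hq1)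
    obtain ⟨l₂, hl₂, e2⟩ := hneg _ (neg_ne_zero.2 (dir_ne i)) hq2 (hcon _ hq2)
    refine no_overlap i (r := l₁ / l₂) (div_pos_of_neg_of_neg hl₁ hl₂) ?_
    rw [e1, e2]
    push_cast
    have : (l₂ : ℂ) ≠ 0 := by exact_mod_cast hl₂.ne
    field_simp
  set a := (q / u).re with ha
  set b := (q / u).im with hbdef
  have hqab : q = (a + b * Complex.I) * u := by
    rw [ha, hbdef, Complex.re_add_im, div_mul_cancel₀ _ hu]
  obtain ⟨s, hs, hsb⟩ : ∃ s : ℝ, (s = 1 ∨ s = -1) ∧ s * b = |b| := by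
    rcases le_total 0 b with h | h
    · exact ⟨1, Or.inl rfl, by rw [abs_of_nonneg h, one_mul]⟩
    · exact ⟨-1, Or.inr rfl, by rw [abs_of_nonpos h]; ring⟩
  have hss : s * s = 1 := by rcases hs with h | h <;> rw [h] <;> norm_num
  have hbabs : 0 < |b| := abs_pos.2 hqb
  -- heights of points of the two sides at the vertex
  have hht : ∀ c : ZMod P.k, (c = i ∨ c = i + 1) → ∃ q' : ℂ, ∀ z ∈ rel P c,
      ∃ l : ℝ, 0 < l ∧ z = P.vertex (i + 1) + l * q' := by
    rintro c (rfl | rfl)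
    · refine ⟨-dir P c, fun z hz => ?_⟩
      obtain ⟨l, h0, h1, rfl⟩ := mem_rel_iff.1 hz
      exact ⟨1 - l, by linarith, by unfold dir; push_cast; ring⟩
    · refine ⟨dir P (i + 1), fun z hz => ?_⟩
      obtain ⟨l, h0, h1, rfl⟩ := mem_rel_iff.1 hz
      exact ⟨l, h0, rfl⟩
  have hw := nhdsWithin_le_nhds (s := Ioi (0 : ℝ)) (a := (0 : ℝ))
  -- a small radius
  set ε₀ : ℝ := min (τ₀ / 2) (r / (4 * ‖u‖)) with hε₀
  have hε₀0 : 0 < ε₀ := lt_min (by linarith) (by positivity)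
  have hε₀r : ε₀ * ‖u‖ ≤ r / 4 := by
    have h1 : ε₀ * ‖u‖ ≤ r / (4 * ‖u‖) * ‖u‖ :=
      mul_le_mul_of_nonneg_right (min_le_right _ _) hun.le
    have h2 : r / (4 * ‖u‖) * ‖u‖ = r / 4 := by field_simp
    linarith
  have hevc : ∀ᶠ δ : ℝ in 𝓝 0, ∀ τ ∈ Icc ε₀ τ₀,
      P.vertex (i + 1) + (Complex.I * ((s * δ : ℝ) : ℂ)) * u + (τ : ℂ) * u ∈ U P := by
    apply IsCompact.eventually_forall_of_forall_eventually isCompact_Icc
    intro τ hτ
    have hc : Continuous fun p : ℝ × ℝ =>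
        P.vertex (i + 1) + (Complex.I * ((s * p.1 : ℝ) : ℂ)) * u + (p.2 : ℂ) * u := by fun_prop
    have h3 : P.vertex (i + 1) + (Complex.I * ((s * (0 : ℝ) : ℝ) : ℂ)) * u + (τ : ℂ) * u ∈ U P := by
      have e : P.vertex (i + 1) + (Complex.I * ((s * (0 : ℝ) : ℝ) : ℂ)) * u + (τ : ℂ) * u =
          P.vertex (i + 1) + τ * u := by
        push_cast; ring
      rw [e]
      exact hU τ ⟨lt_of_lt_of_le hε₀0 hτ.1, hτ.2⟩
    exact (hc.tendsto (0, τ)).eventually (isOpen_U.mem_nhds h3)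
  have hevd : ∀ᶠ δ : ℝ in 𝓝 0, δ < |b| ∧ a * δ / |b| < τ₀ ∧ (|a| * δ / |b| + δ) * ‖u‖ < r / 4 ∧
      δ * ‖u‖ < r / 4 := by
    have k1 : Tendsto (fun δ : ℝ => δ) (𝓝 0) (𝓝 0) := tendsto_id
    have k2 : Tendsto (fun δ : ℝ => a * δ / |b|) (𝓝 0) (𝓝 0) := by
      have hc : Continuous fun δ : ℝ => a * δ / |b| := by fun_prop
      have := hc.tendsto 0
      simpa using this
    have k3 : Tendsto (fun δ : ℝ => (|a| * δ / |b| + δ) * ‖u‖) (𝓝 0) (𝓝 0) := by
      have hc : Continuous fun δ : ℝ => (|a| * δ / |b| + δ) * ‖u‖ := by fun_prop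
      have := hc.tendsto 0
      simpa using this
    have k4 : Tendsto (fun δ : ℝ => δ * ‖u‖) (𝓝 0) (𝓝 0) := by
      have hc : Continuous fun δ : ℝ => δ * ‖u‖ := by fun_prop
      have := hc.tendsto 0
      simpa using this
    filter_upwards [k1.eventually (gt_mem_nhds hbabs), k2.eventually (gt_mem_nhds hτ₀),
      k3.eventually (gt_mem_nhds (by linarith : (0 : ℝ) < r / 4)),
      k4.eventually (gt_mem_nhds (by linarith : (0 : ℝ) < r / 4))] with δ g1 g2 g3 g4
    exact ⟨g1, g2, g3, g4⟩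
  have hns : -s = 1 ∨ -s = -1 := by rcases hs with h | h <;> rw [h] <;> norm_num
  obtain ⟨δ, ⟨⟨hhit, hc1, hc2⟩, hδ0⟩⟩ := (((bgrw_hit hs hu hUτ hp).and
    ((hevc.and hevd).filter_mono hw)).and (self_mem_nhdsWithin (a := (0 : ℝ)) (s := Ioi 0))).exists
  obtain ⟨δ', hhit', hδ'0⟩ := ((bgrw_hit hns hu hUτ hp).and
    (self_mem_nhdsWithin (a := (0 : ℝ)) (s := Ioi 0))).exists
  have hδ : 0 < δ := hδ0
  have hδ' : 0 < δ' := hδ'0
  obtain ⟨c, τ, h1, h2, h3, h4⟩ := hhit
  obtain ⟨c', τ', h1', h2', h3', h4'⟩ := hhit'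
  obtain ⟨g1, g2, g3, g4⟩ := hc2
  -- the point of the transversal side on the parallel line
  have hpt : P.vertex (i + 1) + (Complex.I * ((s * δ : ℝ) : ℂ)) * u + ((a * δ / |b| : ℝ) : ℂ) * u =
      P.vertex (i + 1) + ((δ / |b| : ℝ) : ℂ) * q := by
    rw [hqab]
    have e2 : s * δ = δ / |b| * b := by
      have : |b| = s * b := hsb.symm
      rw [div_mul_eq_mul_div, eq_div_iff hbabs.ne']
      calc s * δ * |b| = s * δ * (s * b) := by rw [hsb]
        _ = (s * s) * (δ * b) := by ring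
        _ = δ * b := by rw [hss, one_mul]
    rw [e2]
    have hb' : ((|b| : ℝ) : ℂ) ≠ 0 := by exact_mod_cast hbabs.ne'
    push_cast
    field_simp
    ring
  have hτlow : a * δ / |b| ≤ τ := by
    by_contra hh
    push Not at hh
    have k1 := h3 _ ⟨hh, g2.le⟩
    rw [hpt] at k1
    exact not_mem_U_of_Gam (hqG _ (div_pos hδ hbabs) (by rw [div_lt_one hbabs]; exact g1)) k1
  have hτup : τ < ε₀ := by
    by_contra hh
    push Not at hh
    exact not_mem_U_of_Gam (rel_subset_Gam c h2) (hc1 τ ⟨hh, h1.le⟩)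
  have hτabs : |τ| ≤ |a| * δ / |b| + ε₀ := by
    have k1 : -(|a| * δ / |b|) ≤ a * δ / |b| := by
      rw [← neg_div]
      apply div_le_div_of_nonneg_right _ hbabs.le
      have := neg_abs_le a
      nlinarith
    have k2 : 0 ≤ |a| * δ / |b| := by positivity
    rw [abs_le]
    constructor <;> linarith
  have hin : P.vertex (i + 1) + (Complex.I * ((s * δ : ℝ) : ℂ)) * u + (τ : ℂ) * u ∈
      ball (P.vertex (i + 1)) r := by
    rw [mem_ball, dist_eq_norm]
    have e : P.vertex (i + 1) + (Complex.I * ((s * δ : ℝ) : ℂ)) * u + (τ : ℂ) * u -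
        P.vertex (i + 1) = (Complex.I * ((s * δ : ℝ) : ℂ) + τ) * u := by ring
    rw [e, norm_mul]
    have k1 : ‖Complex.I * ((s * δ : ℝ) : ℂ) + τ‖ ≤ δ + |τ| := by
      refine (norm_add_le _ _).trans ?_
      rw [norm_mul, Complex.norm_I, one_mul, Complex.norm_real, Complex.norm_real,
        Real.norm_eq_abs, Real.norm_eq_abs, abs_mul]
      have : |s| = 1 := by rcases hs with h | h <;> rw [h] <;> norm_num
      rw [this, one_mul, abs_of_pos hδ]
    have k2 : ‖Complex.I * ((s * δ : ℝ) : ℂ) + τ‖ * ‖u‖ ≤ (δ + (|a| * δ / |b| + ε₀)) * ‖u‖ :=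
      mul_le_mul_of_nonneg_right (k1.trans (by linarith)) hun.le
    have k3 : (δ + (|a| * δ / |b| + ε₀)) * ‖u‖ = (|a| * δ / |b| + δ) * ‖u‖ + ε₀ * ‖u‖ := by ring
    linarith
  have him : ∀ σ τ : ℝ, ((P.vertex (i + 1) + (Complex.I * (σ : ℂ)) * u + (τ : ℂ) * u -
      P.vertex (i + 1)) / u).im = σ := by
    intro σ τ
    have e : (P.vertex (i + 1) + (Complex.I * (σ : ℂ)) * u + (τ : ℂ) * u - P.vertex (i + 1)) / u =
        Complex.I * σ + τ := by
      field_simp
      ring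
    rw [e]
    simp
  have hne : P.vertex (i + 1) + (Complex.I * ((s * δ : ℝ) : ℂ)) * u + (τ : ℂ) * u ≠
      P.vertex (i + 1) := by
    intro he
    have k1 := him (s * δ) τ
    rw [he, sub_self, zero_div, Complex.zero_im] at k1
    rcases hs with h | h <;> rw [h] at k1 <;> linarith
  have hcc : c = i ∨ c = i + 1 := by
    rcases hb _ hin (rel_subset_Gam c h2) hne with h | h
    · exact Or.inl (rel_unique h2 h)
    · exact Or.inr (rel_unique h2 h)
  refine ⟨c, c', ?_, h4, h4'⟩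
  rintro rfl
  obtain ⟨q', hq'⟩ := hht c hcc
  obtain ⟨l, hl, e1⟩ := hq' _ h2
  obtain ⟨l', hl', e1'⟩ := hq' _ h2'
  have k1 := him (s * δ) τ
  have k2 := him (-s * δ') τ'
  rw [e1] at k1
  rw [e1'] at k2
  have him2 : ∀ l : ℝ, ((P.vertex (i + 1) + (l : ℂ) * q' - P.vertex (i + 1)) / u).im =
      l * (q' / u).im := by
    intro l
    rw [add_sub_cancel_left, mul_div_assoc, Complex.im_ofReal_mul]
  rw [him2] at k1 k2
  have k3 : l * (s * (q' / u).im) = δ := by
    calc l * (s * (q' / u).im) = s * (l * (q' / u).im) := by ring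
      _ = s * s * δ := by rw [k1]; ring
      _ = δ := by rw [hss, one_mul]
  have k4 : l' * (s * (q' / u).im) = -δ' := by
    calc l' * (s * (q' / u).im) = s * (l' * (q' / u).im) := by ring
      _ = -(s * s * δ') := by rw [k2]; ring
      _ = -δ' := by rw [hss, one_mul]
  have k5 : 0 < s * (q' / u).im := by
    by_contra hh
    push Not at hh
    have := mul_nonpos_of_nonneg_of_nonpos hl.le hh
    linarith
  have := mul_pos hl' k5
  linarith

/-- The complexity grows by at least the number of codes of rays from the vertex. -/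
theorem bgrw_growth {P : Polygon} (j : ZMod P.k) (n : ℕ) :
    P.complexity n + (RV P j n).ncard ≤ P.complexity (n + 1) := by
  classical
  rw [complexity_eq, complexity_eq]
  have hch : ∀ w : List (ZMod P.k), ∃ c, P.IsCode w → P.IsCode (c :: w) := by
    intro w
    by_cases h : P.IsCode w
    · obtain ⟨c, hc⟩ := left_ext h
      exact ⟨c, fun _ => hc⟩
    · exact ⟨0, fun h' => absurd h' h⟩
  choose f hf using hch
  have hch2 : ∀ w : List (ZMod P.k), ∃ c, w ∈ RV P j n → c ≠ f w ∧ P.IsCode (c :: w) := by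
    intro w
    by_cases h : w ∈ RV P j n
    · obtain ⟨c, c', hcc, h1, h2⟩ := bgrw_two j h
      by_cases hc : c = f w
      · exact ⟨c', fun _ => ⟨fun h' => hcc (hc.trans h'.symm), h2⟩⟩
      · exact ⟨c, fun _ => ⟨hc, h1⟩⟩
    · exact ⟨0, fun h' => absurd h' h⟩
  choose g hg using hch2
  set A : Set (List (ZMod P.k)) := (fun w => f w :: w) '' WS P n with hA
  set B : Set (List (ZMod P.k)) := (fun w => g w :: w) '' RV P j n with hB
  have hAc : A.ncard = (WS P n).ncard := by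
    apply ncard_image_of_injective
    intro w w' h
    exact (List.cons.inj h).2
  have hBc : B.ncard = (RV P j n).ncard := by
    apply ncard_image_of_injective
    intro w w' h
    exact (List.cons.inj h).2
  have hdisj : Disjoint A B := by
    rw [Set.disjoint_left]
    rintro _ ⟨w, _, rfl⟩ ⟨w', hw', h⟩
    obtain ⟨h1, h2⟩ := List.cons.inj h
    subst h2
    exact (hg _ hw').1 h1
  have hsub : A ∪ B ⊆ WS P (n + 1) := by
    rintro _ (⟨w, hw, rfl⟩ | ⟨w, hw, rfl⟩)
    · exact ⟨by simp [hw.1], hf w hw.2⟩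
    · exact ⟨by simp [hw.1], (hg w hw).2⟩
  rw [← hAc, ← hBc, ← ncard_union_eq hdisj ((WS_finite n).image _) ((RV_finite j n).image _)]
  exact ncard_le_ncard hsub (WS_finite _)

/-- Position vector of a generalized diagonal given by code and end vertex. -/
noncomputable def gD (P : Polygon) (j : ZMod P.k) (γ : List (ZMod P.k) × ZMod P.k) : ℂ :=
  dev P γ.1 (P.vertex γ.2) - P.vertex j

theorem GDv_vis {P : Polygon} {j : ZMod P.k} {n : ℕ} {γ : List (ZMod P.k) × ZMod P.k}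
    (hγ : γ ∈ GDv P j n) : γ.1.length < n ∧ gD P j γ ≠ 0 ∧
      Vis P (P.vertex j) (gD P j γ) 0 γ.1 γ.2 1 := by
  obtain ⟨h1, D, hD, hvis⟩ := hγ
  have e := p_DEV P γ.1 _ _ _ _ _ hvis
  have e2 : gD P j γ = D := by
    unfold gD
    rw [e]
    push_cast
    ring
  rw [e2]
  exact ⟨h1, hD, hvis⟩

/-- The code attached to a generalized diagonal. -/
theorem bgrw_code {P : Polygon} (j : ZMod P.k) {n : ℕ} {γ : List (ZMod P.k) × ZMod P.k}
    (hγ : γ ∈ GDv P j n) : ∃ s : ℝ, (s = 1 ∨ s = -1) ∧ ∃ ε > 0, ∃ X ∈ RV P j n,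
      Path P (P.vertex j) ((1 + Complex.I * ((s * ε : ℝ) : ℂ)) * gD P j γ) 0 X ∧
      (∃ e R, (e + 1 = γ.2 ∨ e = γ.2) ∧ X = γ.1 ++ e :: R) ∧
      ∀ γ' ∈ GDv P j n, 0 < s * (gD P j γ' * conj (gD P j γ)).im →
        s * ((1 + Complex.I * ((s * ε : ℝ) : ℂ)) * gD P j γ * conj (gD P j γ')).im < 0 := by
  obtain ⟨W, j'⟩ := γ
  obtain ⟨i, rfl⟩ : ∃ i, j' = i + 1 := ⟨j' - 1, by ring⟩
  obtain ⟨hlen, hD0, hvis⟩ := GDv_vis hγ
  simp only at hlen hvis
  set D := gD P j (W, i + 1) with hD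
  obtain ⟨τ₀, hτ₀, hsec⟩ := bgrw_sector j (Vis_InD hD0 hvis)
  have hU0 : ∀ s ∈ Ioc 0 τ₀, P.vertex j + (s : ℂ) * D ∈ U P := hsec.self_of_nhds.2
  have hvis' := hvis.of_start hτ₀.le hU0
  obtain ⟨s, hs, hev⟩ := arrive i W hD0 (hU0 τ₀ ⟨hτ₀, le_rfl⟩) hvis'
  have hs0 : s ≠ 0 := by rcases hs with h | h <;> rw [h] <;> norm_num
  refine ⟨s, hs, ?_⟩
  have hcont : Continuous fun ε : ℝ => (1 + Complex.I * ((s * ε : ℝ) : ℂ)) * D := by fun_prop
  have hc0 := hcont.tendsto 0
  simp only [mul_zero, Complex.ofReal_zero, add_zero, one_mul] at hc0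
  have hw := nhdsWithin_le_nhds (s := Ioi (0 : ℝ)) (a := (0 : ℝ))
  have hev1 : ∀ᶠ ε : ℝ in 𝓝[>] 0, (1 + Complex.I * ((s * ε : ℝ) : ℂ)) * D ≠ 0 ∧ ∀ τ ∈ Ioc 0 τ₀,
      P.vertex j + (τ : ℂ) * ((1 + Complex.I * ((s * ε : ℝ) : ℂ)) * D) ∈ U P :=
    (hc0.eventually hsec).filter_mono hw
  have hev3 : ∀ᶠ ε : ℝ in 𝓝[>] 0, ∀ p ∈ ({w : List (ZMod P.k) | w.length < n} ×ˢ
      (univ : Set (ZMod P.k))), ε ≠ (((dev P p.1 (P.vertex p.2) - P.vertex j) / D).im /
        (((dev P p.1 (P.vertex p.2) - P.vertex j) / D).re * s)) := by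
    rw [Filter.eventually_all_finite
      ((List.finite_length_lt (ZMod P.k) n).prod finite_univ)]
    intro p _
    exact ev_ne _
  have hev4 : ∀ᶠ ε : ℝ in 𝓝[>] 0, ∀ γ' ∈ GDv P j n, 0 < s * (gD P j γ' * conj D).im →
      s * ((1 + Complex.I * ((s * ε : ℝ) : ℂ)) * D * conj (gD P j γ')).im < 0 := by
    rw [Filter.eventually_all_finite (GDv_finite P j n)]
    intro γ' _
    by_cases h : 0 < s * (gD P j γ' * conj D).im
    · have hc : Continuous fun ε : ℝ =>
          s * ((D * conj (gD P j γ')).im + s * ε * (D * conj (gD P j γ')).re) := by fun_prop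
      have h1 := hc.tendsto 0
      simp only [mul_zero, zero_mul, add_zero] at h1
      have h2 : s * (D * conj (gD P j γ')).im < 0 := by
        rw [cross_swap]; linarith
      have h3 := (h1.eventually (gt_mem_nhds h2)).filter_mono hw
      filter_upwards [h3] with ε hε _
      rw [cross_pert]; exact hε
    · exact Filter.Eventually.of_forall fun ε h' => absurd h' h
  obtain ⟨ε, ⟨⟨⟨⟨h1, h2, h3⟩, h4⟩, h5⟩, h6⟩⟩ :=
    ((((hev.and hev1).and hev3).and hev4).and self_mem_nhdsWithin).exists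
  have hε : 0 < ε := h6
  obtain ⟨e, he, hpath⟩ := h1
  set u := (1 + Complex.I * ((s * ε : ℝ) : ℂ)) * D with hu
  have hpath0 : Path P (P.vertex j) u 0 (W ++ [e]) := hpath.start_earlier hτ₀.le h3
  obtain ⟨X, hX, hXp⟩ := exists_path n h2 hτ₀ h3 (by
    intro w hwl j'' τ hτ he'
    apply h4 (w, j'') ⟨hwl, mem_univ _⟩
    simp only
    rw [← he', hu]
    have e1 : (P.vertex j + (τ : ℂ) * ((1 + Complex.I * ((s * ε : ℝ) : ℂ)) * D) - P.vertex j) / D =
        τ + ((τ * (s * ε) : ℝ) : ℂ) * Complex.I := by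
      field_simp; push_cast; ring
    rw [e1]
    simp
    field_simp)
  refine ⟨ε, hε, X, ⟨hX, u, ⟨h2, τ₀, hτ₀, h3⟩, hXp⟩, hXp, ?_, h5⟩
  have htake : Path P (P.vertex j) u 0 (X.take (W.length + 1)) := by
    apply Path.pre (v := X.drop (W.length + 1))
    rw [List.take_append_drop]; exact hXp
  have hlen2 : (X.take (W.length + 1)).length = (W ++ [e]).length := by
    rw [List.length_take, hX, List.length_append, List.length_singleton]
    exact min_eq_left hlen
  have hXeq := Path.unique htake hpath0 hlen2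
  refine ⟨e, X.drop (W.length + 1), ?_, ?_⟩
  · rcases he with h | h
    · left; simp only; rw [h]
    · right; exact h
  · simp only
    calc X = X.take (W.length + 1) ++ X.drop (W.length + 1) := (List.take_append_drop _ _).symm
      _ = W ++ e :: X.drop (W.length + 1) := by rw [hXeq]; simp

open Classical in
/-- the half plane of a vector -/
noncomputable def bhalf (D : ℂ) : ℝ := if 0 < D.re ∨ (D.re = 0 ∧ 0 < D.im) then 1 else -1

theorem bhalf_mem (D : ℂ) : bhalf D ∈ ({1, -1} : Set ℝ) := by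
  unfold bhalf
  split_ifs
  · exact Or.inl rfl
  · exact Or.inr rfl

theorem bhalf_pos {D : ℂ} {l : ℝ} (h0 : D ≠ 0) (hl : l ≠ 0) (h : bhalf D = bhalf (l * D)) : 0 < l := by
  by_contra hh
  push Not at hh
  have hl0 : l < 0 := lt_of_le_of_ne hh hl
  have hre : ((l : ℂ) * D).re = l * D.re := by simp
  have him : ((l : ℂ) * D).im = l * D.im := by simp
  unfold bhalf at h
  rw [hre, him] at h
  by_cases h1 : 0 < D.re ∨ (D.re = 0 ∧ 0 < D.im)
  · rw [if_pos h1] at h
    have h2 : ¬ (0 < l * D.re ∨ (l * D.re = 0 ∧ 0 < l * D.im)) := by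
      rintro (h3 | ⟨h3, h4⟩)
      · rcases h1 with h5 | ⟨h5, h6⟩
        · have := mul_neg_of_neg_of_pos hl0 h5
          linarith
        · rw [h5, mul_zero] at h3
          exact lt_irrefl _ h3
      · rcases h1 with h5 | ⟨h5, h6⟩
        · have := mul_neg_of_neg_of_pos hl0 h5
          linarith
        · have := mul_neg_of_neg_of_pos hl0 h6
          linarith
    rw [if_neg h2] at h
    norm_num at h
  · rw [if_neg h1] at h
    push Not at h1
    have h2 : 0 < l * D.re ∨ (l * D.re = 0 ∧ 0 < l * D.im) := by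
      rcases lt_or_eq_of_le h1.1 with h3 | h3
      · exact Or.inl (mul_pos_of_neg_of_neg hl0 h3)
      · right
        refine ⟨by rw [h3, mul_zero], ?_⟩
        have h4 := h1.2 h3
        have h5 : D.im ≠ 0 := fun h5 => h0 (Complex.ext h3 h5)
        exact mul_pos_of_neg_of_neg hl0 (lt_of_le_of_ne h4 h5)
    rw [if_pos h2] at h
    norm_num at h

/-- At least a quarter as many codes of rays as generalized diagonals. -/
theorem bgrw_GD_le {P : Polygon} (j : ZMod P.k) (n : ℕ) :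
    (GDv P j n).ncard ≤ 4 * (RV P j n).ncard := by
  classical
  have hch : ∀ γ : List (ZMod P.k) × ZMod P.k, ∃ s ε : ℝ, ∃ X : List (ZMod P.k), γ ∈ GDv P j n →
      (s = 1 ∨ s = -1) ∧ 0 < ε ∧ X ∈ RV P j n ∧
      Path P (P.vertex j) ((1 + Complex.I * ((s * ε : ℝ) : ℂ)) * gD P j γ) 0 X ∧
      (∃ e R, (e + 1 = γ.2 ∨ e = γ.2) ∧ X = γ.1 ++ e :: R) ∧
      ∀ γ' ∈ GDv P j n, 0 < s * (gD P j γ' * conj (gD P j γ)).im →
        s * ((1 + Complex.I * ((s * ε : ℝ) : ℂ)) * gD P j γ * conj (gD P j γ')).im < 0 := by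
    intro γ
    by_cases h : γ ∈ GDv P j n
    · obtain ⟨s, hs, ε, hε, X, hX⟩ := bgrw_code j h
      exact ⟨s, ε, X, fun _ => ⟨hs, hε, hX.1, hX.2⟩⟩
    · exact ⟨1, 1, [], fun h' => absurd h' h⟩
  choose s ε X hall using hch
  -- the key comparison
  have key : ∀ γ ∈ GDv P j n, ∀ γ' ∈ GDv P j n, X γ = X γ' → s γ = s γ' →
      ¬ 0 < s γ * (gD P j γ' * conj (gD P j γ)).im := by
    intro γ hγ γ' hγ' hXe hse hpos
    obtain ⟨hs, hε, hXm, hp, _, hord⟩ := hall γ hγ
    obtain ⟨hs', hε', hXm', hp', ⟨e, R, he, hXR⟩, _⟩ := hall γ' hγ'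
    have h1 := hord γ' hγ' hpos
    rw [hXe] at hp
    rw [hXR] at hp hp'
    obtain ⟨T, hT, l, hl0, hl1, hc⟩ := Path.cross_dev hp
    obtain ⟨T', hT', l', hl0', hl1', hc'⟩ := Path.cross_dev hp'
    set A := dev P γ'.1 (P.vertex e) with hA
    set B := dev P γ'.1 (P.vertex (e + 1)) with hB
    set u := (1 + Complex.I * ((s γ * ε γ : ℝ) : ℂ)) * gD P j γ with hu
    set u' := (1 + Complex.I * ((s γ' * ε γ' : ℝ) : ℂ)) * gD P j γ' with hu'
    set D' := gD P j γ' with hD'
    have hD'0 : D' ≠ 0 := (GDv_vis hγ').2.1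
    have h2 : 0 < s γ' * (u' * conj D').im := by
      rw [hu', cross_pert]
      have h3 : (D' * conj D').im = 0 := by rw [Complex.mul_conj]; simp
      have h4 : (D' * conj D').re = ‖D'‖ ^ 2 := by
        rw [Complex.mul_conj, Complex.normSq_eq_norm_sq]; norm_cast
      rw [h3, h4]
      have h5 : s γ' * s γ' = 1 := by rcases hs' with h | h <;> rw [h] <;> norm_num
      have h6 : 0 < ‖D'‖ ^ 2 := pow_pos (norm_pos_iff.2 hD'0) 2
      have h7 : s γ' * (0 + s γ' * ε γ' * ‖D'‖ ^ 2) = (s γ' * s γ') * (ε γ' * ‖D'‖ ^ 2) := by ring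
      rw [h7, h5, one_mul]
      exact mul_pos hε' h6
    -- one of the end points is `v + D'`
    obtain ⟨Q, m, m', hm, hm', hQ, hQ'⟩ : ∃ (Q : ℂ) (m m' : ℝ), 0 < m ∧ 0 < m' ∧
        (T : ℂ) * u = D' + m * Q ∧ (T' : ℂ) * u' = D' + m' * Q := by
      rcases he with he | he
      · have hBD : B = P.vertex j + D' := by
          rw [hB, hD']; unfold gD; rw [he]; ring
        refine ⟨A - B, 1 - l, 1 - l', by linarith, by linarith, ?_, ?_⟩
        · have : (T : ℂ) * u = (P.vertex j + T * u) - P.vertex j := by ring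
          rw [this, hc]; push_cast; linear_combination hBD
        · have : (T' : ℂ) * u' = (P.vertex j + T' * u') - P.vertex j := by ring
          rw [this, hc']; push_cast; linear_combination hBD
      · have hAD : A = P.vertex j + D' := by
          rw [hA, hD']; unfold gD; rw [he]; ring
        refine ⟨B - A, l, l', hl0, hl0', ?_, ?_⟩
        · have : (T : ℂ) * u = (P.vertex j + T * u) - P.vertex j := by ring
          rw [this, hc]; linear_combination hAD
        · have : (T' : ℂ) * u' = (P.vertex j + T' * u') - P.vertex j := by ring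
          rw [this, hc']; linear_combination hAD
    have hDD : (D' * conj D').im = 0 := by rw [Complex.mul_conj]; simp
    have e1 : T * (u * conj D').im = m * (Q * conj D').im := by
      have := congrArg (fun x : ℂ => (x * conj D').im) hQ
      rw [cross_mul_left, cross_add_left, hDD, cross_mul_left, zero_add] at this
      exact this
    have e2 : T' * (u' * conj D').im = m' * (Q * conj D').im := by
      have := congrArg (fun x : ℂ => (x * conj D').im) hQ'
      rw [cross_mul_left, cross_add_left, hDD, cross_mul_left, zero_add] at this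
      exact this
    have hTp : 0 < T := hT
    have hTp' : 0 < T' := hT'
    have h8 : s γ * (Q * conj D').im < 0 := by
      have h9 : T * (s γ * (u * conj D').im) < 0 := mul_neg_of_pos_of_neg hTp h1
      have h10 : m * (s γ * (Q * conj D').im) < 0 := by
        have : m * (s γ * (Q * conj D').im) = T * (s γ * (u * conj D').im) := by
          calc _ = s γ * (m * (Q * conj D').im) := by ring
            _ = s γ * (T * (u * conj D').im) := by rw [e1]
            _ = _ := by ring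
        rw [this]; exact h9
      by_contra hh
      push Not at hh
      have := mul_nonneg hm.le hh
      linarith
    have h11 : 0 < s γ * (Q * conj D').im := by
      have h9 : 0 < T' * (s γ' * (u' * conj D').im) := mul_pos hTp' h2
      have h10 : 0 < m' * (s γ' * (Q * conj D').im) := by
        have : m' * (s γ' * (Q * conj D').im) = T' * (s γ' * (u' * conj D').im) := by
          calc _ = s γ' * (m' * (Q * conj D').im) := by ring
            _ = s γ' * (T' * (u' * conj D').im) := by rw [e2]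
            _ = _ := by ring
        rw [this]; exact h9
      rw [hse]
      by_contra hh
      push Not at hh
      have := mul_nonpos_of_nonneg_of_nonpos hm'.le hh
      linarith
    linarith
  have hinj : InjOn (fun γ => (X γ, s γ, bhalf (gD P j γ))) (GDv P j n) := by
    intro γ hγ γ' hγ' he
    have hX : X γ = X γ' := congrArg Prod.fst he
    have hse : s γ = s γ' := congrArg (fun p => p.2.1) he
    have hbe : bhalf (gD P j γ) = bhalf (gD P j γ') := congrArg (fun p => p.2.2) he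
    have k1 := key γ hγ γ' hγ' hX hse
    have k2 := key γ' hγ' γ hγ hX.symm hse.symm
    have h0 : s γ * (gD P j γ' * conj (gD P j γ)).im = 0 := by
      rw [← hse, cross_swap] at k2
      push Not at k1 k2
      linarith
    have hs0 : s γ ≠ 0 := by
      rcases (hall γ hγ).1 with h | h <;> rw [h] <;> norm_num
    have hc : (gD P j γ' * conj (gD P j γ)).im = 0 := by
      rcases mul_eq_zero.1 h0 with h | h
      · exact absurd h hs0
      · exact h
    have hc' : (gD P j γ * conj (gD P j γ')).im = 0 := by rw [cross_swap, hc, neg_zero]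
    obtain ⟨l, hl⟩ := parallel_of_cross (GDv_vis hγ).2.1 hc'
    have hlne : l ≠ 0 := by
      rintro rfl
      apply (GDv_vis hγ').2.1
      rw [hl]
      simp
    have hl0 : 0 < l := by
      rw [hl] at hbe
      exact bhalf_pos (GDv_vis hγ).2.1 hlne hbe
    have hv := (GDv_vis hγ').2.2
    rw [hl] at hv
    have hv' := hv.scale hl0
    rw [mul_zero] at hv'
    obtain ⟨h1, h2⟩ := Vis.unique (GDv_vis hγ).2.2 hv'
    exact Prod.ext h1 h2
  have hmaps : MapsTo (fun γ => (X γ, s γ, bhalf (gD P j γ))) (GDv P j n)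
      (RV P j n ×ˢ (({1, -1} : Set ℝ) ×ˢ ({1, -1} : Set ℝ))) := by
    intro γ hγ
    obtain ⟨hs, _, hXm, _⟩ := hall γ hγ
    exact ⟨hXm, hs, bhalf_mem _⟩
  have h1 := ncard_le_ncard_of_injOn _ hmaps hinj ((RV_finite j n).prod (Set.toFinite _))
  have h3 : ({1, -1} : Set ℝ).ncard = 2 := ncard_pair (by norm_num)
  rw [ncard_prod, ncard_prod, h3] at h1
  linarith

/-- GRW (Bil side). -/
theorem t_GRW : St_GRW := by
  intro P
  refine ⟨1 / 4, by norm_num, fun j n => ?_⟩
  have hmono : ∀ m, n ≤ m → (GDv P j n).ncard ≤ (GDv P j m).ncard := fun m hm =>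
    ncard_le_ncard (fun γ hγ => ⟨lt_of_lt_of_le hγ.1 hm, hγ.2⟩) (GDv_finite P j m)
  have hstep : ∀ m, P.complexity n * 4 + m * (GDv P j n).ncard ≤ P.complexity (n + m) * 4 := by
    intro m
    induction m with
    | zero => simp
    | succ m ih =>
      have h1 := bgrw_growth (P := P) j (n + m)
      have h2 := bgrw_GD_le (P := P) j (n + m)
      have h3 := hmono (n + m) (by omega)
      have e : P.complexity (n + (m + 1)) = P.complexity (n + m + 1) := rfl
      rw [e, Nat.succ_mul]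
      omega
  have h := hstep n
  have h' : (P.complexity n : ℝ) * 4 + n * (GDv P j n).ncard ≤ P.complexity (2 * n) * 4 := by
    have e : n + n = 2 * n := by ring
    rw [e] at h
    exact_mod_cast h
  have h0 : (0 : ℝ) ≤ P.complexity n := Nat.cast_nonneg _
  linarith

end Pool.Agent.FAN
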