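import Pool.Agent.FAN.TDefs
import Pool.Agent.Lib_helper45.Bil.Length

/-!
# FAN, block 7, module LEN (helper23): bounces and length, for all vertices
-/

set_option autoImplicit false

open scoped ComplexConjugate
open Set Filter Topology Metric
open Pool.Agent.Billiard Pool.Agent.Lib_helper45 Pool.Agent.Lib_helper45.Bil

namespace Pool.Agent.FAN

/-- The first boundary point on a ray from a vertex is not near the vertex. -/
theorem blen_ball (P : Polygon) (j : ZMod P.k) : ∃ r > 0, ∀ (D : ℂ) (t : ℝ), D ≠ 0 → 0 < t →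
    (∀ τ ∈ Ioo 0 t, P.vertex j + (τ : ℂ) * D ∈ U P) → P.vertex j + (t : ℂ) * D ∈ Gam P →
    r ≤ t * ‖D‖ := by
  obtain ⟨i, rfl⟩ : ∃ i, j = i + 1 := ⟨j - 1, by ring⟩
  obtain ⟨r, hr, hb⟩ := vertex_ball i
  refine ⟨r, hr, fun D t hD ht hU hG => ?_⟩
  by_contra hlt
  push Not at hlt
  have hin : P.vertex (i + 1) + (t : ℂ) * D ∈ ball (P.vertex (i + 1)) r := by
    rw [mem_ball, dist_eq_norm, add_sub_cancel_left, norm_mul, Complex.norm_real,
      Real.norm_eq_abs, abs_of_pos ht]
    exact hlt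
  have hne : P.vertex (i + 1) + (t : ℂ) * D ≠ P.vertex (i + 1) := by
    intro h
    have h1 : (t : ℂ) * D = 0 := by linear_combination h
    rcases mul_eq_zero.1 h1 with h2 | h2
    · exact ht.ne' (by exact_mod_cast h2)
    · exact hD h2
  -- the ray runs inside the side
  have key : ∀ (q : ℂ) (l : ℝ), 0 < l → l < 1 →
      (∀ s : ℝ, 0 < s → s < 1 → P.vertex (i + 1) + (s : ℂ) * q ∈ Gam P) →
      (t : ℂ) * D = l * q → False := by
    intro q l hl hl1 hq he
    have h1 := hU (t / 2) ⟨by linarith, by linarith⟩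
    have h2 := hq (l / 2) (by linarith) (by linarith)
    have h3 : ((t / 2 : ℝ) : ℂ) * D = ((l / 2 : ℝ) : ℂ) * q := by
      push_cast
      linear_combination he / 2
    rw [h3] at h1
    exact not_mem_U_of_Gam h2 h1
  rcases hb _ hin hG hne with h | h
  · obtain ⟨l, h0, h1, he⟩ := mem_rel_iff.1 h
    refine key (-dir P i) (1 - l) (by linarith) (by linarith) (fun s hs hs1 =>
      rel_subset_Gam i (mem_rel_iff.2 ⟨1 - s, by linarith, by linarith, by
        unfold dir; push_cast; ring⟩)) ?_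
    have e1 : P.vertex (i + 1) = P.vertex i + dir P i := by unfold dir; ring
    rw [e1] at he
    push_cast
    linear_combination he
  · obtain ⟨l, h0, h1, he⟩ := mem_rel_iff.1 h
    refine key (dir P (i + 1)) l h0 h1 (fun s hs hs1 =>
      rel_subset_Gam (i + 1) (mem_rel_iff.2 ⟨s, hs, hs1, rfl⟩)) ?_
    linear_combination he

/-- Generalized diagonals are not short. -/
theorem blen_min (P : Polygon) : ∃ r > 0, ∀ (j : ZMod P.k) (D : ℂ) (W : List (ZMod P.k))
    (j' : ZMod P.k), D ≠ 0 → Vis P (P.vertex j) D 0 W j' 1 → r ≤ ‖D‖ := by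
  have h := blen_ball P
  choose r hr hrj using h
  obtain ⟨j₀, hj₀⟩ := Finite.exists_min r
  refine ⟨r j₀, hr j₀, fun j D W j' hD hvis => (hj₀ j).trans ?_⟩
  cases W with
  | nil =>
    obtain ⟨h1, h2, h3⟩ := hvis
    have := hrj j D 1 hD one_pos h3 (by rw [h2]; exact vertex_mem_Gam j')
    linarith
  | cons a W =>
    obtain ⟨t', ht, h1, h2, h3⟩ := hvis
    have h4 := hrj j D t' hD ht h1 (rel_subset_Gam a h2)
    have h5 : t' * ‖D‖ ≤ 1 * ‖D‖ := mul_le_mul_of_nonneg_right h3.lt.le (norm_nonneg _)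
    linarith

/-- LEN (Bil side). -/
theorem t_LEN : St_LEN := by
  intro P
  obtain ⟨M, δ, hδ, hM, hb⟩ := length_bound P
  obtain ⟨ρ, hρ, hmin⟩ := blen_min P
  have hMr : (0 : ℝ) < M := by exact_mod_cast hM
  refine ⟨(2 + M) / ρ + M / δ, by positivity, fun j D W j' hD hvis => ?_⟩
  have hrad := hmin j D W j' hD hvis
  have h1 : (W.length : ℝ) ≤ 1 + M * (1 + ‖D‖ / δ) := by
    cases W with
    | nil =>
      simp only [List.length_nil, Nat.cast_zero]
      positivity
    | cons a W =>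
      obtain ⟨t', ht, _, h2, h3⟩ := hvis
      obtain ⟨T₁, hT, hp⟩ := h3.pathT
      have h4 : refl P a (P.vertex j) + t' * lrefl P a D ∈ rel P a := by
        rw [refl_line h2]; exact h2
      have h5 := hb W.length W _ _ _ _ a rfl (lrefl_ne_zero a hD) h4 hp
      rw [norm_lrefl] at h5
      simp only [List.length_cons]
      push_cast
      have h6 : ‖D‖ * (T₁ - t') / δ ≤ ‖D‖ / δ := by
        apply div_le_div_of_nonneg_right _ hδ.le
        have : ‖D‖ * (T₁ - t') ≤ ‖D‖ * 1 :=
          mul_le_mul_of_nonneg_left (by linarith) (norm_nonneg _)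
        linarith
      have h7 : (M : ℝ) * (1 + ‖D‖ * (T₁ - t') / δ) ≤ M * (1 + ‖D‖ / δ) :=
        mul_le_mul_of_nonneg_left (by linarith) hMr.le
      linarith
  have h2 : (2 + (M : ℝ)) ≤ (2 + M) / ρ * ‖D‖ := by
    rw [div_mul_eq_mul_div, le_div_iff₀ hρ]
    exact mul_le_mul_of_nonneg_left hrad (by positivity)
  have h3 : (M : ℝ) / δ * ‖D‖ = M * (‖D‖ / δ) := by ring
  rw [add_mul, h3]
  linarith

end Pool.Agent.FAN
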