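import Pool.Agent.FAN.StA

/-!
# Triangulated flat surfaces: algebra of placed rooms (helper15)
-/

set_option autoImplicit false

open scoped ComplexConjugate

namespace Pool.Agent.FAN

noncomputable section

/-! ## indices modulo 3 -/

theorem three0 : (3 : ZMod 3) = 0 := by decide

theorem z31 (j : ZMod 3) : j + 1 + 2 = j := by
  rw [add_assoc, show (1 + 2 : ZMod 3) = 0 by decide, add_zero]

theorem z32 (j : ZMod 3) : j + 2 + 1 = j := by
  rw [add_assoc, show (2 + 1 : ZMod 3) = 0 by decide, add_zero]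

theorem z11 (j : ZMod 3) : j + 1 + 1 = j + 2 := by
  rw [add_assoc, show (1 + 1 : ZMod 3) = 2 by decide]

theorem z22 (j : ZMod 3) : j + 2 + 2 = j + 1 := by
  rw [add_assoc, show (2 + 2 : ZMod 3) = 1 by decide]

theorem z_cases (i j : ZMod 3) : j = i ∨ j = i + 1 ∨ j = i + 2 := by
  revert i j; decide

/-! ## cross product -/

theorem cx_add_left (p q r : ℂ) : cx (p + q) r = cx p r + cx q r := by
  simp only [cx, Complex.add_re, Complex.add_im]; ring

theorem cx_add_right (p q r : ℂ) : cx p (q + r) = cx p q + cx p r := by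
  simp only [cx, Complex.add_re, Complex.add_im]; ring

theorem cx_sub_left (p q r : ℂ) : cx (p - q) r = cx p r - cx q r := by
  simp only [cx, Complex.sub_re, Complex.sub_im]; ring

theorem cx_sub_right (p q r : ℂ) : cx p (q - r) = cx p q - cx p r := by
  simp only [cx, Complex.sub_re, Complex.sub_im]; ring

theorem cx_neg_left (p q : ℂ) : cx (-p) q = -cx p q := by
  simp only [cx, Complex.neg_re, Complex.neg_im]; ring

theorem cx_neg_right (p q : ℂ) : cx p (-q) = -cx p q := by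
  simp only [cx, Complex.neg_re, Complex.neg_im]; ring

theorem cx_self (p : ℂ) : cx p p = 0 := by simp only [cx]; ring

theorem cx_comm (p q : ℂ) : cx q p = -cx p q := by simp only [cx]; ring

theorem cx_real_left (t : ℝ) (p q : ℂ) : cx (t * p) q = t * cx p q := by
  simp only [cx, Complex.mul_re, Complex.mul_im, Complex.ofReal_re, Complex.ofReal_im]; ring

theorem cx_real_right (t : ℝ) (p q : ℂ) : cx p (t * q) = t * cx p q := by
  simp only [cx, Complex.mul_re, Complex.mul_im, Complex.ofReal_re, Complex.ofReal_im]; ring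

theorem cx_mul (u p q : ℂ) : cx (u * p) (u * q) = ‖u‖ ^ 2 * cx p q := by
  rw [← Complex.normSq_eq_norm_sq]
  simp only [cx, Complex.mul_re, Complex.mul_im, Complex.normSq_apply]; ring

theorem cx_mul1 {u : ℂ} (hu : ‖u‖ = 1) (p q : ℂ) : cx (u * p) (u * q) = cx p q := by
  rw [cx_mul, hu]; ring

theorem dt_mul (u p q : ℂ) : dt (u * p) (u * q) = ‖u‖ ^ 2 * dt p q := by
  rw [← Complex.normSq_eq_norm_sq]
  simp only [dt, Complex.mul_re, Complex.mul_im, Complex.normSq_apply]; ring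

theorem dt_mul1 {u : ℂ} (hu : ‖u‖ = 1) (p q : ℂ) : dt (u * p) (u * q) = dt p q := by
  rw [dt_mul, hu]; ring

theorem cx_I (v : ℂ) : cx v (Complex.I * v) = ‖v‖ ^ 2 := by
  rw [← Complex.normSq_eq_norm_sq]
  simp only [cx, Complex.mul_re, Complex.mul_im, Complex.normSq_apply, Complex.I_re,
    Complex.I_im]; ring

theorem dt_self (v : ℂ) : dt v v = ‖v‖ ^ 2 := by
  rw [← Complex.normSq_eq_norm_sq]
  simp only [dt, Complex.normSq_apply]

theorem cx_eq_im (p q : ℂ) : cx p q = ((starRingEnd ℂ p) * q).im := by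
  simp only [cx, Complex.mul_im, Complex.conj_re, Complex.conj_im]; ring

theorem dt_eq_re (p q : ℂ) : dt p q = ((starRingEnd ℂ p) * q).re := by
  simp only [dt, Complex.mul_re, Complex.conj_re, Complex.conj_im]; ring

theorem norm_ev (ψ : ℝ) : ‖ev ψ‖ = 1 := by
  have h : ‖ev ψ‖ ^ 2 = 1 := by
    rw [← Complex.normSq_eq_norm_sq, Complex.normSq_apply]
    simp only [ev]
    nlinarith [Real.sin_sq_add_cos_sq ψ]
  have h0 := norm_nonneg (ev ψ)
  nlinarith

theorem ev_add (a b : ℝ) : ev (a + b) = ev a * ev b := by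
  apply Complex.ext
  · simp only [ev, Complex.mul_re, Real.cos_add]
  · simp only [ev, Complex.mul_im, Real.sin_add]; ring

theorem ev_eq_exp (ψ : ℝ) : ev ψ = Complex.exp (ψ * Complex.I) := by
  apply Complex.ext
  · rw [Complex.exp_ofReal_mul_I_re]; rfl
  · rw [Complex.exp_ofReal_mul_I_im]; rfl

/-! ## placed rooms -/

variable {S : TriSys}

namespace TriSys

theorem pos' (r : S.R) (i : ZMod 3) :
    0 < cx (S.P r (i + 2) - S.P r (i + 1)) (S.P r i - S.P r (i + 1)) := by
  have h := S.pos r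
  have e0 : ((0 : ZMod 3) + 2) = 2 := by decide
  have e1 : ((0 : ZMod 3) + 1) = 1 := by decide
  have e2 : ((1 : ZMod 3) + 2) = 0 := by decide
  have e3 : ((1 : ZMod 3) + 1) = 2 := by decide
  have e4 : ((2 : ZMod 3) + 2) = 1 := by decide
  have e5 : ((2 : ZMod 3) + 1) = 0 := by decide
  have hi : i = 0 ∨ i = 1 ∨ i = 2 := by revert i; decide
  simp only [cx, Complex.sub_re, Complex.sub_im] at h ⊢
  rcases hi with rfl | rfl | rfl
  · rw [e0, e1]; nlinarith
  · rw [e2, e3]; nlinarith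
  · rw [e4, e5]; nlinarith

end TriSys

namespace Pl

theorem V_home (r : S.R) (i : ZMod 3) : (home S r).V i = S.P r i := by
  simp [V, home]

theorem V_mv (a b : ℂ) (ha : ‖a‖ = 1) (q : Pl S) (i : ZMod 3) :
    (mv a b ha q).V i = a * q.V i + b := by
  simp only [V, mv]; ring

theorem mv_home (q : Pl S) : mv q.a q.b q.ha (home S q.r) = q := by
  ext <;> simp [mv, home]

theorem orient (q : Pl S) (i : ZMod 3) : 0 < cx (q.V (i + 2) - q.V (i + 1)) (q.V i - q.V (i + 1)) := by
  have h := TriSys.pos' (S := S) q.r i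
  have e1 : q.V (i + 2) - q.V (i + 1) = q.a * (S.P q.r (i + 2) - S.P q.r (i + 1)) := by
    simp only [V]; ring
  have e2 : q.V i - q.V (i + 1) = q.a * (S.P q.r i - S.P q.r (i + 1)) := by
    simp only [V]; ring
  rw [e1, e2, cx_mul1 q.ha]
  exact h

theorem V_nx1 (q : Pl S) (j : ZMod 3) : (q.nx j).V (q.en j + 1) = q.V (j + 2) := by
  simp only [V, nx, en, TriSys.gt]; ring

theorem V_nx2 (q : Pl S) (j : ZMod 3) : (q.nx j).V (q.en j + 2) = q.V (j + 1) := by
  have h := S.ne12 (S.nb (q.r, j))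
  have h' : S.P (S.nb (q.r, j)).1 ((S.nb (q.r, j)).2 + 1) -
      S.P (S.nb (q.r, j)).1 ((S.nb (q.r, j)).2 + 2) ≠ 0 := by
    intro h0
    apply h
    rw [← neg_sub, h0, neg_zero]
  simp only [V, nx, en, TriSys.gt, TriSys.gu]
  field_simp
  ring

theorem nx_en (q : Pl S) (j : ZMod 3) : (q.nx j).en (q.en j) = j := by
  simp only [nx, en]
  have h := S.nb_nb (q.r, j)
  rw [show ((S.nb (q.r, j)).1, (S.nb (q.r, j)).2) = S.nb (q.r, j) from rfl, h]

theorem nx_nx (q : Pl S) (j : ZMod 3) : (q.nx j).nx (q.en j) = q := by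
  have h := S.nb_nb (q.r, j)
  have hne := S.ne12 (S.nb (q.r, j))
  have hne' : S.P (S.nb (q.r, j)).1 ((S.nb (q.r, j)).2 + 1) -
      S.P (S.nb (q.r, j)).1 ((S.nb (q.r, j)).2 + 2) ≠ 0 := by
    intro h0; apply hne; rw [← neg_sub, h0, neg_zero]
  have hn2 := S.ne12 (q.r, j)
  have hn2' : S.P q.r (j + 1) - S.P q.r (j + 2) ≠ 0 := by
    intro h0; apply hn2; rw [← neg_sub, h0, neg_zero]
  have e : ((q.nx j).r, q.en j) = S.nb (q.r, j) := rfl
  have hgu : S.gu (q.r, j) * S.gu (S.nb (q.r, j)) = 1 := by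
    rw [TriSys.gu, TriSys.gu, h]
    simp only at hn2 hn2' ⊢
    field_simp
    ring
  ext
  · show (S.nb ((q.nx j).r, q.en j)).1 = q.r
    rw [e, h]
  · show q.a * S.gu (q.r, j) * S.gu ((q.nx j).r, q.en j) = q.a
    rw [e, mul_assoc, hgu, mul_one]
  · show q.a * S.gu (q.r, j) * S.gt ((q.nx j).r, q.en j) + (q.a * S.gt (q.r, j) + q.b) = q.b
    rw [e]
    have h1 : S.gu (q.r, j) * S.gt (S.nb (q.r, j)) + S.gt (q.r, j) = 0 := by
      have h2 : S.gt (S.nb (q.r, j)) = S.P (S.nb (q.r, j)).1 ((S.nb (q.r, j)).2 + 2) -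
          S.gu (S.nb (q.r, j)) * S.P q.r (j + 1) := by
        rw [TriSys.gt, h]
      rw [h2, mul_sub, ← mul_assoc, hgu, one_mul]
      have h3 := V_nx2 (S := S) (home S q.r) j
      rw [V_home] at h3
      simp only [V, nx, en, home, one_mul, add_zero] at h3
      linear_combination h3
    linear_combination q.a * h1

theorem Ex_unique {q : Pl S} {x v : ℂ} {j j' : ZMod 3} (h : q.Ex x v j) (h' : q.Ex x v j') :
    j = j' := by
  rcases z_cases j j' with rfl | rfl | rfl
  · rfl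
  · exfalso
    have h1 := h.1
    have h2 := h'.2
    rw [z11] at h2
    linarith
  · exfalso
    have h1 := h.2
    have h2 := h'.1
    rw [z22] at h2
    linarith

theorem Ex.ent {q : Pl S} {x v : ℂ} {j : ZMod 3} (h : q.Ex x v j) : (q.nx j).En x v (q.en j) := by
  refine ⟨?_, ?_⟩
  · rw [V_nx1]; exact h.1
  · rw [V_nx2]; exact h.2

theorem En.left {q : Pl S} {x v : ℂ} {i : ZMod 3} (h : q.En x v i) (ha : 0 < cx v (q.V i - x)) :
    q.Ex x v (i + 1) := by
  refine ⟨?_, ?_⟩
  · rw [z31]; exact ha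
  · rw [z11]; exact h.2

theorem En.right {q : Pl S} {x v : ℂ} {i : ZMod 3} (h : q.En x v i)
    (ha : cx v (q.V i - x) < 0) : q.Ex x v (i + 2) := by
  refine ⟨?_, ?_⟩
  · rw [z22]; exact h.1
  · rw [z32]; exact ha

theorem En.exit {q : Pl S} {x v : ℂ} {i j : ZMod 3} (h : q.En x v i) (hj : q.Ex x v j) :
    (j = i + 1 ∧ 0 < cx v (q.V i - x)) ∨ (j = i + 2 ∧ cx v (q.V i - x) < 0) := by
  rcases z_cases i j with rfl | rfl | rfl
  · exfalso
    have := hj.1
    have := h.2
    linarith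
  · left
    refine ⟨rfl, ?_⟩
    have := hj.1
    rwa [z31] at this
  · right
    refine ⟨rfl, ?_⟩
    have := hj.2
    rwa [z32] at this

/-- value of the edge function along the line -/
theorem edge_fun {q : Pl S} {x v : ℂ} (j : ZMod 3) (h : cx v (q.V (j + 2) - q.V (j + 1)) ≠ 0)
    (τ : ℝ) : cx (q.V (j + 2) - q.V (j + 1)) (x + τ * v - q.V (j + 1)) =
      cx v (q.V (j + 2) - q.V (j + 1)) * (q.ct x v j - τ) := by
  rw [ct, mul_sub, mul_div_cancel₀ _ h]
  simp only [cx, Complex.sub_re, Complex.sub_im, Complex.add_re, Complex.add_im, Complex.mul_re,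
    Complex.mul_im, Complex.ofReal_re, Complex.ofReal_im]
  ring

theorem Ex.pos {q : Pl S} {x v : ℂ} {j : ZMod 3} (h : q.Ex x v j) :
    0 < cx v (q.V (j + 2) - q.V (j + 1)) := by
  have h1 := h.1
  have h2 := h.2
  rw [cx_sub_right] at h1 h2
  rw [cx_sub_right]
  linarith

theorem En.neg {q : Pl S} {x v : ℂ} {i : ZMod 3} (h : q.En x v i) :
    cx v (q.V (i + 2) - q.V (i + 1)) < 0 := by
  have h1 := h.1
  have h2 := h.2
  rw [cx_sub_right] at h1 h2
  rw [cx_sub_right]
  linarith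

theorem ct_nx (q : Pl S) (x v : ℂ) (j : ZMod 3) : (q.nx j).ct x v (q.en j) = q.ct x v j := by
  rw [ct, ct, V_nx1, V_nx2]
  rw [cx_comm (q.V (j + 1) - x), show q.V (j + 1) - q.V (j + 2) = -(q.V (j + 2) - q.V (j + 1)) by ring,
    cx_neg_right, neg_div_neg_eq]

/-- the three edge functions -/
theorem bary (q : Pl S) (x v y : ℂ) (i : ZMod 3) :
    cx (q.V (i + 2) - q.V (i + 1)) (y - q.V (i + 1)) * cx v (q.V i - x) +
      cx (q.V i - q.V (i + 2)) (y - q.V (i + 2)) * cx v (q.V (i + 1) - x) +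
      cx (q.V (i + 1) - q.V i) (y - q.V i) * cx v (q.V (i + 2) - x) =
    cx (q.V (i + 2) - q.V (i + 1)) (q.V i - q.V (i + 1)) * cx v (y - x) := by
  simp only [cx, Complex.sub_re, Complex.sub_im]
  ring

theorem bary1 (q : Pl S) (y : ℂ) (i : ZMod 3) :
    cx (q.V (i + 2) - q.V (i + 1)) (y - q.V (i + 1)) +
      cx (q.V i - q.V (i + 2)) (y - q.V (i + 2)) + cx (q.V (i + 1) - q.V i) (y - q.V i) =
    cx (q.V (i + 2) - q.V (i + 1)) (q.V i - q.V (i + 1)) := by
  simp only [cx, Complex.sub_re, Complex.sub_im]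
  ring

theorem In_iff3 (q : Pl S) (y : ℂ) (i : ZMod 3) : q.In y ↔
    0 < cx (q.V (i + 2) - q.V (i + 1)) (y - q.V (i + 1)) ∧
    0 < cx (q.V i - q.V (i + 2)) (y - q.V (i + 2)) ∧
    0 < cx (q.V (i + 1) - q.V i) (y - q.V i) := by
  constructor
  · intro h
    have h1 := h (i + 1)
    have h2 := h (i + 2)
    rw [z31, z11] at h1
    rw [z22, z32] at h2
    exact ⟨h i, h1, h2⟩
  · rintro ⟨h0, h1, h2⟩ k
    rcases z_cases i k with rfl | rfl | rfl
    · exact h0
    · rw [z31, z11]; exact h1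
    · rw [z22, z32]; exact h2

theorem line_cx (x v : ℂ) (τ : ℝ) : cx v (x + τ * v - x) = 0 := by
  rw [add_sub_cancel_left, cx_real_right, cx_self, mul_zero]

/-- the points of the line inside the room: between the entering and the leaving parameter -/
theorem In_iff {q : Pl S} {x v : ℂ} {i j : ZMod 3} (h : q.En x v i) (hj : q.Ex x v j) (τ : ℝ) :
    q.In (x + τ * v) ↔ q.ct x v i < τ ∧ τ < q.ct x v j := by
  have hi1 := edge_fun (q := q) (x := x) i (ne_of_lt h.neg) τ
  have hj1 := edge_fun (q := q) (x := x) j (ne_of_gt hj.pos) τ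
  have hn := h.neg
  have hp := hj.pos
  constructor
  · intro hI
    have a1 := hI i
    have a2 := hI j
    rw [hi1] at a1
    rw [hj1] at a2
    constructor
    · by_contra hc
      have : 0 ≤ q.ct x v i - τ := by linarith
      nlinarith
    · by_contra hc
      have : q.ct x v j - τ ≤ 0 := by linarith
      nlinarith
  · rintro ⟨b1, b2⟩
    have a1 : 0 < cx (q.V (i + 2) - q.V (i + 1)) (x + τ * v - q.V (i + 1)) := by
      rw [hi1]; nlinarith
    have a2 : 0 < cx (q.V (j + 2) - q.V (j + 1)) (x + τ * v - q.V (j + 1)) := by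
      rw [hj1]; nlinarith
    have hb := bary q x v (x + τ * v) i
    rw [line_cx, mul_zero] at hb
    obtain ⟨h1, h2⟩ := h
    rw [In_iff3 q _ i]
    rcases En.exit ⟨h1, h2⟩ hj with ⟨rfl, ha⟩ | ⟨rfl, ha⟩
    · rw [z31, z11] at a2
      refine ⟨a1, a2, ?_⟩
      by_contra hc
      rw [not_lt] at hc
      have e1 := mul_pos a1 ha
      have e2 := mul_pos a2 h1
      have e3 := mul_nonneg_of_nonpos_of_nonpos hc h2.le
      linarith
    · rw [z22, z32] at a2
      refine ⟨a1, ?_, a2⟩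
      by_contra hc
      rw [not_lt] at hc
      have e1 := mul_neg_of_pos_of_neg a1 ha
      have e2 := mul_neg_of_pos_of_neg a2 h2
      have e3 := mul_nonpos_of_nonpos_of_nonneg hc h1.le
      linarith

/-- the crossing parameters increase -/
theorem ct_lt {q : Pl S} {x v : ℂ} {i j : ZMod 3} (h : q.En x v i) (hj : q.Ex x v j) :
    q.ct x v i < q.ct x v j := by
  set τ := q.ct x v i with hτ
  have hi1 := edge_fun (q := q) (x := x) i (ne_of_lt h.neg) τ
  have hj1 := edge_fun (q := q) (x := x) j (ne_of_gt hj.pos) τ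
  rw [← hτ, sub_self, mul_zero] at hi1
  have hb := bary q x v (x + τ * v) i
  have hb1 := bary1 q (x + τ * v) i
  have ho := q.orient i
  rw [line_cx, mul_zero, hi1, zero_mul, zero_add] at hb
  rw [hi1, zero_add] at hb1
  have hp := hj.pos
  obtain ⟨h1, h2⟩ := h
  have key : 0 < cx (q.V (j + 2) - q.V (j + 1)) (x + τ * v - q.V (j + 1)) := by
    rcases En.exit ⟨h1, h2⟩ hj with ⟨rfl, ha⟩ | ⟨rfl, ha⟩
    · rw [z31, z11]
      by_contra hc
      rw [not_lt] at hc
      have e1 := mul_nonpos_of_nonpos_of_nonneg hc h1.le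
      have e2 : 0 < cx (q.V (i + 1) - q.V i) (x + τ * v - q.V i) := by linarith
      have e3 := mul_neg_of_pos_of_neg e2 h2
      linarith
    · rw [z22, z32]
      by_contra hc
      rw [not_lt] at hc
      have e1 := mul_nonneg_of_nonpos_of_nonpos hc h2.le
      have e2 : 0 < cx (q.V i - q.V (i + 2)) (x + τ * v - q.V (i + 2)) := by linarith
      have e3 := mul_pos e2 h1
      linarith
  rw [hj1] at key
  by_contra hc
  rw [not_lt] at hc
  have : q.ct x v j - τ ≤ 0 := by linarith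
  nlinarith

/-- the crossing point lies between the end points of the edge -/
theorem ct_point {q : Pl S} {x v : ℂ} {j : ZMod 3} (h : q.Ex x v j) :
    ∃ l : ℝ, 0 < l ∧ l < 1 ∧
      x + q.ct x v j * v = (l : ℂ) * q.V (j + 2) + ((1 - l : ℝ) : ℂ) * q.V (j + 1) := by
  have hp := h.pos
  obtain ⟨h1, h2⟩ := h
  set D := cx v (q.V (j + 2) - q.V (j + 1)) with hD
  have hDne : D ≠ 0 := ne_of_gt hp
  refine ⟨-cx v (q.V (j + 1) - x) / D, div_pos (by linarith) hp, ?_, ?_⟩
  · rw [div_lt_one hp, hD, cx_sub_right]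
    rw [cx_sub_right] at h1 h2 ⊢
    linarith
  · have hD' : (D : ℂ) ≠ 0 := by exact_mod_cast hDne
    have e : (q.ct x v j : ℂ) = (cx (q.V (j + 1) - x) (q.V (j + 2) - x) : ℝ) / (D : ℝ) := by
      rw [ct, ← hD]; push_cast; ring
    rw [e]
    apply mul_left_cancel₀ hD'
    push_cast
    field_simp
    rw [hD]
    apply Complex.ext
    · simp only [cx, Complex.sub_re, Complex.sub_im, Complex.add_re, Complex.add_im,
        Complex.mul_re, Complex.mul_im, Complex.ofReal_re, Complex.ofReal_im, Complex.neg_re,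
        Complex.neg_im]
      ring
    · simp only [cx, Complex.sub_re, Complex.sub_im, Complex.add_re, Complex.add_im,
        Complex.mul_re, Complex.mul_im, Complex.ofReal_re, Complex.ofReal_im, Complex.neg_re,
        Complex.neg_im]
      ring

theorem Ex.rev {q : Pl S} {x v : ℂ} {j : ZMod 3} (h : q.Ex x v j) :
    (q.nx j).Ex x (-v) (q.en j) := by
  refine ⟨?_, ?_⟩
  · rw [V_nx2, cx_neg_left]; linarith [h.2]
  · rw [V_nx1, cx_neg_left]; linarith [h.1]

theorem ct_neg (q : Pl S) (x v : ℂ) (j : ZMod 3) : q.ct x (-v) j = -q.ct x v j := by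
  rw [ct, ct, cx_neg_left, div_neg]

theorem nx_mv (a b : ℂ) (ha : ‖a‖ = 1) (q : Pl S) (j : ZMod 3) :
    (mv a b ha q).nx j = mv a b ha (q.nx j) := by
  ext
  · rfl
  · simp only [nx, mv]; ring
  · simp only [nx, mv]; ring

theorem en_mv (a b : ℂ) (ha : ‖a‖ = 1) (q : Pl S) (j : ZMod 3) :
    (mv a b ha q).en j = q.en j := rfl

theorem Ex_mv (a b : ℂ) (ha : ‖a‖ = 1) (q : Pl S) (x v : ℂ) (j : ZMod 3) :
    (mv a b ha q).Ex (a * x + b) (a * v) j ↔ q.Ex x v j := by
  simp only [Ex, V_mv]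
  rw [show a * q.V (j + 2) + b - (a * x + b) = a * (q.V (j + 2) - x) by ring,
    show a * q.V (j + 1) + b - (a * x + b) = a * (q.V (j + 1) - x) by ring, cx_mul1 ha, cx_mul1 ha]

theorem In_mv (a b : ℂ) (ha : ‖a‖ = 1) (q : Pl S) (y : ℂ) :
    (mv a b ha q).In (a * y + b) ↔ q.In y := by
  simp only [In, V_mv]
  refine forall_congr' fun i => ?_
  rw [show a * q.V (i + 2) + b - (a * q.V (i + 1) + b) = a * (q.V (i + 2) - q.V (i + 1)) by ring,
    show a * y + b - (a * q.V (i + 1) + b) = a * (y - q.V (i + 1)) by ring, cx_mul1 ha]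

theorem ct_mv (a b : ℂ) (ha : ‖a‖ = 1) (q : Pl S) (x v : ℂ) (j : ZMod 3) :
    (mv a b ha q).ct (a * x + b) (a * v) j = q.ct x v j := by
  simp only [ct, V_mv]
  rw [show a * q.V (j + 2) + b - (a * x + b) = a * (q.V (j + 2) - x) by ring,
    show a * q.V (j + 1) + b - (a * x + b) = a * (q.V (j + 1) - x) by ring,
    show a * q.V (j + 2) + b - (a * q.V (j + 1) + b) = a * (q.V (j + 2) - q.V (j + 1)) by ring,
    cx_mul1 ha, cx_mul1 ha]

theorem h3_mv (a b : ℂ) (ha : ‖a‖ = 1) (q : Pl S) (x v : ℂ) :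
    (mv a b ha q).h3 (a * x + b) (a * v) = q.h3 x v := by
  simp only [h3, V_mv]
  rw [show a * q.V 0 + b - (a * x + b) = a * (q.V 0 - x) by ring,
    show a * q.V 1 + b - (a * x + b) = a * (q.V 1 - x) by ring,
    show a * q.V 2 + b - (a * x + b) = a * (q.V 2 - x) by ring, cx_mul1 ha, cx_mul1 ha,
    cx_mul1 ha]

end Pl

end

end Pool.Agent.FAN
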