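import Pool.Agent.FAN.StA

/-!
# FAN, block 5: packing (helper15). Statements with complete proofs.

Write `theorem m_KX : Sk_X` in `Pool/Agent/FAN/K_X.lean`, namespace `Pool.Agent.FAN`. A statement may use
other statements of this file and of `StA.lean` as hypotheses (`theorem m_KX (h : Sk_Y) : Sk_X`) or import
the file of a proved one. Proved algebra: `Base.lean`, `Base2.lean` (and `Base3.lean`, soon).

`A = S.P r₀ i₀`, `q₀ = Pl.home S r₀` (`q₀.V i₀ = A`: `Pl.V_home`), `v = ev φ`.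
A point `y` is written `y = A + s i v + t v` with `s = cx v (y - A)`, `t = dt v (y - A)`.
-/

set_option autoImplicit false

open scoped ComplexConjugate
open MeasureTheory Set

namespace Pool.Agent.FAN

variable {S : TriSys}

/-- The constants of block 5: diameter `D`, altitude `h`, base arc `|φ - φ₀| ≤ ρ`. -/
structure Cst (S : TriSys) (r₀ : S.R) (i₀ : ZMod 3) where
  D : ℝ
  h : ℝ
  φ₀ : ℝ
  ρ : ℝ
  D1 : 1 ≤ D
  h0 : 0 < h
  hD : h ≤ D
  ρ0 : 0 < ρ
  ρ1 : ρ ≤ 1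
  arc : ∀ φ : ℝ, |φ - φ₀| ≤ ρ → (Pl.home S r₀).Ex (S.P r₀ i₀) (ev φ) i₀
  dia1 : ∀ (q : Pl S) (i j : ZMod 3), ‖q.V i - q.V j‖ ≤ D
  dia2 : ∀ (q : Pl S) (y : ℂ) (i : ZMod 3), q.In y → ‖y - q.V i‖ ≤ D
  dia3 : ∀ (q : Pl S) (x v : ℂ) (i j : ZMod 3), (q.Ex x v j ∨ q.En x v j) →
    ‖x + q.ct x v j * v - q.V i‖ ≤ D
  alt : ∀ (q : Pl S) (v : ℂ) (i : ZMod 3), ‖v‖ = 1 → q.Ex (q.V i) v i → h ≤ q.ct (q.V i) v i

variable {r₀ : S.R} {i₀ : ZMod 3}

/-- the apex of the last room: the vertex opposite to the entering edge -/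
noncomputable def apK (S : TriSys) (r₀ : S.R) (i₀ : ZMod 3) (js : List (ZMod 3)) : ℂ :=
  (endP (Pl.home S r₀) js).V (eI (Pl.home S r₀) i₀ js)

/-- `φ` is a good direction: no generalized diagonal of length at most `2 n` in the directions
`φ + s`, `|s| ≤ σ`. -/
def Gd (K : Cst S r₀ i₀) (n σ φ : ℝ) : Prop :=
  0 < σ ∧ σ ≤ K.ρ / 2 ∧ |φ - K.φ₀| ≤ K.ρ / 2 ∧ 100 * K.D ≤ n ∧
  ∀ js ∈ GG S r₀ i₀ (2 * n), ∀ s l : ℝ, |s| ≤ σ → 0 < l →
    apK S r₀ i₀ js - S.P r₀ i₀ ≠ l * ev (φ + s)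

/-- The point `y` (with `|s| ≤ h sin σ / 4`, `n / 2 ≤ t ≤ 3 n / 4`) lies in the room at the end of the word
`js` of the line through `y` in the direction `φ`. -/
def Bs (K : Cst S r₀ i₀) (n σ φ : ℝ) (y : ℂ) (js : List (ZMod 3)) : Prop :=
  |cx (ev φ) (y - S.P r₀ i₀)| ≤ K.h * Real.sin σ / 4 ∧ n / 2 ≤ dt (ev φ) (y - S.P r₀ i₀) ∧
  dt (ev φ) (y - S.P r₀ i₀) ≤ 3 * n / 4 ∧ Run (Pl.home S r₀) y (ev φ) js ∧
  (endP (Pl.home S r₀) js).In y

/-- the window of length `n / 4` that starts at `y` has the word `js'` -/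
def Ws (S : TriSys) (r₀ : S.R) (n φ : ℝ) (y : ℂ) (js js' : List (ZMod 3)) : Prop :=
  Run (endP (Pl.home S r₀) js) y (ev φ) js' ∧
  (endP (endP (Pl.home S r₀) js) js').In (y + (n / 4 : ℝ) * ev φ)

/-- the sets of the change of variables -/
def BB (K : Cst S r₀ i₀) (n σ : ℝ) (G : Set ℝ) (js js' : List (ZMod 3)) : Set (ℝ × ℂ) :=
  {p | p.1 ∈ G ∧ Bs K n σ p.1 p.2 js ∧ Ws S r₀ n p.1 p.2 js js'}

/-- the union of the lines that contain the edges of the placed rooms -/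
def ngl (S : TriSys) (r₀ : S.R) : Set ℂ :=
  {y | ∃ (js : List (ZMod 3)) (k : ZMod 3), cx ((endP (Pl.home S r₀) js).V (k + 2) -
    (endP (Pl.home S r₀) js).V (k + 1)) (y - (endP (Pl.home S r₀) js).V (k + 1)) = 0}

/-- SCL. Scaling of the direction and translation along the line. Proof: `cx (c v) p = c cx v p`,
`cx v (p - (x + τ v)) = cx v (p - x)`; numerator of `ct`:
`cx (p - x - τ v) (p' - x - τ v) = cx (p - x) (p' - x) - τ cx v (p' - p)`. Induction on `js`. -/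
def Sk_SCL : Prop := ∀ (S : TriSys) (js : List (ZMod 3)) (q : Pl S) (x v : ℂ),
  (∀ c : ℝ, 0 < c → (Run q x (c * v) js ↔ Run q x v js)) ∧
  (∀ c : ℝ, 0 < c → cts q x (c * v) js = (cts q x v js).map fun t => t / c) ∧
  (∀ τ : ℝ, Run q (x + τ * v) v js ↔ Run q x v js) ∧
  (∀ τ : ℝ, Run q x v js → cts q (x + τ * v) v js = (cts q x v js).map fun t => t - τ) ∧
  (∀ τ : ℝ, clr q js (x + τ * v) v = clr q js x v)

/-- CTM. Elements of `cts` and of `vl`. Proof: induction on `js` (for `vl`: the visited rooms are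
`endP q js₁` for the initial segments `js₁` of `js`). -/
def Sk_CTM : Prop := ∀ (S : TriSys) (js : List (ZMod 3)) (q : Pl S) (x v : ℂ),
  (∀ t : ℝ, t ∈ cts q x v js ↔ ∃ js₁ j js₂, js = js₁ ++ j :: js₂ ∧ t = (endP q js₁).ct x v j) ∧
  (∀ p : ℂ, p ∈ vl q js ↔ ∃ js₁ js₂ k, js = js₁ ++ js₂ ∧ p = (endP q js₁).V k)

/-- DIR. The base arc. Proof: let `w = (V (i₀+1) + V (i₀+2)) / 2 - A` (vertices of `home r₀`). With
`a = cx (V (i₀+1) - A) (V (i₀+2) - A) > 0` (ORI): `cx w (V (i₀+2) - A) = a / 2`,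
`cx w (V (i₀+1) - A) = - a / 2`, so `w ≠ 0`; take `φ₀ = Complex.arg w`, `ev φ₀ = w / ‖w‖`. The two inequalities
of `Ex` hold at `φ₀` and are open conditions on `φ` (`cx (ev φ) p` is continuous in `φ`); take `ρ` a little
smaller than the radius of a ball and at most 1. -/
def Sk_DIR : Prop := ∀ (S : TriSys) (r₀ : S.R) (i₀ : ZMod 3), ∃ φ₀ ρ : ℝ, 0 < ρ ∧ ρ ≤ 1 ∧
  ∀ φ : ℝ, |φ - φ₀| ≤ ρ → (Pl.home S r₀).Ex (S.P r₀ i₀) (ev φ) i₀

/-- CST. Proof: DIR and DIA (`m_DIA`), with `D = D₀` and `h = min h₀ D₀`. -/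
def Sk_CST : Prop := ∀ (S : TriSys) (r₀ : S.R) (i₀ : ZMod 3), Nonempty (Cst S r₀ i₀)

/-- FIN. There are finitely many generalized diagonals of bounded length. Proof: let `js ∈ GG L`,
`js = i₀ :: js'`, `w = p - A` (`p` the apex), `Run q₀ A w js`. `w ≠ 0` (otherwise `Ex` fails: `cx 0 _ = 0`). Let
`v = w / ‖w‖`; by SCL `Run q₀ A v js`. Crossing times `cts q₀ A v js`: the first is `≥ h₀ > 0` (DIA (4), `A = V i₀`),
the others are larger (CTS (1)); the last is the crossing time of the entering edge of the last room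
(ENT), which is `< dt v (p - A) = ‖p - A‖ ≤ L` (TIM (9)), and all others are smaller (ENT). So LEN with
`T₁ = 0`, `T₂ = max L 0` gives `js.length ≤ C (1 + max L 0)`; the set of lists of bounded length over a finite
alphabet is finite (`List.finite_length_le`). -/
def Sk_FIN : Prop := ∀ (S : TriSys) (r₀ : S.R) (i₀ : ZMod 3) (L : ℝ), (GG S r₀ i₀ L).Finite

/-- SEC. The sector of a good direction runs the same word. Proof: induction on `js` from the right
(`List.reverseRecOn`). `js = []`: `j = i₀`, because `|φ + s - φ₀| ≤ ρ` (`K.arc`). `js = js₁ ++ [j₁]`: by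
the induction hypothesis for `js₁` there is `j'` such that all `φ + s` run `js₁ ++ [j']`; for `s = 0` the exit edge is
unique (EXU (1)), so `j' = j₁` and all `φ + s` run `js`. Let `q = endP q₀ js`, `i = eI q₀ i₀ js`, `p = q.V i` the apex.
By ENT `q.En A (ev (φ + s)) i` for all `|s| ≤ σ`. CLAIM: `cx (ev (φ + s)) (p - A) ≠ 0` for `|s| ≤ σ`. Otherwise
(TIM (9), ‖ev‖ = 1) `p - A = l ev (φ + s)` with `l = dt (ev (φ + s)) (p - A) > q.ct A (ev (φ + s)) i > 0` (the
crossing times of a line from `A` are positive: the first is `≥ h` by `K.alt`, the others are larger, CTS (1), ENT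
(3)); so `Run q₀ A (p - A) js` (SCL), the first letter of `js` is `i₀` (unique exit), and
`‖p - A‖ ≤ ‖p - (A + c v)‖ + c ≤ D + 3 n / 2 ≤ 2 n`, where `c = q.ct A (ev φ) i ∈ cts q₀ A (ev φ) js` (ENT) and
`K.dia3` is used: `js ∈ GG (2 n)`, against `Gd`. So the continuous function `s ↦ cx (ev (φ + s)) (p - A)` has
constant sign on `[-σ, σ]`, and EXU (4) gives the same exit `j` (`i + 1` or `i + 2`) for all `s`. -/
def Sk_SEC : Prop := ∀ (S : TriSys) (r₀ : S.R) (i₀ : ZMod 3) (K : Cst S r₀ i₀) (n σ φ : ℝ), Gd K n σ φ →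
  ∀ js : List (ZMod 3), Run (Pl.home S r₀) (S.P r₀ i₀) (ev φ) js →
    (∀ t ∈ cts (Pl.home S r₀) (S.P r₀ i₀) (ev φ) js, t ≤ 3 * n / 2) →
    ∃ j, ∀ s : ℝ, |s| ≤ σ → Run (Pl.home S r₀) (S.P r₀ i₀) (ev (φ + s)) (js ++ [j])

/-- HTR. Heights of the vertices of one room that is crossed by a sector of lines. Proof. Let an edge
with left end point `L` and right end point `R` be crossed by the lines `φ + s`, `|s| ≤ σ`, at parameters
`c_s ≥ τ ≥ 0` (nothing to prove if `τ < 0`: `sin σ ≥ 0`). TIM (8) for `s = σ`: `c_σ ev (φ + σ) = (1 - l) (R - x) + l (L - x)`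
(or with the roles of `L`, `R` exchanged for an entering edge), so `c_σ sin σ = (1 - l) cx v (R - x) + l cx v (L - x)`
with `cx v (R - x) < 0 < cx v (L - x)` (`s = 0`), whence `τ sin σ ≤ c_σ sin σ ≤ cx v (L - x)`. In the same way
`s = -σ` gives `τ sin σ ≤ - cx v (R - x)`. Apply this to the entering edge `i` (end points `V (i+1)` left, `V (i+2)`
right) and, for the third vertex `V i`, to the exit edge `j`, which is `i + 1` or `i + 2` (EXU (5)), with crossing
times `> ` those of the entering edge (TIM (4)). Second part: the exit edge of a room, from the opposite vertex. -/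
def Sk_HTR : Prop := ∀ (S : TriSys) (q : Pl S) (x : ℂ) (φ σ τ : ℝ), 0 ≤ σ → σ ≤ 1 →
  (∀ i j : ZMod 3, (∀ s : ℝ, |s| ≤ σ → q.En x (ev (φ + s)) i ∧ q.Ex x (ev (φ + s)) j ∧
      τ ≤ q.ct x (ev (φ + s)) i) → ∀ k, τ * Real.sin σ ≤ |cx (ev φ) (q.V k - x)|) ∧
  (∀ j : ZMod 3, (∀ s : ℝ, |s| ≤ σ → q.Ex x (ev (φ + s)) j ∧ τ ≤ q.ct x (ev (φ + s)) j) →
    ∀ k, k ≠ j → τ * Real.sin σ ≤ |cx (ev φ) (q.V k - x)|)

/-- VTX. Heights over the central line. Proof: SEC gives `j` with `Run (φ + s) (js ++ [j])` for all `|s| ≤ σ`. Let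
`q = endP q₀ js`, `i = eI q₀ i₀ js`. If `js ≠ []`: `En i` (ENT), `Ex j` for all `|s| ≤ σ`. The entering times
`q.ct A (ev (φ + s)) i` are `≥ h` (the first crossing time is `≥ h` by `K.alt` with `A = q₀.V i₀`, the others are larger)
and they are `≥ q.ct A (ev φ) i - 2 D`: both crossing points have distance at most `D` from the vertex `V 0`
(`K.dia3`), and `c_s = ‖(A + c_s ev (φ+s)) - A‖` for `c_s ≥ 0`. HTR with `τ = h` and with
`τ = q.ct A (ev φ) i - 2 D ≥ t - 2 D`. If `js = []`: second part of HTR with `x = A = V i₀`, `j = i₀`, `τ = h`. -/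
def Sk_VTX : Prop := ∀ (S : TriSys) (r₀ : S.R) (i₀ : ZMod 3) (K : Cst S r₀ i₀) (n σ φ : ℝ), Gd K n σ φ →
  ∀ js : List (ZMod 3), Run (Pl.home S r₀) (S.P r₀ i₀) (ev φ) js →
    (∀ t ∈ cts (Pl.home S r₀) (S.P r₀ i₀) (ev φ) js, t ≤ 3 * n / 2) →
    (js ≠ [] → ∀ k, K.h * Real.sin σ ≤
      |cx (ev φ) ((endP (Pl.home S r₀) js).V k - S.P r₀ i₀)|) ∧
    (∀ k, k ≠ i₀ → K.h * Real.sin σ ≤ |cx (ev φ) ((Pl.home S r₀).V k - S.P r₀ i₀)|) ∧
    (∀ t ∈ cts (Pl.home S r₀) (S.P r₀ i₀) (ev φ) js, ∀ k, (t - 2 * K.D) * Real.sin σ ≤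
      |cx (ev φ) ((endP (Pl.home S r₀) js).V k - S.P r₀ i₀)|)

/-- OFF. Lines parallel to the central line. `As = A + s i v`. Proof. `cx v (p - As) = cx v (p - A) - s`.
(a) If the central line runs `js` with crossing times `≤ 3 n / 2` then it runs `js ++ [j]` (SEC, `s = 0`) and so does
the offset line: the end points of the edges crossed by `js ++ [j]` are vertices of the visited rooms
`endP q₀ js₁` (`js₁` an initial segment of `js`; for `js₁ = []` the edge is `i₀` and its end points are `V k`, `k ≠ i₀`),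
they have central heights `≥ h sin σ > |s|` in absolute value (VTX for `js₁`), so the signs in `Ex` are the same.
(b) For an edge crossed by both lines at the times `t_c` (central) and `t_s` (offset): `|t_s - t_c| ≤ 2 D`, by `K.dia3`
for both crossing points and a common vertex, because
`t_s - t_c = dt v ((As + t_s v) - (A + t_c v))` (`dt v (i v) = 0`).
(c) By induction on `js` from the right: if the offset line runs `js` with offset crossing times `≤ n` then the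
central line runs `js` with crossing times `≤ n + 2 D ≤ 3 n / 2`. `js = js₁ ++ [j₁]`: by induction the central line
runs `js₁`, so by (a) both run `js₁ ++ [j']`, `j' = j₁` by uniqueness of the exit, and (b) bounds the new time.
Then (a) gives `j`. Times: offset `t ≥ t_c - 2 D ≥ - 2 D`. Heights: for `t` in the offset `cts` of `js`, the
corresponding (same position in the list) central time is `≥ t - 2 D`, so by VTX (3) the central heights are
`≥ (t - 4 D) sin σ` and the offset heights `≥ (t - 4 D) sin σ - h sin σ / 4 ≥ (t - 5 D) sin σ`. For `js = []` the letter is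
`i₀`. -/
def Sk_OFF : Prop := ∀ (S : TriSys) (r₀ : S.R) (i₀ : ZMod 3) (K : Cst S r₀ i₀) (n σ φ s : ℝ),
  Gd K n σ φ → |s| ≤ K.h * Real.sin σ / 4 → ∀ js : List (ZMod 3),
    Run (Pl.home S r₀) (S.P r₀ i₀ + s * (Complex.I * ev φ)) (ev φ) js →
    (∀ t ∈ cts (Pl.home S r₀) (S.P r₀ i₀ + s * (Complex.I * ev φ)) (ev φ) js, t ≤ n) →
    Run (Pl.home S r₀) (S.P r₀ i₀) (ev φ) js ∧
    (∀ t ∈ cts (Pl.home S r₀) (S.P r₀ i₀) (ev φ) js, t ≤ 3 * n / 2) ∧
    (∃ j, Run (Pl.home S r₀) (S.P r₀ i₀ + s * (Complex.I * ev φ)) (ev φ) (js ++ [j])) ∧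
    (∀ t ∈ cts (Pl.home S r₀) (S.P r₀ i₀ + s * (Complex.I * ev φ)) (ev φ) js, - 2 * K.D ≤ t ∧
      ∀ k, (t - 5 * K.D) * Real.sin σ ≤
        |cx (ev φ) ((endP (Pl.home S r₀) js).V k - (S.P r₀ i₀ + s * (Complex.I * ev φ)))|)

/-- FLO. Existence of the word at time `t`. Proof: consider the nonempty words `js` with `Run q x v js` and all
crossing times `< t`; there is one by hypothesis; their lengths are bounded by LEN (`T₁' = min T₁ t`, `T₂ = t`). Take one
of maximal length. By hypothesis there is `j` with `Run q x v (js ++ [j])`; its last crossing time `c = (endP q js).ct x v j`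
is not `< t` (maximality, `cts_append`) and not `t` (last hypothesis), so `t < c`. The entering edge `i` of `endP q js`
(ENT) is crossed at a time `< t`, and `In_iff` (`Base.lean`) gives `(endP q js).In (x + t v)`. -/
def Sk_FLO : Prop := ∀ (S : TriSys) (q : Pl S) (x v : ℂ) (T₁ T t : ℝ), ‖v‖ = 1 →
  (∀ js : List (ZMod 3), Run q x v js → (∀ t' ∈ cts q x v js, t' ≤ T) →
    (∀ t' ∈ cts q x v js, T₁ ≤ t') ∧ ∃ j, Run q x v (js ++ [j])) → t ≤ T →
  (∃ js : List (ZMod 3), js ≠ [] ∧ Run q x v js ∧ ∀ t' ∈ cts q x v js, t' < t) →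
  (∀ js : List (ZMod 3), Run q x v js → t ∉ cts q x v js) →
  ∃ js : List (ZMod 3), js ≠ [] ∧ Run q x v js ∧ (endP q js).In (x + t * v) ∧
    ∀ t' ∈ cts q x v js, t' < t

/-- PHP. The phase point of `y` has a window of large clearance. Proof. `s = cx v (y - A)`, `t = dt v (y - A)`,
`As = A + s i v`, `y = As + t v`. `Run q₀ As v (js ++ js')` (SCL (3), EXU (8)), `(endP q₀ (js ++ js')).In (As + (t + n/4) v)`,
so all crossing times of the offset line are `< t + n / 4 ≤ n` (CTS (3)): OFF applies to all initial segments of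
`js ++ js'`. `js ≠ []`: otherwise `‖y - A‖ ≤ D` (`K.dia2`, `A = V i₀`), but `‖y - A‖ ≥ dt v (y - A) ≥ n / 2 > D`. Let
`Q = endP q₀ js` and `c` its entering time (offset line, ENT): `c ≥ t - 2 D` (`K.dia2` for `y`, `K.dia3` for the crossing
point). For every initial segment `js₁` of `js'` the number `c` is in the offset `cts` of `js ++ js₁`, so by OFF all
vertices `p` of `endP q₀ (js ++ js₁)` have `|cx v (p - As)| ≥ (c - 5 D) sin σ ≥ (n / 2 - 7 D) sin σ ≥ (n / 4) sin σ`.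
The clearance `clr Q js' y v` is attained at one of these vertices (CLV, CTM). `PW`: apply the motion
`z ↦ (z - Q.b) / Q.a` (MOV with `c = Q.a⁻¹`, `e = - Q.b / Q.a`), which maps `Q` to `home Q.r`, to
`Q.In y`, `Run Q y v js'`, `(endP Q js').In (y + (n / 4) v)`; `DD = clr` by UNI (or: `PWR` style). -/
def Sk_PHP : Prop := ∀ (S : TriSys) (r₀ : S.R) (i₀ : ZMod 3) (K : Cst S r₀ i₀) (n σ φ : ℝ) (y : ℂ)
  (js js' : List (ZMod 3)), Gd K n σ φ → Bs K n σ φ y js → Ws S r₀ n φ y js js' →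
  ∀ Q : Pl S, Q = endP (Pl.home S r₀) js →
    PW S Q.r ((y - Q.b) / Q.a) (ev φ / Q.a) (n / 4) js' ∧
    n / 4 * Real.sin σ ≤ DD S Q.r ((y - Q.b) / Q.a) (ev φ / Q.a) (n / 4)

/-- INJ. The phase point determines the word. Proof. `s, t, As` as in PHP, `s', t', As'` for `y'`, `v = ev φ`,
`v' = ev φ'`; `Q = endP q₀ js`, `Q' = endP q₀ js'`. Let `c = Q'.a / Q.a`, `e = Q'.b - c Q.b`, `m z = c z + e`: `mv c e Q = Q'`,
`m y = y'`, `c v = v'`. Read backwards: `Run Q y (-v) (rev q₀ js)` and `Run Q' y' (-v') (rev q₀ js')` (REV, `Run_rev` with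
`x = y`, `N = 0`), and by MOV `Run Q' y' (-v') (rev q₀ js)`. By EXU (6) one word is an initial segment of
the other; by symmetry (exchange the two data) let `rev q₀ js' = rev q₀ js ++ rest`. Split `js' = js₁ ++ js₂` with `js₂.length =
js.length` (`rev_length`); `rev q₀ js' = rev (endP q₀ js₁) js₂ ++ rev q₀ js₁` (`rev_append`), so
`rev (endP q₀ js₁) js₂ = rev q₀ js`. Let `P₂ = endP q₀ js₁`. `Q' = endP P₂ js₂`, so
`P₂ = endP Q' (rev P₂ js₂) = endP Q' (rev q₀ js) = mv c e (endP Q (rev q₀ js)) = mv c e q₀` (`endP_rev`, `endP_mv`), and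
`js₂ = rev Q' (rev P₂ js₂) = rev Q' (rev q₀ js) = rev Q (rev q₀ js) = js` (`rev_rev`, `rev_mv`).
If `js₁ = []` we are done: `js' = js₂ = js`. If `js₁ ≠ []`: the offset line `(As', v')` runs `js₁` with crossing times
`< t' ≤ n` (CTS (3) for `js'`, at the interior point `y' = As' + t' v'`), so by OFF the central line `(A, v')` runs
`js₁` with times `≤ 3 n / 2`, and VTX (1) gives `h sin σ ≤ |cx v' (P₂.V i₀ - A)|`. But `P₂.V i₀ = m A` (`V_mv`, `q₀.V i₀ = A`),
and `A = y - t v - s i v`, `m A = y' - t v' - s i v' = A + (t' - t) v' + (s' - s) i v'`, so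
`|cx v' (m A - A)| = |s' - s| ≤ h sin σ / 2 < h sin σ`. Contradiction. -/
def Sk_INJ : Prop := ∀ (S : TriSys) (r₀ : S.R) (i₀ : ZMod 3) (K : Cst S r₀ i₀) (n σ φ φ' : ℝ) (y y' : ℂ)
  (js js' : List (ZMod 3)), Gd K n σ φ → Gd K n σ φ' → Bs K n σ φ y js → Bs K n σ φ' y' js' →
  ∀ Q Q' : Pl S, Q = endP (Pl.home S r₀) js → Q' = endP (Pl.home S r₀) js' → Q.r = Q'.r →
    (y - Q.b) / Q.a = (y' - Q'.b) / Q'.a → ev φ / Q.a = ev φ' / Q'.a → js = js'

/-- EXI. Existence of the words. Proof: `s, t, As` as in PHP. OFF gives the hypothesis of FLO for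
`q = q₀`, `x = As`, `T₁ = - 2 D`, `T = n`. The word `[i₀]` is run by the offset line (OFF for `js = []` gives some
`[j]`; `j = i₀`, or use `[j]` itself) and its crossing time is `≤ D + D < n / 2 ≤ t` (`K.dia3` with the vertex
`A = V i₀`: `|c| = |dt v (As + c v - A)| ≤ D`). The times `t` and `t + n / 4` are not crossing times: if
`t = (endP q₀ js₁).ct As v j` with `Ex`, then `y = As + t v` is on the line of the edge `j` (`edge_fun`),
so `y ∈ ngl`; the same for `y + (n/4) v`. FLO at `t` and at `t + n / 4 ≤ n` gives words `js`, `js₃`; by EXU (6) one is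
an initial segment of the other; if `js = js₃ ++ j :: rest` then `(endP q₀ js₃).In (As + (t + n/4) v)` gives
`t + n/4 < ` the crossing time of `j` (TIM (2)), which is in `cts q₀ As v js`, so `< t`: impossible. So `js₃ = js ++ js'`.
Translate along the line (SCL). -/
def Sk_EXI : Prop := ∀ (S : TriSys) (r₀ : S.R) (i₀ : ZMod 3) (K : Cst S r₀ i₀) (n σ φ : ℝ) (y : ℂ),
  Gd K n σ φ → |cx (ev φ) (y - S.P r₀ i₀)| ≤ K.h * Real.sin σ / 4 →
  n / 2 ≤ dt (ev φ) (y - S.P r₀ i₀) → dt (ev φ) (y - S.P r₀ i₀) ≤ 3 * n / 4 →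
  y ∉ ngl S r₀ → y + (n / 4 : ℝ) * ev φ ∉ ngl S r₀ →
  ∃ js js', Bs K n σ φ y js ∧ Ws S r₀ n φ y js js'

/-- NUL. Proof: a countable union (words and indices are countable) of sets `{y | cx u (y - p) = 0}` with
`u ≠ 0` (ORI): each is an affine line, of measure zero (`MeasureTheory.Measure.addHaar_affineSubspace`, or: image
of a null set under an isometry). -/
def Sk_NUL : Prop := ∀ (S : TriSys) (r₀ : S.R), volume (ngl S r₀) = 0

/-- RCT. Area of a rotated rectangle. Proof: the map `z ↦ v z + A` preserves the measure of `ℂ` (`‖v‖ = 1`: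
`rotation` is a linear isometry equivalence, `LinearIsometryEquiv.measurePreserving`, and translations), and the
preimage of the set is `{z | |z.im| ≤ x, t₁ ≤ z.re, z.re ≤ t₂}`, the preimage of a box under
`Complex.measurableEquivRealProd` (`Complex.volume_preserving_equiv_real_prod`). -/
def Sk_RCT : Prop := ∀ (A v : ℂ) (x t₁ t₂ : ℝ), ‖v‖ = 1 → 0 ≤ x → t₁ ≤ t₂ →
  volume {y : ℂ | |cx v (y - A)| ≤ x ∧ t₁ ≤ dt v (y - A) ∧ dt v (y - A) ≤ t₂} =
    ENNReal.ofReal (2 * x * (t₂ - t₁))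

/-- COV. Proof: by EXI the set contains the rectangle of RCT without `ngl` and without the translate
`{y | y + (n/4) v ∈ ngl}`, which are null sets (NUL and translation invariance). -/
def Sk_COV : Prop := ∀ (S : TriSys) (r₀ : S.R) (i₀ : ZMod 3) (K : Cst S r₀ i₀) (n σ φ : ℝ), Gd K n σ φ →
  ENNReal.ofReal (2 * (K.h * Real.sin σ / 4) * (n / 4)) ≤
    volume {y : ℂ | ∃ js js', Bs K n σ φ y js ∧ Ws S r₀ n φ y js js'}

/-- OPN. Open sets. Proof: induction on `js`; all conditions are strict inequalities between continuous functions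
of `(φ, y)` (`ev` is continuous, `endP q js` does not depend on the point). -/
def Sk_OPN : Prop := ∀ (S : TriSys) (js : List (ZMod 3)) (q : Pl S),
  IsOpen {p : ℝ × ℂ | Run q p.2 (ev p.1) js} ∧
  (∀ c : ℝ, IsOpen {p : ℝ × ℂ | q.In (p.2 + c * ev p.1)}) ∧
  Continuous (fun p : ℝ × ℂ => clr q js p.2 (ev p.1)) ∧
  (∀ r, IsOpen (rm S r))

/-- MSB. Measurability. Proof: the conditions in `BB` other than `p.1 ∈ G` are open (OPN) or closed. -/
def Sk_MSB : Prop := ∀ (S : TriSys) (r₀ : S.R) (i₀ : ZMod 3) (K : Cst S r₀ i₀) (n σ : ℝ) (G : Set ℝ)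
  (js js' : List (ZMod 3)), MeasurableSet G → MeasurableSet (BB K n σ G js js')

/-- MSD. Measurability and bounds of the clearance. Proof: for `c ≥ 0` the set `{p | c < DD ..}` is the countable
union over `js` of the open sets `{PW S r x (ev ψ) N js} ∩ {c < clr (home r) js x (ev ψ)}` (OPN, UNI); for `c < 0` it is
everything, because `0 ≤ clr`; `measurable_of_Ioi`. Bound: if `PW` holds then `x` is in the room `home r`, and
`clr ≤ |cx v (V 0 - x)| ≤ ‖V 0 - x‖ ≤ D₀` (CLV, DIA). The rooms are bounded (DIA), hence of finite volume. -/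
def Sk_MSD : Prop := ∀ (S : TriSys), ∃ C : ℝ, 0 < C ∧
  (∀ (r : S.R) (N : ℝ), Measurable fun p : ℝ × ℂ => DD S r p.2 (ev p.1) N) ∧
  (∀ (r : S.R) (x : ℂ) (ψ N : ℝ), 0 ≤ DD S r x (ev ψ) N ∧ DD S r x (ev ψ) N ≤ C) ∧
  (∀ r : S.R, MeasurableSet (rm S r) ∧ volume (rm S r) < ⊤)

/-- GDM. Measure of the good directions. Proof. Let `G = [φ₀ - ρ/2, φ₀ + ρ/2]` without the union over
`js ∈ GG (2 n)` (a finite set, FIN) of the sets `B_js` of those `φ` in the arc for which there are `|s| ≤ σ`, `l > 0` with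
`apK js - A = l ev (φ + s)`. If `φ, φ' ∈ B_js` then `ev (φ + s) = ev (φ' + s')`, `|(φ + s) - (φ' + s')| ≤ 2 ρ ≤ 2 < 2 π`, so
`φ + s = φ' + s' =: θ` and `B_js` is contained in `[θ - σ, θ + σ]`. To have a measurable set remove these
closed intervals. The measure is at least `ρ - 2 σ #GG ≥ ρ / 2`. -/
def Sk_GDM : Prop := ∀ (S : TriSys) (r₀ : S.R) (i₀ : ZMod 3) (K : Cst S r₀ i₀) (n σ : ℝ), 0 < σ →
  100 * K.D ≤ n → 4 * σ * ((GG S r₀ i₀ (2 * n)).ncard + 1) ≤ K.ρ →
  ∃ G : Set ℝ, MeasurableSet G ∧ (∀ φ ∈ G, Gd K n σ φ) ∧ ENNReal.ofReal (K.ρ / 2) ≤ volume G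

/-- ABS. Abstract change of variables. Proof. Let `α i = arg (a i)`. The map
`T i (φ, y) = (φ - α i, (y - b i) / a i)` preserves the measure of `ℝ × ℂ` (product of a translation and a rigid
motion), `ev (φ - α i) = ev φ / a i`. For `k ∈ ℤ` let `B' i k = {(ψ, x) | 0 < ψ ≤ 2 π, (ψ + α i + 2 π k, a i x + b i) ∈ B i}`:
these sets are measurable and `∑ k, volume (B' i k) = volume (B i)` (the strips `Ioc (2 π k) (2 π (k + 1))` are a
partition of `ℝ`, `iUnion_Ioc_zsmul`). For fixed `r` the sets `B' i k` with `r i = r` are pairwise disjoint: a common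
point of `B' i k` and `B' j l` gives `i = j` by the last hypothesis, and then the two numbers
`ψ + α i + 2 π k`, `ψ + α i + 2 π l` both have distance `< π` from `φ₀`, so `k = l`. They are contained in
`E r = {(ψ, x) | 0 < ψ ≤ 2 π, x ∈ M r, w ≤ D r ψ x}` (measurable). So `∑' i, volume (B i) ≤ ∑ r, volume (E r)`, and
`w * (volume (E r)).toReal ≤ ∫ ψ, ∫ x in M r, D r ψ x` (Markov on the finite measure space `Ioc 0 (2 π) × M r`;
`D r` is bounded and measurable; `setIntegral_prod`, `mul_meas_ge_le_integral_of_nonneg`). -/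
def Sk_ABS : Prop := ∀ (R : Type) [Fintype R] (M : R → Set ℂ) (D : R → ℝ → ℂ → ℝ) (w C φ₀ : ℝ)
  (ι : Type) [Countable ι] (r : ι → R) (a b : ι → ℂ) (B : ι → Set (ℝ × ℂ)),
  (∀ k, MeasurableSet (M k)) → (∀ k, volume (M k) < ⊤) →
  (∀ k, Measurable fun p : ℝ × ℂ => D k p.1 p.2) → (∀ k ψ x, 0 ≤ D k ψ x ∧ D k ψ x ≤ C) → 0 ≤ w →
  (∀ i, ‖a i‖ = 1) → (∀ i, MeasurableSet (B i)) → (∀ i, ∀ p ∈ B i, |p.1 - φ₀| < Real.pi) →
  (∀ i, ∀ p ∈ B i, (p.2 - b i) / a i ∈ M (r i) ∧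
    ∀ ψ : ℝ, ev ψ = ev p.1 / a i → w ≤ D (r i) ψ ((p.2 - b i) / a i)) →
  (∀ i j, ∀ p ∈ B i, ∀ p' ∈ B j, r i = r j → (p.2 - b i) / a i = (p'.2 - b j) / a j →
    ev p.1 / a i = ev p'.1 / a j → i = j) →
  ENNReal.ofReal w * ∑' i, volume (B i) ≤
    ENNReal.ofReal (∑ k, ∫ ψ in (0 : ℝ)..(2 * Real.pi), ∫ x in M k, D k ψ x)

/-- SUM. Proof: `∑' volume (BB js js') ≥ volume (⋃ BB)` (`measure_iUnion_le`), and
the union is `{(φ, y) | φ ∈ G, y ∈ slice φ}` (measurable by MSB) whose slices have measure at least the constant of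
COV: `Measure.prod_apply` (`volume_eq_prod`), `setLIntegral_mono`/`lintegral_const`. -/
def Sk_SUM : Prop := ∀ (S : TriSys) (r₀ : S.R) (i₀ : ZMod 3) (K : Cst S r₀ i₀) (n σ : ℝ) (G : Set ℝ),
  MeasurableSet G → (∀ φ ∈ G, Gd K n σ φ) →
  volume G * ENNReal.ofReal (2 * (K.h * Real.sin σ / 4) * (n / 4)) ≤
    ∑' p : List (ZMod 3) × List (ZMod 3), volume (BB K n σ G p.1 p.2)

/-- LOW. The interface of block 5. Proof: take `K` from CST, `G₁ = #GG (2 n) + 1`, `σ = ρ / (4 G₁) ≤ ρ / 4`, `G` from GDM,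
`w = n / 4 * sin σ`. ABS with `ι` the pairs of words, `r, a, b` those of `endP q₀ js`, `B = BB`, `D k ψ x = DD S k x (ev ψ) (n/4)`,
`M = rm S`; hypotheses: MSD, MSB; `|φ - φ₀| ≤ ρ / 2 < π`; `rm` by MOV from `(endP q₀ js).In y`; PHP (for the clearance:
`ev ψ = ev φ / a`); INJ for `js` and then UNI (with the two `PW` of PHP) for `js'`. With SUM:
`w * (ρ / 2) * 2 * (h sin σ / 4) * (n / 4) ≤ Phi S (n / 4)`, i.e. `n² ρ h sin² σ / 64 ≤ Phi`, and `sin σ ≥ σ / 2`
(`σ ≤ 1`), `σ = ρ / (4 G₁)`: `c = ρ³ h / 4096`, `n₀ = 100 D`. -/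
def Sk_LOW : Prop := ∀ (S : TriSys) (r₀ : S.R) (i₀ : ZMod 3), ∃ c n₀ : ℝ, 0 < c ∧ ∀ n : ℝ, n₀ ≤ n →
  c * n ^ 2 ≤ (((GG S r₀ i₀ (2 * n)).ncard : ℝ) + 1) ^ 2 * Phi S (n / 4)

end Pool.Agent.FAN
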