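import Pool.Agent.FAN.Base2
import Pool.Agent.FAN.StK

/-!
# Scaling, translation along the line, elements of the lists (helper15)
-/

set_option autoImplicit false

open scoped ComplexConjugate

namespace Pool.Agent.FAN

noncomputable section

variable {S : TriSys}

theorem Ex_scale (q : Pl S) (x v : ℂ) (j : ZMod 3) (c : ℝ) (hc : 0 < c) :
    q.Ex x (c * v) j ↔ q.Ex x v j := by
  simp only [Pl.Ex, cx_real_left]
  constructor
  · rintro ⟨h1, h2⟩
    exact ⟨by by_contra h; nlinarith, by by_contra h; nlinarith⟩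
  · rintro ⟨h1, h2⟩
    exact ⟨mul_pos hc h1, mul_neg_of_pos_of_neg hc h2⟩

theorem Run_scale (js : List (ZMod 3)) (q : Pl S) (x v : ℂ) (c : ℝ) (hc : 0 < c) :
    Run q x (c * v) js ↔ Run q x v js := by
  induction js generalizing q with
  | nil => simp [Run]
  | cons j js ih => simp only [Run]; rw [Ex_scale q x v j c hc, ih]

theorem ct_scale (q : Pl S) (x v : ℂ) (j : ZMod 3) (c : ℝ) :
    q.ct x (c * v) j = q.ct x v j / c := by
  simp only [Pl.ct, cx_real_left]
  rw [div_div, mul_comm c]

theorem cts_scale (js : List (ZMod 3)) (q : Pl S) (x v : ℂ) (c : ℝ) :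
    cts q x (c * v) js = (cts q x v js).map fun t => t / c := by
  induction js generalizing q with
  | nil => simp [cts]
  | cons j js ih => simp only [cts, List.map_cons]; rw [ct_scale, ih]

theorem cx_shift (p x v : ℂ) (τ : ℝ) : cx v (p - (x + τ * v)) = cx v (p - x) := by
  rw [show p - (x + τ * v) = (p - x) - τ * v by ring, cx_sub_right, cx_real_right,
    cx_self, mul_zero, sub_zero]

theorem dt_shift (p x v : ℂ) (τ : ℝ) (hv : ‖v‖ = 1) :
    dt v (p - (x + τ * v)) = dt v (p - x) - τ := by
  have h : dt v v = 1 := by rw [dt_self, hv]; norm_num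
  simp only [dt, Complex.sub_re, Complex.sub_im, Complex.add_re,
    Complex.add_im, Complex.mul_re, Complex.mul_im, Complex.ofReal_re, Complex.ofReal_im] at h ⊢
  linear_combination (-τ) * h

theorem Ex_shift (q : Pl S) (x v : ℂ) (j : ZMod 3) (τ : ℝ) :
    q.Ex (x + τ * v) v j ↔ q.Ex x v j := by
  simp only [Pl.Ex, cx_shift]

theorem En_shift (q : Pl S) (x v : ℂ) (j : ZMod 3) (τ : ℝ) :
    q.En (x + τ * v) v j ↔ q.En x v j := by
  simp only [Pl.En, cx_shift]

theorem Run_shift (js : List (ZMod 3)) (q : Pl S) (x v : ℂ) (τ : ℝ) :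
    Run q (x + τ * v) v js ↔ Run q x v js := by
  induction js generalizing q with
  | nil => simp [Run]
  | cons j js ih => simp only [Run]; rw [Ex_shift, ih]

theorem ct_shift (q : Pl S) (x v : ℂ) (j : ZMod 3) (τ : ℝ)
    (h : cx v (q.V (j + 2) - q.V (j + 1)) ≠ 0) :
    q.ct (x + τ * v) v j = q.ct x v j - τ := by
  simp only [Pl.ct]
  rw [div_sub' h]
  congr 1
  simp only [cx, Complex.sub_re, Complex.sub_im, Complex.add_re,
    Complex.add_im, Complex.mul_re, Complex.mul_im, Complex.ofReal_re, Complex.ofReal_im]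
  ring

theorem cts_shift (js : List (ZMod 3)) (q : Pl S) (x v : ℂ) (τ : ℝ) (h : Run q x v js) :
    cts q (x + τ * v) v js = (cts q x v js).map fun t => t - τ := by
  induction js generalizing q with
  | nil => simp [cts]
  | cons j js ih =>
    simp only [cts, List.map_cons]
    rw [ct_shift q x v j τ (ne_of_gt h.1.pos), ih (q.nx j) h.2]

theorem h3_shift (q : Pl S) (x v : ℂ) (τ : ℝ) : q.h3 (x + τ * v) v = q.h3 x v := by
  simp only [Pl.h3, cx_shift]

theorem clr_shift (js : List (ZMod 3)) (q : Pl S) (x v : ℂ) (τ : ℝ) :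
    clr q js (x + τ * v) v = clr q js x v := by
  induction js generalizing q with
  | nil => simp only [clr, h3_shift]
  | cons j js ih => simp only [clr, h3_shift]; rw [ih]

theorem m_KSCL : Sk_SCL := fun _ js q x v =>
  ⟨fun c hc => Run_scale js q x v c hc, fun c _ => cts_scale js q x v c,
    fun τ => Run_shift js q x v τ, fun τ h => cts_shift js q x v τ h,
    fun τ => clr_shift js q x v τ⟩

theorem mem_cts (js : List (ZMod 3)) (q : Pl S) (x v : ℂ) (t : ℝ) :
    t ∈ cts q x v js ↔ ∃ js₁ j js₂, js = js₁ ++ j :: js₂ ∧ t = (endP q js₁).ct x v j := by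
  induction js generalizing q with
  | nil => simp [cts]
  | cons j js ih =>
    simp only [cts, List.mem_cons]
    rw [ih]
    constructor
    · rintro (h | ⟨js₁, j', js₂, h1, h2⟩)
      · exact ⟨[], j, js, rfl, h⟩
      · exact ⟨j :: js₁, j', js₂, by rw [h1]; rfl, h2⟩
    · rintro ⟨js₁, j', js₂, h1, h2⟩
      cases js₁ with
      | nil =>
        simp only [List.nil_append, List.cons.injEq] at h1
        left
        rw [h1.1]
        exact h2
      | cons a l =>
        simp only [List.cons_append, List.cons.injEq] at h1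
        right
        refine ⟨l, j', js₂, h1.2, ?_⟩
        rw [h2, h1.1]
        rfl

theorem mem_vl (js : List (ZMod 3)) (q : Pl S) (p : ℂ) :
    p ∈ vl q js ↔ ∃ js₁ js₂ k, js = js₁ ++ js₂ ∧ p = (endP q js₁).V k := by
  have hk : ∀ (q : Pl S), (p = q.V 0 ∨ p = q.V 1 ∨ p = q.V 2) ↔ ∃ k, p = q.V k := by
    intro q
    constructor
    · rintro (h | h | h)
      · exact ⟨0, h⟩
      · exact ⟨1, h⟩
      · exact ⟨2, h⟩
    · rintro ⟨k, h⟩
      have hi : ∀ k : ZMod 3, k = 0 ∨ k = 1 ∨ k = 2 := by decide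
      rcases hi k with rfl | rfl | rfl
      · exact Or.inl h
      · exact Or.inr (Or.inl h)
      · exact Or.inr (Or.inr h)
  induction js generalizing q with
  | nil =>
    simp only [vl, List.mem_cons, List.not_mem_nil, or_false]
    rw [hk q]
    constructor
    · rintro ⟨k, h⟩
      exact ⟨[], [], k, rfl, h⟩
    · rintro ⟨js₁, js₂, k, h1, h2⟩
      have := List.append_eq_nil_iff.1 h1.symm
      rw [this.1] at h2
      exact ⟨k, h2⟩
  | cons j js ih =>
    simp only [vl, List.mem_cons]
    have e : (p = q.V 0 ∨ p = q.V 1 ∨ p = q.V 2 ∨ p ∈ vl (q.nx j) js) ↔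
        ((∃ k, p = q.V k) ∨ ∃ js₁ js₂ k, js = js₁ ++ js₂ ∧ p = (endP (q.nx j) js₁).V k) := by
      refine Iff.trans ?_ (or_congr (hk q) (ih (q.nx j)))
      constructor
      · rintro (h | h | h | h)
        · exact Or.inl (Or.inl h)
        · exact Or.inl (Or.inr (Or.inl h))
        · exact Or.inl (Or.inr (Or.inr h))
        · exact Or.inr h
      · rintro ((h | h | h) | h)
        · exact Or.inl h
        · exact Or.inr (Or.inl h)
        · exact Or.inr (Or.inr (Or.inl h))
        · exact Or.inr (Or.inr (Or.inr h))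
    rw [e]
    constructor
    · rintro (⟨k, h⟩ | ⟨js₁, js₂, k, h1, h2⟩)
      · exact ⟨[], j :: js, k, rfl, h⟩
      · exact ⟨j :: js₁, js₂, k, by rw [h1]; rfl, h2⟩
    · rintro ⟨js₁, js₂, k, h1, h2⟩
      cases js₁ with
      | nil => exact Or.inl ⟨k, h2⟩
      | cons a l =>
        simp only [List.cons_append, List.cons.injEq] at h1
        right
        refine ⟨l, js₂, k, h1.2, ?_⟩
        rw [h2, h1.1]
        rfl

theorem m_KCTM : Sk_CTM := fun _ js q x v => ⟨fun t => mem_cts js q x v t, fun p => mem_vl js q p⟩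

/-! ## coordinates along a unit vector -/

theorem dec {v : ℂ} (hv : ‖v‖ = 1) (w : ℂ) :
    w = cx v w * (Complex.I * v) + dt v w * v := by
  have h : v.re * v.re + v.im * v.im = 1 := by
    have := dt_self v
    rw [hv] at this
    simpa [dt] using this
  apply Complex.ext
  · simp only [cx, dt, Complex.add_re, Complex.mul_re, Complex.mul_im, Complex.ofReal_re,
      Complex.ofReal_im, Complex.I_re, Complex.I_im]
    linear_combination (-w.re) * h
  · simp only [cx, dt, Complex.add_im, Complex.mul_re, Complex.mul_im, Complex.ofReal_re,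
      Complex.ofReal_im, Complex.I_re, Complex.I_im]
    linear_combination (-w.im) * h

theorem cx_sq_add_dt_sq {v : ℂ} (hv : ‖v‖ = 1) (w : ℂ) : cx v w ^ 2 + dt v w ^ 2 = ‖w‖ ^ 2 := by
  have h : v.re * v.re + v.im * v.im = 1 := by
    have := dt_self v
    rw [hv] at this
    simpa [dt] using this
  rw [← Complex.normSq_eq_norm_sq, Complex.normSq_apply]
  simp only [cx, dt]
  linear_combination (w.re * w.re + w.im * w.im) * h

theorem abs_cx_le {v : ℂ} (hv : ‖v‖ = 1) (w : ℂ) : |cx v w| ≤ ‖w‖ := by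
  have h := cx_sq_add_dt_sq hv w
  apply abs_le_of_sq_le_sq _ (norm_nonneg w)
  nlinarith [sq_nonneg (dt v w)]

theorem abs_dt_le {v : ℂ} (hv : ‖v‖ = 1) (w : ℂ) : |dt v w| ≤ ‖w‖ := by
  have h := cx_sq_add_dt_sq hv w
  apply abs_le_of_sq_le_sq _ (norm_nonneg w)
  nlinarith [sq_nonneg (cx v w)]

theorem dt_add_right (p q r : ℂ) : dt p (q + r) = dt p q + dt p r := by
  simp only [dt, Complex.add_re, Complex.add_im]; ring

theorem dt_sub_right (p q r : ℂ) : dt p (q - r) = dt p q - dt p r := by
  simp only [dt, Complex.sub_re, Complex.sub_im]; ring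

theorem dt_real_right (t : ℝ) (p q : ℂ) : dt p (t * q) = t * dt p q := by
  simp only [dt, Complex.mul_re, Complex.mul_im, Complex.ofReal_re, Complex.ofReal_im]; ring

theorem dt_I (v : ℂ) : dt v (Complex.I * v) = 0 := by
  simp only [dt, Complex.mul_re, Complex.mul_im, Complex.I_re, Complex.I_im]; ring

theorem dt_self1 {v : ℂ} (hv : ‖v‖ = 1) : dt v v = 1 := by
  rw [dt_self, hv]; norm_num

theorem cx_I1 {v : ℂ} (hv : ‖v‖ = 1) : cx v (Complex.I * v) = 1 := by
  rw [cx_I, hv]; norm_num

theorem cx_ev_add (φ s : ℝ) : cx (ev φ) (ev (φ + s)) = Real.sin s := by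
  simp only [cx, ev]
  rw [Real.cos_add, Real.sin_add]
  linear_combination (Real.sin s) * (Real.sin_sq_add_cos_sq φ)

theorem dt_ev_add (φ s : ℝ) : dt (ev φ) (ev (φ + s)) = Real.cos s := by
  simp only [dt, ev]
  rw [Real.cos_add, Real.sin_add]
  linear_combination (Real.cos s) * (Real.sin_sq_add_cos_sq φ)

theorem continuous_ev : Continuous ev := by
  have h : ev = fun ψ : ℝ => (Real.cos ψ : ℂ) + (Real.sin ψ : ℂ) * Complex.I := by
    funext ψ
    rw [ev_eq_exp, Complex.exp_mul_I, Complex.ofReal_cos, Complex.ofReal_sin]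
  rw [h]
  exact (Complex.continuous_ofReal.comp Real.continuous_cos).add
    ((Complex.continuous_ofReal.comp Real.continuous_sin).mul continuous_const)

theorem continuous_cx {X : Type*} [TopologicalSpace X] {f g : X → ℂ} (hf : Continuous f)
    (hg : Continuous g) : Continuous fun x => cx (f x) (g x) :=
  ((Complex.continuous_re.comp hf).mul (Complex.continuous_im.comp hg)).sub
    ((Complex.continuous_im.comp hf).mul (Complex.continuous_re.comp hg))

theorem continuous_dt {X : Type*} [TopologicalSpace X] {f g : X → ℂ} (hf : Continuous f)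
    (hg : Continuous g) : Continuous fun x => dt (f x) (g x) :=
  ((Complex.continuous_re.comp hf).mul (Complex.continuous_re.comp hg)).add
    ((Complex.continuous_im.comp hf).mul (Complex.continuous_im.comp hg))

end

end Pool.Agent.FAN
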