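import Mathlib

/-!
# Triangulated flat surfaces: definitions (helper17)

A finite set of positively oriented triangles in `ℂ` (rooms), glued along their edges by orientation
preserving motions. The edge `j` of a room is the edge opposite to the vertex `j`; it runs (counter
clockwise) from the vertex `j + 1` to the vertex `j + 2`. A line `x + τ v` that leaves a room through
the edge `j` has the vertex `j + 2` on its left and the vertex `j + 1` on its right.
-/

set_option autoImplicit false

open scoped ComplexConjugate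
open MeasureTheory Set

namespace Pool.Agent.FAN

/-- cross product, positive if `q` points to the left of `p` -/
noncomputable def cx (p q : ℂ) : ℝ := p.re * q.im - p.im * q.re

/-- scalar product -/
noncomputable def dt (p q : ℂ) : ℝ := p.re * q.re + p.im * q.im

/-- the unit vector of angle `ψ` -/
noncomputable def ev (ψ : ℝ) : ℂ := ⟨Real.cos ψ, Real.sin ψ⟩

/-- A triangulated flat surface. -/
structure TriSys where
  R : Type
  fR : Fintype R
  P : R → ZMod 3 → ℂ
  pos : ∀ r, 0 < cx (P r 1 - P r 0) (P r 2 - P r 0)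
  nb : R × ZMod 3 → R × ZMod 3
  nb_nb : ∀ d, nb (nb d) = d
  len : ∀ d, ‖P d.1 (d.2 + 2) - P d.1 (d.2 + 1)‖ =
    ‖P (nb d).1 ((nb d).2 + 2) - P (nb d).1 ((nb d).2 + 1)‖

attribute [instance] TriSys.fR

namespace TriSys

variable (S : TriSys)

theorem ne12 (d : S.R × ZMod 3) : S.P d.1 (d.2 + 2) - S.P d.1 (d.2 + 1) ≠ 0 := by
  obtain ⟨r, j⟩ := d
  have h := S.pos r
  intro h0
  simp only at h0
  have e : S.P r (j + 2) = S.P r (j + 1) := sub_eq_zero.1 h0
  fin_cases j
  · have e' : S.P r 2 = S.P r 1 := by
      have h3 : ((0 : ZMod 3) + 2) = 2 := by decide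
      have h4 : ((0 : ZMod 3) + 1) = 1 := by decide
      have e2 : S.P r ((0 : ZMod 3) + 2) = S.P r ((0 : ZMod 3) + 1) := e
      rwa [h3, h4] at e2
    rw [e'] at h
    simp only [cx] at h
    linarith
  · have e' : S.P r 0 = S.P r 2 := by
      have h3 : ((1 : ZMod 3) + 2) = 0 := by decide
      have h4 : ((1 : ZMod 3) + 1) = 2 := by decide
      have e2 : S.P r ((1 : ZMod 3) + 2) = S.P r ((1 : ZMod 3) + 1) := e
      rwa [h3, h4] at e2
    rw [e', sub_self] at h
    simp [cx] at h
  · have e' : S.P r 1 = S.P r 0 := by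
      have h3 : ((2 : ZMod 3) + 2) = 1 := by decide
      have h4 : ((2 : ZMod 3) + 1) = 0 := by decide
      have e2 : S.P r ((2 : ZMod 3) + 2) = S.P r ((2 : ZMod 3) + 1) := e
      rwa [h3, h4] at e2
    rw [e', sub_self] at h
    simp [cx] at h

/-- The gluing motion at the door `d` is `z ↦ gu z + gt`, from the coordinates of the neighbouring
room to those of the room `d.1`. -/
noncomputable def gu (d : S.R × ZMod 3) : ℂ :=
  (S.P d.1 (d.2 + 2) - S.P d.1 (d.2 + 1)) /
    (S.P (S.nb d).1 ((S.nb d).2 + 1) - S.P (S.nb d).1 ((S.nb d).2 + 2))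

noncomputable def gt (d : S.R × ZMod 3) : ℂ :=
  S.P d.1 (d.2 + 2) - S.gu d * S.P (S.nb d).1 ((S.nb d).2 + 1)

theorem norm_gu (d : S.R × ZMod 3) : ‖S.gu d‖ = 1 := by
  have h1 := S.ne12 d
  have h2 := S.len d
  rw [gu, norm_div, norm_sub_rev (S.P (S.nb d).1 ((S.nb d).2 + 1)), ← h2]
  exact div_self (norm_ne_zero_iff.2 h1)

end TriSys

/-- A placed room: the room `r` in the position `z ↦ a z + b`. -/
@[ext] structure Pl (S : TriSys) where
  r : S.R
  a : ℂ
  b : ℂ
  ha : ‖a‖ = 1

variable {S : TriSys}

namespace Pl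

/-- the room `r` in its own coordinates -/
def home (S : TriSys) (r : S.R) : Pl S := ⟨r, 1, 0, by simp⟩

/-- vertex `i` of the placed room -/
noncomputable def V (q : Pl S) (i : ZMod 3) : ℂ := q.a * S.P q.r i + q.b

/-- the placed room behind the edge `j` -/
noncomputable def nx (q : Pl S) (j : ZMod 3) : Pl S :=
  ⟨(S.nb (q.r, j)).1, q.a * S.gu (q.r, j), q.a * S.gt (q.r, j) + q.b, by
    rw [norm_mul, q.ha, S.norm_gu, one_mul]⟩

/-- the index, in the placed room behind the edge `j`, of the common edge -/
def en (q : Pl S) (j : ZMod 3) : ZMod 3 := (S.nb (q.r, j)).2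

/-- the point `y` lies in the interior of the placed room -/
def In (q : Pl S) (y : ℂ) : Prop := ∀ i, 0 < cx (q.V (i + 2) - q.V (i + 1)) (y - q.V (i + 1))

/-- the line `x + τ v` leaves the placed room through the edge `j` -/
def Ex (q : Pl S) (x v : ℂ) (j : ZMod 3) : Prop :=
  0 < cx v (q.V (j + 2) - x) ∧ cx v (q.V (j + 1) - x) < 0

/-- the parameter at which the line `x + τ v` meets the edge `j` -/
noncomputable def ct (q : Pl S) (x v : ℂ) (j : ZMod 3) : ℝ :=
  cx (q.V (j + 1) - x) (q.V (j + 2) - x) / cx v (q.V (j + 2) - q.V (j + 1))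

/-- smallest distance of the three vertices from the line (`v` a unit vector) -/
noncomputable def h3 (q : Pl S) (x v : ℂ) : ℝ :=
  min |cx v (q.V 0 - x)| (min |cx v (q.V 1 - x)| |cx v (q.V 2 - x)|)

end Pl

/-- the line runs through the edges `js` (exit indices), starting in the placed room `q` -/
def Run : Pl S → ℂ → ℂ → List (ZMod 3) → Prop
  | _, _, _, [] => True
  | q, x, v, j :: js => q.Ex x v j ∧ Run (q.nx j) x v js

/-- the last placed room -/
noncomputable def endP : Pl S → List (ZMod 3) → Pl S
  | q, [] => q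
  | q, j :: js => endP (q.nx j) js

/-- the index of the entering edge of the last placed room; `i` if no edge is crossed -/
noncomputable def eI : Pl S → ZMod 3 → List (ZMod 3) → ZMod 3
  | _, i, [] => i
  | q, _, j :: js => eI (q.nx j) (q.en j) js

/-- the word of the reversed line -/
noncomputable def rev : Pl S → List (ZMod 3) → List (ZMod 3)
  | _, [] => []
  | q, j :: js => rev (q.nx j) js ++ [q.en j]

/-- the list of all vertices of the visited rooms -/
noncomputable def vl : Pl S → List (ZMod 3) → List ℂ
  | q, [] => [q.V 0, q.V 1, q.V 2]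
  | q, j :: js => q.V 0 :: q.V 1 :: q.V 2 :: vl (q.nx j) js

/-- clearance: smallest distance of the vertices of the visited rooms from the line -/
noncomputable def clr : Pl S → List (ZMod 3) → ℂ → ℂ → ℝ
  | q, [], x, v => q.h3 x v
  | q, j :: js, x, v => min (q.h3 x v) (clr (q.nx j) js x v)

/-- average foot point (parameter on the line) of the vertices that realise the clearance -/
noncomputable def av (q : Pl S) (js : List (ZMod 3)) (x v : ℂ) : ℝ :=
  ((vl q js).map fun p => if |cx v (p - x)| = clr q js x v then dt v (p - x) else 0).sum /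
    ((vl q js).map fun p => if |cx v (p - x)| = clr q js x v then (1 : ℝ) else 0).sum

/-- `js` is the word of the segment from `x` (in the room `r`) to `x + N v` -/
def PW (S : TriSys) (r : S.R) (x v : ℂ) (N : ℝ) (js : List (ZMod 3)) : Prop :=
  (Pl.home S r).In x ∧ Run (Pl.home S r) x v js ∧ (endP (Pl.home S r) js).In (x + N * v)

open Classical in
/-- clearance of the segment from `x` to `x + N v`; `0` if it has no word -/
noncomputable def DD (S : TriSys) (r : S.R) (x v : ℂ) (N : ℝ) : ℝ :=
  if h : ∃ js, PW S r x v N js then clr (Pl.home S r) h.choose x v else 0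

open Classical in
/-- clearance times average foot -/
noncomputable def SS (S : TriSys) (r : S.R) (x v : ℂ) (N : ℝ) : ℝ :=
  if h : ∃ js, PW S r x v N js then
    clr (Pl.home S r) h.choose x v * av (Pl.home S r) h.choose x v else 0

/-- the interior of a room -/
def rm (S : TriSys) (r : S.R) : Set ℂ := {x | (Pl.home S r).In x}

/-- integral over the unit tangent bundle -/
noncomputable def EE (S : TriSys) (G : S.R → ℂ → ℝ → ℝ) : ℝ :=
  ∑ r, ∫ ψ in (0 : ℝ)..(2 * Real.pi), ∫ x in rm S r, G r x ψ

/-- expected clearance of a window of length `N` -/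
noncomputable def Phi (S : TriSys) (N : ℝ) : ℝ := EE S fun r x ψ => DD S r x (ev ψ) N

/-- Generalized diagonals of length at most `L` from the corner `i₀` of the room `r₀`: words that
start with `i₀` such that the line from the corner to the apex of the last room runs through them. -/
def GG (S : TriSys) (r₀ : S.R) (i₀ : ZMod 3) (L : ℝ) : Set (List (ZMod 3)) :=
  {js | (∃ js', js = i₀ :: js') ∧
    Run (Pl.home S r₀) (S.P r₀ i₀)
      ((endP (Pl.home S r₀) js).V (eI (Pl.home S r₀) i₀ js) - S.P r₀ i₀) js ∧
    ‖(endP (Pl.home S r₀) js).V (eI (Pl.home S r₀) i₀ js) - S.P r₀ i₀‖ ≤ L}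

end Pool.Agent.FAN
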