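import Pool.Agent.FAN.StF
import Pool.Agent.FAN.Base

/-!
# FAN, block 3, ARC (helper30)

The circle is the union of three arcs.
-/

set_option autoImplicit false

open scoped ComplexConjugate
open MeasureTheory Set

namespace Pool.Agent.FAN

private theorem arc_polar (w w' : ℂ) (ρ a : ℝ) (hρ : 0 < ρ) (hw : w = ρ * ev a) (h : 0 < cx w w') :
    ∃ γ ρ' : ℝ, 0 < γ ∧ γ < Real.pi ∧ 0 < ρ' ∧ w' = ρ' * ev (a + γ) := by
  have hw0 : w ≠ 0 := by
    intro h0
    rw [h0] at h
    simp [cx] at h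
  obtain ⟨z, hz⟩ : ∃ z : ℂ, w' = w * z := ⟨w' / w, by field_simp⟩
  have h2 : 0 < z.im := by
    have e2 : cx w w' = ‖w‖ ^ 2 * z.im := by
      rw [hz]
      have : cx w (w * z) = cx (w * 1) (w * z) := by rw [mul_one]
      rw [this, cx_mul]
      simp [cx]
    rw [e2] at h
    have h3 : 0 < ‖w‖ ^ 2 := by positivity
    exact (mul_pos_iff_of_pos_left h3).1 h
  have g0 : 0 < z.arg := by
    refine lt_of_le_of_ne (Complex.arg_nonneg_iff.2 h2.le) fun h0 => ?_
    have := (Complex.arg_eq_zero_iff.1 h0.symm).2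
    exact h2.ne' this
  have g1 : z.arg < Real.pi := Complex.arg_lt_pi_iff.2 (Or.inr h2.ne')
  have hz0 : 0 < ‖z‖ := norm_pos_iff.2 fun h0 => by rw [h0] at h2; simp at h2
  refine ⟨z.arg, ‖z‖ * ρ, g0, g1, mul_pos hz0 hρ, ?_⟩
  have e3 : z = ‖z‖ * ev z.arg := by
    rw [ev_eq_exp]
    exact (Complex.norm_mul_exp_arg_mul_I _).symm
  generalize z.arg = t at e3
  generalize ‖z‖ = n at e3
  rw [hz, e3, hw, ev_add]
  push_cast
  ring

private theorem arc_cx_ev (ψ φ ρ : ℝ) : cx (ev ψ) (ρ * ev φ) = ρ * Real.sin (φ - ψ) := by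
  rw [cx_real_right, Real.sin_sub]
  simp only [cx, ev]
  ring

private theorem arc_sum (F : ZMod 3 → ℝ) : ∑ j, F j = F 0 + F 1 + F 2 := by
  exact Fin.sum_univ_three F

theorem f_ARC : Sf_ARC := by
  intro S r x hx
  have hpi := Real.pi_pos
  -- positivity of the three sectors
  have hc : ∀ j : ZMod 3, 0 < cx ((Pl.home S r).V (j + 1) - x) ((Pl.home S r).V (j + 2) - x) := by
    intro j
    have h : 0 < cx ((Pl.home S r).V (j + 2) - (Pl.home S r).V (j + 1)) (x - (Pl.home S r).V (j + 1)) :=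
      hx j
    have e : cx ((Pl.home S r).V (j + 2) - (Pl.home S r).V (j + 1)) (x - (Pl.home S r).V (j + 1)) =
        cx ((Pl.home S r).V (j + 1) - x) ((Pl.home S r).V (j + 2) - x) := by
      simp only [cx, Complex.sub_re, Complex.sub_im]
      ring
    rwa [e] at h
  set W : ZMod 3 → ℂ := fun j => (Pl.home S r).V j - x with hW
  have c0 : 0 < cx (W 1) (W 2) := by
    have h := hc 0
    have z1 : (0 : ZMod 3) + 1 = 1 := by decide
    have z2 : (0 : ZMod 3) + 2 = 2 := by decide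
    rwa [z1, z2] at h
  have c1 : 0 < cx (W 2) (W 0) := by
    have h := hc 1
    have z1 : (1 : ZMod 3) + 1 = 2 := by decide
    have z2 : (1 : ZMod 3) + 2 = 0 := by decide
    rwa [z1, z2] at h
  have c2 : 0 < cx (W 0) (W 1) := by
    have h := hc 2
    have z1 : (2 : ZMod 3) + 1 = 0 := by decide
    have z2 : (2 : ZMod 3) + 2 = 1 := by decide
    rwa [z1, z2] at h
  have hW1 : W 1 ≠ 0 := by
    intro h0
    rw [h0] at c0
    simp [cx] at c0
  obtain ⟨a, ρ, hρ, hw1⟩ : ∃ a ρ : ℝ, 0 < ρ ∧ W 1 = ρ * ev a := by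
    refine ⟨(W 1).arg, ‖W 1‖, norm_pos_iff.2 hW1, ?_⟩
    rw [ev_eq_exp]
    exact (Complex.norm_mul_exp_arg_mul_I _).symm
  obtain ⟨g0, ρ0, hg0, hg0', hρ0, hw2⟩ := arc_polar (W 1) (W 2) ρ a hρ hw1 c0
  obtain ⟨g1, ρ1, hg1, hg1', hρ1, hw0⟩ := arc_polar (W 2) (W 0) ρ0 (a + g0) hρ0 hw2 c1
  obtain ⟨g2, ρ2, hg2, hg2', hρ2, hw3⟩ := arc_polar (W 0) (W 1) ρ1 (a + g0 + g1) hρ1 hw0 c2
  have hsum : a + g0 + g1 + g2 = a + 2 * Real.pi := by
    have n1 : ρ = ρ2 := by
      have h1 : ‖W 1‖ = ρ := by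
        rw [hw1, norm_mul, norm_ev, mul_one, Complex.norm_real, Real.norm_eq_abs, abs_of_pos hρ]
      have h2 : ‖W 1‖ = ρ2 := by
        rw [hw3, norm_mul, norm_ev, mul_one, Complex.norm_real, Real.norm_eq_abs, abs_of_pos hρ2]
      exact h1.symm.trans h2
    have n2 : ev (g0 + g1 + g2) = 1 := by
      have h1 : (ρ : ℂ) * ev a = ρ * ev (a + g0 + g1 + g2) := by
        rw [← hw1]
        conv_rhs => rw [n1]
        exact hw3
      have h2 : (ρ : ℂ) ≠ 0 := by exact_mod_cast hρ.ne'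
      have h3 : ev a = ev (a + g0 + g1 + g2) := mul_left_cancel₀ h2 h1
      have h4 : a + g0 + g1 + g2 = a + (g0 + g1 + g2) := by ring
      rw [h4, ev_add] at h3
      have h5 : ev a ≠ 0 := by
        intro h0
        have := norm_ev a
        rw [h0] at this
        simp at this
      have h6 : ev a * 1 = ev a * ev (g0 + g1 + g2) := by rw [mul_one]; exact h3
      exact (mul_left_cancel₀ h5 h6).symm
    have n3 : Real.cos (g0 + g1 + g2) = 1 := by
      have := congrArg Complex.re n2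
      simpa [ev] using this
    obtain ⟨n, hn⟩ := (Real.cos_eq_one_iff _).1 n3
    have n4 : (0 : ℝ) < n := by
      by_contra h
      push Not at h
      have : (n : ℝ) * (2 * Real.pi) ≤ 0 := mul_nonpos_of_nonpos_of_nonneg h (by positivity)
      linarith
    have n5 : (n : ℝ) < 2 := by
      by_contra h
      push Not at h
      have : (2 : ℝ) * (2 * Real.pi) ≤ n * (2 * Real.pi) := mul_le_mul_of_nonneg_right h (by positivity)
      linarith
    have n6 : n = 1 := by
      have h1 : (0 : ℤ) < n := by exact_mod_cast n4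
      have h2 : n < (2 : ℤ) := by exact_mod_cast n5
      omega
    rw [n6] at hn
    push_cast at hn
    linarith
  set α : ZMod 3 → ℝ := fun j => if j = 0 then a else if j = 1 then a + g0 else a + g0 + g1 with hα
  set β : ZMod 3 → ℝ := fun j => if j = 0 then a + g0 else if j = 1 then a + g0 + g1 else
    a + g0 + g1 + g2 with hβ
  have α0 : α 0 = a := by simp [hα]
  have α1 : α 1 = a + g0 := by
    have : (1 : ZMod 3) ≠ 0 := by decide
    simp [hα, this]
  have α2 : α 2 = a + g0 + g1 := by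
    have h1 : (2 : ZMod 3) ≠ 0 := by decide
    have h2 : (2 : ZMod 3) ≠ 1 := by decide
    simp [hα, h1, h2]
  have β0 : β 0 = a + g0 := by simp [hβ]
  have β1 : β 1 = a + g0 + g1 := by
    have : (1 : ZMod 3) ≠ 0 := by decide
    simp [hβ, this]
  have β2 : β 2 = a + g0 + g1 + g2 := by
    have h1 : (2 : ZMod 3) ≠ 0 := by decide
    have h2 : (2 : ZMod 3) ≠ 1 := by decide
    simp [hβ, h1, h2]
  have hcase : ∀ j : ZMod 3, j = 0 ∨ j = 1 ∨ j = 2 := by decide
  have hab : ∀ j, α j < β j ∧ β j < α j + Real.pi := by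
    intro j
    rcases hcase j with h | h | h <;> subst h
    · rw [α0, β0]; constructor <;> linarith
    · rw [α1, β1]; constructor <;> linarith
    · rw [α2, β2]; constructor <;> linarith
  have hpol : ∀ j : ZMod 3, ∃ σ τ : ℝ, 0 < σ ∧ 0 < τ ∧ (Pl.home S r).V (j + 1) - x = σ * ev (α j) ∧
      (Pl.home S r).V (j + 2) - x = τ * ev (β j) := by
    intro j
    rcases hcase j with h | h | h <;> subst h
    · refine ⟨ρ, ρ0, hρ, hρ0, ?_, ?_⟩
      · rw [α0, show (0 : ZMod 3) + 1 = 1 by decide]; exact hw1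
      · rw [β0, show (0 : ZMod 3) + 2 = 2 by decide]; exact hw2
    · refine ⟨ρ0, ρ1, hρ0, hρ1, ?_, ?_⟩
      · rw [α1, show (1 : ZMod 3) + 1 = 2 by decide]; exact hw2
      · rw [β1, show (1 : ZMod 3) + 2 = 0 by decide]; exact hw0
    · refine ⟨ρ1, ρ2, hρ1, hρ2, ?_, ?_⟩
      · rw [α2, show (2 : ZMod 3) + 1 = 0 by decide]; exact hw0
      · rw [β2, show (2 : ZMod 3) + 2 = 1 by decide]; exact hw3
  refine ⟨α, β, hab, ?_, ?_, ?_⟩
  · intro j ψ h1 h2
    obtain ⟨σ, τ, hσ, hτ, e1, e2⟩ := hpol j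
    have hj := hab j
    refine ⟨?_, ?_⟩
    · rw [e2, arc_cx_ev]
      exact mul_pos hτ (Real.sin_pos_of_pos_of_lt_pi (by linarith) (by linarith [hj.2]))
    · rw [e1, arc_cx_ev]
      exact mul_neg_of_pos_of_neg hσ (Real.sin_neg_of_neg_of_neg_pi_lt (by linarith) (by linarith [hj.2]))
  · intro j
    obtain ⟨σ, τ, hσ, hτ, e1, e2⟩ := hpol j
    refine ⟨?_, ?_⟩
    · rw [e1, arc_cx_ev, sub_self, Real.sin_zero, mul_zero]
    · rw [e2, arc_cx_ev, sub_self, Real.sin_zero, mul_zero]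
  · intro φ hφ hint
    have hper : Function.Periodic φ (2 * Real.pi) := hφ
    have i0 := hint 0
    have i1 := hint 1
    have i2 := hint 2
    rw [α0, β0] at i0
    rw [α1, β1] at i1
    rw [α2, β2] at i2
    have i01 : IntervalIntegrable φ volume a (a + g0 + g1) := i0.trans i1
    have i012 : IntervalIntegrable φ volume a (a + 2 * Real.pi) := by
      rw [← hsum]
      exact i01.trans i2
    have hT : (0 : ℝ) < 2 * Real.pi := by positivity
    refine ⟨fun b c => hper.intervalIntegrable hT.ne' i012 b c, ?_⟩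
    have e1 := hper.intervalIntegral_add_eq 0 a
    rw [zero_add] at e1
    rw [e1, ← hsum, arc_sum, α0, β0, α1, β1, α2, β2,
      intervalIntegral.integral_add_adjacent_intervals i0 i1,
      intervalIntegral.integral_add_adjacent_intervals i01 i2]

end Pool.Agent.FAN
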