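import Pool.Agent.FAN.StF

/-!
# FAN, block 3: `BB0`, the first room (helper97)
-/

set_option autoImplicit false

open scoped ComplexConjugate NNReal
open MeasureTheory Set

namespace Pool.Agent.FAN

private theorem bb0_lip (w : ℂ) (s t : ℝ) :
    |cx (ev s) w - cx (ev t) w| ≤ ‖w‖ * |s - t| := by
  have h1 : (cx (ev s) w - cx (ev t) w) ^ 2 ≤
      ((Real.cos s - Real.cos t) ^ 2 + (Real.sin s - Real.sin t) ^ 2) *
        (w.re * w.re + w.im * w.im) := by
    simp only [cx, ev]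
    nlinarith [sq_nonneg ((Real.cos s - Real.cos t) * w.re + (Real.sin s - Real.sin t) * w.im)]
  have h2 : (Real.cos s - Real.cos t) ^ 2 + (Real.sin s - Real.sin t) ^ 2 ≤ (s - t) ^ 2 := by
    have h3 := Real.one_sub_sq_div_two_le_cos (x := s - t)
    rw [Real.cos_sub] at h3
    nlinarith [Real.sin_sq_add_cos_sq s, Real.sin_sq_add_cos_sq t]
  have h4 : ‖w‖ ^ 2 = w.re * w.re + w.im * w.im := by
    rw [← Complex.normSq_eq_norm_sq, Complex.normSq_apply]
  have h5 : (cx (ev s) w - cx (ev t) w) ^ 2 ≤ (‖w‖ * |s - t|) ^ 2 := by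
    rw [mul_pow, sq_abs, h4]
    refine h1.trans ?_
    rw [mul_comm (w.re * w.re + w.im * w.im)]
    exact mul_le_mul_of_nonneg_right h2 (by nlinarith [mul_self_nonneg w.re, mul_self_nonneg w.im])
  exact abs_le_of_sq_le_sq h5 (by positivity)

private theorem bb0_bd (w : ℂ) (s : ℝ) : |cx (ev s) w| ≤ ‖w‖ := by
  have h4 : ‖w‖ ^ 2 = w.re * w.re + w.im * w.im := by
    rw [← Complex.normSq_eq_norm_sq, Complex.normSq_apply]
  refine abs_le_of_sq_le_sq ?_ (norm_nonneg _)
  rw [h4]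
  simp only [cx, ev]
  nlinarith [Real.sin_sq_add_cos_sq s,
    sq_nonneg (Real.cos s * w.re + Real.sin s * w.im)]

private theorem bb0_min {a b a' b' D : ℝ} (h1 : |a - a'| ≤ D) (h2 : |b - b'| ≤ D) :
    |min a b - min a' b'| ≤ D :=
  (abs_min_sub_min_le_max a b a' b').trans (max_le h1 h2)

/-- The first room. -/
theorem f_BB0 : Sf_BB0 := by
  intro S D₀ hD r x hx ψ
  obtain ⟨hD1, hD2, hD3, hD4⟩ := hD
  have hv : ∀ i, ‖(Pl.home S r).V i - x‖ ≤ D₀ := fun i => by
    rw [norm_sub_rev]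
    exact hD3 _ _ _ hx
  have hD0 : 0 ≤ D₀ := by linarith
  -- bounds of the clearance
  have he0 : ∀ s, 0 ≤ ee S r x [] s := fun s => by
    simp only [ee, clr, Pl.h3]
    exact le_min (abs_nonneg _) (le_min (abs_nonneg _) (abs_nonneg _))
  have he1 : ∀ s, ee S r x [] s ≤ D₀ := fun s => by
    simp only [ee, clr, Pl.h3]
    exact (min_le_left _ _).trans ((bb0_bd _ _).trans (hv 0))
  have hel : ∀ s t, |ee S r x [] s - ee S r x [] t| ≤ D₀ * |s - t| := fun s t => by
    simp only [ee, clr, Pl.h3]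
    have key : ∀ i, abs (abs (cx (ev s) ((Pl.home S r).V i - x)) -
        abs (cx (ev t) ((Pl.home S r).V i - x))) ≤ D₀ * abs (s - t) := fun i =>
      (abs_abs_sub_abs_le_abs_sub _ _).trans ((bb0_lip _ s t).trans
        (mul_le_mul_of_nonneg_right (hv i) (abs_nonneg _)))
    exact bb0_min (key 0) (bb0_min (key 1) (key 2))
  -- Lipschitz
  have hL : LipschitzWith (Real.toNNReal (D₀ ^ 2)) (fun s => ee S r x [] s ^ 2 / 2) := by
    refine LipschitzWith.of_dist_le_mul fun s t => ?_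
    rw [Real.coe_toNNReal _ (sq_nonneg _), Real.dist_eq, Real.dist_eq]
    have e1 : ee S r x [] s ^ 2 / 2 - ee S r x [] t ^ 2 / 2 =
        (ee S r x [] s - ee S r x [] t) * ((ee S r x [] s + ee S r x [] t) / 2) := by ring
    rw [e1, abs_mul]
    have e2 : |(ee S r x [] s + ee S r x [] t) / 2| ≤ D₀ := by
      rw [abs_of_nonneg (by have := he0 s; have := he0 t; positivity)]
      linarith [he1 s, he1 t]
    calc |ee S r x [] s - ee S r x [] t| * |(ee S r x [] s + ee S r x [] t) / 2|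
        ≤ (D₀ * |s - t|) * D₀ :=
          mul_le_mul (hel s t) e2 (abs_nonneg _) (by positivity)
      _ = D₀ ^ 2 * |s - t| := by ring
  have h := norm_deriv_le_of_lipschitz (x₀ := ψ) hL
  rw [Real.coe_toNNReal _ (sq_nonneg _), Real.norm_eq_abs] at h
  exact h

end Pool.Agent.FAN
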