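import Pool.Agent.FAN.StF

/-!
# FAN, block 3, module CRT: the derivative of a crossing time (helper5)
-/

set_option autoImplicit false

open scoped ComplexConjugate
open MeasureTheory Set

namespace Pool.Agent.FAN

private lemma crt_der (w : ℂ) (ψ : ℝ) :
    HasDerivAt (fun s : ℝ => cx (ev s) w) (-dt (ev ψ) w) ψ := by
  have h1 : HasDerivAt (fun s : ℝ => Real.cos s * w.im - Real.sin s * w.re)
      (-Real.sin ψ * w.im - Real.cos ψ * w.re) ψ :=
    ((Real.hasDerivAt_cos ψ).mul_const w.im).sub ((Real.hasDerivAt_sin ψ).mul_const w.re)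
  have h2 : -dt (ev ψ) w = -Real.sin ψ * w.im - Real.cos ψ * w.re := by
    simp only [dt, ev]
    ring
  rw [h2]
  exact h1

private lemma crt_dt (w : ℂ) (ψ : ℝ) : |dt (ev ψ) w| ≤ ‖w‖ := by
  have h1 : dt (ev ψ) w ^ 2 + cx (ev ψ) w ^ 2 = ‖w‖ ^ 2 := by
    have h2 : ‖w‖ ^ 2 = w.re ^ 2 + w.im ^ 2 := by
      rw [← Complex.normSq_eq_norm_sq, Complex.normSq_apply]
      ring
    have h3 := Real.sin_sq_add_cos_sq ψ
    rw [h2]
    simp only [dt, cx, ev]
    linear_combination (w.re ^ 2 + w.im ^ 2) * h3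
  have h4 : dt (ev ψ) w ^ 2 ≤ ‖w‖ ^ 2 := by nlinarith [sq_nonneg (cx (ev ψ) w)]
  exact abs_le_of_sq_le_sq h4 (norm_nonneg _)

/-- CRT. -/
theorem f_CRT : Sf_CRT := by
  intro L R x ψ f hL hR hf h1 h2
  have hD : cx (ev ψ) (R - L) = cx (ev ψ) (R - x) - cx (ev ψ) (L - x) := by
    simp only [cx, Complex.sub_re, Complex.sub_im]
    ring
  have hneg : cx (ev ψ) (R - L) < 0 := by rw [hD]; linarith
  have hne : cx (ev ψ) (R - L) ≠ 0 := ne_of_lt hneg
  have habs : 2 * f ≤ |cx (ev ψ) (R - L)| := by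
    rw [abs_of_neg hneg, hD]
    rw [abs_of_pos hL] at h1
    rw [abs_of_neg hR] at h2
    linarith
  have hpos : 0 < |cx (ev ψ) (R - L)| := abs_pos.2 hne
  set N : ℝ := cx (L - x) (R - x) with hN
  set D : ℝ := cx (ev ψ) (R - L) with hDd
  have hder : HasDerivAt (fun s : ℝ => N / cx (ev s) (R - L))
      ((0 * D - N * (-dt (ev ψ) (R - L))) / D ^ 2) ψ :=
    (hasDerivAt_const ψ N).div (crt_der (R - L) ψ) hne
  refine ⟨hder.differentiableAt, ?_⟩
  rw [hder.deriv]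
  have e1 : (0 * D - N * (-dt (ev ψ) (R - L))) / D ^ 2 = N * dt (ev ψ) (R - L) / D ^ 2 := by
    ring
  rw [e1, abs_div, abs_mul, abs_pow, abs_div]
  have h3 := crt_dt (R - L) ψ
  have h4 : 2 * (f * (|N| * |dt (ev ψ) (R - L)| / |D| ^ 2)) ≤
      |D| * (|N| * |dt (ev ψ) (R - L)| / |D| ^ 2) := by
    have h5 : 0 ≤ |N| * |dt (ev ψ) (R - L)| / |D| ^ 2 := by positivity
    nlinarith
  have h6 : |D| * (|N| * |dt (ev ψ) (R - L)| / |D| ^ 2) =
      |N| / |D| * |dt (ev ψ) (R - L)| := by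
    field_simp
  rw [h6] at h4
  refine h4.trans ?_
  exact mul_le_mul_of_nonneg_left h3 (by positivity)

end Pool.Agent.FAN
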