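import Pool.Agent.FAN.StF

set_option autoImplicit false

open MeasureTheory Set

namespace Pool.Agent.FAN

private theorem der_cx (w : ℂ) (ψ : ℝ) :
    HasDerivAt (fun s => cx (ev s) w) (-dt (ev ψ) w) ψ := by
  have h1 := (Real.hasDerivAt_cos ψ).mul_const w.im
  have h2 := (Real.hasDerivAt_sin ψ).mul_const w.re
  have h3 := h1.sub h2
  have e1 : (fun s => cx (ev s) w) = fun s => Real.cos s * w.im - Real.sin s * w.re := by
    funext s; simp [cx, ev]
  rw [e1]
  have e2 : -dt (ev ψ) w = -Real.sin ψ * w.im - Real.cos ψ * w.re := by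
    simp only [dt, ev]; ring
  rw [e2]
  exact h3

private theorem der_cx2 (w : ℂ) (ψ : ℝ) :
    HasDerivAt (fun s => cx (ev s) w ^ 2 / 2) (-(cx (ev ψ) w * dt (ev ψ) w)) ψ := by
  have h := ((der_cx w ψ).pow 2).div_const 2
  have e2 : -(cx (ev ψ) w * dt (ev ψ) w) =
      (2 : ℕ) * cx (ev ψ) w ^ (2 - 1) * -dt (ev ψ) w / 2 := by
    norm_num; ring
  rw [e2]
  exact h

private theorem der_one (f : ℝ → ℝ) (w : ℂ) (ψ : ℝ) (hf0 : ∀ s, 0 ≤ f s)
    (hle : ∀ s, f s ≤ |cx (ev s) w|) (he : |cx (ev ψ) w| = f ψ)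
    (hd : DifferentiableAt ℝ (fun s => f s ^ 2 / 2) ψ) :
    f ψ * dt (ev ψ) w ≤ |deriv (fun s => f s ^ 2 / 2) ψ| := by
  have hG := (der_cx2 w ψ).sub hd.hasDerivAt
  have hmin : IsLocalMin (fun s => cx (ev s) w ^ 2 / 2 - f s ^ 2 / 2) ψ := by
    refine Filter.Eventually.of_forall (fun s => ?_)
    have e1 : cx (ev ψ) w ^ 2 = f ψ ^ 2 := by rw [← he, sq_abs]
    have e2 : f s ^ 2 ≤ cx (ev s) w ^ 2 := by
      rw [← sq_abs (cx (ev s) w)]
      exact pow_le_pow_left₀ (hf0 s) (hle s) 2
    simp only [e1, sub_self]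
    linarith
  have h0 := hmin.hasDerivAt_eq_zero hG
  have h1 : deriv (fun s => f s ^ 2 / 2) ψ = -(cx (ev ψ) w * dt (ev ψ) w) := by linarith
  rw [h1, abs_neg, abs_mul, he]
  exact mul_le_mul_of_nonneg_left (le_abs_self _) (hf0 ψ)

private theorem der_sum (l : List ℂ) (c b : ℝ) (P : ℂ → Prop) [DecidablePred P] (g : ℂ → ℝ)
    (h : ∀ p ∈ l, P p → c * g p ≤ b) :
    c * (l.map fun p => if P p then g p else 0).sum ≤
      b * (l.map fun p => if P p then (1 : ℝ) else 0).sum := by
  induction l with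
  | nil => simp
  | cons a l ih =>
    have ih' := ih (fun p hp => h p (List.mem_cons_of_mem _ hp))
    have ha := h a List.mem_cons_self
    simp only [List.map_cons, List.sum_cons]
    by_cases hP : P a
    · have := ha hP
      simp only [hP, if_true]
      nlinarith
    · simp only [hP, if_false]
      nlinarith

private theorem der_pos (l : List ℂ) (P : ℂ → Prop) [DecidablePred P]
    (h : ∃ p ∈ l, P p) :
    0 < (l.map fun p => if P p then (1 : ℝ) else 0).sum := by
  induction l with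
  | nil => obtain ⟨p, hp, _⟩ := h; simp at hp
  | cons a l ih =>
    simp only [List.map_cons, List.sum_cons]
    have hn : 0 ≤ (l.map fun p => if P p then (1 : ℝ) else 0).sum := by
      apply List.sum_nonneg
      intro x hx
      obtain ⟨p, _, rfl⟩ := List.mem_map.1 hx
      split_ifs <;> norm_num
    by_cases hP : P a
    · simp only [hP, if_true]; linarith
    · simp only [hP, if_false, zero_add]
      apply ih
      obtain ⟨p, hp, hPp⟩ := h
      rcases List.mem_cons.1 hp with rfl | hp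
      · exact absurd hPp hP
      · exact ⟨p, hp, hPp⟩

theorem f_DER (h1 : Sa_CLV) : Sf_DER := by
  intro S r x js ψ hd
  set q := Pl.home S r with hq
  have hone : ∀ p ∈ vl q js, |cx (ev ψ) (p - x)| = clr q js x (ev ψ) →
      clr q js x (ev ψ) * dt (ev ψ) (p - x) ≤ bb S r x js ψ := by
    intro p hp he
    exact der_one (fun s => ee S r x js s) (p - x) ψ
      (fun s => (h1 S js q x (ev s)).2.2.1) (fun s => (h1 S js q x (ev s)).1 p hp) he hd
  have hsum := der_sum (vl q js) (clr q js x (ev ψ)) (bb S r x js ψ)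
    (fun p => |cx (ev ψ) (p - x)| = clr q js x (ev ψ)) (fun p => dt (ev ψ) (p - x)) hone
  have hpos := der_pos (vl q js) (fun p => |cx (ev ψ) (p - x)| = clr q js x (ev ψ))
    (by
      obtain ⟨p, hp, he⟩ := (h1 S js q x (ev ψ)).2.1
      exact ⟨p, hp, he.symm⟩)
  unfold av
  rw [← mul_div_assoc, div_le_iff₀]
  · convert hsum
  · convert hpos

end Pool.Agent.FAN
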