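import Pool.Agent.FAN.StM

/-!
# FAN, block 3: `FANF`, the fan inequality integrated over the angle (helper97)
-/

set_option autoImplicit false

open scoped ComplexConjugate
open MeasureTheory Set

namespace Pool.Agent.FAN

private theorem ffan_ev : Measurable ev := by
  have h : Continuous ev := by
    have e : ev = fun ψ => ((Real.cos ψ : ℝ) : ℂ) + ((Real.sin ψ : ℝ) : ℂ) * Complex.I := by
      funext ψ
      apply Complex.ext <;> simp [ev, -Complex.ofReal_cos, -Complex.ofReal_sin]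
    rw [e]
    fun_prop
  exact h.measurable

private theorem ffan_nev (ψ : ℝ) : ‖ev ψ‖ = 1 := by
  have h : ‖ev ψ‖ ^ 2 = 1 := by
    rw [← Complex.normSq_eq_norm_sq, Complex.normSq_apply]
    simp only [ev]
    nlinarith [Real.sin_sq_add_cos_sq ψ]
  nlinarith [norm_nonneg (ev ψ), sq_nonneg (‖ev ψ‖ - 1)]

private theorem ffan_meas (G : ℝ × ℝ → ℝ) (M : ℝ) (hM : 0 ≤ M) (hG : Measurable G) :
    Measurable (fun ψ => ∫ s in (0 : ℝ)..M, G (ψ, s)) := by
  have e : (fun ψ => ∫ s in (0 : ℝ)..M, G (ψ, s)) =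
      fun ψ => ∫ s, G (ψ, s) ∂(volume.restrict (Ioc 0 M)) := by
    funext ψ
    rw [intervalIntegral.integral_of_le hM]
  rw [e]
  exact (hG.stronglyMeasurable.integral_prod_right').measurable

private theorem ffan_int (G : ℝ × ℝ → ℝ) (M B : ℝ) (hM : 0 ≤ M) (hG : Measurable G)
    (hB : ∀ ψ s, 0 ≤ s → s ≤ M → |G (ψ, s)| ≤ B) (a b : ℝ) :
    IntervalIntegrable (fun ψ => ∫ s in (0 : ℝ)..M, G (ψ, s)) volume a b := by
  refine (intervalIntegrable_const (c := B * |M - 0|)).mono_fun'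
    (ffan_meas G M hM hG).aestronglyMeasurable (Filter.Eventually.of_forall fun ψ => ?_)
  refine intervalIntegral.norm_integral_le_of_norm_le_const fun s hs => ?_
  rw [uIoc_of_le hM] at hs
  exact hB ψ s hs.1.le hs.2

private theorem ffan_int1 (G : ℝ → ℝ) (M B : ℝ) (hG : Measurable G)
    (hB : ∀ s, 0 ≤ s → s ≤ M → |G s| ≤ B) {a b : ℝ} (ha : 0 ≤ a) (hab : a ≤ b) (hb : b ≤ M) :
    IntervalIntegrable G volume a b := by
  refine (intervalIntegrable_const (c := B)).mono_fun' hG.aestronglyMeasurable ?_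
  rw [uIoc_of_le hab]
  refine (ae_restrict_iff' measurableSet_Ioc).2 (Filter.Eventually.of_forall fun s hs => ?_)
  exact hB s (ha.trans hs.1.le) (hs.2.trans hb)

private theorem ffan_sum {a b : ℝ} (f : ℕ → ℝ → ℝ)
    (h : ∀ n, IntervalIntegrable (f n) volume a b) (K : ℕ) :
    IntervalIntegrable (fun ψ => ∑ n ∈ Finset.range K, f n ψ) volume a b := by
  induction K with
  | zero => simp
  | succ K ih =>
    simp only [Finset.sum_range_succ]
    exact ih.add (h K)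

/-- The fan inequality, integrated over the angle. -/
theorem f_FANF (h1 : Sa_DIA) (h2 : Sf_LIP) (h3 : Sf_NODE) (h4 : Sf_NHC) (h6 : Sf_TMB)
    (h7 : Sf_FSUM) (h8 : Sf_FNI) (h9 : Sf_BB0) (h10 : Sf_PTW) (h11 : Sf_PTL) (h12 : Sm_MEA)
    (h13 : Sm_BND) : Sf_FANF := by
  intro S
  obtain ⟨D₀, h₀, hD1, -, hDa, hDb, hDc, -⟩ := h1 S
  have hD : Dia S D₀ := ⟨hD1, hDa, hDb, hDc⟩
  obtain ⟨CT, hCT1, hCT⟩ := h6 S
  obtain ⟨C₁, hC₁, hP⟩ := h10 S D₀ hD
  have hpi := Real.pi_pos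
  have hD0 : 0 ≤ D₀ := by linarith
  have hCr : 0 ≤ 2 * Real.pi * (C₁ + D₀ ^ 2) := by positivity
  refine ⟨D₀ + C₁ + 2 * Real.pi * (C₁ + D₀ ^ 2), by linarith, ?_⟩
  intro r x hx M hM
  generalize hC : D₀ + C₁ + 2 * Real.pi * (C₁ + D₀ ^ 2) = C
  have hCD : D₀ ≤ C := by linarith
  have hCC : C₁ ≤ C := by linarith
  -- measurability and bounds
  have hmap : Measurable (fun p : ℝ × ℝ => ((x, ev p.1, p.2) : ℂ × ℂ × ℝ)) :=
    measurable_const.prodMk ((ffan_ev.comp measurable_fst).prodMk measurable_snd)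
  have mDD : Measurable (fun p : ℝ × ℝ => DD S r x (ev p.1) p.2) := (h12 S r).1.comp hmap
  have mSS : Measurable (fun p : ℝ × ℝ => SS S r x (ev p.1) p.2) := (h12 S r).2.comp hmap
  have bDD0 : ∀ ψ s, 0 ≤ s → 0 ≤ DD S r x (ev ψ) s := fun ψ s hs =>
    (h13 S D₀ hD r x (ev ψ) s (ffan_nev ψ) hs).1
  have bDD1 : ∀ ψ s, 0 ≤ s → DD S r x (ev ψ) s ≤ D₀ := fun ψ s hs =>
    (h13 S D₀ hD r x (ev ψ) s (ffan_nev ψ) hs).2.1
  have bSS : ∀ ψ s, 0 ≤ s → |SS S r x (ev ψ) s| ≤ D₀ * (s + D₀) := fun ψ s hs =>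
    (h13 S D₀ hD r x (ev ψ) s (ffan_nev ψ) hs).2.2.1
  have bDDa : ∀ ψ s, 0 ≤ s → |DD S r x (ev ψ) s| ≤ D₀ := fun ψ s hs => by
    rw [abs_of_nonneg (bDD0 ψ s hs)]
    exact bDD1 ψ s hs
  -- good directions
  have g1 : ∀ᵐ ψ : ℝ, NH S r x (ev ψ) := by
    have h := (h4 S r x hx).ae_notMem (volume : Measure ℝ)
    filter_upwards [h] with ψ hψ
    by_contra hn
    exact hψ hn
  have g2 : ∀ᵐ ψ : ℝ, ∀ js : List (ZMod 3),
      DifferentiableAt ℝ (fun s => ee S r x js s ^ 2 / 2) ψ := by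
    rw [ae_all_iff]
    intro js
    obtain ⟨K, hK⟩ := (h2 S (Pl.home S r) js).1 x
    filter_upwards [hK.ae_differentiableAt (μ := (volume : Measure ℝ))] with ψ hψ
    have hψ' : DifferentiableAt ℝ (fun s => ee S r x js s) ψ := hψ
    exact (hψ'.pow 2).div_const 2
  -- the number of steps
  obtain ⟨K, hK⟩ : ∃ K : ℕ, ∀ ψ, NH S r x (ev ψ) → M ≤ tm S r x (ev ψ) (wd S r x (ev ψ) K) := by
    refine ⟨⌈CT * (1 + M)⌉₊, fun ψ hψ => ?_⟩
    have e1 := hCT r x (ev ψ) ⌈CT * (1 + M)⌉₊ hx (ffan_nev ψ) hψ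
    have e2 : CT * (1 + M) ≤ (⌈CT * (1 + M)⌉₊ : ℝ) := Nat.le_ceil _
    have e3 : CT * (1 + M) ≤ CT * (1 + tm S r x (ev ψ) (wd S r x (ev ψ) ⌈CT * (1 + M)⌉₊)) :=
      e2.trans e1
    have e4 := le_of_mul_le_mul_left e3 (by linarith)
    linarith
  -- summation over the words
  have hS : ∀ n : ℕ,
      IntervalIntegrable (fun ψ => LL S r x M (wd S r x (ev ψ) (n + 1)) ψ) volume 0 (2 * Real.pi) ∧
      IntervalIntegrable (fun ψ => RR S r x D₀ M (wd S r x (ev ψ) (n + 1)) ψ) volume 0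
        (2 * Real.pi) ∧
      ∫ ψ in (0 : ℝ)..(2 * Real.pi), LL S r x M (wd S r x (ev ψ) (n + 1)) ψ ≤
        ∫ ψ in (0 : ℝ)..(2 * Real.pi), RR S r x D₀ M (wd S r x (ev ψ) (n + 1)) ψ := by
    intro n
    refine h7 S r x hx n (LL S r x M) (RR S r x D₀ M)
      (fun js => (h8 S D₀ hD r x hx js M hM).1) (fun js => (h8 S D₀ hD r x hx js M hM).2.1) ?_
    intro js j α β _ hαβ hβ hrun hα0 hβ0
    obtain ⟨i1, i2⟩ := (h8 S D₀ hD r x hx js M hM).2.2.2 j α β hαβ hrun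
    exact ⟨i1, i2, h3 S D₀ hD r x hx js j α β M hM hαβ hβ hrun hα0 hβ0⟩
  -- left side
  have hSint : IntervalIntegrable (fun ψ => ∫ N in (0 : ℝ)..M, SS S r x (ev ψ) N) volume 0
      (2 * Real.pi) :=
    ffan_int (fun p => SS S r x (ev p.1) p.2) M (D₀ * (M + D₀)) hM mSS
      (fun ψ s hs0 hsM => (bSS ψ s hs0).trans (mul_le_mul_of_nonneg_left (by linarith) hD0)) _ _
  have hLint : IntervalIntegrable
      (fun ψ => ∑ n ∈ Finset.range K, LL S r x M (wd S r x (ev ψ) (n + 1)) ψ) volume 0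
      (2 * Real.pi) :=
    ffan_sum (fun n ψ => LL S r x M (wd S r x (ev ψ) (n + 1)) ψ) (fun n => (hS n).1) K
  have hRint : IntervalIntegrable
      (fun ψ => ∑ n ∈ Finset.range K, RR S r x D₀ M (wd S r x (ev ψ) (n + 1)) ψ) volume 0
      (2 * Real.pi) :=
    ffan_sum (fun n ψ => RR S r x D₀ M (wd S r x (ev ψ) (n + 1)) ψ) (fun n => (hS n).2.1) K
  have s1 : ∫ ψ in (0 : ℝ)..(2 * Real.pi), (∫ N in (0 : ℝ)..M, SS S r x (ev ψ) N) ≤
      ∫ ψ in (0 : ℝ)..(2 * Real.pi), (M * D₀ ^ 2 +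
        ∑ n ∈ Finset.range K, LL S r x M (wd S r x (ev ψ) (n + 1)) ψ) := by
    refine intervalIntegral.integral_mono_ae (by positivity) hSint
      ((intervalIntegrable_const).add hLint) ?_
    filter_upwards [g1, g2] with ψ hψ1 hψ2
    have e1 := h11 S r x ψ M K hx hψ1 hM (hK ψ hψ1) (fun n => hψ2 _)
    have e2 := mul_le_mul_of_nonneg_left (h9 S D₀ hD r x hx ψ) hM
    linarith
  have s2 : ∫ ψ in (0 : ℝ)..(2 * Real.pi), (M * D₀ ^ 2 +
        ∑ n ∈ Finset.range K, LL S r x M (wd S r x (ev ψ) (n + 1)) ψ) =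
      2 * Real.pi * (M * D₀ ^ 2) + ∑ n ∈ Finset.range K,
        ∫ ψ in (0 : ℝ)..(2 * Real.pi), LL S r x M (wd S r x (ev ψ) (n + 1)) ψ := by
    rw [intervalIntegral.integral_add intervalIntegrable_const hLint,
      intervalIntegral.integral_const, intervalIntegral.integral_finset_sum (fun n _ => (hS n).1)]
    simp
  have s3 : ∑ n ∈ Finset.range K,
        ∫ ψ in (0 : ℝ)..(2 * Real.pi), LL S r x M (wd S r x (ev ψ) (n + 1)) ψ ≤
      ∫ ψ in (0 : ℝ)..(2 * Real.pi),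
        ∑ n ∈ Finset.range K, RR S r x D₀ M (wd S r x (ev ψ) (n + 1)) ψ := by
    rw [intervalIntegral.integral_finset_sum (fun n _ => (hS n).2.1)]
    exact Finset.sum_le_sum fun n _ => (hS n).2.2
  -- right side
  have hAint : IntervalIntegrable
      (fun ψ => ∫ s in (0 : ℝ)..M, (M - 2 * s) * DD S r x (ev ψ) s) volume 0 (2 * Real.pi) := by
    refine ffan_int (fun p => (M - 2 * p.2) * DD S r x (ev p.1) p.2) M (M * D₀) hM
      ((by fun_prop : Measurable (fun p : ℝ × ℝ => M - 2 * p.2)).mul mDD) (fun ψ s hs0 hsM => ?_) _ _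
    simp only
    rw [abs_mul]
    exact mul_le_mul (abs_le.2 ⟨by linarith, by linarith⟩) (bDDa ψ s hs0) (abs_nonneg _) hM
  have hMC : 0 ≤ M + C := by linarith
  have hBint : IntervalIntegrable
      (fun ψ => ∫ s in (0 : ℝ)..(M + C), DD S r x (ev ψ) s) volume 0 (2 * Real.pi) :=
    ffan_int (fun p => DD S r x (ev p.1) p.2) (M + C) D₀ hMC mDD
      (fun ψ s hs0 _ => bDDa ψ s hs0) _ _
  have hABint : IntervalIntegrable
      (fun ψ => (∫ s in (0 : ℝ)..M, (M - 2 * s) * DD S r x (ev ψ) s) +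
        C * (∫ s in (0 : ℝ)..(M + C), DD S r x (ev ψ) s)) volume 0 (2 * Real.pi) :=
    hAint.add (hBint.const_mul C)
  have s4 : ∫ ψ in (0 : ℝ)..(2 * Real.pi),
        ∑ n ∈ Finset.range K, RR S r x D₀ M (wd S r x (ev ψ) (n + 1)) ψ ≤
      ∫ ψ in (0 : ℝ)..(2 * Real.pi), (((∫ s in (0 : ℝ)..M, (M - 2 * s) * DD S r x (ev ψ) s) +
        C * (∫ s in (0 : ℝ)..(M + C), DD S r x (ev ψ) s)) + C₁ * (M + 1)) := by
    refine intervalIntegral.integral_mono_ae (by positivity) hRint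
      (hABint.add intervalIntegrable_const) ?_
    filter_upwards [g1] with ψ hψ1
    have e1 := hP r x ψ M K hx hψ1 hM
    have mD : Measurable (fun s => DD S r x (ev ψ) s) :=
      mDD.comp (measurable_const.prodMk measurable_id : Measurable fun s : ℝ => (ψ, s))
    have e2 : ∫ s in (0 : ℝ)..(M + D₀), DD S r x (ev ψ) s ≤
        ∫ s in (0 : ℝ)..(M + C), DD S r x (ev ψ) s := by
      have i1 := ffan_int1 (fun s => DD S r x (ev ψ) s) (M + C) D₀ mD
        (fun s hs _ => bDDa ψ s hs) (a := 0) (b := M + D₀) le_rfl (by linarith) (by linarith)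
      have i2 := ffan_int1 (fun s => DD S r x (ev ψ) s) (M + C) D₀ mD
        (fun s hs _ => bDDa ψ s hs) (a := M + D₀) (b := M + C) (by linarith) (by linarith) le_rfl
      rw [← intervalIntegral.integral_add_adjacent_intervals i1 i2]
      have : 0 ≤ ∫ s in (M + D₀)..(M + C), DD S r x (ev ψ) s :=
        intervalIntegral.integral_nonneg (by linarith) fun s hs => bDD0 ψ s (by linarith [hs.1])
      linarith
    have e3 : 0 ≤ ∫ s in (0 : ℝ)..(M + D₀), DD S r x (ev ψ) s :=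
      intervalIntegral.integral_nonneg (by linarith) fun s hs => bDD0 ψ s hs.1
    have e4 : C₁ * ∫ s in (0 : ℝ)..(M + D₀), DD S r x (ev ψ) s ≤
        C * ∫ s in (0 : ℝ)..(M + C), DD S r x (ev ψ) s :=
      mul_le_mul hCC e2 e3 (by linarith)
    linarith
  have s5 : ∫ ψ in (0 : ℝ)..(2 * Real.pi), (((∫ s in (0 : ℝ)..M, (M - 2 * s) * DD S r x (ev ψ) s) +
        C * (∫ s in (0 : ℝ)..(M + C), DD S r x (ev ψ) s)) + C₁ * (M + 1)) =
      (∫ ψ in (0 : ℝ)..(2 * Real.pi), ((∫ s in (0 : ℝ)..M, (M - 2 * s) * DD S r x (ev ψ) s) +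
        C * (∫ s in (0 : ℝ)..(M + C), DD S r x (ev ψ) s))) + 2 * Real.pi * (C₁ * (M + 1)) := by
    rw [intervalIntegral.integral_add hABint intervalIntegrable_const,
      intervalIntegral.integral_const]
    simp
  have s6 : 2 * Real.pi * (M * D₀ ^ 2) + 2 * Real.pi * (C₁ * (M + 1)) ≤ C * (M + 1) := by
    have e1 : 2 * Real.pi * (C₁ + D₀ ^ 2) ≤ C := by linarith
    have e2 := mul_le_mul_of_nonneg_right e1 (by linarith : (0 : ℝ) ≤ M + 1)
    have e3 : 0 ≤ 2 * Real.pi * D₀ ^ 2 := by positivity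
    nlinarith
  linarith [s1, s2.le, s3, s4, s5.le, s6]

end Pool.Agent.FAN
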