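import Pool.Agent.FAN.StF

/-!
# FAN, FAR: geometry of a node (helper76)
-/

set_option autoImplicit false

open scoped ComplexConjugate
open MeasureTheory Set

namespace Pool.Agent.FAN

private theorem far_norm_ev (ψ : ℝ) : ‖ev ψ‖ = 1 := by
  have h : ‖ev ψ‖ ^ 2 = 1 := by
    rw [← Complex.normSq_eq_norm_sq, Complex.normSq_apply]
    simp only [ev]
    have := Real.cos_sq_add_sin_sq ψ
    nlinarith
  have h0 : 0 ≤ ‖ev ψ‖ := norm_nonneg _
  nlinarith

private theorem far_dt_le (v w : ℂ) (hv : ‖v‖ = 1) : |dt v w| ≤ ‖w‖ := by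
  have h1 : dt v w = ((starRingEnd ℂ) v * w).re := by
    simp [dt, Complex.mul_re]
  rw [h1]
  refine (Complex.abs_re_le_norm _).trans ?_
  rw [norm_mul, Complex.norm_conj, hv, one_mul]

private theorem far_dt_self (v : ℂ) (hv : ‖v‖ = 1) (t : ℝ) : dt v (t * v) = t := by
  have h : v.re * v.re + v.im * v.im = 1 := by
    rw [← Complex.normSq_apply, Complex.normSq_eq_norm_sq, hv]
    norm_num
  simp only [dt, Complex.mul_re, Complex.mul_im, Complex.ofReal_re, Complex.ofReal_im]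
  linear_combination t * h

theorem f_FAR (h1 : Sa_EXU) (h2 : Sa_TIM) (h3 : Sa_CTS) (h4 : Sa_ENT) (h5 : Sa_CLS) : Sf_FAR := by
  intro S D₀ hD r x hx js j ψ hR
  have hne : js ++ [j] ≠ [] := by simp
  set Q : Pl S := endP (Pl.home S r) (js ++ [j]) with hQ
  set i : ZMod 3 := eI (Pl.home S r) 0 (js ++ [j]) with hi
  have htm : ∀ v : ℂ, tm S r x v (js ++ [j]) = Q.ct x v i := by
    intro v
    simp only [tm, hne, if_false]
    rfl
  have hapx : apx S r (js ++ [j]) = Q.V i := rfl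
  -- facts for any direction that runs through the word
  have key : ∀ φ : ℝ, Run (Pl.home S r) x (ev φ) (js ++ [j]) →
      Q.En x (ev φ) i ∧ 0 < Q.ct x (ev φ) i ∧
      ‖(x + Q.ct x (ev φ) i * ev φ) - x‖ = Q.ct x (ev φ) i := by
    intro φ hφ
    obtain ⟨e1, -, e3, -⟩ := h4 S (js ++ [j]) (Pl.home S r) x (ev φ) 0 hne hφ
    have e5 : 0 < Q.ct x (ev φ) i :=
      (h3 S).2.2.2 (js ++ [j]) (Pl.home S r) x (ev φ) hx hφ _ e3
    refine ⟨e1, e5, ?_⟩
    rw [add_sub_cancel_left, norm_mul, far_norm_ev, mul_one, Complex.norm_real, Real.norm_eq_abs,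
      abs_of_pos e5]
  obtain ⟨hEn, ht, hn⟩ := key ψ hR
  have hDk : ∀ k : ZMod 3, ‖x + Q.ct x (ev ψ) i * ev ψ - Q.V k‖ ≤ D₀ :=
    fun k => hD.2.2.2 Q x (ev ψ) k i (Or.inr hEn)
  refine ⟨?_, ?_, ?_, ?_, ?_, ?_, ?_⟩
  · rw [htm]; exact ht
  · rw [htm, hapx]
    have h := abs_norm_sub_norm_le (Q.V i - x) ((x + Q.ct x (ev ψ) i * ev ψ) - x)
    rw [hn] at h
    refine h.trans ?_
    have e : Q.V i - x - (x + Q.ct x (ev ψ) i * ev ψ - x)
        = -(x + Q.ct x (ev ψ) i * ev ψ - Q.V i) := by ring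
    rw [e, norm_neg]
    exact hDk i
  · rw [htm, hapx]
    have e : dt (ev ψ) (Q.V i - x) = Q.ct x (ev ψ) i
        - dt (ev ψ) (x + Q.ct x (ev ψ) i * ev ψ - Q.V i) := by
      have e1 := far_dt_self (ev ψ) (far_norm_ev ψ) (Q.ct x (ev ψ) i)
      simp only [dt, Complex.sub_re, Complex.sub_im, Complex.add_re, Complex.add_im] at e1 ⊢
      linear_combination e1
    have h := (abs_le.1 (far_dt_le (ev ψ) (x + Q.ct x (ev ψ) i * ev ψ - Q.V i)
      (far_norm_ev ψ))).2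
    have h' := hDk i
    rw [e]
    linarith
  · intro hF
    rw [htm]
    have hL : 4 * D₀ < ‖Q.V (i + 1) - x‖ := hF.1
    have h := norm_sub_le_norm_sub_add_norm_sub (Q.V (i + 1)) (x + Q.ct x (ev ψ) i * ev ψ) x
    have h' := hDk (i + 1)
    rw [hn, norm_sub_rev (Q.V (i + 1)) (x + Q.ct x (ev ψ) i * ev ψ)] at h
    linarith
  · intro hF
    rw [htm]
    have hF' : ‖Q.V (i + 1) - x‖ ≤ 4 * D₀ ∨ ‖Q.V (i + 2) - x‖ ≤ 4 * D₀ := by
      by_contra hc
      push Not at hc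
      exact hF ⟨hc.1, hc.2⟩
    rcases hF' with hL | hL
    · have h := norm_sub_le_norm_sub_add_norm_sub (x + Q.ct x (ev ψ) i * ev ψ) (Q.V (i + 1)) x
      have h' := hDk (i + 1)
      rw [hn] at h
      linarith
    · have h := norm_sub_le_norm_sub_add_norm_sub (x + Q.ct x (ev ψ) i * ev ψ) (Q.V (i + 2)) x
      have h' := hDk (i + 2)
      rw [hn] at h
      linarith
  · intro ψ' hR'
    rw [htm, htm]
    obtain ⟨hEn', ht', hn'⟩ := key ψ' hR'
    obtain ⟨l, hl0, hl1, hl⟩ := (h2 S).2.2.2.2.2.2.2.1 Q x (ev ψ) i (Or.inr hEn)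
    obtain ⟨l', hl0', hl1', hl'⟩ := (h2 S).2.2.2.2.2.2.2.1 Q x (ev ψ') i (Or.inr hEn')
    have h := abs_norm_sub_norm_le ((x + Q.ct x (ev ψ) i * ev ψ) - x)
      ((x + Q.ct x (ev ψ') i * ev ψ') - x)
    rw [hn, hn'] at h
    refine h.trans ?_
    have e : x + Q.ct x (ev ψ) i * ev ψ - x - (x + Q.ct x (ev ψ') i * ev ψ' - x)
        = ((l - l' : ℝ) : ℂ) * (Q.V (i + 2) - Q.V (i + 1)) := by
      rw [hl, hl']
      push_cast
      ring
    rw [e, norm_mul, Complex.norm_real, Real.norm_eq_abs]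
    have h6 : |l - l'| ≤ 1 := by
      rw [abs_le]
      constructor <;> linarith
    have h7 : ‖Q.V (i + 2) - Q.V (i + 1)‖ ≤ D₀ := hD.2.1 Q (i + 2) (i + 1)
    calc |l - l'| * ‖Q.V (i + 2) - Q.V (i + 1)‖ ≤ 1 * D₀ :=
          mul_le_mul h6 h7 (norm_nonneg _) zero_le_one
      _ = D₀ := one_mul _
  · have e8 := (h1 S).2.2.2.2.2.2.2 js [j] (Pl.home S r) x (ev ψ) 0
    have eP : Q = (endP (Pl.home S r) js).nx j := e8.2.1
    have eE : i = (endP (Pl.home S r) js).en j := e8.2.2.1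
    have h := h5 S js (Pl.home S r) x (ev ψ) j
    show clr (Pl.home S r) (js ++ [j]) x (ev ψ) = _
    rw [h, hapx, eP, eE]
    rfl

end Pool.Agent.FAN
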