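import Pool.Agent.FAN.StF

/-!
# FAN, block 3, module FNI (helper40): integrability and periodicity of the functions of a node
-/

set_option autoImplicit false

open scoped ComplexConjugate
open MeasureTheory Set Filter Topology

namespace Pool.Agent.FAN

namespace FNI

theorem ev_per (ψ : ℝ) : ev (ψ + 2 * Real.pi) = ev ψ := by
  unfold ev
  rw [Real.cos_add_two_pi, Real.sin_add_two_pi]

theorem deriv_per {f : ℝ → ℝ} {c : ℝ} (h : ∀ s, f (s + c) = f s) (ψ : ℝ) :
    deriv f (ψ + c) = deriv f ψ := by
  have h1 : (fun s => f (s + c)) = f := funext h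
  have h2 := deriv_comp_add_const (f := f) (a := c) (x := ψ)
  rw [← h2]
  exact congrFun (congrArg deriv h1) ψ

theorem ee_per (S : TriSys) (r : S.R) (x : ℂ) (js : List (ZMod 3)) (ψ : ℝ) :
    ee S r x js (ψ + 2 * Real.pi) = ee S r x js ψ := by
  unfold ee
  rw [ev_per]

theorem bb_per (S : TriSys) (r : S.R) (x : ℂ) (js : List (ZMod 3)) (ψ : ℝ) :
    bb S r x js (ψ + 2 * Real.pi) = bb S r x js ψ := by
  unfold bb
  rw [deriv_per (f := fun s => ee S r x js s ^ 2 / 2) (c := 2 * Real.pi)
    (fun s => by show ee S r x js (s + 2 * Real.pi) ^ 2 / 2 = _; rw [ee_per])]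

theorem om_per (S : TriSys) (r : S.R) (x : ℂ) (M : ℝ) (js : List (ZMod 3)) (ψ : ℝ) :
    om S r x M js (ψ + 2 * Real.pi) = om S r x M js ψ := by
  unfold om
  rw [ev_per]

theorem bb_int {S : TriSys} {r : S.R} {x : ℂ} {js : List (ZMod 3)}
    (h : ∃ K, LipschitzWith K (fun ψ : ℝ => ee S r x js ψ)) (a b : ℝ) :
    IntervalIntegrable (bb S r x js) volume a b := by
  obtain ⟨K, hK⟩ := h
  have hm : Measurable (bb S r x js) :=
    (measurable_deriv (fun s => ee S r x js s ^ 2 / 2)).norm
  set m : ℝ := min a b with hmm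
  set n : ℝ := max a b with hnn
  -- bound of `ee` on `[m - 1, n + 1]`
  obtain ⟨B, hB⟩ : ∃ B : ℝ, ∀ s ∈ Icc (m - 1) (n + 1), |ee S r x js s| ≤ B := by
    obtain ⟨B, hB⟩ := (isCompact_Icc (a := m - 1) (b := n + 1)).exists_bound_of_continuousOn
      hK.continuous.continuousOn
    exact ⟨B, fun s hs => hB s hs⟩
  have hmn : m ≤ n := min_le_max
  have hB0 : 0 ≤ B := (abs_nonneg _).trans (hB m ⟨by linarith, by linarith⟩)
  have hbd : ∀ ψ ∈ uIoc a b, ‖bb S r x js ψ‖ ≤ (K : ℝ) * B := by
    intro ψ hψ
    have h1 : m < ψ ∧ ψ ≤ n := hψ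
    have h2 : ‖deriv (fun s => ee S r x js s ^ 2 / 2) ψ‖ ≤ (K : ℝ) * B := by
      refine norm_deriv_le_of_lip' (mul_nonneg K.2 hB0) ?_
      have h3 : Ioo (ψ - 1) (ψ + 1) ∈ 𝓝 ψ := Ioo_mem_nhds (by linarith) (by linarith)
      filter_upwards [h3] with s hs
      have e : ee S r x js s ^ 2 / 2 - ee S r x js ψ ^ 2 / 2 =
          (ee S r x js s - ee S r x js ψ) * ((ee S r x js s + ee S r x js ψ) / 2) := by ring
      rw [e, norm_mul]
      have h4 : ‖ee S r x js s - ee S r x js ψ‖ ≤ K * ‖s - ψ‖ := by
        have := hK.dist_le_mul s ψ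
        rwa [dist_eq_norm, dist_eq_norm] at this
      have h5 : ‖(ee S r x js s + ee S r x js ψ) / 2‖ ≤ B := by
        rw [Real.norm_eq_abs, abs_div, abs_of_pos (by norm_num : (0 : ℝ) < 2),
          div_le_iff₀ (by norm_num)]
        have h6 := abs_add_le (ee S r x js s) (ee S r x js ψ)
        have h7 := hB s ⟨by linarith [hs.1], by linarith [hs.2]⟩
        have h8 := hB ψ ⟨by linarith, by linarith⟩
        linarith
      calc ‖ee S r x js s - ee S r x js ψ‖ * ‖(ee S r x js s + ee S r x js ψ) / 2‖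
          ≤ (K * ‖s - ψ‖) * B := mul_le_mul h4 h5 (norm_nonneg _) (by positivity)
        _ = K * B * ‖s - ψ‖ := by ring
    unfold bb
    rw [norm_abs_eq_norm]
    exact h2
  rw [intervalIntegrable_iff]
  refine Measure.integrableOn_of_bounded (M := (K : ℝ) * B) ?_ hm.aestronglyMeasurable ?_
  · rw [uIoc]
    exact measure_Ioc_lt_top.ne
  · rw [ae_restrict_iff' measurableSet_uIoc]
    exact Eventually.of_forall hbd

end FNI

open FNI

theorem f_FNI (h1 : Sf_LIP) (h2 : Sf_OML) : Sf_FNI := by
  intro S D₀ hD r x hx js M _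
  have hlip : ∀ js : List (ZMod 3), ∃ K, LipschitzWith K (fun ψ : ℝ => ee S r x js ψ) :=
    fun js => (h1 S (Pl.home S r) js).1 x
  have hcont : ∀ js : List (ZMod 3), Continuous (fun ψ : ℝ => ee S r x js ψ) := fun js => by
    obtain ⟨K, hK⟩ := hlip js
    exact hK.continuous
  refine ⟨?_, ?_, fun a b => bb_int (hlip js) a b, ?_⟩
  · intro ψ
    unfold LL
    rw [bb_per, bb_per, om_per]
  · intro ψ
    unfold RR
    rw [ee_per, ee_per, om_per, ev_per]
  · intro j α β hαβ hrun
    obtain ⟨⟨K, hK⟩, htm, -⟩ := h2 S D₀ hD r x hx js j α β M hαβ hrun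
    have hom : ContinuousOn (om S r x M (js ++ [j])) (uIcc α β) := by
      rw [uIcc_of_le hαβ.le]
      exact hK.continuousOn
    have hdl : (js ++ [j]).dropLast = js := List.dropLast_concat
    constructor
    · have e : LL S r x M (js ++ [j]) = fun ψ =>
          (bb S r x (js ++ [j]) ψ - bb S r x js ψ) * om S r x M (js ++ [j]) ψ := by
        funext ψ
        unfold LL
        rw [hdl]
      rw [e]
      exact ((bb_int (hlip _) α β).sub (bb_int (hlip _) α β)).mul_continuousOn hom
    · by_cases hF : Far S r x D₀ (js ++ [j])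
      · have e : RR S r x D₀ M (js ++ [j]) = fun ψ =>
            ‖apx S r (js ++ [j]) - x‖ * (ee S r x js ψ - ee S r x (js ++ [j]) ψ) *
              om S r x M (js ++ [j]) ψ +
            9 * D₀ * ‖apx S r (js ++ [j]) - x‖ * (ee S r x js ψ - ee S r x (js ++ [j]) ψ) *
              (if tm S r x (ev ψ) (js ++ [j]) ≤ M + D₀ then 1 else 0) := by
          funext ψ
          unfold RR
          rw [if_pos hF, hdl]
        rw [e]
        have hd : Continuous fun ψ => ee S r x js ψ - ee S r x (js ++ [j]) ψ :=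
          (hcont js).sub (hcont _)
        refine IntervalIntegrable.add ?_ ?_
        · exact ((continuous_const.mul hd).continuousOn.mul hom).intervalIntegrable
        · -- the indicator
          set g : ℝ → ℝ := fun ψ => 9 * D₀ * ‖apx S r (js ++ [j]) - x‖ *
            (ee S r x js ψ - ee S r x (js ++ [j]) ψ) with hg
          have hgc : Continuous g := continuous_const.mul hd
          set A : Set ℝ := Icc α β ∩ (fun ψ => tm S r x (ev ψ) (js ++ [j])) ⁻¹' Iic (M + D₀)
            with hA
          have hAm : MeasurableSet A :=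
            (htm.preimage_isClosed_of_isClosed isClosed_Icc isClosed_Iic).measurableSet
          rw [intervalIntegrable_iff_integrableOn_Ioc_of_le hαβ.le]
          have h3 : IntegrableOn (A.indicator g) (Ioc α β) volume := by
            have h4 : IntegrableOn g (Ioc α β) volume :=
              (intervalIntegrable_iff_integrableOn_Ioc_of_le hαβ.le).1
                (hgc.intervalIntegrable α β)
            exact h4.indicator hAm
          refine h3.congr_fun ?_ measurableSet_Ioc
          intro ψ hψ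
          have h5 : ψ ∈ Icc α β := ⟨hψ.1.le, hψ.2⟩
          show A.indicator g ψ = g ψ * (if tm S r x (ev ψ) (js ++ [j]) ≤ M + D₀ then 1 else 0)
          by_cases h6 : tm S r x (ev ψ) (js ++ [j]) ≤ M + D₀
          · rw [indicator_of_mem (show ψ ∈ A from ⟨h5, h6⟩), if_pos h6, mul_one]
          · rw [indicator_of_notMem (fun hcon : ψ ∈ A => h6 hcon.2), if_neg h6, mul_zero]
      · have e : RR S r x D₀ M (js ++ [j]) = fun _ => M * (6 * D₀) ^ 2 := by
          funext ψ
          unfold RR
          rw [if_neg hF]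
        rw [e]
        exact intervalIntegrable_const

end Pool.Agent.FAN
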