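import Pool.Agent.FAN.StF

/-!
# FAN, block 3, module FSUM (helper22): summation over the words of length `n + 1`
-/

set_option autoImplicit false

open scoped ComplexConjugate
open MeasureTheory Set

namespace Pool.Agent.FAN

namespace FSUM

variable {S : TriSys}

/-- directions of the arc that run through the word -/
private def ZZ (S : TriSys) (r : S.R) (x : ℂ) (α β : ℝ) (js : List (ZMod 3)) : Set ℝ :=
  {ψ | α < ψ ∧ ψ < β ∧ Run (Pl.home S r) x (ev ψ) js}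

private theorem ev_per (ψ : ℝ) : ev (ψ + 2 * Real.pi) = ev ψ := by
  simp [ev, Real.cos_add_two_pi, Real.sin_add_two_pi]

private theorem clr_zero (h1 : Sa_CLV) (r : S.R) (x : ℂ) (js : List (ZMod 3)) (ψ : ℝ) (i : ZMod 3)
    (h : cx (ev ψ) ((Pl.home S r).V i - x) = 0) : ee S r x js ψ = 0 := by
  have h2 := h1 S js (Pl.home S r) x (ev ψ)
  have h3 := h2.1 _ (h2.2.2.2.1 i)
  rw [h, abs_zero] at h3
  exact le_antisymm h3 h2.2.2.1

/-- one word -/
private theorem one_word (h3 : Sf_INT) (h5 : Sf_WDP) (r : S.R) (x : ℂ) (hx : x ∈ rm S r) (n : ℕ)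
    (Φ₁ Φ₂ : List (ZMod 3) → ℝ → ℝ)
    (H : ∀ (js : List (ZMod 3)) (j : ZMod 3) (α β : ℝ), js.length = n → α < β → β < α + Real.pi →
      (∀ ψ, α < ψ → ψ < β → Run (Pl.home S r) x (ev ψ) (js ++ [j])) →
      ee S r x js α = 0 → ee S r x js β = 0 →
      IntervalIntegrable (Φ₁ (js ++ [j])) volume α β ∧
      IntervalIntegrable (Φ₂ (js ++ [j])) volume α β ∧
      ∫ ψ in α..β, Φ₁ (js ++ [j]) ψ ≤ ∫ ψ in α..β, Φ₂ (js ++ [j]) ψ)
    (α β : ℝ) (hαβ : α < β) (hβ : β < α + Real.pi)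
    (hα0 : ∀ js, ee S r x js α = 0) (hβ0 : ∀ js, ee S r x js β = 0)
    (js : List (ZMod 3)) (hjs : js.length = n + 1) :
    MeasurableSet (ZZ S r x α β js) ∧
    IntegrableOn (fun ψ => Φ₁ (wd S r x (ev ψ) (n + 1)) ψ) (ZZ S r x α β js) volume ∧
    IntegrableOn (fun ψ => Φ₂ (wd S r x (ev ψ) (n + 1)) ψ) (ZZ S r x α β js) volume ∧
    ∫ ψ in ZZ S r x α β js, Φ₁ (wd S r x (ev ψ) (n + 1)) ψ ≤
      ∫ ψ in ZZ S r x α β js, Φ₂ (wd S r x (ev ψ) (n + 1)) ψ := by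
  obtain ⟨js', k, rfl⟩ : ∃ js' k, js = js' ++ [k] := by
    have hne : js ≠ [] := by
      intro h0
      rw [h0] at hjs
      simp at hjs
    exact ⟨js.dropLast, js.getLast hne, (List.dropLast_append_getLast hne).symm⟩
  have hlen : js'.length = n := by
    rw [List.length_append, List.length_singleton] at hjs
    omega
  obtain ⟨a, b, haa, hab, hbb, hZ, hee⟩ := h3 S r x js' k α β hαβ hβ.le (hα0 js') (hβ0 js')
  have hZ2 : ZZ S r x α β (js' ++ [k]) = Ioo a b := hZ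
  have hrun : ∀ ψ ∈ Ioo a b, Run (Pl.home S r) x (ev ψ) (js' ++ [k]) := by
    intro ψ hψ
    rw [← hZ2] at hψ
    exact hψ.2.2
  have hw : ∀ ψ ∈ Ioo a b, wd S r x (ev ψ) (n + 1) = js' ++ [k] := by
    intro ψ hψ
    have h6 := (h5 S r x (ev ψ) hx).1 (js' ++ [k]) (hrun ψ hψ)
    rw [hjs] at h6
    exact h6
  rw [hZ2]
  have hc1 : ∀ Φ : List (ZMod 3) → ℝ → ℝ,
      EqOn (fun ψ => Φ (wd S r x (ev ψ) (n + 1)) ψ) (Φ (js' ++ [k])) (Ioo a b) := by
    intro Φ ψ hψ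
    show Φ (wd S r x (ev ψ) (n + 1)) ψ = Φ (js' ++ [k]) ψ
    rw [hw ψ hψ]
  refine ⟨measurableSet_Ioo, ?_⟩
  rcases hab.lt_or_eq with hlt | heq
  · have h7 := H js' k a b hlen hlt (by linarith) (fun ψ h8 h9 => hrun ψ ⟨h8, h9⟩)
      (hee hlt).1 (hee hlt).2
    refine ⟨?_, ?_, ?_⟩
    · rw [integrableOn_congr_fun (hc1 Φ₁) measurableSet_Ioo]
      exact (intervalIntegrable_iff_integrableOn_Ioo_of_le hab).1 h7.1
    · rw [integrableOn_congr_fun (hc1 Φ₂) measurableSet_Ioo]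
      exact (intervalIntegrable_iff_integrableOn_Ioo_of_le hab).1 h7.2.1
    · rw [setIntegral_congr_fun measurableSet_Ioo (hc1 Φ₁),
        setIntegral_congr_fun measurableSet_Ioo (hc1 Φ₂),
        ← integral_Ioc_eq_integral_Ioo, ← integral_Ioc_eq_integral_Ioo,
        ← intervalIntegral.integral_of_le hab, ← intervalIntegral.integral_of_le hab]
      exact h7.2.2
  · have h0 : Ioo a b = ∅ := by
      rw [heq]
      exact Ioo_self b
    rw [h0]
    simp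

/-- one arc -/
private theorem one_arc (h3 : Sf_INT) (h4 : Sf_NHC) (h5 : Sf_WDP) (r : S.R) (x : ℂ)
    (hx : x ∈ rm S r) (n : ℕ)
    (Φ₁ Φ₂ : List (ZMod 3) → ℝ → ℝ)
    (H : ∀ (js : List (ZMod 3)) (j : ZMod 3) (α β : ℝ), js.length = n → α < β → β < α + Real.pi →
      (∀ ψ, α < ψ → ψ < β → Run (Pl.home S r) x (ev ψ) (js ++ [j])) →
      ee S r x js α = 0 → ee S r x js β = 0 →
      IntervalIntegrable (Φ₁ (js ++ [j])) volume α β ∧
      IntervalIntegrable (Φ₂ (js ++ [j])) volume α β ∧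
      ∫ ψ in α..β, Φ₁ (js ++ [j]) ψ ≤ ∫ ψ in α..β, Φ₂ (js ++ [j]) ψ)
    (α β : ℝ) (hαβ : α < β) (hβ : β < α + Real.pi)
    (hα0 : ∀ js, ee S r x js α = 0) (hβ0 : ∀ js, ee S r x js β = 0) :
    IntervalIntegrable (fun ψ => Φ₁ (wd S r x (ev ψ) (n + 1)) ψ) volume α β ∧
    IntervalIntegrable (fun ψ => Φ₂ (wd S r x (ev ψ) (n + 1)) ψ) volume α β ∧
    ∫ ψ in α..β, Φ₁ (wd S r x (ev ψ) (n + 1)) ψ ≤
      ∫ ψ in α..β, Φ₂ (wd S r x (ev ψ) (n + 1)) ψ := by
  have hfin : {l : List (ZMod 3) | l.length = n + 1}.Finite := List.finite_length_eq (ZMod 3) (n + 1)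
  set t : Finset (List (ZMod 3)) := hfin.toFinset with ht
  have hmem : ∀ js, js ∈ t ↔ js.length = n + 1 := by
    intro js
    rw [ht, Set.Finite.mem_toFinset]
    exact Iff.rfl
  have hone := fun js (hjs : js ∈ t) =>
    one_word h3 h5 r x hx n Φ₁ Φ₂ H α β hαβ hβ hα0 hβ0 js ((hmem js).1 hjs)
  set U : Set ℝ := ⋃ js ∈ t, ZZ S r x α β js with hU
  have hdisj : Set.Pairwise (↑t : Set (List (ZMod 3)))
      (Function.onFun Disjoint (fun js => ZZ S r x α β js)) := by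
    intro js hjs js2 hjs2 hne
    show Disjoint (ZZ S r x α β js) (ZZ S r x α β js2)
    rw [Set.disjoint_left]
    intro ψ h6 h7
    apply hne
    have h8 := (h5 S r x (ev ψ) hx).1 js h6.2.2
    have h9 := (h5 S r x (ev ψ) hx).1 js2 h7.2.2
    rw [(hmem js).1 hjs] at h8
    rw [(hmem js2).1 hjs2] at h9
    rw [← h8, ← h9]
  have hUI : U ⊆ Ioo α β := by
    intro ψ hψ
    rw [hU] at hψ
    simp only [mem_iUnion] at hψ
    obtain ⟨js, -, h6⟩ := hψ
    exact ⟨h6.1, h6.2.1⟩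
  have hIU : Ioo α β \ U ⊆ {ψ : ℝ | ¬ NH S r x (ev ψ)} := by
    intro ψ hψ hN
    apply hψ.2
    rw [hU]
    simp only [mem_iUnion]
    have h6 := (h5 S r x (ev ψ) hx).2 hN (n + 1)
    exact ⟨wd S r x (ev ψ) (n + 1), (hmem _).2 h6.2.1, hψ.1.1, hψ.1.2, h6.1⟩
  have hae : Ioo α β =ᵐ[volume] U := by
    apply Filter.EventuallyLE.antisymm
    · rw [ae_le_set]
      exact ((h4 S r x hx).mono hIU).measure_zero volume
    · exact LE.le.eventuallyLE hUI
  have hi1 : IntegrableOn (fun ψ => Φ₁ (wd S r x (ev ψ) (n + 1)) ψ) U volume := by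
    rw [hU, integrableOn_finset_iUnion]
    exact fun js hjs => (hone js hjs).2.1
  have hi2 : IntegrableOn (fun ψ => Φ₂ (wd S r x (ev ψ) (n + 1)) ψ) U volume := by
    rw [hU, integrableOn_finset_iUnion]
    exact fun js hjs => (hone js hjs).2.2.1
  refine ⟨?_, ?_, ?_⟩
  · rw [intervalIntegrable_iff_integrableOn_Ioo_of_le hαβ.le, integrableOn_congr_set_ae hae]
    exact hi1
  · rw [intervalIntegrable_iff_integrableOn_Ioo_of_le hαβ.le, integrableOn_congr_set_ae hae]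
    exact hi2
  · rw [intervalIntegral.integral_of_le hαβ.le, intervalIntegral.integral_of_le hαβ.le,
      integral_Ioc_eq_integral_Ioo, integral_Ioc_eq_integral_Ioo,
      setIntegral_congr_set hae, setIntegral_congr_set hae, hU,
      integral_biUnion_finset t (fun js hjs => (hone js hjs).1) hdisj
        (fun js hjs => (hone js hjs).2.1),
      integral_biUnion_finset t (fun js hjs => (hone js hjs).1) hdisj
        (fun js hjs => (hone js hjs).2.2.1)]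
    exact Finset.sum_le_sum fun js hjs => (hone js hjs).2.2.2

end FSUM

open FSUM in
/-- FSUM. -/
theorem f_FSUM (h1 : Sa_CLV) (h2 : Sf_ARC) (h3 : Sf_INT) (h4 : Sf_NHC) (h5 : Sf_WDP) : Sf_FSUM := by
  intro S r x hx n Φ₁ Φ₂ hp1 hp2 H
  obtain ⟨α, β, hαβ, hEx, hcx, hper⟩ := h2 S r x hx
  have harc := fun j => one_arc h3 h4 h5 r x hx n Φ₁ Φ₂ H (α j) (β j) (hαβ j).1 (hαβ j).2
    (fun js => clr_zero h1 r x js (α j) (j + 1) (hcx j).1)
    (fun js => clr_zero h1 r x js (β j) (j + 2) (hcx j).2)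
  have hq1 := hper (fun ψ => Φ₁ (wd S r x (ev ψ) (n + 1)) ψ) (fun ψ => by
    show Φ₁ (wd S r x (ev (ψ + 2 * Real.pi)) (n + 1)) (ψ + 2 * Real.pi) = _
    rw [ev_per, hp1]) (fun j => (harc j).1)
  have hq2 := hper (fun ψ => Φ₂ (wd S r x (ev ψ) (n + 1)) ψ) (fun ψ => by
    show Φ₂ (wd S r x (ev (ψ + 2 * Real.pi)) (n + 1)) (ψ + 2 * Real.pi) = _
    rw [ev_per, hp2]) (fun j => (harc j).2.1)
  refine ⟨hq1.1 _ _, hq2.1 _ _, ?_⟩
  rw [hq1.2, hq2.2]
  exact Finset.sum_le_sum fun j _ => (harc j).2.2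

end Pool.Agent.FAN
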