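import Pool.Agent.FAN.StF

/-!
# The directions that run through a given word form an interval (module FANF_INT, helper27)
-/

set_option autoImplicit false

open MeasureTheory Set

namespace Pool.Agent.FAN

private theorem fINT_cont (w : ℂ) : Continuous (fun ψ : ℝ => cx (ev ψ) w) := by
  have h : (fun ψ : ℝ => cx (ev ψ) w) = fun ψ : ℝ => Real.cos ψ * w.im - Real.sin ψ * w.re := by
    funext ψ
    simp only [cx, ev]
  rw [h]
  exact (Real.continuous_cos.mul continuous_const).sub (Real.continuous_sin.mul continuous_const)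

private theorem fINT_id (w : ℂ) (ψ₁ ψ ψ₂ : ℝ) :
    Real.sin (ψ₂ - ψ₁) * cx (ev ψ) w =
      Real.sin (ψ₂ - ψ) * cx (ev ψ₁) w + Real.sin (ψ - ψ₁) * cx (ev ψ₂) w := by
  simp only [cx, ev, Real.sin_sub]
  have h := Real.sin_sq_add_cos_sq ψ
  have e : Real.sin ψ ^ 2 = 1 - Real.cos ψ ^ 2 := by linarith
  ring_nf

private theorem fINT_pos (w : ℂ) (ψ₁ ψ ψ₂ : ℝ) (h1 : ψ₁ ≤ ψ) (h2 : ψ ≤ ψ₂) (h3 : ψ₂ < ψ₁ + Real.pi)
    (p1 : 0 < cx (ev ψ₁) w) (p2 : 0 < cx (ev ψ₂) w) : 0 < cx (ev ψ) w := by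
  rcases eq_or_lt_of_le h1 with h1 | h1
  · rw [← h1]; exact p1
  rcases eq_or_lt_of_le h2 with h2 | h2
  · rw [h2]; exact p2
  have s1 : 0 < Real.sin (ψ₂ - ψ) := Real.sin_pos_of_pos_of_lt_pi (by linarith) (by linarith)
  have s2 : 0 < Real.sin (ψ - ψ₁) := Real.sin_pos_of_pos_of_lt_pi (by linarith) (by linarith)
  have s3 : 0 < Real.sin (ψ₂ - ψ₁) := Real.sin_pos_of_pos_of_lt_pi (by linarith) (by linarith)
  have e := fINT_id w ψ₁ ψ ψ₂
  have m1 := mul_pos s1 p1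
  have m2 := mul_pos s2 p2
  have m3 : 0 < Real.sin (ψ₂ - ψ₁) * cx (ev ψ) w := by linarith
  exact (mul_pos_iff_of_pos_left s3).1 m3

private theorem fINT_neg (w : ℂ) (ψ₁ ψ ψ₂ : ℝ) (h1 : ψ₁ ≤ ψ) (h2 : ψ ≤ ψ₂) (h3 : ψ₂ < ψ₁ + Real.pi)
    (p1 : cx (ev ψ₁) w < 0) (p2 : cx (ev ψ₂) w < 0) : cx (ev ψ) w < 0 := by
  have e : ∀ v : ℂ, cx v (-w) = - cx v w := by
    intro v
    simp only [cx, Complex.neg_re, Complex.neg_im]
    ring
  have h := fINT_pos (-w) ψ₁ ψ ψ₂ h1 h2 h3 (by rw [e]; linarith) (by rw [e]; linarith)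
  rw [e] at h
  linarith

private theorem fINT_run {S : TriSys} (x : ℂ) (ψ₁ ψ ψ₂ : ℝ) (h1 : ψ₁ ≤ ψ) (h2 : ψ ≤ ψ₂)
    (h3 : ψ₂ < ψ₁ + Real.pi) (js : List (ZMod 3)) :
    ∀ q : Pl S, Run q x (ev ψ₁) js → Run q x (ev ψ₂) js → Run q x (ev ψ) js := by
  induction js with
  | nil => intro q _ _; trivial
  | cons j js ih =>
    intro q r1 r2
    refine ⟨⟨?_, ?_⟩, ih _ r1.2 r2.2⟩
    · exact fINT_pos _ ψ₁ ψ ψ₂ h1 h2 h3 r1.1.1 r2.1.1
    · exact fINT_neg _ ψ₁ ψ ψ₂ h1 h2 h3 r1.1.2 r2.1.2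

private theorem fINT_open {S : TriSys} (x : ℂ) (js : List (ZMod 3)) :
    ∀ q : Pl S, IsOpen {ψ : ℝ | Run q x (ev ψ) js} := by
  induction js with
  | nil =>
    intro q
    have : {ψ : ℝ | Run q x (ev ψ) []} = univ := by
      ext ψ
      simp [Run]
    rw [this]
    exact isOpen_univ
  | cons j js ih =>
    intro q
    have : {ψ : ℝ | Run q x (ev ψ) (j :: js)} =
        ({ψ : ℝ | 0 < cx (ev ψ) (q.V (j + 2) - x)} ∩ {ψ : ℝ | cx (ev ψ) (q.V (j + 1) - x) < 0}) ∩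
          {ψ : ℝ | Run (q.nx j) x (ev ψ) js} := by
      ext ψ
      simp [Run, Pl.Ex]
    rw [this]
    exact ((isOpen_lt continuous_const (fINT_cont _)).inter
      (isOpen_lt (fINT_cont _) continuous_const)).inter (ih _)

private theorem fINT_mem {S : TriSys} (q : Pl S) (i : ZMod 3) (js : List (ZMod 3)) :
    q.V i ∈ vl q js := by
  cases js with
  | nil =>
    simp only [vl, List.mem_cons, List.not_mem_nil, or_false]
    fin_cases i
    · exact Or.inl rfl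
    · exact Or.inr (Or.inl rfl)
    · exact Or.inr (Or.inr rfl)
  | cons j js =>
    simp only [vl, List.mem_cons]
    fin_cases i
    · exact Or.inl rfl
    · exact Or.inr (Or.inl rfl)
    · exact Or.inr (Or.inr (Or.inl rfl))

private theorem fINT_cl {S : TriSys} (x : ℂ) (a : ℝ) (j : ZMod 3) (js : List (ZMod 3)) :
    ∀ q : Pl S, a ∈ closure {ψ : ℝ | Run q x (ev ψ) (js ++ [j])} →
      ¬ Run q x (ev a) (js ++ [j]) → ∃ p ∈ vl q js, cx (ev a) (p - x) = 0 := by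
  have hEx : ∀ (q : Pl S) (k : ZMod 3) (Z : Set ℝ), a ∈ closure Z → (∀ ψ ∈ Z, q.Ex x (ev ψ) k) →
      ¬ q.Ex x (ev a) k → ∃ i, cx (ev a) (q.V i - x) = 0 := by
    intro q k Z ha hZ hn
    have c1 : 0 ≤ cx (ev a) (q.V (k + 2) - x) := by
      have hc : IsClosed {ψ : ℝ | 0 ≤ cx (ev ψ) (q.V (k + 2) - x)} :=
        isClosed_le continuous_const (fINT_cont _)
      exact closure_minimal (fun ψ hψ => (hZ ψ hψ).1.le) hc ha
    have c2 : cx (ev a) (q.V (k + 1) - x) ≤ 0 := by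
      have hc : IsClosed {ψ : ℝ | cx (ev ψ) (q.V (k + 1) - x) ≤ 0} :=
        isClosed_le (fINT_cont _) continuous_const
      exact closure_minimal (fun ψ hψ => (hZ ψ hψ).2.le) hc ha
    rcases eq_or_lt_of_le c1 with h | h
    · exact ⟨_, h.symm⟩
    rcases eq_or_lt_of_le c2 with h' | h'
    · exact ⟨_, h'⟩
    exact absurd ⟨h, h'⟩ hn
  induction js with
  | nil =>
    intro q ha hn
    obtain ⟨i, hi⟩ := hEx q j _ ha (fun ψ hψ => hψ.1) (fun h => hn ⟨h, trivial⟩)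
    exact ⟨_, fINT_mem q i [], hi⟩
  | cons k js ih =>
    intro q ha hn
    by_cases hk : q.Ex x (ev a) k
    · have hn' : ¬ Run (q.nx k) x (ev a) (js ++ [j]) := fun h => hn ⟨hk, h⟩
      obtain ⟨p, hp, h0⟩ := ih (q.nx k) (closure_mono (fun ψ hψ => hψ.2) ha) hn'
      refine ⟨p, ?_, h0⟩
      simp only [vl, List.mem_cons]
      exact Or.inr (Or.inr (Or.inr hp))
    · obtain ⟨i, hi⟩ := hEx q k _ ha (fun ψ hψ => hψ.1) hk
      exact ⟨_, fINT_mem q i (k :: js), hi⟩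

theorem f_INT (h1 : Sa_CLV) : Sf_INT := by
  intro S r x js j α β hαβ hβ eα eβ
  set Z : Set ℝ := {ψ | α < ψ ∧ ψ < β ∧ Run (Pl.home S r) x (ev ψ) (js ++ [j])} with hZ
  have hclv : ∀ (a : ℝ), (∃ p ∈ vl (Pl.home S r) js, cx (ev a) (p - x) = 0) → ee S r x js a = 0 := by
    rintro a ⟨p, hp, h0⟩
    obtain ⟨c1, _, c2, _⟩ := h1 S js (Pl.home S r) x (ev a)
    have := c1 p hp
    rw [h0, abs_zero] at this
    exact le_antisymm this c2
  by_cases hne : Z.Nonempty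
  · have hbelow : BddBelow Z := ⟨α, fun ψ hψ => hψ.1.le⟩
    have habove : BddAbove Z := ⟨β, fun ψ hψ => hψ.2.1.le⟩
    have hop : IsOpen Z := by
      have : Z = (Ioi α ∩ Iio β) ∩ {ψ : ℝ | Run (Pl.home S r) x (ev ψ) (js ++ [j])} := by
        ext ψ
        simp [hZ, and_assoc]
      rw [this]
      exact (isOpen_Ioi.inter isOpen_Iio).inter (fINT_open x _ _)
    have hoc : ∀ ψ₁ ∈ Z, ∀ ψ₂ ∈ Z, ∀ ψ, ψ₁ ≤ ψ → ψ ≤ ψ₂ → ψ ∈ Z := by
      intro ψ₁ k1 ψ₂ k2 ψ l1 l2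
      refine ⟨lt_of_lt_of_le k1.1 l1, lt_of_le_of_lt l2 k2.2.1, ?_⟩
      exact fINT_run x ψ₁ ψ ψ₂ l1 l2 (by have := k1.1; have := k2.2.1; linarith) _ _ k1.2.2 k2.2.2
    have hIoo : Z = Ioo (sInf Z) (sSup Z) := by
      ext ψ
      constructor
      · intro hψ
        obtain ⟨ε, hε, hb⟩ := Metric.isOpen_iff.1 hop ψ hψ
        have m1 : ψ - ε / 2 ∈ Z := hb (by
          rw [Metric.mem_ball, Real.dist_eq]
          rw [abs_lt]
          constructor <;> linarith)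
        have m2 : ψ + ε / 2 ∈ Z := hb (by
          rw [Metric.mem_ball, Real.dist_eq]
          rw [abs_lt]
          constructor <;> linarith)
        have i1 := csInf_le hbelow m1
        have i2 := le_csSup habove m2
        exact ⟨by linarith, by linarith⟩
      · rintro ⟨k1, k2⟩
        obtain ⟨ψ₁, m1, l1⟩ := exists_lt_of_csInf_lt hne k1
        obtain ⟨ψ₂, m2, l2⟩ := exists_lt_of_lt_csSup hne k2
        exact hoc ψ₁ m1 ψ₂ m2 ψ l1.le l2.le
    have ha : α ≤ sInf Z := le_csInf hne (fun ψ hψ => hψ.1.le)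
    have hb : sSup Z ≤ β := csSup_le hne (fun ψ hψ => hψ.2.1.le)
    have hab : sInf Z ≤ sSup Z := csInf_le_csSup hne hbelow habove
    refine ⟨sInf Z, sSup Z, ha, hab, hb, hIoo, fun hlt => ⟨?_, ?_⟩⟩
    · rcases eq_or_lt_of_le ha with h | h
      · rw [← h]; exact eα
      · have hcl : sInf Z ∈ closure Z := csInf_mem_closure hne hbelow
        have hn : sInf Z ∉ Z := by
          rw [hIoo]
          simp only [mem_Ioo, not_and]
          intro k
          rw [← hIoo] at k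
          exact absurd k (lt_irrefl _)
        refine hclv _ (fINT_cl x (sInf Z) j js (Pl.home S r)
          (closure_mono (fun ψ hψ => hψ.2.2) hcl) ?_)
        intro hr
        exact hn ⟨h, lt_of_lt_of_le hlt hb, hr⟩
    · rcases eq_or_lt_of_le hb with h | h
      · rw [h]; exact eβ
      · have hcl : sSup Z ∈ closure Z := csSup_mem_closure hne habove
        have hn : sSup Z ∉ Z := by
          rw [hIoo]
          simp only [mem_Ioo, not_and]
          intro _ k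
          rw [← hIoo] at k
          exact absurd k (lt_irrefl _)
        refine hclv _ (fINT_cl x (sSup Z) j js (Pl.home S r)
          (closure_mono (fun ψ hψ => hψ.2.2) hcl) ?_)
        intro hr
        exact hn ⟨lt_of_le_of_lt ha hlt, h, hr⟩
  · refine ⟨α, α, le_refl _, le_refl _, hαβ.le, ?_, fun h => absurd h (lt_irrefl _)⟩
    rw [not_nonempty_iff_eq_empty.1 hne, Ioo_self]

end Pool.Agent.FAN
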