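import Pool.Agent.FAN.StF

/-!
# The clearance is Lipschitz in the angle (module FANF_LIP, helper55)
-/

set_option autoImplicit false

open MeasureTheory Set

namespace Pool.Agent.FAN

private theorem fLIP_abs (x p : ℂ) :
    ∃ K, LipschitzWith K (fun ψ : ℝ => |cx (ev ψ) (p - x)|) := by
  refine ⟨⟨|(p - x).im| + |(p - x).re|, by positivity⟩, LipschitzWith.of_dist_le_mul ?_⟩
  intro a b
  rw [Real.dist_eq, Real.dist_eq]
  have hc : |Real.cos a - Real.cos b| ≤ |a - b| := by
    have h := Real.lipschitzWith_cos.dist_le_mul a b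
    rw [Real.dist_eq, Real.dist_eq] at h
    simpa using h
  have hs : |Real.sin a - Real.sin b| ≤ |a - b| := by
    have h := Real.lipschitzWith_sin.dist_le_mul a b
    rw [Real.dist_eq, Real.dist_eq] at h
    simpa using h
  have e : cx (ev a) (p - x) - cx (ev b) (p - x) =
      (Real.cos a - Real.cos b) * (p - x).im - (Real.sin a - Real.sin b) * (p - x).re := by
    simp only [cx, ev]
    ring
  have h1 : |cx (ev a) (p - x) - cx (ev b) (p - x)| ≤
      |Real.cos a - Real.cos b| * |(p - x).im| + |Real.sin a - Real.sin b| * |(p - x).re| := by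
    rw [e, ← abs_mul, ← abs_mul]
    exact abs_sub _ _
  have h2 := abs_abs_sub_abs_le (cx (ev a) (p - x)) (cx (ev b) (p - x))
  have h3 := mul_le_mul_of_nonneg_right hc (abs_nonneg (p - x).im)
  have h4 := mul_le_mul_of_nonneg_right hs (abs_nonneg (p - x).re)
  show abs (abs (cx (ev a) (p - x)) - abs (cx (ev b) (p - x))) ≤
    (abs (p - x).im + abs (p - x).re) * abs (a - b)
  linarith [mul_comm |a - b| |(p - x).im|, mul_comm |a - b| |(p - x).re|]

private theorem fLIP_h3 {S : TriSys} (q : Pl S) (x : ℂ) :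
    ∃ K, LipschitzWith K (fun ψ : ℝ => q.h3 x (ev ψ)) := by
  obtain ⟨K0, h0⟩ := fLIP_abs x (q.V 0)
  obtain ⟨K1, h1⟩ := fLIP_abs x (q.V 1)
  obtain ⟨K2, h2⟩ := fLIP_abs x (q.V 2)
  exact ⟨_, h0.min (h1.min h2)⟩

private theorem fLIP_clr {S : TriSys} (x : ℂ) (js : List (ZMod 3)) :
    ∀ q : Pl S, ∃ K, LipschitzWith K (fun ψ : ℝ => clr q js x (ev ψ)) := by
  induction js with
  | nil => intro q; exact fLIP_h3 q x
  | cons j js ih =>
    intro q
    obtain ⟨K1, h1⟩ := fLIP_h3 q x
    obtain ⟨K2, h2⟩ := ih (q.nx j)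
    exact ⟨_, h1.min h2⟩

private theorem fLIP_ch3 {S : TriSys} (q : Pl S) :
    Continuous (fun p : ℂ × ℂ => q.h3 p.1 p.2) := by
  have h : ∀ z : ℂ, Continuous (fun p : ℂ × ℂ => |cx p.2 (z - p.1)|) := by
    intro z
    apply Continuous.abs
    unfold cx
    fun_prop
  exact (h _).min ((h _).min (h _))

private theorem fLIP_cclr {S : TriSys} (js : List (ZMod 3)) :
    ∀ q : Pl S, Continuous (fun p : ℂ × ℂ => clr q js p.1 p.2) := by
  induction js with
  | nil => intro q; exact fLIP_ch3 q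
  | cons j js ih => intro q; exact (fLIP_ch3 q).min (ih (q.nx j))

theorem f_LIP : Sf_LIP := by
  intro S q js
  refine ⟨fun x => fLIP_clr x js q, fLIP_cclr js q, fun x ψ => ?_⟩
  have e : ev (ψ + 2 * Real.pi) = ev ψ := by
    simp only [ev, Real.cos_add_two_pi, Real.sin_add_two_pi]
  rw [e]

end Pool.Agent.FAN
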