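import Pool.Agent.FAN.StF

/-!
# FAN, block 3, module NHC (helper53): from an interior point all but countably many directions hit no
vertex
-/

set_option autoImplicit false

open scoped ComplexConjugate
open MeasureTheory Set

namespace Pool.Agent.FAN

namespace NHC

theorem cx_zero (p : ℂ) : cx p 0 = 0 := by simp [cx]

theorem dt_zero (p : ℂ) : dt p 0 = 0 := by simp [dt]

theorem z21 (i : ZMod 3) : i + 2 + 1 = i := by revert i; decide

theorem cases3 (i k : ZMod 3) : i = k ∨ i = k + 1 ∨ i = k + 2 := by revert i k; decide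

/-- the unit vector `ev ψ` is parallel to `w ≠ 0` for countably many `ψ` -/
theorem count {w : ℂ} (hw : w ≠ 0) : {ψ : ℝ | cx (ev ψ) w = 0}.Countable := by
  refine (countable_range fun n : ℤ => w.arg - n * Real.pi).mono ?_
  intro ψ hψ
  have h0 : cx (ev ψ) w = 0 := hψ
  have hn : ‖w‖ ≠ 0 := norm_ne_zero_iff.2 hw
  have e : cx (ev ψ) w = ‖w‖ * Real.sin (w.arg - ψ) := by
    have e1 : ‖w‖ * Real.cos w.arg = w.re := Complex.norm_mul_cos_arg w
    have e2 : ‖w‖ * Real.sin w.arg = w.im := Complex.norm_mul_sin_arg w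
    rw [Real.sin_sub]
    simp only [cx, ev]
    rw [← e1, ← e2]
    ring
  rw [e] at h0
  obtain ⟨n, hn'⟩ := Real.sin_eq_zero_iff.1 ((mul_eq_zero.1 h0).resolve_left hn)
  refine ⟨n, ?_⟩
  change w.arg - n * Real.pi = ψ
  linarith

/-- a vertex on the line is not the starting point -/
theorem ne (h2 : Sa_TIM) (h3 : Sa_CTS) (h4 : Sa_ENT) {S : TriSys} {r : S.R} {x v : ℂ}
    (hx : x ∈ rm S r) (hv : ‖v‖ = 1) {js : List (ZMod 3)} (hR : Run (Pl.home S r) x v js) {i : ZMod 3}
    (h0 : cx v ((endP (Pl.home S r) js).V i - x) = 0) : (endP (Pl.home S r) js).V i - x ≠ 0 := by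
  have hx' : (Pl.home S r).In x := hx
  rcases eq_or_ne js [] with rfl | hne
  · intro he
    have h5 := hx' (i + 2)
    rw [z21] at h5
    have e : x - (Pl.home S r).V i = 0 := by
      have he' : (Pl.home S r).V i - x = 0 := he
      rw [← neg_sub, he', neg_zero]
    rw [e, cx_zero] at h5
    exact lt_irrefl _ h5
  · obtain ⟨a1, -, a3, -⟩ := h4 S js (Pl.home S r) x v 0 hne hR
    have hpos := (h3 S).2.2.2 js (Pl.home S r) x v hx' hR _ a3
    have hi : i = eI (Pl.home S r) 0 js := by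
      rcases cases3 i (eI (Pl.home S r) 0 js) with h | h | h
      · exact h
      · have h6 := a1.1
        rw [← h, h0] at h6
        exact absurd h6 (lt_irrefl _)
      · have h6 := a1.2
        rw [← h, h0] at h6
        exact absurd h6 (lt_irrefl _)
    obtain ⟨-, -, -, -, -, -, -, -, t9⟩ := h2 S
    rw [hi] at h0 ⊢
    have h7 := (t9 _ x v _ hv a1 h0).2
    intro he
    rw [he, dt_zero] at h7
    linarith

theorem norm_ev' (ψ : ℝ) : ‖ev ψ‖ = 1 := by
  have h : ‖ev ψ‖ ^ 2 = 1 := by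
    rw [← Complex.normSq_eq_norm_sq, Complex.normSq_apply]
    simp only [ev]
    nlinarith [Real.sin_sq_add_cos_sq ψ]
  have h0 := norm_nonneg (ev ψ)
  nlinarith

end NHC

theorem f_NHC (h2 : Sa_TIM) (h3 : Sa_CTS) (h4 : Sa_ENT) : Sf_NHC := by
  intro S r x hx
  have hsub : {ψ : ℝ | ¬ NH S r x (ev ψ)} ⊆ ⋃ js : List (ZMod 3), ⋃ i : ZMod 3,
      {ψ : ℝ | Run (Pl.home S r) x (ev ψ) js ∧ cx (ev ψ) ((endP (Pl.home S r) js).V i - x) = 0} := by
    intro ψ hψ
    have h : ¬ NH S r x (ev ψ) := hψ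
    unfold NH at h
    push Not at h
    obtain ⟨js, hR, i, hi⟩ := h
    exact mem_iUnion.2 ⟨js, mem_iUnion.2 ⟨i, hR, hi⟩⟩
  refine (countable_iUnion fun js => countable_iUnion fun i => ?_).mono hsub
  rcases eq_or_ne ((endP (Pl.home S r) js).V i - x) 0 with he | he
  · refine (countable_empty (α := ℝ)).mono ?_
    rintro ψ ⟨hR, h0⟩
    exact absurd he (NHC.ne h2 h3 h4 hx (NHC.norm_ev' ψ) hR h0)
  · exact (NHC.count he).mono fun ψ hψ => hψ.2

end Pool.Agent.FAN
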