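import Pool.Agent.FAN.StF

/-!
# FAN, block 3: NODE (helper35). The fan inequality at one node.
-/

set_option autoImplicit false

open scoped ComplexConjugate
open MeasureTheory Set

namespace Pool.Agent.FAN

private theorem node_congr_Ioo {f g : ℝ → ℝ} {a b : ℝ} (hab : a ≤ b)
    (h : ∀ x ∈ Ioo a b, f x = g x) : ∫ x in a..b, f x = ∫ x in a..b, g x := by
  rw [intervalIntegral.integral_of_le hab, intervalIntegral.integral_of_le hab,
    integral_Ioc_eq_integral_Ioo, integral_Ioc_eq_integral_Ioo]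
  exact setIntegral_congr_fun measurableSet_Ioo h

private theorem node_hasDeriv (w : ℂ) (ψ : ℝ) :
    HasDerivAt (fun s => cx (ev s) w) (-dt (ev ψ) w) ψ := by
  have h1 : HasDerivAt (fun s => Real.cos s * w.im - Real.sin s * w.re)
      (-Real.sin ψ * w.im - Real.cos ψ * w.re) ψ :=
    ((Real.hasDerivAt_cos ψ).mul_const _).sub ((Real.hasDerivAt_sin ψ).mul_const _)
  have e1 : (fun s => cx (ev s) w) = fun s => Real.cos s * w.im - Real.sin s * w.re := by
    funext s; simp [cx, ev]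
  have e2 : -dt (ev ψ) w = -Real.sin ψ * w.im - Real.cos ψ * w.re := by
    simp only [dt, ev]; ring
  rw [e1, e2]; exact h1

private theorem node_cx_sq (w : ℂ) (ψ : ℝ) : cx (ev ψ) w ^ 2 + dt (ev ψ) w ^ 2 = ‖w‖ ^ 2 := by
  have h : ‖w‖ ^ 2 = w.re * w.re + w.im * w.im := by
    rw [← Complex.normSq_eq_norm_sq, Complex.normSq_apply]
  rw [h]
  simp only [cx, dt, ev]
  have h2 := Real.sin_sq_add_cos_sq ψ
  linear_combination (w.re * w.re + w.im * w.im) * h2

private theorem node_prod (w : ℂ) (ψ : ℝ) : |cx (ev ψ) w * dt (ev ψ) w| ≤ ‖w‖ ^ 2 := by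
  have h := node_cx_sq w ψ
  rw [abs_le]
  constructor <;> nlinarith [sq_nonneg (cx (ev ψ) w + dt (ev ψ) w),
    sq_nonneg (cx (ev ψ) w - dt (ev ψ) w), sq_nonneg (cx (ev ψ) w), sq_nonneg (dt (ev ψ) w)]

private theorem node_pt (f : ℝ → ℝ) (w : ℂ) (ψ : ℝ) (hf : Continuous f) (hf0 : ∀ s, 0 ≤ f s) :
    |deriv (fun s => (min (f s) |cx (ev s) w|) ^ 2 / 2) ψ| - |deriv (fun s => f s ^ 2 / 2) ψ| ≤
      ‖w‖ ^ 2 := by
  have hc : Continuous fun s => |cx (ev s) w| := by
    have : Continuous fun s => cx (ev s) w :=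
      continuous_iff_continuousAt.2 fun s => (node_hasDeriv w s).continuousAt
    exact this.abs
  by_cases h : f ψ < |cx (ev ψ) w|
  · have h1 : ∀ᶠ s in nhds ψ, f s < |cx (ev s) w| :=
      hf.continuousAt.eventually_lt hc.continuousAt h
    have h2 : (fun s => (min (f s) |cx (ev s) w|) ^ 2 / 2) =ᶠ[nhds ψ] fun s => f s ^ 2 / 2 := by
      filter_upwards [h1] with s hs
      rw [min_eq_left hs.le]
    rw [h2.deriv_eq, sub_self]
    positivity
  · push Not at h
    by_cases hd : DifferentiableAt ℝ (fun s => (min (f s) |cx (ev s) w|) ^ 2 / 2) ψ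
    · have hG : HasDerivAt (fun s => (cx (ev s) w) ^ 2 / 2) (-(cx (ev ψ) w * dt (ev ψ) w)) ψ := by
        have h3 := ((node_hasDeriv w ψ).fun_pow 2).div_const 2
        refine h3.congr_deriv ?_
        norm_num
        ring
      have hmin : IsLocalMin (fun s => (cx (ev s) w) ^ 2 / 2 -
          (min (f s) |cx (ev s) w|) ^ 2 / 2) ψ := by
        refine Filter.Eventually.of_forall fun s => ?_
        have e1 : (min (f ψ) |cx (ev ψ) w|) ^ 2 = (cx (ev ψ) w) ^ 2 := by
          rw [min_eq_right h, sq_abs]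
        have e2 : (min (f s) |cx (ev s) w|) ^ 2 ≤ (cx (ev s) w) ^ 2 := by
          rw [← sq_abs (cx (ev s) w)]
          exact pow_le_pow_left₀ (le_min (hf0 s) (abs_nonneg _)) (min_le_right _ _) 2
        show (cx (ev ψ) w) ^ 2 / 2 - (min (f ψ) |cx (ev ψ) w|) ^ 2 / 2 ≤
          (cx (ev s) w) ^ 2 / 2 - (min (f s) |cx (ev s) w|) ^ 2 / 2
        rw [e1]; linarith
      have hz := hmin.hasDerivAt_eq_zero (hG.sub hd.hasDerivAt)
      have he : deriv (fun s => (min (f s) |cx (ev s) w|) ^ 2 / 2) ψ =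
          -(cx (ev ψ) w * dt (ev ψ) w) := by linarith
      rw [he, abs_neg]
      have := node_prod w ψ
      have h5 := abs_nonneg (deriv (fun s => f s ^ 2 / 2) ψ)
      linarith
    · rw [deriv_zero_of_not_differentiableAt hd, abs_zero]
      have h5 := abs_nonneg (deriv (fun s => f s ^ 2 / 2) ψ)
      have : (0 : ℝ) ≤ ‖w‖ ^ 2 := by positivity
      linarith

/-- a polar angle near a given number -/
private theorem node_angle (w : ℂ) (m : ℝ) : ∃ θ : ℝ, |m - θ| ≤ Real.pi ∧
    w.re = ‖w‖ * Real.cos θ ∧ w.im = ‖w‖ * Real.sin θ := by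
  set u : ℝ := (m - w.arg) / (2 * Real.pi) with hu
  have hpi := Real.pi_pos
  refine ⟨w.arg + (round u : ℤ) * (2 * Real.pi), ?_, ?_, ?_⟩
  · have h1 := abs_sub_round u
    have h2 : m - (w.arg + (round u : ℤ) * (2 * Real.pi)) = (u - round u) * (2 * Real.pi) := by
      rw [hu]; field_simp; ring
    rw [h2, abs_mul, abs_of_pos (by linarith : (0 : ℝ) < 2 * Real.pi)]
    nlinarith
  · rw [Real.cos_add_int_mul_two_pi, Complex.norm_mul_cos_arg]
  · rw [Real.sin_add_int_mul_two_pi, Complex.norm_mul_sin_arg]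

theorem f_NODE (h1 : Sa_CLV) (h2 : Sa_CLS) (h3 : Sf_LIP) (h4 : Sf_OML) (h5 : Sf_FAR)
    (h6 : Sf_ONE) (h7 : Sf_TWO) : Sf_NODE := by
  intro S D₀ hD r x hx js j α β M hM hαβ hβα hrun hα hβ
  have hD1 : 1 ≤ D₀ := hD.1
  have hF := fun (ψ : ℝ) (h : ψ ∈ Ioo α β) => h5 S D₀ hD r x hx js j ψ (hrun ψ h.1 h.2)
  obtain ⟨Kf, hKf⟩ := (h3 S (Pl.home S r) js).1 x
  have hKf' : LipschitzWith Kf (ee S r x js) := hKf
  have hfc : Continuous (ee S r x js) := hKf'.continuous
  have hf0 : ∀ ψ, 0 ≤ ee S r x js ψ := fun ψ => (h1 S js (Pl.home S r) x (ev ψ)).2.2.1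
  have hle : ∀ ψ, ee S r x (js ++ [j]) ψ ≤ ee S r x js ψ := by
    intro ψ
    show clr (Pl.home S r) (js ++ [j]) x (ev ψ) ≤ clr (Pl.home S r) js x (ev ψ)
    rw [h2]; exact min_le_left _ _
  obtain ⟨⟨Kw, hKw⟩, htc, hOM⟩ := h4 S D₀ hD r x hx js j α β M hαβ hrun
  have hw0 : ∀ ψ, 0 ≤ om S r x M (js ++ [j]) ψ := fun ψ => le_max_left _ _
  set p : ℂ := apx S r (js ++ [j]) with hp
  have hee : ∀ ψ ∈ Ioo α β, ee S r x (js ++ [j]) ψ =
      min (ee S r x js ψ) |cx (ev ψ) (p - x)| := fun ψ h => (hF ψ h).2.2.2.2.2.2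
  have hdl : (js ++ [j]).dropLast = js := by simp
  have hbb : ∀ ψ ∈ Ioo α β, bb S r x (js ++ [j]) ψ =
      |deriv (fun s => (min (ee S r x js s) |cx (ev s) (p - x)|) ^ 2 / 2) ψ| := by
    intro ψ h
    unfold bb
    congr 1
    apply Filter.EventuallyEq.deriv_eq
    filter_upwards [Ioo_mem_nhds h.1 h.2] with s hs
    rw [hee s hs]
  by_cases hfar : Far S r x D₀ (js ++ [j])
  · -- far
    have hRR0 : ∀ ψ, RR S r x D₀ M (js ++ [j]) ψ =
        ‖p - x‖ * (ee S r x js ψ - ee S r x (js ++ [j]) ψ) * om S r x M (js ++ [j]) ψ +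
        9 * D₀ * ‖p - x‖ * (ee S r x js ψ - ee S r x (js ++ [j]) ψ) *
          (if tm S r x (ev ψ) (js ++ [j]) ≤ M + D₀ then 1 else 0) := by
      intro ψ
      simp only [RR, hfar, if_true, hdl, ← hp]
    by_cases hM2 : ∀ ψ ∈ Ioo α β, M < tm S r x (ev ψ) (js ++ [j])
    · have hLL : ∫ ψ in α..β, LL S r x M (js ++ [j]) ψ = ∫ ψ in α..β, (0 : ℝ) := by
        refine node_congr_Ioo hαβ.le fun ψ h => ?_
        have h8 := hM2 ψ h
        have h9 : om S r x M (js ++ [j]) ψ = 0 := by
          unfold om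
          exact max_eq_left (by linarith)
        simp only [LL, h9, mul_zero]
      rw [hLL, intervalIntegral.integral_zero]
      refine intervalIntegral.integral_nonneg hαβ.le fun ψ _ => ?_
      rw [hRR0]
      have h8 : 0 ≤ ee S r x js ψ - ee S r x (js ++ [j]) ψ := sub_nonneg.2 (hle ψ)
      have h9 := hw0 ψ
      have h10 : 0 ≤ ‖p - x‖ := norm_nonneg _
      split_ifs
      · positivity
      · rw [mul_zero, add_zero]; positivity
    · push Not at hM2
      obtain ⟨ψ₀, hψ₀, htψ₀⟩ := hM2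
      have hind : ∀ ψ ∈ Ioo α β, tm S r x (ev ψ) (js ++ [j]) ≤ M + D₀ := by
        intro ψ h
        have h8 := (hF ψ h).2.2.2.2.2.1 ψ₀ (hrun ψ₀ hψ₀.1 hψ₀.2)
        have h9 := (abs_le.1 h8).2
        linarith
      have ht3 : ∀ ψ ∈ Ioo α β, 3 * D₀ < tm S r x (ev ψ) (js ++ [j]) := fun ψ h =>
        (hF ψ h).2.2.2.1 hfar
      set ρ : ℝ := ‖p - x‖ with hρ
      have htρ : ∀ ψ ∈ Ioo α β, tm S r x (ev ψ) (js ++ [j]) ≤ ρ + D₀ := by
        intro ψ h
        have h8 := (abs_le.1 (hF ψ h).2.1).1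
        linarith
      have hρpos : 0 < ρ := by
        have h8 := htρ ψ₀ hψ₀
        have h9 := ht3 ψ₀ hψ₀
        linarith
      obtain ⟨θ, hθ, hre, him⟩ := node_angle (p - x) ((α + β) / 2)
      rw [← hρ] at hre him
      have hcx : ∀ ψ, |cx (ev ψ) (p - x)| = ρ * |Real.sin (ψ - θ)| := by
        intro ψ
        have h8 : cx (ev ψ) (p - x) = -(ρ * Real.sin (ψ - θ)) := by
          simp only [cx, ev, hre, him, Real.sin_sub]; ring
        rw [h8, abs_neg, abs_mul, abs_of_pos hρpos]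
      have hdt : ∀ ψ, dt (ev ψ) (p - x) = ρ * Real.cos (ψ - θ) := by
        intro ψ
        simp only [dt, ev, hre, him, Real.cos_sub]; ring
      have hcosIoo : ∀ ψ ∈ Ioo α β, 2 * D₀ ≤ ρ * Real.cos (ψ - θ) := by
        intro ψ h
        have h8 := (hF ψ h).2.2.1
        have h9 := ht3 ψ h
        rw [hdt] at h8
        linarith
      have hcosIcc : ∀ ψ ∈ Icc α β, 2 * D₀ ≤ ρ * Real.cos (ψ - θ) := by
        intro ψ h
        have hcl : IsClosed {s : ℝ | 2 * D₀ ≤ ρ * Real.cos (s - θ)} :=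
          isClosed_le continuous_const
            (continuous_const.mul (Real.continuous_cos.comp (continuous_id.sub continuous_const)))
        have hsub : closure (Ioo α β) ⊆ {s : ℝ | 2 * D₀ ≤ ρ * Real.cos (s - θ)} :=
          closure_minimal (fun s hs => hcosIoo s hs) hcl
        rw [closure_Ioo hαβ.ne] at hsub
        exact hsub h
      have hhalf : ∀ ψ ∈ Icc α β, |ψ - θ| < Real.pi / 2 := by
        intro ψ h
        have hcos : 0 < Real.cos (ψ - θ) := by
          have h8 := hcosIcc ψ h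
          by_contra hneg
          push Not at hneg
          have : ρ * Real.cos (ψ - θ) ≤ 0 := mul_nonpos_of_nonneg_of_nonpos hρpos.le hneg
          linarith
        have h9 : |ψ - θ| ≤ Real.pi + Real.pi / 2 := by
          have h10 : ψ - θ = (ψ - (α + β) / 2) + ((α + β) / 2 - θ) := by ring
          have h11 : |ψ - (α + β) / 2| ≤ Real.pi / 2 := by
            rw [abs_le]; constructor <;> linarith [h.1, h.2]
          rw [h10]
          refine (abs_add_le _ _).trans ?_
          linarith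
        by_contra hge
        push Not at hge
        have h12 : Real.cos |ψ - θ| ≤ 0 :=
          Real.cos_nonpos_of_pi_div_two_le_of_le hge h9
        rw [Real.cos_abs] at h12
        linarith
      have hkap : ∀ ψ ∈ Ioo α β, DifferentiableAt ℝ (om S r x M (js ++ [j])) ψ →
          ee S r x js ψ * |deriv (om S r x M (js ++ [j])) ψ| ≤ D₀ * ρ := by
        intro ψ h hd
        have h8 := hOM ψ h hd
        have h9 := htρ ψ h
        have h10 := ht3 ψ h
        nlinarith
      have key : ∫ ψ in α..β,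
          (|deriv (fun s => (min (ee S r x js s) (ρ * |Real.sin (s - θ)|)) ^ 2 / 2) ψ| -
            |deriv (fun s => ee S r x js s ^ 2 / 2) ψ|) * om S r x M (js ++ [j]) ψ ≤
          ρ * (∫ ψ in α..β, (ee S r x js ψ - min (ee S r x js ψ) (ρ * |Real.sin (ψ - θ)|)) *
            om S r x M (js ++ [j]) ψ) +
          9 * D₀ * ρ * (∫ ψ in α..β,
            (ee S r x js ψ - min (ee S r x js ψ) (ρ * |Real.sin (ψ - θ)|))) := by
        have hαm := abs_lt.1 (hhalf α ⟨le_refl _, hαβ.le⟩)
        have hβm := abs_lt.1 (hhalf β ⟨hαβ.le, le_refl _⟩)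
        by_cases hin : α < θ ∧ θ < β
        · exact h6 (ee S r x js) (om S r x M (js ++ [j])) α β θ ρ D₀ hin.1 hin.2
            (by linarith [hαm.1]) (by linarith [hβm.2]) hρpos (by linarith)
            ⟨Kf, hKf'.lipschitzOnWith⟩ ⟨Kw, hKw⟩ (fun ψ _ => ⟨hf0 ψ, hw0 ψ⟩) hα hβ hkap
        · refine h7 (ee S r x js) (om S r x M (js ++ [j])) α β θ ρ D₀ hαβ ?_ hρpos (by linarith)
            ⟨Kf, hKf'.lipschitzOnWith⟩ ⟨Kw, hKw⟩ (fun ψ _ => ⟨hf0 ψ, hw0 ψ⟩) hα hβ hkap
          by_cases hθα : θ ≤ α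
          · exact Or.inl ⟨hθα, by linarith [hβm.2]⟩
          · push Not at hθα
            have : β ≤ θ := by
              by_contra hlt
              push Not at hlt
              exact hin ⟨hθα, hlt⟩
            exact Or.inr ⟨this, by linarith [hαm.1]⟩
      have hLL : ∫ ψ in α..β, LL S r x M (js ++ [j]) ψ = ∫ ψ in α..β,
          (|deriv (fun s => (min (ee S r x js s) (ρ * |Real.sin (s - θ)|)) ^ 2 / 2) ψ| -
            |deriv (fun s => ee S r x js s ^ 2 / 2) ψ|) * om S r x M (js ++ [j]) ψ := by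
        refine node_congr_Ioo hαβ.le fun ψ h => ?_
        have h8 := hbb ψ h
        simp only [hcx] at h8
        simp only [LL, hdl, h8]
        rfl
      have hg : Continuous fun ψ => ee S r x js ψ -
          min (ee S r x js ψ) (ρ * |Real.sin (ψ - θ)|) :=
        hfc.sub (hfc.min (continuous_const.mul
          ((Real.continuous_sin.comp (continuous_id.sub continuous_const)).abs)))
      have hRR : ∫ ψ in α..β, RR S r x D₀ M (js ++ [j]) ψ =
          ∫ ψ in α..β, (ρ * ((ee S r x js ψ - min (ee S r x js ψ) (ρ * |Real.sin (ψ - θ)|)) *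
            om S r x M (js ++ [j]) ψ) +
          9 * D₀ * ρ * (ee S r x js ψ - min (ee S r x js ψ) (ρ * |Real.sin (ψ - θ)|))) := by
        refine node_congr_Ioo hαβ.le fun ψ h => ?_
        rw [hRR0, hee ψ h, if_pos (hind ψ h), hcx]
        ring
      rw [hLL, hRR, intervalIntegral.integral_add, intervalIntegral.integral_const_mul,
        intervalIntegral.integral_const_mul]
      · exact key
      · apply ContinuousOn.intervalIntegrable
        rw [uIcc_of_le hαβ.le]
        exact continuousOn_const.mul (hg.continuousOn.mul hKw.continuousOn)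
      · exact (continuous_const.mul hg).intervalIntegrable _ _
  · -- not far
    have hRR0 : ∀ ψ, RR S r x D₀ M (js ++ [j]) ψ = M * (6 * D₀) ^ 2 := by
      intro ψ
      simp only [RR, hfar, if_false]
    simp only [hRR0]
    by_cases hint : IntervalIntegrable (LL S r x M (js ++ [j])) volume α β
    · refine intervalIntegral.integral_mono_on_of_le_Ioo hαβ.le hint
        intervalIntegrable_const fun ψ h => ?_
      have h8 := node_pt (ee S r x js) (p - x) ψ hfc hf0
      rw [← hbb ψ h] at h8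
      have h9 : ‖p - x‖ ≤ 6 * D₀ := by
        have h10 := (abs_le.1 (hF ψ h).2.1).2
        have h11 := (hF ψ h).2.2.2.2.1 hfar
        linarith
      have h12 : ‖p - x‖ ^ 2 ≤ (6 * D₀) ^ 2 := pow_le_pow_left₀ (norm_nonneg _) h9 2
      have h13 : om S r x M (js ++ [j]) ψ ≤ M := by
        unfold om
        have h14 := (hF ψ h).1
        exact max_le hM (by linarith)
      have h15 : bb S r x (js ++ [j]) ψ - bb S r x js ψ ≤ (6 * D₀) ^ 2 := by
        have : bb S r x js ψ = |deriv (fun s => ee S r x js s ^ 2 / 2) ψ| := rfl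
        rw [this]
        linarith
      show (bb S r x (js ++ [j]) ψ - bb S r x (js ++ [j]).dropLast ψ) *
        om S r x M (js ++ [j]) ψ ≤ M * (6 * D₀) ^ 2
      rw [hdl]
      calc (bb S r x (js ++ [j]) ψ - bb S r x js ψ) * om S r x M (js ++ [j]) ψ
          ≤ (6 * D₀) ^ 2 * om S r x M (js ++ [j]) ψ :=
            mul_le_mul_of_nonneg_right h15 (hw0 ψ)
        _ ≤ (6 * D₀) ^ 2 * M := mul_le_mul_of_nonneg_left h13 (by positivity)
        _ = M * (6 * D₀) ^ 2 := by ring
    · rw [intervalIntegral.integral_undef hint]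
      refine intervalIntegral.integral_nonneg hαβ.le fun ψ _ => ?_
      positivity

end Pool.Agent.FAN
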