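import Pool.Agent.FAN.StF

/-!
# FAN, block 3, module OML: the weight is Lipschitz on a closed arc
-/

set_option autoImplicit false

open scoped ComplexConjugate
open MeasureTheory Set

namespace Pool.Agent.FAN

namespace OML

theorem cx_sub_r (p q r : ℂ) : cx p (q - r) = cx p q - cx p r := by
  simp only [cx, Complex.sub_re, Complex.sub_im]
  ring

theorem cx_ev (w : ℂ) (s : ℝ) : cx (ev s) w = Real.cos s * w.im - Real.sin s * w.re := rfl

theorem cont_cx (w : ℂ) : Continuous fun s => cx (ev s) w := by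
  simp only [cx_ev]
  fun_prop

theorem lip_cx (w : ℂ) (a b : ℝ) :
    |cx (ev a) w - cx (ev b) w| ≤ (|w.im| + |w.re|) * |a - b| := by
  rw [cx_ev, cx_ev]
  have h1 := Real.abs_cos_sub_cos_le a b
  have h2 := Real.abs_sin_sub_sin_le a b
  calc |Real.cos a * w.im - Real.sin a * w.re - (Real.cos b * w.im - Real.sin b * w.re)|
      = |(Real.cos a - Real.cos b) * w.im - (Real.sin a - Real.sin b) * w.re| := by
        congr 1
        ring
    _ ≤ |(Real.cos a - Real.cos b) * w.im| + |(Real.sin a - Real.sin b) * w.re| := abs_sub _ _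
    _ = |Real.cos a - Real.cos b| * |w.im| + |Real.sin a - Real.sin b| * |w.re| := by
        rw [abs_mul, abs_mul]
    _ ≤ |a - b| * |w.im| + |a - b| * |w.re| := by
        gcongr
    _ = (|w.im| + |w.re|) * |a - b| := by ring

/-- weak inequalities on the closed arc -/
theorem closed {g : ℝ → ℝ} (hg : Continuous g) {α β : ℝ} (hab : α < β)
    (h : ∀ ψ, α < ψ → ψ < β → 0 < g ψ) {ψ : ℝ} (hψ : ψ ∈ Icc α β) : 0 ≤ g ψ := by
  have h1 : closure (Ioo α β) ⊆ {s | 0 ≤ g s} :=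
    closure_minimal (fun s hs => (h s hs.1 hs.2).le) (isClosed_le continuous_const hg)
  rw [closure_Ioo hab.ne] at h1
  exact h1 hψ

/-- the vertices `L`, `R` on the two sides of all the lines, no degenerate direction on the closed arc -/
theorem ne_zero {l r : ℂ} {α β : ℝ} (hab : α < β)
    (h1 : ∀ ψ, α < ψ → ψ < β → 0 < cx (ev ψ) l) (h2 : ∀ ψ, α < ψ → ψ < β → cx (ev ψ) r < 0)
    (hN : cx l r ≠ 0) {ψ : ℝ} (hψ : ψ ∈ Icc α β) : cx (ev ψ) (r - l) ≠ 0 := by
  have k1 : 0 ≤ cx (ev ψ) l := closed (cont_cx l) hab h1 hψ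
  have k2 : 0 ≤ -cx (ev ψ) r := closed (g := fun s => -cx (ev s) r) (cont_cx r).neg hab
    (fun s hs hs' => neg_pos.2 (h2 s hs hs')) hψ
  rw [cx_sub_r]
  intro h0
  have e1 : cx (ev ψ) l = 0 := by linarith
  have e2 : cx (ev ψ) r = 0 := by linarith
  apply hN
  rw [cx_ev] at e1 e2
  have h3 := Real.sin_sq_add_cos_sq ψ
  simp only [cx]
  linear_combination (-(l.re * r.im - l.im * r.re)) * h3 +
    (Real.cos ψ * l.re + Real.sin ψ * l.im) * e2 - (Real.cos ψ * r.re + Real.sin ψ * r.im) * e1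

/-- a quotient is Lipschitz -/
theorem lip_div {g : ℝ → ℝ} {α β C N : ℝ} (hC : 0 ≤ C) (hg : Continuous g)
    (hl : ∀ a b, |g a - g b| ≤ C * |a - b|) (h0 : ∀ ψ ∈ Icc α β, g ψ ≠ 0) :
    ∃ K : NNReal, LipschitzOnWith K (fun ψ => N / g ψ) (Icc α β) := by
  rcases (Icc α β).eq_empty_or_nonempty with he | hne
  · exact ⟨0, by rw [he]; exact lipschitzOnWith_empty _ _⟩
  obtain ⟨c, hc, hmin⟩ := isCompact_Icc.exists_isMinOn hne (hg.abs.continuousOn (s := Icc α β))
  set m := |g c| with hm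
  have hm0 : 0 < m := abs_pos.2 (h0 c hc)
  refine ⟨⟨|N| * C / m ^ 2, by positivity⟩, LipschitzOnWith.of_dist_le_mul fun a ha b hb => ?_⟩
  have ga := h0 a ha
  have gb := h0 b hb
  have ma : m ≤ |g a| := hmin ha
  have mb : m ≤ |g b| := hmin hb
  rw [Real.dist_eq, Real.dist_eq]
  have e : N / g a - N / g b = N * (g b - g a) / (g a * g b) := by
    field_simp
  rw [e, abs_div, abs_mul, abs_mul]
  show |N| * |g b - g a| / (|g a| * |g b|) ≤ |N| * C / m ^ 2 * |a - b|
  have h3 : |g b - g a| ≤ C * |a - b| := by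
    rw [abs_sub_comm]
    exact hl a b
  calc |N| * |g b - g a| / (|g a| * |g b|) ≤ |N| * (C * |a - b|) / (m * m) := by
        gcongr
    _ = |N| * C / m ^ 2 * |a - b| := by ring

/-- the positive part: `|w'| ≤ |t'|` -/
theorem deriv_pos_part {t : ℝ → ℝ} {M ψ : ℝ} (ht : DifferentiableAt ℝ t ψ) :
    |deriv (fun s => max 0 (M - t s)) ψ| ≤ |deriv t ψ| := by
  rcases lt_trichotomy (M - t ψ) 0 with h | h | h
  · have h1 : (fun s => max 0 (M - t s)) =ᶠ[nhds ψ] fun _ => (0 : ℝ) := by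
      have h2 : ∀ᶠ s in nhds ψ, M - t s < 0 :=
        (continuousAt_const.sub ht.continuousAt).eventually (gt_mem_nhds h)
      filter_upwards [h2] with s hs
      exact max_eq_left hs.le
    rw [h1.deriv_eq]
    simp
  · have h1 : IsLocalMin (fun s => max 0 (M - t s)) ψ := by
      refine Filter.Eventually.of_forall fun s => ?_
      show max 0 (M - t ψ) ≤ max 0 (M - t s)
      rw [h, max_self]
      exact le_max_left _ _
    rw [h1.deriv_eq_zero]
    simp
  · have h1 : (fun s => max 0 (M - t s)) =ᶠ[nhds ψ] fun s => M - t s := by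
      have h2 : ∀ᶠ s in nhds ψ, 0 < M - t s :=
        (continuousAt_const.sub ht.continuousAt).eventually (lt_mem_nhds h)
      filter_upwards [h2] with s hs
      exact max_eq_right hs.le
    rw [h1.deriv_eq, deriv_const_sub, abs_neg]

end OML

open OML in
theorem f_OML (h1 : Sa_GLU) (h2 : Sa_EXU) (h3 : Sa_CTS) (h4 : Sa_ENT) (h5 : Sa_CLV)
    (h6 : Sf_CRT) : Sf_OML := by
  intro S D₀ hD r x hx js j α β M hab hrun
  obtain ⟨-, -, -, -, -, -, -, hcat⟩ := h2 S
  obtain ⟨-, -, -, hpos⟩ := h3 S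
  set q' : Pl S := endP (Pl.home S r) js with hq'
  have hne : js ++ [j] ≠ [] := by simp
  have hend : endP (Pl.home S r) (js ++ [j]) = q'.nx j := by
    rw [(hcat js [j] (Pl.home S r) 0 0 0).2.1]
    rfl
  have heI : eI (Pl.home S r) 0 (js ++ [j]) = q'.en j := by
    rw [(hcat js [j] (Pl.home S r) 0 0 0).2.2.1]
    rfl
  obtain ⟨g1, g2, -, -⟩ := h1 S q' j
  set L : ℂ := q'.V (j + 2) with hL
  set R : ℂ := q'.V (j + 1) with hR
  have htm : ∀ v : ℂ, tm S r x v (js ++ [j]) = cx (L - x) (R - x) / cx v (R - L) := by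
    intro v
    rw [tm, if_neg hne, hend, heI, Pl.ct, g1, g2]
  have hen : ∀ ψ, α < ψ → ψ < β → 0 < cx (ev ψ) (L - x) ∧ cx (ev ψ) (R - x) < 0 := by
    intro ψ ha hb
    obtain ⟨h7, -, -, -⟩ := h4 S (js ++ [j]) (Pl.home S r) x (ev ψ) 0 hne (hrun ψ ha hb)
    rw [hend, heI] at h7
    obtain ⟨h8, h9⟩ := h7
    rw [g1] at h8
    rw [g2] at h9
    exact ⟨h8, h9⟩
  have htpos : ∀ ψ, α < ψ → ψ < β → 0 < tm S r x (ev ψ) (js ++ [j]) := by
    intro ψ ha hb
    obtain ⟨-, -, h9, -⟩ := h4 S (js ++ [j]) (Pl.home S r) x (ev ψ) 0 hne (hrun ψ ha hb)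
    have := hpos (js ++ [j]) (Pl.home S r) x (ev ψ) hx (hrun ψ ha hb) _ h9
    rwa [tm, if_neg hne]
  have hN : cx (L - x) (R - x) ≠ 0 := by
    intro h0
    have h7 := htpos ((α + β) / 2) (by linarith) (by linarith)
    rw [htm, h0, zero_div] at h7
    exact lt_irrefl _ h7
  have hRL : R - L = (R - x) - (L - x) := by ring
  have h0 : ∀ ψ ∈ Icc α β, cx (ev ψ) (R - L) ≠ 0 := by
    intro ψ hψ
    rw [hRL]
    exact ne_zero hab (fun s hs hs' => (hen s hs hs').1) (fun s hs hs' => (hen s hs hs').2) hN hψ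
  obtain ⟨K, hK⟩ := lip_div (N := cx (L - x) (R - x)) (by positivity) (cont_cx (R - L))
    (lip_cx (R - L)) h0
  have htmf : (fun ψ => tm S r x (ev ψ) (js ++ [j])) =
      fun ψ => cx (L - x) (R - x) / cx (ev ψ) (R - L) := by
    funext ψ
    exact htm _
  have hom : om S r x M (js ++ [j]) =
      fun ψ => max 0 (M - cx (L - x) (R - x) / cx (ev ψ) (R - L)) := by
    funext ψ
    rw [om, htm]
  refine ⟨⟨K, ?_⟩, ?_, ?_⟩
  · rw [hom]
    refine LipschitzOnWith.of_dist_le_mul fun a ha b hb => ?_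
    refine le_trans ?_ (hK.dist_le_mul a ha b hb)
    rw [Real.dist_eq, Real.dist_eq]
    refine le_trans (abs_max_sub_max_le_max _ _ _ _) ?_
    rw [sub_self, abs_zero]
    refine max_le (abs_nonneg _) (le_of_eq ?_)
    rw [← abs_neg]
    congr 1
    ring
  · rw [htmf]
    exact hK.continuousOn
  · intro ψ hψ _
    obtain ⟨h7, h8⟩ := hen ψ hψ.1 hψ.2
    obtain ⟨c1, -, c3, -, c5⟩ := h5 S js (Pl.home S r) x (ev ψ)
    have hf0 : 0 ≤ ee S r x js ψ := c3
    obtain ⟨d1, d2⟩ := h6 L R x ψ (ee S r x js ψ) h7 h8 hf0 (c1 _ (c5 (j + 2))) (c1 _ (c5 (j + 1)))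
    have hd := deriv_pos_part (M := M) d1
    rw [hom]
    have htp := htpos ψ hψ.1 hψ.2
    rw [htm] at htp ⊢
    rw [abs_of_pos htp] at d2
    have hRLn : ‖R - L‖ ≤ D₀ := hD.2.1 q' (j + 1) (j + 2)
    calc 2 * (ee S r x js ψ *
          |deriv (fun ψ => max 0 (M - cx (L - x) (R - x) / cx (ev ψ) (R - L))) ψ|)
        ≤ 2 * (ee S r x js ψ *
          |deriv (fun s => cx (L - x) (R - x) / cx (ev s) (R - L)) ψ|) := by
          gcongr
      _ ≤ cx (L - x) (R - x) / cx (ev ψ) (R - L) * ‖R - L‖ := d2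
      _ ≤ cx (L - x) (R - x) / cx (ev ψ) (R - L) * D₀ := by
          gcongr

end Pool.Agent.FAN
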