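import Pool.Agent.FAN.StF

/-!
# FAN, block 3, module ONA (helper83): the one sided inequality
-/

set_option autoImplicit false

open scoped ComplexConjugate
open MeasureTheory Set

namespace Pool.Agent.FAN

namespace ONA

lemma mono_Ioo {φ χ : ℝ → ℝ} {a b : ℝ} (hab : a ≤ b) (h1 : IntervalIntegrable φ volume a b)
    (h2 : IntervalIntegrable χ volume a b) (h : ∀ᵐ x, x ∈ Ioo a b → φ x ≤ χ x) :
    ∫ x in a..b, φ x ≤ ∫ x in a..b, χ x := by
  apply intervalIntegral.integral_mono_ae_restrict hab h1 h2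
  rw [Filter.EventuallyLE, ae_restrict_iff' measurableSet_Icc]
  have ha : ∀ᵐ x : ℝ, x ≠ a := by
    rw [ae_iff]
    simp
  have hb : ∀ᵐ x : ℝ, x ≠ b := by
    rw [ae_iff]
    simp
  filter_upwards [h, ha, hb] with x hx hxa hxb hxI
  exact hx ⟨lt_of_le_of_ne hxI.1 (Ne.symm hxa), lt_of_le_of_ne hxI.2 hxb⟩

lemma ac_sq {f : ℝ → ℝ} {a b : ℝ} (hf : AbsolutelyContinuousOnInterval f a b) :
    AbsolutelyContinuousOnInterval (fun s => f s ^ 2 / 2) a b := by
  have h1 := (hf.fun_mul hf).const_mul (1 / 2)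
  have h2 : (fun s => f s ^ 2 / 2) = fun x => 1 / 2 * (f x * f x) := by
    funext s
    ring
  rw [h2]
  exact h1

/-- the common part of the two claims -/
lemma core (f w g d : ℝ → ℝ) (a b κ ρ σ : ℝ) (hab : a ≤ b) (hσ : |σ| = 1)
    (hfL : ∃ K, LipschitzOnWith K f (Icc a b)) (hwL : ∃ K, LipschitzOnWith K w (Icc a b))
    (hgL : ∃ K, LipschitzWith K g)
    (h0 : ∀ ψ ∈ Icc a b, 0 ≤ f ψ ∧ 0 ≤ w ψ) (hg0 : ∀ ψ, 0 ≤ g ψ)
    (hk : ∀ ψ ∈ Ioo a b, DifferentiableAt ℝ w ψ → f ψ * |deriv w ψ| ≤ κ * ρ)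
    (hd : ∀ ψ ∈ Ioo a b, HasDerivAt (fun s => g s ^ 2 / 2) (d ψ) ψ)
    (hds : ∀ ψ ∈ Ioo a b, |d ψ| = -(σ * d ψ)) :
    ∫ ψ in a..b, (|deriv (fun s => (min (f s) (g s)) ^ 2 / 2) ψ| -
      |deriv (fun s => f s ^ 2 / 2) ψ|) * w ψ ≤
    σ * ((f b ^ 2 / 2 - (min (f b) (g b)) ^ 2 / 2) * w b -
      (f a ^ 2 / 2 - (min (f a) (g a)) ^ 2 / 2) * w a) +
    κ * ρ * (∫ ψ in a..b, (f ψ - min (f ψ) (g ψ))) := by
  obtain ⟨K1, hf⟩ := hfL
  obtain ⟨K2, hw⟩ := hwL
  obtain ⟨K3, hg⟩ := hgL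
  have hI : uIcc a b = Icc a b := uIcc_of_le hab
  have fac : AbsolutelyContinuousOnInterval f a b := by
    rw [← hI] at hf
    exact hf.absolutelyContinuousOnInterval
  have wac : AbsolutelyContinuousOnInterval w a b := by
    rw [← hI] at hw
    exact hw.absolutelyContinuousOnInterval
  have mac : AbsolutelyContinuousOnInterval (fun s => min (f s) (g s)) a b := by
    have h1 := lipschitzWith_min.comp_lipschitzOnWith
      (hf.prodMk (hg.lipschitzOnWith (s := Icc a b)))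
    rw [← hI] at h1
    exact h1.absolutelyContinuousOnInterval
  have Fac := ac_sq fac
  have F1ac := ac_sq mac
  have Hac := Fac.fun_sub F1ac
  set F : ℝ → ℝ := fun s => f s ^ 2 / 2 with hF
  set F1 : ℝ → ℝ := fun s => (min (f s) (g s)) ^ 2 / 2 with hF1
  -- pointwise facts
  have hHnn : ∀ ψ ∈ Icc a b, 0 ≤ F ψ - F1 ψ := by
    intro ψ hψ
    have h1 := (h0 ψ hψ).1
    have h2 : 0 ≤ min (f ψ) (g ψ) := le_min h1 (hg0 ψ)
    have h3 : min (f ψ) (g ψ) ≤ f ψ := min_le_left _ _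
    simp only [hF, hF1]
    nlinarith
  have hHle : ∀ ψ ∈ Icc a b, F ψ - F1 ψ ≤ (f ψ - min (f ψ) (g ψ)) * f ψ := by
    intro ψ hψ
    have h1 := (h0 ψ hψ).1
    have h3 : min (f ψ) (g ψ) ≤ f ψ := min_le_left _ _
    simp only [hF, hF1]
    nlinarith [mul_nonneg (sub_nonneg.2 h3) (sub_nonneg.2 h3)]
  have key : ∀ᵐ ψ, ψ ∈ Ioo a b → (|deriv F1 ψ| - |deriv F ψ|) * w ψ ≤
      σ * (deriv (fun s => F s - F1 s) ψ * w ψ) := by
    filter_upwards [Fac.ae_differentiableAt, F1ac.ae_differentiableAt] with ψ h1 h2 hψ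
    have hψI : ψ ∈ Icc a b := Ioo_subset_Icc_self hψ
    have h3 := h1 (by rw [hI]; exact hψI)
    have h4 := h2 (by rw [hI]; exact hψI)
    have hw0 := (h0 ψ hψI).2
    have h5 : deriv (fun s => F s - F1 s) ψ = deriv F ψ - deriv F1 ψ := deriv_fun_sub h3 h4
    have hnhds : Icc a b ∈ nhds ψ := Icc_mem_nhds hψ.1 hψ.2
    have hcf : ContinuousAt f ψ := hf.continuousOn.continuousAt hnhds
    have hcg : ContinuousAt g ψ := hg.continuous.continuousAt
    rcases lt_or_ge (g ψ) (f ψ) with hlt | hge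
    · have h6 : F1 =ᶠ[nhds ψ] fun s => g s ^ 2 / 2 := by
        filter_upwards [hcg.eventually_lt hcf hlt] with s hs
        simp only [hF1]
        rw [min_eq_right hs.le]
      have h7 : deriv F1 ψ = d ψ := by
        rw [h6.deriv_eq]
        exact (hd ψ hψ).deriv
      rw [h5, h7, hds ψ hψ]
      have h8 : -|deriv F ψ| ≤ σ * deriv F ψ := by
        have := neg_abs_le (σ * deriv F ψ)
        rwa [abs_mul, hσ, one_mul] at this
      nlinarith [mul_le_mul_of_nonneg_right h8 hw0]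
    · have h6 : IsLocalMin (fun s => F s - F1 s) ψ := by
        filter_upwards [hnhds] with s hs
        have h7 : F ψ - F1 ψ = 0 := by
          simp only [hF, hF1]
          rw [min_eq_left hge]
          ring
        rw [h7]
        exact hHnn s hs
      have h7 := h6.deriv_eq_zero
      rw [h7]
      rw [h5] at h7
      have h8 : deriv F1 ψ = deriv F ψ := by linarith
      rw [h8]
      simp
  have i1 : IntervalIntegrable (fun ψ => (|deriv F1 ψ| - |deriv F ψ|) * w ψ) volume a b :=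
    (F1ac.intervalIntegrable_deriv.abs.sub Fac.intervalIntegrable_deriv.abs).mul_continuousOn
      wac.continuousOn
  have i2 : IntervalIntegrable (fun ψ => deriv (fun s => F s - F1 s) ψ * w ψ) volume a b :=
    Hac.intervalIntegrable_deriv.mul_continuousOn wac.continuousOn
  have i3 : IntervalIntegrable (fun ψ => (F ψ - F1 ψ) * deriv w ψ) volume a b :=
    wac.intervalIntegrable_deriv.continuousOn_mul Hac.continuousOn
  have i4 : IntervalIntegrable (fun ψ => f ψ - min (f ψ) (g ψ)) volume a b :=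
    (fac.continuousOn.sub mac.continuousOn).intervalIntegrable
  have s1 := mono_Ioo hab i1 (i2.const_mul σ) key
  rw [intervalIntegral.integral_const_mul] at s1
  have s2 := Hac.integral_mul_deriv_eq_deriv_mul wac
  have s3 : ∫ ψ in a..b, -σ * ((F ψ - F1 ψ) * deriv w ψ) ≤
      ∫ ψ in a..b, κ * ρ * (f ψ - min (f ψ) (g ψ)) := by
    apply mono_Ioo hab (i3.const_mul _) (i4.const_mul _)
    filter_upwards [wac.ae_differentiableAt] with ψ h1 hψ
    have hψI : ψ ∈ Icc a b := Ioo_subset_Icc_self hψ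
    have h2 := hk ψ hψ (h1 (by rw [hI]; exact hψI))
    have h3 := hHnn ψ hψI
    have h4 := hHle ψ hψI
    have h5 : 0 ≤ f ψ - min (f ψ) (g ψ) := sub_nonneg.2 (min_le_left _ _)
    have h6 : -σ * ((F ψ - F1 ψ) * deriv w ψ) ≤ (F ψ - F1 ψ) * |deriv w ψ| := by
      have h7 := le_abs_self (-σ * ((F ψ - F1 ψ) * deriv w ψ))
      rwa [abs_mul, abs_neg, hσ, one_mul, abs_mul, abs_of_nonneg h3] at h7
    calc -σ * ((F ψ - F1 ψ) * deriv w ψ) ≤ (F ψ - F1 ψ) * |deriv w ψ| := h6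
      _ ≤ (f ψ - min (f ψ) (g ψ)) * f ψ * |deriv w ψ| :=
        mul_le_mul_of_nonneg_right h4 (abs_nonneg _)
      _ = (f ψ - min (f ψ) (g ψ)) * (f ψ * |deriv w ψ|) := by ring
      _ ≤ (f ψ - min (f ψ) (g ψ)) * (κ * ρ) := mul_le_mul_of_nonneg_left h2 h5
      _ = κ * ρ * (f ψ - min (f ψ) (g ψ)) := by ring
  rw [intervalIntegral.integral_const_mul, intervalIntegral.integral_const_mul] at s3
  have s4 : ∫ ψ in a..b, deriv (fun s => F s - F1 s) ψ * w ψ =
      (F b - F1 b) * w b - (F a - F1 a) * w a - ∫ ψ in a..b, (F ψ - F1 ψ) * deriv w ψ := by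
    have s5 : ∫ ψ in a..b, (F ψ - F1 ψ) * deriv w ψ =
      (F b - F1 b) * w b - (F a - F1 a) * w a -
        ∫ ψ in a..b, deriv (fun s => F s - F1 s) ψ * w ψ := s2
    linarith
  rw [s4] at s1
  refine s1.trans ?_
  have e1 : σ * ((F b - F1 b) * w b - (F a - F1 a) * w a -
      ∫ ψ in a..b, (F ψ - F1 ψ) * deriv w ψ) =
      σ * ((F b - F1 b) * w b - (F a - F1 a) * w a) +
      -σ * ∫ ψ in a..b, (F ψ - F1 ψ) * deriv w ψ := by ring
  rw [e1]
  exact add_le_add_right s3 _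

lemma lip_g (θ ρ : ℝ) : ∃ K, LipschitzWith K (fun s => ρ * |Real.sin (s - θ)|) := by
  refine ⟨Real.toNNReal |ρ|, LipschitzWith.of_dist_le_mul ?_⟩
  intro x y
  rw [Real.coe_toNNReal _ (abs_nonneg _), Real.dist_eq, ← mul_sub, abs_mul]
  apply mul_le_mul_of_nonneg_left _ (abs_nonneg _)
  have h1 : |(|Real.sin (x - θ)| - |Real.sin (y - θ)|)| ≤ |Real.sin (x - θ) - Real.sin (y - θ)| :=
    abs_abs_sub_abs_le_abs_sub _ _
  have h2 := Real.lipschitzWith_sin.dist_le_mul (x - θ) (y - θ)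
  rw [NNReal.coe_one, one_mul, Real.dist_eq, Real.dist_eq] at h2
  rw [Real.dist_eq]
  refine h1.trans (h2.trans (le_of_eq ?_))
  congr 1
  ring

lemma der_g (θ ρ ψ : ℝ) : HasDerivAt (fun s => (ρ * |Real.sin (s - θ)|) ^ 2 / 2)
    (ρ ^ 2 * (Real.sin (ψ - θ) * Real.cos (ψ - θ))) ψ := by
  have h1 : (fun s => (ρ * |Real.sin (s - θ)|) ^ 2 / 2) =
      fun s => ρ ^ 2 / 2 * Real.sin (s - θ) ^ 2 := by
    funext s
    rw [mul_pow, sq_abs]
    ring
  rw [h1]
  have h2 : HasDerivAt (fun s => Real.sin (s - θ)) (Real.cos (ψ - θ)) ψ := by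
    have h3 := (Real.hasDerivAt_sin (ψ - θ)).comp ψ ((hasDerivAt_id ψ).sub_const θ)
    rw [mul_one] at h3
    exact h3
  have h4 := (h2.fun_pow 2).const_mul (ρ ^ 2 / 2)
  have h5 : ρ ^ 2 / 2 * (((2 : ℕ) : ℝ) * Real.sin (ψ - θ) ^ (2 - 1) * Real.cos (ψ - θ)) =
      ρ ^ 2 * (Real.sin (ψ - θ) * Real.cos (ψ - θ)) := by
    norm_num
    ring
  rw [← h5]
  exact h4

end ONA

open ONA in
theorem f_ONA : Sf_ONA := by
  intro f w a b θ ρ κ hab hρ hκ hfL hwL h0 hk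
  refine ⟨fun hb ha => ?_, fun ha hb => ?_⟩
  · have h := core f w (fun s => ρ * |Real.sin (s - θ)|)
      (fun ψ => ρ ^ 2 * (Real.sin (ψ - θ) * Real.cos (ψ - θ))) a b κ ρ 1 hab (by simp) hfL hwL
      (lip_g θ ρ) h0 (fun ψ => by positivity) hk (fun ψ _ => der_g θ ρ ψ) ?_
    · refine h.trans (le_of_eq ?_)
      ring
    · intro ψ hψ
      have h1 : Real.sin (ψ - θ) ≤ 0 :=
        Real.sin_nonpos_of_nonpos_of_neg_pi_le (by linarith [hψ.2]) (by
          linarith [hψ.1, Real.pi_pos])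
      have h2 : 0 ≤ Real.cos (ψ - θ) :=
        Real.cos_nonneg_of_mem_Icc ⟨by linarith [hψ.1], by linarith [hψ.2, Real.pi_pos]⟩
      have h3 : ρ ^ 2 * (Real.sin (ψ - θ) * Real.cos (ψ - θ)) ≤ 0 :=
        mul_nonpos_of_nonneg_of_nonpos (sq_nonneg _) (mul_nonpos_of_nonpos_of_nonneg h1 h2)
      rw [abs_of_nonpos h3, one_mul]
  · have h := core f w (fun s => ρ * |Real.sin (s - θ)|)
      (fun ψ => ρ ^ 2 * (Real.sin (ψ - θ) * Real.cos (ψ - θ))) a b κ ρ (-1) hab (by simp) hfL hwL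
      (lip_g θ ρ) h0 (fun ψ => by positivity) hk (fun ψ _ => der_g θ ρ ψ) ?_
    · refine h.trans (le_of_eq ?_)
      ring
    · intro ψ hψ
      have h1 : 0 ≤ Real.sin (ψ - θ) :=
        Real.sin_nonneg_of_nonneg_of_le_pi (by linarith [hψ.1]) (by
          linarith [hψ.2, Real.pi_pos])
      have h2 : 0 ≤ Real.cos (ψ - θ) :=
        Real.cos_nonneg_of_mem_Icc ⟨by linarith [hψ.1, Real.pi_pos], by linarith [hψ.2]⟩
      have h3 : 0 ≤ ρ ^ 2 * (Real.sin (ψ - θ) * Real.cos (ψ - θ)) :=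
        mul_nonneg (sq_nonneg _) (mul_nonneg h1 h2)
      rw [abs_of_nonneg h3]
      ring

end Pool.Agent.FAN
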