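import Pool.Agent.FAN.StF

/-!
# FAN, block 3, module ONB (helper54): the middle part of the one dimensional fan lemma
-/

set_option autoImplicit false

open scoped ComplexConjugate
open MeasureTheory Set

namespace Pool.Agent.FAN

private theorem fONB_ac {f : ℝ → ℝ} {a b : ℝ} (hab : a ≤ b)
    (h : ∃ K, LipschitzOnWith K f (Icc a b)) : AbsolutelyContinuousOnInterval f a b := by
  obtain ⟨K, h⟩ := h
  rw [← uIcc_of_le hab] at h
  exact h.absolutelyContinuousOnInterval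

/-- derivative of half the square of `ρ |sin (s - θ)|` -/
private theorem fONB_G (ρ θ ψ : ℝ) : HasDerivAt (fun s => (ρ * |Real.sin (s - θ)|) ^ 2 / 2)
    (ρ ^ 2 * (Real.sin (ψ - θ) * Real.cos (ψ - θ))) ψ := by
  have h1 : (fun s => (ρ * |Real.sin (s - θ)|) ^ 2 / 2) =
      fun s => ρ ^ 2 * (Real.sin (s - θ)) ^ 2 / 2 := by
    funext s
    rw [mul_pow, sq_abs]
  rw [h1]
  have h2 : HasDerivAt (fun s : ℝ => s - θ) 1 ψ := (hasDerivAt_id ψ).sub_const θ
  have h3 : HasDerivAt (fun s => ρ ^ 2 * (Real.sin (s - θ)) ^ 2 / 2)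
      (ρ ^ 2 * (((2 : ℕ) : ℝ) * Real.sin (ψ - θ) ^ (2 - 1) * (Real.cos (ψ - θ) * 1)) / 2) ψ :=
    (((h2.sin).pow 2).const_mul (ρ ^ 2)).div_const 2
  refine h3.congr_deriv ?_
  norm_num
  ring

private theorem fONB_core (f w : ℝ → ℝ) (a b θ ρ κ σ : ℝ) (hab : a ≤ b)
    (hσ : σ = 1 ∨ σ = -1) (hf : ∃ K, LipschitzOnWith K f (Icc a b))
    (hw : ∃ K, LipschitzOnWith K w (Icc a b))
    (h0 : ∀ ψ ∈ Icc a b, 0 ≤ f ψ ∧ 0 ≤ w ψ ∧ ρ * |Real.sin (ψ - θ)| ≤ f ψ) (hρ : 0 < ρ)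
    (hder : ∀ ψ ∈ Ioo a b, DifferentiableAt ℝ w ψ → f ψ * |deriv w ψ| ≤ κ * ρ)
    (hs : ∀ ψ ∈ Ioo a b, 0 ≤ σ * (Real.sin (ψ - θ) * Real.cos (ψ - θ))) :
    ∫ ψ in a..b, (|deriv (fun s => (min (f s) (ρ * |Real.sin (s - θ)|)) ^ 2 / 2) ψ| -
      |deriv (fun s => f s ^ 2 / 2) ψ|) * w ψ ≤
    σ * (w b * ((ρ * |Real.sin (b - θ)|) ^ 2 / 2 + f b ^ 2 / 2) -
      w a * ((ρ * |Real.sin (a - θ)|) ^ 2 / 2 + f a ^ 2 / 2)) +
    κ * ρ * (∫ ψ in a..b, f ψ) := by
  have hfac := fONB_ac hab hf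
  have hwac := fONB_ac hab hw
  have hsig : |σ| = 1 := by rcases hσ with rfl | rfl <;> simp
  have hFac : AbsolutelyContinuousOnInterval (fun s => f s ^ 2 / 2) a b := by
    have h1 := (hfac.fun_mul hfac).const_mul (1 / 2)
    convert h1 using 1
    funext s
    ring
  have hGac : AbsolutelyContinuousOnInterval (fun s => (ρ * |Real.sin (s - θ)|) ^ 2 / 2) a b := by
    have h1 : LipschitzWith 1 (fun s : ℝ => Real.sin (s - θ)) := by
      refine LipschitzWith.of_dist_le_mul fun x y => ?_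
      have h := Real.lipschitzWith_sin.dist_le_mul (x - θ) (y - θ)
      simpa using h
    have h2 := (h1.lipschitzOnWith (s := uIcc a b)).absolutelyContinuousOnInterval
    have h3 := (h2.fun_mul h2).const_mul (ρ ^ 2 / 2)
    convert h3 using 1
    funext s
    rw [mul_pow, sq_abs]
    ring
  have hHac : AbsolutelyContinuousOnInterval
      (fun s => (ρ * |Real.sin (s - θ)|) ^ 2 / 2 + f s ^ 2 / 2) a b := hGac.fun_add hFac
  -- almost everywhere everything is differentiable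
  have hae : ∀ᵐ x ∂(volume.restrict (Icc a b)), x ∈ Ioo a b ∧ DifferentiableAt ℝ f x ∧
      DifferentiableAt ℝ w x := by
    rw [ae_restrict_iff' measurableSet_Icc]
    have ha : ∀ᵐ x : ℝ, x ≠ a := by simp [ae_iff, measure_singleton]
    have hb : ∀ᵐ x : ℝ, x ≠ b := by simp [ae_iff, measure_singleton]
    filter_upwards [hfac.ae_differentiableAt, hwac.ae_differentiableAt, ha, hb]
      with x h1 h2 h3 h4 h5
    have h6 : x ∈ uIcc a b := by rwa [uIcc_of_le hab]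
    exact ⟨⟨lt_of_le_of_ne h5.1 (Ne.symm h3), lt_of_le_of_ne h5.2 h4⟩, h1 h6, h2 h6⟩
  -- the derivative of the minimum
  have hmin : ∀ ψ ∈ Ioo a b, deriv (fun s => (min (f s) (ρ * |Real.sin (s - θ)|)) ^ 2 / 2) ψ =
      ρ ^ 2 * (Real.sin (ψ - θ) * Real.cos (ψ - θ)) := by
    intro ψ hψ
    have h1 : (fun s => (min (f s) (ρ * |Real.sin (s - θ)|)) ^ 2 / 2) =ᶠ[nhds ψ]
        fun s => (ρ * |Real.sin (s - θ)|) ^ 2 / 2 := by
      filter_upwards [Ioo_mem_nhds hψ.1 hψ.2] with s hs'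
      rw [min_eq_right (h0 s ⟨hs'.1.le, hs'.2.le⟩).2.2]
    rw [h1.deriv_eq, (fONB_G ρ θ ψ).deriv]
  have hwc : ContinuousOn w (uIcc a b) := hwac.continuousOn
  have hfc : ContinuousOn f (uIcc a b) := hfac.continuousOn
  -- the left integral with the simple derivative
  have hL : ∫ ψ in a..b, (|deriv (fun s => (min (f s) (ρ * |Real.sin (s - θ)|)) ^ 2 / 2) ψ| -
      |deriv (fun s => f s ^ 2 / 2) ψ|) * w ψ =
      ∫ ψ in a..b, (|ρ ^ 2 * (Real.sin (ψ - θ) * Real.cos (ψ - θ))| -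
      |deriv (fun s => f s ^ 2 / 2) ψ|) * w ψ := by
    refine intervalIntegral.integral_congr_ae ?_
    have hb : ∀ᵐ x : ℝ, x ≠ b := by simp [ae_iff, measure_singleton]
    filter_upwards [hb] with x h1 h2
    rw [uIoc_of_le hab] at h2
    rw [hmin x ⟨h2.1, lt_of_le_of_ne h2.2 h1⟩]
  rw [hL]
  have hint1 : IntervalIntegrable (fun ψ => (|ρ ^ 2 * (Real.sin (ψ - θ) * Real.cos (ψ - θ))| -
      |deriv (fun s => f s ^ 2 / 2) ψ|) * w ψ) volume a b := by
    refine IntervalIntegrable.mul_continuousOn (IntervalIntegrable.sub ?_ ?_) hwc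
    · refine Continuous.intervalIntegrable ?_ a b
      fun_prop
    · exact hFac.intervalIntegrable_deriv.abs
  have hint2 : IntervalIntegrable (fun ψ => w ψ *
      deriv (fun s => (ρ * |Real.sin (s - θ)|) ^ 2 / 2 + f s ^ 2 / 2) ψ) volume a b :=
    hHac.intervalIntegrable_deriv.continuousOn_mul hwc
  have hint3 : IntervalIntegrable (fun ψ => deriv w ψ *
      ((ρ * |Real.sin (ψ - θ)|) ^ 2 / 2 + f ψ ^ 2 / 2)) volume a b :=
    hwac.intervalIntegrable_deriv.mul_continuousOn hHac.continuousOn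
  have hint4 : IntervalIntegrable f volume a b := hfc.intervalIntegrable
  -- integration by parts
  have hparts := AbsolutelyContinuousOnInterval.integral_mul_deriv_eq_deriv_mul hwac hHac
  -- first inequality
  have h1 : ∫ ψ in a..b, (|ρ ^ 2 * (Real.sin (ψ - θ) * Real.cos (ψ - θ))| -
      |deriv (fun s => f s ^ 2 / 2) ψ|) * w ψ ≤
      ∫ ψ in a..b, σ * (w ψ *
      deriv (fun s => (ρ * |Real.sin (s - θ)|) ^ 2 / 2 + f s ^ 2 / 2) ψ) := by
    refine intervalIntegral.integral_mono_ae_restrict hab hint1 (hint2.const_mul σ) ?_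
    filter_upwards [hae] with x hx
    obtain ⟨hx1, hx2, hx3⟩ := hx
    have hx0 := h0 x ⟨hx1.1.le, hx1.2.le⟩
    have hF : DifferentiableAt ℝ (fun s => f s ^ 2 / 2) x := (hx2.pow 2).div_const 2
    have e1 : deriv (fun s => (ρ * |Real.sin (s - θ)|) ^ 2 / 2 + f s ^ 2 / 2) x =
        ρ ^ 2 * (Real.sin (x - θ) * Real.cos (x - θ)) + deriv (fun s => f s ^ 2 / 2) x :=
      ((fONB_G ρ θ x).add hF.hasDerivAt).deriv
    have e2 : |ρ ^ 2 * (Real.sin (x - θ) * Real.cos (x - θ))| =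
        σ * (ρ ^ 2 * (Real.sin (x - θ) * Real.cos (x - θ))) := by
      have h2 : 0 ≤ σ * (ρ ^ 2 * (Real.sin (x - θ) * Real.cos (x - θ))) := by
        have := mul_nonneg (sq_nonneg ρ) (hs x hx1)
        linarith
      rw [← abs_of_nonneg h2, abs_mul σ, hsig, one_mul]
    have e3 : -|deriv (fun s => f s ^ 2 / 2) x| ≤ σ * deriv (fun s => f s ^ 2 / 2) x := by
      have h3 := neg_abs_le (σ * deriv (fun s => f s ^ 2 / 2) x)
      rwa [abs_mul, hsig, one_mul] at h3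
    show (|ρ ^ 2 * (Real.sin (x - θ) * Real.cos (x - θ))| -
      |deriv (fun s => f s ^ 2 / 2) x|) * w x ≤ σ * (w x *
      deriv (fun s => (ρ * |Real.sin (s - θ)|) ^ 2 / 2 + f s ^ 2 / 2) x)
    rw [e1, e2]
    have h4 := mul_le_mul_of_nonneg_right e3 hx0.2.1
    linarith
  have h2 : ∫ ψ in a..b, σ * (w ψ *
      deriv (fun s => (ρ * |Real.sin (s - θ)|) ^ 2 / 2 + f s ^ 2 / 2) ψ) =
      σ * (w b * ((ρ * |Real.sin (b - θ)|) ^ 2 / 2 + f b ^ 2 / 2) -
      w a * ((ρ * |Real.sin (a - θ)|) ^ 2 / 2 + f a ^ 2 / 2)) +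
      ∫ ψ in a..b, (-σ) * (deriv w ψ * ((ρ * |Real.sin (ψ - θ)|) ^ 2 / 2 + f ψ ^ 2 / 2)) := by
    rw [intervalIntegral.integral_const_mul, hparts, intervalIntegral.integral_const_mul]
    ring
  have h3 : ∫ ψ in a..b, (-σ) * (deriv w ψ *
      ((ρ * |Real.sin (ψ - θ)|) ^ 2 / 2 + f ψ ^ 2 / 2)) ≤ ∫ ψ in a..b, κ * ρ * f ψ := by
    refine intervalIntegral.integral_mono_ae_restrict hab (hint3.const_mul (-σ))
      (hint4.const_mul (κ * ρ)) ?_
    filter_upwards [hae] with x hx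
    obtain ⟨hx1, _, hx3⟩ := hx
    have hx0 := h0 x ⟨hx1.1.le, hx1.2.le⟩
    have hd := hder x hx1 hx3
    show (-σ) * (deriv w x * ((ρ * |Real.sin (x - θ)|) ^ 2 / 2 + f x ^ 2 / 2)) ≤ κ * ρ * f x
    have hg0 : 0 ≤ ρ * |Real.sin (x - θ)| := mul_nonneg hρ.le (abs_nonneg _)
    have h5 : (ρ * |Real.sin (x - θ)|) ^ 2 / 2 + f x ^ 2 / 2 ≤ f x * f x := by
      have := mul_self_le_mul_self hg0 hx0.2.2
      nlinarith
    have h6 : 0 ≤ (ρ * |Real.sin (x - θ)|) ^ 2 / 2 + f x ^ 2 / 2 := by positivity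
    calc (-σ) * (deriv w x * ((ρ * |Real.sin (x - θ)|) ^ 2 / 2 + f x ^ 2 / 2))
        ≤ |(-σ) * (deriv w x * ((ρ * |Real.sin (x - θ)|) ^ 2 / 2 + f x ^ 2 / 2))| := le_abs_self _
      _ = |deriv w x| * ((ρ * |Real.sin (x - θ)|) ^ 2 / 2 + f x ^ 2 / 2) := by
          rw [abs_mul, abs_neg, hsig, one_mul, abs_mul, abs_of_nonneg h6]
      _ ≤ |deriv w x| * (f x * f x) := mul_le_mul_of_nonneg_left h5 (abs_nonneg _)
      _ = (f x * |deriv w x|) * f x := by ring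
      _ ≤ κ * ρ * f x := mul_le_mul_of_nonneg_right hd hx0.1
  have h4 : ∫ ψ in a..b, κ * ρ * f ψ = κ * ρ * ∫ ψ in a..b, f ψ :=
    intervalIntegral.integral_const_mul _ _
  linarith

theorem f_ONB : Sf_ONB := by
  intro f w a θ ρ κ hρ hκ
  constructor
  · intro hab hpi hf hw h0 hder
    have h1 := fONB_core f w a θ θ ρ κ (-1) hab (Or.inr rfl) hf hw h0 hρ hder (fun ψ hψ => by
      have h2 : Real.sin (ψ - θ) ≤ 0 :=
        Real.sin_nonpos_of_nonpos_of_neg_pi_le (by linarith [hψ.2])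
          (by linarith [hψ.1, Real.pi_pos])
      have h3 : 0 ≤ Real.cos (ψ - θ) :=
        Real.cos_nonneg_of_neg_pi_div_two_le_of_le (by linarith [hψ.1])
          (by linarith [hψ.2, Real.pi_pos])
      have := mul_nonneg (neg_nonneg.2 h2) h3
      linarith)
    have e : (ρ * |Real.sin (θ - θ)|) ^ 2 / 2 = 0 := by simp
    rw [e] at h1
    linarith
  · intro hab hpi hf hw h0 hder
    have h1 := fONB_core f w θ a θ ρ κ 1 hab (Or.inl rfl) hf hw h0 hρ hder (fun ψ hψ => by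
      have h2 : 0 ≤ Real.sin (ψ - θ) :=
        Real.sin_nonneg_of_nonneg_of_le_pi (by linarith [hψ.1])
          (by linarith [hψ.2, Real.pi_pos])
      have h3 : 0 ≤ Real.cos (ψ - θ) :=
        Real.cos_nonneg_of_neg_pi_div_two_le_of_le (by linarith [hψ.1, Real.pi_pos])
          (by linarith [hψ.2])
      have := mul_nonneg h2 h3
      linarith)
    have e : (ρ * |Real.sin (θ - θ)|) ^ 2 / 2 = 0 := by simp
    rw [e] at h1
    linarith

end Pool.Agent.FAN
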