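import Pool.Agent.FAN.StF

set_option autoImplicit false

open MeasureTheory Set

namespace Pool.Agent.FAN

private theorem onc_abs (t : ℝ) (h0 : 0 ≤ t) (h1 : t ≤ Real.pi / 2) :
    ∫ u in (-t)..t, |Real.sin u| = 2 * (1 - Real.cos t) := by
  have hpi := Real.pi_pos
  have hi : ∀ a b : ℝ, IntervalIntegrable (fun u => |Real.sin u|) volume a b := fun a b =>
    (Real.continuous_sin.abs).intervalIntegrable a b
  rw [← intervalIntegral.integral_add_adjacent_intervals (hi (-t) 0) (hi 0 t)]
  have e1 : ∫ u in (-t)..0, |Real.sin u| = ∫ u in (-t)..0, (-Real.sin u) := by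
    refine intervalIntegral.integral_congr fun u hu => ?_
    rw [uIcc_of_le (by linarith)] at hu
    exact abs_of_nonpos (Real.sin_nonpos_of_nonpos_of_neg_pi_le hu.2 (by linarith [hu.1]))
  have e2 : ∫ u in (0 : ℝ)..t, |Real.sin u| = ∫ u in (0 : ℝ)..t, Real.sin u := by
    refine intervalIntegral.integral_congr fun u hu => ?_
    rw [uIcc_of_le h0] at hu
    exact abs_of_nonneg (Real.sin_nonneg_of_nonneg_of_le_pi hu.1 (by linarith [hu.2]))
  rw [e1, e2, intervalIntegral.integral_neg, integral_sin, integral_sin, Real.cos_neg, Real.cos_zero]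
  ring

private theorem onc_k (t : ℝ) (h0 : 0 ≤ t) (h1 : t ≤ Real.pi / 2) :
    0 ≤ t * Real.sin t - 1 + Real.cos t - Real.sin t ^ 2 / 2 := by
  have hd : ∀ s : ℝ, HasDerivAt (fun s => s * Real.sin s - 1 + Real.cos s - Real.sin s ^ 2 / 2)
      (Real.cos s * (s - Real.sin s)) s := by
    intro s
    have h := ((((hasDerivAt_id s).mul (Real.hasDerivAt_sin s)).sub_const 1).add
      (Real.hasDerivAt_cos s)).sub (((Real.hasDerivAt_sin s).pow 2).div_const 2)
    refine (h.congr_deriv ?_)
    norm_num
    ring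
  have hm : MonotoneOn (fun s => s * Real.sin s - 1 + Real.cos s - Real.sin s ^ 2 / 2)
      (Icc 0 (Real.pi / 2)) := by
    refine monotoneOn_of_deriv_nonneg (convex_Icc _ _)
      (fun s _ => (hd s).continuousAt.continuousWithinAt)
      (fun s _ => (hd s).differentiableAt.differentiableWithinAt) fun s hs => ?_
    rw [interior_Icc] at hs
    rw [(hd s).deriv]
    exact mul_nonneg (Real.cos_nonneg_of_mem_Icc ⟨by linarith [hs.1, Real.pi_pos], hs.2.le⟩)
      (sub_nonneg.2 (Real.sin_le hs.1.le))
  have h := hm ⟨le_refl 0, by positivity⟩ ⟨h0, h1⟩ h0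
  simpa using h

theorem f_ONC : Sf_ONC := by
  intro θ ρ t hρ h0 h1
  refine ⟨?_, ?_⟩
  · have e : ∫ ψ in (θ - t)..(θ + t), (ρ * Real.sin t - ρ * |Real.sin (ψ - θ)|) =
        2 * ρ * (t * Real.sin t - (1 - Real.cos t)) := by
      rw [intervalIntegral.integral_comp_sub_right (fun u => ρ * Real.sin t - ρ * |Real.sin u|) θ]
      have a1 : θ - t - θ = -t := by ring
      have a2 : θ + t - θ = t := by ring
      have i1 : IntervalIntegrable (fun _ : ℝ => ρ * Real.sin t) volume (-t) t :=
        continuous_const.intervalIntegrable _ _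
      have i2 : IntervalIntegrable (fun u : ℝ => ρ * |Real.sin u|) volume (-t) t :=
        (continuous_const.mul Real.continuous_sin.abs).intervalIntegrable _ _
      rw [a1, a2, intervalIntegral.integral_sub i1 i2, intervalIntegral.integral_const,
        intervalIntegral.integral_const_mul, onc_abs t h0 h1, smul_eq_mul]
      ring
    rw [e]
    have hk := onc_k t h0 h1
    nlinarith [mul_nonneg (sq_nonneg ρ) hk]
  · have h := Real.mul_le_sin h0 h1
    have hp := Real.pi_pos
    rw [div_mul_eq_mul_div, div_le_iff₀ hp] at h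
    linarith

end Pool.Agent.FAN
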