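import Pool.Agent.FAN.StF

/-!
# FAN, block 3, module FANF_ONE: the one dimensional fan lemma
-/

set_option autoImplicit false

open scoped ComplexConjugate
open MeasureTheory Set

namespace Pool.Agent.FAN

private lemma one_lipg (ρ θ : ℝ) (hρ : 0 < ρ) :
    LipschitzWith ⟨ρ, hρ.le⟩ (fun ψ => ρ * |Real.sin (ψ - θ)|) := by
  refine LipschitzWith.of_dist_le_mul fun x y => ?_
  rw [Real.dist_eq, Real.dist_eq, ← mul_sub, abs_mul, abs_of_pos hρ]
  change ρ * _ ≤ ρ * _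
  refine mul_le_mul_of_nonneg_left ?_ hρ.le
  refine (abs_abs_sub_abs_le _ _).trans ?_
  have h := Real.lipschitzWith_sin.dist_le_mul (x - θ) (y - θ)
  rw [Real.dist_eq, Real.dist_eq] at h
  simpa using h

private lemma one_lipmin (f g : ℝ → ℝ) (s : Set ℝ) (K L : NNReal) (hf : LipschitzOnWith K f s)
    (hg : LipschitzOnWith L g s) :
    LipschitzOnWith (max K L) (fun x => min (f x) (g x)) s := by
  refine LipschitzOnWith.of_dist_le_mul fun x hx y hy => ?_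
  have h1 := hf.dist_le_mul x hx y hy
  have h2 := hg.dist_le_mul x hx y hy
  rw [Real.dist_eq] at h1 h2 ⊢
  refine (abs_min_sub_min_le_max _ _ _ _).trans (max_le ?_ ?_)
  · refine h1.trans (mul_le_mul_of_nonneg_right ?_ dist_nonneg)
    exact_mod_cast le_max_left K L
  · refine h2.trans (mul_le_mul_of_nonneg_right ?_ dist_nonneg)
    exact_mod_cast le_max_right K L

private lemma one_int (F w : ℝ → ℝ) (α β : ℝ) (hab : α ≤ β) (K : NNReal)
    (h : LipschitzOnWith K F (Icc α β)) (hw : ContinuousOn w (Icc α β)) :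
    IntervalIntegrable (fun ψ => |deriv (fun s => F s ^ 2 / 2) ψ| * w ψ) volume α β := by
  have h1 : AbsolutelyContinuousOnInterval F α β := by
    apply LipschitzOnWith.absolutelyContinuousOnInterval (K := K)
    rwa [uIcc_of_le hab]
  have h2 : AbsolutelyContinuousOnInterval (fun s => F s ^ 2 / 2) α β := by
    have h3 := (h1.mul h1).const_mul (1 / 2)
    have e : (fun s => F s ^ 2 / 2) = fun x => 1 / 2 * (F * F) x := by
      funext s
      simp only [Pi.mul_apply]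
      ring
    rw [e]
    exact h3
  exact (h2.intervalIntegrable_deriv.abs).mul_continuousOn (by rwa [uIcc_of_le hab])

private lemma one_w (w : ℝ → ℝ) (a b c : ℝ) (K : NNReal)
    (h : LipschitzOnWith K w (Icc a b)) (hc : 0 ≤ c)
    (hd : ∀ ψ ∈ Ioo a b, DifferentiableAt ℝ w ψ → |deriv w ψ| ≤ c) :
    ∀ x ∈ Icc a b, ∀ y ∈ Icc a b, w x ≤ w y + c * (b - a) := by
  intro x hx y hy
  have hsub : uIcc y x ⊆ Icc a b := by
    intro z hz
    rcases mem_uIcc.1 hz with hz | hz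
    · exact ⟨hy.1.trans hz.1, hz.2.trans hx.2⟩
    · exact ⟨hx.1.trans hz.1, hz.2.trans hy.2⟩
  have hac : AbsolutelyContinuousOnInterval w y x :=
    LipschitzOnWith.absolutelyContinuousOnInterval (h.mono hsub)
  have hne : ∀ᵐ ψ : ℝ, ψ ≠ b := by
    rw [ae_iff]
    simp
  have h1 : ‖∫ ψ in y..x, deriv w ψ‖ ≤ c * |x - y| := by
    refine intervalIntegral.norm_integral_le_of_norm_le_const_ae ?_
    filter_upwards [hac.ae_differentiableAt, hne] with ψ h1 h2 h3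
    have h4 : ψ ∈ uIcc y x := uIoc_subset_uIcc h3
    have h5 := hsub h4
    rw [Real.norm_eq_abs]
    refine hd ψ ⟨?_, lt_of_le_of_ne h5.2 h2⟩ (h1 h4)
    rcases mem_uIoc.1 h3 with h3 | h3
    · exact lt_of_le_of_lt hy.1 h3.1
    · exact lt_of_le_of_lt hx.1 h3.1
  rw [hac.integral_deriv_eq_sub, Real.norm_eq_abs] at h1
  have h2 : |x - y| ≤ b - a := by
    rw [abs_le]
    constructor <;> linarith [hx.1, hx.2, hy.1, hy.2]
  have h3 := mul_le_mul_of_nonneg_left h2 hc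
  linarith [le_abs_self (w x - w y)]

/-- ONE. The one dimensional fan lemma -/
theorem f_ONE (h1 : Sf_ONA) (h2 : Sf_ONB) (h3 : Sf_ONC) : Sf_ONE := by
  intro f w α β θ ρ κ hαθ hθβ hαp hβp hρ hκ hf hw hfw hfα hfβ hder
  have hpi := Real.pi_pos
  have hαβ : α ≤ β := (hαθ.trans hθβ).le
  have hκρ : 0 ≤ κ * ρ := mul_nonneg hκ hρ.le
  obtain ⟨Kf, hKf⟩ := hf
  obtain ⟨Kw, hKw⟩ := hw
  have hfc : ContinuousOn f (Icc α β) := hKf.continuousOn
  have hwc : ContinuousOn w (Icc α β) := hKw.continuousOn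
  obtain ⟨g, hg⟩ : ∃ g : ℝ → ℝ, ∀ ψ, g ψ = ρ * |Real.sin (ψ - θ)| := ⟨_, fun _ => rfl⟩
  have hgL : LipschitzWith ⟨ρ, hρ.le⟩ g := by
    have h := one_lipg ρ θ hρ
    have e : (fun ψ => ρ * |Real.sin (ψ - θ)|) = g := funext fun ψ => (hg ψ).symm
    rwa [e] at h
  have hgc : Continuous g := hgL.continuous
  have hg0 : ∀ ψ, 0 ≤ g ψ := fun ψ => by rw [hg]; positivity
  have hgθ : g θ = 0 := by rw [hg]; simp
  have habs : ∀ ψ ∈ Icc α β, |ψ - θ| ≤ Real.pi / 2 := by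
    intro ψ hψ
    rw [abs_le]
    constructor <;> linarith [hψ.1, hψ.2]
  have hgs : ∀ ψ ∈ Icc α β, g ψ = ρ * Real.sin |ψ - θ| := by
    intro ψ hψ
    rw [hg, Real.abs_sin_eq_sin_abs_of_abs_le_pi]
    linarith [habs ψ hψ]
  simp only [← hg]
  obtain ⟨I, hI⟩ : ∃ I : ℝ → ℝ, ∀ ψ, I ψ = (|deriv (fun s => (min (f s) (g s)) ^ 2 / 2) ψ| -
      |deriv (fun s => f s ^ 2 / 2) ψ|) * w ψ := ⟨_, fun _ => rfl⟩
  simp only [← hI]
  obtain ⟨D, hD⟩ : ∃ D : ℝ → ℝ, ∀ ψ, D ψ = f ψ - min (f ψ) (g ψ) := ⟨_, fun _ => rfl⟩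
  simp only [← hD]
  -- integrability
  have hIi : IntervalIntegrable I volume α β := by
    have e : I = fun ψ => |deriv (fun s => (min (f s) (g s)) ^ 2 / 2) ψ| * w ψ -
        |deriv (fun s => f s ^ 2 / 2) ψ| * w ψ := by
      funext ψ
      rw [hI]
      ring
    rw [e]
    exact (one_int _ w α β hαβ _ (one_lipmin f g _ _ _ hKf hgL.lipschitzOnWith) hwc).sub
      (one_int f w α β hαβ _ hKf hwc)
  have hDc : ContinuousOn D (Icc α β) := by
    have e : D = fun ψ => f ψ - min (f ψ) (g ψ) := funext hD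
    rw [e]
    exact hfc.sub (ContinuousOn.inf hfc hgc.continuousOn)
  have hD0 : ∀ ψ, 0 ≤ D ψ := fun ψ => by rw [hD]; linarith [min_le_left (f ψ) (g ψ)]
  have hDw0 : ∀ ψ ∈ Icc α β, 0 ≤ D ψ * w ψ := fun ψ hψ => mul_nonneg (hD0 ψ) (hfw ψ hψ).2
  have hIs : ∀ a b, α ≤ a → a ≤ b → b ≤ β → IntervalIntegrable I volume a b := by
    intro a b h1 h2 h3
    refine hIi.mono_set ?_
    rw [uIcc_of_le h2, uIcc_of_le hαβ]
    exact Icc_subset_Icc h1 h3
  have hci : ∀ (u : ℝ → ℝ), ContinuousOn u (Icc α β) → ∀ a b, α ≤ a → a ≤ b → b ≤ β →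
      IntervalIntegrable u volume a b := by
    intro u hu a b h1 h2 h3
    exact (hu.mono (Icc_subset_Icc h1 h3)).intervalIntegrable_of_Icc h2
  have hmono : ∀ (u : ℝ → ℝ), ContinuousOn u (Icc α β) → (∀ ψ ∈ Icc α β, 0 ≤ u ψ) →
      ∀ a b c d, α ≤ c → c ≤ a → a ≤ b → b ≤ d → d ≤ β →
      ∫ ψ in a..b, u ψ ≤ ∫ ψ in c..d, u ψ := by
    intro u hu hu0 a b c d h1 h2 h3 h4 h5
    refine intervalIntegral.integral_mono_interval h2 h3 h4 ?_
      (hci u hu c d h1 (h2.trans (h3.trans h4)) h5)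
    refine (ae_restrict_iff' measurableSet_Ioc).2 (Filter.Eventually.of_forall fun ψ hψ => ?_)
    exact hu0 ψ ⟨h1.trans hψ.1.le, hψ.2.trans h5⟩
  -- the minimum point
  obtain ⟨s₀, hs₀, hmin⟩ : ∃ s₀ ∈ Icc α β, ∀ ψ ∈ Icc α β,
      max (f s₀) (g s₀) ≤ max (f ψ) (g ψ) := by
    obtain ⟨s, hs, h⟩ := isCompact_Icc.exists_isMinOn (nonempty_Icc.2 hαβ)
      (ContinuousOn.sup hfc hgc.continuousOn)
    exact ⟨s, hs, fun ψ hψ => isMinOn_iff.1 h ψ hψ⟩
  have hgle : g s₀ ≤ f s₀ := by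
    by_contra hlt
    push Not at hlt
    have hne : s₀ ≠ θ := by
      intro e
      rw [e, hgθ] at hlt
      linarith [(hfw θ ⟨hαθ.le, hθβ.le⟩).1]
    have hc0 : 0 ≤ (Kf : ℝ) * |θ - s₀| := mul_nonneg Kf.2 (abs_nonneg _)
    obtain ⟨ε, hε0, hε1, hε⟩ : ∃ ε : ℝ, 0 < ε ∧ ε ≤ 1 ∧
        Kf * |θ - s₀| * ε < g s₀ - f s₀ := by
      have hp : 0 < (g s₀ - f s₀) / (Kf * |θ - s₀| + 1) := div_pos (by linarith) (by linarith)
      refine ⟨min 1 ((g s₀ - f s₀) / (Kf * |θ - s₀| + 1)), lt_min one_pos hp,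
        min_le_left _ _, ?_⟩
      have h5 := min_le_right 1 ((g s₀ - f s₀) / (Kf * |θ - s₀| + 1))
      have h6 := lt_min one_pos hp
      rw [le_div_iff₀ (by linarith)] at h5
      nlinarith
    obtain ⟨s₁, hs₁e⟩ : ∃ s₁, s₁ = s₀ + ε * (θ - s₀) := ⟨_, rfl⟩
    have hs₁ : s₁ ∈ Icc α β := by
      rw [hs₁e]
      constructor
      · nlinarith [hs₀.1, mul_nonneg (sub_nonneg.2 hε1) (sub_nonneg.2 hs₀.1),
          mul_nonneg hε0.le (sub_nonneg.2 hαθ.le)]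
      · nlinarith [hs₀.2, mul_nonneg (sub_nonneg.2 hε1) (sub_nonneg.2 hs₀.2),
          mul_nonneg hε0.le (sub_nonneg.2 hθβ.le)]
    have e1 : |s₁ - θ| = (1 - ε) * |s₀ - θ| := by
      have h5 : s₁ - θ = (1 - ε) * (s₀ - θ) := by rw [hs₁e]; ring
      rw [h5, abs_mul, abs_of_nonneg (by linarith)]
    have e2 : g s₁ < g s₀ := by
      rw [hgs _ hs₁, hgs _ hs₀]
      refine mul_lt_mul_of_pos_left (Real.sin_lt_sin_of_lt_of_le_pi_div_two ?_ (habs _ hs₀) ?_) hρ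
      · linarith [abs_nonneg (s₁ - θ)]
      · rw [e1]
        nlinarith [abs_pos.2 (sub_ne_zero.2 hne)]
    have e3 : f s₁ < g s₀ := by
      have h5 := hKf.dist_le_mul s₁ hs₁ s₀ hs₀
      rw [Real.dist_eq, Real.dist_eq] at h5
      have h6 : |s₁ - s₀| = ε * |θ - s₀| := by
        have h7 : s₁ - s₀ = ε * (θ - s₀) := by rw [hs₁e]; ring
        rw [h7, abs_mul, abs_of_pos hε0]
      rw [h6] at h5
      have h8 := le_abs_self (f s₁ - f s₀)
      nlinarith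
    have h5 := hmin s₁ hs₁
    rw [max_eq_right hlt.le] at h5
    exact absurd h5 (not_le.2 (max_lt e3 e2))
  obtain ⟨m, hm⟩ : ∃ m, m = f s₀ := ⟨_, rfl⟩
  rw [max_eq_left hgle, ← hm] at hmin
  rw [← hm] at hgle
  have hm0 : 0 ≤ m := hm ▸ (hfw s₀ hs₀).1
  have hmα : m ≤ g α := by
    have h5 := hmin α ⟨le_rfl, hαβ⟩
    rwa [hfα, max_eq_right (hg0 α)] at h5
  have hmβ : m ≤ g β := by
    have h5 := hmin β ⟨hαβ, le_rfl⟩
    rwa [hfβ, max_eq_right (hg0 β)] at h5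
  rw [hgs α ⟨le_rfl, hαβ⟩, abs_sub_comm, abs_of_pos (by linarith)] at hmα
  rw [hgs β ⟨hαβ, le_rfl⟩, abs_of_pos (by linarith)] at hmβ
  -- the angle t
  obtain ⟨t, ht0, ht2, htm⟩ : ∃ t, 0 ≤ t ∧ t ≤ Real.pi / 2 ∧ ρ * Real.sin t = m := by
    refine ⟨Real.arcsin (m / ρ), Real.arcsin_nonneg.2 (div_nonneg hm0 hρ.le),
      Real.arcsin_le_pi_div_two _, ?_⟩
    rw [Real.sin_arcsin]
    · field_simp
    · linarith [div_nonneg hm0 hρ.le]
    · rw [div_le_one hρ]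
      nlinarith [Real.sin_le_one (θ - α)]
  have htα : t ≤ θ - α := by
    by_contra hlt
    push Not at hlt
    have h5 := Real.sin_lt_sin_of_lt_of_le_pi_div_two (by linarith) ht2 hlt
    nlinarith
  have htβ : t ≤ β - θ := by
    by_contra hlt
    push Not at hlt
    have h5 := Real.sin_lt_sin_of_lt_of_le_pi_div_two (by linarith) ht2 hlt
    nlinarith
  have hts : |s₀ - θ| ≤ t := by
    by_contra hlt
    push Not at hlt
    have h5 := Real.sin_lt_sin_of_lt_of_le_pi_div_two (by linarith) (habs s₀ hs₀) hlt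
    rw [hgs s₀ hs₀] at hgle
    nlinarith
  have hgm : ∀ ψ ∈ Icc α β, |ψ - θ| < t → g ψ < m := by
    intro ψ hψ hlt
    have h5 := Real.sin_lt_sin_of_lt_of_le_pi_div_two
      (by linarith [abs_nonneg (ψ - θ)]) ht2 hlt
    rw [hgs ψ hψ, ← htm]
    exact mul_lt_mul_of_pos_left h5 hρ
  have hfm : ∀ ψ ∈ Icc α β, |ψ - θ| < t → m ≤ f ψ := by
    intro ψ hψ hlt
    rcases le_max_iff.1 (hmin ψ hψ) with h | h
    · exact h
    · exact absurd h (not_le.2 (hgm ψ hψ hlt))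
  have hs₀l : θ - t ≤ s₀ := by linarith [(abs_le.1 hts).1]
  have hs₀r : s₀ ≤ θ + t := by linarith [(abs_le.1 hts).2]
  -- the sum of the three parts
  have hA : ∫ ψ in α..β, I ψ ≤ m ^ 2 * w s₀ + κ * ρ * (∫ ψ in α..β, D ψ) +
      κ * ρ * (∫ ψ in (θ - t)..(θ + t), f ψ) := by
    rcases le_total s₀ θ with hs | hs
    · have a1 := (h1 f w α s₀ θ ρ κ hs₀.1 hρ hκ
        ⟨Kf, hKf.mono (Icc_subset_Icc_right hs₀.2)⟩ ⟨Kw, hKw.mono (Icc_subset_Icc_right hs₀.2)⟩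
        (fun ψ hψ => hfw ψ ⟨hψ.1, hψ.2.trans hs₀.2⟩)
        (fun ψ hψ hd => hder ψ ⟨hψ.1, hψ.2.trans_le hs₀.2⟩ hd)).1 hs hαp
      have a2 := (h2 f w s₀ θ ρ κ hρ hκ).1 hs (by linarith [hs₀.1])
        ⟨Kf, hKf.mono (Icc_subset_Icc hs₀.1 hθβ.le)⟩ ⟨Kw, hKw.mono (Icc_subset_Icc hs₀.1 hθβ.le)⟩
        (fun ψ hψ => by
          have hψ' : ψ ∈ Icc α β := ⟨hs₀.1.trans hψ.1, hψ.2.trans hθβ.le⟩
          refine ⟨(hfw ψ hψ').1, (hfw ψ hψ').2, ?_⟩
          rw [← hg]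
          rcases hψ.1.eq_or_lt with e | e
          · rw [← e, ← hm]
            exact hgle
          · have h5 : |ψ - θ| < t := by
              rw [abs_lt]
              constructor <;> linarith [hψ.2]
            exact (hgm ψ hψ' h5).le.trans (hfm ψ hψ' h5))
        (fun ψ hψ hd => hder ψ ⟨hs₀.1.trans_lt hψ.1, hψ.2.trans hθβ⟩ hd)
      have a3 := (h1 f w θ β θ ρ κ hθβ.le hρ hκ
        ⟨Kf, hKf.mono (Icc_subset_Icc_left hαθ.le)⟩ ⟨Kw, hKw.mono (Icc_subset_Icc_left hαθ.le)⟩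
        (fun ψ hψ => hfw ψ ⟨hαθ.le.trans hψ.1, hψ.2⟩)
        (fun ψ hψ hd => hder ψ ⟨hαθ.trans hψ.1, hψ.2⟩ hd)).2 le_rfl hβp
      simp only [← hg] at a1 a2 a3
      simp only [← hI] at a1 a2 a3
      simp only [← hD] at a1 a2 a3
      rw [hfα, ← hm, min_eq_right hgle, min_eq_left (hg0 α)] at a1
      rw [← hm] at a2
      rw [hfβ, hgθ, min_eq_left (hg0 β), min_eq_right (hfw θ ⟨hαθ.le, hθβ.le⟩).1] at a3
      have s1 : ∫ ψ in α..β, I ψ = (∫ ψ in α..s₀, I ψ) + (∫ ψ in s₀..θ, I ψ) +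
          ∫ ψ in θ..β, I ψ := by
        rw [intervalIntegral.integral_add_adjacent_intervals (hIs _ _ le_rfl hs₀.1 hs₀.2)
          (hIs _ _ hs₀.1 hs hθβ.le),
          intervalIntegral.integral_add_adjacent_intervals (hIs _ _ le_rfl hαθ.le hθβ.le)
          (hIs _ _ hαθ.le hθβ.le le_rfl)]
      have s2 : ∫ ψ in α..β, D ψ = (∫ ψ in α..s₀, D ψ) + (∫ ψ in s₀..θ, D ψ) +
          ∫ ψ in θ..β, D ψ := by
        rw [intervalIntegral.integral_add_adjacent_intervals (hci D hDc _ _ le_rfl hs₀.1 hs₀.2)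
          (hci D hDc _ _ hs₀.1 hs hθβ.le),
          intervalIntegral.integral_add_adjacent_intervals (hci D hDc _ _ le_rfl hαθ.le hθβ.le)
          (hci D hDc _ _ hαθ.le hθβ.le le_rfl)]
      have s3 : 0 ≤ ∫ ψ in s₀..θ, D ψ :=
        intervalIntegral.integral_nonneg hs fun ψ _ => hD0 ψ
      have s4 : ∫ ψ in s₀..θ, f ψ ≤ ∫ ψ in (θ - t)..(θ + t), f ψ :=
        hmono f hfc (fun ψ hψ => (hfw ψ hψ).1) _ _ _ _ (by linarith) hs₀l hs (by linarith)
          (by linarith)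
      have s5 := mul_le_mul_of_nonneg_left s4 hκρ
      have s6 := mul_nonneg hκρ s3
      rw [s1, s2]
      linarith
    · have a1 := (h1 f w s₀ β θ ρ κ hs₀.2 hρ hκ
        ⟨Kf, hKf.mono (Icc_subset_Icc_left hs₀.1)⟩ ⟨Kw, hKw.mono (Icc_subset_Icc_left hs₀.1)⟩
        (fun ψ hψ => hfw ψ ⟨hs₀.1.trans hψ.1, hψ.2⟩)
        (fun ψ hψ hd => hder ψ ⟨hs₀.1.trans_lt hψ.1, hψ.2⟩ hd)).2 hs hβp
      have a2 := (h2 f w s₀ θ ρ κ hρ hκ).2 hs (by linarith [hs₀.2])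
        ⟨Kf, hKf.mono (Icc_subset_Icc hαθ.le hs₀.2)⟩ ⟨Kw, hKw.mono (Icc_subset_Icc hαθ.le hs₀.2)⟩
        (fun ψ hψ => by
          have hψ' : ψ ∈ Icc α β := ⟨hαθ.le.trans hψ.1, hψ.2.trans hs₀.2⟩
          refine ⟨(hfw ψ hψ').1, (hfw ψ hψ').2, ?_⟩
          rw [← hg]
          rcases hψ.2.eq_or_lt with e | e
          · rw [e, ← hm]
            exact hgle
          · have h5 : |ψ - θ| < t := by
              rw [abs_lt]
              constructor <;> linarith [hψ.1]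
            exact (hgm ψ hψ' h5).le.trans (hfm ψ hψ' h5))
        (fun ψ hψ hd => hder ψ ⟨hαθ.trans hψ.1, hψ.2.trans_le hs₀.2⟩ hd)
      have a3 := (h1 f w α θ θ ρ κ hαθ.le hρ hκ
        ⟨Kf, hKf.mono (Icc_subset_Icc_right hθβ.le)⟩ ⟨Kw, hKw.mono (Icc_subset_Icc_right hθβ.le)⟩
        (fun ψ hψ => hfw ψ ⟨hψ.1, hψ.2.trans hθβ.le⟩)
        (fun ψ hψ hd => hder ψ ⟨hψ.1, hψ.2.trans hθβ⟩ hd)).1 le_rfl hαp
      simp only [← hg] at a1 a2 a3
      simp only [← hI] at a1 a2 a3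
      simp only [← hD] at a1 a2 a3
      rw [hfβ, ← hm, min_eq_right hgle, min_eq_left (hg0 β)] at a1
      rw [← hm] at a2
      rw [hfα, hgθ, min_eq_left (hg0 α), min_eq_right (hfw θ ⟨hαθ.le, hθβ.le⟩).1] at a3
      have s1 : ∫ ψ in α..β, I ψ = (∫ ψ in α..θ, I ψ) + (∫ ψ in θ..s₀, I ψ) +
          ∫ ψ in s₀..β, I ψ := by
        rw [intervalIntegral.integral_add_adjacent_intervals (hIs _ _ le_rfl hαθ.le hθβ.le)
          (hIs _ _ hαθ.le hs hs₀.2),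
          intervalIntegral.integral_add_adjacent_intervals (hIs _ _ le_rfl hs₀.1 hs₀.2)
          (hIs _ _ hs₀.1 hs₀.2 le_rfl)]
      have s2 : ∫ ψ in α..β, D ψ = (∫ ψ in α..θ, D ψ) + (∫ ψ in θ..s₀, D ψ) +
          ∫ ψ in s₀..β, D ψ := by
        rw [intervalIntegral.integral_add_adjacent_intervals (hci D hDc _ _ le_rfl hαθ.le hθβ.le)
          (hci D hDc _ _ hαθ.le hs hs₀.2),
          intervalIntegral.integral_add_adjacent_intervals (hci D hDc _ _ le_rfl hs₀.1 hs₀.2)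
          (hci D hDc _ _ hs₀.1 hs₀.2 le_rfl)]
      have s3 : 0 ≤ ∫ ψ in θ..s₀, D ψ :=
        intervalIntegral.integral_nonneg hs fun ψ _ => hD0 ψ
      have s4 : ∫ ψ in θ..s₀, f ψ ≤ ∫ ψ in (θ - t)..(θ + t), f ψ :=
        hmono f hfc (fun ψ hψ => (hfw ψ hψ).1) _ _ _ _ (by linarith) (by linarith) hs hs₀r
          (by linarith)
      have s5 := mul_le_mul_of_nonneg_left s4 hκρ
      have s6 := mul_nonneg hκρ s3
      rw [s1, s2]
      linarith
  refine hA.trans ?_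
  have hDt : 0 ≤ ∫ ψ in α..β, D ψ :=
    intervalIntegral.integral_nonneg hαβ fun ψ _ => hD0 ψ
  have hDwt : 0 ≤ ∫ ψ in α..β, D ψ * w ψ :=
    intervalIntegral.integral_nonneg hαβ fun ψ hψ => hDw0 ψ hψ
  have hkD := mul_nonneg hκρ hDt
  rcases hm0.eq_or_lt with hmz | hmpos
  · -- m = 0
    have h5 : t = 0 := by
      by_contra hne
      have h6 := Real.sin_pos_of_pos_of_lt_pi (lt_of_le_of_ne ht0 (Ne.symm hne)) (by linarith)
      nlinarith
    rw [h5, ← hmz]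
    simp only [sub_zero, add_zero, intervalIntegral.integral_same, mul_zero]
    nlinarith [mul_nonneg hρ.le hDwt]
  · -- m > 0
    obtain ⟨c1, c2⟩ := h3 θ ρ t hρ ht0 ht2
    simp only [htm, ← hg] at c1
    have hmid : θ - t ≤ θ + t := by linarith
    have hl : α ≤ θ - t := by linarith
    have hr : θ + t ≤ β := by linarith
    have hmidm : ∀ ψ ∈ Ioo (θ - t) (θ + t), ψ ∈ Icc α β ∧ |ψ - θ| < t := by
      intro ψ hψ
      refine ⟨⟨by linarith [hψ.1], by linarith [hψ.2]⟩, ?_⟩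
      rw [abs_lt]
      constructor <;> linarith [hψ.1, hψ.2]
    have c3 : 2 * t * ρ ≤ Real.pi * m := by nlinarith
    -- the weight on the middle part
    have hws : ∀ ψ ∈ Icc (θ - t) (θ + t), w s₀ ≤ w ψ + Real.pi * κ := by
      intro ψ hψ
      have h5 := one_w w (θ - t) (θ + t) (κ * ρ / m) Kw (hKw.mono (Icc_subset_Icc hl hr))
        (div_nonneg hκρ hm0) (fun φ hφ hd => by
          obtain ⟨b1, b2⟩ := hmidm φ hφ
          have b3 := hder φ ⟨by linarith [hφ.1], by linarith [hφ.2]⟩ hd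
          have b4 := hfm φ b1 b2
          rw [le_div_iff₀ hmpos]
          nlinarith [abs_nonneg (deriv w φ)]) s₀ ⟨hs₀l, hs₀r⟩ ψ hψ
      have h6 : κ * ρ / m * (θ + t - (θ - t)) ≤ Real.pi * κ := by
        rw [div_mul_eq_mul_div, div_le_iff₀ hmpos]
        nlinarith
      linarith
    have hDg : ∀ ψ ∈ Ioo (θ - t) (θ + t), D ψ = f ψ - g ψ := by
      intro ψ hψ
      obtain ⟨b1, b2⟩ := hmidm ψ hψ
      rw [hD, min_eq_right ((hgm ψ b1 b2).le.trans (hfm ψ b1 b2))]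
    have hgi : IntervalIntegrable (fun ψ => m - g ψ) volume (θ - t) (θ + t) :=
      (continuous_const.sub hgc).intervalIntegrable _ _
    have hDi := hci D hDc _ _ hl hmid hr
    have hfi := hci f hfc _ _ hl hmid hr
    have hDwi := hci (fun ψ => D ψ * w ψ) (hDc.mul hwc) _ _ hl hmid hr
    have e1 : ∫ ψ in (θ - t)..(θ + t), (m - g ψ) ≤ ∫ ψ in (θ - t)..(θ + t), D ψ := by
      refine intervalIntegral.integral_mono_on_of_le_Ioo hmid hgi hDi fun ψ hψ => ?_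
      obtain ⟨b1, b2⟩ := hmidm ψ hψ
      rw [hDg ψ hψ]
      linarith [hfm ψ b1 b2]
    have e2 : ∫ ψ in (θ - t)..(θ + t), f ψ ≤
        (∫ ψ in (θ - t)..(θ + t), D ψ) + 2 * t * m := by
      have h5 : ∫ ψ in (θ - t)..(θ + t), f ψ ≤ ∫ ψ in (θ - t)..(θ + t), (D ψ + m) := by
        refine intervalIntegral.integral_mono_on_of_le_Ioo hmid hfi
          (hDi.add intervalIntegrable_const) fun ψ hψ => ?_
        obtain ⟨b1, b2⟩ := hmidm ψ hψ
        rw [hDg ψ hψ]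
        linarith [hgm ψ b1 b2]
      rw [intervalIntegral.integral_add hDi intervalIntegrable_const,
        intervalIntegral.integral_const, smul_eq_mul] at h5
      nlinarith
    have e3 : m ^ 2 * w s₀ ≤ ρ * ((∫ ψ in (θ - t)..(θ + t), D ψ * w ψ) +
        Real.pi * κ * ∫ ψ in (θ - t)..(θ + t), D ψ) := by
      have h5 : m ^ 2 * w s₀ ≤ ρ * (∫ ψ in (θ - t)..(θ + t), (m - g ψ)) * w s₀ :=
        mul_le_mul_of_nonneg_right c1 (hfw s₀ hs₀).2
      have h6 : (∫ ψ in (θ - t)..(θ + t), (m - g ψ)) * w s₀ ≤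
          ∫ ψ in (θ - t)..(θ + t), (D ψ * w ψ + Real.pi * κ * D ψ) := by
        rw [← intervalIntegral.integral_mul_const]
        refine intervalIntegral.integral_mono_on_of_le_Ioo hmid (hgi.mul_const _)
          (hDwi.add (hDi.const_mul _)) fun ψ hψ => ?_
        obtain ⟨b1, b2⟩ := hmidm ψ hψ
        have b3 := hws ψ (Ioo_subset_Icc_self hψ)
        have b4 := hgm ψ b1 b2
        have b5 : m - g ψ ≤ D ψ := by
          rw [hDg ψ hψ]
          linarith [hfm ψ b1 b2]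
        have b6 : 0 ≤ w ψ + Real.pi * κ :=
          add_nonneg (hfw ψ b1).2 (mul_nonneg hpi.le hκ)
        calc (m - g ψ) * w s₀ ≤ (m - g ψ) * (w ψ + Real.pi * κ) :=
              mul_le_mul_of_nonneg_left b3 (by linarith)
          _ ≤ D ψ * (w ψ + Real.pi * κ) := mul_le_mul_of_nonneg_right b5 b6
          _ = D ψ * w ψ + Real.pi * κ * D ψ := by ring
      rw [intervalIntegral.integral_add hDwi (hDi.const_mul _),
        intervalIntegral.integral_const_mul] at h6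
      calc m ^ 2 * w s₀ ≤ ρ * ((∫ ψ in (θ - t)..(θ + t), (m - g ψ)) * w s₀) := by linarith
        _ ≤ _ := mul_le_mul_of_nonneg_left h6 hρ.le
    have e4 : ∫ ψ in (θ - t)..(θ + t), D ψ * w ψ ≤ ∫ ψ in α..β, D ψ * w ψ :=
      hmono (fun ψ => D ψ * w ψ) (hDc.mul hwc) hDw0 _ _ _ _ le_rfl hl hmid hr le_rfl
    have e5 : ∫ ψ in (θ - t)..(θ + t), D ψ ≤ ∫ ψ in α..β, D ψ :=
      hmono D hDc (fun ψ _ => hD0 ψ) _ _ _ _ le_rfl hl hmid hr le_rfl
    have e6 : 2 * t * m ≤ Real.pi * ∫ ψ in (θ - t)..(θ + t), D ψ := by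
      have h5 : 2 * t * m * ρ ≤ (Real.pi * ∫ ψ in (θ - t)..(θ + t), D ψ) * ρ := by
        have h6 : m ^ 2 ≤ ρ * ∫ ψ in (θ - t)..(θ + t), D ψ :=
          c1.trans (mul_le_mul_of_nonneg_left e1 hρ.le)
        nlinarith
      exact le_of_mul_le_mul_right h5 hρ
    have hpi4 : Real.pi ≤ 7 / 2 := by linarith [Real.pi_lt_d2]
    have f1 : ∫ ψ in (θ - t)..(θ + t), f ψ ≤ 9 / 2 * ∫ ψ in α..β, D ψ := by
      nlinarith
    have f2 := mul_le_mul_of_nonneg_left f1 hκρ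
    have f3 : m ^ 2 * w s₀ ≤ ρ * (∫ ψ in α..β, D ψ * w ψ) +
        7 / 2 * (κ * ρ * ∫ ψ in α..β, D ψ) := by
      refine e3.trans ?_
      have g1 := mul_le_mul_of_nonneg_left e4 hρ.le
      have g2 : ρ * (Real.pi * κ * ∫ ψ in (θ - t)..(θ + t), D ψ) ≤
          7 / 2 * (κ * ρ * ∫ ψ in α..β, D ψ) := by
        have g3 := mul_le_mul_of_nonneg_left e5 (mul_nonneg hpi.le hκρ)
        nlinarith
      linarith
    linarith

end Pool.Agent.FAN
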