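import Pool.Agent.FAN.StF

/-!
# FAN, PTW (helper2): the sum of the right hand sides of the fan inequality at a good direction
-/

set_option autoImplicit false

open scoped ComplexConjugate
open MeasureTheory Set

namespace Pool.Agent.FAN

private lemma ptw_norm_ev (ψ : ℝ) : ‖ev ψ‖ = 1 := by
  have h : ‖ev ψ‖ ^ 2 = 1 := by
    rw [Complex.sq_norm, Complex.normSq_apply]
    simp only [ev]
    nlinarith [Real.sin_sq_add_cos_sq ψ]
  have h0 := norm_nonneg (ev ψ)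
  nlinarith

private lemma ptw_cx_le (v w : ℂ) (hv : ‖v‖ = 1) : |cx v w| ≤ ‖w‖ := by
  have h1 : cx v w ^ 2 + dt v w ^ 2 = ‖v‖ ^ 2 * ‖w‖ ^ 2 := by
    rw [Complex.sq_norm, Complex.normSq_apply, Complex.sq_norm, Complex.normSq_apply]
    simp only [cx, dt]
    ring
  rw [hv] at h1
  have h2 : cx v w ^ 2 ≤ ‖w‖ ^ 2 := by nlinarith [sq_nonneg (dt v w)]
  exact abs_le_of_sq_le_sq h2 (norm_nonneg w)

private lemma ptw_card (K : ℕ) (c : ℝ) (hc : 0 ≤ c) :
    (((Finset.range K).filter (fun n : ℕ => ((n : ℝ) + 1) ≤ c)).card : ℝ) ≤ c := by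
  have h1 : (Finset.range K).filter (fun n : ℕ => ((n : ℝ) + 1) ≤ c) ⊆ Finset.range ⌊c⌋₊ := by
    intro n hn
    rw [Finset.mem_filter] at hn
    rw [Finset.mem_range]
    have h3 : ((n + 1 : ℕ) : ℝ) ≤ c := by push_cast; exact hn.2
    have h4 := Nat.le_floor h3
    omega
  have h2 := Finset.card_le_card h1
  rw [Finset.card_range] at h2
  calc (((Finset.range K).filter (fun n : ℕ => ((n : ℝ) + 1) ≤ c)).card : ℝ) ≤ (⌊c⌋₊ : ℝ) := by
        exact_mod_cast h2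
    _ ≤ c := Nat.floor_le hc

private lemma ptw_tel (e : ℕ → ℝ) (h0 : ∀ n, 0 ≤ e n) (K : ℕ) :
    ∑ n ∈ Finset.range K, (e n - e (n + 1)) ≤ e 0 := by
  rw [Finset.sum_range_sub']
  linarith [h0 K]

theorem f_PTW (h1 : Sa_UNI) (h2 : Sa_CLV) (h3 : Sa_CLS) (h4 : Sf_FAR) (h5 : Sf_WDP) (h6 : Sf_TMB)
    (h7 : Sf_STP) : Sf_PTW := by
  intro S D₀ hD
  obtain ⟨C₁, hC₁, hT⟩ := h6 S
  have hD1 : 1 ≤ D₀ := hD.1
  have hD0 : 0 < D₀ := by linarith
  refine ⟨9 * D₀ + D₀ ^ 2 + C₁ * (1 + 5 * D₀) * (6 * D₀) ^ 2 + 9 * D₀ ^ 3, by positivity, ?_⟩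
  intro r x ψ M K hx hNH hM
  obtain ⟨-, hW⟩ := h5 S r x (ev ψ) hx
  have hW' := hW hNH
  have hev := ptw_norm_ev ψ
  set T : ℕ → ℝ := fun n => tm S r x (ev ψ) (wd S r x (ev ψ) n) with hTdef
  set e : ℕ → ℝ := fun n => ee S r x (wd S r x (ev ψ) n) ψ with hedef
  have hT0 : T 0 = 0 := by
    simp only [hTdef, wd, tm, if_true]
  have hTmono : ∀ n, T n < T (n + 1) := fun n => (hW' n).2.2.2.1
  have he0 : ∀ n, 0 ≤ e n := fun n => (h2 S (wd S r x (ev ψ) n) (Pl.home S r) x (ev ψ)).2.2.1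
  have hestep : ∀ n, e (n + 1) ≤ e n := by
    intro n
    obtain ⟨j, hj⟩ := (hW' n).2.2.1
    simp only [hedef, ee]
    rw [hj, h3]
    exact min_le_left _ _
  have heanti : Antitone e := antitone_nat_of_succ_le hestep
  have heD : e 0 ≤ D₀ := by
    have ha := (h2 S (wd S r x (ev ψ) 0) (Pl.home S r) x (ev ψ))
    have hb := ha.1 _ (ha.2.2.2.1 0)
    have hc := ptw_cx_le (ev ψ) ((Pl.home S r).V 0 - x) hev
    have hd := hD.2.2.1 (Pl.home S r) x 0 hx
    rw [norm_sub_rev] at hd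
    exact hb.trans (hc.trans hd)
  have hDD : ∀ n s, T n < s → s < T (n + 1) → DD S r x (ev ψ) s = e n := by
    intro n s hs1 hs2
    have ha := (hW' n).2.2.2.2.1 s hs1 hs2
    exact (h1 S r x (ev ψ) s _ _ ha ha).2.1
  -- a large index
  obtain ⟨K', hKK', hK'⟩ : ∃ K' : ℕ, K ≤ K' ∧ M + D₀ ≤ T K' := by
    refine ⟨max K ⌈C₁ * (1 + M + D₀)⌉₊, le_max_left _ _, ?_⟩
    have ha := hT r x (ev ψ) (max K ⌈C₁ * (1 + M + D₀)⌉₊) hx hev hNH
    have hb : C₁ * (1 + M + D₀) ≤ ((max K ⌈C₁ * (1 + M + D₀)⌉₊ : ℕ) : ℝ) := by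
      refine (Nat.le_ceil _).trans ?_
      exact_mod_cast le_max_right _ _
    have hc : C₁ * (1 + M + D₀) ≤ C₁ * (1 + T (max K ⌈C₁ * (1 + M + D₀)⌉₊)) := hb.trans ha
    have hd := le_of_mul_le_mul_left hc (by linarith)
    linarith
  have hMK' : M ≤ T K' := by linarith
  obtain ⟨-, s2, -, s4⟩ := h7 T e (DD S r x (ev ψ)) K' M hM hT0 hTmono hDD hMK'
  obtain ⟨-, -, s3, -⟩ := h7 T e (DD S r x (ev ψ)) K' (M + D₀) (by linarith) hT0 hTmono hDD hK'
  have s3' := s3 heanti he0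
  have s4' := s4 heanti he0
  -- the bound at one node
  set c : ℝ := C₁ * (1 + 5 * D₀) with hcdef
  have hc0 : 0 ≤ c := by positivity
  have hdiff : ∀ n, 0 ≤ e n - e (n + 1) := fun n => by linarith [hestep n]
  have hTpos : ∀ n, 0 ≤ T n := by
    intro n
    induction n with
    | zero => rw [hT0]
    | succ n ih => linarith [hTmono n]
  have hnode : ∀ n, RR S r x D₀ M (wd S r x (ev ψ) (n + 1)) ψ ≤
      (T (n + 1) * max 0 (M - T (n + 1)) * (e n - e (n + 1)) +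
        D₀ * (max 0 (M - T (n + 1)) * (e n - e (n + 1)))) +
      9 * D₀ * ((if T (n + 1) ≤ M + D₀ then T (n + 1) * (e n - e (n + 1)) else 0) +
        D₀ * (e n - e (n + 1))) +
      (if ((n : ℝ) + 1) ≤ c then M * (6 * D₀) ^ 2 else 0) := by
    intro n
    obtain ⟨j, hj⟩ := (hW' n).2.2.1
    have hrun : Run (Pl.home S r) x (ev ψ) (wd S r x (ev ψ) n ++ [j]) := by
      rw [← hj]; exact (hW' (n + 1)).1
    have hF := h4 S D₀ hD r x hx (wd S r x (ev ψ) n) j ψ hrun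
    rw [← hj] at hF
    obtain ⟨-, f2, -, -, f5, -, -⟩ := hF
    have hdl : (wd S r x (ev ψ) (n + 1)).dropLast = wd S r x (ev ψ) n := by
      rw [hj, List.dropLast_concat]
    have hA : 0 ≤ T (n + 1) * max 0 (M - T (n + 1)) * (e n - e (n + 1)) +
        D₀ * (max 0 (M - T (n + 1)) * (e n - e (n + 1))) := by
      have := hTpos (n + 1)
      have := hdiff n
      have : 0 ≤ max 0 (M - T (n + 1)) := le_max_left _ _
      positivity
    have hB : 0 ≤ 9 * D₀ * ((if T (n + 1) ≤ M + D₀ then T (n + 1) * (e n - e (n + 1)) else 0) +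
        D₀ * (e n - e (n + 1))) := by
      have h8 := hTpos (n + 1)
      have h9 := hdiff n
      have h10 : 0 ≤ (if T (n + 1) ≤ M + D₀ then T (n + 1) * (e n - e (n + 1)) else 0) := by
        split_ifs
        · positivity
        · exact le_refl _
      positivity
    have hFF : 0 ≤ (if ((n : ℝ) + 1) ≤ c then M * (6 * D₀) ^ 2 else 0) := by
      split_ifs
      · positivity
      · exact le_refl _
    by_cases hfar : Far S r x D₀ (wd S r x (ev ψ) (n + 1))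
    · have hρ : ‖apx S r (wd S r x (ev ψ) (n + 1)) - x‖ ≤ T (n + 1) + D₀ := by
        have := (abs_le.1 f2).2
        linarith
      have hρ0 : 0 ≤ ‖apx S r (wd S r x (ev ψ) (n + 1)) - x‖ := norm_nonneg _
      have hm0 : 0 ≤ max 0 (M - T (n + 1)) := le_max_left _ _
      have e1 : RR S r x D₀ M (wd S r x (ev ψ) (n + 1)) ψ =
          ‖apx S r (wd S r x (ev ψ) (n + 1)) - x‖ * (e n - e (n + 1)) * max 0 (M - T (n + 1)) +
          9 * D₀ * ‖apx S r (wd S r x (ev ψ) (n + 1)) - x‖ * (e n - e (n + 1)) *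
            (if T (n + 1) ≤ M + D₀ then 1 else 0) := by
        unfold RR
        rw [if_pos hfar, hdl]
        rfl
      rw [e1]
      have g1 : ‖apx S r (wd S r x (ev ψ) (n + 1)) - x‖ * (e n - e (n + 1)) *
          max 0 (M - T (n + 1)) ≤ T (n + 1) * max 0 (M - T (n + 1)) * (e n - e (n + 1)) +
        D₀ * (max 0 (M - T (n + 1)) * (e n - e (n + 1))) := by
        have := mul_le_mul_of_nonneg_right hρ (mul_nonneg (hdiff n) hm0)
        nlinarith
      have g2 : 9 * D₀ * ‖apx S r (wd S r x (ev ψ) (n + 1)) - x‖ * (e n - e (n + 1)) *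
            (if T (n + 1) ≤ M + D₀ then 1 else 0) ≤
          9 * D₀ * ((if T (n + 1) ≤ M + D₀ then T (n + 1) * (e n - e (n + 1)) else 0) +
            D₀ * (e n - e (n + 1))) := by
        have h9 := hdiff n
        split_ifs
        · have := mul_le_mul_of_nonneg_right hρ (mul_nonneg h9 (by linarith : (0:ℝ) ≤ 9 * D₀))
          nlinarith
        · rw [mul_zero]
          positivity
      linarith
    · have e1 : RR S r x D₀ M (wd S r x (ev ψ) (n + 1)) ψ = M * (6 * D₀) ^ 2 := by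
        unfold RR
        rw [if_neg hfar]
      have h8 : T (n + 1) ≤ 5 * D₀ := f5 hfar
      have h9 := hT r x (ev ψ) (n + 1) hx hev hNH
      have h10 : ((n : ℝ) + 1) ≤ c := by
        have h11 : C₁ * (1 + tm S r x (ev ψ) (wd S r x (ev ψ) (n + 1))) ≤ C₁ * (1 + 5 * D₀) :=
          mul_le_mul_of_nonneg_left (by linarith) (by linarith)
        have h12 : ((n + 1 : ℕ) : ℝ) = (n : ℝ) + 1 := by push_cast; ring
        rw [h12] at h9
        exact h9.trans h11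
      rw [e1, if_pos h10]
      linarith
  -- positivity of the bounds
  have hpos : ∀ n, 0 ≤ (T (n + 1) * max 0 (M - T (n + 1)) * (e n - e (n + 1)) +
        D₀ * (max 0 (M - T (n + 1)) * (e n - e (n + 1)))) +
      9 * D₀ * ((if T (n + 1) ≤ M + D₀ then T (n + 1) * (e n - e (n + 1)) else 0) +
        D₀ * (e n - e (n + 1))) +
      (if ((n : ℝ) + 1) ≤ c then M * (6 * D₀) ^ 2 else 0) := by
    intro n
    have h8 := hTpos (n + 1)
    have h9 := hdiff n
    have hm0 : 0 ≤ max 0 (M - T (n + 1)) := le_max_left _ _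
    have h10 : 0 ≤ (if T (n + 1) ≤ M + D₀ then T (n + 1) * (e n - e (n + 1)) else 0) := by
      split_ifs
      · positivity
      · exact le_refl _
    have h11 : 0 ≤ (if ((n : ℝ) + 1) ≤ c then M * (6 * D₀) ^ 2 else 0) := by
      split_ifs
      · positivity
      · exact le_refl _
    positivity
  have hsum1 : ∑ n ∈ Finset.range K, RR S r x D₀ M (wd S r x (ev ψ) (n + 1)) ψ ≤
      ∑ n ∈ Finset.range K', ((T (n + 1) * max 0 (M - T (n + 1)) * (e n - e (n + 1)) +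
        D₀ * (max 0 (M - T (n + 1)) * (e n - e (n + 1)))) +
      9 * D₀ * ((if T (n + 1) ≤ M + D₀ then T (n + 1) * (e n - e (n + 1)) else 0) +
        D₀ * (e n - e (n + 1))) +
      (if ((n : ℝ) + 1) ≤ c then M * (6 * D₀) ^ 2 else 0)) := by
    refine (Finset.sum_le_sum fun n _ => hnode n).trans ?_
    exact Finset.sum_le_sum_of_subset_of_nonneg (Finset.range_mono hKK') fun n _ _ => hpos n
  rw [Finset.sum_add_distrib, Finset.sum_add_distrib, Finset.sum_add_distrib, ← Finset.mul_sum,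
    ← Finset.mul_sum, Finset.sum_add_distrib, ← Finset.mul_sum, ← s2] at hsum1
  have hcard := ptw_card K' c hc0
  have htel := ptw_tel e he0 K'
  have hI : 0 ≤ ∫ s in (0 : ℝ)..(M + D₀), DD S r x (ev ψ) s := by
    refine le_trans ?_ s3'
    refine Finset.sum_nonneg fun n _ => ?_
    split_ifs
    · exact mul_nonneg (hTpos _) (hdiff n)
    · exact le_refl _
  set I : ℝ := ∫ s in (0 : ℝ)..(M + D₀), DD S r x (ev ψ) s with hIdef
  have b1 : D₀ * ∑ n ∈ Finset.range K', max 0 (M - T (n + 1)) * (e n - e (n + 1)) ≤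
      D₀ * (M * D₀) :=
    mul_le_mul_of_nonneg_left (s4'.trans (mul_le_mul_of_nonneg_left heD hM)) hD0.le
  have b2 : 9 * D₀ * (∑ n ∈ Finset.range K',
      (if T (n + 1) ≤ M + D₀ then T (n + 1) * (e n - e (n + 1)) else 0) +
        D₀ * ∑ n ∈ Finset.range K', (e n - e (n + 1))) ≤ 9 * D₀ * (I + D₀ * D₀) := by
    refine mul_le_mul_of_nonneg_left ?_ (by positivity)
    refine add_le_add s3' (mul_le_mul_of_nonneg_left (htel.trans heD) hD0.le)
  have b3 : ∑ n ∈ Finset.range K', (if ((n : ℝ) + 1) ≤ c then M * (6 * D₀) ^ 2 else 0) ≤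
      c * (M * (6 * D₀) ^ 2) := by
    rw [← Finset.sum_filter, Finset.sum_const, nsmul_eq_mul]
    exact mul_le_mul_of_nonneg_right hcard (by positivity)
  have hC1 : 0 ≤ (D₀ ^ 2 + c * (6 * D₀) ^ 2 + 9 * D₀ ^ 3) * I := by positivity
  have hC2 : 0 ≤ (9 * D₀ + 9 * D₀ ^ 3) * M + (9 * D₀ + D₀ ^ 2 + c * (6 * D₀) ^ 2) := by positivity
  have hC3 : (9 * D₀ + D₀ ^ 2 + c * (6 * D₀) ^ 2 + 9 * D₀ ^ 3) * I =
    9 * D₀ * I + (D₀ ^ 2 + c * (6 * D₀) ^ 2 + 9 * D₀ ^ 3) * I := by ring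
  have hC4 : (9 * D₀ + D₀ ^ 2 + c * (6 * D₀) ^ 2 + 9 * D₀ ^ 3) * (M + 1) =
    D₀ * (M * D₀) + 9 * D₀ * (D₀ * D₀) + c * (M * (6 * D₀) ^ 2) +
      ((9 * D₀ + 9 * D₀ ^ 3) * M + (9 * D₀ + D₀ ^ 2 + c * (6 * D₀) ^ 2)) := by ring
  rw [hC3, hC4]
  linarith

end Pool.Agent.FAN
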