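import Pool.Agent.FAN.StF

/-!
# FAN, block 3, module STP (helper20): step functions
-/

set_option autoImplicit false

open scoped ComplexConjugate
open MeasureTheory Set

namespace Pool.Agent.FAN

private theorem stp_piece (a b c : ℝ) (hab : a ≤ b) (g D : ℝ → ℝ) (hg : Continuous g)
    (h : ∀ s, a < s → s < b → D s = c) :
    IntervalIntegrable (fun s => g s * D s) volume a b ∧
      ∫ s in a..b, g s * D s = c * ∫ s in a..b, g s := by
  have heq : EqOn (fun s => g s * D s) (fun s => c * g s) (Ioo a b) := by
    intro s hs
    simp only [h s hs.1 hs.2]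
    ring
  have hi : IntervalIntegrable (fun s => c * g s) volume a b :=
    (hg.intervalIntegrable a b).const_mul c
  constructor
  · rw [intervalIntegrable_iff_integrableOn_Ioo_of_le hab] at hi ⊢
    exact hi.congr_fun heq.symm measurableSet_Ioo
  · rw [← intervalIntegral.integral_const_mul, intervalIntegral.integral_of_le hab,
      intervalIntegral.integral_of_le hab, MeasureTheory.integral_Ioc_eq_integral_Ioo,
      MeasureTheory.integral_Ioc_eq_integral_Ioo]
    exact MeasureTheory.setIntegral_congr_fun measurableSet_Ioo heq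

theorem f_STP : Sf_STP := by
  intro T e D K M hM hT0 hT hD hK
  have mono : StrictMono T := strictMono_nat_of_lt_succ hT
  have hTn : ∀ n, 0 ≤ T n := fun n => by
    rw [← hT0]
    exact mono.monotone (Nat.zero_le n)
  set m : ℕ → ℝ := fun n => min (T n) M with hm
  have m0 : m 0 = 0 := by
    simp only [hm, hT0]
    exact min_eq_left hM
  have mK : m K = M := min_eq_right hK
  have mnn : ∀ n, 0 ≤ m n := fun n => le_min (hTn n) hM
  have mm : ∀ n, m n ≤ m (n + 1) := fun n => min_le_min (hT n).le le_rfl
  have hmax : ∀ n, max 0 (M - T n) = M - m n := by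
    intro n
    simp only [hm]
    rcases le_total (T n) M with h | h
    · rw [min_eq_left h, max_eq_right (by linarith)]
    · rw [min_eq_right h, max_eq_left (by linarith)]
      ring
  have hu : ∀ n, T n * max 0 (M - T n) = m n * (M - m n) := by
    intro n
    rw [hmax]
    simp only [hm]
    rcases le_total (T n) M with h | h
    · rw [min_eq_left h]
    · rw [min_eq_right h]
      ring
  have hloc : ∀ n s, m n < s → s < m (n + 1) → D s = e n := by
    intro n s h1 h2
    have h3 : s < T (n + 1) := lt_of_lt_of_le h2 (min_le_left _ _)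
    have h4 : s < M := lt_of_lt_of_le h2 (min_le_right _ _)
    refine hD n s ?_ h3
    rcases min_lt_iff.1 h1 with h | h
    · exact h
    · exact absurd h4 (not_lt.2 h.le)
  have split : ∀ g : ℝ → ℝ, Continuous g → ∫ s in (0 : ℝ)..M, g s * D s =
      ∑ n ∈ Finset.range K, e n * ∫ s in m n..m (n + 1), g s := by
    intro g hg
    have h1 := intervalIntegral.sum_integral_adjacent_intervals (a := m) (n := K)
      (f := fun s => g s * D s) (μ := volume)
      (fun k _ => (stp_piece (m k) (m (k + 1)) (e k) (mm k) g D hg (hloc k)).1)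
    rw [m0, mK] at h1
    rw [← h1]
    exact Finset.sum_congr rfl fun k _ =>
      (stp_piece (m k) (m (k + 1)) (e k) (mm k) g D hg (hloc k)).2
  have I1 : ∫ s in (0 : ℝ)..M, D s = ∑ n ∈ Finset.range K, e n * (m (n + 1) - m n) := by
    have h1 := split (fun _ => 1) continuous_const
    simpa using h1
  refine ⟨?_, ?_, ?_, ?_⟩
  · rw [I1]
    refine Finset.sum_congr rfl fun n _ => ?_
    rw [hmax, hmax]
    ring
  · rw [split (fun s => M - 2 * s) (by fun_prop)]
    have h2 : ∀ n, ∫ s in m n..m (n + 1), (M - 2 * s) =
        m (n + 1) * (M - m (n + 1)) - m n * (M - m n) := by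
      intro n
      have h3 : ∀ s ∈ uIcc (m n) (m (n + 1)), HasDerivAt (fun t : ℝ => t * (M - t))
          (M - 2 * s) s := by
        intro s _
        have h4 := (hasDerivAt_id s).mul ((hasDerivAt_id s).const_sub M)
        refine h4.congr_deriv ?_
        simp
        ring
      exact intervalIntegral.integral_eq_sub_of_hasDerivAt h3
        ((by fun_prop : Continuous fun s : ℝ => M - 2 * s).intervalIntegrable _ _)
    rw [← sub_eq_zero, ← Finset.sum_sub_distrib]
    have h5 : ∀ n ∈ Finset.range K, e n * (∫ s in m n..m (n + 1), (M - 2 * s)) -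
        T (n + 1) * max 0 (M - T (n + 1)) * (e n - e (n + 1)) =
        m (n + 1) * (M - m (n + 1)) * e (n + 1) - m n * (M - m n) * e n := by
      intro n _
      rw [h2, hu]
      ring
    rw [Finset.sum_congr rfl h5, Finset.sum_range_sub (fun n => m n * (M - m n) * e n), m0, mK]
    ring
  · intro ha hp
    rw [I1]
    have h6 : ∀ n ∈ Finset.range K, (if T (n + 1) ≤ M then T (n + 1) * (e n - e (n + 1)) else 0) ≤
        e n * (m (n + 1) - m n) + (m n * e n - m (n + 1) * e (n + 1)) := by
      intro n _
      have h7 : 0 ≤ e n - e (n + 1) := sub_nonneg.2 (ha (Nat.le_succ n))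
      split_ifs with h
      · have h8 : m (n + 1) = T (n + 1) := min_eq_left h
        rw [h8]
        apply le_of_eq
        ring
      · have h9 := mul_nonneg (mnn (n + 1)) h7
        nlinarith
    refine (Finset.sum_le_sum h6).trans ?_
    rw [Finset.sum_add_distrib, Finset.sum_range_sub' (fun n => m n * e n), m0]
    have h10 := mul_nonneg (mnn K) (hp K)
    linarith
  · intro ha hp
    have h11 : ∀ n ∈ Finset.range K, max 0 (M - T (n + 1)) * (e n - e (n + 1)) ≤
        M * (e n - e (n + 1)) := by
      intro n _
      have h7 : 0 ≤ e n - e (n + 1) := sub_nonneg.2 (ha (Nat.le_succ n))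
      refine mul_le_mul_of_nonneg_right ?_ h7
      exact max_le hM (by linarith [hTn (n + 1)])
    refine (Finset.sum_le_sum h11).trans ?_
    rw [← Finset.mul_sum, Finset.sum_range_sub']
    have h12 := mul_nonneg hM (hp K)
    nlinarith

end Pool.Agent.FAN
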