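import Pool.Agent.FAN.StF

/-! FAN, block 3, module TMB (helper11): the number of crossed edges is linear in the time. -/

set_option autoImplicit false

open scoped ComplexConjugate
open MeasureTheory Set

namespace Pool.Agent.FAN

theorem f_TMB (h1 : Sa_LEN) (h2 : Sa_CTS) (h3 : Sa_ENT) (h4 : Sf_WDP) : Sf_TMB := by
  intro S
  obtain ⟨C, hC, hlen⟩ := h1 S
  refine ⟨max C 1, le_max_right _ _, ?_⟩
  intro r x v n hx hv hnh
  have hC1 : (0 : ℝ) ≤ max C 1 := le_trans zero_le_one (le_max_right _ _)
  obtain ⟨-, hw⟩ := h4 S r x v hx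
  obtain ⟨hrun, hl, -⟩ := hw hnh n
  by_cases hne : wd S r x v n = []
  · have hn : n = 0 := by rw [← hl, hne]; rfl
    subst hn
    simp only [tm, hne, if_true, Nat.cast_zero, add_zero, mul_one]
    exact hC1
  · have htm : tm S r x v (wd S r x v n) =
        (endP (Pl.home S r) (wd S r x v n)).ct x v (eI (Pl.home S r) 0 (wd S r x v n)) := by
      simp only [tm, if_neg hne]
    obtain ⟨-, -, hmem, hle⟩ := h3 S (wd S r x v n) (Pl.home S r) x v 0 hne hrun
    have hpos := (h2 S).2.2.2 (wd S r x v n) (Pl.home S r) x v hx hrun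
    have h0 : 0 < tm S r x v (wd S r x v n) := by
      rw [htm]; exact hpos _ hmem
    have hb := hlen (wd S r x v n) (Pl.home S r) x v 0 (tm S r x v (wd S r x v n)) hv h0.le hrun
      (fun t ht => ⟨(hpos t ht).le, by rw [htm]; exact hle t ht⟩)
    rw [hl, sub_zero] at hb
    refine hb.trans ?_
    exact mul_le_mul_of_nonneg_right (le_max_left _ _) (by linarith)

end Pool.Agent.FAN
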