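import Pool.Agent.FAN.StF

/-!
# FAN, block 3, module TWO (helper75): the one dimensional fan lemma, `θ` outside the arc
-/

set_option autoImplicit false

open scoped ComplexConjugate
open MeasureTheory Set

namespace Pool.Agent.FAN

theorem f_TWO (h1 : Sf_ONA) : Sf_TWO := by
  intro f w α β θ ρ κ hαβ hθ hρ hκ hf hw h0 hfα hfβ hder
  have hA := h1 f w α β θ ρ κ hαβ.le hρ hκ hf hw h0 hder
  have hm : ∀ s, min (0 : ℝ) (ρ * |Real.sin (s - θ)|) = 0 := fun s =>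
    min_eq_left (by positivity)
  have hI : 0 ≤ ∫ ψ in α..β, (f ψ - min (f ψ) (ρ * |Real.sin (ψ - θ)|)) :=
    intervalIntegral.integral_nonneg hαβ.le fun ψ _ => sub_nonneg.2 (min_le_left _ _)
  have hJ : 0 ≤ ∫ ψ in α..β, (f ψ - min (f ψ) (ρ * |Real.sin (ψ - θ)|)) * w ψ :=
    intervalIntegral.integral_nonneg hαβ.le fun ψ hψ =>
      mul_nonneg (sub_nonneg.2 (min_le_left _ _)) (h0 ψ hψ).2
  have hkr : 0 ≤ κ * ρ := mul_nonneg hκ hρ.le
  have key : ∫ ψ in α..β, (|deriv (fun s => (min (f s) (ρ * |Real.sin (s - θ)|)) ^ 2 / 2) ψ| -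
      |deriv (fun s => f s ^ 2 / 2) ψ|) * w ψ ≤
      κ * ρ * (∫ ψ in α..β, (f ψ - min (f ψ) (ρ * |Real.sin (ψ - θ)|))) := by
    rcases hθ with ⟨h2, h3⟩ | ⟨h2, h3⟩
    · have h4 := hA.2 h2 h3
      rw [hfα, hfβ, hm, hm] at h4
      linarith
    · have h4 := hA.1 h2 h3
      rw [hfα, hfβ, hm, hm] at h4
      linarith
  have h5 := mul_nonneg hkr hI
  have h6 := mul_nonneg hρ.le hJ
  have h7 : 9 * κ * ρ * (∫ ψ in α..β, (f ψ - min (f ψ) (ρ * |Real.sin (ψ - θ)|))) =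
      9 * (κ * ρ * (∫ ψ in α..β, (f ψ - min (f ψ) (ρ * |Real.sin (ψ - θ)|)))) := by ring
  rw [h7]
  linarith

end Pool.Agent.FAN
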