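import Pool.Agent.FAN.StF

/-!
# FAN, block 3, module WDP (helper99): the word of a ray
-/

set_option autoImplicit false

open scoped ComplexConjugate
open MeasureTheory Set

namespace Pool.Agent.FAN

namespace WDP

variable {S : TriSys}

theorem run_snoc (h1 : Sa_EXU) (q : Pl S) (x v : ℂ) (js : List (ZMod 3)) (j : ZMod 3) :
    Run q x v (js ++ [j]) ↔ Run q x v js ∧ (endP q js).Ex x v j := by
  have h := ((h1 S).2.2.2.2.2.2.2 js [j] q x v 0).1
  rw [h]
  simp [Run]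

theorem endP_snoc (h1 : Sa_EXU) (q : Pl S) (js : List (ZMod 3)) (j : ZMod 3) :
    endP q (js ++ [j]) = (endP q js).nx j := by
  have h := ((h1 S).2.2.2.2.2.2.2 js [j] q 0 0 0).2.1
  rw [h]
  rfl

theorem eI_snoc (h1 : Sa_EXU) (q : Pl S) (i : ZMod 3) (js : List (ZMod 3)) (j : ZMod 3) :
    eI q i (js ++ [j]) = (endP q js).en j := by
  have h := ((h1 S).2.2.2.2.2.2.2 js [j] q 0 0 i).2.2.1
  rw [h]
  rfl

theorem wd_succ (h1 : Sa_EXU) (r : S.R) (x v : ℂ) (n : ℕ) (j : ZMod 3)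
    (hj : (endP (Pl.home S r) (wd S r x v n)).Ex x v j) :
    wd S r x v (n + 1) = wd S r x v n ++ [j] := by
  have hex : ∃ j, (endP (Pl.home S r) (wd S r x v n)).Ex x v j := ⟨j, hj⟩
  have h2 : hex.choose = j := (h1 S).1 _ x v _ _ hex.choose_spec hj
  conv_lhs => rw [wd]
  rw [dif_pos hex, h2]

theorem wd_run (h1 : Sa_EXU) (r : S.R) (x v : ℂ) (js : List (ZMod 3)) :
    Run (Pl.home S r) x v js → wd S r x v js.length = js := by
  induction js using List.reverseRecOn with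
  | nil => intro _; rfl
  | append_singleton js j ih =>
    intro h
    rw [run_snoc h1] at h
    have h2 := ih h.1
    rw [List.length_append, List.length_singleton]
    have h3 : (endP (Pl.home S r) (wd S r x v js.length)).Ex x v j := by
      rw [h2]; exact h.2
    rw [wd_succ h1 r x v js.length j h3, h2]

/-- the exit edge -/
theorem exit (h1 : Sa_EXU) (h4 : Sa_ENT) (r : S.R) (x v : ℂ) (hx : x ∈ rm S r)
    (hN : NH S r x v) (js : List (ZMod 3)) (hR : Run (Pl.home S r) x v js) :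
    ∃ j, (endP (Pl.home S r) js).Ex x v j := by
  by_cases hjs : js = []
  · subst hjs
    exact (h1 S).2.2.2.2.2.2.1 _ x v hx (hN [] hR)
  · have hE := (h4 S js (Pl.home S r) x v 0 hjs hR).1
    set i := eI (Pl.home S r) 0 js
    have h5 := (h1 S).2.2.2.1 _ x v i hE
    rcases lt_or_gt_of_ne (hN js hR i) with h | h
    · exact ⟨_, h5.2 h⟩
    · exact ⟨_, h5.1 h⟩

theorem tm_snoc (h1 : Sa_EXU) (h2 : Sa_TIM) (r : S.R) (x v : ℂ) (js : List (ZMod 3)) (j : ZMod 3) :
    tm S r x v (js ++ [j]) = (endP (Pl.home S r) js).ct x v j := by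
  rw [tm, if_neg (by simp), endP_snoc h1, eI_snoc h1]
  exact (h2 S).1 _ x v j

end WDP

open WDP in
/-- WDP. -/
theorem f_WDP (h1 : Sa_EXU) (h2 : Sa_TIM) (h4 : Sa_ENT) : Sf_WDP := by
  intro S r x v hx
  refine ⟨fun js h => wd_run h1 r x v js h, ?_⟩
  intro hN
  have key : ∀ n, Run (Pl.home S r) x v (wd S r x v n) ∧ (wd S r x v n).length = n := by
    intro n
    induction n with
    | zero => exact ⟨trivial, rfl⟩
    | succ n ih =>
      obtain ⟨j, hj⟩ := exit h1 h4 r x v hx hN _ ih.1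
      rw [wd_succ h1 r x v n j hj]
      refine ⟨(run_snoc h1 _ x v _ j).2 ⟨ih.1, hj⟩, ?_⟩
      rw [List.length_append, ih.2, List.length_singleton]
  intro n
  obtain ⟨hR, hl⟩ := key n
  obtain ⟨j, hj⟩ := exit h1 h4 r x v hx hN _ hR
  have hs := wd_succ h1 r x v n j hj
  have ht : tm S r x v (wd S r x v (n + 1)) = (endP (Pl.home S r) (wd S r x v n)).ct x v j := by
    rw [hs, tm_snoc h1 h2]
  refine ⟨hR, hl, ⟨j, hs⟩, ?_, ?_, ?_⟩
  · rw [ht]
    by_cases hjs : wd S r x v n = []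
    · rw [tm, if_pos hjs, hjs]
      rw [hjs] at hj
      exact (h2 S).2.2.2.2.2.2.1 _ x v j hx hj
    · rw [tm, if_neg hjs]
      exact (h2 S).2.2.2.1 _ x v _ j (h4 S _ (Pl.home S r) x v 0 hjs hR).1 hj
  · intro N hN1 hN2
    rw [ht] at hN2
    refine ⟨hx, hR, ?_⟩
    by_cases hjs : wd S r x v n = []
    · rw [tm, if_pos hjs] at hN1
      rw [hjs] at hj hN2 ⊢
      exact (h2 S).2.2.2.2.2.1 _ x v j N hx hj hN1.le hN2
    · rw [tm, if_neg hjs] at hN1
      exact (h2 S).2.2.2.2.1 _ x v _ j N (h4 S _ (Pl.home S r) x v 0 hjs hR).1 hj hN1 hN2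
  · intro N hN1 hN2
    obtain ⟨hR0, -⟩ := key 0
    obtain ⟨k, hk⟩ := exit h1 h4 r x v hx hN _ hR0
    have hs0 := wd_succ h1 r x v 0 k hk
    have ht0 : tm S r x v (wd S r x v 1) = (endP (Pl.home S r) (wd S r x v 0)).ct x v k := by
      have : wd S r x v 1 = wd S r x v 0 ++ [k] := hs0
      rw [this, tm_snoc h1 h2]
    rw [ht0] at hN2
    exact ⟨hx, hR0, (h2 S).2.2.2.2.2.1 _ x v k N hx hk hN1 hN2⟩

end Pool.Agent.FAN
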