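import Pool.Agent.FAN.StM
import Pool.Agent.FAN.Base2

/-!
# FAN, block 2, module BND: bounds (helper5)
-/

set_option autoImplicit false

open scoped ComplexConjugate
open MeasureTheory Set

namespace Pool.Agent.FAN

variable {S : TriSys}

private theorem mbnd_sq {v : ℂ} (hv : ‖v‖ = 1) (w : ℂ) : cx v w ^ 2 + dt v w ^ 2 = ‖w‖ ^ 2 := by
  have h : v.re * v.re + v.im * v.im = 1 := by
    have := dt_self v
    rw [hv] at this
    simpa [dt] using this
  rw [← Complex.normSq_eq_norm_sq, Complex.normSq_apply]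
  simp only [cx, dt]
  linear_combination (w.re * w.re + w.im * w.im) * h

private theorem mbnd_cx {v : ℂ} (hv : ‖v‖ = 1) (w : ℂ) : |cx v w| ≤ ‖w‖ := by
  have h := mbnd_sq hv w
  apply abs_le_of_sq_le_sq _ (norm_nonneg w)
  nlinarith [sq_nonneg (dt v w)]

private theorem mbnd_dt {v : ℂ} (hv : ‖v‖ = 1) (w : ℂ) : |dt v w| ≤ ‖w‖ := by
  have h := mbnd_sq hv w
  apply abs_le_of_sq_le_sq _ (norm_nonneg w)
  nlinarith [sq_nonneg (cx v w)]

private theorem mbnd_shift (p x v : ℂ) (τ : ℝ) (hv : ‖v‖ = 1) :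
    dt v (p - (x + τ * v)) = dt v (p - x) - τ := by
  have h : dt v v = 1 := by rw [dt_self, hv]; norm_num
  simp only [dt, Complex.sub_re, Complex.sub_im, Complex.add_re, Complex.add_im, Complex.mul_re,
    Complex.mul_im, Complex.ofReal_re, Complex.ofReal_im] at h ⊢
  linear_combination (-τ) * h

/-- the vertices of the visited rooms are near the line -/
private theorem mbnd_near {D₀ : ℝ}
    (h4 : ∀ (q : Pl S) (x v : ℂ) (i j : ZMod 3), (q.Ex x v j ∨ q.En x v j) →
      ‖x + q.ct x v j * v - q.V i‖ ≤ D₀) (x v : ℂ) (js : List (ZMod 3)) (q : Pl S)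
    (hR : Run q x v js) (p : ℂ) (hp : p ∈ vl q js) :
    (∃ i, p = q.V i) ∨ ∃ t ∈ cts q x v js, ‖x + t * v - p‖ ≤ D₀ := by
  induction js generalizing q with
  | nil =>
    left
    simp only [vl, List.mem_cons, List.not_mem_nil, or_false] at hp
    rcases hp with h | h | h
    · exact ⟨0, h⟩
    · exact ⟨1, h⟩
    · exact ⟨2, h⟩
  | cons j js ih =>
    obtain ⟨hj, hR'⟩ := hR
    simp only [vl, List.mem_cons] at hp
    rcases hp with h | h | h | h
    · exact Or.inl ⟨0, h⟩
    · exact Or.inl ⟨1, h⟩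
    · exact Or.inl ⟨2, h⟩
    · right
      rcases ih (q.nx j) hR' h with ⟨i, hi⟩ | ⟨t, ht, htp⟩
      · refine ⟨q.ct x v j, by simp [cts], ?_⟩
        have h5 := h4 (q.nx j) x v i (q.en j) (Or.inr hj.ent)
        rw [Pl.ct_nx, ← hi] at h5
        exact h5
      · exact ⟨t, by simp only [cts, List.mem_cons]; exact Or.inr ht, htp⟩

/-- an average of numbers between `a` and `b`, list form -/
private theorem mbnd_avg (c : ℂ → Prop) [DecidablePred c] (f : ℂ → ℝ) (a b : ℝ) (l : List ℂ)
    (h : ∀ p ∈ l, a ≤ f p ∧ f p ≤ b) :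
    a * (l.map fun p => if c p then (1 : ℝ) else 0).sum ≤
      (l.map fun p => if c p then f p else 0).sum ∧
    (l.map fun p => if c p then f p else 0).sum ≤
      b * (l.map fun p => if c p then (1 : ℝ) else 0).sum := by
  induction l with
  | nil => simp
  | cons p l ih =>
    obtain ⟨h1, h2⟩ := ih fun p' hp' => h p' (List.mem_cons_of_mem _ hp')
    obtain ⟨h3, h4⟩ := h p List.mem_cons_self
    simp only [List.map_cons, List.sum_cons]
    by_cases hc : c p
    · simp only [hc, if_true]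
      constructor <;> nlinarith
    · simp only [hc, if_false]
      constructor <;> nlinarith

/-- BND. -/
theorem g_BND (h1 : Sa_UNI) (h2 : Sa_CTS) (h3 : Sa_CLV) : Sm_BND := by
  intro S D₀ hD r x v N hv hN
  obtain ⟨d1, d2, d3, d4⟩ := hD
  by_cases hex : ∃ js, PW S r x v N js
  · obtain ⟨js, hjs⟩ := hex
    obtain ⟨-, hDD, hSS⟩ := h1 S r x v N js js hjs hjs
    obtain ⟨hI, hR, hE⟩ := hjs
    obtain ⟨c1, c2, c3, c4, c5⟩ := h3 S js (Pl.home S r) x v
    have hlt := (h2 S).2.2.1 js (Pl.home S r) x v N hR hE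
    have hpos := (h2 S).2.2.2 js (Pl.home S r) x v hI hR
    have hclr : clr (Pl.home S r) js x v ≤ D₀ := by
      refine (c1 _ (c4 0)).trans ?_
      refine (mbnd_cx hv _).trans ?_
      rw [norm_sub_rev]
      exact d3 _ _ _ hI
    have hdt : ∀ p ∈ vl (Pl.home S r) js, -D₀ ≤ dt v (p - x) ∧ dt v (p - x) ≤ N + D₀ := by
      intro p hp
      rcases mbnd_near d4 x v js (Pl.home S r) hR p hp with ⟨i, rfl⟩ | ⟨t, ht, htp⟩
      · have h5 : |dt v ((Pl.home S r).V i - x)| ≤ D₀ := by
          refine (mbnd_dt hv _).trans ?_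
          rw [norm_sub_rev]
          exact d3 _ _ _ hI
        obtain ⟨h6, h7⟩ := abs_le.1 h5
        exact ⟨h6, by linarith⟩
      · have h5 : |dt v (p - x) - t| ≤ D₀ := by
          rw [← mbnd_shift p x v t hv]
          refine (mbnd_dt hv _).trans ?_
          rw [norm_sub_rev]
          exact htp
        obtain ⟨h6, h7⟩ := abs_le.1 h5
        have h8 := hlt t ht
        have h9 := hpos t ht
        constructor <;> linarith
    obtain ⟨a1, a2⟩ := mbnd_avg (fun p => |cx v (p - x)| = clr (Pl.home S r) js x v)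
      (fun p => dt v (p - x)) (-D₀) (N + D₀) (vl (Pl.home S r) js) hdt
    have hden := av_den_pos js (Pl.home S r) x v
    have hav1 : -D₀ ≤ av (Pl.home S r) js x v := by
      rw [av, le_div_iff₀ hden]
      exact a1
    have hav2 : av (Pl.home S r) js x v ≤ N + D₀ := by
      rw [av, div_le_iff₀ hden]
      exact a2
    rw [hDD, hSS]
    refine ⟨c3, hclr, ?_, ?_⟩
    · rw [abs_mul, abs_of_nonneg c3]
      have h5 : |av (Pl.home S r) js x v| ≤ N + D₀ := abs_le.2 ⟨by linarith, hav2⟩
      exact mul_le_mul hclr h5 (abs_nonneg _) (by linarith)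
    · have h5 : 0 ≤ clr (Pl.home S r) js x v * (av (Pl.home S r) js x v + D₀) :=
        mul_nonneg c3 (by linarith)
      linarith
  · have hDD : DD S r x v N = 0 := by
      unfold DD
      rw [dif_neg hex]
    have hSS : SS S r x v N = 0 := by
      unfold SS
      rw [dif_neg hex]
    rw [hDD, hSS]
    have h5 : 0 ≤ D₀ * (N + D₀) := mul_nonneg (by linarith) (by linarith)
    refine ⟨le_rfl, by linarith, ?_, ?_⟩
    · rw [abs_zero]; exact h5
    · simp

end Pool.Agent.FAN
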