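import Pool.Agent.FAN.StM

/-!
# FAN, block 2, module EDI: the integrated fan inequality (helper16)
-/

set_option autoImplicit false

open scoped ComplexConjugate
open MeasureTheory Set

namespace Pool.Agent.FAN

private theorem edi_ev : Continuous ev := by
  have h : ev = fun ψ : ℝ => (Real.cos ψ : ℂ) + (Real.sin ψ : ℂ) * Complex.I := by
    funext ψ
    apply Complex.ext
    · simp only [ev, Complex.add_re, Complex.mul_re, Complex.ofReal_re, Complex.ofReal_im,
        Complex.I_re, Complex.I_im]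
      ring
    · simp only [ev, Complex.add_im, Complex.mul_im, Complex.ofReal_re, Complex.ofReal_im,
        Complex.I_re, Complex.I_im]
      ring
  rw [h]
  exact (Complex.continuous_ofReal.comp Real.continuous_cos).add
    ((Complex.continuous_ofReal.comp Real.continuous_sin).mul continuous_const)

private theorem edi_ev1 (ψ : ℝ) : ‖ev ψ‖ = 1 := by
  have h : ‖ev ψ‖ ^ 2 = 1 := by
    rw [← Complex.normSq_eq_norm_sq, Complex.normSq_apply]
    simp only [ev]
    nlinarith [Real.sin_sq_add_cos_sq ψ]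
  have h0 := norm_nonneg (ev ψ)
  nlinarith

private theorem edi_lin (S : TriSys) (c : ℝ) (G : S.R → ℂ → ℝ → ℝ) :
    EE S (fun r x ψ => c * G r x ψ) = c * EE S G := by
  simp only [EE, integral_const_mul, intervalIntegral.integral_const_mul, Finset.mul_sum]

/-- EDI. -/
theorem g_EDI (h1 : Sf_FANF) (h2 : Sa_DIA) (h3 : Sm_MEA) (h4 : Sm_BND) (h5 : Sm_TON) (h6 : Sm_SYM)
    (h7 : Sm_PHA) (h8 : Sm_OPN) : Sm_EDI := by
  intro S
  obtain ⟨C, hC1, hF⟩ := h1 S
  obtain ⟨D₀, h₀, d1, -, d2, d3, d4, -⟩ := h2 S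
  have hD : Dia S D₀ := ⟨d1, d2, d3, d4⟩
  have hb := h4 S D₀ hD
  obtain ⟨p1, -, p3⟩ := h7 S
  have hfin : ∀ r, (volume : Measure ℂ) (rm S r) < ⊤ := fun r => (h8 S r).2.2.2
  have hms : ∀ r, MeasurableSet (rm S r) := fun r => (h8 S r).2.2.1
  set W : ℝ := ∑ r, (volume : Measure ℂ).real (rm S r) with hW
  have hW0 : 0 ≤ W := Finset.sum_nonneg fun r _ => measureReal_nonneg
  have hC0 : 0 ≤ C := le_trans zero_le_one hC1
  have hCW : C ≤ C * (1 + W) := by nlinarith
  refine ⟨C * (1 + W), le_trans hC1 hCW, ?_⟩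
  intro M hM
  have hcomp : Measurable fun p : ℂ × ℝ × ℝ => ((p.1, ev p.2.1, p.2.2) : ℂ × ℂ × ℝ) :=
    measurable_fst.prodMk ((edi_ev.measurable.comp (measurable_fst.comp measurable_snd)).prodMk
      (measurable_snd.comp measurable_snd))
  have hDm : ∀ r, Measurable fun p : ℂ × ℝ × ℝ => DD S r p.1 (ev p.2.1) p.2.2 := fun r =>
    (h3 S r).1.comp hcomp
  have hSm : ∀ r, Measurable fun p : ℂ × ℝ × ℝ => SS S r p.1 (ev p.2.1) p.2.2 := fun r =>
    (h3 S r).2.comp hcomp
  -- the three applications of TON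
  obtain ⟨s1, -, s3⟩ := h5 S (fun r x ψ N => SS S r x (ev ψ) N) M (D₀ * (M + D₀)) hM hSm
    (fun r x ψ N hN hN' => (hb r x (ev ψ) N (edi_ev1 ψ) hN).2.2.1.trans
      (mul_le_mul_of_nonneg_left (by linarith) (by linarith)))
  obtain ⟨a1, a2, a3⟩ := h5 S (fun r x ψ s => (M - 2 * s) * DD S r x (ev ψ) s) M (M * D₀) hM
    (fun r => ((measurable_const.sub (measurable_const.mul
      (measurable_snd.comp measurable_snd))).mul (hDm r)))
    (fun r x ψ s hs hs' => by
      obtain ⟨q1, q2, -⟩ := hb r x (ev ψ) s (edi_ev1 ψ) hs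
      rw [abs_mul, abs_of_nonneg q1]
      exact mul_le_mul (abs_le.2 ⟨by linarith, by linarith⟩) q2 q1 hM)
  have hMC : 0 ≤ M + C := by linarith
  obtain ⟨b1, b2, b3⟩ := h5 S (fun r x ψ s => DD S r x (ev ψ) s) (M + C) D₀ hMC hDm
    (fun r x ψ s hs hs' => by
      obtain ⟨q1, q2, -⟩ := hb r x (ev ψ) s (edi_ev1 ψ) hs
      rw [abs_of_nonneg q1]
      exact q2)
  -- left hand side
  have eL : (∫ N in (0 : ℝ)..M, N / 2 * Phi S N) =
      ∑ r, ∫ x in rm S r, ∫ ψ in (0 : ℝ)..(2 * Real.pi), ∫ N in (0 : ℝ)..M, SS S r x (ev ψ) N := by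
    rw [← s3]
    refine intervalIntegral.integral_congr fun N hN => ?_
    rw [uIcc_of_le hM] at hN
    exact (h6 S N hN.1).symm
  have eA : (∫ s in (0 : ℝ)..M, (M - 2 * s) * Phi S s) =
      ∑ r, ∫ x in rm S r, ∫ ψ in (0 : ℝ)..(2 * Real.pi), ∫ s in (0 : ℝ)..M,
        (M - 2 * s) * DD S r x (ev ψ) s := by
    rw [← a3]
    refine intervalIntegral.integral_congr fun s _ => ?_
    exact (edi_lin S (M - 2 * s) (fun r x ψ => DD S r x (ev ψ) s)).symm
  have eB : (∫ s in (0 : ℝ)..(M + C), Phi S s) =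
      ∑ r, ∫ x in rm S r, ∫ ψ in (0 : ℝ)..(2 * Real.pi), ∫ s in (0 : ℝ)..(M + C),
        DD S r x (ev ψ) s := b3
  -- one room
  have hroom : ∀ r, (∫ x in rm S r, ∫ ψ in (0 : ℝ)..(2 * Real.pi), ∫ N in (0 : ℝ)..M,
      SS S r x (ev ψ) N) ≤
      (∫ x in rm S r, ∫ ψ in (0 : ℝ)..(2 * Real.pi), ∫ s in (0 : ℝ)..M,
        (M - 2 * s) * DD S r x (ev ψ) s) +
      C * (∫ x in rm S r, ∫ ψ in (0 : ℝ)..(2 * Real.pi), ∫ s in (0 : ℝ)..(M + C),
        DD S r x (ev ψ) s) + C * (M + 1) * (volume : Measure ℂ).real (rm S r) := by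
    intro r
    have i3 : IntegrableOn (fun _ : ℂ => C * (M + 1)) (rm S r) :=
      integrableOn_const (ne_of_lt (hfin r))
    have hle := setIntegral_mono_on (s1 r) (((a1 r).add ((b1 r).const_mul C)).add i3) (hms r)
      (fun x hx => by
        have h := hF r x hx M hM
        rw [intervalIntegral.integral_add (a2 r x) ((b2 r x).const_mul C),
          intervalIntegral.integral_const_mul] at h
        exact h)
    refine hle.trans (le_of_eq ?_)
    have e1 := integral_add ((a1 r).add ((b1 r).const_mul C)) i3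
    have e2 := integral_add (a1 r) ((b1 r).const_mul C)
    simp only [Pi.add_apply] at e1 e2 ⊢
    rw [e1, e2, integral_const_mul, setIntegral_const, smul_eq_mul]
    ring
  have hsum := Finset.sum_le_sum fun (r : S.R) (_ : r ∈ Finset.univ) => hroom r
  rw [Finset.sum_add_distrib, Finset.sum_add_distrib, ← Finset.mul_sum, ← Finset.mul_sum, ← eL,
    ← eA, ← eB, ← hW] at hsum
  -- enlarge the constant
  have hint : ∀ a b : ℝ, 0 ≤ a → a ≤ b → IntervalIntegrable (Phi S) volume a b := fun a b ha hab =>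
    AntitoneOn.intervalIntegrable (p3.mono (by
      rw [uIcc_of_le hab]
      exact fun s hs => ha.trans hs.1))
  have hmono : (∫ s in (0 : ℝ)..(M + C), Phi S s) ≤ ∫ s in (0 : ℝ)..(M + C * (1 + W)), Phi S s := by
    rw [← intervalIntegral.integral_add_adjacent_intervals (hint 0 (M + C) le_rfl hMC)
      (hint (M + C) (M + C * (1 + W)) hMC (by linarith))]
    have : 0 ≤ ∫ s in (M + C)..(M + C * (1 + W)), Phi S s :=
      intervalIntegral.integral_nonneg (by linarith) fun s hs => p1 s (hMC.trans hs.1)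
    linarith
  have hnn : 0 ≤ ∫ s in (0 : ℝ)..(M + C * (1 + W)), Phi S s :=
    intervalIntegral.integral_nonneg (by nlinarith) fun s hs => p1 s hs.1
  have k1 : C * (∫ s in (0 : ℝ)..(M + C), Phi S s) ≤
      C * (1 + W) * ∫ s in (0 : ℝ)..(M + C * (1 + W)), Phi S s :=
    (mul_le_mul_of_nonneg_left hmono hC0).trans (mul_le_mul_of_nonneg_right hCW hnn)
  have k2 : C * (M + 1) * W ≤ C * (1 + W) * (M + 1) := by
    have : 0 ≤ C * (M + 1) := mul_nonneg hC0 (by linarith)
    nlinarith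
  linarith

end Pool.Agent.FAN
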