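import Pool.Agent.FAN.StM

/-!
# FAN, block 2, EDN: the expected clearance decays (helper41)
-/

set_option autoImplicit false

open MeasureTheory Set

namespace Pool.Agent.FAN

theorem g_EDN (h1 : Sm_EDI) (h2 : Sm_PHA) (h3 : Sm_GRO) : Sm_EDN := by
  intro S
  obtain ⟨C, hC, hI⟩ := h1 S
  obtain ⟨hpos, ⟨B, hB⟩, hanti⟩ := h2 S
  exact h3 (Phi S) B C hanti (fun s hs => ⟨hpos s hs, hB s hs⟩) hC hI

end Pool.Agent.FAN
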