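import Pool.Agent.FAN.StM
import Pool.Agent.FAN.Base

/-!
# FAN, block 2: existence of words (helper52)
-/

set_option autoImplicit false

open scoped ComplexConjugate
open MeasureTheory Set

namespace Pool.Agent.FAN

private theorem exi_cx_ev (ψ : ℝ) (w : ℂ) :
    cx (ev ψ) w = ‖w‖ * Real.sin (Complex.arg w - ψ) := by
  have hre : w.re = ‖w‖ * Real.cos (Complex.arg w) := by
    rw [Complex.norm_mul_cos_arg]
  have him : w.im = ‖w‖ * Real.sin (Complex.arg w) := by
    rw [Complex.norm_mul_sin_arg]
  have e : cx (ev ψ) w = Real.cos ψ * w.im - Real.sin ψ * w.re := rfl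
  rw [e, Real.sin_sub]
  rw [him, hre]
  ring

private theorem exi_countable (w : ℂ) (hw : w ≠ 0) (c : ℝ) :
    {ψ : ℝ | cx (ev ψ) w = c}.Countable := by
  rcases Set.eq_empty_or_nonempty {ψ : ℝ | cx (ev ψ) w = c} with h | ⟨ψ₀, h₀⟩
  · rw [h]; exact Set.countable_empty
  · have hn : ‖w‖ ≠ 0 := norm_ne_zero_iff.2 hw
    have h₀' : cx (ev ψ₀) w = c := h₀
    have hsub : {ψ : ℝ | cx (ev ψ) w = c} ⊆
        ⋃ k : ℤ, {ψ₀ + 2 * (k : ℝ) * Real.pi,
          2 * Complex.arg w - ψ₀ - (2 * (k : ℝ) + 1) * Real.pi} := by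
      intro ψ hψ
      have hψ' : cx (ev ψ) w = c := hψ
      have e : Real.sin (Complex.arg w - ψ) = Real.sin (Complex.arg w - ψ₀) := by
        rw [exi_cx_ev] at h₀' hψ'
        exact mul_left_cancel₀ hn (hψ'.trans h₀'.symm)
      obtain ⟨k, hk⟩ := Real.sin_eq_sin_iff.1 e
      refine Set.mem_iUnion.2 ⟨k, ?_⟩
      rcases hk with hk | hk
      · left; linarith
      · right
        rw [Set.mem_singleton_iff]; linarith
    exact (Set.countable_iUnion fun k => (Set.toFinite _).countable).mono hsub

theorem g_EXI (h1 : Sf_NHC) (h2 : Sf_WDP) (h3 : Sf_TMB) : Sm_EXI := by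
  intro S r x N hx hN
  rcases hN.eq_or_lt with h0 | hpos
  · have : {ψ : ℝ | ¬ ∃ js, PW S r x (ev ψ) N js} = ∅ := by
      rw [Set.eq_empty_iff_forall_notMem]
      intro ψ hψ
      apply hψ
      refine ⟨[], hx, trivial, ?_⟩
      rw [← h0]
      have : x + ((0 : ℝ) : ℂ) * ev ψ = x := by simp
      rw [this]
      exact hx
    rw [this]; exact Set.countable_empty
  · obtain ⟨C, hC1, hC⟩ := h3 S
    have hsub : {ψ : ℝ | ¬ ∃ js, PW S r x (ev ψ) N js} ⊆ {ψ : ℝ | ¬ NH S r x (ev ψ)} ∪
        ⋃ p : List (ZMod 3) × ZMod 3, {ψ : ℝ | cx (ev ψ)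
          ((endP (Pl.home S r) p.1).V (p.2 + 2) - (endP (Pl.home S r) p.1).V (p.2 + 1)) =
          cx ((endP (Pl.home S r) p.1).V (p.2 + 1) - x)
            ((endP (Pl.home S r) p.1).V (p.2 + 2) - x) / N} := by
      intro ψ hψ
      by_cases hNH : NH S r x (ev ψ)
      · right
        obtain ⟨-, hw⟩ := h2 S r x (ev ψ) hx
        replace hw := hw hNH
        have hT0 : tm S r x (ev ψ) (wd S r x (ev ψ) 0) = 0 := by
          simp [wd, tm]
        have hex : ∃ n, N < tm S r x (ev ψ) (wd S r x (ev ψ) n) := by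
          obtain ⟨n, hn⟩ := exists_nat_gt (C * (1 + N))
          refine ⟨n, ?_⟩
          have h5 := hC r x (ev ψ) n hx (norm_ev ψ) hNH
          have h6 : C * (1 + N) < C * (1 + tm S r x (ev ψ) (wd S r x (ev ψ) n)) := lt_of_lt_of_le hn h5
          have h7 := lt_of_mul_lt_mul_left h6 (by linarith)
          linarith
        classical
        obtain ⟨m, hm, hmin⟩ : ∃ m, N < tm S r x (ev ψ) (wd S r x (ev ψ) m) ∧
            ∀ k < m, ¬ N < tm S r x (ev ψ) (wd S r x (ev ψ) k) :=
          ⟨Nat.find hex, Nat.find_spec hex, fun k hk => Nat.find_min hex hk⟩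
        rcases m with _ | n
        · rw [hT0] at hm; linarith
        · have hle : tm S r x (ev ψ) (wd S r x (ev ψ) n) ≤ N := not_lt.1 (hmin n (Nat.lt_succ_self n))
          rcases n with _ | n
          · exact absurd ⟨_, (hw 0).2.2.2.2.2 N hN hm⟩ hψ
          · rcases hle.lt_or_eq with hlt | heq
            · exact absurd ⟨_, (hw (n + 1)).2.2.2.2.1 N hlt hm⟩ hψ
            · have hne : wd S r x (ev ψ) (n + 1) ≠ [] := by
                intro h
                have := (hw (n + 1)).2.1
                rw [h] at this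
                simp at this
              refine Set.mem_iUnion.2 ⟨(wd S r x (ev ψ) (n + 1),
                eI (Pl.home S r) 0 (wd S r x (ev ψ) (n + 1))), ?_⟩
              simp only [tm, if_neg hne, Pl.ct] at heq
              simp only [Set.mem_setOf_eq]
              have hd : cx (ev ψ)
                ((endP (Pl.home S r) (wd S r x (ev ψ) (n + 1))).V
                    (eI (Pl.home S r) 0 (wd S r x (ev ψ) (n + 1)) + 2) -
                  (endP (Pl.home S r) (wd S r x (ev ψ) (n + 1))).V
                    (eI (Pl.home S r) 0 (wd S r x (ev ψ) (n + 1)) + 1)) ≠ 0 := by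
                intro h
                rw [h, div_zero] at heq
                exact absurd heq hpos.ne
              rw [div_eq_iff hd] at heq
              rw [eq_div_iff hpos.ne', heq, mul_comm]
      · left; exact hNH
    refine (Set.Countable.union (h1 S r x hx) (Set.countable_iUnion ?_)).mono hsub
    rintro ⟨js, i⟩
    apply exi_countable
    have h8 := (endP (Pl.home S r) js).ha
    intro h
    have h9 : (endP (Pl.home S r) js).V (i + 2) - (endP (Pl.home S r) js).V (i + 1) =
        (endP (Pl.home S r) js).a * (S.P (endP (Pl.home S r) js).r (i + 2) -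
          S.P (endP (Pl.home S r) js).r (i + 1)) := by
      simp only [Pl.V]; ring
    simp only at h
    rw [h9] at h
    rcases mul_eq_zero.1 h with h | h
    · rw [h] at h8; simp at h8
    · exact S.ne12 ((endP (Pl.home S r) js).r, i) h

end Pool.Agent.FAN
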