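import Pool.Agent.FAN.StM

/-!
# FAN: module GRO, the growth lemma (pure calculus) (helper48)
-/

set_option autoImplicit false

open MeasureTheory Set intervalIntegral

namespace Pool.Agent.FAN

namespace GRO

/-- the first moment of an antitone function -/
lemma moment (φ : ℝ → ℝ) (h : Antitone φ) (M : ℝ) :
    ∫ s in (0 : ℝ)..M, s * φ s =
      M * (∫ s in (0 : ℝ)..M, φ s) - ∫ t in (0 : ℝ)..M, ∫ s in (0 : ℝ)..t, φ s := by
  have hφi : ∀ a b, IntervalIntegrable φ volume a b := fun a b => h.intervalIntegrable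
  set I : ℝ → ℝ := fun M => ∫ s in (0 : ℝ)..M, φ s with hI
  have hIc : Continuous I := continuous_primitive hφi 0
  have hYd : ∀ t, HasDerivAt (fun M => ∫ t in (0 : ℝ)..M, I t) (I t) t := fun t =>
    (hIc.integral_hasStrictDerivAt 0 t).hasDerivAt
  have key := MeasureTheory.integral_eq_of_hasDerivAt_off_countable
    (fun t => t * I t - ∫ s in (0 : ℝ)..t, I s) (fun t => t * φ t) (a := 0) (b := M)
    (s := {x | ¬ ContinuousAt φ x}) h.countable_not_continuousAt ?_ ?_ ?_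
  · rw [key, zero_mul, intervalIntegral.integral_same]
    ring
  · refine ContinuousOn.sub (continuousOn_id.mul hIc.continuousOn) ?_
    exact (continuous_primitive (fun a b => hIc.intervalIntegrable a b) 0).continuousOn
  · rintro x ⟨-, hx⟩
    have hx' : ContinuousAt φ x := by
      by_contra hn
      exact hx hn
    have h1 : HasDerivAt I (φ x) x :=
      integral_hasDerivAt_right (hφi 0 x)
        (h.measurable.stronglyMeasurable.stronglyMeasurableAtFilter) hx'
    have h2 := ((hasDerivAt_id x).mul h1).sub (hYd x)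
    refine h2.congr_deriv ?_
    simp
  · exact (hφi 0 M).continuousOn_mul continuousOn_id

end GRO

open GRO

/-- GRO -/
theorem g_GRO : Sm_GRO := by
  intro Φ B C hanti hb hC hineq
  set φ : ℝ → ℝ := fun s => Φ (max s 0) with hφ
  have hφa : Antitone φ := fun a b hab =>
    hanti (mem_Ici.2 (le_max_right _ _)) (mem_Ici.2 (le_max_right _ _)) (max_le_max_right 0 hab)
  have hφ0 : ∀ s, 0 ≤ φ s := fun s => (hb _ (le_max_right _ _)).1
  have hφB : ∀ s, φ s ≤ B := fun s => (hb _ (le_max_right _ _)).2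
  have hφe : ∀ s, 0 ≤ s → φ s = Φ s := fun s hs => by
    show Φ (max s 0) = Φ s
    rw [max_eq_left hs]
  have hB : 0 ≤ B := (hφ0 0).trans (hφB 0)
  have hφi : ∀ a b, IntervalIntegrable φ volume a b := fun a b => hφa.intervalIntegrable
  set I : ℝ → ℝ := fun M => ∫ s in (0 : ℝ)..M, φ s with hI
  have hIc : Continuous I := continuous_primitive hφi 0
  set Y : ℝ → ℝ := fun M => ∫ s in (0 : ℝ)..M, I s with hY
  have hYd : ∀ t, HasDerivAt Y (I t) t := fun t =>
    (hIc.integral_hasStrictDerivAt 0 t).hasDerivAt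
  have hI0 : ∀ t, 0 ≤ t → 0 ≤ I t := fun t ht =>
    integral_nonneg ht (fun s _ => hφ0 s)
  have hY0 : ∀ t, 0 ≤ t → 0 ≤ Y t := fun t ht =>
    integral_nonneg ht (fun s hs => hI0 s hs.1)
  have hmom : ∀ M, ∫ s in (0 : ℝ)..M, s * φ s = M * I M - Y M := fun M => moment φ hφa M
  -- the inequality for `I`, `Y`
  have hcong : ∀ (M : ℝ), 0 ≤ M → ∀ s ∈ uIcc (0 : ℝ) M, Φ s = φ s := fun M hM s hs => by
    rw [uIcc_of_le hM] at hs
    exact (hφe s hs.1).symm
  have hIC : ∀ M, 0 ≤ M → I (M + C) ≤ I M + C * B := by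
    intro M hM
    have e1 : I M + ∫ s in M..(M + C), φ s = I (M + C) :=
      integral_add_adjacent_intervals (hφi _ _) (hφi _ _)
    have e2 : ∫ s in M..(M + C), φ s ≤ ∫ _ in M..(M + C), B :=
      integral_mono_on (by linarith) (hφi _ _) intervalIntegrable_const (fun s _ => hφB s)
    rw [intervalIntegral.integral_const, smul_eq_mul] at e2
    have e3 : (M + C - M) * B = C * B := by ring
    linarith
  have hmain : ∀ M, 0 ≤ M → (M - 2 * C / 3) * I M ≤
      5 / 3 * Y M + 2 / 3 * (C ^ 2 * B + C) * (M + 1) := by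
    intro M hM
    have h1 := hineq M hM
    have e1 : ∫ N in (0 : ℝ)..M, N / 2 * Φ N = 1 / 2 * (M * I M - Y M) := by
      rw [← hmom, ← intervalIntegral.integral_const_mul]
      refine integral_congr fun s hs => ?_
      show s / 2 * Φ s = 1 / 2 * (s * φ s)
      rw [hcong M hM s hs]
      ring
    have e2 : ∫ s in (0 : ℝ)..M, (M - 2 * s) * Φ s = 2 * Y M - M * I M := by
      have e3 : ∫ s in (0 : ℝ)..M, (M - 2 * s) * Φ s =
          ∫ s in (0 : ℝ)..M, (M * φ s - 2 * (s * φ s)) := by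
        refine integral_congr fun s hs => ?_
        show (M - 2 * s) * Φ s = M * φ s - 2 * (s * φ s)
        rw [hcong M hM s hs]
        ring
      have e6 : IntervalIntegrable (fun s => s * φ s) volume 0 M :=
        (hφi 0 M).continuousOn_mul continuousOn_id
      rw [e3, intervalIntegral.integral_sub ((hφi 0 M).const_mul M) (e6.const_mul 2),
        intervalIntegral.integral_const_mul, intervalIntegral.integral_const_mul]
      have e4 : ∫ s in (0 : ℝ)..M, s * φ s = M * I M - Y M := hmom M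
      rw [e4]
      ring
    have e5 : ∫ s in (0 : ℝ)..(M + C), Φ s = I (M + C) :=
      integral_congr fun s hs => hcong (M + C) (by linarith) s hs
    rw [e1, e2, e5] at h1
    have h2 := hIC M hM
    have h3 : C * I (M + C) ≤ C * (I M + C * B) := mul_le_mul_of_nonneg_left h2 (by linarith)
    have h4 : 0 ≤ C ^ 2 * B * M := by positivity
    nlinarith
  -- constants
  set c : ℝ := 2 * C / 3 with hc
  have hc0 : 0 < c := by
    rw [hc]
    linarith
  set C1 : ℝ := 2 / 3 * (C ^ 2 * B + C) with hC1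
  have hC10 : 0 ≤ C1 := by
    rw [hC1]
    positivity
  set C2 : ℝ := C1 * (c + 2) with hC2
  have hC20 : 0 ≤ C2 := by
    rw [hC2]
    positivity
  have hI2 : ∀ t, 1 ≤ t → I (t + c) ≤ 5 / 3 * Y (t + c) / t + C2 := by
    intro t ht
    have h1 := hmain (t + c) (by linarith)
    have h2 : (t + c - c) = t := by ring
    rw [h2] at h1
    have ht0 : 0 < t := by linarith
    have h3 : C1 * (t + c + 1) ≤ C2 * t := by
      rw [hC2]
      nlinarith [mul_nonneg hC10 (by nlinarith : (0 : ℝ) ≤ (c + 2) * t - (t + c + 1))]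
    have h4 : I (t + c) ≤ (5 / 3 * Y (t + c) + C2 * t) / t := by
      rw [le_div_iff₀ ht0]
      linarith
    have h5 : (5 / 3 * Y (t + c) + C2 * t) / t = 5 / 3 * Y (t + c) / t + C2 := by
      field_simp
    rwa [h5] at h4
  -- the monotone quantity
  set Z : ℝ → ℝ := fun t => Y (t + c) * t ^ (-(5 / 3) : ℝ) + 3 / 2 * C2 * t ^ (-(2 / 3) : ℝ)
    with hZ
  have hZd : ∀ t, 1 ≤ t → HasDerivAt Z (I (t + c) * t ^ (-(5 / 3) : ℝ) +
      Y (t + c) * (-(5 / 3) * t ^ (-(5 / 3) - 1 : ℝ)) +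
      3 / 2 * C2 * (-(2 / 3) * t ^ (-(2 / 3) - 1 : ℝ))) t := by
    intro t ht
    have ht0 : t ≠ 0 := by
      intro h
      linarith
    have h1 : HasDerivAt (fun t => Y (t + c)) (I (t + c)) t := (hYd (t + c)).comp_add_const t c
    have h2 : HasDerivAt (fun t : ℝ => t ^ (-(5 / 3) : ℝ)) (-(5 / 3) * t ^ (-(5 / 3) - 1 : ℝ)) t :=
      Real.hasDerivAt_rpow_const (Or.inl ht0)
    have h3 : HasDerivAt (fun t : ℝ => t ^ (-(2 / 3) : ℝ)) (-(2 / 3) * t ^ (-(2 / 3) - 1 : ℝ)) t :=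
      Real.hasDerivAt_rpow_const (Or.inl ht0)
    exact (h1.mul h2).add (h3.const_mul _)
  have hZneg : ∀ t, 1 ≤ t → I (t + c) * t ^ (-(5 / 3) : ℝ) +
      Y (t + c) * (-(5 / 3) * t ^ (-(5 / 3) - 1 : ℝ)) +
      3 / 2 * C2 * (-(2 / 3) * t ^ (-(2 / 3) - 1 : ℝ)) ≤ 0 := by
    intro t ht
    have ht0 : 0 < t := by linarith
    have e1 : t ^ (-(5 / 3) - 1 : ℝ) = t ^ (-(5 / 3) : ℝ) / t := Real.rpow_sub_one ht0.ne' _
    have e2 : t ^ (-(2 / 3) - 1 : ℝ) = t ^ (-(5 / 3) : ℝ) := by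
      congr 1
      norm_num
    rw [e1, e2]
    have h1 := hI2 t ht
    have h2 : 0 < t ^ (-(5 / 3) : ℝ) := Real.rpow_pos_of_pos ht0 _
    have e3 : I (t + c) * t ^ (-(5 / 3) : ℝ) +
        Y (t + c) * (-(5 / 3) * (t ^ (-(5 / 3) : ℝ) / t)) +
        3 / 2 * C2 * (-(2 / 3) * t ^ (-(5 / 3) : ℝ)) =
        (I (t + c) - (5 / 3 * Y (t + c) / t + C2)) * t ^ (-(5 / 3) : ℝ) := by
      field_simp
      ring
    rw [e3]
    exact mul_nonpos_of_nonpos_of_nonneg (by linarith) h2.le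
  have hZa : AntitoneOn Z (Ici 1) := by
    refine antitoneOn_of_deriv_nonpos (convex_Ici 1) ?_ ?_ ?_
    · exact fun t ht => (hZd t ht).continuousAt.continuousWithinAt
    · intro t ht
      rw [interior_Ici] at ht
      exact (hZd t (le_of_lt ht)).differentiableAt.differentiableWithinAt
    · intro t ht
      rw [interior_Ici] at ht
      rw [(hZd t (le_of_lt ht)).deriv]
      exact hZneg t (le_of_lt ht)
  set C3 : ℝ := Z 1 with hC3
  have hC30 : 0 ≤ C3 := by
    rw [hC3]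
    show 0 ≤ Y (1 + c) * (1 : ℝ) ^ (-(5 / 3) : ℝ) + 3 / 2 * C2 * (1 : ℝ) ^ (-(2 / 3) : ℝ)
    rw [Real.one_rpow, Real.one_rpow]
    have := hY0 (1 + c) (by linarith)
    linarith [mul_nonneg (by norm_num : (0 : ℝ) ≤ 3 / 2) hC20]
  have hYb : ∀ t, 1 ≤ t → Y (t + c) ≤ C3 * t ^ (5 / 3 : ℝ) := by
    intro t ht
    have ht0 : 0 < t := by linarith
    have h1 : Z t ≤ C3 := hZa (mem_Ici.2 le_rfl) (mem_Ici.2 ht) ht
    have h2 : Y (t + c) * t ^ (-(5 / 3) : ℝ) ≤ C3 := by
      have h3 : 0 ≤ 3 / 2 * C2 * t ^ (-(2 / 3) : ℝ) :=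
        mul_nonneg (mul_nonneg (by norm_num) hC20) (Real.rpow_nonneg ht0.le _)
      have h4 : Z t = Y (t + c) * t ^ (-(5 / 3) : ℝ) + 3 / 2 * C2 * t ^ (-(2 / 3) : ℝ) := rfl
      linarith
    rw [Real.rpow_neg ht0.le, ← div_eq_mul_inv, div_le_iff₀ (Real.rpow_pos_of_pos ht0 _)] at h2
    exact h2
  -- lower bound for `Y`
  have hYl : ∀ M, 0 ≤ M → M ^ 2 / 2 * φ M ≤ Y M := by
    intro M hM
    have h1 : ∫ t in (0 : ℝ)..M, t * φ M ≤ Y M := by
      refine integral_mono_on hM ?_ (hIc.intervalIntegrable _ _) ?_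
      · exact (continuous_id.mul continuous_const).intervalIntegrable _ _
      · intro t ht
        have h2 : ∫ _ in (0 : ℝ)..t, φ M ≤ I t := by
          refine integral_mono_on ht.1 intervalIntegrable_const (hφi _ _) ?_
          intro s hs
          exact hφa (hs.2.trans ht.2)
        rw [intervalIntegral.integral_const, smul_eq_mul, sub_zero] at h2
        exact h2
    rw [intervalIntegral.integral_mul_const, integral_id] at h1
    have e : (M ^ 2 - 0 ^ 2) / 2 * φ M = M ^ 2 / 2 * φ M := by ring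
    rwa [e] at h1
  -- the bound for large `M`
  have hlarge : ∀ M, c + 1 ≤ M → φ M ≤ 2 * C3 * M ^ (-(1 / 3) : ℝ) := by
    intro M hM
    have hM0 : 0 < M := by linarith
    have h1 := hYl M hM0.le
    have h2 := hYb (M - c) (by linarith)
    rw [sub_add_cancel] at h2
    have h3 : (M - c) ^ (5 / 3 : ℝ) ≤ M ^ (5 / 3 : ℝ) :=
      Real.rpow_le_rpow (by linarith) (by linarith) (by norm_num)
    have h4 : M ^ 2 / 2 * φ M ≤ C3 * M ^ (5 / 3 : ℝ) :=
      h1.trans (h2.trans (mul_le_mul_of_nonneg_left h3 hC30))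
    have h5 : M ^ (5 / 3 : ℝ) = M ^ 2 * M ^ (-(1 / 3) : ℝ) := by
      rw [← Real.rpow_natCast M 2, ← Real.rpow_add hM0]
      norm_num
    rw [h5] at h4
    have h6 : 0 < M ^ 2 := by positivity
    have h7 : M ^ 2 * (φ M / 2) ≤ M ^ 2 * (C3 * M ^ (-(1 / 3) : ℝ)) := by linarith
    have h8 := le_of_mul_le_mul_left h7 h6
    linarith
  refine ⟨2 * C3 + B * (c + 1) ^ (1 / 3 : ℝ) + 1, by positivity, ?_⟩
  intro N hN
  have hN0 : 0 < N := by linarith
  have hNp : 0 < N ^ (-(1 / 3) : ℝ) := Real.rpow_pos_of_pos hN0 _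
  rw [← hφe N hN0.le]
  have hBc : 0 ≤ B * (c + 1) ^ (1 / 3 : ℝ) := by positivity
  rcases le_total (c + 1) N with h | h
  · refine (hlarge N h).trans ?_
    exact mul_le_mul_of_nonneg_right (by linarith) hNp.le
  · have h1 : N ^ (1 / 3 : ℝ) ≤ (c + 1) ^ (1 / 3 : ℝ) :=
      Real.rpow_le_rpow hN0.le h (by norm_num)
    have h2 : N ^ (1 / 3 : ℝ) * N ^ (-(1 / 3) : ℝ) = 1 := by
      rw [← Real.rpow_add hN0]
      norm_num
    calc φ N ≤ B := hφB N
      _ = B * (N ^ (1 / 3 : ℝ) * N ^ (-(1 / 3) : ℝ)) := by rw [h2, mul_one]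
      _ ≤ B * ((c + 1) ^ (1 / 3 : ℝ) * N ^ (-(1 / 3) : ℝ)) := by gcongr
      _ = (B * (c + 1) ^ (1 / 3 : ℝ)) * N ^ (-(1 / 3) : ℝ) := by ring
      _ ≤ _ := mul_le_mul_of_nonneg_right (by linarith) hNp.le

end Pool.Agent.FAN
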