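import Pool.Agent.FAN.StM

/-!
# FAN, block 2, module MEA: measurability of `DD` and `SS` (helper16)
-/

set_option autoImplicit false

open scoped ComplexConjugate
open MeasureTheory Set

namespace Pool.Agent.FAN

variable {S : TriSys}

private theorem mea_ccx {X : Type*} [TopologicalSpace X] {f g : X → ℂ} (hf : Continuous f)
    (hg : Continuous g) : Continuous fun x => cx (f x) (g x) :=
  ((Complex.continuous_re.comp hf).mul (Complex.continuous_im.comp hg)).sub
    ((Complex.continuous_im.comp hf).mul (Complex.continuous_re.comp hg))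

private theorem mea_cdt {X : Type*} [TopologicalSpace X] {f g : X → ℂ} (hf : Continuous f)
    (hg : Continuous g) : Continuous fun x => dt (f x) (g x) :=
  ((Complex.continuous_re.comp hf).mul (Complex.continuous_re.comp hg)).add
    ((Complex.continuous_im.comp hf).mul (Complex.continuous_im.comp hg))

private theorem mea_cx (a : ℂ) : Continuous fun p : ℂ × ℂ × ℝ => cx p.2.1 (a - p.1) :=
  mea_ccx (continuous_fst.comp continuous_snd) (continuous_const.sub continuous_fst)

private theorem mea_dt (a : ℂ) : Continuous fun p : ℂ × ℂ × ℝ => dt p.2.1 (a - p.1) :=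
  mea_cdt (continuous_fst.comp continuous_snd) (continuous_const.sub continuous_fst)

private theorem mea_h3 (q : Pl S) : Continuous fun p : ℂ × ℂ × ℝ => q.h3 p.1 p.2.1 :=
  (mea_cx (q.V 0)).abs.min ((mea_cx (q.V 1)).abs.min (mea_cx (q.V 2)).abs)

private theorem mea_clr (js : List (ZMod 3)) (q : Pl S) :
    Continuous fun p : ℂ × ℂ × ℝ => clr q js p.1 p.2.1 := by
  induction js generalizing q with
  | nil => exact mea_h3 q
  | cons j js ih => exact (mea_h3 q).min (ih (q.nx j))

private theorem mea_sum (l : List ℂ) (f : ℂ → ℂ × ℂ × ℝ → ℝ) (hf : ∀ a, Measurable (f a)) :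
    Measurable fun p => (l.map fun a => f a p).sum := by
  induction l with
  | nil => simp
  | cons a l ih =>
    simp only [List.map_cons, List.sum_cons]
    exact (hf a).add ih

private theorem mea_set (js : List (ZMod 3)) (q : Pl S) (a : ℂ) :
    MeasurableSet {p : ℂ × ℂ × ℝ | |cx p.2.1 (a - p.1)| = clr q js p.1 p.2.1} :=
  (isClosed_eq (mea_cx a).abs (mea_clr js q)).measurableSet

private theorem mea_av (js : List (ZMod 3)) (q : Pl S) :
    Measurable fun p : ℂ × ℂ × ℝ => av q js p.1 p.2.1 := by
  have h1 := mea_sum (vl q js)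
    (fun a p => if |cx p.2.1 (a - p.1)| = clr q js p.1 p.2.1 then dt p.2.1 (a - p.1) else 0)
    (fun a => Measurable.ite (mea_set js q a) (mea_dt a).measurable measurable_const)
  have h2 := mea_sum (vl q js)
    (fun a p => if |cx p.2.1 (a - p.1)| = clr q js p.1 p.2.1 then (1 : ℝ) else 0)
    (fun a => Measurable.ite (mea_set js q a) measurable_const measurable_const)
  exact h1.div h2

private theorem mea_glue {X ι : Type*} [MeasurableSpace X] [Countable ι] (F : X → ℝ)
    (Z : ι → Set X) (f : ι → X → ℝ) (hZ : ∀ i, MeasurableSet (Z i)) (hf : ∀ i, Measurable (f i))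
    (h1 : ∀ i, ∀ p ∈ Z i, F p = f i p) (h0 : ∀ p, (∀ i, p ∉ Z i) → F p = 0) : Measurable F := by
  intro s hs
  have e : F ⁻¹' s = (⋃ i, Z i ∩ (f i) ⁻¹' s) ∪ ((⋃ i, Z i)ᶜ ∩ {_p : X | (0 : ℝ) ∈ s}) := by
    ext p
    by_cases hp : ∃ i, p ∈ Z i
    · obtain ⟨i, hi⟩ := hp
      constructor
      · intro h
        left
        refine mem_iUnion.2 ⟨i, hi, ?_⟩
        show f i p ∈ s
        rw [← h1 i p hi]
        exact h
      · rintro (h | h)
        · obtain ⟨k, hk, hk2⟩ := mem_iUnion.1 h
          show F p ∈ s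
          rw [h1 k p hk]
          exact hk2
        · exact absurd (mem_iUnion.2 ⟨i, hi⟩) h.1
    · have hp' : ∀ i, p ∉ Z i := fun i hi => hp ⟨i, hi⟩
      constructor
      · intro h
        right
        refine ⟨fun hh => hp (mem_iUnion.1 hh), ?_⟩
        show (0 : ℝ) ∈ s
        rw [← h0 p hp']
        exact h
      · rintro (h | h)
        · obtain ⟨k, hk, -⟩ := mem_iUnion.1 h
          exact absurd hk (hp' k)
        · show F p ∈ s
          rw [h0 p hp']
          exact h.2
  rw [e]
  exact (MeasurableSet.iUnion fun i => (hZ i).inter (hf i hs)).union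
    ((MeasurableSet.iUnion hZ).compl.inter (MeasurableSet.const _))

/-- MEA. -/
theorem g_MEA (h1 : Sm_OPN) (h2 : Sa_UNI) : Sm_MEA := by
  intro S r
  have ho := (h1 S r).1
  constructor
  · refine mea_glue _ (fun js : List (ZMod 3) => {p : ℂ × ℂ × ℝ | PW S r p.1 p.2.1 p.2.2 js})
      (fun js p => clr (Pl.home S r) js p.1 p.2.1) (fun js => (ho js).measurableSet)
      (fun js => (mea_clr js _).measurable) ?_ ?_
    · intro js p hp
      exact (h2 S r p.1 p.2.1 p.2.2 js js hp hp).2.1
    · intro p hp
      have hn : ¬ ∃ js, PW S r p.1 p.2.1 p.2.2 js := fun ⟨js, hj⟩ => hp js hj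
      simp only [DD, dif_neg hn]
  · refine mea_glue _ (fun js : List (ZMod 3) => {p : ℂ × ℂ × ℝ | PW S r p.1 p.2.1 p.2.2 js})
      (fun js p => clr (Pl.home S r) js p.1 p.2.1 * av (Pl.home S r) js p.1 p.2.1)
      (fun js => (ho js).measurableSet)
      (fun js => (mea_clr js _).measurable.mul (mea_av js _)) ?_ ?_
    · intro js p hp
      exact (h2 S r p.1 p.2.1 p.2.2 js js hp hp).2.2
    · intro p hp
      have hn : ¬ ∃ js, PW S r p.1 p.2.1 p.2.2 js := fun ⟨js, hj⟩ => hp js hj
      simp only [SS, dif_neg hn]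

end Pool.Agent.FAN
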