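import Pool.Agent.FAN.StM

/-!
# FAN, module FANM_MON (helper20): monotonicity of words and of the clearance
-/

set_option autoImplicit false

open scoped ComplexConjugate
open MeasureTheory Set

namespace Pool.Agent.FAN

/-- the clearance decreases when the word is prolonged -/
theorem mon_clr {S : TriSys} (x v : ℂ) (t : List (ZMod 3)) (js : List (ZMod 3)) :
    ∀ q : Pl S, clr q (js ++ t) x v ≤ clr q js x v := by
  induction js with
  | nil =>
    intro q
    cases t with
    | nil => exact le_refl _
    | cons j t => exact min_le_left _ _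
  | cons j js ih =>
    intro q
    exact min_le_min_left _ (ih (q.nx j))

theorem g_MON (h1 : Sa_UNI) (h2 : Sa_EXU) (h3 : Sa_TIM) (h4 : Sa_CTS) : Sm_MON := by
  intro S r x v N N' js js' hN hp hp'
  have hpre : js <+: js' := by
    rcases (h2 S).2.2.2.2.2.1 js js' (Pl.home S r) x v hp.2.1 hp'.2.1 with h | h
    · exact h
    · obtain ⟨t, rfl⟩ := h
      cases t with
      | nil => rw [List.append_nil]
      | cons k t =>
        exfalso
        obtain ⟨e1, -, -, e4⟩ := (h2 S).2.2.2.2.2.2.2 js' (k :: t) (Pl.home S r) x v 0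
        have hex : (endP (Pl.home S r) js').Ex x v k := (e1.mp hp.2.1).2.1
        have hlt := (h3 S).2.1 _ x v k N' hex hp'.2.2
        have hmem : (endP (Pl.home S r) js').ct x v k ∈ cts (Pl.home S r) x v (js' ++ k :: t) := by
          rw [e4]
          exact List.mem_append_right _ List.mem_cons_self
        have hlt2 := (h4 S).2.2.1 _ _ x v N hp.2.1 hp.2.2 _ hmem
        linarith
  refine ⟨hpre, ?_⟩
  rw [(h1 S r x v N js js hp hp).2.1, (h1 S r x v N' js' js' hp' hp').2.1]
  obtain ⟨t, rfl⟩ := hpre
  exact mon_clr x v t js _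

end Pool.Agent.FAN
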