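import Pool.Agent.FAN.StM

/-!
# FAN, block 2, module OPN: openness
-/

set_option autoImplicit false

open scoped ComplexConjugate
open MeasureTheory Set

namespace Pool.Agent.FAN

namespace OPN

variable {S : TriSys} {X : Type*} [TopologicalSpace X]

private lemma cont_cx {f g : X → ℂ} (hf : Continuous f) (hg : Continuous g) :
    Continuous fun x => cx (f x) (g x) := by
  unfold cx
  exact ((Complex.continuous_re.comp hf).mul (Complex.continuous_im.comp hg)).sub
    ((Complex.continuous_im.comp hf).mul (Complex.continuous_re.comp hg))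

private lemma open_In (q : Pl S) {f : X → ℂ} (hf : Continuous f) : IsOpen {x | q.In (f x)} := by
  have h : {x | q.In (f x)} =
      ⋂ i : ZMod 3, {x | 0 < cx (q.V (i + 2) - q.V (i + 1)) (f x - q.V (i + 1))} := by
    ext x
    simp [Pl.In]
  rw [h]
  exact isOpen_iInter_of_finite fun i =>
    isOpen_lt continuous_const (cont_cx continuous_const (hf.sub continuous_const))

private lemma open_Ex (q : Pl S) {f g : X → ℂ} (hf : Continuous f) (hg : Continuous g)
    (j : ZMod 3) : IsOpen {x | q.Ex (f x) (g x) j} := by
  have h1 : IsOpen {x | 0 < cx (g x) (q.V (j + 2) - f x)} :=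
    isOpen_lt continuous_const (cont_cx hg (continuous_const.sub hf))
  have h2 : IsOpen {x | cx (g x) (q.V (j + 1) - f x) < 0} :=
    isOpen_lt (cont_cx hg (continuous_const.sub hf)) continuous_const
  exact h1.inter h2

private lemma open_Run (js : List (ZMod 3)) : ∀ (q : Pl S) {f g : X → ℂ}, Continuous f →
    Continuous g → IsOpen {x | Run q (f x) (g x) js} := by
  induction js with
  | nil =>
    intro q f g _ _
    have h : {x : X | Run q (f x) (g x) []} = univ := by
      ext x
      simp [Run]
    rw [h]
    exact isOpen_univ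
  | cons j js ih =>
    intro q f g hf hg
    exact (open_Ex q hf hg j).inter (ih (q.nx j) hf hg)

end OPN

open OPN in
/-- OPN: openness -/
theorem g_OPN (h1 : Sa_DIA) : Sm_OPN := by
  intro S r
  have ho : IsOpen (rm S r) := open_In (Pl.home S r) continuous_id
  refine ⟨fun js => ?_, ho, ho.measurableSet, ?_⟩
  · have e1 : IsOpen {p : ℂ × ℂ × ℝ | (Pl.home S r).In p.1} := open_In _ continuous_fst
    have e2 : IsOpen {p : ℂ × ℂ × ℝ | Run (Pl.home S r) p.1 p.2.1 js} :=
      open_Run js _ continuous_fst (continuous_fst.comp continuous_snd)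
    have e3 : IsOpen {p : ℂ × ℂ × ℝ |
        (endP (Pl.home S r) js).In (p.1 + p.2.2 * p.2.1)} := by
      refine open_In _ (continuous_fst.add ((Complex.continuous_ofReal.comp
        (continuous_snd.comp continuous_snd)).mul (continuous_fst.comp continuous_snd)))
    exact e1.inter (e2.inter e3)
  · obtain ⟨D₀, h₀, -, -, -, h3, -⟩ := h1 S
    have hsub : rm S r ⊆ Metric.closedBall ((Pl.home S r).V 0) D₀ := by
      intro y hy
      rw [Metric.mem_closedBall, dist_eq_norm]
      exact h3 (Pl.home S r) y 0 hy
    exact (measure_mono hsub).trans_lt measure_closedBall_lt_top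

end Pool.Agent.FAN
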