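import Pool.Agent.FAN.StM

/-!
# FAN, block 2: module PHA (helper61). `Phi` is nonnegative, bounded and decreasing.
-/

set_option autoImplicit false

open scoped ComplexConjugate
open MeasureTheory Set

namespace Pool.Agent.FAN

private lemma pha_norm (ψ : ℝ) : ‖ev ψ‖ = 1 := by
  have h : ev ψ = Complex.exp (ψ * Complex.I) := by
    apply Complex.ext
    · rw [Complex.exp_ofReal_mul_I_re]; rfl
    · rw [Complex.exp_ofReal_mul_I_im]; rfl
  rw [h, Complex.norm_exp_ofReal_mul_I]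

private lemma pha_cont : Continuous ev := by
  have h : ev = fun ψ : ℝ => Complex.exp (ψ * Complex.I) := by
    funext ψ
    apply Complex.ext
    · rw [Complex.exp_ofReal_mul_I_re]; rfl
    · rw [Complex.exp_ofReal_mul_I_im]; rfl
  rw [h]
  fun_prop

/-- no word, no clearance -/
private lemma pha_zero {S : TriSys} {r : S.R} {x v : ℂ} {N : ℝ} (h : ¬ ∃ js, PW S r x v N js) :
    DD S r x v N = 0 := by
  unfold DD
  rw [dif_neg h]

/-- outside of the room there is no word -/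
private lemma pha_out {S : TriSys} {r : S.R} {x v : ℂ} {N : ℝ} (h : x ∉ rm S r) :
    DD S r x v N = 0 := by
  refine pha_zero ?_
  rintro ⟨js, hjs⟩
  exact h hjs.1

/-- PHA. -/
theorem g_PHA (h1 : Sa_DIA) (h2 : Sm_MEA) (h3 : Sm_BND) (h4 : Sm_EXI) (h5 : Sm_MON)
    (h6 : Sm_TO1) : Sm_PHA := by
  intro S
  obtain ⟨D₀, h₀, hD1, -, hD2, hD3, hD4, -⟩ := h1 S
  have hdia : Dia S D₀ := ⟨hD1, hD2, hD3, hD4⟩
  have hpi : (0 : ℝ) ≤ 2 * Real.pi := by positivity
  have bnd : ∀ (r : S.R) (x : ℂ) (ψ N : ℝ), 0 ≤ N →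
      0 ≤ DD S r x (ev ψ) N ∧ DD S r x (ev ψ) N ≤ D₀ := by
    intro r x ψ N hN
    obtain ⟨h, h', -, -⟩ := h3 S D₀ hdia r x (ev ψ) N (pha_norm ψ) hN
    exact ⟨h, h'⟩
  have hto : ∀ N : ℝ, 0 ≤ N →
      (∀ r, IntegrableOn (fun x => ∫ ψ in (0 : ℝ)..(2 * Real.pi), DD S r x (ev ψ) N) (rm S r)) ∧
      (∀ r x, IntervalIntegrable (fun ψ => DD S r x (ev ψ) N) volume 0 (2 * Real.pi)) ∧
      Phi S N = ∑ r, ∫ x in rm S r, ∫ ψ in (0 : ℝ)..(2 * Real.pi), DD S r x (ev ψ) N := by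
    intro N hN
    refine h6 S (fun r x ψ => DD S r x (ev ψ) N) D₀ ?_ ?_
    · intro r
      have hc : Continuous (fun p : ℂ × ℝ => ((p.1, ev p.2, N) : ℂ × ℂ × ℝ)) := by
        have := pha_cont
        fun_prop
      exact (h2 S r).1.comp hc.measurable
    · intro r x ψ
      rw [abs_of_nonneg (bnd r x ψ N hN).1]
      exact (bnd r x ψ N hN).2
  have nonneg : ∀ N, 0 ≤ N → 0 ≤ Phi S N := by
    intro N hN
    rw [(hto N hN).2.2]
    refine Finset.sum_nonneg fun r _ => ?_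
    refine integral_nonneg fun x => ?_
    exact intervalIntegral.integral_nonneg hpi fun ψ _ => (bnd r x ψ N hN).1
  have anti : AntitoneOn (Phi S) (Ici 0) := by
    intro N hN N' hN' hNN
    rw [mem_Ici] at hN hN'
    obtain ⟨a1, a2, a3⟩ := hto N hN
    obtain ⟨b1, b2, b3⟩ := hto N' hN'
    rw [a3, b3]
    refine Finset.sum_le_sum fun r _ => ?_
    refine integral_mono (b1 r) (a1 r) fun x => ?_
    refine intervalIntegral.integral_mono_ae hpi (b2 r x) (a2 r x) ?_
    by_cases hx : x ∈ rm S r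
    · have c1 := (h4 S r x N hx hN).ae_notMem volume
      have c2 := (h4 S r x N' hx hN').ae_notMem volume
      filter_upwards [c1, c2] with ψ e1 e2
      simp only [not_not] at e1 e2
      obtain ⟨js, hjs⟩ := e1
      obtain ⟨js', hjs'⟩ := e2
      exact (h5 S r x (ev ψ) N N' js js' hNN hjs hjs').2
    · refine Filter.Eventually.of_forall fun ψ => ?_
      simp only [pha_out hx]
      exact le_refl _
  exact ⟨nonneg, ⟨Phi S 0, fun N hN => anti (mem_Ici.2 le_rfl) (mem_Ici.2 hN) hN⟩, anti⟩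

end Pool.Agent.FAN
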