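import Pool.Agent.FAN.StM
import Pool.Agent.FAN.Base

/-!
# FAN, block 2: change of variables for one word (helper52)
-/

set_option autoImplicit false

open scoped ComplexConjugate
open MeasureTheory Set

namespace Pool.Agent.FAN

/-- translation of a periodic function -/
private theorem sh1_shift (g : ℝ → ENNReal) (hg : Function.Periodic g (2 * Real.pi)) (c : ℝ) :
    ∫⁻ ψ in Ioc (0 : ℝ) (2 * Real.pi), g (ψ + c) = ∫⁻ ψ in Ioc (0 : ℝ) (2 * Real.pi), g ψ := by
  have hpi : (0 : ℝ) < 2 * Real.pi := by positivity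
  have e1 : ∫⁻ ψ in Ioc (0 : ℝ) (2 * Real.pi), g (ψ + c) =
      ∫⁻ ψ in Ioc c (c + 2 * Real.pi), g ψ := by
    rw [← (measurePreserving_add_right (volume : Measure ℝ) c).setLIntegral_comp_preimage_emb
      (Homeomorph.addRight c).measurableEmbedding g (Ioc c (c + 2 * Real.pi)),
      Set.preimage_add_const_Ioc, sub_self, add_sub_cancel_left]
  have e2 : ∫⁻ ψ in Ioc c (c + 2 * Real.pi), g ψ = ∫⁻ ψ in Ioc (0 : ℝ) (0 + 2 * Real.pi), g ψ :=
    (isAddFundamentalDomain_Ioc hpi c).setLIntegral_eq (isAddFundamentalDomain_Ioc hpi 0) g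
      (fun a x => hg.map_vadd_zmultiples a x)
  rw [e1, e2, zero_add]

/-- a motion of the plane preserves the measure -/
private theorem sh1_motion (a c : ℂ) (ha : ‖a‖ = 1) :
    MeasurePreserving (fun x : ℂ => a⁻¹ * x + c) volume volume ∧
      MeasurableEmbedding (fun x : ℂ => a⁻¹ * x + c) := by
  have hm : a⁻¹ ∈ Submonoid.unitSphere ℂ := by
    rw [Submonoid.unitSphere]
    simp [ha]
  have e : (fun x : ℂ => a⁻¹ * x + c) = (fun x : ℂ => x + c) ∘ (rotation (⟨a⁻¹, hm⟩ : Circle)) := by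
    funext x
    simp [rotation_apply]
  rw [e]
  exact ⟨(measurePreserving_add_right (volume : Measure ℂ) c).comp
      (LinearIsometryEquiv.measurePreserving _),
    (Homeomorph.addRight c).measurableEmbedding.comp
      (rotation (⟨a⁻¹, hm⟩ : Circle)).toHomeomorph.measurableEmbedding⟩

theorem g_SH1 (h1 : Sa_PWR) (h2 : Sm_SIG) : Sm_SH1 := by
  intro S N r js q G hq hG
  obtain ⟨s1, s2⟩ := h2 S r js q hq
  have ha0 : q.a ≠ 0 := by
    rw [← norm_ne_zero_iff, q.ha]
    exact one_ne_zero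
  set K : ℂ → ENNReal := fun u =>
    ∫⁻ x in {x | PW S q.r x u N (rev (Pl.home S r) js)}, G x u with hK
  -- the inner integrals
  have hin : ∀ ψ : ℝ, ∫⁻ x in {x | PW S r x (ev ψ) N js},
      G ((x + N * ev ψ - q.b) / q.a) (-ev ψ / q.a) = K (-ev ψ / q.a) := by
    intro ψ
    obtain ⟨hp, he⟩ := sh1_motion q.a ((N * ev ψ - q.b) / q.a) q.ha
    have hf : ∀ x : ℂ, (x + N * ev ψ - q.b) / q.a = q.a⁻¹ * x + (N * ev ψ - q.b) / q.a := by
      intro x
      field_simp
      ring
    have hpre : {x | PW S r x (ev ψ) N js} = (fun x : ℂ => q.a⁻¹ * x + (N * ev ψ - q.b) / q.a) ⁻¹'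
        {x | PW S q.r x (-ev ψ / q.a) N (rev (Pl.home S r) js)} := by
      ext x
      simp only [Set.mem_preimage]
      change PW S r x (ev ψ) N js ↔
        PW S q.r (q.a⁻¹ * x + (N * ev ψ - q.b) / q.a) (-ev ψ / q.a) N (rev (Pl.home S r) js)
      rw [← hf x]
      constructor
      · intro h
        exact (h1 S r x (ev ψ) N js (norm_ev ψ) h q hq).1
      · intro h
        have hn : ‖-ev ψ / q.a‖ = 1 := by
          rw [norm_div, norm_neg, norm_ev, q.ha, div_one]
        obtain ⟨h5, -⟩ := h1 S q.r _ (-ev ψ / q.a) N (rev (Pl.home S r) js) hn h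
          ⟨r, q.a⁻¹, -q.b / q.a, by rw [norm_inv, q.ha, inv_one]⟩ s1.symm
        rw [s2] at h5
        have e1 : (((x + N * ev ψ - q.b) / q.a + N * (-ev ψ / q.a) - -q.b / q.a) / q.a⁻¹ : ℂ) = x := by
          field_simp
          ring
        have e2 : (-(-ev ψ / q.a) / q.a⁻¹ : ℂ) = ev ψ := by
          field_simp
        simp only at h5
        rw [e1, e2] at h5
        exact h5
    rw [hpre]
    have h6 := hp.setLIntegral_comp_preimage_emb he (fun y => G y (-ev ψ / q.a))
      {x | PW S q.r x (-ev ψ / q.a) N (rev (Pl.home S r) js)}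
    rw [hK]
    simp only
    rw [← h6]
    simp only [hf]
  have harg : ∀ ψ : ℝ, -ev ψ / q.a = ev (ψ + (Real.pi - Complex.arg q.a)) := by
    intro ψ
    have h7 : q.a = ev (Complex.arg q.a) := by
      rw [ev_eq_exp]
      have h8 := Complex.norm_mul_exp_arg_mul_I q.a
      rw [q.ha] at h8
      simpa using h8.symm
    have h9 : ev (ψ + (Real.pi - Complex.arg q.a)) * ev (Complex.arg q.a) = -ev ψ := by
      rw [← ev_add]
      have : ψ + (Real.pi - Complex.arg q.a) + Complex.arg q.a = ψ + Real.pi := by ring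
      rw [this]
      apply Complex.ext <;> simp [ev]
    rw [div_eq_iff ha0, ← h9, ← h7]
  have hper : Function.Periodic (fun ψ : ℝ => K (ev ψ)) (2 * Real.pi) := by
    intro ψ
    have : ev (ψ + 2 * Real.pi) = ev ψ := by
      apply Complex.ext <;> simp [ev]
    simp only [this]
  calc ∫⁻ ψ in Ioc (0 : ℝ) (2 * Real.pi), ∫⁻ x in {x | PW S r x (ev ψ) N js},
        G ((x + N * ev ψ - q.b) / q.a) (-ev ψ / q.a)
      = ∫⁻ ψ in Ioc (0 : ℝ) (2 * Real.pi), K (ev (ψ + (Real.pi - Complex.arg q.a))) := by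
        refine lintegral_congr fun ψ => ?_
        rw [hin ψ, harg ψ]
    _ = ∫⁻ ψ in Ioc (0 : ℝ) (2 * Real.pi), K (ev ψ) :=
        sh1_shift (fun ψ => K (ev ψ)) hper _

end Pool.Agent.FAN
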