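import Pool.Agent.FAN.StM
import Pool.Agent.FAN.Base2

/-!
# FAN, block 2, module SHF (helper85): invariance of the measure under reversal
-/

set_option autoImplicit false

open scoped ComplexConjugate
open MeasureTheory Set

namespace Pool.Agent.FAN

private theorem shf_ev : Continuous ev := by
  have e : ev = fun ψ : ℝ => Complex.exp (ψ * Complex.I) := by
    funext ψ
    exact ev_eq_exp ψ
  rw [e]
  fun_prop

private theorem shf_open (h2 : Sm_OPN) (S : TriSys) (r : S.R) (N : ℝ) (js : List (ZMod 3)) :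
    IsOpen {p : ℝ × ℂ | PW S r p.2 (ev p.1) N js} := by
  have h := (h2 S r).1 js
  have hc : Continuous fun p : ℝ × ℂ => ((p.2, ev p.1, N) : ℂ × ℂ × ℝ) :=
    continuous_snd.prodMk ((shf_ev.comp continuous_fst).prodMk continuous_const)
  exact h.preimage hc

private theorem shf_open2 (h2 : Sm_OPN) (S : TriSys) (r : S.R) (N : ℝ) (js : List (ZMod 3))
    (v : ℂ) : IsOpen {x : ℂ | PW S r x v N js} := by
  have h := (h2 S r).1 js
  have hc : Continuous fun x : ℂ => ((x, v, N) : ℂ × ℂ × ℝ) :=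
    continuous_id.prodMk continuous_const
  exact h.preimage hc

private theorem shf_split (h1 : Sa_UNI) (h2 : Sm_OPN) (S : TriSys) (r : S.R) (N : ℝ) (v : ℂ)
    (F : ℂ → ENNReal) (hF : ∀ x, (¬ ∃ js, PW S r x v N js) → F x = 0) :
    ∫⁻ x in rm S r, F x = ∑' js, ∫⁻ x in {x | PW S r x v N js}, F x := by
  rw [← lintegral_iUnion (fun js => (shf_open2 h2 S r N js v).measurableSet)]
  · have hm : MeasurableSet (⋃ js, {x | PW S r x v N js}) :=
      MeasurableSet.iUnion fun js => (shf_open2 h2 S r N js v).measurableSet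
    rw [← lintegral_indicator hm, ← lintegral_indicator (h2 S r).2.2.1]
    congr 1
    funext x
    by_cases hx : ∃ js, PW S r x v N js
    · have e1 : x ∈ ⋃ js, {x | PW S r x v N js} := by
        simpa using hx
      have e2 : x ∈ rm S r := by
        obtain ⟨js, h⟩ := hx
        exact h.1
      rw [indicator_of_mem e1, indicator_of_mem e2]
    · have e1 : x ∉ ⋃ js, {x | PW S r x v N js} := by
        simpa using hx
      rw [indicator_of_notMem e1]
      by_cases e2 : x ∈ rm S r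
      · rw [indicator_of_mem e2, hF x hx]
      · rw [indicator_of_notMem e2]
  · intro js js' hne
    rw [Function.onFun, Set.disjoint_left]
    intro x hx hx'
    exact hne (h1 S r x v N js js' hx hx').1

private theorem shf_meas (h2 : Sm_OPN) (S : TriSys) (r : S.R) (N : ℝ) (js : List (ZMod 3))
    (F : ℝ × ℂ → ENNReal) (hF : Measurable F) :
    Measurable fun ψ : ℝ => ∫⁻ x in {x | PW S r x (ev ψ) N js}, F (ψ, x) := by
  have e : (fun ψ : ℝ => ∫⁻ x in {x | PW S r x (ev ψ) N js}, F (ψ, x)) =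
      fun ψ => ∫⁻ x, {p : ℝ × ℂ | PW S r p.2 (ev p.1) N js}.indicator F (ψ, x) := by
    funext ψ
    rw [← lintegral_indicator (shf_open2 h2 S r N js (ev ψ)).measurableSet]
    rfl
  rw [e]
  exact (hF.indicator (shf_open h2 S r N js).measurableSet).lintegral_prod_right'

private theorem shf_total (h1 : Sa_UNI) (h2 : Sm_OPN) (S : TriSys) (r : S.R) (N : ℝ)
    (F : ℝ → ℂ → ENNReal) (K : List (ZMod 3) → ℝ × ℂ → ENNReal) (hK : ∀ js, Measurable (K js))
    (hFK : ∀ js ψ x, PW S r x (ev ψ) N js → F ψ x = K js (ψ, x))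
    (hF : ∀ ψ x, (¬ ∃ js, PW S r x (ev ψ) N js) → F ψ x = 0) :
    ∫⁻ ψ in Ioc (0 : ℝ) (2 * Real.pi), ∫⁻ x in rm S r, F ψ x =
      ∑' js, ∫⁻ ψ in Ioc (0 : ℝ) (2 * Real.pi), ∫⁻ x in {x | PW S r x (ev ψ) N js},
        K js (ψ, x) := by
  rw [← lintegral_tsum fun js => (shf_meas h2 S r N js (K js) (hK js)).aemeasurable]
  congr 1
  funext ψ
  rw [shf_split h1 h2 S r N (ev ψ) (F ψ) (hF ψ)]
  congr 1
  funext js
  exact setLIntegral_congr_fun (shf_open2 h2 S r N js (ev ψ)).measurableSet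
    fun x hx => hFK js ψ x hx

theorem g_SHF (h1 : Sa_UNI) (h2 : Sm_OPN) (h3 : Sm_SIG) (h4 : Sm_SH1) : Sm_SHF := by
  intro S N G H hG hH h0
  -- the right side
  let B : S.R → List (ZMod 3) → ENNReal := fun r js =>
    ∫⁻ ψ in Ioc (0 : ℝ) (2 * Real.pi), ∫⁻ x in {x | PW S r x (ev ψ) N js}, G r x (ev ψ)
  have hR : ∀ r, ∫⁻ ψ in Ioc (0 : ℝ) (2 * Real.pi), ∫⁻ x in rm S r, G r x (ev ψ) =
      ∑' js, B r js := by
    intro r
    refine shf_total h1 h2 S r N (fun ψ x => G r x (ev ψ)) (fun _ p => G r p.2 (ev p.1))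
      (fun _ => ?_) (fun _ _ _ _ => rfl) (fun ψ x h => (h0 r x _ (norm_ev ψ) h).2)
    exact (hG r).comp (measurable_snd.prodMk (shf_ev.measurable.comp measurable_fst))
  have hL : ∀ r, ∫⁻ ψ in Ioc (0 : ℝ) (2 * Real.pi), ∫⁻ x in rm S r, H r x (ev ψ) =
      ∑' js, B (endP (Pl.home S r) js).r (rev (Pl.home S r) js) := by
    intro r
    rw [shf_total h1 h2 S r N (fun ψ x => H r x (ev ψ))
      (fun js p => G (endP (Pl.home S r) js).r
        ((p.2 + N * ev p.1 - (endP (Pl.home S r) js).b) / (endP (Pl.home S r) js).a)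
        (-ev p.1 / (endP (Pl.home S r) js).a)) (fun js => ?_)
      (fun js ψ x h => hH r x _ js _ (norm_ev ψ) h rfl)
      (fun ψ x h => (h0 r x _ (norm_ev ψ) h).1)]
    · congr 1
      funext js
      exact h4 S N r js _ _ rfl (hG _)
    · refine (hG _).comp (Measurable.prodMk ?_ ?_)
      · exact (((continuous_snd.add (continuous_const.mul
          (shf_ev.comp continuous_fst))).sub continuous_const).div_const _).measurable
      · exact (((shf_ev.comp continuous_fst).neg).div_const _).measurable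
  simp only [hR, hL]
  have hP : ∀ f : S.R → List (ZMod 3) → ENNReal,
      ∑ r, ∑' js, f r js = ∑' p : S.R × List (ZMod 3), f p.1 p.2 := by
    intro f
    rw [ENNReal.tsum_prod, tsum_fintype]
  rw [hP, hP]
  -- the involution
  let σ : S.R × List (ZMod 3) → S.R × List (ZMod 3) := fun p =>
    ((endP (Pl.home S p.1) p.2).r, rev (Pl.home S p.1) p.2)
  have hσ : Function.Involutive σ := by
    rintro ⟨r, js⟩
    obtain ⟨e1, e2⟩ := h3 S r js _ rfl
    refine Prod.ext ?_ e2
    exact congrArg Pl.r e1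
  exact (Function.Involutive.toPerm σ hσ).tsum_eq (fun p => B p.1 p.2)

end Pool.Agent.FAN
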