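import Pool.Agent.FAN.StM

/-!
# FAN, block 2: module SIG, reversal is an involution on pairs (room, word)
-/

set_option autoImplicit false

open scoped ComplexConjugate
open MeasureTheory Set

namespace Pool.Agent.FAN

/-- SIG. -/
theorem g_SIG (h1 : Sa_MOV) (h2 : Sa_REV) : Sm_SIG := by
  intro S r js q hq
  have ha0 : q.a ≠ 0 := by
    rw [← norm_ne_zero_iff, q.ha]
    exact one_ne_zero
  have hc : ‖q.a⁻¹‖ = 1 := by rw [norm_inv, q.ha, inv_one]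
  obtain ⟨-, r2, r3, -, -⟩ := h2 S (Pl.home S r) 0 0 0 js
  rw [← hq] at r2 r3
  obtain ⟨-, -, -, -, m5⟩ := h1 S q.a⁻¹ (-q.b / q.a) hc
  obtain ⟨-, n2, -, n4, -, -⟩ := m5 (rev (Pl.home S r) js) q 0 0 0
  have e1 : q.mv q.a⁻¹ (-q.b / q.a) hc = Pl.home S q.r := by
    ext
    · rfl
    · change q.a⁻¹ * q.a = 1
      exact inv_mul_cancel₀ ha0
    · change q.a⁻¹ * q.b + -q.b / q.a = 0
      field_simp
      ring
  have e2 : (Pl.home S r).mv q.a⁻¹ (-q.b / q.a) hc =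
      ⟨r, q.a⁻¹, -q.b / q.a, by rw [norm_inv, q.ha, inv_one]⟩ := by
    ext
    · rfl
    · change q.a⁻¹ * 1 = q.a⁻¹
      rw [mul_one]
    · change q.a⁻¹ * 0 + -q.b / q.a = -q.b / q.a
      rw [mul_zero, zero_add]
  rw [e1, r2, e2] at n2
  rw [e1, r3] at n4
  exact ⟨n2, n4⟩

end Pool.Agent.FAN
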