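import Pool.Agent.FAN.StM

/-!
# FAN, block 2, module TO1: Fubini on the unit tangent bundle (helper16)
-/

set_option autoImplicit false

open scoped ComplexConjugate
open MeasureTheory Set

namespace Pool.Agent.FAN

private theorem to1_int {X Y : Type*} [MeasurableSpace X] [MeasurableSpace Y] (μ : Measure X)
    (ν : Measure Y) [IsFiniteMeasure μ] [IsFiniteMeasure ν] (h : X → Y → ℝ) (B : ℝ)
    (hm : Measurable (fun p : X × Y => h p.1 p.2)) (hB : ∀ x y, |h x y| ≤ B) :
    Integrable (Function.uncurry h) (μ.prod ν) :=
  Integrable.of_bound hm.aestronglyMeasurable B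
    (Filter.Eventually.of_forall fun p => by
      rw [Real.norm_eq_abs]
      exact hB p.1 p.2)

/-- TO1. -/
theorem g_TO1 (h1 : Sm_OPN) : Sm_TO1 := by
  intro S G B hm hB
  have h2 : (0 : ℝ) ≤ 2 * Real.pi := by positivity
  have hf : ∀ r, IsFiniteMeasure ((volume : Measure ℂ).restrict (rm S r)) := fun r =>
    ⟨by rw [Measure.restrict_apply_univ]; exact (h1 S r).2.2.2⟩
  have hI : ∀ r, Integrable (Function.uncurry (G r))
      (((volume : Measure ℂ).restrict (rm S r)).prod
        ((volume : Measure ℝ).restrict (Ioc (0 : ℝ) (2 * Real.pi)))) := by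
    intro r
    have := hf r
    exact to1_int _ _ (G r) B (hm r) (hB r)
  refine ⟨?_, ?_, ?_⟩
  · intro r
    simp only [intervalIntegral.integral_of_le h2]
    have := hf r
    exact (hI r).integral_prod_left
  · intro r x
    rw [intervalIntegrable_iff_integrableOn_Ioc_of_le h2]
    refine Integrable.of_bound ((hm r).comp (measurable_const.prodMk measurable_id)).aestronglyMeasurable
      B (Filter.Eventually.of_forall fun ψ => ?_)
    rw [Real.norm_eq_abs]
    exact hB r x ψ
  · rw [EE]
    refine Finset.sum_congr rfl fun r _ => ?_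
    simp only [intervalIntegral.integral_of_le h2]
    have := hf r
    exact (integral_integral_swap (hI r)).symm

end Pool.Agent.FAN
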