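import Pool.Agent.FAN.P_FIN

/-!
# FAN, block 6: from the growth of `GG` to the growth of the complexity, any exponent (helper63)
-/

set_option autoImplicit false

open scoped ComplexConjugate
open MeasureTheory Set Metric
open Pool.Agent.Billiard Pool.Agent.Lib_helper45

namespace Pool.Agent.FAN

/-- A lower bound `L ^ β` for the number of generalized diagonals of length at most `L` in every
triangulated surface. -/
def GGrow (β : ℝ) : Prop := ∀ (S : TriSys) (r₀ : S.R) (i₀ : ZMod 3), ∃ c : ℝ, 0 < c ∧ ∃ n₀ : ℝ,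
  ∀ L : ℝ, n₀ ≤ L → c * L ^ β ≤ ((GG S r₀ i₀ L).ncard : ℝ)

theorem gen_num (β : ℝ) (hβ : 0 ≤ β) (G F : ℕ → ℝ) (hF1 : ∀ n, 1 ≤ F n) (hmono : Monotone F)
    (hd : ∀ n : ℕ, (n : ℝ) * G n / 2 ≤ F (2 * n)) (c : ℝ) (hc : 0 < c) (m₀ : ℕ)
    (hG : ∀ m : ℕ, m₀ ≤ m → c * (m : ℝ) ^ β ≤ G m) :
    ∃ c' : ℝ, 0 < c' ∧ ∀ n : ℕ, 1 ≤ n → c' * (n : ℝ) ^ (1 + β) ≤ F n := by
  have hβ1 : 0 ≤ 1 + β := by linarith
  have h3 : (0 : ℝ) < (3 : ℝ) ^ (1 + β) := Real.rpow_pos_of_pos (by norm_num) _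
  have hm0 : (0 : ℝ) < 2 * (m₀ : ℝ) + 2 := by positivity
  have hM : (0 : ℝ) < (2 * (m₀ : ℝ) + 2) ^ (1 + β) := Real.rpow_pos_of_pos hm0 _
  refine ⟨min (c / 2 / (3 : ℝ) ^ (1 + β)) (1 / (2 * (m₀ : ℝ) + 2) ^ (1 + β)),
    lt_min (by positivity) (by positivity), fun n hn => ?_⟩
  have hn0 : (0 : ℝ) < n := by exact_mod_cast hn
  have hnp : (0 : ℝ) < (n : ℝ) ^ (1 + β) := Real.rpow_pos_of_pos hn0 _
  rcases lt_or_ge n (2 * m₀ + 2) with hlt | hge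
  · calc min (c / 2 / (3 : ℝ) ^ (1 + β)) (1 / (2 * (m₀ : ℝ) + 2) ^ (1 + β)) *
          (n : ℝ) ^ (1 + β) ≤ (1 / (2 * (m₀ : ℝ) + 2) ^ (1 + β)) * (n : ℝ) ^ (1 + β) :=
          mul_le_mul_of_nonneg_right (min_le_right _ _) hnp.le
      _ ≤ 1 := by
          rw [one_div, inv_mul_le_iff₀ hM, mul_one]
          apply Real.rpow_le_rpow hn0.le _ hβ1
          exact_mod_cast hlt.le
      _ ≤ F n := hF1 n
  · obtain ⟨m, hm1, hm2⟩ : ∃ m : ℕ, 2 * m ≤ n ∧ n ≤ 2 * m + 1 := ⟨n / 2, by omega, by omega⟩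
    have hmm : m₀ ≤ m := by omega
    have hm1' : 1 ≤ m := by omega
    have hmpos : (0 : ℝ) < m := by exact_mod_cast hm1'
    have hn3 : (n : ℝ) / 3 ≤ m := by
      rw [div_le_iff₀ (by norm_num)]
      have : n ≤ m * 3 := by omega
      exact_mod_cast this
    have hGm := hG m hmm
    have e1 : (m : ℝ) ^ (1 + β) = m * (m : ℝ) ^ β := by
      rw [Real.rpow_add hmpos, Real.rpow_one]
    calc min (c / 2 / (3 : ℝ) ^ (1 + β)) (1 / (2 * (m₀ : ℝ) + 2) ^ (1 + β)) *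
          (n : ℝ) ^ (1 + β) ≤ (c / 2 / (3 : ℝ) ^ (1 + β)) * (n : ℝ) ^ (1 + β) :=
          mul_le_mul_of_nonneg_right (min_le_left _ _) hnp.le
      _ = c / 2 * ((n : ℝ) / 3) ^ (1 + β) := by
          rw [Real.div_rpow hn0.le (by norm_num)]; ring
      _ ≤ c / 2 * (m : ℝ) ^ (1 + β) := by
          apply mul_le_mul_of_nonneg_left _ (by positivity)
          exact Real.rpow_le_rpow (by positivity) hn3 hβ1
      _ = (m : ℝ) * (c * (m : ℝ) ^ β) / 2 := by rw [e1]; ring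
      _ ≤ (m : ℝ) * G m / 2 := by
          have := mul_le_mul_of_nonneg_left hGm hmpos.le
          linarith
      _ ≤ F (2 * m) := hd m
      _ ≤ F n := hmono hm1

/-- Growth `L ^ β` of the number of generalized diagonals gives growth `n ^ (1 + β)` of the complexity. -/
theorem gen_growth (hpol : Sp_POL) (β : ℝ) (hβ : 0 ≤ β) (hg : GGrow β) :
    ∀ P : Polygon, ∃ c : ℝ, 0 < c ∧ ∀ n : ℕ, 1 ≤ n → c * (n : ℝ) ^ (1 + β) ≤ P.complexity n := by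
  intro P
  obtain ⟨C⟩ := Bil.exists_corner P
  obtain ⟨S, r₀, i₀, c₁, hc₁, hG⟩ := hpol P C
  obtain ⟨c₂, hc₂, n₀, hL⟩ := hg S r₀ i₀
  obtain ⟨cc, nn, hD⟩ := C.data
  refine gen_num β hβ (fun m => ((C.GD m).ncard : ℝ)) (fun n => (P.complexity n : ℝ)) hD.hF1 hD.F_mono
    (fun n => ?_) (c₂ / c₁ ^ β) (div_pos hc₂ (Real.rpow_pos_of_pos hc₁ _))
    (⌈c₁ * max n₀ 1⌉₊) (fun m hm => ?_)
  · have h1 : (∑ m ∈ Finset.range n, ((C.gset m).card : ℝ)) = ((C.GD n).ncard : ℝ) := by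
      have h2 := C.sum_gset n (fun _ => 1)
      simp only [Finset.sum_const, nsmul_eq_mul, mul_one] at h2
      rw [← h2, Set.ncard_eq_toFinset_card _ (C.GD_finite n)]
    have h3 := hD.F_double n
    rw [h1] at h3
    exact h3
  · have hm' : c₁ * max n₀ 1 ≤ m := (Nat.le_ceil _).trans (by exact_mod_cast hm)
    have hx : max n₀ 1 ≤ (m : ℝ) / c₁ := by
      rw [le_div_iff₀ hc₁]; linarith
    have h1 := hL ((m : ℝ) / c₁) ((le_max_left _ _).trans hx)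
    have h4 : (GG S r₀ i₀ ((m : ℝ) / c₁)).ncard ≤ (C.GD m).ncard := by
      apply hG _ ((le_max_right _ _).trans hx) m
      apply le_of_eq
      field_simp
    have h5 : ((GG S r₀ i₀ ((m : ℝ) / c₁)).ncard : ℝ) ≤ ((C.GD m).ncard : ℝ) := by exact_mod_cast h4
    refine le_trans (le_of_eq ?_) (h1.trans h5)
    rw [Real.div_rpow (Nat.cast_nonneg _) hc₁.le]
    ring

end Pool.Agent.FAN
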