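import Pool.Agent.FAN.StP
import Pool.Agent.FAN.A_TIM
import Pool.Agent.FAN.Base2

/-!
# FAN, block 6: module APX, entering and leaving at an apex
-/

set_option autoImplicit false

open scoped ComplexConjugate
open MeasureTheory Set Metric

namespace Pool.Agent.FAN

private theorem apx_z (S : TriSys) (q : Pl S) (i k : ZMod 3) (h : i ≠ k) :
    timG q k (q.V i) = 0 := by
  rcases tim_ne i k h with rfl | rfl
  · have := tim_z2 q (i + 1)
    rwa [tim_a13] at this
  · have := tim_z1 q (i + 2)
    rwa [tim_a21] at this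

/-- APX. -/
theorem p_APX : Sp_APX := by
  intro S
  refine ⟨?_, ?_⟩
  · intro q x v i hE hV
    have hD := tim_En hE
    have hp := tim_pos m_ORI q i
    have h1 : timG q i (x + ((1 : ℝ) : ℂ) * v) =
        cx v (q.V (i + 2) - q.V (i + 1)) * (q.ct x v i - 1) := tim_ct q x v i 1 hD.ne
    have e1 : x + ((1 : ℝ) : ℂ) * v = q.V i := by rw [hV]; push_cast; ring
    rw [e1] at h1
    have hc : q.ct x v i < 1 := by
      by_contra hcon
      rw [not_lt] at hcon
      have : cx v (q.V (i + 2) - q.V (i + 1)) * (q.ct x v i - 1) ≤ 0 :=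
        mul_nonpos_of_nonpos_of_nonneg hD.le (by linarith)
      linarith
    refine ⟨hc, ?_⟩
    intro τ hτ k
    change 0 < timG q k (x + (τ : ℝ) * v)
    by_cases hk : i = k
    · subst hk
      rw [tim_ct q x v i τ hD.ne]
      exact mul_pos_of_neg_of_neg hD (by linarith [hτ.1])
    · have h2 := tim_other m_ORI q x v i k (Or.inr hE) hk
      have h3 := tim_line q x v k 1
      rw [e1, apx_z S q i k hk] at h3
      rw [tim_line] at h2 ⊢
      set D := cx v (q.V (k + 2) - q.V (k + 1))
      have h4 : 0 < D * (1 - q.ct x v i) := by linarith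
      have h5 : 0 < D := by
        rcases pos_and_pos_or_neg_and_neg_of_mul_pos h4 with h | h
        · exact h.1
        · linarith [h.2]
      have h6 : 0 < D * (1 - τ) := mul_pos h5 (by linarith [hτ.2])
      linarith
  · intro q v i hE
    have hD := tim_Ex hE
    have hp := tim_pos m_ORI q i
    have h1 : timG q i (q.V i + ((0 : ℝ) : ℂ) * v) =
        cx v (q.V (i + 2) - q.V (i + 1)) * (q.ct (q.V i) v i - 0) := tim_ct q (q.V i) v i 0 hD.ne'
    have e1 : q.V i + ((0 : ℝ) : ℂ) * v = q.V i := by push_cast; ring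
    rw [e1, sub_zero] at h1
    rw [h1] at hp
    have hc : 0 < q.ct (q.V i) v i := by
      rcases pos_and_pos_or_neg_and_neg_of_mul_pos hp with h | h
      · exact h.2
      · linarith [h.1]
    refine ⟨hc, ?_⟩
    intro τ hτ k
    change 0 < timG q k (q.V i + (τ : ℝ) * v)
    by_cases hk : i = k
    · subst hk
      rw [tim_ct q (q.V i) v i τ hD.ne']
      exact mul_pos hD (by linarith [hτ.2])
    · have h2 := tim_other m_ORI q (q.V i) v i k (Or.inl hE) hk
      have h3 := tim_line q (q.V i) v k 0
      rw [e1, apx_z S q i k hk] at h3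
      rw [tim_line] at h2 ⊢
      set D := cx v (q.V (k + 2) - q.V (k + 1))
      have h4 : 0 < (-D) * q.ct (q.V i) v i := by linarith
      have h5 : 0 < -D := by
        rcases pos_and_pos_or_neg_and_neg_of_mul_pos h4 with h | h
        · exact h.1
        · linarith [h.2]
      have h6 : 0 < (-D) * τ := mul_pos h5 hτ.1
      linarith

end Pool.Agent.FAN
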