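import Pool.Agent.FAN.StP

/-!
# FAN, block 6: components of the complement of the edges (helper75)
-/

set_option autoImplicit false

open scoped ComplexConjugate
open MeasureTheory Set Metric
open Pool.Agent.Billiard Pool.Agent.Lib_helper45

namespace Pool.Agent.FAN

theorem p_CMP (h : Sp_EDG) : Sp_CMP := by
  intro P N y hy
  obtain ⟨-, -, -, ⟨-, hGam, hOpen⟩, -⟩ := h P N
  have hyK : y ∈ N.Kp y := mem_connectedComponentIn hy
  refine ⟨hyK, connectedComponentIn_subset _ _, hOpen.connectedComponentIn,
    isPreconnected_connectedComponentIn, ?_⟩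
  intro s hs hd hne
  obtain ⟨x, hxs, hxK⟩ := hne
  have hxOm : x ∈ N.Om := connectedComponentIn_subset _ _ hxK
  have hsU : s ⊆ Bil.U P := by
    refine Bil.subset_U (P := P) hs (fun z hz hG => ?_) ⟨x, hxs, hxOm.1⟩
    exact Set.disjoint_left.1 hd hz (hGam hG)
  have hsOm : s ⊆ N.Om := fun z hz => ⟨hsU hz, Set.disjoint_left.1 hd hz⟩
  have h1 : s ⊆ connectedComponentIn N.Om x := hs.subset_connectedComponentIn hxs hsOm
  have h2 : connectedComponentIn N.Om y = connectedComponentIn N.Om x :=
    connectedComponentIn_eq hxK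
  unfold Net.Kp
  rw [h2]
  exact h1

end Pool.Agent.FAN
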