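import Pool.Agent.FAN.StP

/-!
# A cone at a vertex without edges in it (module FANP_CON, helper27)
-/

set_option autoImplicit false

open scoped ComplexConjugate
open MeasureTheory Set Metric
open Pool.Agent.Billiard Pool.Agent.Lib_helper45

namespace Pool.Agent.FAN

private theorem pCON_cxr (e p : ℂ) (t : ℝ) : cx e (t * p) = t * cx e p := by
  simp only [cx, Complex.mul_re, Complex.mul_im, Complex.ofReal_re, Complex.ofReal_im]
  ring

private theorem pCON_cxl (e p : ℂ) (t : ℝ) : cx (t * p) e = t * cx p e := by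
  simp only [cx, Complex.mul_re, Complex.mul_im, Complex.ofReal_re, Complex.ofReal_im]
  ring

private theorem pCON_e (e f : ℂ) (α β : ℝ) : cx e (α * e + β * f) = β * cx e f := by
  simp only [cx, Complex.mul_re, Complex.mul_im, Complex.ofReal_re, Complex.ofReal_im,
    Complex.add_re, Complex.add_im]
  ring

private theorem pCON_f (e f : ℂ) (α β : ℝ) : cx (α * e + β * f) f = α * cx e f := by
  simp only [cx, Complex.mul_re, Complex.mul_im, Complex.ofReal_re, Complex.ofReal_im,
    Complex.add_re, Complex.add_im]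
  ring

private theorem pCON_seg (w d z : ℂ) (h : z ∈ segment ℝ w d) :
    ∃ t : ℝ, 0 ≤ t ∧ z - w = t * (d - w) := by
  obtain ⟨a, b, ha, hb, hab, hz⟩ := h
  refine ⟨b, hb, ?_⟩
  rw [← hz]
  simp only [Complex.real_smul]
  have : (a : ℂ) = 1 - b := by
    have : a = 1 - b := by linarith
    rw [this]
    push_cast
    ring
  rw [this]
  ring

theorem p_CON (hE : Sp_EDG) (hC : Sp_CMP) : Sp_CON := by
  intro P N y m ρ e f α₀ β₀ hy hρ hball hef hcone hα₀ hβ₀ hK₀ hB₀ α β hα hβ hn
  set w := P.vertex m with hw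
  obtain ⟨_, hKO, hKopen, _, hsub⟩ := hC P N y hy
  set C : Set ℂ := {z | z ∈ ball w ρ ∧ 0 < cx e (z - w) ∧ 0 < cx (z - w) f} with hCdef
  have hconv : Convex ℝ C := by
    intro p hp q hq a b ha hb hab
    have hpw : a • p + b • q - w = a * (p - w) + b * (q - w) := by
      simp only [Complex.real_smul]
      have : (b : ℂ) = 1 - a := by
        have : b = 1 - a := by linarith
        rw [this]
        push_cast
        ring
      rw [this]
      ring
    have k1 : cx e (a • p + b • q - w) = a * cx e (p - w) + b * cx e (q - w) := by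
      rw [hpw]
      simp only [cx, Complex.mul_re, Complex.mul_im, Complex.ofReal_re, Complex.ofReal_im,
        Complex.add_re, Complex.add_im]
      ring
    have k2 : cx (a • p + b • q - w) f = a * cx (p - w) f + b * cx (q - w) f := by
      rw [hpw]
      simp only [cx, Complex.mul_re, Complex.mul_im, Complex.ofReal_re, Complex.ofReal_im,
        Complex.add_re, Complex.add_im]
      ring
    have pos : ∀ u v : ℝ, 0 < u → 0 < v → 0 < a * u + b * v := by
      intro u v hu hv
      rcases eq_or_lt_of_le ha with h | h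
      · have hb1 : b = 1 := by linarith
        rw [← h, hb1]
        linarith
      · have := mul_pos h hu
        have := mul_nonneg hb hv.le
        linarith
    refine ⟨(convex_ball w ρ) hp.1 hq.1 ha hb hab, ?_, ?_⟩
    · rw [k1]
      exact pos _ _ hp.2.1 hq.2.1
    · rw [k2]
      exact pos _ _ hp.2.2 hq.2.2
  have hone : ∀ (z : ℂ) (j : ZMod P.k), z ∈ C → N.E m j → z ∈ segment ℝ w (P.vertex j) → False := by
    intro z j hz hj hs
    obtain ⟨t, ht, he⟩ := pCON_seg w (P.vertex j) z hs
    have c1 := hz.2.1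
    have c2 := hz.2.2
    rw [he, pCON_cxr] at c1
    rw [he, pCON_cxl] at c2
    have ht0 : 0 < t := by
      rcases eq_or_lt_of_le ht with h | h
      · rw [← h, zero_mul] at c1
        exact absurd c1 (lt_irrefl _)
      · exact h
    exact hcone j hj ⟨(mul_pos_iff_of_pos_left ht0).1 c1, (mul_pos_iff_of_pos_left ht0).1 c2⟩
  have hdis : Disjoint C N.Sk := by
    rw [Set.disjoint_left]
    rintro z hz ⟨i, j, hij, hs⟩
    have hne : (sg P i j ∩ ball w ρ).Nonempty := ⟨z, hs, hz.1⟩
    rcases hball i j hij hne with h | h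
    · subst h
      exact hone z j hz hij hs
    · subst h
      refine hone z i hz ((hE P N).1 i j hij).2 ?_
      rw [segment_symm]
      exact hs
  have hne : (C ∩ N.Kp y).Nonempty := by
    have hop : IsOpen (N.Kp y ∩ ball w ρ) := hKopen.inter isOpen_ball
    have hcont : Continuous (fun ε : ℝ => w + α₀ * e + β₀ * f + (ε : ℂ) * (e + f)) := by
      fun_prop
    have hmem : (fun ε : ℝ => w + α₀ * e + β₀ * f + (ε : ℂ) * (e + f)) 0 ∈ N.Kp y ∩ ball w ρ := by
      simp only [Complex.ofReal_zero, zero_mul, add_zero]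
      exact ⟨hK₀, hB₀⟩
    have hnhds := hcont.continuousAt.preimage_mem_nhds (hop.mem_nhds hmem)
    obtain ⟨δ, hδ, hδ'⟩ := Metric.mem_nhds_iff.1 hnhds
    have hm : (δ / 2 : ℝ) ∈ ball (0 : ℝ) δ := by
      rw [mem_ball, dist_zero_right, Real.norm_eq_abs, abs_of_pos (by linarith)]
      linarith
    have hz := hδ' hm
    set z : ℂ := w + α₀ * e + β₀ * f + ((δ / 2 : ℝ) : ℂ) * (e + f) with hzdef
    have hzw : z - w = ((α₀ + δ / 2 : ℝ) : ℂ) * e + ((β₀ + δ / 2 : ℝ) : ℂ) * f := by
      rw [hzdef]
      push_cast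
      ring
    have hz' : z ∈ N.Kp y ∩ ball w ρ := hz
    refine ⟨z, ⟨hz'.2, ?_, ?_⟩, hz'.1⟩
    · rw [hzw, pCON_e]
      exact mul_pos (by linarith) hef
    · rw [hzw, pCON_f]
      exact mul_pos (by linarith) hef
  have hCK := hsub C hconv.isPreconnected hdis hne
  refine hCK ⟨?_, ?_, ?_⟩
  · rw [mem_ball, dist_eq_norm]
    have : w + α * e + β * f - w = α * e + β * f := by ring
    rw [this]
    exact hn
  · have : w + α * e + β * f - w = α * e + β * f := by ring
    rw [this, pCON_e]
    exact mul_pos hβ hef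
  · have : w + α * e + β * f - w = α * e + β * f := by ring
    rw [this, pCON_f]
    exact mul_pos hα hef

end Pool.Agent.FAN
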