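import Pool.Agent.FAN.StP

/-!
# FAN, block 6, COV (helper30)

Every point of `Om` lies in a triangle.
-/

set_option autoImplicit false

open scoped ComplexConjugate
open MeasureTheory Set Metric
open Pool.Agent.Billiard Pool.Agent.Lib_helper45

namespace Pool.Agent.FAN

theorem p_COV (hCMP : Sp_CMP) (hLEX : Sp_LEX) (hSEC : Sp_SEC) (hTRG : Sp_TRG) (hTRI : Sp_TRI) :
    Sp_COV := by
  intro P N y hy
  obtain ⟨hyK, hKO, -, hKp, -⟩ := hCMP P N y hy
  obtain ⟨m, hm1, hm2, hm3⟩ := hLEX P N y hy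
  obtain ⟨a, b, ρ, hρ, hEa, hEb, hpos, hno, hcone⟩ := hSEC P N y m hy hm1 hm2 hm3
  obtain ⟨t, -, -, -, ht⟩ := hTRG P N y m a b ρ hy hρ hEa hEb hpos hno hcone
  obtain ⟨⟨hop, -, hne⟩, -, -, hfr, -⟩ := hTRI (fun i => P.vertex (t.l i)) t.pos
  refine ⟨t, ?_⟩
  have key : N.Kp y ⊆ tri (fun i => P.vertex (t.l i)) := by
    refine IsPreconnected.subset_left_of_subset_union hop
      (isClosed_closure (s := tri (fun i => P.vertex (t.l i)))).isOpen_compl ?_ ?_ ?_ hKp
    · exact disjoint_compl_right.mono_left subset_closure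
    · intro z hz
      by_cases h1 : z ∈ tri (fun i => P.vertex (t.l i))
      · exact Or.inl h1
      · refine Or.inr fun h2 => ?_
        obtain ⟨i, hi⟩ := hfr z h2 h1
        exact (hKO hz).2 ⟨t.l (i + 1), t.l (i + 2), t.edg i, hi⟩
    · obtain ⟨z, hz⟩ := hne
      exact ⟨z, ht hz, hz⟩
  exact key hyK

end Pool.Agent.FAN
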