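import Pool.Agent.FAN.StP

/-! # FAN, block 6, DNS: the complement of the edges is dense in the table (helper72) -/

set_option autoImplicit false

open scoped ComplexConjugate
open MeasureTheory Set Metric
open Pool.Agent.Billiard Pool.Agent.Lib_helper45

namespace Pool.Agent.FAN

private theorem dns_seg (a b : ℂ) : (volume : Measure ℂ) (segment ℝ a b) = 0 := by
  have h1 : segment ℝ a b ⊆ ((affineSpan ℝ {a, b} : AffineSubspace ℝ ℂ) : Set ℂ) := by
    rw [← convexHull_pair]
    exact convexHull_subset_affineSpan _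
  have h2 : (affineSpan ℝ {a, b} : AffineSubspace ℝ ℂ) ≠ ⊤ := by
    intro h
    have h3 : vectorSpan ℝ ({a, b} : Set ℂ) = ⊤ := by
      rw [← direction_affineSpan, h, AffineSubspace.direction_top]
    have h4 : Module.finrank ℝ (vectorSpan ℝ ({a, b} : Set ℂ)) ≤ 1 :=
      (collinear_pair ℝ a b).finrank_le_one
    rw [h3, finrank_top, Complex.finrank_real_complex] at h4
    omega
  exact measure_mono_null h1 (Measure.addHaar_affineSubspace volume _ h2)

theorem p_DNS : Sp_DNS := by
  intro P N z ρ hz hρ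
  have h0 : (volume : Measure ℂ) N.Sk = 0 := by
    have hsub : N.Sk ⊆ ⋃ i : ZMod P.k, ⋃ j : ZMod P.k, sg P i j := by
      rintro y ⟨i, j, -, hy⟩
      exact mem_iUnion.2 ⟨i, mem_iUnion.2 ⟨j, hy⟩⟩
    refine measure_mono_null hsub ?_
    refine measure_iUnion_null fun i => measure_iUnion_null fun j => dns_seg _ _
  have hop : IsOpen (ball z ρ ∩ Bil.U P) := isOpen_ball.inter (Bil.isOpen_U (P := P))
  have hpos : 0 < (volume : Measure ℂ) (ball z ρ ∩ Bil.U P) :=
    hop.measure_pos volume ⟨z, mem_ball_self hρ, hz⟩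
  have hne : ((ball z ρ ∩ Bil.U P) \ N.Sk).Nonempty := by
    rw [nonempty_iff_ne_empty]
    intro he
    have : (volume : Measure ℂ) (ball z ρ ∩ Bil.U P) ≤ volume N.Sk :=
      measure_mono (sdiff_eq_empty.1 he)
    rw [h0] at this
    exact absurd this (not_le.2 hpos)
  obtain ⟨y, ⟨hy1, hy2⟩, hy3⟩ := hne
  exact ⟨y, hy1, hy2, hy3⟩

end Pool.Agent.FAN
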