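import Pool.Agent.FAN.StP

/-!
# FAN, block 6: EDG (helper19). Facts on the edges of a net.
-/

set_option autoImplicit false

open scoped ComplexConjugate Topology
open MeasureTheory Set Metric
open Pool.Agent.Billiard Pool.Agent.Lib_helper45

namespace Pool.Agent.FAN

variable {P : Polygon}

private theorem edg_osg_comm (i j : ZMod P.k) : osg P i j = osg P j i :=
  openSegment_symm ℝ _ _

private theorem edg_sg_comm (i j : ZMod P.k) : sg P i j = sg P j i :=
  segment_symm ℝ _ _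

private theorem edg_ne (N : Net P) {i j : ZMod P.k} (h : N.E i j) : i ≠ j := by
  rcases h with h | h | h
  · exact (N.diag i j h).1
  · rw [h]; exact (Bil.succ_ne i).symm
  · rw [h]; exact Bil.succ_ne j

private theorem edg_symm (N : Net P) {i j : ZMod P.k} (h : N.E i j) : N.E j i := by
  rcases h with h | h | h
  · exact Or.inl (N.symm i j h)
  · exact Or.inr (Or.inr h)
  · exact Or.inr (Or.inl h)

/-- the open segment of a side -/
private theorem edg_side {i j : ZMod P.k} (h : Sd P i j) : ∃ a, osg P i j = Bil.rel P a ∧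
    ((i = a ∧ j = a + 1) ∨ (i = a + 1 ∧ j = a)) := by
  rcases h with h | h
  · refine ⟨i, ?_, Or.inl ⟨rfl, h⟩⟩
    rw [h]; rfl
  · refine ⟨j, ?_, Or.inr ⟨h, rfl⟩⟩
    rw [edg_osg_comm, h]; rfl

private theorem edg_vertex (N : Net P) {i j : ZMod P.k} (m : ZMod P.k) (h : N.E i j) :
    P.vertex m ∉ osg P i j := by
  rcases h with h | h
  · intro hm
    exact Bil.not_mem_U_of_Gam (Bil.vertex_mem_Gam m) ((N.diag i j h).2 hm)
  · obtain ⟨a, ha, -⟩ := edg_side h
    rw [ha]
    exact Bil.vertex_not_mem_rel a m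

private theorem edg_split {i j : ZMod P.k} {z : ℂ} (h : z ∈ sg P i j) :
    z = P.vertex i ∨ z = P.vertex j ∨ z ∈ osg P i j := by
  have h1 : z ∈ insert (P.vertex i) (insert (P.vertex j) (openSegment ℝ (P.vertex i) (P.vertex j))) := by
    rw [insert_endpoints_openSegment]; exact h
  simpa [Set.mem_insert_iff, osg] using h1

private theorem edg_closed (i j : ZMod P.k) : IsClosed (sg P i j) := by
  have h : IsCompact (sg P i j) := by
    rw [sg, segment_eq_image_lineMap]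
    exact isCompact_Icc.image (by fun_prop)
  exact h.isClosed

private theorem edg_unique (N : Net P) {i j k l : ZMod P.k} {z : ℂ} (h : N.E i j) (h' : N.E k l)
    (hz : z ∈ osg P i j) (hz' : z ∈ sg P k l) : (k = i ∧ l = j) ∨ (k = j ∧ l = i) := by
  have hz2 : z ∈ osg P k l := by
    rcases edg_split hz' with e | e | e
    · exact absurd (e ▸ hz) (edg_vertex N k h)
    · exact absurd (e ▸ hz) (edg_vertex N l h)
    · exact e
  rcases h with h | h
  · rcases h' with h' | h'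
    · exact N.disj i j k l h h' ⟨z, hz, hz2⟩
    · exfalso
      obtain ⟨a, ha, -⟩ := edg_side h'
      rw [ha] at hz2
      exact Bil.not_mem_U_of_Gam (Bil.rel_subset_Gam a hz2) ((N.diag i j h).2 hz)
  · rcases h' with h' | h'
    · exfalso
      obtain ⟨a, ha, -⟩ := edg_side h
      rw [ha] at hz
      exact Bil.not_mem_U_of_Gam (Bil.rel_subset_Gam a hz) ((N.diag k l h').2 hz2)
    · obtain ⟨a, ha, hab⟩ := edg_side h
      obtain ⟨b, hb, hbb⟩ := edg_side h'
      rw [ha] at hz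
      rw [hb] at hz2
      have e : a = b := Bil.rel_unique hz hz2
      subst e
      rcases hab with ⟨rfl, rfl⟩ | ⟨rfl, rfl⟩ <;> rcases hbb with ⟨rfl, rfl⟩ | ⟨rfl, rfl⟩ <;> simp

private theorem edg_Sk_closed (N : Net P) : IsClosed N.Sk := by
  have h : N.Sk = ⋃ p : ZMod P.k × ZMod P.k, {z | N.E p.1 p.2 ∧ z ∈ sg P p.1 p.2} := by
    ext z
    simp only [Net.Sk, Set.mem_iUnion, Prod.exists, Set.mem_ofPred_eq]
  rw [h]
  refine isClosed_iUnion_of_finite fun p => ?_
  by_cases hp : N.E p.1 p.2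
  · have e : {z | N.E p.1 p.2 ∧ z ∈ sg P p.1 p.2} = sg P p.1 p.2 := by
      ext z; simp [hp]
    rw [e]
    exact edg_closed _ _
  · have e : {z | N.E p.1 p.2 ∧ z ∈ sg P p.1 p.2} = ∅ := by
      ext z; simp [hp]
    rw [e]
    exact isClosed_empty

theorem p_EDG : Sp_EDG := by
  intro P N
  refine ⟨fun i j h => ⟨edg_ne N h, edg_symm N h⟩, fun i j m h => edg_vertex N m h,
    fun i j k l z h h' hz hz' => edg_unique N h h' hz hz', ⟨edg_Sk_closed N, ?_, ?_⟩, ?_, ?_, ?_⟩
  · intro z hz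
    obtain ⟨i, hi⟩ := Bil.mem_Gam_iff.1 hz
    exact ⟨i, i + 1, Or.inr (Or.inl rfl), hi⟩
  · exact Bil.isOpen_U.sdiff (edg_Sk_closed N)
  · rintro z ⟨i, j, hE, hz⟩
    rcases edg_split hz with e | e | e
    · exact Or.inl ⟨i, e⟩
    · exact Or.inl ⟨j, e⟩
    · exact Or.inr ⟨i, j, hE, e⟩
  · intro m
    exact ⟨m, m + 1, Or.inr (Or.inl rfl), left_mem_segment ℝ _ _⟩
  · intro z
    have h1 : ∀ p : ZMod P.k × ZMod P.k, ∀ᶠ ρ : ℝ in 𝓝[>] 0,
        ((sg P p.1 p.2 ∩ ball z ρ).Nonempty → z ∈ sg P p.1 p.2) := by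
      intro p
      by_cases hz : z ∈ sg P p.1 p.2
      · exact Filter.Eventually.of_forall fun _ _ => hz
      · have h2 : (sg P p.1 p.2)ᶜ ∈ 𝓝 z := (edg_closed p.1 p.2).isOpen_compl.mem_nhds hz
        obtain ⟨ε, hε, hb⟩ := Metric.mem_nhds_iff.1 h2
        filter_upwards [Ioo_mem_nhdsGT hε] with ρ hρ hne
        obtain ⟨w, hw1, hw2⟩ := hne
        exact absurd hw1 (hb (ball_subset_ball hρ.2.le hw2))
    have h2 : ∀ᶠ ρ : ℝ in 𝓝[>] 0, ∀ p : ZMod P.k × ZMod P.k,
        ((sg P p.1 p.2 ∩ ball z ρ).Nonempty → z ∈ sg P p.1 p.2) := Filter.eventually_all.2 h1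
    obtain ⟨ρ, hρ, hρ0⟩ := (h2.and self_mem_nhdsWithin).exists
    exact ⟨ρ, hρ0, fun i j _ hne => hρ (i, j) hne⟩

end Pool.Agent.FAN
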