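import Pool.Agent.FAN.StP

/-!
# FAN, block 6: FIN, the final counting (helper63)
-/

set_option autoImplicit false

open scoped ComplexConjugate
open MeasureTheory Set Metric
open Pool.Agent.Billiard Pool.Agent.Lib_helper45

namespace Pool.Agent.FAN

theorem fin_num (G F : ℕ → ℝ) (hF1 : ∀ n, 1 ≤ F n) (hmono : Monotone F)
    (hd : ∀ n : ℕ, (n : ℝ) * G n / 2 ≤ F (2 * n)) (c : ℝ) (hc : 0 < c) (m₀ : ℕ)
    (hG : ∀ m : ℕ, m₀ ≤ m → c * (m : ℝ) ^ (7 / 6 : ℝ) ≤ G m) :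
    ∃ c' : ℝ, 0 < c' ∧ ∀ n : ℕ, 1 ≤ n → c' * (n : ℝ) ^ (13 / 6 : ℝ) ≤ F n := by
  have h3 : (0 : ℝ) < (3 : ℝ) ^ (13 / 6 : ℝ) := Real.rpow_pos_of_pos (by norm_num) _
  have hm0 : (0 : ℝ) < 2 * (m₀ : ℝ) + 2 := by positivity
  have hM : (0 : ℝ) < (2 * (m₀ : ℝ) + 2) ^ (13 / 6 : ℝ) := Real.rpow_pos_of_pos hm0 _
  refine ⟨min (c / 2 / (3 : ℝ) ^ (13 / 6 : ℝ)) (1 / (2 * (m₀ : ℝ) + 2) ^ (13 / 6 : ℝ)),
    lt_min (by positivity) (by positivity), fun n hn => ?_⟩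
  have hn0 : (0 : ℝ) < n := by exact_mod_cast hn
  have hnp : (0 : ℝ) < (n : ℝ) ^ (13 / 6 : ℝ) := Real.rpow_pos_of_pos hn0 _
  rcases lt_or_ge n (2 * m₀ + 2) with hlt | hge
  · calc min (c / 2 / (3 : ℝ) ^ (13 / 6 : ℝ)) (1 / (2 * (m₀ : ℝ) + 2) ^ (13 / 6 : ℝ)) *
          (n : ℝ) ^ (13 / 6 : ℝ) ≤ (1 / (2 * (m₀ : ℝ) + 2) ^ (13 / 6 : ℝ)) * (n : ℝ) ^ (13 / 6 : ℝ) :=
          mul_le_mul_of_nonneg_right (min_le_right _ _) hnp.le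
      _ ≤ 1 := by
          rw [one_div, inv_mul_le_iff₀ hM, mul_one]
          apply Real.rpow_le_rpow hn0.le _ (by norm_num)
          exact_mod_cast hlt.le
      _ ≤ F n := hF1 n
  · obtain ⟨m, hm1, hm2⟩ : ∃ m : ℕ, 2 * m ≤ n ∧ n ≤ 2 * m + 1 := ⟨n / 2, by omega, by omega⟩
    have hmm : m₀ ≤ m := by omega
    have hm1' : 1 ≤ m := by omega
    have hmpos : (0 : ℝ) < m := by exact_mod_cast hm1'
    have hn3 : (n : ℝ) / 3 ≤ m := by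
      rw [div_le_iff₀ (by norm_num)]
      have : n ≤ m * 3 := by omega
      exact_mod_cast this
    have hGm := hG m hmm
    have e1 : (m : ℝ) ^ (13 / 6 : ℝ) = m * (m : ℝ) ^ (7 / 6 : ℝ) := by
      rw [show (13 / 6 : ℝ) = 1 + 7 / 6 by norm_num, Real.rpow_add hmpos, Real.rpow_one]
    calc min (c / 2 / (3 : ℝ) ^ (13 / 6 : ℝ)) (1 / (2 * (m₀ : ℝ) + 2) ^ (13 / 6 : ℝ)) *
          (n : ℝ) ^ (13 / 6 : ℝ) ≤ (c / 2 / (3 : ℝ) ^ (13 / 6 : ℝ)) * (n : ℝ) ^ (13 / 6 : ℝ) :=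
          mul_le_mul_of_nonneg_right (min_le_left _ _) hnp.le
      _ = c / 2 * ((n : ℝ) / 3) ^ (13 / 6 : ℝ) := by
          rw [Real.div_rpow hn0.le (by norm_num)]; ring
      _ ≤ c / 2 * (m : ℝ) ^ (13 / 6 : ℝ) := by
          apply mul_le_mul_of_nonneg_left _ (by positivity)
          exact Real.rpow_le_rpow (by positivity) hn3 (by norm_num)
      _ = (m : ℝ) * (c * (m : ℝ) ^ (7 / 6 : ℝ)) / 2 := by rw [e1]; ring
      _ ≤ (m : ℝ) * G m / 2 := by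
          have := mul_le_mul_of_nonneg_left hGm hmpos.le
          linarith
      _ ≤ F (2 * m) := hd m
      _ ≤ F n := hmono hm1

/-- from the square estimate to the power -/
theorem fin_sq (G : ℕ → ℝ) (hG0 : ∀ m, 0 ≤ G m) (c₁ c₂ C' : ℝ) (hc₁ : 0 < c₁) (hc₂ : 0 < c₂)
    (hC' : 0 < C') (m₁ : ℕ)
    (h : ∀ m : ℕ, m₁ ≤ m → c₂ * ((m : ℝ) / (2 * c₁)) ^ 2 ≤
      (G m + 1) ^ 2 * (C' * ((m : ℝ) / (2 * c₁) / 4) ^ (-(1 / 3) : ℝ))) :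
    ∃ c : ℝ, 0 < c ∧ ∃ m₀ : ℕ, ∀ m : ℕ, m₀ ≤ m → c * (m : ℝ) ^ (7 / 6 : ℝ) ≤ G m := by
  set κ : ℝ := c₂ / C' * (1 / (2 * c₁)) ^ 2 * (1 / (2 * c₁) / 4) ^ (1 / 3 : ℝ) with hκ
  have hκ0 : 0 < κ := by
    have : (0 : ℝ) < (1 / (2 * c₁) / 4) ^ (1 / 3 : ℝ) := Real.rpow_pos_of_pos (by positivity) _
    positivity
  have hs : 0 < Real.sqrt κ := Real.sqrt_pos.2 hκ0
  refine ⟨Real.sqrt κ / 2, by positivity, max (max m₁ 1) (⌈2 / Real.sqrt κ⌉₊), fun m hm => ?_⟩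
  have hm1 : m₁ ≤ m := (le_max_left _ _).trans ((le_max_left _ _).trans hm)
  have hm2 : 1 ≤ m := (le_max_right _ _).trans ((le_max_left _ _).trans hm)
  have hm3 : 2 / Real.sqrt κ ≤ m := (Nat.le_ceil _).trans (by exact_mod_cast (le_max_right _ _).trans hm)
  have hmpos : (0 : ℝ) < m := by exact_mod_cast hm2
  have hm1R : (1 : ℝ) ≤ m := by exact_mod_cast hm2
  set y : ℝ := (m : ℝ) ^ (7 / 6 : ℝ) with hy
  have hy0 : 0 < y := Real.rpow_pos_of_pos hmpos _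
  have hym : (m : ℝ) ≤ y := by
    have := Real.rpow_le_rpow_of_exponent_le hm1R (show (1 : ℝ) ≤ 7 / 6 by norm_num)
    rwa [Real.rpow_one] at this
  have h1 := h m hm1
  have hq : (0 : ℝ) < (m : ℝ) / (2 * c₁) / 4 := by positivity
  have hqp : 0 < ((m : ℝ) / (2 * c₁) / 4) ^ (1 / 3 : ℝ) := Real.rpow_pos_of_pos hq _
  rw [Real.rpow_neg hq.le] at h1
  have h2 : c₂ / C' * ((m : ℝ) / (2 * c₁)) ^ 2 * ((m : ℝ) / (2 * c₁) / 4) ^ (1 / 3 : ℝ) ≤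
      (G m + 1) ^ 2 := by
    have h3 : c₂ * ((m : ℝ) / (2 * c₁)) ^ 2 * ((m : ℝ) / (2 * c₁) / 4) ^ (1 / 3 : ℝ) ≤
        (G m + 1) ^ 2 * C' := by
      have := mul_le_mul_of_nonneg_right h1 hqp.le
      have e : (G m + 1) ^ 2 * (C' * (((m : ℝ) / (2 * c₁) / 4) ^ (1 / 3 : ℝ))⁻¹) *
          ((m : ℝ) / (2 * c₁) / 4) ^ (1 / 3 : ℝ) = (G m + 1) ^ 2 * C' := by
        field_simp
      rwa [e] at this
    rw [← div_le_iff₀ hC'] at h3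
    refine le_trans (le_of_eq ?_) h3
    ring
  have h4 : κ * y ^ 2 = c₂ / C' * ((m : ℝ) / (2 * c₁)) ^ 2 *
      ((m : ℝ) / (2 * c₁) / 4) ^ (1 / 3 : ℝ) := by
    have e1 : ((m : ℝ) / (2 * c₁) / 4) ^ (1 / 3 : ℝ) =
        (m : ℝ) ^ (1 / 3 : ℝ) * (1 / (2 * c₁) / 4) ^ (1 / 3 : ℝ) := by
      rw [← Real.mul_rpow hmpos.le (by positivity)]
      congr 1; ring
    have e2 : y ^ 2 = (m : ℝ) ^ 2 * (m : ℝ) ^ (1 / 3 : ℝ) := by
      rw [hy, ← Real.rpow_natCast, ← Real.rpow_mul hmpos.le, ← Real.rpow_natCast,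
        ← Real.rpow_add hmpos]
      norm_num
    rw [e1, e2, hκ]; ring
  have h5 : (Real.sqrt κ * y) ^ 2 ≤ (G m + 1) ^ 2 := by
    rw [mul_pow, Real.sq_sqrt hκ0.le, h4]; exact h2
  have h6 : Real.sqrt κ * y ≤ G m + 1 :=
    le_of_sq_le_sq h5 (by linarith [hG0 m])
  have h7 : 1 ≤ Real.sqrt κ / 2 * y := by
    rw [div_le_iff₀ hs] at hm3
    have : Real.sqrt κ * m ≤ Real.sqrt κ * y := mul_le_mul_of_nonneg_left hym hs.le
    linarith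
  linarith

theorem p_FIN (hlow : Sx_low) (hedn : Sx_edn) (hpol : Sp_POL) : Sp_FIN := by
  intro P
  obtain ⟨C⟩ := Bil.exists_corner P
  obtain ⟨S, r₀, i₀, c₁, hc₁, hG⟩ := hpol P C
  obtain ⟨c₂, hc₂, n₀, hL⟩ := hlow S r₀ i₀
  obtain ⟨C₀, hE⟩ := hedn S
  obtain ⟨cc, nn, hD⟩ := C.data
  have key : ∃ c : ℝ, 0 < c ∧ ∃ m₀ : ℕ, ∀ m : ℕ, m₀ ≤ m →
      c * (m : ℝ) ^ (7 / 6 : ℝ) ≤ ((C.GD m).ncard : ℝ) := by
    refine fin_sq (fun m => ((C.GD m).ncard : ℝ)) (fun m => Nat.cast_nonneg _) c₁ c₂ (max C₀ 1)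
      hc₁ hc₂ (lt_max_of_lt_right one_pos) (⌈2 * c₁ * max (max n₀ 4) 1⌉₊) (fun m hm => ?_)
    have hm' : 2 * c₁ * max (max n₀ 4) 1 ≤ m := (Nat.le_ceil _).trans (by exact_mod_cast hm)
    set x : ℝ := (m : ℝ) / (2 * c₁) with hx
    have hx1 : max (max n₀ 4) 1 ≤ x := by
      rw [hx, le_div_iff₀ (by positivity)]; linarith
    have hxn : n₀ ≤ x := (le_max_left _ _).trans ((le_max_left _ _).trans hx1)
    have hx4 : 4 ≤ x := (le_max_right _ _).trans ((le_max_left _ _).trans hx1)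
    have hx0 : 0 < x := by linarith
    have h1 := hL x hxn
    have h2 := hE (x / 4) (by linarith)
    have hp : 0 < (x / 4) ^ (-(1 / 3) : ℝ) := Real.rpow_pos_of_pos (by positivity) _
    have h3 : Phi S (x / 4) ≤ max C₀ 1 * (x / 4) ^ (-(1 / 3) : ℝ) :=
      h2.trans (mul_le_mul_of_nonneg_right (le_max_left _ _) hp.le)
    have h4 : (GG S r₀ i₀ (2 * x)).ncard ≤ (C.GD m).ncard := by
      apply hG (2 * x) (by linarith) m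
      rw [hx]
      apply le_of_eq
      field_simp
    have h5 : ((GG S r₀ i₀ (2 * x)).ncard : ℝ) ≤ ((C.GD m).ncard : ℝ) := by exact_mod_cast h4
    have h6 : (0 : ℝ) ≤ max C₀ 1 * (x / 4) ^ (-(1 / 3) : ℝ) :=
      mul_nonneg (le_trans zero_le_one (le_max_right _ _)) hp.le
    calc c₂ * x ^ 2 ≤ (((GG S r₀ i₀ (2 * x)).ncard : ℝ) + 1) ^ 2 * Phi S (x / 4) := h1
      _ ≤ (((GG S r₀ i₀ (2 * x)).ncard : ℝ) + 1) ^ 2 * (max C₀ 1 * (x / 4) ^ (-(1 / 3) : ℝ)) :=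
          mul_le_mul_of_nonneg_left h3 (by positivity)
      _ ≤ (((C.GD m).ncard : ℝ) + 1) ^ 2 * (max C₀ 1 * (x / 4) ^ (-(1 / 3) : ℝ)) := by
          apply mul_le_mul_of_nonneg_right _ h6
          apply pow_le_pow_left₀ (by positivity)
          linarith
  obtain ⟨c, hc, m₀, hm₀⟩ := key
  refine fin_num (fun m => ((C.GD m).ncard : ℝ)) (fun n => (P.complexity n : ℝ)) hD.hF1 hD.F_mono
    (fun n => ?_) c hc m₀ hm₀
  have h1 : (∑ m ∈ Finset.range n, ((C.gset m).card : ℝ)) = ((C.GD n).ncard : ℝ) := by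
    have h2 := C.sum_gset n (fun _ => 1)
    simp only [Finset.sum_const, nsmul_eq_mul, mul_one] at h2
    rw [← h2, Set.ncard_eq_toFinset_card _ (C.GD_finite n)]
  have h3 := hD.F_double n
  rw [h1] at h3
  exact h3

end Pool.Agent.FAN
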