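import Pool.Agent.FAN.StP

/-!
# FAN, block 6: `Sp_GDV` (helper39)

Elements of `GG` give generalized diagonals from the corner.
-/

set_option autoImplicit false

open scoped ComplexConjugate
open MeasureTheory Set Metric
open Pool.Agent.Billiard Pool.Agent.Lib_helper45

namespace Pool.Agent.FAN

private theorem gdv_osg (p q : ℂ) (l : ℝ) (h0 : 0 < l) (h1 : l < 1) :
    (1 - l) * p + l * q ∈ openSegment ℝ p q := by
  refine ⟨1 - l, l, by linarith, h0, by ring, ?_⟩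
  rw [Complex.real_smul, Complex.real_smul]
  push_cast
  ring

/-- Elements of `GG` give generalized diagonals from the corner. -/
theorem p_GDV (hF : Sp_FLD) (hA : Sp_APX) (hV : Sp_VIS) (hD : Sp_DEV) (hE : Sa_EXU) (hT : Sa_TIM) :
    Sp_GDV := by
  intro P C D t i₀ L js hl hjs
  obtain ⟨⟨js', rfl⟩, hrun, -⟩ := hjs
  obtain ⟨f1, f2, f3, f4, f5⟩ := hF P D
  obtain ⟨-, a2⟩ := hA D.dbl
  obtain ⟨-, e2, -⟩ := hE D.dbl
  obtain ⟨t1, -, -, -, -, -, -, t8, -⟩ := hT D.dbl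
  set q₀ : Pl D.dbl := Pl.home D.dbl (t, false) with hq₀
  have hfo : ∀ z, D.fo q₀ z = z := by
    intro z
    have h1 : q₀.r.2 = false := rfl
    have h2 : q₀.a = 1 := rfl
    have h3 : q₀.b = 0 := rfl
    unfold TD.fo
    rw [h1, h2, h3]
    simp
  have hfl : ∀ z, D.fl q₀ z = z := by
    intro z
    have h1 : q₀.r.2 = false := rfl
    have h2 : q₀.a = 1 := rfl
    unfold TD.fl
    rw [h1, h2]
    simp
  have hlb : D.lb q₀ i₀ = C.j := by
    have h1 : D.lb q₀ i₀ = D.l t (TD.ix false i₀) := rfl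
    rw [h1, ← hl]
    rfl
  have hVi : q₀.V i₀ = C.v := by
    rw [← hfo (q₀.V i₀), f1, hlb]
    rfl
  have hPi : D.dbl.P (t, false) i₀ = C.v := by
    have h1 : D.dbl.P (t, false) i₀ = P.vertex (D.l t (TD.ix false i₀)) := rfl
    have h2 : TD.ix false i₀ = i₀ := rfl
    rw [h1, h2, hl]
    rfl
  rw [hPi] at hrun
  set w : ℂ := (endP q₀ (i₀ :: js')).V (eI q₀ i₀ (i₀ :: js')) with hw
  obtain ⟨hex, hrun'⟩ := hrun
  have hex' : q₀.Ex (q₀.V i₀) (w - C.v) i₀ := by rw [hVi]; exact hex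
  obtain ⟨hct0, hint⟩ := a2 q₀ (w - C.v) i₀ hex'
  rw [hVi] at hct0 hint
  have hUin : ∀ τ ∈ Ioo (0 : ℝ) (q₀.ct C.v (w - C.v) i₀), C.v + τ * (w - C.v) ∈ Bil.U P := by
    intro τ hτ
    have := f3 q₀ _ (hint τ hτ)
    rwa [hfo] at this
  have hen : (q₀.nx i₀).En C.v (w - C.v) (q₀.en i₀) := (e2 q₀ C.v (w - C.v) i₀).1 hex
  have hct : (q₀.nx i₀).ct C.v (w - C.v) (q₀.en i₀) = q₀.ct C.v (w - C.v) i₀ := t1 _ _ _ _
  have hend : (endP (q₀.nx i₀) js').V (eI (q₀.nx i₀) (q₀.en i₀) js') = C.v + (w - C.v) := by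
    rw [add_sub_cancel]
    rfl
  obtain ⟨W, hW⟩ := hV P D js' (q₀.nx i₀) C.v (w - C.v) (q₀.en i₀) hen hrun' hend
  rw [hct] at hW
  obtain ⟨l, hl0, hl1, hle⟩ := t8 q₀ C.v (w - C.v) i₀ (Or.inl hex)
  have hseg : C.v + q₀.ct C.v (w - C.v) i₀ * (w - C.v) ∈
      openSegment ℝ (q₀.V (i₀ + 1)) (q₀.V (i₀ + 2)) := by
    rw [hle]
    exact gdv_osg _ _ l hl0 hl1
  have hcone : C.Cone (w - C.v) := by
    obtain ⟨τ₁, hτ₁, hτ₁'⟩ := C.exists_start (w - C.v)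
    set τ : ℝ := min τ₁ (q₀.ct C.v (w - C.v) i₀ / 2) with hτdef
    have hτ0 : 0 < τ := lt_min hτ₁ (by linarith)
    have hτ1 : τ ≤ τ₁ := min_le_left _ _
    have hτ2 : τ < q₀.ct C.v (w - C.v) i₀ :=
      lt_of_le_of_lt (min_le_right _ _) (by linarith)
    have hb : C.v + τ * (w - C.v) ∈ ball (P.vertex C.j) C.rad := by
      rw [mem_ball, dist_eq_norm]
      unfold Bil.Corner.v
      rw [add_sub_cancel_left, norm_mul, Complex.norm_real, Real.norm_eq_abs, abs_of_pos hτ0]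
      exact lt_of_le_of_lt (mul_le_mul_of_nonneg_right hτ1 (norm_nonneg _)) hτ₁'
    have h := (C.hU _ hb).1 (hUin τ ⟨hτ0, hτ2⟩)
    have h2 : C.v + τ * (w - C.v) - P.vertex C.j = (τ : ℂ) * (w - C.v) := by
      unfold Bil.Corner.v; ring
    rw [h2, Bil.cross_mul_right, Bil.cross_mul_left] at h
    exact ⟨(mul_pos_iff_of_pos_left hτ0).1 h.1, (mul_pos_iff_of_pos_left hτ0).1 h.2⟩
  have hvis : ∃ (W : List (ZMod P.k)) (j : ZMod P.k), Bil.Vis P C.v (w - C.v) 0 W j 1 := by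
    by_cases hs : D.sde q₀ i₀
    · obtain ⟨a, g1, g2, g3⟩ := f5 q₀ i₀ hs
      refine ⟨a :: W, D.lb (endP (q₀.nx i₀) js') (eI (q₀.nx i₀) (q₀.en i₀) js'), ?_⟩
      refine ⟨q₀.ct C.v (w - C.v) i₀, hct0, hUin, ?_, ?_⟩
      · have := g3 _ hseg
        rwa [hfo] at this
      · rw [g1, g2, hfo, hfl] at hW
        exact hW
    · obtain ⟨g1, g2, g3⟩ := f4 q₀ i₀ hs
      refine ⟨W, D.lb (endP (q₀.nx i₀) js') (eI (q₀.nx i₀) (q₀.en i₀) js'), ?_⟩
      rw [g1, g2, hfo, hfl] at hW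
      refine Bil.Vis.start_earlier hct0.le (fun τ hτ => ?_) hW
      rcases lt_or_eq_of_le hτ.2 with h | h
      · exact hUin τ ⟨hτ.1, h⟩
      · rw [h]
        have := g3 _ hseg
        rwa [hfo] at this
  obtain ⟨W', j, hvis⟩ := hvis
  refine ⟨W', j, hvis, hcone, ?_⟩
  rw [hD P W' _ _ _ _ _ hvis]
  push_cast
  ring

end Pool.Agent.FAN
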