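import Pool.Agent.FAN.StP

/-!
# FAN, block 6: module INJ (helper28), the word is determined by the position of the apex
-/

set_option autoImplicit false

open scoped ComplexConjugate
open MeasureTheory Set

namespace Pool.Agent.FAN

private theorem inj_en (hE : Sa_EXU) {S : TriSys} (x v : ℂ) : ∀ (js : List (ZMod 3)) (q : Pl S)
    (i : ZMod 3), js ≠ [] → Run q x v js → (endP q js).En x v (eI q i js) := by
  intro js
  induction js with
  | nil => intro q i h; exact absurd rfl h
  | cons j js ih =>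
    intro q i _ hr
    obtain ⟨h1, h2⟩ := hr
    by_cases hjs : js = []
    · subst hjs
      exact ((hE S).2.1 q x v j).1 h1
    · exact ih (q.nx j) (q.en j) hjs h2

private theorem inj_pre (hE : Sa_EXU) {S : TriSys} {q : Pl S} {A v : ℂ} {i₀ : ZMod 3}
    {js js' : List (ZMod 3)} (hne : js ≠ []) (h1 : Run q A v js) (h2 : Run q A v js')
    (hv : (endP q js).V (eI q i₀ js) - A = v) (hp : js <+: js') : js = js' := by
  obtain ⟨t, rfl⟩ := hp
  cases t with
  | nil => simp
  | cons j rest =>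
    exfalso
    have h3 := (((hE S).2.2.2.2.2.2.2 js (j :: rest) q A v i₀).1.1 h2).2
    have h4 := inj_en hE A v js q i₀ hne h1
    have h5 := (hE S).2.2.2.2.1 _ _ _ _ _ h4 h3.1
    have h6 : cx v ((endP q js).V (eI q i₀ js) - A) = 0 := by
      rw [hv]
      unfold cx
      ring
    rcases h5 with h7 | h7
    · rw [h6] at h7
      exact lt_irrefl _ h7.2
    · rw [h6] at h7
      exact lt_irrefl _ h7.2

theorem p_INJ (hE : Sa_EXU) : Sp_INJ := by
  intro S r₀ i₀ L js js' h1 h2 he
  obtain ⟨⟨t, rfl⟩, r1, -⟩ := h1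
  obtain ⟨⟨t', rfl⟩, r2, -⟩ := h2
  rw [← he] at r2
  rcases (hE S).2.2.2.2.2.1 _ _ _ _ _ r1 r2 with hp | hp
  · exact inj_pre hE (List.cons_ne_nil _ _) r1 r2 rfl hp
  · exact (inj_pre hE (i₀ := i₀) (List.cons_ne_nil _ _) r2 r1 (by rw [← he]) hp).symm

end Pool.Agent.FAN
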