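import Pool.Agent.FAN.StP
import Pool.Agent.FAN.Base3

/-!
# The extreme point of the closure of a component is a vertex (module FANP_LEX, helper55)
-/

set_option autoImplicit false

open scoped ComplexConjugate Topology
open MeasureTheory Set Metric
open Pool.Agent.Billiard Pool.Agent.Lib_helper45

namespace Pool.Agent.FAN

/-- half discs are convex -/
private theorem plex_convex (w d : ℂ) (ρ s : ℝ) :
    Convex ℝ {z : ℂ | z ∈ ball w ρ ∧ 0 < s * cx d (z - w)} := by
  have h : {z : ℂ | z ∈ ball w ρ ∧ 0 < s * cx d (z - w)} =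
      ball w ρ ∩ {z : ℂ | 0 < s * cx d (z - w)} := rfl
  rw [h]
  refine (convex_ball w ρ).inter ?_
  intro a ha b hb α β hα hβ hαβ
  have ha' : 0 < s * cx d (a - w) := ha
  have hb' : 0 < s * cx d (b - w) := hb
  show 0 < s * cx d (α • a + β • b - w)
  have e : s * cx d (α • a + β • b - w) = α * (s * cx d (a - w)) + β * (s * cx d (b - w)) := by
    have hβ' : β = 1 - α := by linarith
    subst hβ'
    simp only [cx, Complex.sub_re, Complex.sub_im, Complex.add_re, Complex.add_im,
      Complex.real_smul, Complex.mul_re, Complex.mul_im, Complex.ofReal_re, Complex.ofReal_im]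
    ring
  rw [e]
  rcases hα.eq_or_lt with h0 | h0
  · have : β = 1 := by linarith
    rw [← h0, this]
    linarith
  · have h3 := mul_pos h0 ha'
    have h4 := mul_nonneg hβ hb'.le
    linarith

private theorem plex_seg {a b z w : ℂ} (hz : z ∈ segment ℝ a b) (hw : w ∈ segment ℝ a b) :
    cx (b - a) (z - w) = 0 := by
  rw [segment_eq_image'] at hz hw
  obtain ⟨s, -, rfl⟩ := hz
  obtain ⟨t, -, rfl⟩ := hw
  simp only [cx, Complex.sub_re, Complex.sub_im, Complex.add_re, Complex.add_im,
    Complex.real_smul, Complex.mul_re, Complex.mul_im, Complex.ofReal_re, Complex.ofReal_im]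
  ring

private theorem plex_max {C : Set ℂ} (hC : IsCompact C) (hne : C.Nonempty) :
    ∃ w ∈ C, ∀ z ∈ C, z.re ≤ w.re ∧ (z.re = w.re → z.im ≤ w.im) := by
  obtain ⟨w₀, hw₀, hmax⟩ := hC.exists_isMaxOn hne Complex.continuous_re.continuousOn
  have hT : IsCompact (C ∩ {z : ℂ | z.re = w₀.re}) :=
    hC.inter_right (isClosed_eq Complex.continuous_re continuous_const)
  obtain ⟨w, hw, hmax2⟩ := hT.exists_isMaxOn ⟨w₀, hw₀, rfl⟩ Complex.continuous_im.continuousOn
  have hwr : w.re = w₀.re := hw.2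
  refine ⟨w, hw.1, fun z hz => ⟨?_, fun hz2 => ?_⟩⟩
  · rw [hwr]; exact hmax hz
  · exact hmax2 ⟨hz, by show z.re = w₀.re; rw [hz2, hwr]⟩

theorem p_LEX (h1 : Sp_EDG) (h2 : Sp_CMP) : Sp_LEX := by
  intro P N y hy
  obtain ⟨e1, -, e3, ⟨-, e4b, e4c⟩, e5, -, e7⟩ := h1 P N
  obtain ⟨hyK, hKO, hKop, -, hKmax⟩ := h2 P N y hy
  have hKreg : closure (N.Kp y) ⊆ P.region :=
    closure_minimal (fun z hz => interior_subset (hKO hz).1) Bil.region_closed
  have hKc : IsCompact (closure (N.Kp y)) :=
    P.isCompact.of_isClosed_subset isClosed_closure hKreg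
  obtain ⟨w, hwC, hwmax⟩ := plex_max hKc ⟨y, subset_closure hyK⟩
  have hlt : ∀ z ∈ N.Kp y, z.re < w.re := by
    intro z hz
    obtain ⟨ε, hε, hb⟩ := Metric.isOpen_iff.1 hKop z hz
    have hz2 : z + ((ε / 2 : ℝ) : ℂ) ∈ N.Kp y := by
      apply hb
      rw [mem_ball, dist_eq_norm, add_sub_cancel_left, Complex.norm_real, Real.norm_eq_abs,
        abs_of_pos (by linarith)]
      linarith
    have h3 := (hwmax _ (subset_closure hz2)).1
    rw [Complex.add_re, Complex.ofReal_re] at h3
    linarith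
  have hwK : w ∉ N.Kp y := fun h => lt_irrefl _ (hlt w h)
  have hwS : w ∈ N.Sk := by
    by_contra hS
    have hwU : w ∈ Bil.U P := by
      by_contra hU
      apply hS
      apply e4b
      rw [Bil.Gam_eq]
      exact ⟨hKreg hwC, hU⟩
    obtain ⟨ε, hε, hb⟩ := Metric.isOpen_iff.1 e4c w ⟨hwU, hS⟩
    apply hwK
    apply hKmax (ball w ε) (convex_ball w ε).isPreconnected _ _ (mem_ball_self hε)
    · rw [Set.disjoint_left]
      intro z hz
      exact (hb hz).2
    · obtain ⟨z, hz, hz2⟩ := Metric.mem_closure_iff.1 hwC ε hε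
      exact ⟨z, by rw [mem_ball, dist_comm]; exact hz2, hz⟩
  have hv : ∃ m, w = P.vertex m := by
    by_contra hv
    rcases e5 w hwS with h | ⟨i, j, hij, hw⟩
    · exact hv h
    obtain ⟨ρ, hρ, hloc⟩ := e7 w
    set d := P.vertex j - P.vertex i with hd
    have hd0 : d ≠ 0 := by
      intro h0
      apply (e1 i j hij).1
      exact (P.injective (sub_eq_zero.1 h0)).symm
    have hw' : w ∈ sg P i j := openSegment_subset_segment _ _ _ hw
    have hline : ∀ z ∈ N.Sk, z ∈ ball w ρ → cx d (z - w) = 0 := by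
      rintro z ⟨i', j', hE, hz⟩ hzb
      have h3 := hloc i' j' hE ⟨z, hz, hzb⟩
      rcases e3 i j i' j' w hij hE hw h3 with ⟨rfl, rfl⟩ | ⟨rfl, rfl⟩
      · exact plex_seg hz hw'
      · rw [sg, segment_symm] at hz
        exact plex_seg hz hw'
    have hdd : 0 < ‖d‖ ^ 2 := pow_pos (norm_pos_iff.2 hd0) 2
    -- a point of the component off the line
    have hz0 : ∃ z₀ ∈ N.Kp y, z₀ ∈ ball w ρ ∧ cx d (z₀ - w) ≠ 0 := by
      obtain ⟨z, hz, hz2⟩ := Metric.mem_closure_iff.1 hwC ρ hρ
      have hzb : z ∈ ball w ρ := by rw [mem_ball, dist_comm]; exact hz2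
      by_cases h0 : cx d (z - w) = 0
      · have hcont : Filter.Tendsto (fun δ : ℝ => z + δ * (Complex.I * d)) (𝓝[>] 0) (𝓝 z) := by
          have h3 : Continuous (fun δ : ℝ => z + δ * (Complex.I * d)) := by fun_prop
          have h4 := h3.tendsto 0
          simp only [Complex.ofReal_zero, zero_mul, add_zero] at h4
          exact h4.mono_left nhdsWithin_le_nhds
        have ev1 := hcont.eventually_mem (hKop.mem_nhds hz)
        have ev2 := hcont.eventually_mem (isOpen_ball.mem_nhds hzb)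
        have ev3 : ∀ᶠ δ in 𝓝[>] (0 : ℝ), 0 < δ := self_mem_nhdsWithin
        obtain ⟨δ, hδ1, hδ2, hδ3⟩ := (ev1.and (ev2.and ev3)).exists
        refine ⟨_, hδ1, hδ2, ?_⟩
        rw [show z + δ * (Complex.I * d) - w = (z - w) + δ * (Complex.I * d) by ring,
          cx_add_right, h0, zero_add, cx_real_right, cx_I]
        positivity
      · exact ⟨z, hz, hzb, h0⟩
    obtain ⟨z₀, hz₀K, hz₀b, hz₀⟩ := hz0
    set s := cx d (z₀ - w) with hs
    have hHK : {z : ℂ | z ∈ ball w ρ ∧ 0 < s * cx d (z - w)} ⊆ N.Kp y := by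
      apply hKmax _ (plex_convex w d ρ s).isPreconnected
      · rw [Set.disjoint_left]
        rintro z ⟨hz1, hz2⟩ hz3
        rw [hline z hz3 hz1, mul_zero] at hz2
        exact lt_irrefl _ hz2
      · refine ⟨z₀, ⟨hz₀b, ?_⟩, hz₀K⟩
        rw [← hs]
        exact mul_self_pos.2 hz₀
    have hcl : ∀ c : ℝ, ‖(c : ℂ) * d‖ < ρ → w + c * d ∈ closure (N.Kp y) := by
      intro c hc
      have hcont : Filter.Tendsto (fun δ : ℝ => w + c * d + δ * (s * (Complex.I * d))) (𝓝[>] 0)
          (𝓝 (w + c * d)) := by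
        have h3 : Continuous (fun δ : ℝ => w + c * d + δ * (s * (Complex.I * d))) := by fun_prop
        have h4 := h3.tendsto 0
        simp only [Complex.ofReal_zero, zero_mul, add_zero] at h4
        exact h4.mono_left nhdsWithin_le_nhds
      have hb : w + c * d ∈ ball w ρ := by
        rw [mem_ball, dist_eq_norm, add_sub_cancel_left]
        exact hc
      have ev2 := hcont.eventually_mem (isOpen_ball.mem_nhds hb)
      have ev3 : ∀ᶠ δ in 𝓝[>] (0 : ℝ), 0 < δ := self_mem_nhdsWithin
      apply mem_closure_of_tendsto hcont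
      filter_upwards [ev2, ev3] with δ hδ2 hδ3
      apply hHK
      refine ⟨hδ2, ?_⟩
      rw [show w + c * d + δ * (s * (Complex.I * d)) - w =
        c * d + ((δ * s : ℝ) : ℂ) * (Complex.I * d) by push_cast; ring, cx_add_right,
        cx_real_right, cx_real_right, cx_self, cx_I, mul_zero, zero_add]
      have h5 : 0 < s * s := mul_self_pos.2 hz₀
      have h6 := mul_pos (mul_pos hδ3 h5) hdd
      have h7 : s * (δ * s * ‖d‖ ^ 2) = δ * (s * s) * ‖d‖ ^ 2 := by ring
      rw [h7]
      exact h6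
    have hnd : 0 < ‖d‖ := norm_pos_iff.2 hd0
    set ε := ρ / (2 * ‖d‖) with hε
    have hεp : 0 < ε := by positivity
    have hεd : ε * ‖d‖ < ρ := by
      rw [hε]
      field_simp
      linarith
    have c1 := hwmax _ (hcl ε (by
      rw [norm_mul, Complex.norm_real, Real.norm_eq_abs, abs_of_pos hεp]; exact hεd))
    have c2 := hwmax _ (hcl (-ε) (by
      rw [norm_mul, Complex.norm_real, Real.norm_eq_abs, abs_neg, abs_of_pos hεp]; exact hεd))
    simp only [Complex.add_re, Complex.add_im, Complex.mul_re, Complex.mul_im, Complex.ofReal_re,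
      Complex.ofReal_im, zero_mul, sub_zero, add_zero] at c1 c2
    have g1 : ε * d.re ≤ 0 := by linarith [c1.1]
    have g2 : 0 ≤ ε * d.re := by linarith [c2.1]
    have g3 : ε * d.re = 0 := le_antisymm g1 g2
    have g4 : d.re = 0 := by
      rcases mul_eq_zero.1 g3 with h | h
      · exact absurd h hεp.ne'
      · exact h
    have g5 := c1.2 (by rw [g4]; ring)
    have g6 := c2.2 (by rw [g4]; ring)
    have g7 : ε * d.im = 0 := by
      apply le_antisymm
      · linarith
      · linarith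
    have g8 : d.im = 0 := by
      rcases mul_eq_zero.1 g7 with h | h
      · exact absurd h hεp.ne'
      · exact h
    exact hd0 (Complex.ext g4 g8)
  obtain ⟨m, rfl⟩ := hv
  exact ⟨m, hwC, hlt, hwmax⟩

end Pool.Agent.FAN
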