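import Pool.Agent.FAN.StP
import Pool.Agent.FAN.Base

/-!
# FAN, block 6: the neighbour across a diagonal (helper64)
-/

set_option autoImplicit false

open scoped ComplexConjugate
open MeasureTheory Set Metric
open Pool.Agent.Billiard Pool.Agent.Lib_helper45

namespace Pool.Agent.FAN

theorem nbr_cx (a b : ℂ) (s : ℝ) :
    cx (b - a) ((2⁻¹ : ℝ) * (a + b) - s * (Complex.I * (b - a)) - a) = -s * ‖b - a‖ ^ 2 := by
  have e : ((2⁻¹ : ℝ) : ℂ) * (a + b) - s * (Complex.I * (b - a)) - a =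
      ((2⁻¹ : ℝ) : ℂ) * (b - a) - s * (Complex.I * (b - a)) := by
    push_cast
    ring
  rw [e, cx_sub_right, cx_real_right, cx_real_right, cx_self, cx_I]
  ring

theorem nbr_line (a b y : ℂ) (h : y ∈ segment ℝ a b) : cx (b - a) (y - a) = 0 := by
  obtain ⟨u, w, hu, hw, huw, rfl⟩ := h
  have e : u • a + w • b - a = (w : ℂ) * (b - a) := by
    have hu' : (u : ℂ) = 1 - w := by
      rw [← Complex.ofReal_one, ← Complex.ofReal_sub]
      congr 1
      linarith
    rw [Complex.real_smul, Complex.real_smul, hu']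
    ring
  rw [e, cx_real_right, cx_self, mul_zero]

theorem nbr_mid (a b : ℂ) : ((2⁻¹ : ℝ) : ℂ) * (a + b) ∈ openSegment ℝ a b := by
  refine ⟨2⁻¹, 2⁻¹, by norm_num, by norm_num, by norm_num, ?_⟩
  rw [Complex.real_smul, Complex.real_smul]
  ring

theorem p_NBR (hE : Sp_EDG) (hT : Sp_TRI) (hC : Sp_COV) (hO : Sp_OVL) : Sp_NBR := by
  intro P N t i hSd
  obtain ⟨e1, -, e3, -, -, -, e7⟩ := hE P N
  obtain ⟨-, -, -, o4, o5⟩ := hO P N
  have hpq : N.E (t.l (i + 1)) (t.l (i + 2)) := t.edg i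
  have hDg : N.Dg (t.l (i + 1)) (t.l (i + 2)) := hpq.resolve_right hSd
  have hU := (N.diag _ _ hDg).2
  have hne := (N.diag _ _ hDg).1
  generalize t.l (i + 1) = p at *
  generalize t.l (i + 2) = q at *
  have hD : P.vertex q - P.vertex p ≠ 0 := fun h0 => hne (P.injective (sub_eq_zero.1 h0)).symm
  have hDn : 0 < ‖P.vertex q - P.vertex p‖ := norm_pos_iff.2 hD
  set z : ℂ := ((2⁻¹ : ℝ) : ℂ) * (P.vertex p + P.vertex q) with hz
  have hzo : z ∈ osg P p q := nbr_mid _ _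
  have hzU : z ∈ Bil.U P := hU hzo
  have hzS : z ∈ N.Sk := ⟨p, q, hpq, openSegment_subset_segment _ _ _ hzo⟩
  obtain ⟨ρ₁, hρ₁, hb₁⟩ := Metric.isOpen_iff.1 (Bil.isOpen_U (P := P)) z hzU
  obtain ⟨ρ₂, hρ₂, hb₂⟩ := e7 z
  -- the points on the right of the edge, close to the midpoint
  let y : ℝ → ℂ := fun s => z - (s : ℂ) * (Complex.I * (P.vertex q - P.vertex p))
  have hydist : ∀ s : ℝ, 0 < s → dist (y s) z = s * ‖P.vertex q - P.vertex p‖ := by
    intro s hs
    rw [dist_eq_norm]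
    simp only [y]
    rw [sub_sub_cancel_left, norm_neg, norm_mul, norm_mul, Complex.norm_I, one_mul,
      Complex.norm_real, Real.norm_of_nonneg hs.le]
  have hycx : ∀ s : ℝ, 0 < s → cx (P.vertex q - P.vertex p) (y s - P.vertex p) < 0 := by
    intro s hs
    have := nbr_cx (P.vertex p) (P.vertex q) s
    rw [← hz] at this
    simp only [y]
    rw [this]
    have : 0 < s * ‖P.vertex q - P.vertex p‖ ^ 2 := by positivity
    linarith
  have hyOm : ∀ s : ℝ, 0 < s → s * ‖P.vertex q - P.vertex p‖ < min ρ₁ ρ₂ → y s ∈ N.Om := by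
    intro s hs hsρ
    have hd := hydist s hs
    refine ⟨hb₁ ?_, ?_⟩
    · rw [mem_ball, hd]
      exact lt_of_lt_of_le hsρ (min_le_left _ _)
    · rintro ⟨k, l, hkl, hy⟩
      have hzkl : z ∈ sg P k l := by
        refine hb₂ k l hkl ⟨y s, hy, ?_⟩
        rw [mem_ball, hd]
        exact lt_of_lt_of_le hsρ (min_le_right _ _)
      have hc := hycx s hs
      rcases e3 p q k l z hpq hkl hzo hzkl with ⟨rfl, rfl⟩ | ⟨rfl, rfl⟩
      · rw [nbr_line _ _ _ hy] at hc
        exact lt_irrefl _ hc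
      · unfold sg at hy
        rw [segment_symm] at hy
        rw [nbr_line _ _ _ hy] at hc
        exact lt_irrefl _ hc
  -- the sequence
  set ε : ℝ := min ρ₁ ρ₂ / (2 * ‖P.vertex q - P.vertex p‖) with hε
  have hm : 0 < min ρ₁ ρ₂ := lt_min hρ₁ hρ₂
  have hεpos : 0 < ε := by positivity
  have hspos : ∀ n : ℕ, 0 < ε / ((n : ℝ) + 1) := fun n => by positivity
  have hyn : ∀ n : ℕ, y (ε / ((n : ℝ) + 1)) ∈ N.Om := by
    intro n
    refine hyOm _ (hspos n) ?_
    have h1 : ε / ((n : ℝ) + 1) ≤ ε := by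
      apply div_le_self hεpos.le
      have : (0 : ℝ) ≤ n := Nat.cast_nonneg n
      linarith
    calc ε / ((n : ℝ) + 1) * ‖P.vertex q - P.vertex p‖ ≤ ε * ‖P.vertex q - P.vertex p‖ :=
          mul_le_mul_of_nonneg_right h1 hDn.le
      _ = min ρ₁ ρ₂ / 2 := by
          rw [hε]
          field_simp
      _ < min ρ₁ ρ₂ := by linarith
  choose f hf using fun n : ℕ => hC P N (y (ε / ((n : ℝ) + 1))) (hyn n)
  have := o5
  obtain ⟨t', ht'⟩ := Finite.exists_infinite_fiber f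
  have hinf : (f ⁻¹' {t'}).Infinite := Set.infinite_coe_iff.1 ht'
  have hzc : z ∈ closure (tri (fun i => P.vertex (t'.l i))) := by
    rw [Metric.mem_closure_iff]
    intro δ hδ
    obtain ⟨n₀, hn₀⟩ := exists_nat_gt (ε * ‖P.vertex q - P.vertex p‖ / δ)
    obtain ⟨n, hn, hlt⟩ := hinf.exists_gt n₀
    have hfn : f n = t' := hn
    refine ⟨y (ε / ((n : ℝ) + 1)), ?_, ?_⟩
    · rw [← hfn]; exact hf n
    · rw [dist_comm, hydist _ (hspos n)]
      have h2 : (n₀ : ℝ) < n := by exact_mod_cast hlt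
      have h3 : ε * ‖P.vertex q - P.vertex p‖ / δ < (n : ℝ) + 1 := by linarith
      have hn1 : (0 : ℝ) < (n : ℝ) + 1 := by positivity
      rw [div_lt_iff₀ hδ] at h3
      rw [div_mul_eq_mul_div, div_lt_iff₀ hn1]
      linarith
  have hznt : z ∉ tri (fun i => P.vertex (t'.l i)) := fun h => (t'.int h).2 hzS
  obtain ⟨-, -, -, c4, -⟩ := hT (fun i => P.vertex (t'.l i)) t'.pos
  obtain ⟨i', hi'⟩ := c4 z hzc hznt
  obtain ⟨n, hn⟩ := hinf.nonempty
  have hfn : f n = t' := hn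
  have hyt : y (ε / ((n : ℝ) + 1)) ∈ tri (fun i => P.vertex (t'.l i)) := by
    rw [← hfn]; exact hf n
  have hl := hyt i'
  simp only at hl
  have hlab : t'.l (i' + 1) = q ∧ t'.l (i' + 2) = p := by
    rcases e3 p q (t'.l (i' + 1)) (t'.l (i' + 2)) z hpq (t'.edg i') hzo hi' with ⟨h1, h2⟩ | ⟨h1, h2⟩
    · exfalso
      rw [h1, h2] at hl
      exact lt_asymm hl (hycx _ (hspos n))
    · exact ⟨h1, h2⟩
  obtain ⟨t'', ht'', -⟩ := o4 t' (i' - i)
  refine ⟨t'', ?_, ?_⟩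
  · rw [ht'', show i + 1 + (i' - i) = i' + 1 by ring]
    exact hlab.1
  · rw [ht'', show i + 2 + (i' - i) = i' + 2 by ring]
    exact hlab.2

end Pool.Agent.FAN
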