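import Pool.Agent.FAN.StP

/-!
# FAN, block 6, module NET: a maximal set of pairwise non crossing diagonals exists (helper5)
-/

set_option autoImplicit false

open scoped ComplexConjugate
open MeasureTheory Set Metric
open Pool.Agent.Billiard Pool.Agent.Lib_helper45

namespace Pool.Agent.FAN

private theorem pnet_symm (P : Polygon) (i j : ZMod P.k) : osg P i j = osg P j i :=
  openSegment_symm ℝ (P.vertex i) (P.vertex j)

/-- the conditions on a set of ordered pairs -/
private def pnetGood (P : Polygon) (F : Set (ZMod P.k × ZMod P.k)) : Prop :=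
  (∀ i j, (i, j) ∈ F → (j, i) ∈ F) ∧
  (∀ i j, (i, j) ∈ F → i ≠ j ∧ osg P i j ⊆ Bil.U P) ∧
  (∀ i j k l, (i, j) ∈ F → (k, l) ∈ F → (osg P i j ∩ osg P k l).Nonempty →
    (k = i ∧ l = j) ∨ (k = j ∧ l = i))

/-- NET. -/
theorem p_NET : Sp_NET := by
  intro P
  have hfin : {F : Set (ZMod P.k × ZMod P.k) | pnetGood P F}.Finite := Set.toFinite _
  have hne : {F : Set (ZMod P.k × ZMod P.k) | pnetGood P F}.Nonempty := by
    refine ⟨∅, ?_, ?_, ?_⟩
    · intro i j h
      exact absurd h (Set.notMem_empty _)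
    · intro i j h
      exact absurd h (Set.notMem_empty _)
    · intro i j k l h
      exact absurd h (Set.notMem_empty _)
  obtain ⟨F, hF⟩ := hfin.exists_maximal hne
  have hG : pnetGood P F := hF.prop
  obtain ⟨g1, g2, g3⟩ := hG
  refine ⟨⟨fun i j => (i, j) ∈ F, g1, g2, g3, ?_⟩⟩
  intro i j hij hU hd
  have hd' : ∀ k l, (k, l) ∈ F → ¬ (osg P i j ∩ osg P k l).Nonempty := by
    intro k l h hn
    exact (Set.not_disjoint_iff_nonempty_inter.2 hn) (hd k l h)
  let F' : Set (ZMod P.k × ZMod P.k) := F ∪ {(i, j), (j, i)}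
  have hmem : ∀ k l, (k, l) ∈ F' → (k, l) ∈ F ∨ (k = i ∧ l = j) ∨ (k = j ∧ l = i) := by
    intro k l h
    rcases h with h | h
    · exact Or.inl h
    · rcases h with h | h
      · exact Or.inr (Or.inl (Prod.mk.inj h))
      · exact Or.inr (Or.inr (Prod.mk.inj h))
  have hG' : pnetGood P F' := by
    refine ⟨?_, ?_, ?_⟩
    · intro k l h
      rcases hmem k l h with h | ⟨rfl, rfl⟩ | ⟨rfl, rfl⟩
      · exact Or.inl (g1 k l h)
      · exact Or.inr (Or.inr rfl)
      · exact Or.inr (Or.inl rfl)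
    · intro k l h
      rcases hmem k l h with h | ⟨rfl, rfl⟩ | ⟨rfl, rfl⟩
      · exact g2 k l h
      · exact ⟨hij, hU⟩
      · exact ⟨hij.symm, by rw [pnet_symm]; exact hU⟩
    · intro k l k' l' h h' hn
      rcases hmem k l h with h1 | ⟨rfl, rfl⟩ | ⟨rfl, rfl⟩
      · rcases hmem k' l' h' with h2 | ⟨rfl, rfl⟩ | ⟨rfl, rfl⟩
        · exact g3 k l k' l' h1 h2 hn
        · rw [Set.inter_comm] at hn
          exact absurd hn (hd' k l h1)
        · rw [Set.inter_comm, pnet_symm P k' l'] at hn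
          exact absurd hn (hd' k l h1)
      · rcases hmem k' l' h' with h2 | ⟨rfl, rfl⟩ | ⟨rfl, rfl⟩
        · exact absurd hn (hd' k' l' h2)
        · exact Or.inl ⟨rfl, rfl⟩
        · exact Or.inr ⟨rfl, rfl⟩
      · rcases hmem k' l' h' with h2 | ⟨rfl, rfl⟩ | ⟨rfl, rfl⟩
        · rw [pnet_symm P k l] at hn
          exact absurd hn (hd' k' l' h2)
        · exact Or.inr ⟨rfl, rfl⟩
        · exact Or.inl ⟨rfl, rfl⟩
  have hsub : F' ⊆ F := hF.2 hG' Set.subset_union_left
  exact hsub (Or.inr (Or.inl rfl))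

end Pool.Agent.FAN
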