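import Pool.Agent.FAN.StP

/-!
# FAN, block 6, NVX (helper2): a corner piece of a free sector without vertices does not meet the edges
-/

set_option autoImplicit false

open scoped ComplexConjugate
open MeasureTheory Set Metric
open Pool.Agent.Billiard Pool.Agent.Lib_helper45

namespace Pool.Agent.FAN

private noncomputable def nvA (w a b z : ℂ) : ℝ := cx (z - w) b / cx a b

private noncomputable def nvB (w a b z : ℂ) : ℝ := cx a (z - w) / cx a b

private lemma nvx_coord {a b : ℂ} (h : 0 < cx a b) (w z : ℂ) :
    z = w + (nvA w a b z : ℝ) * a + (nvB w a b z : ℝ) * b := by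
  have h' : cx a b ≠ 0 := h.ne'
  unfold nvA nvB
  apply Complex.ext
  · simp only [Complex.add_re, Complex.mul_re, Complex.ofReal_re, Complex.ofReal_im, zero_mul,
      sub_zero]
    field_simp
    simp only [cx, Complex.sub_re, Complex.sub_im]
    ring
  · simp only [Complex.add_im, Complex.mul_im, Complex.ofReal_re, Complex.ofReal_im, zero_mul,
      add_zero]
    field_simp
    simp only [cx, Complex.sub_re, Complex.sub_im]
    ring

private lemma nvx_A {a b : ℂ} (h : 0 < cx a b) (w : ℂ) (α β : ℝ) :
    nvA w a b (w + α * a + β * b) = α := by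
  have h' : cx a b ≠ 0 := h.ne'
  unfold nvA
  rw [div_eq_iff h']
  simp only [cx, Complex.sub_re, Complex.sub_im, Complex.add_re, Complex.add_im, Complex.mul_re,
    Complex.mul_im, Complex.ofReal_re, Complex.ofReal_im]
  ring

private lemma nvx_B {a b : ℂ} (h : 0 < cx a b) (w : ℂ) (α β : ℝ) :
    nvB w a b (w + α * a + β * b) = β := by
  have h' : cx a b ≠ 0 := h.ne'
  unfold nvB
  rw [div_eq_iff h']
  simp only [cx, Complex.sub_re, Complex.sub_im, Complex.add_re, Complex.add_im, Complex.mul_re,
    Complex.mul_im, Complex.ofReal_re, Complex.ofReal_im]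
  ring

private lemma nvx_affA (w a b x y : ℂ) (s : ℝ) :
    nvA w a b (x + s * (y - x)) = nvA w a b x + s * (nvA w a b y - nvA w a b x) := by
  unfold nvA
  rw [← sub_div, ← mul_div_assoc, ← add_div]
  congr 1
  simp only [cx, Complex.sub_re, Complex.sub_im, Complex.add_re, Complex.add_im, Complex.mul_re,
    Complex.mul_im, Complex.ofReal_re, Complex.ofReal_im]
  ring

private lemma nvx_affB (w a b x y : ℂ) (s : ℝ) :
    nvB w a b (x + s * (y - x)) = nvB w a b x + s * (nvB w a b y - nvB w a b x) := by
  unfold nvB
  rw [← sub_div, ← mul_div_assoc, ← add_div]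
  congr 1
  simp only [cx, Complex.sub_re, Complex.sub_im, Complex.add_re, Complex.add_im, Complex.mul_re,
    Complex.mul_im, Complex.ofReal_re, Complex.ofReal_im]
  ring

private lemma nvx_os {x y z : ℂ} (h : z ∈ openSegment ℝ x y) :
    ∃ t : ℝ, 0 < t ∧ t < 1 ∧ z = x + t * (y - x) := by
  rw [openSegment_eq_image'] at h
  obtain ⟨t, ht, rfl⟩ := h
  exact ⟨t, ht.1, ht.2, by simp⟩

private lemma nvx_so {x y : ℂ} {t : ℝ} (h0 : 0 < t) (h1 : t < 1) :
    x + t * (y - x) ∈ openSegment ℝ x y := by
  rw [openSegment_eq_image']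
  exact ⟨t, ⟨h0, h1⟩, by simp⟩

/-- the main step: one end point is on the small side -/
private lemma nvx_step (hEDG : Sp_EDG) (P : Polygon) (N : Net P) (m a b : ZMod P.k) (c : ℝ)
    (hma : N.E m a) (hmb : N.E m b)
    (hpos : 0 < cx (P.vertex a - P.vertex m) (P.vertex b - P.vertex m)) (hc1 : c ≤ 1)
    (hV : ∀ n, n ≠ m → ∀ α β : ℝ, 0 ≤ α → 0 ≤ β → α + β < c →
      P.vertex n ≠ P.vertex m + α * (P.vertex a - P.vertex m) + β * (P.vertex b - P.vertex m))
    (i j : ZMod P.k) (hij : N.E i j) (hi : i ≠ m) (hj : j ≠ m) (z : ℂ) (hz : z ∈ osg P i j)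
    (hA : 0 < nvA (P.vertex m) (P.vertex a - P.vertex m) (P.vertex b - P.vertex m) z)
    (hB : 0 < nvB (P.vertex m) (P.vertex a - P.vertex m) (P.vertex b - P.vertex m) z)
    (hz1 : nvA (P.vertex m) (P.vertex a - P.vertex m) (P.vertex b - P.vertex m) z +
      nvB (P.vertex m) (P.vertex a - P.vertex m) (P.vertex b - P.vertex m) z < c)
    (hx1 : nvA (P.vertex m) (P.vertex a - P.vertex m) (P.vertex b - P.vertex m) (P.vertex i) +
      nvB (P.vertex m) (P.vertex a - P.vertex m) (P.vertex b - P.vertex m) (P.vertex i) < c) :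
    False := by
  obtain ⟨-, e2, e3, -, -, -, -⟩ := hEDG P N
  set w := P.vertex m with hw
  set Da := P.vertex a - w with hDa
  set Db := P.vertex b - w with hDb
  set x := P.vertex i with hx
  have hneg : min (nvA w Da Db x) (nvB w Da Db x) < 0 := by
    by_contra hcon
    rw [not_lt, le_min_iff] at hcon
    exact hV i hi _ _ hcon.1 hcon.2 hx1 (nvx_coord hpos w x)
  -- intermediate value theorem
  have hcont : ContinuousOn (fun s : ℝ => min (nvA w Da Db z + s * (nvA w Da Db x - nvA w Da Db z))
      (nvB w Da Db z + s * (nvB w Da Db x - nvB w Da Db z))) (Icc 0 1) := by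
    apply Continuous.continuousOn
    fun_prop
  obtain ⟨s, hs, hs0⟩ : ∃ s ∈ Icc (0 : ℝ) 1,
      min (nvA w Da Db z + s * (nvA w Da Db x - nvA w Da Db z))
      (nvB w Da Db z + s * (nvB w Da Db x - nvB w Da Db z)) = 0 := by
    have h1 := intermediate_value_Icc' (zero_le_one) hcont
    have h2 : (0 : ℝ) ∈ Icc (min (nvA w Da Db z + 1 * (nvA w Da Db x - nvA w Da Db z))
      (nvB w Da Db z + 1 * (nvB w Da Db x - nvB w Da Db z)))
      (min (nvA w Da Db z + 0 * (nvA w Da Db x - nvA w Da Db z))
      (nvB w Da Db z + 0 * (nvB w Da Db x - nvB w Da Db z))) := by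
      constructor
      · rw [one_mul, one_mul, add_sub_cancel, add_sub_cancel]
        exact hneg.le
      · rw [zero_mul, zero_mul, add_zero, add_zero]
        exact (lt_min hA hB).le
    exact h1 h2
  set y' : ℂ := z + s * (x - z) with hy'
  have hA' : nvA w Da Db y' = nvA w Da Db z + s * (nvA w Da Db x - nvA w Da Db z) :=
    nvx_affA w Da Db z x s
  have hB' : nvB w Da Db y' = nvB w Da Db z + s * (nvB w Da Db x - nvB w Da Db z) :=
    nvx_affB w Da Db z x s
  rw [← hA', ← hB'] at hs0
  have hA0 : 0 ≤ nvA w Da Db y' := by rw [← hs0]; exact min_le_left _ _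
  have hB0 : 0 ≤ nvB w Da Db y' := by rw [← hs0]; exact min_le_right _ _
  have hsum : nvA w Da Db y' + nvB w Da Db y' < c := by
    rw [hA', hB']
    rcases eq_or_lt_of_le hs.1 with h0 | h0
    · rw [← h0]; linarith
    · nlinarith [hs.2, mul_pos h0 (sub_pos.2 hx1), mul_nonneg (sub_nonneg.2 hs.2) (sub_pos.2 hz1).le]
  have hyseg : y' ∈ sg P i j := by
    have h1 : z ∈ segment ℝ (P.vertex i) (P.vertex j) := openSegment_subset_segment _ _ _ hz
    have h2 : x ∈ segment ℝ (P.vertex i) (P.vertex j) := left_mem_segment _ _ _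
    have h3 := (convex_segment (𝕜 := ℝ) (P.vertex i) (P.vertex j)).segment_subset h1 h2
    apply h3
    rw [segment_eq_image']
    exact ⟨s, hs, by simp [hy']⟩
  have hcoord := nvx_coord hpos w y'
  rcases eq_or_lt_of_le hA0 with hA1 | hA1
  · rcases eq_or_lt_of_le hB0 with hB1 | hB1
    · -- the vertex `m`
      rw [← hA1, ← hB1] at hcoord
      have hyw : y' = P.vertex m := by
        rw [hcoord]
        simp [hw]
      rw [hyw] at hyseg
      have hm : P.vertex m ∈ osg P i j := by
        unfold osg
        unfold sg at hyseg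
        rw [← insert_endpoints_openSegment] at hyseg
        rcases hyseg with h | h | h
        · exact absurd (P.injective h).symm hi
        · exact absurd (P.injective h).symm hj
        · exact h
      exact e2 i j m hij hm
    · have hmem : y' ∈ osg P m b := by
        rw [← hA1] at hcoord
        rw [hcoord]
        have : w + ((0 : ℝ) : ℂ) * Da + (nvB w Da Db y' : ℝ) * Db =
          P.vertex m + (nvB w Da Db y' : ℝ) * (P.vertex b - P.vertex m) := by
          simp [hw, hDb]
        rw [this]
        exact nvx_so hB1 (by linarith)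
      rcases e3 m b i j y' hmb hij hmem hyseg with ⟨h, _⟩ | ⟨_, h⟩
      · exact hi h
      · exact hj h
  · have hB1 : nvB w Da Db y' = 0 := by
      rcases eq_or_lt_of_le hB0 with hB1 | hB1
      · exact hB1.symm
      · exfalso
        have := lt_min hA1 hB1
        rw [hs0] at this
        exact lt_irrefl _ this
    have hmem : y' ∈ osg P m a := by
      rw [hB1] at hcoord
      rw [hcoord]
      have : w + (nvA w Da Db y' : ℝ) * Da + ((0 : ℝ) : ℂ) * Db =
        P.vertex m + (nvA w Da Db y' : ℝ) * (P.vertex a - P.vertex m) := by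
        simp [hw, hDa]
      rw [this]
      exact nvx_so hA1 (by linarith)
    rcases e3 m a i j y' hma hij hmem hyseg with ⟨h, _⟩ | ⟨_, h⟩
    · exact hi h
    · exact hj h

theorem p_NVX (hEDG : Sp_EDG) : Sp_NVX := by
  intro P N m a b c hma hmb hpos hsec hc0 hc1 hV α β hα hβ hαβ hSk
  obtain ⟨e1, -, -, -, e5, -, -⟩ := hEDG P N
  set z : ℂ := P.vertex m + α * (P.vertex a - P.vertex m) + β * (P.vertex b - P.vertex m) with hz
  have hA : nvA (P.vertex m) (P.vertex a - P.vertex m) (P.vertex b - P.vertex m) z = α :=
    nvx_A hpos _ α β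
  have hB : nvB (P.vertex m) (P.vertex a - P.vertex m) (P.vertex b - P.vertex m) z = β :=
    nvx_B hpos _ α β
  -- an edge at `m` does not contain `z`
  have hedge : ∀ j, N.E m j → z ∉ osg P m j := by
    intro j hj hzj
    obtain ⟨t, ht0, ht1, hzt⟩ := nvx_os hzj
    apply hsec j hj
    have h1 : 0 < t * cx (P.vertex a - P.vertex m) (P.vertex j - P.vertex m) := by
      have h2 : nvB (P.vertex m) (P.vertex a - P.vertex m) (P.vertex b - P.vertex m) z *
          cx (P.vertex a - P.vertex m) (P.vertex b - P.vertex m) =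
          t * cx (P.vertex a - P.vertex m) (P.vertex j - P.vertex m) := by
        unfold nvB
        rw [div_mul_cancel₀ _ hpos.ne', hzt]
        simp only [cx, Complex.sub_re, Complex.sub_im, Complex.add_re, Complex.add_im,
          Complex.mul_re, Complex.mul_im, Complex.ofReal_re, Complex.ofReal_im]
        ring
      rw [← h2, hB]
      exact mul_pos hβ hpos
    have h3 : 0 < t * cx (P.vertex j - P.vertex m) (P.vertex b - P.vertex m) := by
      have h2 : nvA (P.vertex m) (P.vertex a - P.vertex m) (P.vertex b - P.vertex m) z *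
          cx (P.vertex a - P.vertex m) (P.vertex b - P.vertex m) =
          t * cx (P.vertex j - P.vertex m) (P.vertex b - P.vertex m) := by
        unfold nvA
        rw [div_mul_cancel₀ _ hpos.ne', hzt]
        simp only [cx, Complex.sub_re, Complex.sub_im, Complex.add_re, Complex.add_im,
          Complex.mul_re, Complex.mul_im, Complex.ofReal_re, Complex.ofReal_im]
        ring
      rw [← h2, hA]
      exact mul_pos hα hpos
    exact ⟨(mul_pos_iff_of_pos_left ht0).1 h1, (mul_pos_iff_of_pos_left ht0).1 h3⟩
  rcases e5 z hSk with ⟨n, hn⟩ | ⟨i, j, hij, hzij⟩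
  · have hnm : n ≠ m := by
      rintro rfl
      have h1 : nvA (P.vertex n) (P.vertex a - P.vertex n) (P.vertex b - P.vertex n) z = 0 := by
        rw [hn]
        simp [nvA, cx]
      rw [hA] at h1
      exact hα.ne' h1
    exact hV n hnm α β hα.le hβ.le hαβ hn.symm
  · by_cases hi : i = m
    · subst hi
      exact hedge j hij hzij
    · by_cases hj : j = m
      · subst hj
        apply hedge i (e1 i j hij).2
        unfold osg at hzij ⊢
        rw [openSegment_symm]
        exact hzij
      · -- the sum of the coordinates is small at one of the end points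
        obtain ⟨t, ht0, ht1, hzt⟩ := nvx_os hzij
        have hA1 := nvx_affA (P.vertex m) (P.vertex a - P.vertex m) (P.vertex b - P.vertex m)
          (P.vertex i) (P.vertex j) t
        have hB1 := nvx_affB (P.vertex m) (P.vertex a - P.vertex m) (P.vertex b - P.vertex m)
          (P.vertex i) (P.vertex j) t
        rw [← hzt, hA] at hA1
        rw [← hzt, hB] at hB1
        by_cases hx1 : nvA (P.vertex m) (P.vertex a - P.vertex m) (P.vertex b - P.vertex m)
            (P.vertex i) +
          nvB (P.vertex m) (P.vertex a - P.vertex m) (P.vertex b - P.vertex m) (P.vertex i) < c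
        · exact nvx_step hEDG P N m a b c hma hmb hpos hc1 hV i j hij hi hj z hzij
            (by rw [hA]; exact hα) (by rw [hB]; exact hβ) (by rw [hA, hB]; exact hαβ) hx1
        · have hx2 : nvA (P.vertex m) (P.vertex a - P.vertex m) (P.vertex b - P.vertex m)
            (P.vertex j) +
            nvB (P.vertex m) (P.vertex a - P.vertex m) (P.vertex b - P.vertex m) (P.vertex j)
              < c := by
            by_contra hcon
            rw [not_lt] at hx1 hcon
            have h1 := mul_nonneg (sub_nonneg.2 ht1.le) (sub_nonneg.2 hx1)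
            have h2 := mul_nonneg ht0.le (sub_nonneg.2 hcon)
            nlinarith
          refine nvx_step hEDG P N m a b c hma hmb hpos hc1 hV j i (e1 i j hij).2 hj hi z ?_
            (by rw [hA]; exact hα) (by rw [hB]; exact hβ) (by rw [hA, hB]; exact hαβ) hx2
          unfold osg at hzij ⊢
          rw [openSegment_symm]
          exact hzij

end Pool.Agent.FAN
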