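import Pool.Agent.FAN.StP
import Pool.Agent.FAN.Base

/-!
# FAN, block 6: overlapping triangles of the net (helper75)
-/

set_option autoImplicit false

open scoped ComplexConjugate
open MeasureTheory Set Metric
open Pool.Agent.Billiard Pool.Agent.Lib_helper45

namespace Pool.Agent.FAN

theorem ovl_three (i i' : ZMod 3) : i' = i ∨ i' = i + 1 ∨ i' = i + 2 := by
  revert i i'; decide

/-- a point of the closed triangle, not in the open triangle, is on the edges -/
theorem ovl_bd (hT : Sp_TRI) {P : Polygon} {N : Net P} (t : Tr N) {y : ℂ}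
    (h1 : y ∈ closure (tri (fun i => P.vertex (t.l i))))
    (h2 : y ∉ tri (fun i => P.vertex (t.l i))) :
    ∃ i, y ∈ sg P (t.l (i + 1)) (t.l (i + 2)) := by
  obtain ⟨-, -, -, h4, -⟩ := hT (fun i => P.vertex (t.l i)) t.pos
  exact h4 y h1 h2

theorem ovl_sub (hT : Sp_TRI) {P : Polygon} {N : Net P} (t t' : Tr N)
    (h : (tri (fun i => P.vertex (t.l i)) ∩ tri (fun i => P.vertex (t'.l i))).Nonempty) :
    tri (fun i => P.vertex (t'.l i)) ⊆ tri (fun i => P.vertex (t.l i)) := by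
  obtain ⟨⟨hO, -, -⟩, -⟩ := hT (fun i => P.vertex (t.l i)) t.pos
  obtain ⟨⟨-, hC, -⟩, -⟩ := hT (fun i => P.vertex (t'.l i)) t'.pos
  refine hC.isPreconnected.subset_of_closure_inter_subset hO ?_ ?_
  · rw [inter_comm]; exact h
  · rintro z ⟨hz1, hz2⟩
    by_contra hz3
    obtain ⟨i, hi⟩ := ovl_bd hT t hz1 hz3
    exact (t'.int hz2).2 ⟨_, _, t.edg i, hi⟩

theorem ovl_eq (hT : Sp_TRI) {P : Polygon} {N : Net P} (t t' : Tr N)
    (h : (tri (fun i => P.vertex (t.l i)) ∩ tri (fun i => P.vertex (t'.l i))).Nonempty) :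
    tri (fun i => P.vertex (t.l i)) = tri (fun i => P.vertex (t'.l i)) :=
  Subset.antisymm (ovl_sub hT t' t (by rw [inter_comm]; exact h)) (ovl_sub hT t t' h)

theorem ovl_vert (hE : Sp_EDG) (hT : Sp_TRI) {P : Polygon} {N : Net P} (t : Tr N)
    (m : ZMod P.k) (hm : P.vertex m ∈ closure (tri (fun i => P.vertex (t.l i)))) :
    ∃ i, t.l i = m := by
  obtain ⟨-, h2, -, -, -, h6, -⟩ := hE P N
  have hm2 : P.vertex m ∉ tri (fun i => P.vertex (t.l i)) := fun h => (t.int h).2 (h6 m)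
  obtain ⟨i, hi⟩ := ovl_bd hT t hm hm2
  unfold sg at hi
  rw [← insert_endpoints_openSegment] at hi
  rcases hi with hi | hi | hi
  · exact ⟨i + 1, (P.injective hi).symm⟩
  · exact ⟨i + 2, (P.injective hi).symm⟩
  · exact absurd hi (h2 _ _ m (t.edg i))

theorem ovl_ne (hT : Sp_TRI) {P : Polygon} {N : Net P} (t : Tr N) (i : ZMod 3) :
    t.l (i + 1) ≠ t.l i ∧ t.l (i + 2) ≠ t.l i := by
  obtain ⟨-, h2, -⟩ := hT (fun i => P.vertex (t.l i)) t.pos
  have h := h2 i
  constructor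
  · intro he
    rw [he, sub_self] at h
    simp [cx] at h
  · intro he
    rw [he, sub_self] at h
    simp [cx] at h

theorem ovl_ext {P : Polygon} {N : Net P} {t t' : Tr N} (h : t.l = t'.l) : t = t' := by
  cases t; cases t'; cases h; rfl

theorem ovl_common (hT : Sp_TRI) {P : Polygon} {N : Net P} (t t' : Tr N) (i : ZMod 3)
    (e1 : t'.l (i + 1) = t.l (i + 1)) (e2 : t'.l (i + 2) = t.l (i + 2)) :
    (tri (fun i => P.vertex (t.l i)) ∩ tri (fun i => P.vertex (t'.l i))).Nonempty := by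
  obtain ⟨-, -, -, -, -, h6, -⟩ := hT (fun i => P.vertex (t.l i)) t.pos
  obtain ⟨-, -, -, -, -, h6', -⟩ := hT (fun i => P.vertex (t'.l i)) t'.pos
  have g := h6 i
  have g' := h6' i
  simp only [e1, e2] at g'
  set p : ℂ := P.vertex (t.l (i + 1)) with hp
  set q : ℂ := P.vertex (t.l (i + 2)) with hq
  have hpq : q - p ≠ 0 := by
    intro h0
    have h1 := ovl_ne hT t (i + 1)
    have h3 : P.vertex (t.l (i + 2)) = P.vertex (t.l (i + 1)) := sub_eq_zero.1 h0
    have h4 : i + 1 + 1 = i + 2 := by ring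
    rw [h4] at h1
    exact h1.1 (P.injective h3)
  let z : ℂ := p + (((1 / 2 : ℝ) : ℝ) : ℂ) * (q - p)
  have hz : z ∈ openSegment ℝ p q := by
    rw [openSegment_eq_image']
    refine ⟨1 / 2, ⟨by norm_num, by norm_num⟩, ?_⟩
    simp only [z, Complex.real_smul]
  obtain ⟨ρ, hρ, hy⟩ := g z hz
  obtain ⟨ρ', hρ', hy'⟩ := g' z hz
  have hn : 0 < ‖q - p‖ := norm_pos_iff.2 hpq
  let ε : ℝ := min ρ ρ' / (2 * ‖q - p‖)
  have hm : 0 < min ρ ρ' := lt_min hρ hρ'
  have hε : 0 < ε := by positivity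
  let y : ℂ := z + (ε : ℂ) * (Complex.I * (q - p))
  have hd : dist y z < min ρ ρ' := by
    have h1 : dist y z = ε * ‖q - p‖ := by
      simp only [y, dist_eq_norm, add_sub_cancel_left, norm_mul, Complex.norm_I, one_mul,
        Complex.norm_real, Real.norm_eq_abs, abs_of_pos hε]
    rw [h1]
    have h2 : ε * ‖q - p‖ = min ρ ρ' / 2 := by
      simp only [ε]; field_simp
    rw [h2]
    linarith
  have hcx : 0 < cx (q - p) (y - p) := by
    have h1 : y - p = (((1 / 2 : ℝ) : ℝ) : ℂ) * (q - p) + (ε : ℂ) * (Complex.I * (q - p)) := by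
      simp only [y, z]; ring
    rw [h1, cx_add_right, cx_real_right, cx_real_right, cx_self, cx_I]
    positivity
  exact ⟨y, hy y (lt_of_lt_of_le hd (min_le_left _ _)) hcx,
    hy' y (lt_of_lt_of_le hd (min_le_right _ _)) hcx⟩

theorem ovl_uniq (hE : Sp_EDG) (hT : Sp_TRI) {P : Polygon} {N : Net P} (t t' : Tr N) (i : ZMod 3)
    (e1 : t'.l (i + 1) = t.l (i + 1)) (e2 : t'.l (i + 2) = t.l (i + 2)) : t' = t := by
  have h1 := ovl_eq hT t t' (ovl_common hT t t' i e1 e2)
  have h5 : P.vertex (t'.l i) ∈ closure (tri (fun i => P.vertex (t.l i))) := by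
    rw [h1]
    obtain ⟨-, -, -, -, h5, -⟩ := hT (fun i => P.vertex (t'.l i)) t'.pos
    exact (h5 i).1
  obtain ⟨i', hi'⟩ := ovl_vert hE hT t _ h5
  have h0 : t.l i = t'.l i := by
    rcases ovl_three i i' with h | h | h
    · rw [h] at hi'; exact hi'
    · rw [h, ← e1] at hi'
      exact absurd hi' (ovl_ne hT t' i).1
    · rw [h, ← e2] at hi'
      exact absurd hi' (ovl_ne hT t' i).2
  refine ovl_ext (funext fun j => ?_)
  rcases ovl_three i j with h | h | h
  · rw [h, h0]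
  · rw [h, e1]
  · rw [h, e2]

theorem ovl_rot_tri (a : ZMod 3 → ℂ) (k : ZMod 3) : tri (fun i => a (i + k)) = tri a := by
  ext y
  constructor
  · intro h i
    have h1 := h (i - k)
    simp only at h1
    have e1 : i - k + 2 + k = i + 2 := by ring
    have e2 : i - k + 1 + k = i + 1 := by ring
    rw [e1, e2] at h1
    exact h1
  · intro h i
    have h1 := h (i + k)
    show 0 < cx (a (i + 2 + k) - a (i + 1 + k)) (y - a (i + 1 + k))
    have e1 : i + 2 + k = i + k + 2 := by ring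
    have e2 : i + 1 + k = i + k + 1 := by ring
    rw [e1, e2]
    exact h1

theorem ovl_rot (hT : Sp_TRI) {P : Polygon} {N : Net P} (t : Tr N) (k : ZMod 3) :
    ∃ t' : Tr N, (∀ i, t'.l i = t.l (i + k)) ∧
      tri (fun i => P.vertex (t'.l i)) = tri (fun i => P.vertex (t.l i)) := by
  obtain ⟨-, h2, -⟩ := hT (fun i => P.vertex (t.l i)) t.pos
  have hr : tri (fun i => P.vertex (t.l (i + k))) = tri (fun i => P.vertex (t.l i)) :=
    ovl_rot_tri (fun i => P.vertex (t.l i)) k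
  refine ⟨⟨fun i => t.l (i + k), ?_, ?_, ?_⟩, fun i => rfl, hr⟩
  · have h := h2 k
    rw [zero_add, add_comm 1 k, add_comm 2 k]
    exact h
  · intro i
    have h := t.edg (i + k)
    have e1 : i + 1 + k = i + k + 1 := by ring
    have e2 : i + 2 + k = i + k + 2 := by ring
    show N.E (t.l (i + 1 + k)) (t.l (i + 2 + k))
    rw [e1, e2]
    exact h
  · rw [hr]
    exact t.int

theorem ovl_fin {P : Polygon} (N : Net P) : Finite (Tr N) :=
  Finite.of_injective (fun t : Tr N => t.l) fun _ _ h => ovl_ext h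

theorem p_OVL (hE : Sp_EDG) (hT : Sp_TRI) : Sp_OVL := fun _ N =>
  ⟨fun t t' h => ovl_eq hT t t' h, fun t m hm => ovl_vert hE hT t m hm,
    fun t t' i e1 e2 => ovl_uniq hE hT t t' i e1 e2, fun t k => ovl_rot hT t k, ovl_fin N⟩

end Pool.Agent.FAN
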