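import Pool.Agent.FAN.StP

/-!
# FAN, block 6, POL: the interface of the block (helper41)
-/

set_option autoImplicit false

open scoped ComplexConjugate
open MeasureTheory Set Metric
open Pool.Agent.Billiard Pool.Agent.Lib_helper45

namespace Pool.Agent.FAN

/-- POL, from TDX, GDV, INJ. -/
theorem p_POL (hT : Sp_TDX) (hG : Sp_GDV) (hI : Sp_INJ) : Sp_POL := by
  classical
  intro P C
  obtain ⟨D, t, i, hi⟩ := hT P C
  obtain ⟨c, hc, hlen⟩ := C.GD_length
  refine ⟨D.dbl, (t, false), i, c, hc, ?_⟩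
  intro L hL m hm
  have hP : D.dbl.P (t, false) i = C.v := by
    change D.PP (t, false) i = C.v
    unfold TD.PP TD.ix Bil.Corner.v
    simp [hi]
  have hex : ∀ js ∈ GG D.dbl (t, false) i L, ∃ γ : List (ZMod P.k) × ZMod P.k,
      Bil.Vis P C.v ((endP (Pl.home D.dbl (t, false)) js).V
        (eI (Pl.home D.dbl (t, false)) i js) - C.v) 0 γ.1 γ.2 1 ∧
      C.Cone ((endP (Pl.home D.dbl (t, false)) js).V (eI (Pl.home D.dbl (t, false)) i js) - C.v) ∧
      Bil.dev P γ.1 (P.vertex γ.2) =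
        (endP (Pl.home D.dbl (t, false)) js).V (eI (Pl.home D.dbl (t, false)) i js) := by
    intro js hjs
    obtain ⟨W, j, h1, h2, h3⟩ := hG P C D t i L js hi hjs
    exact ⟨(W, j), h1, h2, h3⟩
  choose! γ hγ1 hγ2 hγ3 using hex
  have hD : ∀ js ∈ GG D.dbl (t, false) i L, C.D P (γ js) =
      (endP (Pl.home D.dbl (t, false)) js).V (eI (Pl.home D.dbl (t, false)) i js) - C.v := by
    intro js hjs
    unfold Bil.Corner.D
    rw [hγ3 js hjs]
  have hmem : ∀ js ∈ GG D.dbl (t, false) i L, γ js ∈ C.GD m := by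
    intro js hjs
    have h1 : γ js ∈ C.GD ((γ js).1.length + 1) := by
      refine ⟨Nat.lt_succ_self _, ?_, ?_⟩
      · rw [hD js hjs]; exact hγ2 js hjs
      · rw [hD js hjs]; exact hγ1 js hjs
    have h2 := hlen _ _ h1
    have h3 : ‖C.D P (γ js)‖ ≤ L := by
      rw [hD js hjs, ← hP]
      exact hjs.2.2
    have h4 : ((γ js).1.length : ℝ) + 1 ≤ m :=
      h2.trans ((mul_le_mul_of_nonneg_left h3 hc.le).trans hm)
    have h5 : (γ js).1.length < m := by
      have : (((γ js).1.length + 1 : ℕ) : ℝ) ≤ (m : ℝ) := by push_cast; exact h4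
      exact_mod_cast this
    exact ⟨h5, h1.2⟩
  refine Set.ncard_le_ncard_of_injOn γ hmem ?_ (C.GD_finite m)
  intro js hjs js' hjs' he
  refine hI D.dbl (t, false) i L js js' hjs hjs' ?_
  rw [← hγ3 js hjs, ← hγ3 js' hjs', he]

end Pool.Agent.FAN
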