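import Pool.Agent.FAN.StP

/-! # FAN, block 6, SEC: the free sector at the extreme vertex (helper63) -/

set_option autoImplicit false

open scoped ComplexConjugate
open MeasureTheory Set Metric
open Pool.Agent.Billiard Pool.Agent.Lib_helper45

namespace Pool.Agent.FAN

theorem cx_three_re (a b c : ℂ) : cx a c * b.re = cx b c * a.re + cx a b * c.re := by
  unfold cx; ring

theorem cx_three_im (a b c : ℂ) : cx a c * b.im = cx b c * a.im + cx a b * c.im := by
  unfold cx; ring

theorem cx_three (a b c : ℂ) : (cx a c : ℂ) * b = cx b c * a + cx a b * c := by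
  apply Complex.ext
  · have := cx_three_re a b c
    simp only [Complex.mul_re, Complex.add_re, Complex.ofReal_re, Complex.ofReal_im]
    linarith
  · have := cx_three_im a b c
    simp only [Complex.mul_im, Complex.add_im, Complex.ofReal_re, Complex.ofReal_im]
    linarith

theorem cx_nsq (u p q : ℂ) :
    (u.re ^ 2 + u.im ^ 2) * cx p q = dt u p * cx u q - cx u p * dt u q := by
  unfold cx dt; ring

theorem cx_swap (p q : ℂ) : cx p q = -cx q p := by unfold cx; ring

theorem cx_smul_right (p q : ℂ) (l : ℝ) : cx p ((l : ℂ) * q) = l * cx p q := by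
  simp only [cx, Complex.mul_re, Complex.mul_im, Complex.ofReal_re, Complex.ofReal_im]; ring

theorem cx_smul_left (p q : ℂ) (l : ℝ) : cx ((l : ℂ) * p) q = l * cx p q := by
  simp only [cx, Complex.mul_re, Complex.mul_im, Complex.ofReal_re, Complex.ofReal_im]; ring

/-- parallel vectors -/
theorem cx_parallel {u d : ℂ} (hu : u ≠ 0) (h : cx u d = 0) : ∃ l : ℝ, d = (l : ℂ) * u := by
  have hn : 0 < u.re ^ 2 + u.im ^ 2 := by
    by_contra hh
    apply hu
    have h1 := sq_nonneg u.re
    have h2 := sq_nonneg u.im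
    apply Complex.ext
    · have : u.re ^ 2 = 0 := by linarith
      simpa using this
    · have : u.im ^ 2 = 0 := by linarith
      simpa using this
  refine ⟨dt u d / (u.re ^ 2 + u.im ^ 2), ?_⟩
  unfold cx at h
  have e1 : (u.re ^ 2 + u.im ^ 2) * d.re = dt u d * u.re := by
    unfold dt; linear_combination -u.im * h
  have e2 : (u.re ^ 2 + u.im ^ 2) * d.im = dt u d * u.im := by
    unfold dt; linear_combination u.re * h
  apply Complex.ext
  · rw [Complex.mul_re, Complex.ofReal_re, Complex.ofReal_im, zero_mul, sub_zero, div_mul_eq_mul_div,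
      eq_div_iff hn.ne']
    linarith
  · rw [Complex.mul_im, Complex.ofReal_re, Complex.ofReal_im, zero_mul, add_zero, div_mul_eq_mul_div,
      eq_div_iff hn.ne']
    linarith

theorem sg_cases {P : Polygon} {i j : ZMod P.k} {z : ℂ} (h : z ∈ sg P i j) :
    z = P.vertex i ∨ z = P.vertex j ∨ z ∈ osg P i j := by
  unfold sg at h
  rw [← insert_endpoints_openSegment] at h
  simpa [osg] using h

theorem norm_comb (a b : ℝ) (x z : ℂ) (ha : 0 ≤ a) (hb : 0 ≤ b) :
    ‖(a : ℂ) * x + b * z‖ ≤ a * ‖x‖ + b * ‖z‖ := by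
  calc ‖(a : ℂ) * x + b * z‖ ≤ ‖(a : ℂ) * x‖ + ‖(b : ℂ) * z‖ := norm_add_le _ _
    _ = a * ‖x‖ + b * ‖z‖ := by
      rw [norm_mul, norm_mul, Complex.norm_real, Complex.norm_real, Real.norm_eq_abs,
        Real.norm_eq_abs, abs_of_nonneg ha, abs_of_nonneg hb]

/-- escape: no cone with a direction of positive real part -/
theorem sec_escape {K : Set ℂ} {w u d : ℂ} {ρ : ℝ} (hρ : 0 < ρ) (hre : ∀ z ∈ K, z.re < w.re)
    (hu : u.re < 0) (hd : 0 < d.re)
    (h : ∀ α β : ℝ, 0 < α → 0 < β → ‖(α : ℂ) * u + β * d‖ < ρ → w + (α * u + β * d) ∈ K) : False := by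
  set c := d.re / (2 * (-u.re)) with hc
  have hc0 : 0 < c := div_pos hd (by linarith)
  set M := c * ‖u‖ + ‖d‖ with hM
  have hM0 : 0 ≤ M := by positivity
  set s := ρ / (2 * (M + 1)) with hs
  have hs0 : 0 < s := by positivity
  have hsM : s * M < ρ := by
    rw [hs, div_mul_eq_mul_div, div_lt_iff₀ (by positivity)]
    nlinarith
  have h1 := h (s * c) s (by positivity) hs0 (by
    refine lt_of_le_of_lt (norm_comb _ _ _ _ (by positivity) hs0.le) ?_
    have : s * c * ‖u‖ + s * ‖d‖ = s * M := by rw [hM]; ring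
    rw [this]; exact hsM)
  have h2 := hre _ h1
  simp only [Complex.add_re, Complex.mul_re, Complex.ofReal_re, Complex.ofReal_im] at h2
  have h3 : c * u.re = -(d.re / 2) := by
    rw [hc]; field_simp [hu.ne]
  have h4 : s * c * u.re = -(s * (d.re / 2)) := by rw [mul_assoc, h3]; ring
  nlinarith [mul_pos hs0 hd]

/-- the boundary direction of a cone in `K` is lexicographically negative -/
theorem sec_clo {K : Set ℂ} {w u d : ℂ} {ρ : ℝ} (hρ : 0 < ρ)
    (hlex : ∀ z ∈ closure K, z.re ≤ w.re ∧ (z.re = w.re → z.im ≤ w.im))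
    (h : ∀ α β : ℝ, 0 < α → 0 < β → ‖(α : ℂ) * u + β * d‖ < ρ → w + (α * u + β * d) ∈ K) :
    d.re ≤ 0 ∧ (d.re = 0 → d.im ≤ 0) := by
  set s := ρ / (2 * (‖d‖ + 1)) with hs
  have hs0 : 0 < s := by positivity
  have hsd : s * ‖d‖ < ρ / 2 := by
    rw [hs, div_mul_eq_mul_div, div_lt_iff₀ (by positivity)]
    nlinarith [norm_nonneg d]
  have hmem : w + s * d ∈ closure K := by
    rw [Metric.mem_closure_iff]
    intro ε hε
    set α := min ε (ρ / 2) / (2 * (‖u‖ + 1)) with hα
    have hm : 0 < min ε (ρ / 2) := lt_min hε (by linarith)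
    have hα0 : 0 < α := by positivity
    have hαu : α * ‖u‖ < min ε (ρ / 2) := by
      rw [hα, div_mul_eq_mul_div, div_lt_iff₀ (by positivity)]
      nlinarith [norm_nonneg u]
    refine ⟨w + (α * u + s * d), h α s hα0 hs0 ?_, ?_⟩
    · refine lt_of_le_of_lt (norm_comb _ _ _ _ hα0.le hs0.le) ?_
      have := min_le_right ε (ρ / 2)
      linarith
    · rw [dist_eq_norm]
      have e : w + s * d - (w + (α * u + s * d)) = -((α : ℂ) * u) := by ring
      rw [e, norm_neg, norm_mul, Complex.norm_real, Real.norm_eq_abs, abs_of_pos hα0]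
      exact lt_of_lt_of_le hαu (min_le_left _ _)
  obtain ⟨h1, h2⟩ := hlex _ hmem
  have er : (w + s * d).re = w.re + s * d.re := by
    simp [Complex.add_re, Complex.mul_re]
  have ei : (w + s * d).im = w.im + s * d.im := by
    simp [Complex.add_im, Complex.mul_im]
  rw [er] at h1 h2
  rw [ei] at h2
  refine ⟨?_, fun h0 => ?_⟩
  · by_contra hh
    push Not at hh
    nlinarith [mul_pos hs0 hh]
  · have h3 := h2 (by rw [h0]; ring)
    by_contra hh
    push Not at hh
    nlinarith [mul_pos hs0 hh]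

theorem p_SEC (hE : Sp_EDG) (hC : Sp_CMP) (hK : Sp_CON) : Sp_SEC := by
  intro P N y m hy hm hre hlex
  obtain ⟨e1, e2, e3, e4, e5, e6, e7⟩ := hE P N
  obtain ⟨hyK, hKO, hKop, hKpre, hKmax⟩ := hC P N y hy
  have hcon := hK P N y m
  set w := P.vertex m with hw
  -- radius
  obtain ⟨ρ₁, hρ₁, hρ₁'⟩ := e7 w
  obtain ⟨ρ, hρ, hρle, hρv⟩ : ∃ ρ > 0, ρ ≤ ρ₁ ∧ ∀ j, j ≠ m → ρ ≤ ‖P.vertex j - w‖ := by
    classical
    obtain ⟨j₀, hj₀⟩ := Finite.exists_min fun j : ZMod P.k => if j = m then 1 else ‖P.vertex j - w‖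
    have hpos : ∀ j : ZMod P.k, 0 < (if j = m then (1 : ℝ) else ‖P.vertex j - w‖) := by
      intro j
      split_ifs with h
      · exact one_pos
      · rw [norm_pos_iff, sub_ne_zero]
        exact fun h' => h (P.injective h')
    refine ⟨min ρ₁ (if j₀ = m then (1 : ℝ) else ‖P.vertex j₀ - w‖), lt_min hρ₁ (hpos j₀),
      min_le_left _ _, fun j hj => ?_⟩
    have h1 := hj₀ j
    simp only [hj, if_false] at h1
    exact (min_le_right _ _).trans h1
  have hball : ∀ i j, N.E i j → (sg P i j ∩ ball w ρ).Nonempty → i = m ∨ j = m := by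
    rintro i j hij ⟨z, hz, hzb⟩
    have h1 : w ∈ sg P i j := hρ₁' i j hij ⟨z, hz, ball_subset_ball hρle hzb⟩
    rcases sg_cases h1 with h | h | h
    · exact Or.inl (P.injective h).symm
    · exact Or.inr (P.injective h).symm
    · exact absurd h (e2 i j m hij)
  obtain ⟨z₀, hz₀K, hz₀d⟩ := Metric.mem_closure_iff.1 hm ρ hρ
  set u := z₀ - w with hu
  have hz₀ : z₀ = w + u := by rw [hu]; ring
  have hure : u.re < 0 := by
    have := hre z₀ hz₀K
    rw [hu, Complex.sub_re]; linarith
  have hu0 : u ≠ 0 := by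
    intro h; rw [h] at hure; simp at hure
  have hun : ‖u‖ < ρ := by
    rw [hu, ← dist_eq_norm, dist_comm]; exact hz₀d
  have hz₀b : z₀ ∈ ball w ρ := by
    rw [mem_ball, dist_comm]; exact hz₀d
  have hn2 : 0 < u.re ^ 2 + u.im ^ 2 := by nlinarith [sq_nonneg u.im]
  -- CON with first vector `u`
  have conL : ∀ d : ℂ, 0 < cx u d → (∀ j, N.E m j → ¬ (0 < cx u (P.vertex j - w) ∧
      0 < cx (P.vertex j - w) d)) →
      ∀ α β : ℝ, 0 < α → 0 < β → ‖(α : ℂ) * u + β * d‖ < ρ → w + (α * u + β * d) ∈ N.Kp y := by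
    intro d hd hj α β hα hβ hn
    have h1 := hcon ρ u d 1 0 hy hρ hball hd hj (by norm_num) le_rfl
      (by rw [Complex.ofReal_one, Complex.ofReal_zero, one_mul, zero_mul, add_zero, ← hz₀]; exact hz₀K)
      (by rw [Complex.ofReal_one, Complex.ofReal_zero, one_mul, zero_mul, add_zero, ← hz₀]; exact hz₀b)
      α β hα hβ hn
    rw [← add_assoc]; exact h1
  have conR : ∀ d : ℂ, 0 < cx d u → (∀ j, N.E m j → ¬ (0 < cx d (P.vertex j - w) ∧
      0 < cx (P.vertex j - w) u)) →
      ∀ α β : ℝ, 0 < α → 0 < β → ‖(α : ℂ) * u + β * d‖ < ρ → w + (α * u + β * d) ∈ N.Kp y := by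
    intro d hd hj α β hα hβ hn
    have h1 := hcon ρ d u 0 1 hy hρ hball hd hj le_rfl (by norm_num)
      (by rw [Complex.ofReal_one, Complex.ofReal_zero, one_mul, zero_mul, add_zero, ← hz₀]; exact hz₀K)
      (by rw [Complex.ofReal_one, Complex.ofReal_zero, one_mul, zero_mul, add_zero, ← hz₀]; exact hz₀b)
      β α hβ hα (by rw [add_comm]; exact hn)
    have e : w + ((α : ℂ) * u + β * d) = w + β * d + α * u := by ring
    rw [e]; exact h1
  -- small δ
  obtain ⟨δ, hδ, hδu⟩ : ∃ δ : ℝ, 0 < δ ∧ δ * |u.im| < -u.re := by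
    refine ⟨-u.re / (2 * (|u.im| + 1)), div_pos (by linarith) (by positivity), ?_⟩
    rw [div_mul_eq_mul_div, div_lt_iff₀ (by positivity)]
    nlinarith [abs_nonneg u.im]
  -- left
  set L : Set (ZMod P.k) := {j | N.E m j ∧ 0 < cx u (P.vertex j - w)} with hL
  have hLne : L.Nonempty := by
    by_contra hemp
    rw [Set.not_nonempty_iff_eq_empty] at hemp
    have hd : 0 < cx u ⟨δ, -1⟩ := by
      unfold cx
      have := le_abs_self u.im
      simp only
      nlinarith
    refine sec_escape hρ hre hure (d := ⟨δ, -1⟩) hδ (conL _ hd ?_)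
    rintro j hj ⟨h1, _⟩
    have : j ∈ L := ⟨hj, h1⟩
    rw [hemp] at this
    exact this
  obtain ⟨p, hpL, hpmax⟩ := Set.exists_max_image L
    (fun j => dt u (P.vertex j - w) / cx u (P.vertex j - w)) (Set.toFinite L) hLne
  have hpfirst : ∀ j, N.E m j → 0 < cx u (P.vertex j - w) →
      ¬ 0 < cx (P.vertex j - w) (P.vertex p - w) := by
    intro j hj hcj hpos
    have h1 := hpmax j ⟨hj, hcj⟩
    have hcp := hpL.2
    rw [div_le_div_iff₀ hcj hcp] at h1
    have h2 := cx_nsq u (P.vertex j - w) (P.vertex p - w)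
    nlinarith [mul_pos hn2 hpos]
  have hconp := conL (P.vertex p - w) hpL.2 (fun j hj h => hpfirst j hj h.1 h.2)
  obtain ⟨hpre, -⟩ := sec_clo hρ hlex hconp
  -- right
  set R : Set (ZMod P.k) := {j | N.E m j ∧ 0 < cx (P.vertex j - w) u} with hR
  have hRne : R.Nonempty := by
    by_contra hemp
    rw [Set.not_nonempty_iff_eq_empty] at hemp
    have hd : 0 < cx ⟨δ, 1⟩ u := by
      unfold cx
      have := neg_abs_le u.im
      simp only
      nlinarith
    refine sec_escape hρ hre hure (d := ⟨δ, 1⟩) hδ (conR _ hd ?_)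
    rintro j hj ⟨_, h1⟩
    have : j ∈ R := ⟨hj, h1⟩
    rw [hemp] at this
    exact this
  obtain ⟨q, hqR, hqmax⟩ := Set.exists_max_image R
    (fun j => dt u (P.vertex j - w) / cx (P.vertex j - w) u) (Set.toFinite R) hRne
  have hqfirst : ∀ j, N.E m j → 0 < cx (P.vertex j - w) u →
      ¬ 0 < cx (P.vertex q - w) (P.vertex j - w) := by
    intro j hj hcj hpos
    have h1 := hqmax j ⟨hj, hcj⟩
    have hcq := hqR.2
    rw [div_le_div_iff₀ hcj hcq] at h1
    have h2 := cx_nsq u (P.vertex q - w) (P.vertex j - w)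
    rw [cx_swap u (P.vertex j - w), cx_swap u (P.vertex q - w)] at h2
    nlinarith [mul_pos hn2 hpos]
  have hconq := conR (P.vertex q - w) hqR.2 (fun j hj h => hqfirst j hj h.2 h.1)
  obtain ⟨hqre, hqim⟩ := sec_clo hρ hlex hconq
  have hqre' : (P.vertex q - w).re < 0 := by
    refine lt_of_le_of_ne hqre fun h0 => ?_
    have h1 := hqim h0
    have h2 := hqR.2
    unfold cx at h2
    rw [h0] at h2
    nlinarith [mul_nonneg_of_nonpos_of_nonpos h1 hure.le]
  -- the angle
  have hqp : 0 < cx (P.vertex q - w) (P.vertex p - w) := by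
    have h1 := cx_three_re (P.vertex q - w) u (P.vertex p - w)
    have h2 := mul_neg_of_pos_of_neg hpL.2 hqre'
    have h3 : cx (P.vertex q - w) u * (P.vertex p - w).re ≤ 0 :=
      mul_nonpos_of_nonneg_of_nonpos hqR.2.le hpre
    by_contra hh
    push Not at hh
    have h4 : 0 ≤ cx (P.vertex q - w) (P.vertex p - w) * u.re :=
      mul_nonneg_of_nonpos_of_nonpos hh hure.le
    linarith
  have hnone : ∀ j, N.E m j → ¬ (0 < cx (P.vertex q - w) (P.vertex j - w) ∧
      0 < cx (P.vertex j - w) (P.vertex p - w)) := by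
    rintro j hj ⟨h1, h2⟩
    rcases lt_trichotomy (cx u (P.vertex j - w)) 0 with h | h | h
    · refine hqfirst j hj ?_ h1
      rw [cx_swap]; linarith
    · obtain ⟨l, hl⟩ := cx_parallel hu0 h
      have hl0 : 0 < l := by
        rw [hl, cx_smul_right] at h1
        by_contra hneg
        push Not at hneg
        nlinarith [mul_nonneg (neg_nonneg.2 hneg) hqR.2.le]
      have hjm : j ≠ m := fun h' => (e1 m j hj).1 h'.symm
      have hn := hρv j hjm
      rw [hl, norm_mul, Complex.norm_real, Real.norm_eq_abs, abs_of_pos hl0] at hn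
      have hl1 : 1 < l := by
        by_contra hh
        push Not at hh
        have : l * ‖u‖ ≤ 1 * ‖u‖ := mul_le_mul_of_nonneg_right hh (norm_nonneg _)
        linarith
      have hSk : z₀ ∈ N.Sk := by
        refine ⟨m, j, hj, ?_⟩
        unfold sg
        rw [segment_eq_image_lineMap]
        refine ⟨l⁻¹, ⟨by positivity, inv_le_one_of_one_le₀ hl1.le⟩, ?_⟩
        rw [AffineMap.lineMap_apply, vsub_eq_sub, vadd_eq_add, Complex.real_smul, ← hw, hl, hz₀,
          ← mul_assoc, ← Complex.ofReal_mul, inv_mul_cancel₀ hl0.ne', Complex.ofReal_one, one_mul,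
          add_comm]
      exact (hKO hz₀K).2 hSk
    · exact hpfirst j hj h h2
  refine ⟨q, p, ρ, hρ, hqR.1, hpL.1, hqp, hnone, ?_⟩
  -- final cone
  have hz₀' : z₀ = w + ((cx u (P.vertex p - w) / cx (P.vertex q - w) (P.vertex p - w) : ℝ) : ℂ) *
      (P.vertex q - w) + ((cx (P.vertex q - w) u / cx (P.vertex q - w) (P.vertex p - w) : ℝ) : ℂ) *
      (P.vertex p - w) := by
    have h1 := cx_three (P.vertex q - w) u (P.vertex p - w)
    have h2 : (cx (P.vertex q - w) (P.vertex p - w) : ℂ) ≠ 0 := by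
      exact_mod_cast hqp.ne'
    rw [hz₀]
    push_cast
    field_simp
    linear_combination h1
  intro α β hα hβ hn
  exact hcon ρ (P.vertex q - w) (P.vertex p - w) _ _ hy hρ hball hqp hnone
    (div_nonneg hpL.2.le hqp.le) (div_nonneg hqR.2.le hqp.le) (by rw [← hz₀']; exact hz₀K)
    (by rw [← hz₀']; exact hz₀b) α β hα hβ hn

end Pool.Agent.FAN
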