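import Pool.Agent.FAN.StP

set_option autoImplicit false

open scoped ComplexConjugate
open MeasureTheory Set Metric
open Pool.Agent.Billiard Pool.Agent.Lib_helper45

namespace Pool.Agent.FAN

/-- TDX (uses NET, DNS, COV, OVL, NBR). -/
theorem p_TDX (hNET : Sp_NET) (hDNS : Sp_DNS) (hCOV : Sp_COV) (hOVL : Sp_OVL) (hNBR : Sp_NBR) :
    Sp_TDX := by
  classical
  intro P C
  obtain ⟨N⟩ := hNET P
  obtain ⟨-, o2, o3, -, o5⟩ := hOVL P N
  have nb : ∀ (t : Tr N) (i : ZMod 3), ∃ t' : Tr N, ¬ Sd P (t.l (i + 1)) (t.l (i + 2)) →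
      t'.l (i + 1) = t.l (i + 2) ∧ t'.l (i + 2) = t.l (i + 1) := by
    intro t i
    by_cases h : Sd P (t.l (i + 1)) (t.l (i + 2))
    · exact ⟨t, fun h' => absurd h h'⟩
    · obtain ⟨t', h'⟩ := hNBR P N t i h
      exact ⟨t', fun _ => h'⟩
  choose nbf hnbf using nb
  let D : TD P :=
    { T := Tr N
      fT := @Fintype.ofFinite _ o5
      l := fun t => t.l
      pos := fun t => t.pos
      int := fun t => t.int.trans sdiff_subset
      edg := by
        intro t i
        rcases t.edg i with h | h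
        · exact Or.inr (N.diag _ _ h).2
        · exact Or.inl h
      nbr := nbf
      nbr1 := fun t i h => (hnbf t i h).1
      nbr2 := fun t i h => (hnbf t i h).2
      nbr3 := by
        intro t i h
        obtain ⟨a1, a2⟩ := hnbf t i h
        have h' : ¬ Sd P ((nbf t i).l (i + 1)) ((nbf t i).l (i + 2)) := by
          rw [a1, a2, TD.Sd_symm]
          exact h
        obtain ⟨b1, b2⟩ := hnbf (nbf t i) i h'
        exact o3 t (nbf (nbf t i) i) i (b1.trans a2) (b2.trans a1) }
  have hcl : P.vertex C.j ∈ closure N.Om := by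
    have h1 : P.vertex C.j ∈ closure (Bil.U P) := by
      rw [Bil.closure_U]
      exact Bil.Gam_subset (Bil.vertex_mem_Gam C.j)
    have h2 : Bil.U P ⊆ closure N.Om := by
      intro z hz
      rw [Metric.mem_closure_iff]
      intro ε hε
      obtain ⟨y, hy, hyO⟩ := hDNS P N z ε hz hε
      exact ⟨y, hyO, by rw [dist_comm]; exact hy⟩
    exact closure_minimal h2 isClosed_closure h1
  have hsub : N.Om ⊆ ⋃ t : Tr N, tri (fun i => P.vertex (t.l i)) := by
    intro y hy
    obtain ⟨t, ht⟩ := hCOV P N y hy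
    exact mem_iUnion.2 ⟨t, ht⟩
  have h3 := closure_mono hsub hcl
  haveI := o5
  rw [closure_iUnion_of_finite] at h3
  obtain ⟨t, ht⟩ := mem_iUnion.1 h3
  obtain ⟨i, hi⟩ := o2 t C.j ht
  exact ⟨D, t, i, hi⟩

end Pool.Agent.FAN
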