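import Pool.Agent.FAN.P_SEC

/-! # FAN, block 6, TRG: the triangle at the extreme vertex (helper63) -/

set_option autoImplicit false

open scoped ComplexConjugate
open MeasureTheory Set Metric
open Pool.Agent.Billiard Pool.Agent.Lib_helper45

namespace Pool.Agent.FAN

theorem small_eps (x₁ y₁ x₂ y₂ : ℝ) (h1 : 0 < x₁) (h2 : 0 < x₂) :
    ∃ ε, 0 < ε ∧ ε < 1 ∧ 0 < (1 - ε) * x₁ + ε * y₁ ∧ 0 < (1 - ε) * x₂ + ε * y₂ := by
  set M := |y₁| + |y₂| + x₁ + x₂ + 1 with hM
  have hM0 : 0 < M := by positivity
  have hm : 0 < min x₁ x₂ := lt_min h1 h2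
  have ha1 := abs_nonneg y₁
  have ha2 := abs_nonneg y₂
  have hb1 := neg_abs_le y₁
  have hb2 := neg_abs_le y₂
  have hm1 := min_le_left x₁ x₂
  have hm2 := min_le_right x₁ x₂
  set ε := min x₁ x₂ / (2 * M) with hε
  have hε0 : 0 < ε := by positivity
  have hεM : ε * M = min x₁ x₂ / 2 := by rw [hε]; field_simp
  have hε1 : ε < 1 := by
    rw [hε, div_lt_one (by positivity)]; linarith
  have h3 : ε * (x₁ - y₁) ≤ ε * M := mul_le_mul_of_nonneg_left (by linarith) hε0.le
  have h4 : ε * (x₂ - y₂) ≤ ε * M := mul_le_mul_of_nonneg_left (by linarith) hε0.le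
  exact ⟨ε, hε0, hε1, by nlinarith, by nlinarith⟩

/-- coordinates in the basis `p`, `q` -/
noncomputable def cA (p q z : ℂ) : ℝ := cx z q / cx p q
noncomputable def cB (p q z : ℂ) : ℝ := cx p z / cx p q

theorem cAB (p q z : ℂ) (h : 0 < cx p q) : z = (cA p q z : ℂ) * p + (cB p q z : ℂ) * q := by
  have h1 := cx_three p z q
  have h2 : (cx p q : ℂ) ≠ 0 := by exact_mod_cast h.ne'
  unfold cA cB
  push_cast
  field_simp
  linear_combination h1

theorem cA_comb (p q : ℂ) (h : 0 < cx p q) (α β : ℝ) : cA p q ((α : ℂ) * p + (β : ℂ) * q) = α := by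
  unfold cA
  rw [div_eq_iff h.ne']
  simp only [cx, Complex.add_re, Complex.add_im, Complex.mul_re, Complex.mul_im, Complex.ofReal_re,
    Complex.ofReal_im]
  ring

theorem cB_comb (p q : ℂ) (h : 0 < cx p q) (α β : ℝ) : cB p q ((α : ℂ) * p + (β : ℂ) * q) = β := by
  unfold cB
  rw [div_eq_iff h.ne']
  simp only [cx, Complex.add_re, Complex.add_im, Complex.mul_re, Complex.mul_im, Complex.ofReal_re,
    Complex.ofReal_im]
  ring

theorem cA_aff (p q z z' w : ℂ) (t : ℝ) :
    cA p q (((1 - t : ℝ) : ℂ) * z + (t : ℂ) * z' - w) = (1 - t) * cA p q (z - w) + t * cA p q (z' - w) := by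
  unfold cA
  rw [← mul_div_assoc, ← mul_div_assoc, ← add_div]
  congr 1
  simp only [cx, Complex.add_re, Complex.add_im, Complex.mul_re, Complex.mul_im, Complex.ofReal_re,
    Complex.ofReal_im, Complex.sub_re, Complex.sub_im]
  ring

theorem cB_aff (p q z z' w : ℂ) (t : ℝ) :
    cB p q (((1 - t : ℝ) : ℂ) * z + (t : ℂ) * z' - w) = (1 - t) * cB p q (z - w) + t * cB p q (z' - w) := by
  unfold cB
  rw [← mul_div_assoc, ← mul_div_assoc, ← add_div]
  congr 1
  simp only [cx, Complex.add_re, Complex.add_im, Complex.mul_re, Complex.mul_im, Complex.ofReal_re,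
    Complex.ofReal_im, Complex.sub_re, Complex.sub_im]
  ring

theorem mem_osg {P : Polygon} {i j : ZMod P.k} {z : ℂ} : z ∈ osg P i j ↔
    ∃ t : ℝ, 0 < t ∧ t < 1 ∧ z = ((1 - t : ℝ) : ℂ) * P.vertex i + (t : ℂ) * P.vertex j := by
  unfold osg
  constructor
  · rintro ⟨s, t, hs, ht, hst, rfl⟩
    refine ⟨t, ht, by linarith, ?_⟩
    rw [← hst]
    simp only [Complex.real_smul]
    push_cast; ring
  · rintro ⟨t, h0, h1, rfl⟩
    exact ⟨1 - t, t, by linarith, h0, by ring, by simp [Complex.real_smul]⟩

theorem mem_sg {P : Polygon} {i j : ZMod P.k} {z : ℂ} : z ∈ sg P i j ↔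
    ∃ t : ℝ, 0 ≤ t ∧ t ≤ 1 ∧ z = ((1 - t : ℝ) : ℂ) * P.vertex i + (t : ℂ) * P.vertex j := by
  unfold sg
  constructor
  · rintro ⟨s, t, hs, ht, hst, rfl⟩
    refine ⟨t, ht, by linarith, ?_⟩
    rw [← hst]
    simp only [Complex.real_smul]
    push_cast; ring
  · rintro ⟨t, h0, h1, rfl⟩
    exact ⟨1 - t, t, by linarith, h0, by ring, by simp [Complex.real_smul]⟩

theorem osg_sub_sg {P : Polygon} {i j : ZMod P.k} : osg P i j ⊆ sg P i j :=
  openSegment_subset_segment _ _ _

theorem osg_sub_Sk {P : Polygon} {N : Net P} {i j : ZMod P.k} (h : N.E i j) : osg P i j ⊆ N.Sk :=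
  fun _ hz => ⟨i, j, h, osg_sub_sg hz⟩

theorem osg_ne {P : Polygon} (i j : ZMod P.k) : (osg P i j).Nonempty :=
  ⟨_, mem_osg.2 ⟨1 / 2, by norm_num, by norm_num, rfl⟩⟩

theorem osg_symm {P : Polygon} (i j : ZMod P.k) : osg P i j = osg P j i := openSegment_symm _ _ _

theorem z3_cases (i : ZMod 3) : i = 0 ∨ i = 1 ∨ i = 2 := by revert i; decide

theorem p_TRG (hE : Sp_EDG) (hC : Sp_CMP) (hN : Sp_NVX) (hT : Sp_TRI) : Sp_TRG := by
  intro P N y m a b ρ hy hρ hma hmb hQ hnone hnear
  obtain ⟨e1, e2, e3, e4, e5, e6, e7⟩ := hE P N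
  obtain ⟨hyK, hKO, hKop, hKpre, hKmax⟩ := hC P N y hy
  have hnvx := fun c => hN P N m a b c hma hmb hQ hnone
  set w := P.vertex m with hw
  set p := P.vertex a - w with hp
  set q := P.vertex b - w with hq
  have hmn : m ≠ a := (e1 m a hma).1
  have hmn' : m ≠ b := (e1 m b hmb).1
  have hab : a ≠ b := by
    intro h
    rw [hp, hq, h] at hQ
    unfold cx at hQ
    linarith
  -- coordinates of the vertices
  have cor : ∀ z : ℂ, z = w + (cA p q (z - w) : ℂ) * p + (cB p q (z - w) : ℂ) * q := by
    intro z
    have := cAB p q (z - w) hQ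
    linear_combination this
  have unA : ∀ (α β : ℝ) (z : ℂ), z = w + (α : ℂ) * p + (β : ℂ) * q → cA p q (z - w) = α := by
    intro α β z hz
    have : z - w = (α : ℂ) * p + (β : ℂ) * q := by rw [hz]; ring
    rw [this, cA_comb p q hQ]
  have unB : ∀ (α β : ℝ) (z : ℂ), z = w + (α : ℂ) * p + (β : ℂ) * q → cB p q (z - w) = β := by
    intro α β z hz
    have : z - w = (α : ℂ) * p + (β : ℂ) * q := by rw [hz]; ring
    rw [this, cB_comb p q hQ]
  have eqa : P.vertex a = w + ((1 : ℝ) : ℂ) * p + ((0 : ℝ) : ℂ) * q := by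
    rw [hp]; push_cast; ring
  have eqb : P.vertex b = w + ((0 : ℝ) : ℂ) * p + ((1 : ℝ) : ℂ) * q := by
    rw [hq]; push_cast; ring
  have eqm : P.vertex m = w + ((0 : ℝ) : ℂ) * p + ((0 : ℝ) : ℂ) * q := by
    rw [← hw]; push_cast; ring
  have Aa := unA _ _ _ eqa
  have Ba := unB _ _ _ eqa
  have Ab := unA _ _ _ eqb
  have Bb := unB _ _ _ eqb
  have Am := unA _ _ _ eqm
  have Bm := unB _ _ _ eqm
  have eqpt : ∀ i j : ZMod P.k, cA p q (P.vertex i - w) = cA p q (P.vertex j - w) →
      cB p q (P.vertex i - w) = cB p q (P.vertex j - w) → i = j := by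
    intro i j h1 h2
    apply P.injective
    rw [cor (P.vertex i), cor (P.vertex j), h1, h2]
  -- small points
  have hsmall : ∀ α β : ℝ, 0 < α → 0 < β → ∃ s : ℝ, 0 < s ∧ s < 1 ∧
      w + ((s * α : ℝ) : ℂ) * p + ((s * β : ℝ) : ℂ) * q ∈ N.Kp y := by
    intro α β hα hβ
    set M := α * ‖p‖ + β * ‖q‖ with hM
    have hM0 : 0 ≤ M := by positivity
    refine ⟨min (1 / 2) (ρ / (2 * (M + 1))), lt_min (by norm_num) (by positivity),
      lt_of_le_of_lt (min_le_left _ _) (by norm_num), ?_⟩
    set s := min (1 / 2) (ρ / (2 * (M + 1))) with hs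
    have hs0 : 0 < s := lt_min (by norm_num) (by positivity)
    have hsle : s ≤ ρ / (2 * (M + 1)) := min_le_right _ _
    apply hnear _ _ (by positivity) (by positivity)
    refine lt_of_le_of_lt (norm_comb _ _ _ _ (by positivity) (by positivity)) ?_
    have h1 : s * α * ‖p‖ + s * β * ‖q‖ = s * M := by rw [hM]; ring
    rw [h1]
    calc s * M ≤ ρ / (2 * (M + 1)) * M := mul_le_mul_of_nonneg_right hsle hM0
      _ < ρ := by
        rw [div_mul_eq_mul_div, div_lt_iff₀ (by positivity)]
        nlinarith
  -- Step 1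
  have hno : ∀ n, n ≠ m → n ≠ a → n ≠ b → ¬ (0 ≤ cA p q (P.vertex n - w) ∧
      0 ≤ cB p q (P.vertex n - w) ∧ cA p q (P.vertex n - w) + cB p q (P.vertex n - w) ≤ 1) := by
    intro n₀ hn1 hn2 hn3 hn4
    set Bad : Set (ZMod P.k) := {n | n ≠ m ∧ n ≠ a ∧ n ≠ b ∧ 0 ≤ cA p q (P.vertex n - w) ∧
      0 ≤ cB p q (P.vertex n - w) ∧ cA p q (P.vertex n - w) + cB p q (P.vertex n - w) ≤ 1} with hBad
    obtain ⟨n, hn, hmin⟩ := Set.exists_min_image Bad
      (fun n => cA p q (P.vertex n - w) + cB p q (P.vertex n - w)) (Set.toFinite Bad)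
      ⟨n₀, hn1, hn2, hn3, hn4⟩
    obtain ⟨h1, h2, h3, hA0, hB0, hAB⟩ := hn
    set α := cA p q (P.vertex n - w) with hα
    set β := cB p q (P.vertex n - w) with hβ
    have hcorn : P.vertex n = w + (α : ℂ) * p + (β : ℂ) * q := cor (P.vertex n)
    have hαpos : 0 < α := by
      refine lt_of_le_of_ne hA0 fun h0 => ?_
      rcases lt_trichotomy β 1 with h | h | h
      · have hb0 : β ≠ 0 := fun hb => h1 (eqpt n m (by rw [← hα, ← h0, Am]) (by rw [← hβ, hb, Bm]))
        refine e2 m b n hmb (mem_osg.2 ⟨β, lt_of_le_of_ne hB0 (Ne.symm hb0), h, ?_⟩)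
        rw [hcorn, ← h0, hq, ← hw]; push_cast; ring
      · exact h3 (eqpt n b (by rw [← hα, ← h0, Ab]) (by rw [← hβ, h, Bb]))
      · linarith
    have hβpos : 0 < β := by
      refine lt_of_le_of_ne hB0 fun h0 => ?_
      rcases lt_trichotomy α 1 with h | h | h
      · refine e2 m a n hma (mem_osg.2 ⟨α, hαpos, h, ?_⟩)
        rw [hcorn, ← h0, hp, ← hw]; push_cast; ring
      · exact h2 (eqpt n a (by rw [← hα, h, Aa]) (by rw [← hβ, ← h0, Ba]))
      · linarith
    have hfree := hnvx (α + β) (by linarith) hAB (by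
      intro n' hn' α' β' hα' hβ' hlt heq
      have hA' := unA _ _ _ heq
      have hB' := unB _ _ _ heq
      by_cases ha' : n' = a
      · rw [ha', Aa] at hA'; rw [ha', Ba] at hB'
        linarith
      by_cases hb' : n' = b
      · rw [hb', Ab] at hA'; rw [hb', Bb] at hB'
        linarith
      have h5 := hmin n' ⟨hn', ha', hb', by rw [hA']; exact hα', by rw [hB']; exact hβ', by
        rw [hA', hB']; linarith⟩
      rw [hA', hB'] at h5
      linarith)
    have hdisj : Disjoint (osg P m n) N.Sk := by
      rw [Set.disjoint_left]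
      intro z hz hzS
      obtain ⟨t, ht0, ht1, rfl⟩ := mem_osg.1 hz
      refine hfree (t * α) (t * β) (by positivity) (by positivity) (by nlinarith) ?_
      convert hzS using 1
      rw [hcorn, ← hw]; push_cast; ring
    have hsub : osg P m n ⊆ N.Kp y := by
      apply hKmax _ (convex_openSegment _ _).isPreconnected hdisj
      obtain ⟨s, hs0, hs1, hsK⟩ := hsmall α β hαpos hβpos
      refine ⟨_, mem_osg.2 ⟨s, hs0, hs1, rfl⟩, ?_⟩
      convert hsK using 1
      rw [hcorn, ← hw]; push_cast; ring
    have hDg : N.Dg m n := by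
      apply N.maxl m n (Ne.symm h1) (fun z hz => (hKO (hsub hz)).1)
      intro k l hkl
      exact hdisj.mono_right (osg_sub_Sk (Or.inl hkl))
    obtain ⟨z, hz⟩ := osg_ne (P := P) m n
    exact Set.disjoint_left.1 hdisj hz (osg_sub_Sk (Or.inl hDg) hz)
  -- Step 2
  have hfree := hnvx 1 one_pos le_rfl (by
    intro n' hn' α' β' hα' hβ' hlt heq
    have hA' := unA _ _ _ heq
    have hB' := unB _ _ _ heq
    by_cases ha' : n' = a
    · rw [ha', Aa] at hA'; rw [ha', Ba] at hB'
      linarith
    by_cases hb' : n' = b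
    · rw [hb', Ab] at hA'; rw [hb', Bb] at hB'
      linarith
    exact hno n' hn' ha' hb' ⟨by rw [hA']; exact hα', by rw [hB']; exact hβ', by
      rw [hA', hB']; linarith⟩)
  -- labels
  obtain ⟨l, hl0, hl1, hl2⟩ : ∃ l : ZMod 3 → ZMod P.k, l 0 = m ∧ l 1 = a ∧ l 2 = b := by
    refine ⟨fun i => if i = 0 then m else if i = 1 then a else b, by simp, ?_, ?_⟩
    · have : (1 : ZMod 3) ≠ 0 := by decide
      simp [this]
    · have h1 : (2 : ZMod 3) ≠ 0 := by decide
      have h2 : (2 : ZMod 3) ≠ 1 := by decide
      simp [h1, h2]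
  have hpos : 0 < cx (P.vertex (l 1) - P.vertex (l 0)) (P.vertex (l 2) - P.vertex (l 0)) := by
    rw [hl0, hl1, hl2]; exact hQ
  obtain ⟨⟨t1, t2, -⟩, t3, t4, t5, t6, t7, t8⟩ := hT (fun i => P.vertex (l i)) hpos
  have htri : ∀ z, z ∈ tri (fun i => P.vertex (l i)) ↔ ∃ α β : ℝ, 0 < α ∧ 0 < β ∧ α + β < 1 ∧
      z = w + (α : ℂ) * p + (β : ℂ) * q := by
    intro z
    have := t8 z
    rw [hl0, hl1, hl2] at this
    exact this
  have hdisjT : Disjoint (tri (fun i => P.vertex (l i))) N.Sk := by
    rw [Set.disjoint_left]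
    intro z hz hzS
    obtain ⟨α, β, h1, h2, h3, rfl⟩ := (htri z).1 hz
    exact hfree α β h1 h2 h3 hzS
  have hsubT : tri (fun i => P.vertex (l i)) ⊆ N.Kp y := by
    apply hKmax _ t2.isPreconnected hdisjT
    obtain ⟨s, hs0, hs1, hsK⟩ := hsmall (1 / 3) (1 / 3) (by norm_num) (by norm_num)
    exact ⟨_, (htri _).2 ⟨_, _, by positivity, by positivity, by nlinarith, rfl⟩, hsK⟩
  -- Step 3
  have hEab : N.E a b := by
    by_cases hd : Disjoint (osg P a b) N.Sk
    · left
      apply N.maxl a b hab
      · intro z hz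
        have h1 : z ∈ closure (tri (fun i => P.vertex (l i))) := by
          apply (t6 0).2.1
          have e1' : (0 : ZMod 3) + 1 = 1 := by decide
          have e2' : (0 : ZMod 3) + 2 = 2 := by decide
          simp only [e1', e2', hl1, hl2]
          exact osg_sub_sg hz
        have h2 : z ∈ closure (Bil.U P) :=
          closure_mono (fun x hx => (hKO (hsubT hx)).1) h1
        rw [Bil.closure_U] at h2
        by_contra hzU
        have h3 : z ∈ Bil.Gam P := by rw [Bil.Gam_eq]; exact ⟨h2, hzU⟩
        exact Set.disjoint_left.1 hd hz (e4.2.1 h3)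
      · intro k l' hkl
        exact hd.mono_right (osg_sub_Sk (Or.inl hkl))
    · rw [Set.not_disjoint_iff] at hd
      obtain ⟨z, hz, hzS⟩ := hd
      obtain ⟨t, ht0, ht1, hzt⟩ := mem_osg.1 hz
      have hAz : cA p q (z - w) = 1 - t := by
        rw [hzt, cA_aff, Aa, Ab]; ring
      have hBz : cB p q (z - w) = t := by
        rw [hzt, cB_aff, Ba, Bb]; ring
      -- the key case
      have key : ∀ i j, N.E i j → z ∈ osg P i j → i ≠ m → j ≠ m →
          cA p q (P.vertex i - w) < cA p q (P.vertex j - w) → N.E a b := by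
        intro i j hij hzij him hjm hlt
        obtain ⟨s, hs0, hs1, hzs⟩ := mem_osg.1 hzij
        have hA := cA_aff p q (P.vertex i) (P.vertex j) w s
        have hB := cB_aff p q (P.vertex i) (P.vertex j) w s
        rw [← hzs] at hA hB
        -- both sums are ≥ 1
        have hge : ∀ n, (∀ ε : ℝ, 0 < ε → ε < 1 → ((1 - ε : ℝ) : ℂ) * z + (ε : ℂ) * P.vertex n ∈ N.Sk) →
            1 ≤ cA p q (P.vertex n - w) + cB p q (P.vertex n - w) := by
          intro n hn
          by_contra hlt1
          push Not at hlt1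
          obtain ⟨ε, hε0, hε1, hp1, hp2⟩ := small_eps (cA p q (z - w)) (cA p q (P.vertex n - w))
            (cB p q (z - w)) (cB p q (P.vertex n - w)) (by rw [hAz]; linarith) (by rw [hBz]; exact ht0)
          have hA' := cA_aff p q z (P.vertex n) w ε
          have hB' := cB_aff p q z (P.vertex n) w ε
          have hcor := cor (((1 - ε : ℝ) : ℂ) * z + (ε : ℂ) * P.vertex n)
          rw [hA', hB'] at hcor
          have hSk := hn ε hε0 hε1
          rw [hcor] at hSk
          refine hfree _ _ hp1 hp2 ?_ hSk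
          rw [hAz, hBz]
          nlinarith
        have hi1 : 1 ≤ cA p q (P.vertex i - w) + cB p q (P.vertex i - w) := by
          apply hge
          intro ε hε0 hε1
          refine ⟨i, j, hij, mem_sg.2 ⟨(1 - ε) * s, by nlinarith, by nlinarith, ?_⟩⟩
          rw [hzs]; push_cast; ring
        have hj1 : 1 ≤ cA p q (P.vertex j - w) + cB p q (P.vertex j - w) := by
          apply hge
          intro ε hε0 hε1
          refine ⟨i, j, hij, mem_sg.2 ⟨(1 - ε) * s + ε, by nlinarith, by nlinarith, ?_⟩⟩
          rw [hzs]; push_cast; ring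
        have hsum : (1 - s) * (cA p q (P.vertex i - w) + cB p q (P.vertex i - w)) +
            s * (cA p q (P.vertex j - w) + cB p q (P.vertex j - w)) = 1 := by
          have : cA p q (z - w) + cB p q (z - w) = 1 := by rw [hAz, hBz]; ring
          rw [hA, hB] at this
          linarith
        have hi2 : cA p q (P.vertex i - w) + cB p q (P.vertex i - w) = 1 := by
          by_contra hne
          have h1 : 1 < cA p q (P.vertex i - w) + cB p q (P.vertex i - w) :=
            lt_of_le_of_ne hi1 (Ne.symm hne)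
          nlinarith
        have hj2 : cA p q (P.vertex j - w) + cB p q (P.vertex j - w) = 1 := by
          by_contra hne
          have h1 : 1 < cA p q (P.vertex j - w) + cB p q (P.vertex j - w) :=
            lt_of_le_of_ne hj1 (Ne.symm hne)
          nlinarith
        set xi := cA p q (P.vertex i - w) with hxi
        set xj := cA p q (P.vertex j - w) with hxj
        have hxz : 1 - t = (1 - s) * xi + s * xj := by rw [← hAz, hA]
        have hlt1 : xi < 1 - t := by rw [hxz]; nlinarith
        have hlt2 : 1 - t < xj := by rw [hxz]; nlinarith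
        have hvi : P.vertex i = w + (xi : ℂ) * p + ((1 - xi : ℝ) : ℂ) * q := by
          have := cor (P.vertex i)
          rw [← hxi, show cB p q (P.vertex i - w) = 1 - xi by linarith] at this
          exact this
        have hvj : P.vertex j = w + (xj : ℂ) * p + ((1 - xj : ℝ) : ℂ) * q := by
          have := cor (P.vertex j)
          rw [← hxj, show cB p q (P.vertex j - w) = 1 - xj by linarith] at this
          exact this
        have hd0 : 0 < xj - xi := by linarith
        have hd0' : ((xj - xi : ℝ) : ℂ) ≠ 0 := by exact_mod_cast hd0.ne'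
        have hxi0 : 0 ≤ xi := by
          by_contra hneg
          push Not at hneg
          refine e2 i j b hij (mem_osg.2 ⟨-xi / (xj - xi), div_pos (by linarith) hd0, ?_, ?_⟩)
          · rw [div_lt_one hd0]; linarith
          · rw [hvi, hvj, eqb]
            push_cast at hd0' ⊢
            field_simp
            ring
        have hxj1 : xj ≤ 1 := by
          by_contra hneg
          push Not at hneg
          refine e2 i j a hij (mem_osg.2 ⟨(1 - xi) / (xj - xi), div_pos (by linarith) hd0, ?_, ?_⟩)
          · rw [div_lt_one hd0]; linarith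
          · rw [hvi, hvj, eqa]
            push_cast at hd0' ⊢
            field_simp
            ring
        have hib : i = b := by
          by_contra hib
          have hia : i ≠ a := by
            intro h
            rw [hxi, h, Aa] at hlt1
            linarith
          exact hno i him hia hib ⟨hxi0, by linarith, by linarith⟩
        have hja : j = a := by
          by_contra hja
          have hjb : j ≠ b := by
            intro h
            rw [hxj, h, Ab] at hlt2
            linarith
          exact hno j hjm hja hjb ⟨by linarith, by linarith, by linarith⟩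
        rw [hib, hja] at hij
        exact (e1 b a hij).2
      rcases e5 z hzS with ⟨n, hn⟩ | ⟨i, j, hij, hzij⟩
      · exfalso
        have hA := hAz
        have hB := hBz
        rw [hn] at hA hB
        have h1 : n ≠ m := by
          intro h; rw [h, Am] at hA; linarith
        have h2 : n ≠ a := by
          intro h; rw [h, Ba] at hB; linarith
        have h3 : n ≠ b := by
          intro h; rw [h, Ab] at hA; linarith
        exact hno n h1 h2 h3 ⟨by linarith, by linarith, by linarith⟩
      · -- neither end point is m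
        have hnm : ∀ j', N.E m j' → z ∉ osg P m j' := by
          intro j' hj' hz'
          obtain ⟨s, hs0, hs1, hzs⟩ := mem_osg.1 hz'
          have hA := cA_aff p q (P.vertex m) (P.vertex j') w s
          have hB := cB_aff p q (P.vertex m) (P.vertex j') w s
          rw [← hzs, Am] at hA
          rw [← hzs, Bm] at hB
          refine hnone j' hj' ⟨?_, ?_⟩
          · have h1 : 0 < cB p q (P.vertex j' - w) := by
              by_contra hneg
              push Not at hneg
              nlinarith
            unfold cB at h1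
            rwa [div_pos_iff_of_pos_right hQ] at h1
          · have h1 : 0 < cA p q (P.vertex j' - w) := by
              by_contra hneg
              push Not at hneg
              nlinarith
            unfold cA at h1
            rwa [div_pos_iff_of_pos_right hQ] at h1
        have him : i ≠ m := by
          rintro rfl
          exact hnm j hij hzij
        have hjm : j ≠ m := by
          rintro rfl
          exact hnm i (e1 i _ hij).2 (by rw [osg_symm]; exact hzij)
        rcases lt_trichotomy (cA p q (P.vertex i - w)) (cA p q (P.vertex j - w)) with h | h | h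
        · exact key i j hij hzij him hjm h
        · -- equal coordinates: the sums are equal too, or impossible
          exfalso
          obtain ⟨s, hs0, hs1, hzs⟩ := mem_osg.1 hzij
          have hA := cA_aff p q (P.vertex i) (P.vertex j) w s
          have hB := cB_aff p q (P.vertex i) (P.vertex j) w s
          rw [← hzs] at hA hB
          -- the edge is parallel to q: one of the ends has smaller B
          have hAi : cA p q (P.vertex i - w) = 1 - t := by
            rw [← hAz, hA, ← h]; ring
          have hne : cB p q (P.vertex i - w) ≠ cB p q (P.vertex j - w) := fun h' =>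
            (e1 i j hij).1 (eqpt i j h h')
          -- points of the edge slightly below z are in the open triangle
          have hbad : ∀ n, cA p q (P.vertex n - w) = 1 - t → cB p q (P.vertex n - w) < t →
              (∀ ε : ℝ, 0 < ε → ε < 1 → ((1 - ε : ℝ) : ℂ) * z + (ε : ℂ) * P.vertex n ∈ N.Sk) → False := by
            intro n hn1 hn2 hn3
            obtain ⟨ε, hε0, hε1, hp1, hp2⟩ := small_eps (cA p q (z - w)) (cA p q (P.vertex n - w))
              (cB p q (z - w)) (cB p q (P.vertex n - w)) (by rw [hAz]; linarith) (by rw [hBz]; exact ht0)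
            have hA' := cA_aff p q z (P.vertex n) w ε
            have hB' := cB_aff p q z (P.vertex n) w ε
            have hcor := cor (((1 - ε : ℝ) : ℂ) * z + (ε : ℂ) * P.vertex n)
            rw [hA', hB'] at hcor
            have hSk := hn3 ε hε0 hε1
            rw [hcor] at hSk
            refine hfree _ _ hp1 hp2 ?_ hSk
            rw [hAz, hBz, hn1]
            nlinarith
          rw [hBz] at hB
          rcases lt_or_gt_of_ne hne with h' | h'
          · refine hbad i hAi (by nlinarith) ?_
            intro ε hε0 hε1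
            refine ⟨i, j, hij, mem_sg.2 ⟨(1 - ε) * s, by nlinarith, by nlinarith, ?_⟩⟩
            rw [hzs]; push_cast; ring
          · refine hbad j (by rw [← h]; exact hAi) (by nlinarith) ?_
            intro ε hε0 hε1
            refine ⟨i, j, hij, mem_sg.2 ⟨(1 - ε) * s + ε, by nlinarith, by nlinarith, ?_⟩⟩
            rw [hzs]; push_cast; ring
        · exact key j i (e1 i j hij).2 (by rw [osg_symm]; exact hzij) hjm him h
  refine ⟨⟨l, hpos, fun i => ?_, fun z hz => hKO (hsubT hz)⟩, hl0, hl1, hl2, hsubT⟩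
  rcases z3_cases i with rfl | rfl | rfl
  · have e1' : (0 : ZMod 3) + 1 = 1 := by decide
    have e2' : (0 : ZMod 3) + 2 = 2 := by decide
    rw [e1', e2', hl1, hl2]; exact hEab
  · have e1' : (1 : ZMod 3) + 1 = 2 := by decide
    have e2' : (1 : ZMod 3) + 2 = 0 := by decide
    rw [e1', e2', hl2, hl0]; exact (e1 m b hmb).2
  · have e1' : (2 : ZMod 3) + 1 = 0 := by decide
    have e2' : (2 : ZMod 3) + 2 = 1 := by decide
    rw [e1', e2', hl0, hl1]; exact hma

end Pool.Agent.FAN
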