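import Pool.Agent.FAN.StP

/-!
# FAN, block 6, module TRI (helper54): open triangles
-/

set_option autoImplicit false

open scoped ComplexConjugate
open MeasureTheory Set Metric

namespace Pool.Agent.FAN

namespace TriP

theorem fin3 : ∀ i : ZMod 3, i = 0 ∨ i = 1 ∨ i = 2 := by decide

theorem cover : ∀ i j : ZMod 3, j = i ∨ j = i + 1 ∨ j = i + 2 := by decide
theorem cover' : ∀ i j : ZMod 3, j = i ∨ i = j + 1 ∨ i = j + 2 := by decide
theorem e02 : (0 : ZMod 3) + 2 = 2 := by decide
theorem e01 : (0 : ZMod 3) + 1 = 1 := by decide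
theorem e12 : (1 : ZMod 3) + 2 = 0 := by decide
theorem e11 : (1 : ZMod 3) + 1 = 2 := by decide
theorem e22 : (2 : ZMod 3) + 2 = 1 := by decide
theorem e21 : (2 : ZMod 3) + 1 = 0 := by decide

/-- barycentric coordinate (not normalised) -/
noncomputable def g (a : ZMod 3 → ℂ) (i : ZMod 3) (y : ℂ) : ℝ :=
  cx (a (i + 2) - a (i + 1)) (y - a (i + 1))

/-- twice the area -/
noncomputable def ar (a : ZMod 3 → ℂ) : ℝ := cx (a 1 - a 0) (a 2 - a 0)

theorem sum_g (a : ZMod 3 → ℂ) (i : ZMod 3) (y : ℂ) :
    g a i y + g a (i + 1) y + g a (i + 2) y = ar a := by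
  rcases fin3 i with rfl | rfl | rfl <;>
    simp only [e02, e01, e12, e11, e22, e21, g, ar, cx, Complex.sub_re, Complex.sub_im] <;> ring

theorem comb_g (a : ZMod 3 → ℂ) (i : ZMod 3) (y : ℂ) :
    (ar a : ℂ) * y = (g a i y : ℂ) * a i + (g a (i + 1) y : ℂ) * a (i + 1) +
      (g a (i + 2) y : ℂ) * a (i + 2) := by
  rcases fin3 i with rfl | rfl | rfl <;>
    simp only [e02, e01, e12, e11, e22, e21, g, ar, cx, Complex.sub_re, Complex.sub_im] <;>
    apply Complex.ext <;>
    simp only [Complex.mul_re, Complex.mul_im, Complex.add_re, Complex.add_im, Complex.ofReal_re,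
      Complex.ofReal_im] <;> ring

theorem g_self (a : ZMod 3 → ℂ) (i : ZMod 3) : g a i (a i) = ar a := by
  rcases fin3 i with rfl | rfl | rfl <;>
    simp only [e02, e01, e12, e11, e22, e21, g, ar, cx, Complex.sub_re, Complex.sub_im] <;> ring

theorem g_one (a : ZMod 3 → ℂ) (i : ZMod 3) : g a i (a (i + 1)) = 0 := by
  simp only [g, cx, Complex.sub_re, Complex.sub_im]
  ring

theorem g_two (a : ZMod 3 → ℂ) (i : ZMod 3) : g a i (a (i + 2)) = 0 := by
  simp only [g, cx, Complex.sub_re, Complex.sub_im]
  ring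

theorem g_aff (a : ZMod 3 → ℂ) (i : ZMod 3) (y z : ℂ) (s t : ℝ) (h : s + t = 1) :
    g a i (s • y + t • z) = s * g a i y + t * g a i z := by
  have hs : s = 1 - t := by linarith
  subst hs
  simp only [g, cx, Complex.sub_re, Complex.sub_im, Complex.add_re, Complex.add_im,
    Complex.real_smul, Complex.mul_re, Complex.mul_im, Complex.ofReal_re, Complex.ofReal_im]
  ring

theorem g_cont (a : ZMod 3 → ℂ) (i : ZMod 3) : Continuous (g a i) := by
  unfold g cx
  fun_prop

theorem mem_tri (a : ZMod 3 → ℂ) (y : ℂ) : y ∈ tri a ↔ ∀ i, 0 < g a i y := Iff.rfl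

theorem conv (a : ZMod 3 → ℂ) : Convex ℝ (tri a) := by
  intro y hy z hz s t hs ht hst i
  show 0 < g a i (s • y + t • z)
  rw [g_aff a i y z s t hst]
  have h1 := (mem_tri a y).1 hy i
  have h2 := (mem_tri a z).1 hz i
  rcases hs.eq_or_lt with rfl | hs'
  · have : t = 1 := by linarith
    subst this
    linarith
  · have h3 := mul_pos hs' h1
    have h4 := mul_nonneg ht h2.le
    linarith

theorem isOp (a : ZMod 3 → ℂ) : IsOpen (tri a) := by
  have h : tri a = ⋂ i, {y | 0 < g a i y} := by
    ext y
    simp only [mem_iInter, mem_ofPred_eq]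
    exact mem_tri a y
  rw [h]
  exact isOpen_iInter_of_finite fun i => isOpen_lt continuous_const (g_cont a i)

/-- the centroid -/
theorem cent (a : ZMod 3 → ℂ) (h : 0 < ar a) : (a 0 + a 1 + a 2) / 3 ∈ tri a := by
  rw [mem_tri]
  intro i
  have e : g a i ((a 0 + a 1 + a 2) / 3) = ar a / 3 := by
    have h3 : (a 0 + a 1 + a 2) / 3 = ((1 / 3 : ℝ) : ℂ) * (a 0 + a 1 + a 2) := by
      push_cast
      ring
    rw [h3]
    rcases fin3 i with rfl | rfl | rfl <;>
      simp only [e02, e01, e12, e11, e22, e21, g, ar, cx, Complex.sub_re, Complex.sub_im,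
        Complex.mul_re, Complex.mul_im, Complex.add_re, Complex.add_im, Complex.ofReal_re,
        Complex.ofReal_im] <;> ring
  rw [e]
  linarith

theorem clos (a : ZMod 3 → ℂ) (h : 0 < ar a) : closure (tri a) = {y | ∀ i, 0 ≤ g a i y} := by
  apply subset_antisymm
  · refine closure_minimal (fun y hy i => ((mem_tri a y).1 hy i).le) ?_
    have e : {y | ∀ i, 0 ≤ g a i y} = ⋂ i, {y | 0 ≤ g a i y} := by
      ext y
      simp only [mem_iInter, mem_ofPred_eq]
    rw [e]
    exact isClosed_iInter fun i => isClosed_le continuous_const (g_cont a i)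
  · intro y hy
    obtain ⟨c, hc⟩ : ∃ c, c ∈ tri a := ⟨_, cent a h⟩
    have hlim : Filter.Tendsto (fun t : ℝ => (1 - t) • y + t • c) (nhdsWithin 0 (Ioi 0)) (nhds y) := by
      have h1 : Continuous (fun t : ℝ => (1 - t) • y + t • c) := by fun_prop
      have h2 := (h1.tendsto 0).mono_left (nhdsWithin_le_nhds (s := Ioi 0))
      simpa using h2
    refine mem_closure_of_tendsto hlim ?_
    filter_upwards [Ioo_mem_nhdsGT (zero_lt_one' ℝ)] with t ht
    rw [mem_tri]
    intro i
    rw [g_aff a i y c (1 - t) t (by ring)]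
    have h1 : 0 ≤ g a i y := hy i
    have h2 := (mem_tri a c).1 hc i
    have h3 := mul_nonneg (sub_nonneg.2 ht.2.le) h1
    have h4 := mul_pos ht.1 h2
    linarith

end TriP

open TriP in
theorem p_TRI : Sp_TRI := by
  intro a ha
  have hA : 0 < ar a := ha
  have hA0 : (ar a : ℂ) ≠ 0 := by exact_mod_cast hA.ne'
  have hcl := clos a hA
  have e3 : ∀ i : ZMod 3, i + 1 + 2 = i ∧ i + 2 + 1 = i ∧ i + 1 + 1 = i + 2 ∧ i + 2 + 2 = i + 1 := by
    decide
  refine ⟨⟨isOp a, conv a, _, cent a hA⟩, ?_, hcl, ?_, ?_, ?_, ?_⟩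
  · -- (2)
    intro i
    have h1 : cx (a (i + 1) - a i) (a (i + 2) - a i) = ar a := by
      rcases fin3 i with rfl | rfl | rfl <;>
        simp only [e02, e01, e12, e11, e22, e21, ar, cx, Complex.sub_re, Complex.sub_im] <;> ring
    rw [h1]
    exact hA
  · -- (4)
    intro y hy hy'
    rw [hcl] at hy
    have h1 : ∃ i, ¬ 0 < g a i y := by
      by_contra hc
      push Not at hc
      exact hy' ((mem_tri a y).2 hc)
    obtain ⟨i, hi⟩ := h1
    have h0 : ∀ j, 0 ≤ g a j y := hy
    have hi0 : g a i y = 0 := le_antisymm (not_lt.1 hi) (h0 i)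
    refine ⟨i, g a (i + 1) y / ar a, g a (i + 2) y / ar a, div_nonneg (h0 _) hA.le,
      div_nonneg (h0 _) hA.le, ?_, ?_⟩
    · have h2 := sum_g a i y
      rw [hi0, zero_add] at h2
      rw [← add_div, h2, div_self hA.ne']
    · have h2 := comb_g a i y
      rw [hi0, Complex.ofReal_zero, zero_mul, zero_add] at h2
      rw [Complex.real_smul, Complex.real_smul]
      push_cast
      field_simp
      rw [← h2]
  · -- (5)
    intro i
    have hv : ∀ i, a i ∈ closure (tri a) := by
      intro i
      rw [hcl]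
      intro j
      have hj : j = i ∨ i = j + 1 ∨ i = j + 2 := cover' i j
      rcases hj with rfl | rfl | rfl
      · show 0 ≤ g a j (a j)
        rw [g_self]
        exact hA.le
      · exact (g_one a j).ge
      · exact (g_two a j).ge
    refine ⟨hv i, (conv a).closure.segment_subset (hv _) (hv _), ?_⟩
    rw [Set.disjoint_left]
    rintro y ⟨s, t, hs, ht, hst, rfl⟩ hy
    have h1 := (mem_tri a _).1 hy i
    rw [g_aff a i _ _ s t hst, g_one, g_two] at h1
    simp at h1
  · -- (6)
    rintro i z ⟨s, t, hs, ht, hst, rfl⟩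
    have h1 : 0 < g a (i + 1) (s • a (i + 1) + t • a (i + 2)) := by
      rw [g_aff a _ _ _ s t hst, g_self]
      have h2 : g a (i + 1) (a (i + 2)) = 0 := by
        have := g_one a (i + 1)
        rwa [(e3 i).2.2.1] at this
      rw [h2, mul_zero, add_zero]
      exact mul_pos hs hA
    have h2 : 0 < g a (i + 2) (s • a (i + 1) + t • a (i + 2)) := by
      rw [g_aff a _ _ _ s t hst, g_self]
      have h3 : g a (i + 2) (a (i + 1)) = 0 := by
        have := g_two a (i + 2)
        rwa [(e3 i).2.2.2] at this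
      rw [h3, mul_zero, zero_add]
      exact mul_pos ht hA
    have hop : IsOpen {y | 0 < g a (i + 1) y ∧ 0 < g a (i + 2) y} :=
      (isOpen_lt continuous_const (g_cont a _)).inter (isOpen_lt continuous_const (g_cont a _))
    obtain ⟨ρ, hρ, hb⟩ := Metric.isOpen_iff.1 hop _ ⟨h1, h2⟩
    refine ⟨ρ, hρ, fun y hy hy0 => ?_⟩
    rw [mem_tri]
    intro j
    have hj : j = i ∨ j = i + 1 ∨ j = i + 2 := cover i j
    rcases hj with rfl | rfl | rfl
    · exact hy0
    · exact (hb hy).1
    · exact (hb hy).2
  · -- (7)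
    intro y
    constructor
    · intro hy
      have h0 := (mem_tri a y).1 hy
      refine ⟨g a 1 y / ar a, g a 2 y / ar a, div_pos (h0 1) hA, div_pos (h0 2) hA, ?_, ?_⟩
      · rw [← add_div, div_lt_one hA]
        have h1 := sum_g a 0 y
        rw [e01, e02] at h1
        have h2 := h0 0
        linarith
      · have h1 := sum_g a 0 y
        have h2 := comb_g a 0 y
        rw [e01, e02] at h1 h2
        have h3 : (g a 0 y : ℂ) + g a 1 y + g a 2 y = ar a := by exact_mod_cast h1
        push_cast
        field_simp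
        linear_combination h2 + a 0 * h3
    · rintro ⟨α, β, hα, hβ, hαβ, rfl⟩
      rw [mem_tri]
      intro i
      rcases fin3 i with rfl | rfl | rfl
      · have e : g a 0 (a 0 + α * (a 1 - a 0) + β * (a 2 - a 0)) = (1 - α - β) * ar a := by
          simp only [e02, e01, g, ar, cx, Complex.sub_re, Complex.sub_im,
            Complex.mul_re, Complex.mul_im, Complex.add_re, Complex.add_im, Complex.ofReal_re,
            Complex.ofReal_im]
          ring
        rw [e]
        exact mul_pos (by linarith) hA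
      · have e : g a 1 (a 0 + α * (a 1 - a 0) + β * (a 2 - a 0)) = α * ar a := by
          simp only [e12, e11, g, ar, cx, Complex.sub_re, Complex.sub_im,
            Complex.mul_re, Complex.mul_im, Complex.add_re, Complex.add_im, Complex.ofReal_re,
            Complex.ofReal_im]
          ring
        rw [e]
        exact mul_pos hα hA
      · have e : g a 2 (a 0 + α * (a 1 - a 0) + β * (a 2 - a 0)) = β * ar a := by
          simp only [e22, e21, g, ar, cx, Complex.sub_re, Complex.sub_im,
            Complex.mul_re, Complex.mul_im, Complex.add_re, Complex.add_im, Complex.ofReal_re,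
            Complex.ofReal_im]
          ring
        rw [e]
        exact mul_pos hβ hA

end Pool.Agent.FAN
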