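import Pool.Agent.FAN.StP

/-! FAN, block 6, module VIS (helper11): a run that ends at the apex of the last room folds to a
generalized diagonal. -/

set_option autoImplicit false

open scoped ComplexConjugate
open MeasureTheory Set Metric
open Pool.Agent.Billiard Pool.Agent.Lib_helper45

namespace Pool.Agent.FAN

theorem p_VIS (hF : Sp_FLD) (hA : Sp_APX) (hE : Sa_EXU) (hT : Sa_TIM) : Sp_VIS := by
  intro P D js
  obtain ⟨f1, f2, f3, f4, f5⟩ := hF P D
  obtain ⟨-, e2, -⟩ := hE D.dbl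
  obtain ⟨t1, -, -, t4, t5, -, -, t8, -⟩ := hT D.dbl
  induction js with
  | nil =>
    intro q x v i hen _ hV
    have hV' : q.V i = x + v := hV
    obtain ⟨h1, h2⟩ := (hA D.dbl).1 q x v i hen hV'
    refine ⟨[], h1, ?_, ?_⟩
    · rw [← f2, Complex.ofReal_one, one_mul, ← hV', f1]
      rfl
    · intro τ hτ
      rw [← f2]
      exact f3 q _ (h2 τ hτ)
  | cons j js ih =>
    intro q x v i hen hrun hV
    obtain ⟨hex, hrun'⟩ := hrun
    have hen' : (q.nx j).En x v (q.en j) := (e2 q x v j).1 hex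
    obtain ⟨W, hW⟩ := ih (q.nx j) x v (q.en j) hen' hrun' hV
    rw [t1 q x v j] at hW
    have hlt : q.ct x v i < q.ct x v j := t4 q x v i j hen hex
    have hin : ∀ τ ∈ Ioo (q.ct x v i) (q.ct x v j), D.fo q x + (τ : ℝ) * D.fl q v ∈ Bil.U P := by
      intro τ hτ
      rw [← f2]
      exact f3 q _ (t5 q x v i j τ hen hex hτ.1 hτ.2)
    have hseg : x + q.ct x v j * v ∈ openSegment ℝ (q.V (j + 1)) (q.V (j + 2)) := by
      obtain ⟨l, hl0, hl1, hl⟩ := t8 q x v j (Or.inl hex)
      refine ⟨1 - l, l, by linarith, hl0, by ring, ?_⟩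
      rw [hl, Complex.real_smul, Complex.real_smul]
      push_cast
      ring
    by_cases hs : D.sde q j
    · obtain ⟨a, g1, g2, g3⟩ := f5 q j hs
      refine ⟨a :: W, q.ct x v j, hlt, hin, ?_, ?_⟩
      · rw [← f2]
        exact g3 _ hseg
      · rw [← g1, ← g2]
        exact hW
    · obtain ⟨g1, g2, g3⟩ := f4 q j hs
      rw [g1, g2] at hW
      refine ⟨W, hW.start_earlier hlt.le ?_⟩
      intro τ hτ
      rcases lt_or_eq_of_le hτ.2 with h | h
      · exact hin τ ⟨hτ.1, h⟩
      · rw [h, ← f2]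
        exact g3 _ hseg

end Pool.Agent.FAN
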