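import Pool.Agent.FAN.Base3
import Pool.Agent.FAN.A_TIM
import Pool.Agent.FAN.P_NET
import Pool.Agent.FAN.P_EDG
import Pool.Agent.FAN.P_DNS
import Pool.Agent.FAN.P_CMP
import Pool.Agent.FAN.P_LEX
import Pool.Agent.FAN.P_SEC
import Pool.Agent.FAN.P_NVX
import Pool.Agent.FAN.P_TRI
import Pool.Agent.FAN.P_TRG
import Pool.Agent.FAN.P_COV
import Pool.Agent.FAN.P_OVL
import Pool.Agent.FAN.P_NBR
import Pool.Agent.FAN.P_APX
import Pool.Agent.FAN.P_FLD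
import Pool.Agent.FAN.P_VIS
import Pool.Agent.FAN.P_DEV
import Pool.Agent.FAN.P_GDV
import Pool.Agent.FAN.P_INJ
import Pool.Agent.FAN.P_POL
import Pool.Agent.FAN.P_FIN
import Pool.Agent.FAN.P_CON
import Pool.Agent.FAN.P_TDX
import Pool.Agent.FAN.PGen

/-!
# FAN, block 6: assembly (helper63)
-/

set_option autoImplicit false

namespace Pool.Agent.FAN

theorem p_pol_all : Sp_POL := by
  have hTIM : Sa_TIM := m_TIM m_GLU m_ORI m_EXU
  have hCMP : Sp_CMP := p_CMP p_EDG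
  have hCON : Sp_CON := p_CON p_EDG hCMP
  have hCOV : Sp_COV := p_COV hCMP (p_LEX p_EDG hCMP) (p_SEC p_EDG hCMP hCON)
    (p_TRG p_EDG hCMP (p_NVX p_EDG) p_TRI) p_TRI
  have hOVL : Sp_OVL := p_OVL p_EDG p_TRI
  have hNBR : Sp_NBR := p_NBR p_EDG p_TRI hCOV hOVL
  have hVIS : Sp_VIS := p_VIS p_FLD p_APX m_EXU hTIM
  exact p_POL (p_TDX p_NET p_DNS hCOV hOVL hNBR) (p_GDV p_FLD p_APX hVIS p_DEV m_EXU hTIM)
    (p_INJ m_EXU)

/-- Block 6: the theorem follows from block 5 (`Sx_low`) and blocks 1 - 4 (`Sx_edn`). -/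
theorem p_fin_all (hlow : Sx_low) (hedn : Sx_edn) : Sp_FIN := p_FIN hlow hedn p_pol_all

end Pool.Agent.FAN
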