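import Pool.Agent.FAN.KAll
import Pool.Agent.FAN.PAll
import Pool.Agent.FAN.A_CLS
import Pool.Agent.FAN.A_CLV
import Pool.Agent.FAN.A_CTS
import Pool.Agent.FAN.A_DIA
import Pool.Agent.FAN.A_ENT
import Pool.Agent.FAN.A_LEN
import Pool.Agent.FAN.A_PWR
import Pool.Agent.FAN.A_UNI
import Pool.Agent.FAN.F_ARC
import Pool.Agent.FAN.F_BB0
import Pool.Agent.FAN.F_CRT
import Pool.Agent.FAN.F_DER
import Pool.Agent.FAN.F_FANF
import Pool.Agent.FAN.F_FAR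
import Pool.Agent.FAN.F_FNI
import Pool.Agent.FAN.F_FSUM
import Pool.Agent.FAN.F_INT
import Pool.Agent.FAN.F_LIP
import Pool.Agent.FAN.F_NHC
import Pool.Agent.FAN.F_NODE
import Pool.Agent.FAN.F_OML
import Pool.Agent.FAN.F_ONA
import Pool.Agent.FAN.F_ONB
import Pool.Agent.FAN.F_ONC
import Pool.Agent.FAN.F_ONE
import Pool.Agent.FAN.F_PTL
import Pool.Agent.FAN.F_PTW
import Pool.Agent.FAN.F_STP
import Pool.Agent.FAN.F_TMB
import Pool.Agent.FAN.F_TWO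
import Pool.Agent.FAN.F_WDP
import Pool.Agent.FAN.M_BND
import Pool.Agent.FAN.M_EDI
import Pool.Agent.FAN.M_EDN
import Pool.Agent.FAN.M_EXI
import Pool.Agent.FAN.M_GRO
import Pool.Agent.FAN.M_MEA
import Pool.Agent.FAN.M_MON
import Pool.Agent.FAN.M_OPN
import Pool.Agent.FAN.M_PHA
import Pool.Agent.FAN.M_SH1
import Pool.Agent.FAN.M_SHF
import Pool.Agent.FAN.M_SIG
import Pool.Agent.FAN.M_SYM
import Pool.Agent.FAN.M_TO1
import Pool.Agent.FAN.M_TON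

/-!
# FAN: total assembly, `F_P(n) ≥ c n^(13/6)` for every polygon (helper63)
-/

set_option autoImplicit false

open Pool.Agent.Billiard

namespace Pool.Agent.FAN

/-- Blocks 1 - 4: the expected clearance decays. -/
theorem edn_all : Sm_EDN := by
  have hTIM : Sa_TIM := m_TIM m_GLU m_ORI m_EXU
  have hCTS : Sa_CTS := m_CTS m_EXU hTIM
  have hENT : Sa_ENT := m_ENT m_EXU hTIM hCTS
  have hUNI : Sa_UNI := m_UNI m_EXU hTIM hCTS
  have hCLS : Sa_CLS := m_CLS m_GLU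
  have hCLV : Sa_CLV := m_CLV
  have hDIA : Sa_DIA := m_DIA hTIM
  have hLEN : Sa_LEN := m_LEN m_GLU m_ORI m_EXU hTIM
  have hPWR : Sa_PWR := m_PWR m_MOV m_REV hUNI
  have hFAR : Sf_FAR := f_FAR m_EXU hTIM hCTS hENT hCLS
  have hOML : Sf_OML := f_OML m_GLU m_EXU hCTS hENT hCLV f_CRT
  have hFNI : Sf_FNI := f_FNI f_LIP hOML
  have hNHC : Sf_NHC := f_NHC hTIM hCTS hENT
  have hONE : Sf_ONE := f_ONE f_ONA f_ONB f_ONC
  have hTWO : Sf_TWO := f_TWO f_ONA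
  have hNODE : Sf_NODE := f_NODE hCLV hCLS f_LIP hOML hFAR hONE hTWO
  have hWDP : Sf_WDP := f_WDP m_EXU hTIM hENT
  have hTMB : Sf_TMB := f_TMB hLEN hCTS hENT hWDP
  have hDER : Sf_DER := f_DER hCLV
  have hPTL : Sf_PTL := f_PTL hUNI hDER hWDP f_STP
  have hPTW : Sf_PTW := f_PTW hUNI hCLV hCLS hFAR hWDP hTMB f_STP
  have hFSUM : Sf_FSUM := f_FSUM hCLV f_ARC (f_INT hCLV) hNHC hWDP
  have hOPN : Sm_OPN := g_OPN hDIA
  have hMEA : Sm_MEA := g_MEA hOPN hUNI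
  have hBND : Sm_BND := g_BND hUNI hCTS hCLV
  have hEXI : Sm_EXI := g_EXI hNHC hWDP hTMB
  have hMON : Sm_MON := g_MON hUNI m_EXU hTIM hCTS
  have hTO1 : Sm_TO1 := g_TO1 hOPN
  have hTON : Sm_TON := g_TON hOPN hTO1
  have hSIG : Sm_SIG := g_SIG m_MOV m_REV
  have hSH1 : Sm_SH1 := g_SH1 hPWR hSIG
  have hSHF : Sm_SHF := g_SHF hUNI hOPN hSIG hSH1
  have hSYM : Sm_SYM := g_SYM hDIA hPWR hMEA hBND hSHF hOPN
  have hPHA : Sm_PHA := g_PHA hDIA hMEA hBND hEXI hMON hTO1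
  have hFANF : Sf_FANF := f_FANF hDIA f_LIP hNODE hNHC hTMB hFSUM hFNI f_BB0 hPTW hPTL hMEA hBND
  exact g_EDN (g_EDI hFANF hDIA hMEA hBND hTON hSYM hPHA hOPN) hPHA g_GRO

/-- The full complexity of the billiard in an arbitrary polygon grows at least like `n ^ (13 / 6)`. -/
theorem fan_final (P : Polygon) : ∃ c : ℝ, 0 < c ∧ ∀ n : ℕ, 1 ≤ n →
    c * (n : ℝ) ^ (13 / 6 : ℝ) ≤ P.complexity n := by
  have hlow : Sx_low := by
    intro S r₀ i₀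
    obtain ⟨c, n₀, hc, h⟩ := k_low_all S r₀ i₀
    exact ⟨c, hc, n₀, fun n hn => h n hn⟩
  have hedn : Sx_edn := by
    intro S
    obtain ⟨C, -, h⟩ := edn_all S
    exact ⟨C, h⟩
  exact p_fin_all hlow hedn P

end Pool.Agent.FAN
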