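import Pool.Agent.FAN.StK

/-!
# FAN, block 5: ABS (helper16). Abstract change of variables.
-/

set_option autoImplicit false

open scoped ComplexConjugate
open MeasureTheory Set

namespace Pool.Agent.FAN

private theorem kabs_ev_add (x y : ℝ) : ev (x + y) = ev x * ev y := by
  apply Complex.ext
  · simp [ev, Real.cos_add]
  · simp [ev, Real.sin_add]; ring

private theorem kabs_ev_int (k : ℤ) : ev (2 * Real.pi * k) = 1 := by
  have h1 : (2 * Real.pi * (k : ℝ)) = k * (2 * Real.pi) := by ring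
  apply Complex.ext
  · simp only [ev, Complex.one_re]
    rw [h1]; exact Real.cos_int_mul_two_pi k
  · simp only [ev, Complex.one_im]
    have h2 : (2 * Real.pi * (k : ℝ)) = ((2 * k : ℤ) : ℝ) * Real.pi := by push_cast; ring
    rw [h2]; exact Real.sin_int_mul_pi (2 * k)

private theorem kabs_ev_arg (a : ℂ) (ha : ‖a‖ = 1) : ev (Complex.arg a) = a := by
  have ha0 : a ≠ 0 := by
    intro h; rw [h, norm_zero] at ha; exact zero_ne_one ha
  apply Complex.ext
  · simp only [ev]
    rw [Complex.cos_arg ha0, ha, div_one]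
  · simp only [ev]
    rw [Complex.sin_arg, ha, div_one]

/-- the rigid motion `x ↦ a x + b` preserves the area -/
private theorem kabs_mp (a b : ℂ) (ha : ‖a‖ = 1) :
    MeasurePreserving (fun x : ℂ => a * x + b) (volume : Measure ℂ) (volume : Measure ℂ) := by
  have h1 : MeasurePreserving (fun x : ℂ => a * x) (volume : Measure ℂ) (volume : Measure ℂ) := by
    have h2 := (rotation (⟨a, by simpa [Submonoid.unitSphere] using ha⟩ : Circle)).measurePreserving
    have h3 : (fun x : ℂ => a * x) =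
        ⇑(rotation (⟨a, by simpa [Submonoid.unitSphere] using ha⟩ : Circle)) := by
      funext x
      rw [rotation_apply]
    rw [h3]
    exact h2
  exact (measurePreserving_add_right volume b).comp h1

private theorem kabs_mp2 (c : ℝ) (a b : ℂ) (ha : ‖a‖ = 1) :
    MeasurePreserving (fun p : ℝ × ℂ => ((p.1 + c, a * p.2 + b) : ℝ × ℂ))
      (volume : Measure (ℝ × ℂ)) (volume : Measure (ℝ × ℂ)) := by
  rw [Measure.volume_eq_prod]
  exact (measurePreserving_add_right volume c).prod (kabs_mp a b ha)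

/-- one summand: the pieces of `B` -/
private theorem kabs_split (α : ℝ) (a b : ℂ) (ha : ‖a‖ = 1) (B : Set (ℝ × ℂ))
    (hB : MeasurableSet B) :
    volume B = ∑' k : ℤ, volume {p : ℝ × ℂ | p.1 ∈ Ioc 0 (2 * Real.pi) ∧
      ((p.1 + (α + 2 * Real.pi * k), a * p.2 + b) : ℝ × ℂ) ∈ B} := by
  have h2pi : (0 : ℝ) < 2 * Real.pi := by positivity
  set s : ℤ → Set (ℝ × ℂ) := fun k =>
    B ∩ {p | p.1 - (α + 2 * Real.pi * k) ∈ Ioc 0 (2 * Real.pi)} with hs
  have hsm : ∀ k, MeasurableSet (s k) := fun k =>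
    hB.inter ((measurable_fst.sub_const _) measurableSet_Ioc)
  have hunion : ⋃ k, s k = B := by
    apply Subset.antisymm
    · exact iUnion_subset fun k => inter_subset_left
    · intro p hp
      obtain ⟨k, hk, -⟩ := existsUnique_sub_zsmul_mem_Ioc h2pi (p.1 - α) 0
      refine mem_iUnion.2 ⟨k, hp, ?_⟩
      show p.1 - (α + 2 * Real.pi * k) ∈ Ioc 0 (2 * Real.pi)
      rw [zero_add, zsmul_eq_mul] at hk
      have e : p.1 - (α + 2 * Real.pi * k) = p.1 - α - k * (2 * Real.pi) := by ring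
      rw [e]; exact hk
  have hdisj : Pairwise (Function.onFun Disjoint s) := by
    intro k l hkl
    rw [Function.onFun, Set.disjoint_left]
    rintro p ⟨-, hk⟩ ⟨-, hl⟩
    apply hkl
    have hu := existsUnique_sub_zsmul_mem_Ioc h2pi (p.1 - α) 0
    refine hu.unique ?_ ?_
    · show p.1 - α - k • (2 * Real.pi) ∈ Ioc 0 (0 + 2 * Real.pi)
      have e : p.1 - α - k • (2 * Real.pi) = p.1 - (α + 2 * Real.pi * k) := by
        rw [zsmul_eq_mul]; ring
      rw [e, zero_add]; exact hk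
    · show p.1 - α - l • (2 * Real.pi) ∈ Ioc 0 (0 + 2 * Real.pi)
      have e : p.1 - α - l • (2 * Real.pi) = p.1 - (α + 2 * Real.pi * l) := by
        rw [zsmul_eq_mul]; ring
      rw [e, zero_add]; exact hl
  rw [← hunion, measure_iUnion hdisj hsm]
  refine tsum_congr fun k => ?_
  rw [← (kabs_mp2 (α + 2 * Real.pi * k) a b ha).measure_preimage (hsm k).nullMeasurableSet]
  congr 1
  ext p
  constructor
  · rintro ⟨h1, h2⟩
    refine ⟨?_, by rw [hunion]; exact h1⟩
    have h3 : p.1 + (α + 2 * Real.pi * k) - (α + 2 * Real.pi * k) ∈ Ioc 0 (2 * Real.pi) := h2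
    rwa [add_sub_cancel_right] at h3
  · rintro ⟨h1, h2⟩
    rw [hunion] at h2
    refine ⟨h2, ?_⟩
    show p.1 + (α + 2 * Real.pi * k) - (α + 2 * Real.pi * k) ∈ Ioc 0 (2 * Real.pi)
    rwa [add_sub_cancel_right]

/-- Markov and Fubini on one room -/
private theorem kabs_markov (M : Set ℂ) (D : ℝ → ℂ → ℝ) (w C : ℝ) (hM : MeasurableSet M)
    (hMf : volume M < ⊤) (hD : Measurable fun p : ℝ × ℂ => D p.1 p.2)
    (hb : ∀ ψ x, 0 ≤ D ψ x ∧ D ψ x ≤ C) :
    ENNReal.ofReal w * volume {p : ℝ × ℂ | p.1 ∈ Ioc 0 (2 * Real.pi) ∧ p.2 ∈ M ∧ w ≤ D p.1 p.2} ≤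
      ENNReal.ofReal (∫ ψ in (0 : ℝ)..(2 * Real.pi), ∫ x in M, D ψ x) := by
  have h2pi : (0 : ℝ) ≤ 2 * Real.pi := by positivity
  set E : Set (ℝ × ℂ) := {p | p.1 ∈ Ioc 0 (2 * Real.pi) ∧ p.2 ∈ M ∧ w ≤ D p.1 p.2} with hE
  have hEm : MeasurableSet E := by
    have h1 : MeasurableSet {p : ℝ × ℂ | p.1 ∈ Ioc 0 (2 * Real.pi)} :=
      measurable_fst measurableSet_Ioc
    have h2 : MeasurableSet {p : ℝ × ℂ | p.2 ∈ M} := measurable_snd hM
    have h3 : MeasurableSet {p : ℝ × ℂ | w ≤ D p.1 p.2} := measurableSet_le measurable_const hD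
    exact h1.inter (h2.inter h3)
  have : IsFiniteMeasure (volume.restrict M) := ⟨by rw [Measure.restrict_apply_univ]; exact hMf⟩
  set μ : Measure (ℝ × ℂ) :=
    (volume.restrict (Ioc 0 (2 * Real.pi))).prod (volume.restrict M) with hμ
  have hμr : μ = (volume : Measure (ℝ × ℂ)).restrict (Ioc 0 (2 * Real.pi) ×ˢ M) := by
    rw [hμ, Measure.prod_restrict, Measure.volume_eq_prod]
  have hint : Integrable (fun p : ℝ × ℂ => D p.1 p.2) μ := by
    refine Integrable.of_bound hD.aestronglyMeasurable C (Filter.Eventually.of_forall fun p => ?_)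
    rw [Real.norm_of_nonneg (hb p.1 p.2).1]
    exact (hb p.1 p.2).2
  have hval : ∫ ψ in (0 : ℝ)..(2 * Real.pi), ∫ x in M, D ψ x = ∫ p, D p.1 p.2 ∂μ := by
    rw [intervalIntegral.integral_of_le h2pi, hμ]
    exact (integral_prod _ hint).symm
  rw [hval, ofReal_integral_eq_lintegral_ofReal hint
    (Filter.Eventually.of_forall fun p => (hb p.1 p.2).1), hμr]
  calc ENNReal.ofReal w * volume E = ∫⁻ _ in E, ENNReal.ofReal w := by
        rw [setLIntegral_const]
    _ ≤ ∫⁻ p in E, ENNReal.ofReal (D p.1 p.2) := by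
        refine setLIntegral_mono (ENNReal.measurable_ofReal.comp hD) fun p hp => ?_
        exact ENNReal.ofReal_le_ofReal hp.2.2
    _ ≤ ∫⁻ p in Ioc 0 (2 * Real.pi) ×ˢ M, ENNReal.ofReal (D p.1 p.2) := by
        exact lintegral_mono_set fun p hp => ⟨hp.1, hp.2.1⟩

theorem m_KABS : Sk_ABS := by
  intro R hR M D w C φ₀ ι hι r a b B hM hMf hD hb hw ha hB hBφ hBM hinj
  classical
  -- the pieces
  set P : R → ι × ℤ → Set (ℝ × ℂ) := fun ρ q =>
    {p | r q.1 = ρ ∧ p.1 ∈ Ioc 0 (2 * Real.pi) ∧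
      ((p.1 + (Complex.arg (a q.1) + 2 * Real.pi * q.2), a q.1 * p.2 + b q.1) : ℝ × ℂ) ∈ B q.1}
    with hP
  have hfun : ∀ (i : ι) (k : ℤ), Measurable fun p : ℝ × ℂ =>
      ((p.1 + (Complex.arg (a i) + 2 * Real.pi * k), a i * p.2 + b i) : ℝ × ℂ) := fun i k =>
    (kabs_mp2 _ (a i) (b i) (ha i)).measurable
  have hPm : ∀ ρ q, MeasurableSet (P ρ q) := by
    intro ρ q
    have h1 : MeasurableSet {p : ℝ × ℂ | p.1 ∈ Ioc 0 (2 * Real.pi)} :=
      measurable_fst measurableSet_Ioc
    exact (MeasurableSet.const _).inter (h1.inter (hfun q.1 q.2 (hB q.1)))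
  -- the key facts on a point of a piece
  have hev : ∀ (i : ι) (k : ℤ) (ψ : ℝ),
      ev (ψ + (Complex.arg (a i) + 2 * Real.pi * k)) / a i = ev ψ := by
    intro i k ψ
    have ha0 : a i ≠ 0 := by
      intro h; have := ha i; rw [h, norm_zero] at this; exact zero_ne_one this
    rw [kabs_ev_add, kabs_ev_add, kabs_ev_int, kabs_ev_arg _ (ha i), mul_one]
    field_simp
  have hxx : ∀ (i : ι) (x : ℂ), (a i * x + b i - b i) / a i = x := by
    intro i x
    have ha0 : a i ≠ 0 := by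
      intro h; have := ha i; rw [h, norm_zero] at this; exact zero_ne_one this
    field_simp
    ring
  have hPE : ∀ ρ q, P ρ q ⊆ {p | p.1 ∈ Ioc 0 (2 * Real.pi) ∧ p.2 ∈ M ρ ∧ w ≤ D ρ p.1 p.2} := by
    rintro ρ ⟨i, k⟩ p ⟨h1, h2, h3⟩
    obtain ⟨h4, h5⟩ := hBM i _ h3
    have h1' : r i = ρ := h1
    simp only [hxx] at h4 h5
    rw [h1'] at h4 h5
    exact ⟨h2, h4, h5 p.1 (hev i k p.1).symm⟩
  have hPd : ∀ ρ, Pairwise (Function.onFun Disjoint (P ρ)) := by
    rintro ρ ⟨i, k⟩ ⟨j, l⟩ hne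
    rw [Function.onFun, Set.disjoint_left]
    rintro p ⟨h1, -, h3⟩ ⟨h1', -, h3'⟩
    apply hne
    have hij : i = j := by
      refine hinj i j _ h3 _ h3' (h1.trans h1'.symm) ?_ ?_
      · simp only [hxx]
      · simp only [hev]
    subst hij
    have h4 := hBφ i _ h3
    have h5 := hBφ i _ h3'
    have hkl : k = l := by
      have hpi := Real.pi_pos
      simp only at h4 h5
      rw [abs_lt] at h4 h5
      have h6 : |((k : ℝ) - l)| < 1 := by
        rw [abs_lt]
        constructor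
        · by_contra hcon
          push Not at hcon
          nlinarith [h4.1, h4.2, h5.1, h5.2]
        · by_contra hcon
          push Not at hcon
          nlinarith [h4.1, h4.2, h5.1, h5.2]
      have h7 : |k - l| < 1 := by
        have : ((|k - l| : ℤ) : ℝ) < 1 := by push_cast; exact h6
        exact_mod_cast this
      have h8 := Int.abs_lt_one_iff.1 h7
      omega
    rw [hkl]
  -- summation
  have hsum : ∑' i, volume (B i) = ∑ ρ, ∑' q : ι × ℤ, volume (P ρ q) := by
    have h1 : ∀ i, volume (B i) = ∑' k : ℤ, ∑ ρ, volume (P ρ (i, k)) := by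
      intro i
      rw [kabs_split (Complex.arg (a i)) (a i) (b i) (ha i) (B i) (hB i)]
      refine tsum_congr fun k => ?_
      rw [Finset.sum_eq_single (r i)]
      · congr 1
        ext p
        exact ⟨fun h => ⟨rfl, h⟩, fun h => h.2⟩
      · intro ρ _ hρ
        have : P ρ (i, k) = ∅ := by
          ext p
          constructor
          · rintro ⟨h, -⟩; exact absurd h.symm hρ
          · intro h; exact absurd h (Set.notMem_empty _)
        rw [this, measure_empty]
      · intro h; exact absurd (Finset.mem_univ _) h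
    calc ∑' i, volume (B i) = ∑' i, ∑' k : ℤ, ∑ ρ, volume (P ρ (i, k)) := tsum_congr h1
      _ = ∑' q : ι × ℤ, ∑ ρ, volume (P ρ q) := (ENNReal.tsum_prod (f := fun i k => ∑ ρ, volume (P ρ (i, k)))).symm
      _ = ∑' q : ι × ℤ, ∑' ρ, volume (P ρ q) := by
          refine tsum_congr fun q => ?_
          rw [tsum_fintype]
      _ = ∑' ρ, ∑' q : ι × ℤ, volume (P ρ q) := ENNReal.tsum_comm
      _ = ∑ ρ, ∑' q : ι × ℤ, volume (P ρ q) := by rw [tsum_fintype]
  rw [hsum, Finset.mul_sum, ENNReal.ofReal_sum_of_nonneg]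
  · refine Finset.sum_le_sum fun ρ _ => ?_
    rw [← measure_iUnion (hPd ρ) (hPm ρ)]
    refine le_trans (mul_le_mul' le_rfl (measure_mono (iUnion_subset (hPE ρ)))) ?_
    exact kabs_markov (M ρ) (D ρ) w C (hM ρ) (hMf ρ) (hD ρ) (hb ρ)
  · intro ρ _
    refine intervalIntegral.integral_nonneg (by positivity) fun ψ _ => ?_
    exact integral_nonneg fun x => (hb ρ ψ x).1

end Pool.Agent.FAN
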