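import Pool.Agent.FAN.StK
import Pool.Agent.FAN.Base

/-!
# FAN, block 5: COV (helper19). The good rectangle is covered up to a null set.
-/

set_option autoImplicit false

open scoped ComplexConjugate
open MeasureTheory Set

namespace Pool.Agent.FAN

theorem m_KCOV (h1 : Sk_EXI) (h2 : Sk_NUL) (h3 : Sk_RCT) : Sk_COV := by
  intro S r₀ i₀ K n σ φ hG
  obtain ⟨hσ0, hσρ, hφ, hn, hgd⟩ := id hG
  have hσ1 : σ ≤ 1 := by have := K.ρ1; have := K.ρ0; linarith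
  have hsin : 0 ≤ Real.sin σ :=
    Real.sin_nonneg_of_nonneg_of_le_pi hσ0.le (by have := Real.pi_gt_three; linarith)
  have hx : 0 ≤ K.h * Real.sin σ / 4 := by
    have := mul_nonneg K.h0.le hsin
    linarith
  have hn0 : 0 ≤ n := by have := K.D1; linarith
  have hr := h3 (S.P r₀ i₀) (ev φ) (K.h * Real.sin σ / 4) (n / 2) (3 * n / 4) (norm_ev φ) hx
    (by linarith)
  have e1 : 2 * (K.h * Real.sin σ / 4) * (3 * n / 4 - n / 2) =
      2 * (K.h * Real.sin σ / 4) * (n / 4) := by ring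
  rw [e1] at hr
  rw [← hr]
  have hnull : volume (ngl S r₀) = 0 := h2 S r₀
  have hnull2 : volume {y : ℂ | y + (n / 4 : ℝ) * ev φ ∈ ngl S r₀} = 0 := by
    have h4 := measure_preimage_add_right (volume : Measure ℂ) ((n / 4 : ℝ) * ev φ) (ngl S r₀)
    rw [hnull] at h4
    exact h4
  set A : Set ℂ := {y : ℂ | |cx (ev φ) (y - S.P r₀ i₀)| ≤ K.h * Real.sin σ / 4 ∧
    n / 2 ≤ dt (ev φ) (y - S.P r₀ i₀) ∧ dt (ev φ) (y - S.P r₀ i₀) ≤ 3 * n / 4} with hA
  set B : Set ℂ := {y : ℂ | ∃ js js', Bs K n σ φ y js ∧ Ws S r₀ n φ y js js'} with hB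
  have hsub : A ⊆ B ∪ (ngl S r₀ ∪ {y : ℂ | y + (n / 4 : ℝ) * ev φ ∈ ngl S r₀}) := by
    intro y hy
    by_cases ha : y ∈ ngl S r₀
    · exact Or.inr (Or.inl ha)
    by_cases hb : y + (n / 4 : ℝ) * ev φ ∈ ngl S r₀
    · exact Or.inr (Or.inr hb)
    exact Or.inl (h1 S r₀ i₀ K n σ φ y hG hy.1 hy.2.1 hy.2.2 ha hb)
  calc volume A ≤ volume (B ∪ (ngl S r₀ ∪ {y : ℂ | y + (n / 4 : ℝ) * ev φ ∈ ngl S r₀})) :=
        measure_mono hsub
    _ ≤ volume B + volume (ngl S r₀ ∪ {y : ℂ | y + (n / 4 : ℝ) * ev φ ∈ ngl S r₀}) :=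
        measure_union_le _ _
    _ ≤ volume B + (volume (ngl S r₀) + volume {y : ℂ | y + (n / 4 : ℝ) * ev φ ∈ ngl S r₀}) := by
        gcongr
        exact measure_union_le _ _
    _ = volume B := by rw [hnull, hnull2, add_zero, add_zero]

end Pool.Agent.FAN
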