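import Pool.Agent.FAN.StK
import Pool.Agent.FAN.Base2
import Pool.Agent.FAN.A_TIM
import Pool.Agent.FAN.A_DIA

/-!
# FAN, block 5: CST (helper16). The constants of block 5 exist.
-/

set_option autoImplicit false

open scoped ComplexConjugate
open MeasureTheory Set

namespace Pool.Agent.FAN

theorem m_KCST (h1 : Sk_DIR) : Sk_CST := by
  intro S r₀ i₀
  obtain ⟨φ₀, ρ, hρ0, hρ1, harc⟩ := h1 S r₀ i₀
  obtain ⟨D₀, h₀, hD1, hh0, hd1, hd2, hd3, hd4⟩ := m_DIA (m_TIM m_GLU m_ORI m_EXU) S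
  exact ⟨{ D := D₀, h := min h₀ D₀, φ₀ := φ₀, ρ := ρ, D1 := hD1,
           h0 := lt_min hh0 (lt_of_lt_of_le one_pos hD1), hD := min_le_right _ _,
           ρ0 := hρ0, ρ1 := hρ1, arc := harc, dia1 := hd1, dia2 := hd2, dia3 := hd3,
           alt := fun q v i hv hx => le_trans (min_le_left _ _) (hd4 q v i hv hx) }⟩

end Pool.Agent.FAN
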