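import Pool.Agent.FAN.StK
import Pool.Agent.FAN.Base2

/-!
# FAN, block 5: DIR (helper70)
-/

set_option autoImplicit false

open scoped ComplexConjugate
open MeasureTheory Set

namespace Pool.Agent.FAN

private theorem kdir_cont (p : ℂ) : Continuous fun φ : ℝ => cx (ev φ) p := by
  unfold cx ev
  fun_prop

private theorem kdir_ev (w : ℂ) (p : ℂ) : ‖w‖ * cx (ev (Complex.arg w)) p = cx w p := by
  have h1 : w.re = ‖w‖ * Real.cos (Complex.arg w) := (Complex.norm_mul_cos_arg w).symm
  have h2 : w.im = ‖w‖ * Real.sin (Complex.arg w) := (Complex.norm_mul_sin_arg w).symm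
  have h3 : cx w p = w.re * p.im - w.im * p.re := rfl
  rw [h3, h1, h2]
  unfold cx ev
  ring

theorem m_KDIR : Sk_DIR := by
  intro S r₀ i₀
  have ho := m_ORI S (Pl.home S r₀) i₀
  set A : ℂ := S.P r₀ i₀ with hA
  have hVA : (Pl.home S r₀).V i₀ = A := by
    simp [Pl.V, Pl.home, hA]
  rw [hVA] at ho
  set a : ℂ := (Pl.home S r₀).V (i₀ + 1) - A with ha
  set b : ℂ := (Pl.home S r₀).V (i₀ + 2) - A with hb
  set w : ℂ := a + b with hw
  have h1 : 0 < cx w b := by
    have : cx w b = cx a b := by
      rw [hw]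
      unfold cx
      rw [Complex.add_re, Complex.add_im]
      ring
    rw [this]
    exact ho
  have h2 : cx w a < 0 := by
    have : cx w a = - cx a b := by
      rw [hw]
      unfold cx
      rw [Complex.add_re, Complex.add_im]
      ring
    rw [this]
    linarith
  have hw0 : 0 < ‖w‖ := by
    rw [norm_pos_iff]
    intro h
    rw [h] at h1
    simp [cx] at h1
  have h3 : 0 < cx (ev (Complex.arg w)) b := by
    have := kdir_ev w b
    by_contra hc
    have := mul_nonpos_of_nonneg_of_nonpos hw0.le (not_lt.1 hc)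
    linarith
  have h4 : cx (ev (Complex.arg w)) a < 0 := by
    have := kdir_ev w a
    by_contra hc
    have := mul_nonneg hw0.le (not_lt.1 hc)
    linarith
  have e1 : ∀ᶠ φ in nhds (Complex.arg w), 0 < cx (ev φ) b :=
    (kdir_cont b).continuousAt.eventually (lt_mem_nhds h3)
  have e2 : ∀ᶠ φ in nhds (Complex.arg w), cx (ev φ) a < 0 :=
    (kdir_cont a).continuousAt.eventually (gt_mem_nhds h4)
  obtain ⟨ε, hε, hball⟩ := Metric.nhds_basis_closedBall.eventually_iff.1 (e1.and e2)
  refine ⟨Complex.arg w, min ε 1, lt_min hε one_pos, min_le_right _ _, fun φ hφ => ?_⟩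
  have h5 := hball (x := φ) (by
    rw [Metric.mem_closedBall, Real.dist_eq]
    exact hφ.trans (min_le_left _ _))
  exact h5

end Pool.Agent.FAN
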