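import Pool.Agent.FAN.K_FLO
import Pool.Agent.FAN.Base3

/-!
# Existence of the words (module FANK_EXI, helper55)
-/

set_option autoImplicit false

open MeasureTheory Set

namespace Pool.Agent.FAN

private theorem kexi_ngl {S : TriSys} {r₀ : S.R} {x v : ℂ} {τ : ℝ} {js : List (ZMod 3)}
    (hr : Run (Pl.home S r₀) x v js) (ht : τ ∈ cts (Pl.home S r₀) x v js) :
    x + τ * v ∈ ngl S r₀ := by
  obtain ⟨js₁, j, js₂, h1, h2⟩ := (mem_cts js _ x v τ).1 ht
  rw [h1] at hr
  have h3 := ((Run_append js₁ (j :: js₂) _ x v).1 hr).2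
  have h4 : (endP (Pl.home S r₀) js₁).Ex x v j := h3.1
  refine ⟨js₁, j, ?_⟩
  rw [Pl.edge_fun j (ne_of_gt h4.pos) τ, ← h2, sub_self, mul_zero]

/-- existence of the words; the only hypothesis is OFF -/
theorem m_KEXI (h1 : Sk_OFF) : Sk_EXI := by
  intro S r₀ i₀ K n σ φ y hG hs ht1 ht2 hy hy2
  have hv : ‖ev φ‖ = 1 := norm_ev φ
  have hn := hG.2.2.2.1
  have hD := K.D1
  set A := S.P r₀ i₀ with hA
  set s := cx (ev φ) (y - A) with hsd
  set t := dt (ev φ) (y - A) with htd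
  have hdec := dec hv (y - A)
  rw [← hsd, ← htd] at hdec
  set As := A + s * (Complex.I * ev φ) with hAs
  have hyt : y = As + t * ev φ := by
    rw [hAs]
    linear_combination hdec
  have hyt2 : y + (n / 4 : ℝ) * ev φ = As + ((t + n / 4 : ℝ) : ℂ) * ev φ := by
    rw [hyt]
    push_cast
    ring
  have hoff := h1 S r₀ i₀ K n σ φ s hG hs
  have hflo : ∀ js : List (ZMod 3), Run (Pl.home S r₀) As (ev φ) js →
      (∀ t' ∈ cts (Pl.home S r₀) As (ev φ) js, t' ≤ n) →
      (∀ t' ∈ cts (Pl.home S r₀) As (ev φ) js, - 2 * K.D ≤ t') ∧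
        ∃ j, Run (Pl.home S r₀) As (ev φ) (js ++ [j]) := by
    intro js hr hc
    obtain ⟨-, -, g3, g4⟩ := hoff js hr hc
    exact ⟨fun t' ht' => (g4 t' ht').1, g3⟩
  obtain ⟨-, j0, hj0⟩ := hflo [] trivial (by intro t' ht'; simp [cts] at ht')
  rw [List.nil_append] at hj0
  have hc0 : (Pl.home S r₀).ct As (ev φ) j0 ≤ K.D := by
    have h3 := K.dia3 (Pl.home S r₀) As (ev φ) i₀ j0 (Or.inl hj0.1)
    rw [Pl.V_home, ← hA] at h3
    have h4 := abs_dt_le hv (As + (Pl.home S r₀).ct As (ev φ) j0 * ev φ - A)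
    have e : As + (Pl.home S r₀).ct As (ev φ) j0 * ev φ - A =
        s * (Complex.I * ev φ) + (Pl.home S r₀).ct As (ev φ) j0 * ev φ := by
      rw [hAs]; ring
    have h5 : dt (ev φ) (As + (Pl.home S r₀).ct As (ev φ) j0 * ev φ - A) =
        (Pl.home S r₀).ct As (ev φ) j0 := by
      rw [e, dt_add_right, dt_real_right, dt_real_right, dt_I, dt_self1 hv]
      ring
    rw [h5] at h4
    exact (le_abs_self _).trans (h4.trans h3)
  have hfirst : ∀ t₁ : ℝ, t ≤ t₁ → ∃ js : List (ZMod 3), js ≠ [] ∧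
      Run (Pl.home S r₀) As (ev φ) js ∧ ∀ t' ∈ cts (Pl.home S r₀) As (ev φ) js, t' < t₁ := by
    intro t₁ ht₁
    refine ⟨[j0], by simp, hj0, ?_⟩
    intro t' ht'
    simp only [cts, List.mem_cons, List.not_mem_nil, or_false] at ht'
    rw [ht']
    linarith
  obtain ⟨js, -, hr, hin, hlt⟩ := m_KFLO S (Pl.home S r₀) As (ev φ) (- 2 * K.D) n t hv hflo
    (by linarith) (hfirst t le_rfl) (by
      intro js' hr' hm
      apply hy
      rw [hyt]
      exact kexi_ngl hr' hm)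
  obtain ⟨js₃, -, hr3, hin3, hlt3⟩ := m_KFLO S (Pl.home S r₀) As (ev φ) (- 2 * K.D) n (t + n / 4)
    hv hflo (by linarith) (hfirst (t + n / 4) (by linarith)) (by
      intro js' hr' hm
      apply hy2
      rw [hyt2]
      exact kexi_ngl hr' hm)
  have hpre : ∃ js', js₃ = js ++ js' := by
    rcases Run_comparable js js₃ _ As (ev φ) hr hr3 with ⟨r, hr'⟩ | ⟨r, hr'⟩
    · exact ⟨r, hr'.symm⟩
    · cases r with
      | nil =>
        refine ⟨[], ?_⟩
        rw [List.append_nil] at hr' ⊢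
        exact hr'
      | cons j rest =>
        exfalso
        have hr4 := hr
        rw [← hr'] at hr4
        have h3 := ((Run_append js₃ (j :: rest) _ As (ev φ)).1 hr4).2
        have h4 : (endP (Pl.home S r₀) js₃).Ex As (ev φ) j := h3.1
        have h5 := (m_TIM m_GLU m_ORI m_EXU S).2.1 _ As (ev φ) j (t + n / 4) h4 hin3
        have h6 := hlt _ ((mem_cts js _ As (ev φ) _).2 ⟨js₃, j, rest, hr'.symm, rfl⟩)
        linarith
  obtain ⟨js', hjs⟩ := hpre
  rw [hjs] at hr3 hin3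
  have hr4 := ((Run_append js js' _ As (ev φ)).1 hr3).2
  rw [endP_append] at hin3
  refine ⟨js, js', ⟨hs, ht1, ht2, ?_, ?_⟩, ?_, ?_⟩
  · rw [hyt]
    exact (Run_shift js _ As (ev φ) t).2 hr
  · rw [hyt]
    exact hin
  · rw [hyt]
    exact (Run_shift js' _ As (ev φ) t).2 hr4
  · rw [hyt2]
    exact hin3

end Pool.Agent.FAN
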