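import Pool.Agent.FAN.StK
import Pool.Agent.FAN.Base2
import Pool.Agent.FAN.A_TIM
import Pool.Agent.FAN.A_CTS
import Pool.Agent.FAN.A_DIA
import Pool.Agent.FAN.A_LEN
import Pool.Agent.FAN.A_ENT

/-!
# FAN, block 5, module FIN: finitely many generalized diagonals of bounded length (helper29)
-/

set_option autoImplicit false

open scoped ComplexConjugate
open MeasureTheory Set

namespace Pool.Agent.FAN

theorem m_KFIN (h1 : Sk_SCL) : Sk_FIN := by
  intro S r₀ i₀ L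
  have hTIM : Sa_TIM := m_TIM m_GLU m_ORI m_EXU
  have hCTS : Sa_CTS := m_CTS m_EXU hTIM
  have hENT : Sa_ENT := m_ENT m_EXU hTIM hCTS
  obtain ⟨D₀, h₀, -, hh0, -, -, -, hD4⟩ := m_DIA hTIM S
  obtain ⟨C, hC, hLEN⟩ := m_LEN m_GLU m_ORI m_EXU hTIM S
  obtain ⟨hC1, -, -, -⟩ := hCTS S
  obtain ⟨-, -, -, -, -, -, -, -, hT9⟩ := hTIM S
  refine (List.finite_length_le (ZMod 3) ⌊C * (1 + (max L 0 - 0))⌋₊).subset ?_
  rintro js ⟨⟨js', rfl⟩, hrun, hnorm⟩
  set A : ℂ := S.P r₀ i₀ with hA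
  set q₀ : Pl S := Pl.home S r₀ with hq
  set js : List (ZMod 3) := i₀ :: js' with hjs
  set w : ℂ := (endP q₀ js).V (eI q₀ i₀ js) - A with hw
  have hAV : q₀.V i₀ = A := Pl.V_home r₀ i₀
  have hw0 : w ≠ 0 := by
    intro h0
    have hex : q₀.Ex A w i₀ := hrun.1
    rw [h0] at hex
    have := hex.1
    simp [cx] at this
  have hwn : 0 < ‖w‖ := norm_pos_iff.2 hw0
  set c : ℝ := ‖w‖⁻¹ with hc
  have hc0 : 0 < c := inv_pos.2 hwn
  have hcw : c * ‖w‖ = 1 := inv_mul_cancel₀ hwn.ne'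
  set v : ℂ := (c : ℂ) * w with hv
  have hv1 : ‖v‖ = 1 := by
    rw [hv, norm_mul, Complex.norm_real, Real.norm_eq_abs, abs_of_pos hc0, hcw]
  have hrun' : Run q₀ A v js := ((h1 S js q₀ A w).1 c hc0).2 hrun
  have hne : js ≠ [] := by
    rw [hjs]
    exact List.cons_ne_nil _ _
  obtain ⟨hEn, -, -, hlast⟩ := hENT S js q₀ A v i₀ hne hrun'
  have hcx : cx v ((endP q₀ js).V (eI q₀ i₀ js) - A) = 0 := by
    rw [← hw, hv, cx_real_left, cx_self, mul_zero]
  have hdt : dt v ((endP q₀ js).V (eI q₀ i₀ js) - A) = ‖w‖ := by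
    rw [← hw, hv]
    have h2 : dt ((c : ℂ) * w) w = c * dt w w := by
      simp only [dt, Complex.mul_re, Complex.mul_im, Complex.ofReal_re, Complex.ofReal_im]
      ring
    rw [h2, dt_self, pow_two, ← mul_assoc, hcw, one_mul]
  have hT := (hT9 (endP q₀ js) A v (eI q₀ i₀ js) hv1 hEn hcx).2
  rw [hdt] at hT
  have hfirst : 0 < q₀.ct A v i₀ := by
    have hex : q₀.Ex (q₀.V i₀) v i₀ := by
      rw [hAV]
      exact hrun'.1
    have h2 := hD4 q₀ v i₀ hv1 hex
    rw [hAV] at h2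
    linarith
  have hall : ∀ t ∈ cts q₀ A v js, 0 ≤ t ∧ t ≤ max L 0 := by
    intro t ht
    constructor
    · have hp := hC1 js q₀ A v hrun'
      have e : cts q₀ A v js = q₀.ct A v i₀ :: cts (q₀.nx i₀) A v js' := rfl
      rw [e] at hp ht
      rcases List.mem_cons.1 ht with h2 | h2
      · rw [h2]
        exact hfirst.le
      · exact (hfirst.trans ((List.pairwise_cons.1 hp).1 t h2)).le
    · exact ((hlast t ht).trans (hT.le.trans hnorm)).trans (le_max_left _ _)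
  have hfin := hLEN js q₀ A v 0 (max L 0) hv1 (le_max_right _ _) hrun' hall
  exact Nat.le_floor hfin

end Pool.Agent.FAN
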