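import Pool.Agent.FAN.StK
import Pool.Agent.FAN.Base2
import Pool.Agent.FAN.A_TIM
import Pool.Agent.FAN.A_CTS
import Pool.Agent.FAN.A_LEN
import Pool.Agent.FAN.A_ENT

/-!
# FAN, block 5, module FLO: existence of the word at time `t` (helper5)
-/

set_option autoImplicit false

open scoped ComplexConjugate
open MeasureTheory Set

namespace Pool.Agent.FAN

private theorem kflo_TIM : Sa_TIM := m_TIM m_GLU m_ORI m_EXU

/-- FLO. -/
theorem m_KFLO : Sk_FLO := by
  intro S q x v T₁ T t hv H ht hex hnot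
  obtain ⟨C, hC, hlen⟩ := m_LEN m_GLU m_ORI m_EXU kflo_TIM S
  have hent := m_ENT m_EXU kflo_TIM (m_CTS m_EXU kflo_TIM) S
  classical
  let A : List (ZMod 3) → Prop := fun js =>
    js ≠ [] ∧ Run q x v js ∧ ∀ t' ∈ cts q x v js, t' < t
  have hA : ∀ js, A js → (js.length : ℝ) ≤ C * (1 + (t - min T₁ t)) := by
    intro js hjs
    obtain ⟨-, hrun, hlt⟩ := hjs
    refine hlen js q x v (min T₁ t) t hv (min_le_right _ _) hrun ?_
    intro t' ht'
    have h1 := (H js hrun fun s hs => ((hlt s hs).trans_le ht).le).1 t' ht'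
    exact ⟨(min_le_left _ _).trans h1, (hlt t' ht').le⟩
  let P : ℕ → Prop := fun k => ∃ js, A js ∧ js.length = k
  obtain ⟨js₀, hjs₀⟩ := hex
  set B : ℕ := ⌈C * (1 + (t - min T₁ t))⌉₊ with hB
  have hbd : ∀ js, A js → js.length ≤ B := by
    intro js hjs
    have h1 := (hA js hjs).trans (Nat.le_ceil _)
    exact_mod_cast h1
  have hP0 : P js₀.length := ⟨js₀, hjs₀, rfl⟩
  obtain ⟨js, hjs, hjl⟩ := Nat.findGreatest_spec (P := P) (hbd js₀ hjs₀) hP0
  obtain ⟨hne, hrun, hlt⟩ := hjs
  obtain ⟨j, hj⟩ := (H js hrun fun s hs => ((hlt s hs).trans_le ht).le).2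
  have hcts : cts q x v (js ++ [j]) = cts q x v js ++ [(endP q js).ct x v j] := by
    rw [cts_append]
    rfl
  have hc1 : ¬ (endP q js).ct x v j < t := by
    intro hc
    have hA' : A (js ++ [j]) := by
      refine ⟨by simp, hj, ?_⟩
      intro s hs
      rw [hcts, List.mem_append, List.mem_singleton] at hs
      rcases hs with hs | hs
      · exact hlt s hs
      · rw [hs]; exact hc
    have h1 := Nat.le_findGreatest (P := P) (hbd _ hA') ⟨_, hA', rfl⟩
    rw [← hjl, List.length_append, List.length_singleton] at h1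
    omega
  have hc2 : (endP q js).ct x v j ≠ t := by
    intro hc
    refine hnot _ hj ?_
    rw [hcts, List.mem_append, List.mem_singleton]
    exact Or.inr hc.symm
  have hc : t < (endP q js).ct x v j := lt_of_le_of_ne (not_lt.1 hc1) (Ne.symm hc2)
  obtain ⟨hen, -, hmem, -⟩ := hent js q x v 0 hne hrun
  have hex' : (endP q js).Ex x v j := ((Run_append js [j] q x v).1 hj).2.1
  exact ⟨js, hne, hrun, (Pl.In_iff hen hex' t).2 ⟨hlt _ hmem, hc⟩, hlt⟩

end Pool.Agent.FAN
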