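import Pool.Agent.FAN.StK

/-!
# FAN, block 5: GDM (helper16). Measure of the good directions.
-/

set_option autoImplicit false

open scoped ComplexConjugate
open MeasureTheory Set

namespace Pool.Agent.FAN

/-- two angles of distance less than `2 π` with proportional unit vectors are equal -/
private theorem kgdm_inj (α β l m : ℝ) (hl : 0 < l) (hm : 0 < m) (h : (l : ℂ) * ev α = m * ev β)
    (hab : |α - β| < 2 * Real.pi) : α = β := by
  have hre : l * Real.cos α = m * Real.cos β := by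
    have := congrArg Complex.re h
    simpa [ev] using this
  have him : l * Real.sin α = m * Real.sin β := by
    have := congrArg Complex.im h
    simpa [ev] using this
  have hsq : l ^ 2 = m ^ 2 := by
    have e1 : l ^ 2 = (l * Real.cos α) ^ 2 + (l * Real.sin α) ^ 2 := by
      nlinarith [Real.sin_sq_add_cos_sq α]
    have e2 : m ^ 2 = (m * Real.cos β) ^ 2 + (m * Real.sin β) ^ 2 := by
      nlinarith [Real.sin_sq_add_cos_sq β]
    rw [e1, e2, hre, him]
  have hlm : l = m := by nlinarith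
  rw [hlm] at hre him
  have hc : Real.cos α = Real.cos β := mul_left_cancel₀ hm.ne' hre
  have hs : Real.sin α = Real.sin β := mul_left_cancel₀ hm.ne' him
  have hcos : Real.cos (α - β) = 1 := by
    rw [Real.cos_sub, hc, hs]
    nlinarith [Real.sin_sq_add_cos_sq β]
  rw [abs_lt] at hab
  have := (Real.cos_eq_one_iff_of_lt_of_lt hab.1 hab.2).1 hcos
  linarith

theorem m_KGDM (h1 : Sk_FIN) : Sk_GDM := by
  intro S r₀ i₀ K n σ hσ hn h4
  classical
  have hfin := h1 S r₀ i₀ (2 * n)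
  have hpi := Real.pi_gt_three
  have hρ0 := K.ρ0
  have hρ1 := K.ρ1
  set F : Finset (List (ZMod 3)) := hfin.toFinset with hF
  have hcard : (GG S r₀ i₀ (2 * n)).ncard = F.card := Set.ncard_eq_toFinset_card _ hfin
  -- the direction of the apex in the arc, if there is one
  set Q : List (ZMod 3) → ℝ → Prop := fun js θ =>
    |θ - K.φ₀| ≤ K.ρ ∧ ∃ l : ℝ, 0 < l ∧ apK S r₀ i₀ js - S.P r₀ i₀ = l * ev θ with hQ
  have huniq : ∀ js θ θ', Q js θ → Q js θ' → θ = θ' := by
    rintro js θ θ' ⟨ha, l, hl, hel⟩ ⟨hb, m, hm, hem⟩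
    refine kgdm_inj θ θ' l m hl hm (hel.symm.trans hem) ?_
    rw [abs_le] at ha hb
    rw [abs_lt]
    constructor <;> nlinarith [ha.1, ha.2, hb.1, hb.2]
  set θ₀ : List (ZMod 3) → ℝ := fun js => if h : ∃ θ, Q js θ then h.choose else 0 with hθ
  have hθ₀ : ∀ js θ, Q js θ → θ₀ js = θ := by
    intro js θ h
    have hex : ∃ θ, Q js θ := ⟨θ, h⟩
    have e : θ₀ js = hex.choose := by simp only [hθ]; exact dif_pos hex
    rw [e]
    exact huniq js _ _ hex.choose_spec h
  set G : Set ℝ := Icc (K.φ₀ - K.ρ / 2) (K.φ₀ + K.ρ / 2) \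
    ⋃ js ∈ F, Icc (θ₀ js - σ) (θ₀ js + σ) with hG
  have hσρ : σ ≤ K.ρ / 2 := by
    have h5 : (1 : ℝ) ≤ ((GG S r₀ i₀ (2 * n)).ncard : ℝ) + 1 := by
      have : (0 : ℝ) ≤ ((GG S r₀ i₀ (2 * n)).ncard : ℝ) := Nat.cast_nonneg _
      linarith
    nlinarith
  refine ⟨G, ?_, ?_, ?_⟩
  · exact measurableSet_Icc.diff (Finset.measurableSet_biUnion F fun _ _ => measurableSet_Icc)
  · rintro φ ⟨hφ, hφ2⟩
    refine ⟨hσ, hσρ, ?_, hn, ?_⟩
    · rw [abs_le]
      constructor <;> linarith [hφ.1, hφ.2]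
    · intro js hjs s l hs hl heq
      apply hφ2
      rw [abs_le] at hs
      have hq : Q js (φ + s) := by
        refine ⟨?_, l, hl, heq⟩
        rw [abs_le]
        constructor <;> linarith [hφ.1, hφ.2, hs.1, hs.2]
      have e := hθ₀ js _ hq
      refine mem_iUnion₂.2 ⟨js, hfin.mem_toFinset.2 hjs, ?_⟩
      rw [e]
      exact ⟨by linarith [hs.2], by linarith [hs.1]⟩
  · have hvolI : volume (Icc (K.φ₀ - K.ρ / 2) (K.φ₀ + K.ρ / 2)) = ENNReal.ofReal K.ρ := by
      rw [Real.volume_Icc]; congr 1; ring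
    have hvolU : volume (⋃ js ∈ F, Icc (θ₀ js - σ) (θ₀ js + σ)) ≤
        ENNReal.ofReal (K.ρ / 2) := by
      calc volume (⋃ js ∈ F, Icc (θ₀ js - σ) (θ₀ js + σ))
          ≤ ∑ js ∈ F, volume (Icc (θ₀ js - σ) (θ₀ js + σ)) := measure_biUnion_finset_le _ _
        _ = ∑ _js ∈ F, ENNReal.ofReal (2 * σ) := by
            refine Finset.sum_congr rfl fun js _ => ?_
            rw [Real.volume_Icc]; congr 1; ring
        _ = ENNReal.ofReal (F.card * (2 * σ)) := by
            rw [Finset.sum_const, nsmul_eq_mul, ENNReal.ofReal_mul (Nat.cast_nonneg _),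
              ENNReal.ofReal_natCast]
        _ ≤ ENNReal.ofReal (K.ρ / 2) := by
            refine ENNReal.ofReal_le_ofReal ?_
            rw [hcard] at h4
            nlinarith
    calc ENNReal.ofReal (K.ρ / 2) = ENNReal.ofReal K.ρ - ENNReal.ofReal (K.ρ / 2) := by
          rw [← ENNReal.ofReal_sub _ (by linarith)]; congr 1; ring
      _ ≤ volume (Icc (K.φ₀ - K.ρ / 2) (K.φ₀ + K.ρ / 2)) -
          volume (⋃ js ∈ F, Icc (θ₀ js - σ) (θ₀ js + σ)) := by
          rw [hvolI]; exact tsub_le_tsub_left hvolU _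
      _ ≤ volume G := le_measure_sdiff

end Pool.Agent.FAN
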