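import Pool.Agent.FAN.StK
import Pool.Agent.FAN.Base

/-!
# Heights of the vertices of a room crossed by a sector of lines (module FANK_HTR, helper55)
-/

set_option autoImplicit false

open MeasureTheory Set

namespace Pool.Agent.FAN

private theorem khtr_n1 : ∀ k : ZMod 3, k = k + 1 → False := by decide

private theorem khtr_n2 : ∀ k : ZMod 3, k = k + 2 → False := by decide

private theorem khtr_sin (φ s : ℝ) : cx (ev φ) (ev (φ + s)) = Real.sin s := by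
  simp only [cx, ev, Real.cos_add, Real.sin_add]
  have h := Real.sin_sq_add_cos_sq φ
  linear_combination Real.sin s * h

private theorem khtr_pt {S : TriSys} {q : Pl S} {x : ℂ} {φ s : ℝ} {j : ZMod 3}
    (h : q.Ex x (ev (φ + s)) j) : ∃ l : ℝ, 0 < l ∧ l < 1 ∧
      q.ct x (ev (φ + s)) j * Real.sin s = l * cx (ev φ) (q.V (j + 2) - x) +
        (1 - l) * cx (ev φ) (q.V (j + 1) - x) := by
  obtain ⟨l, l0, l1, hl⟩ := Pl.ct_point h
  refine ⟨l, l0, l1, ?_⟩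
  have e1 : cx (ev φ) (x + q.ct x (ev (φ + s)) j * ev (φ + s) - x) =
      q.ct x (ev (φ + s)) j * Real.sin s := by
    rw [add_sub_cancel_left, cx_real_right, khtr_sin]
  rw [← e1, hl]
  simp only [cx, Complex.sub_re, Complex.sub_im, Complex.add_re, Complex.add_im,
    Complex.mul_re, Complex.mul_im, Complex.ofReal_re, Complex.ofReal_im]
  ring

private theorem khtr_ex {S : TriSys} (q : Pl S) (x : ℂ) (φ σ τ : ℝ) (h0 : 0 ≤ σ) (h1 : σ ≤ 1)
    (j : ZMod 3) (h : ∀ s : ℝ, |s| ≤ σ → q.Ex x (ev (φ + s)) j ∧ τ ≤ q.ct x (ev (φ + s)) j) :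
    τ * Real.sin σ ≤ |cx (ev φ) (q.V (j + 2) - x)| ∧
    τ * Real.sin σ ≤ |cx (ev φ) (q.V (j + 1) - x)| := by
  have hs : 0 ≤ Real.sin σ :=
    Real.sin_nonneg_of_nonneg_of_le_pi h0 (by linarith [Real.pi_gt_three])
  rcases lt_or_ge τ 0 with hτ | hτ
  · have h2 : τ * Real.sin σ ≤ 0 := mul_nonpos_of_nonpos_of_nonneg hτ.le hs
    exact ⟨h2.trans (abs_nonneg _), h2.trans (abs_nonneg _)⟩
  · have e0 := (h 0 (by simpa using h0)).1
    rw [add_zero] at e0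
    obtain ⟨hL, hR⟩ := e0
    obtain ⟨hσ1, hσ2⟩ := h σ (by rw [abs_of_nonneg h0])
    obtain ⟨hm1, hm2⟩ := h (-σ) (by rw [abs_neg, abs_of_nonneg h0])
    obtain ⟨l, l0, l1, hl⟩ := khtr_pt hσ1
    obtain ⟨m, m0, m1, hm⟩ := khtr_pt hm1
    rw [Real.sin_neg] at hm
    rw [abs_of_pos hL, abs_of_neg hR]
    have a1 := mul_le_mul_of_nonneg_right hσ2 hs
    have a2 := mul_le_mul_of_nonneg_right hm2 hs
    have b1 : (1 - l) * cx (ev φ) (q.V (j + 1) - x) ≤ 0 :=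
      mul_nonpos_of_nonneg_of_nonpos (by linarith) hR.le
    have b2 : l * cx (ev φ) (q.V (j + 2) - x) ≤ cx (ev φ) (q.V (j + 2) - x) := by
      nlinarith
    have b3 : 0 ≤ m * cx (ev φ) (q.V (j + 2) - x) := mul_nonneg m0.le hL.le
    have b4 : cx (ev φ) (q.V (j + 1) - x) ≤ (1 - m) * cx (ev φ) (q.V (j + 1) - x) := by
      nlinarith
    constructor
    · linarith
    · linarith

theorem m_KHTR : Sk_HTR := by
  intro S q x φ σ τ h0 h1
  have second : ∀ j : ZMod 3,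
      (∀ s : ℝ, |s| ≤ σ → q.Ex x (ev (φ + s)) j ∧ τ ≤ q.ct x (ev (φ + s)) j) →
      ∀ k, k ≠ j → τ * Real.sin σ ≤ |cx (ev φ) (q.V k - x)| := by
    intro j h k hk
    obtain ⟨g2, g1⟩ := khtr_ex q x φ σ τ h0 h1 j h
    rcases z_cases j k with rfl | rfl | rfl
    · exact absurd rfl hk
    · exact g1
    · exact g2
  refine ⟨?_, second⟩
  intro i j h k
  have hx : ∀ s : ℝ, |s| ≤ σ → (q.nx i).Ex x (ev (φ + s)) (q.en i) ∧
      τ ≤ (q.nx i).ct x (ev (φ + s)) (q.en i) := by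
    intro s hs
    obtain ⟨a, b, c⟩ := h s hs
    refine ⟨⟨?_, ?_⟩, ?_⟩
    · rw [Pl.V_nx2]; exact a.1
    · rw [Pl.V_nx1]; exact a.2
    · rw [Pl.ct_nx]; exact c
  obtain ⟨g2, g1⟩ := khtr_ex (q.nx i) x φ σ τ h0 h1 (q.en i) hx
  rw [Pl.V_nx2] at g2
  rw [Pl.V_nx1] at g1
  rcases z_cases i k with rfl | rfl | rfl
  · apply second j (fun s hs => ⟨(h s hs).2.1,
      (h s hs).2.2.trans (Pl.ct_lt (h s hs).1 (h s hs).2.1).le⟩)
    intro hk
    subst hk
    obtain ⟨a, b, -⟩ := h 0 (by simpa using h0)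
    rcases Pl.En.exit a b with ⟨hj, -⟩ | ⟨hj, -⟩
    · exact khtr_n1 k hj
    · exact khtr_n2 k hj
  · exact g2
  · exact g1

end Pool.Agent.FAN
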