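import Pool.Agent.FAN.Base3
import Pool.Agent.FAN.A_CTS
import Pool.Agent.FAN.A_TIM

/-!
# FAN, block 5: the phase point determines the word (helper15)
-/

set_option autoImplicit false

open scoped ComplexConjugate

namespace Pool.Agent.FAN

variable {S : TriSys} {r₀ : S.R} {i₀ : ZMod 3}

theorem Gd.sin_pos {K : Cst S r₀ i₀} {n σ φ : ℝ} (h : Gd K n σ φ) : 0 < Real.sin σ := by
  obtain ⟨h1, h2, -⟩ := h
  have h3 := K.ρ1
  apply Real.sin_pos_of_pos_of_lt_pi h1
  have := Real.pi_gt_three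
  linarith

theorem kinj_aux (h1 : Sk_OFF) (h2 : Sk_VTX) (hC : Sa_CTS) (K : Cst S r₀ i₀) (n σ φ φ' : ℝ)
    (y y' : ℂ) (js js' : List (ZMod 3)) (hg' : Gd K n σ φ')
    (hB : Bs K n σ φ y js) (hB' : Bs K n σ φ' y' js') (c e : ℂ) (hc : ‖c‖ = 1)
    (hQ : (endP (Pl.home S r₀) js).mv c e hc = endP (Pl.home S r₀) js')
    (hy : y' = c * y + e) (hv : ev φ' = c * ev φ) (rest : List (ZMod 3))
    (hrest : rev (Pl.home S r₀) js' = rev (Pl.home S r₀) js ++ rest) : js = js' := by
  have hlen : js'.length = js.length + rest.length := by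
    have := congrArg List.length hrest
    rwa [List.length_append, rev_length, rev_length] at this
  set q₀ := Pl.home S r₀ with hq₀
  obtain ⟨js₁, js₂, hjs', hl2⟩ : ∃ js₁ js₂, js' = js₁ ++ js₂ ∧ js₂.length = js.length := by
    refine ⟨js'.take (js'.length - js.length), js'.drop (js'.length - js.length),
      (List.take_append_drop _ _).symm, ?_⟩
    rw [List.length_drop]
    omega
  subst hjs'
  have hsplit : rev (endP q₀ js₁) js₂ = rev q₀ js := by
    rw [rev_append] at hrest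
    exact (List.append_inj hrest (by rw [rev_length, rev_length, hl2])).1
  have hQ2 : endP (endP q₀ js₁) js₂ = (endP q₀ js).mv c e hc := by
    rw [← endP_append]; exact hQ.symm
  have hP : endP q₀ js₁ = q₀.mv c e hc := by
    have a1 := endP_rev js₂ (endP q₀ js₁)
    rw [hsplit, hQ2, endP_mv, endP_rev] at a1
    exact a1.symm
  have hjs₂ : js₂ = js := by
    have a1 := rev_rev js₂ (endP q₀ js₁)
    rw [hsplit, hQ2, rev_mv, rev_rev] at a1
    exact a1.symm
  by_cases hn : js₁ = []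
  · rw [hn, hjs₂, List.nil_append]
  exfalso
  obtain ⟨b1, b2, b3, b4, b5⟩ := hB
  obtain ⟨c1, c2, c3, c4, c5⟩ := hB'
  have hv1 := norm_ev φ
  have hv1' := norm_ev φ'
  set A := S.P r₀ i₀ with hA
  have hdec := dec hv1 (y - A)
  have hdec' := dec hv1' (y' - A)
  set s := cx (ev φ) (y - A) with hs
  set t := dt (ev φ) (y - A) with ht
  set s' := cx (ev φ') (y' - A) with hs'
  set t' := dt (ev φ') (y' - A) with ht'
  have hy' : y' = A + s' * (Complex.I * ev φ') + t' * ev φ' := by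
    linear_combination hdec'
  have hrun : Run q₀ (A + s' * (Complex.I * ev φ')) (ev φ') (js₁ ++ js₂) := by
    rw [hy', Run_shift] at c4
    exact c4
  have hcts := (hC S).2.2.1 (js₁ ++ js₂) q₀ (A + s' * (Complex.I * ev φ')) (ev φ') t' hrun
    (by rw [← hy']; exact c5)
  have hn100 := hg'.2.2.2.1
  have hD := K.D1
  have hoff := h1 S r₀ i₀ K n σ φ' s' hg' c1 js₁ (Run_take hrun) (by
    intro τ hτ
    have := hcts τ (by rw [cts_append, List.mem_append]; exact Or.inl hτ)
    linarith)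
  have hvtx := (h2 S r₀ i₀ K n σ φ' hg' js₁ hoff.1 hoff.2.1).1 hn i₀
  rw [hP, Pl.V_mv, Pl.V_home, ← hA] at hvtx
  have hkey : c * A + e - A = (s' - s : ℝ) * (Complex.I * ev φ') + (t' - t : ℝ) * ev φ' := by
    push_cast
    have e1 : c * (y - A) = s * (Complex.I * (c * ev φ)) + t * (c * ev φ) := by
      rw [hdec]; ring
    rw [← hv] at e1
    linear_combination hdec' - e1 - hy
  rw [hkey, cx_add_right, cx_real_right, cx_real_right, cx_I1 hv1', cx_self, mul_one, mul_zero,
    add_zero] at hvtx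
  have hsin := hg'.sin_pos
  have hh := K.h0
  have hpos := mul_pos hh hsin
  have : |s' - s| ≤ |s'| + |s| := abs_sub _ _
  linarith

theorem m_KINJ (h1 : Sk_OFF) (h2 : Sk_VTX) : Sk_INJ := by
  have hC : Sa_CTS := m_CTS m_EXU (m_TIM m_GLU m_ORI m_EXU)
  intro S r₀ i₀ K n σ φ φ' y y' js js' hg hg' hB hB' Q Q' hQ hQ' hr hx hw
  have ha : Q.a ≠ 0 := by
    intro h0
    have := Q.ha
    rw [h0, norm_zero] at this
    norm_num at this
  have ha' : Q'.a ≠ 0 := by
    intro h0
    have := Q'.ha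
    rw [h0, norm_zero] at this
    norm_num at this
  have hc : ‖Q'.a / Q.a‖ = 1 := by rw [norm_div, Q.ha, Q'.ha, div_one]
  have hc' : ‖Q.a / Q'.a‖ = 1 := by rw [norm_div, Q.ha, Q'.ha, div_one]
  have e1 : Q.mv (Q'.a / Q.a) (Q'.b - Q'.a / Q.a * Q.b) hc = Q' := by
    ext
    · exact hr
    · show Q'.a / Q.a * Q.a = Q'.a
      exact div_mul_cancel₀ _ ha
    · show Q'.a / Q.a * Q.b + (Q'.b - Q'.a / Q.a * Q.b) = Q'.b
      ring
  have e1' : Q'.mv (Q.a / Q'.a) (Q.b - Q.a / Q'.a * Q'.b) hc' = Q := by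
    ext
    · exact hr.symm
    · show Q.a / Q'.a * Q'.a = Q.a
      exact div_mul_cancel₀ _ ha'
    · show Q.a / Q'.a * Q'.b + (Q.b - Q.a / Q'.a * Q'.b) = Q.b
      ring
  have e2 : y' = Q'.a / Q.a * y + (Q'.b - Q'.a / Q.a * Q.b) := by
    field_simp at hx ⊢
    linear_combination -hx
  have e2' : y = Q.a / Q'.a * y' + (Q.b - Q.a / Q'.a * Q'.b) := by
    field_simp at hx ⊢
    linear_combination hx
  have e3 : ev φ' = Q'.a / Q.a * ev φ := by
    field_simp at hw ⊢
    linear_combination -hw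
  have e3' : ev φ = Q.a / Q'.a * ev φ' := by
    field_simp at hw ⊢
    linear_combination hw
  have hrun : Run Q y (-ev φ) (rev (Pl.home S r₀) js) := by
    have := (Run_rev js (Pl.home S r₀) y (ev φ) 0).2 hB.2.2.2.1
    rw [← hQ] at this
    simpa using this
  have hrun' : Run Q' y' (-ev φ') (rev (Pl.home S r₀) js') := by
    have := (Run_rev js' (Pl.home S r₀) y' (ev φ') 0).2 hB'.2.2.2.1
    rw [← hQ'] at this
    simpa using this
  have hrun2 : Run Q' y' (-ev φ') (rev (Pl.home S r₀) js) := by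
    have := (Run_mv (Q'.a / Q.a) (Q'.b - Q'.a / Q.a * Q.b) hc (rev (Pl.home S r₀) js) Q y
      (-ev φ)).2 hrun
    rw [e1, ← e2, mul_neg, ← e3] at this
    exact this
  rcases Run_comparable _ _ Q' y' (-ev φ') hrun2 hrun' with ⟨rest, h⟩ | ⟨rest, h⟩
  · exact kinj_aux h1 h2 hC K n σ φ φ' y y' js js' hg' hB hB' _ _ hc
      (by rw [← hQ, ← hQ']; exact e1) e2 e3 rest h.symm
  · exact (kinj_aux h1 h2 hC K n σ φ' φ y' y js' js hg hB' hB _ _ hc'
      (by rw [← hQ, ← hQ']; exact e1') e2' e3' rest h.symm).symm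

end Pool.Agent.FAN
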