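import Pool.Agent.FAN.StK

/-!
# FAN, block 5: the interface of the packing block (helper15)
-/

set_option autoImplicit false

open scoped ComplexConjugate
open MeasureTheory Set

namespace Pool.Agent.FAN

theorem m_KLOW (h1 : Sk_CST) (h2 : Sk_GDM) (h3 : Sk_ABS) (h4 : Sk_MSD) (h5 : Sk_MSB) (h6 : Sk_PHP)
    (h7 : Sk_INJ) (h8 : Sk_SUM) (h9 : Sa_UNI) : Sk_LOW := by
  intro S r₀ i₀
  obtain ⟨K⟩ := h1 S r₀ i₀
  obtain ⟨C, hC0, hC1, hC2, hC3⟩ := h4 S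
  have hρ := K.ρ0
  have hρ1 := K.ρ1
  have hh := K.h0
  have hD := K.D1
  refine ⟨K.ρ ^ 3 * K.h / 4096, 100 * K.D, by positivity, ?_⟩
  intro n hn
  have hn0 : 0 < n := by linarith
  set G₁ : ℝ := ((GG S r₀ i₀ (2 * n)).ncard : ℝ) + 1 with hG₁
  have hG1 : 1 ≤ G₁ := by
    have : (0 : ℝ) ≤ ((GG S r₀ i₀ (2 * n)).ncard : ℝ) := Nat.cast_nonneg _
    linarith
  have hG0 : 0 < G₁ := by linarith
  obtain ⟨σ, hσ⟩ : ∃ σ : ℝ, σ = K.ρ / (4 * G₁) := ⟨_, rfl⟩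
  have hσ0 : 0 < σ := by rw [hσ]; positivity
  have hσ4 : 4 * σ * G₁ = K.ρ := by rw [hσ]; field_simp
  have hσ1 : σ ≤ 1 / 4 := by nlinarith
  obtain ⟨G, hG, hGd, hGv⟩ := h2 S r₀ i₀ K n σ hσ0 hn (le_of_eq hσ4)
  have hpi := Real.pi_gt_three
  have hsin : 0 < Real.sin σ := Real.sin_pos_of_pos_of_lt_pi hσ0 (by linarith)
  have hsin2 : σ / 2 ≤ Real.sin σ := by
    have := Real.mul_le_sin hσ0.le (by linarith : σ ≤ Real.pi / 2)
    have h4' : 1 / 2 ≤ 2 / Real.pi := by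
      rw [div_le_div_iff₀ (by norm_num) Real.pi_pos]
      have := Real.pi_le_four
      linarith
    have := mul_le_mul_of_nonneg_right h4' hσ0.le
    linarith
  have hw0 : 0 ≤ n / 4 * Real.sin σ := by positivity
  have hABS := h3 S.R (fun k => rm S k) (fun k ψ x => DD S k x (ev ψ) (n / 4)) (n / 4 * Real.sin σ)
    C K.φ₀ (List (ZMod 3) × List (ZMod 3)) (fun p => (endP (Pl.home S r₀) p.1).r)
    (fun p => (endP (Pl.home S r₀) p.1).a) (fun p => (endP (Pl.home S r₀) p.1).b)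
    (fun p => BB K n σ G p.1 p.2) (fun k => (hC3 k).1) (fun k => (hC3 k).2)
    (fun k => hC1 k (n / 4)) (fun k ψ x => hC2 k x ψ (n / 4)) hw0
    (fun p => (endP (Pl.home S r₀) p.1).ha) (fun p => h5 S r₀ i₀ K n σ G p.1 p.2 hG)
    (by
      intro i p hp
      have := (hGd p.1 hp.1).2.2.1
      linarith)
    (by
      intro i p hp
      have hP := h6 S r₀ i₀ K n σ p.1 p.2 i.1 i.2 (hGd p.1 hp.1) hp.2.1 hp.2.2 _ rfl
      refine ⟨hP.1.1, ?_⟩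
      intro ψ hψ
      show n / 4 * Real.sin σ ≤ DD S _ _ (ev ψ) (n / 4)
      rw [hψ]
      exact hP.2)
    (by
      intro i j p hp p' hp' hr hx hv
      have e1 : i.1 = j.1 := h7 S r₀ i₀ K n σ p.1 p'.1 p.2 p'.2 i.1 j.1 (hGd p.1 hp.1)
        (hGd p'.1 hp'.1) hp.2.1 hp'.2.1 _ _ rfl rfl hr hx hv
      have hP := (h6 S r₀ i₀ K n σ p.1 p.2 i.1 i.2 (hGd p.1 hp.1) hp.2.1 hp.2.2 _ rfl).1
      have hP' := (h6 S r₀ i₀ K n σ p'.1 p'.2 j.1 j.2 (hGd p'.1 hp'.1) hp'.2.1 hp'.2.2 _ rfl).1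
      rw [← hx, ← hv, ← hr] at hP'
      exact Prod.ext e1 (h9 S _ _ _ _ _ _ hP hP').1)
  have hSUM := h8 S r₀ i₀ K n σ G hG hGd
  have hPhi : ∑ k, ∫ ψ in (0 : ℝ)..(2 * Real.pi), ∫ x in rm S k, DD S k x (ev ψ) (n / 4) =
      Phi S (n / 4) := rfl
  rw [hPhi] at hABS
  have hkey : ENNReal.ofReal (n / 4 * Real.sin σ *
      (K.ρ / 2 * (2 * (K.h * Real.sin σ / 4) * (n / 4)))) ≤ ENNReal.ofReal (Phi S (n / 4)) := by
    rw [ENNReal.ofReal_mul hw0, ENNReal.ofReal_mul (by positivity : (0 : ℝ) ≤ K.ρ / 2)]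
    refine le_trans ?_ hABS
    refine mul_le_mul_right ?_ _
    exact le_trans (mul_le_mul_left hGv _) hSUM
  have hpos : 0 < n / 4 * Real.sin σ * (K.ρ / 2 * (2 * (K.h * Real.sin σ / 4) * (n / 4))) := by
    positivity
  have hle : n / 4 * Real.sin σ * (K.ρ / 2 * (2 * (K.h * Real.sin σ / 4) * (n / 4))) ≤
      Phi S (n / 4) := by
    by_contra hc
    rw [not_le] at hc
    have := (ENNReal.ofReal_lt_ofReal_iff hpos).2 hc
    exact absurd hkey (not_le.2 this)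
  have e2 : K.ρ ^ 3 * K.h / 4096 * n ^ 2 = G₁ ^ 2 * (n ^ 2 * K.ρ * K.h / 256 * σ ^ 2) := by
    rw [← hσ4]; ring
  rw [e2]
  apply mul_le_mul_of_nonneg_left _ (by positivity)
  refine le_trans ?_ hle
  have e3 : n / 4 * Real.sin σ * (K.ρ / 2 * (2 * (K.h * Real.sin σ / 4) * (n / 4))) =
      n ^ 2 * K.ρ * K.h / 64 * Real.sin σ ^ 2 := by ring
  rw [e3]
  have e4 : (σ / 2) ^ 2 ≤ Real.sin σ ^ 2 := by
    apply pow_le_pow_left₀ (by positivity) hsin2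
  have e5 : 0 ≤ n ^ 2 * K.ρ * K.h / 64 := by positivity
  have := mul_le_mul_of_nonneg_left e4 e5
  linarith [this, show n ^ 2 * K.ρ * K.h / 64 * (σ / 2) ^ 2 = n ^ 2 * K.ρ * K.h / 256 * σ ^ 2 by ring]

end Pool.Agent.FAN
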