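import Pool.Agent.FAN.StK
import Pool.Agent.FAN.A_CLV
import Pool.Agent.FAN.A_TIM
import Pool.Agent.FAN.A_DIA
import Pool.Agent.FAN.Base2
import Pool.Agent.FAN.Base3

/-!
# FAN, block 5: module MSD, measurability and bounds of the clearance
-/

set_option autoImplicit false

open scoped ComplexConjugate
open MeasureTheory Set

namespace Pool.Agent.FAN

private lemma kmsd_norm (ψ : ℝ) : ‖ev ψ‖ = 1 := by
  have h : ‖ev ψ‖ ^ 2 = 1 := by
    rw [← Complex.normSq_eq_norm_sq, Complex.normSq_apply]
    simp only [ev]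
    nlinarith [Real.sin_sq_add_cos_sq ψ]
  nlinarith [norm_nonneg (ev ψ)]

/-- MSD. -/
theorem m_KMSD (h1 : Sk_OPN) (h2 : Sa_UNI) : Sk_MSD := by
  intro S
  obtain ⟨D₀, h₀, hD1, -, -, hin, -, -⟩ := m_DIA (m_TIM m_GLU m_ORI m_EXU) S
  have hpos : ∀ (r : S.R) (x : ℂ) (ψ N : ℝ), 0 ≤ DD S r x (ev ψ) N := by
    intro r x ψ N
    unfold DD
    split_ifs with h
    · exact (m_CLV S _ _ _ _).2.2.1
    · exact le_rfl
  refine ⟨D₀, by linarith, ?_, ?_, ?_⟩
  · intro r N
    apply measurable_of_Ioi
    intro c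
    by_cases hc : 0 ≤ c
    · have e : (fun p : ℝ × ℂ => DD S r p.2 (ev p.1) N) ⁻¹' Ioi c =
          ⋃ js : List (ZMod 3), {p : ℝ × ℂ | PW S r p.2 (ev p.1) N js ∧
            c < clr (Pl.home S r) js p.2 (ev p.1)} := by
        ext p
        simp only [mem_preimage, mem_Ioi, mem_iUnion, mem_ofPred_eq]
        constructor
        · intro h
          by_cases hex : ∃ js, PW S r p.2 (ev p.1) N js
          · obtain ⟨js, hjs⟩ := hex
            refine ⟨js, hjs, ?_⟩
            rw [← (h2 S r p.2 (ev p.1) N js js hjs hjs).2.1]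
            exact h
          · unfold DD at h
            rw [dif_neg hex] at h
            exact absurd h (not_lt.2 hc)
        · rintro ⟨js, hjs, h⟩
          rw [(h2 S r p.2 (ev p.1) N js js hjs hjs).2.1]
          exact h
      rw [e]
      refine MeasurableSet.iUnion (fun js => ?_)
      obtain ⟨o1, o2, o3, -⟩ := h1 S js (Pl.home S r)
      have a0 := (o2 0).measurableSet
      have e5 : {p : ℝ × ℂ | (Pl.home S r).In (p.2 + (0 : ℝ) * ev p.1)} =
          {p : ℝ × ℂ | (Pl.home S r).In p.2} := by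
        ext p
        simp
      rw [e5] at a0
      have a1 := o1.measurableSet
      have a2 := ((h1 S js (endP (Pl.home S r) js)).2.1 N).measurableSet
      have a3 : MeasurableSet {p : ℝ × ℂ | c < clr (Pl.home S r) js p.2 (ev p.1)} :=
        measurableSet_lt measurable_const o3.measurable
      exact (a0.inter (a1.inter a2)).inter a3
    · have e : (fun p : ℝ × ℂ => DD S r p.2 (ev p.1) N) ⁻¹' Ioi c = univ := by
        ext p
        simp only [mem_preimage, mem_Ioi, mem_univ, iff_true]
        exact lt_of_lt_of_le (not_le.1 hc) (hpos r p.2 p.1 N)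
      rw [e]
      exact MeasurableSet.univ
  · intro r x ψ N
    refine ⟨hpos r x ψ N, ?_⟩
    unfold DD
    split_ifs with h
    · have hP := h.choose_spec
      obtain ⟨c1, -, -, c4, -⟩ := m_CLV S h.choose (Pl.home S r) x (ev ψ)
      refine (c1 _ (c4 0)).trans ?_
      refine (abs_cx_le (kmsd_norm ψ) _).trans ?_
      have := hin (Pl.home S r) x 0 hP.1
      rw [norm_sub_rev]
      exact this
    · linarith
  · intro r
    refine ⟨(h1 S [] (Pl.home S r)).2.2.2 r |>.measurableSet, ?_⟩
    have hs : rm S r ⊆ Metric.closedBall ((Pl.home S r).V 0) D₀ := by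
      intro x hx
      rw [Metric.mem_closedBall, dist_eq_norm]
      exact hin (Pl.home S r) x 0 hx
    exact lt_of_le_of_lt (measure_mono hs) measure_closedBall_lt_top

end Pool.Agent.FAN
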