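import Pool.Agent.FAN.StK
import Pool.Agent.FAN.Base

/-!
# FAN, block 5: NUL (helper19). The lines that contain the edges have measure zero.
-/

set_option autoImplicit false

open scoped ComplexConjugate
open MeasureTheory Set

namespace Pool.Agent.FAN

/-- `y ↦ cx u y` as a linear map -/
private noncomputable def knul_lin (u : ℂ) : ℂ →ₗ[ℝ] ℝ where
  toFun y := cx u y
  map_add' a b := cx_add_right u a b
  map_smul' t a := by
    have h := cx_real_right t u a
    simpa using h

/-- a line has measure zero -/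
theorem knul_line (u p : ℂ) (hu : u ≠ 0) : volume {y : ℂ | cx u (y - p) = 0} = 0 := by
  have h1 : LinearMap.ker (knul_lin u) ≠ ⊤ := by
    intro h
    have h2 : Complex.I * u ∈ LinearMap.ker (knul_lin u) := by rw [h]; exact Submodule.mem_top
    have h3 : cx u (Complex.I * u) = 0 := LinearMap.mem_ker.1 h2
    rw [cx_I] at h3
    exact hu (norm_eq_zero.1 (pow_eq_zero_iff (two_ne_zero)|>.1 h3))
  have h2 : volume ((LinearMap.ker (knul_lin u) : Submodule ℝ ℂ) : Set ℂ) = 0 :=
    Measure.addHaar_submodule volume _ h1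
  have h3 : {y : ℂ | cx u (y - p) = 0} =
      (fun y => y + (-p)) ⁻¹' ((LinearMap.ker (knul_lin u) : Submodule ℝ ℂ) : Set ℂ) := by
    ext y
    simp only [mem_setOf_eq, mem_preimage, SetLike.mem_coe, LinearMap.mem_ker]
    rfl
  rw [h3, measure_preimage_add_right, h2]

theorem m_KNUL : Sk_NUL := by
  intro S r₀
  have h1 : ngl S r₀ = ⋃ js : List (ZMod 3), ⋃ k : ZMod 3, {y : ℂ |
      cx ((endP (Pl.home S r₀) js).V (k + 2) - (endP (Pl.home S r₀) js).V (k + 1))
        (y - (endP (Pl.home S r₀) js).V (k + 1)) = 0} := by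
    ext y
    simp only [ngl, mem_setOf_eq, mem_iUnion]
  rw [h1]
  refine measure_iUnion_null fun js => measure_iUnion_null fun k => knul_line _ _ ?_
  intro h0
  have h2 := (endP (Pl.home S r₀) js).orient k
  rw [h0] at h2
  simp [cx] at h2

end Pool.Agent.FAN
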