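import Pool.Agent.FAN.StK
import Pool.Agent.FAN.Base2

/-!
# FAN, block 5, module OFF (helper75): lines parallel to the central line
-/

set_option autoImplicit false

open scoped ComplexConjugate
open MeasureTheory Set

namespace Pool.Agent.FAN

theorem koff_dt_le {v : ℂ} (hv : ‖v‖ = 1) (w : ℂ) : |dt v w| ≤ ‖w‖ := by
  rw [dt_eq_re]
  refine (Complex.abs_re_le_norm _).trans ?_
  rw [norm_mul, Complex.norm_conj, hv, one_mul]

theorem koff_cx (v p A : ℂ) (s : ℝ) (hv : ‖v‖ = 1) :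
    cx v (p - (A + s * (Complex.I * v))) = cx v (p - A) - s := by
  rw [show p - (A + s * (Complex.I * v)) = (p - A) - s * (Complex.I * v) by ring, cx_sub_right,
    cx_real_right, cx_I, hv]
  ring

theorem koff_dt (v A : ℂ) (s t t' : ℝ) (hv : ‖v‖ = 1) :
    dt v ((A + s * (Complex.I * v) + t * v) - (A + t' * v)) = t - t' := by
  have h := dt_self v
  rw [hv] at h
  simp only [dt, Complex.sub_re, Complex.sub_im, Complex.add_re, Complex.add_im, Complex.mul_re,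
    Complex.mul_im, Complex.ofReal_re, Complex.ofReal_im, Complex.I_re, Complex.I_im] at h ⊢
  linear_combination (t - t') * h

/-- the crossing times of the two lines -/
theorem koff_time {S : TriSys} {r₀ : S.R} {i₀ : ZMod 3} (K : Cst S r₀ i₀) {v : ℂ} (hv : ‖v‖ = 1)
    (A : ℂ) (s : ℝ) (q : Pl S) (j : ZMod 3) (h1 : q.Ex A v j)
    (h2 : q.Ex (A + s * (Complex.I * v)) v j) :
    |q.ct (A + s * (Complex.I * v)) v j - q.ct A v j| ≤ 2 * K.D := by
  have h3 := K.dia3 q A v 0 j (Or.inl h1)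
  have h4 := K.dia3 q (A + s * (Complex.I * v)) v 0 j (Or.inl h2)
  rw [← koff_dt v A s _ _ hv]
  refine (koff_dt_le hv _).trans ?_
  have h5 := norm_sub_le (A + s * (Complex.I * v) + q.ct (A + s * (Complex.I * v)) v j * v - q.V 0)
    (A + q.ct A v j * v - q.V 0)
  rw [sub_sub_sub_cancel_right] at h5
  linarith

/-- the exit edge of the central line is the exit edge of the offset line -/
theorem koff_exit (h1 : Sk_SEC) (h2 : Sk_VTX) {S : TriSys} {r₀ : S.R} {i₀ : ZMod 3}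
    (K : Cst S r₀ i₀) (n σ φ s : ℝ) (hG : Gd K n σ φ) (hs : |s| ≤ K.h * Real.sin σ / 4)
    (js : List (ZMod 3)) (hR : Run (Pl.home S r₀) (S.P r₀ i₀) (ev φ) js)
    (ht : ∀ t ∈ cts (Pl.home S r₀) (S.P r₀ i₀) (ev φ) js, t ≤ 3 * n / 2) :
    ∃ j, (endP (Pl.home S r₀) js).Ex (S.P r₀ i₀) (ev φ) j ∧
      (endP (Pl.home S r₀) js).Ex (S.P r₀ i₀ + s * (Complex.I * ev φ)) (ev φ) j := by
  have hv := norm_ev φ
  obtain ⟨hσ0, hσ1, hφ, -, -⟩ := id hG
  have hρ0 := K.ρ0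
  have hρ1 := K.ρ1
  obtain ⟨j, hj⟩ := h1 S r₀ i₀ K n σ φ hG js hR ht
  have hj0 := hj 0 (by rw [abs_zero]; exact hσ0.le)
  rw [add_zero, Run_append] at hj0
  have hE : (endP (Pl.home S r₀) js).Ex (S.P r₀ i₀) (ev φ) j := hj0.2.1
  refine ⟨j, hE, ?_⟩
  obtain ⟨hV1, hV2, -⟩ := h2 S r₀ i₀ K n σ φ hG js hR ht
  have hsin : 0 < Real.sin σ := Real.sin_pos_of_pos_of_lt_pi hσ0 (by
    have := Real.pi_gt_three
    linarith)
  have hh : 0 < K.h * Real.sin σ := mul_pos K.h0 hsin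
  have hkey : K.h * Real.sin σ ≤ |cx (ev φ) ((endP (Pl.home S r₀) js).V (j + 2) - S.P r₀ i₀)| ∧
      K.h * Real.sin σ ≤ |cx (ev φ) ((endP (Pl.home S r₀) js).V (j + 1) - S.P r₀ i₀)| := by
    rcases eq_or_ne js [] with rfl | hne
    · have hj' : j = i₀ := Pl.Ex_unique hE (K.arc φ (by linarith))
      subst hj'
      have e2 : j + 2 ≠ j := by
        have h : ∀ j : ZMod 3, j + 2 ≠ j := by decide
        exact h j
      have e1 : j + 1 ≠ j := by
        have h : ∀ j : ZMod 3, j + 1 ≠ j := by decide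
        exact h j
      exact ⟨hV2 _ e2, hV2 _ e1⟩
    · exact ⟨hV1 hne _, hV1 hne _⟩
  obtain ⟨hs1, hs2⟩ := abs_le.1 hs
  refine ⟨?_, ?_⟩
  · rw [koff_cx _ _ _ _ hv]
    have h3 := hkey.1
    rw [abs_of_pos hE.1] at h3
    linarith
  · rw [koff_cx _ _ _ _ hv]
    have h3 := hkey.2
    rw [abs_of_neg hE.2] at h3
    linarith

theorem koff_run (h1 : Sk_SEC) (h2 : Sk_VTX) {S : TriSys} {r₀ : S.R} {i₀ : ZMod 3}
    (K : Cst S r₀ i₀) (n σ φ s : ℝ) (hG : Gd K n σ φ) (hs : |s| ≤ K.h * Real.sin σ / 4)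
    (js : List (ZMod 3))
    (hR : Run (Pl.home S r₀) (S.P r₀ i₀ + s * (Complex.I * ev φ)) (ev φ) js)
    (ht : ∀ t ∈ cts (Pl.home S r₀) (S.P r₀ i₀ + s * (Complex.I * ev φ)) (ev φ) js, t ≤ n) :
    Run (Pl.home S r₀) (S.P r₀ i₀) (ev φ) js ∧
    ∀ t ∈ cts (Pl.home S r₀) (S.P r₀ i₀) (ev φ) js, t ≤ n + 2 * K.D := by
  have hv := norm_ev φ
  have hn : 100 * K.D ≤ n := hG.2.2.2.1
  have hD := K.D1
  induction js using List.reverseRecOn with
  | nil =>
    refine ⟨trivial, fun t h => ?_⟩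
    simp [cts] at h
  | append_singleton js j ih =>
    rw [Run_append] at hR
    rw [cts_append] at ht
    obtain ⟨hR1, hR2⟩ := hR
    obtain ⟨ih1, ih2⟩ := ih hR1 fun t h => ht t (List.mem_append_left _ h)
    obtain ⟨j', hj1, hj2⟩ := koff_exit h1 h2 K n σ φ s hG hs js ih1 fun t h => by
      have := ih2 t h
      linarith
    have hjj : j' = j := Pl.Ex_unique hj2 hR2.1
    subst hjj
    refine ⟨(Run_append _ _ _ _ _).2 ⟨ih1, hj1, trivial⟩, fun t h => ?_⟩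
    rw [cts_append] at h
    rcases List.mem_append.1 h with h | h
    · exact ih2 t h
    · have h' : t = (endP (Pl.home S r₀) js).ct (S.P r₀ i₀) (ev φ) j' := by
        simpa [cts] using h
      have h3 := koff_time K hv (S.P r₀ i₀) s (endP (Pl.home S r₀) js) j' hj1 hj2
      have h4 := ht ((endP (Pl.home S r₀) js).ct (S.P r₀ i₀ + s * (Complex.I * ev φ)) (ev φ) j')
        (List.mem_append_right _ (by simp [cts]))
      rw [h']
      have h5 := (abs_le.1 h3).1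
      linarith

/-- the crossing times of the central line are positive -/
theorem koff_pos (h4 : Sa_CTS) {S : TriSys} {r₀ : S.R} {i₀ : ZMod 3}
    (K : Cst S r₀ i₀) (φ : ℝ) (hφ : |φ - K.φ₀| ≤ K.ρ) (js : List (ZMod 3))
    (hR : Run (Pl.home S r₀) (S.P r₀ i₀) (ev φ) js) :
    ∀ t ∈ cts (Pl.home S r₀) (S.P r₀ i₀) (ev φ) js, 0 < t := by
  cases js with
  | nil => intro t h; simp [cts] at h
  | cons j js =>
    have hj : j = i₀ := Pl.Ex_unique hR.1 (K.arc φ hφ)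
    subst hj
    have hA : (Pl.home S r₀).V j = S.P r₀ j := Pl.V_home r₀ j
    have h0 := K.alt (Pl.home S r₀) (ev φ) j (norm_ev φ) (by rw [hA]; exact hR.1)
    rw [hA] at h0
    have hh := K.h0
    intro t h
    have hp := (h4 S).1 (j :: js) _ _ _ hR
    change ((Pl.home S r₀).ct (S.P r₀ j) (ev φ) j :: cts ((Pl.home S r₀).nx j) (S.P r₀ j) (ev φ)
      js).Pairwise (· < ·) at hp
    change t ∈ (Pl.home S r₀).ct (S.P r₀ j) (ev φ) j :: cts ((Pl.home S r₀).nx j) (S.P r₀ j)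
      (ev φ) js at h
    rcases List.mem_cons.1 h with rfl | h
    · linarith
    · have := (List.pairwise_cons.1 hp).1 t h
      linarith

theorem m_KOFF (h1 : Sk_SEC) (h2 : Sk_VTX) (h3 : Sk_CTM) (h4 : Sa_CTS) : Sk_OFF := by
  intro S r₀ i₀ K n σ φ s hG hs js hR ht
  have hv := norm_ev φ
  have hn : 100 * K.D ≤ n := hG.2.2.2.1
  have hD := K.D1
  obtain ⟨c1, c2⟩ := koff_run h1 h2 K n σ φ s hG hs js hR ht
  have c3 : ∀ t ∈ cts (Pl.home S r₀) (S.P r₀ i₀) (ev φ) js, t ≤ 3 * n / 2 := fun t h => by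
    have := c2 t h
    linarith
  refine ⟨c1, c3, ?_, ?_⟩
  · obtain ⟨j, -, hj⟩ := koff_exit h1 h2 K n σ φ s hG hs js c1 c3
    exact ⟨j, (Run_append _ _ _ _ _).2 ⟨hR, hj, trivial⟩⟩
  · intro t h
    have hσ0 := hG.1
    have hσ1 := hG.2.1
    have hρ1 := K.ρ1
    have hρ0 := K.ρ0
    have hsin : 0 < Real.sin σ := Real.sin_pos_of_pos_of_lt_pi hσ0 (by
      have := Real.pi_gt_three
      linarith)
    obtain ⟨js₁, j, js₂, hjs, ht1⟩ := ((h3 S js _ _ _).1 t).1 h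
    have hRo := hR
    have hRc := c1
    rw [hjs, Run_append] at hRo hRc
    have e1 : (endP (Pl.home S r₀) js₁).Ex (S.P r₀ i₀) (ev φ) j := hRc.2.1
    have e2 : (endP (Pl.home S r₀) js₁).Ex (S.P r₀ i₀ + s * (Complex.I * ev φ)) (ev φ) j :=
      hRo.2.1
    have h5 := koff_time K hv (S.P r₀ i₀) s (endP (Pl.home S r₀) js₁) j e1 e2
    rw [← ht1] at h5
    obtain ⟨h6, h7⟩ := abs_le.1 h5
    have hm : (endP (Pl.home S r₀) js₁).ct (S.P r₀ i₀) (ev φ) j ∈
        cts (Pl.home S r₀) (S.P r₀ i₀) (ev φ) js :=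
      ((h3 S js _ _ _).1 _).2 ⟨js₁, j, js₂, hjs, rfl⟩
    have h8 := koff_pos h4 K φ (by
      have := hG.2.2.1
      linarith) js c1 _ hm
    refine ⟨by linarith, fun k => ?_⟩
    have h9 := (h2 S r₀ i₀ K n σ φ hG js c1 c3).2.2 _ hm k
    rw [koff_cx _ _ _ _ hv]
    have h10 := abs_sub_abs_le_abs_sub (cx (ev φ) ((endP (Pl.home S r₀) js).V k - S.P r₀ i₀)) s
    have h11 : K.h * Real.sin σ / 4 ≤ K.D * Real.sin σ := by
      have := mul_le_mul_of_nonneg_right K.hD hsin.le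
      have hh := mul_pos K.h0 hsin
      linarith
    have h12 : (t - 4 * K.D) * Real.sin σ ≤
        ((endP (Pl.home S r₀) js₁).ct (S.P r₀ i₀) (ev φ) j - 2 * K.D) * Real.sin σ :=
      mul_le_mul_of_nonneg_right (by linarith) hsin.le
    have h13 : (t - 5 * K.D) * Real.sin σ = (t - 4 * K.D) * Real.sin σ - K.D * Real.sin σ := by ring
    rw [h13]
    linarith

end Pool.Agent.FAN
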