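import Pool.Agent.FAN.StK
import Pool.Agent.FAN.Base3

/-!
# FAN, block 5, module OPN: open sets (helper5)
-/

set_option autoImplicit false

open scoped ComplexConjugate
open MeasureTheory Set

namespace Pool.Agent.FAN

variable {S : TriSys}

private theorem kopn_cx (a : ℂ) : Continuous fun p : ℝ × ℂ => cx (ev p.1) (a - p.2) :=
  continuous_cx (continuous_ev.comp continuous_fst) (continuous_const.sub continuous_snd)

private theorem kopn_ex (q : Pl S) (j : ZMod 3) : IsOpen {p : ℝ × ℂ | q.Ex p.2 (ev p.1) j} :=
  (isOpen_lt continuous_const (kopn_cx (q.V (j + 2)))).inter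
    (isOpen_lt (kopn_cx (q.V (j + 1))) continuous_const)

private theorem kopn_run (js : List (ZMod 3)) (q : Pl S) :
    IsOpen {p : ℝ × ℂ | Run q p.2 (ev p.1) js} := by
  induction js generalizing q with
  | nil =>
    have e : {p : ℝ × ℂ | Run q p.2 (ev p.1) []} = Set.univ := by
      ext p
      simp [Run]
    rw [e]
    exact isOpen_univ
  | cons j js ih => exact (kopn_ex q j).inter (ih (q.nx j))

private theorem kopn_in {X : Type*} [TopologicalSpace X] (q : Pl S) (f : X → ℂ)
    (hf : Continuous f) : IsOpen {p : X | q.In (f p)} := by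
  have e : {p : X | q.In (f p)} =
      ⋂ i : ZMod 3, {p : X | 0 < cx (q.V (i + 2) - q.V (i + 1)) (f p - q.V (i + 1))} := by
    ext p
    simp [Pl.In]
  rw [e]
  exact isOpen_iInter_of_finite fun i =>
    isOpen_lt continuous_const (continuous_cx continuous_const (hf.sub continuous_const))

private theorem kopn_h3 (q : Pl S) : Continuous fun p : ℝ × ℂ => q.h3 p.2 (ev p.1) :=
  (kopn_cx (q.V 0)).abs.min ((kopn_cx (q.V 1)).abs.min (kopn_cx (q.V 2)).abs)

private theorem kopn_clr (js : List (ZMod 3)) (q : Pl S) :
    Continuous fun p : ℝ × ℂ => clr q js p.2 (ev p.1) := by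
  induction js generalizing q with
  | nil => exact kopn_h3 q
  | cons j js ih => exact (kopn_h3 q).min (ih (q.nx j))

/-- OPN. -/
theorem m_KOPN : Sk_OPN := by
  intro S js q
  refine ⟨kopn_run js q, ?_, kopn_clr js q, ?_⟩
  · intro c
    exact kopn_in q (fun p : ℝ × ℂ => p.2 + c * ev p.1)
      (continuous_snd.add (continuous_const.mul (continuous_ev.comp continuous_fst)))
  · intro r
    exact kopn_in (Pl.home S r) (fun x : ℂ => x) continuous_id

end Pool.Agent.FAN
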