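import Pool.Agent.FAN.StK
import Pool.Agent.FAN.Base3
import Pool.Agent.FAN.A_TIM
import Pool.Agent.FAN.A_CTS
import Pool.Agent.FAN.A_ENT

/-!
# FAN, block 5, module PHP: the phase point of `y` has a window of large clearance (helper5)
-/

set_option autoImplicit false

open scoped ComplexConjugate
open MeasureTheory Set

namespace Pool.Agent.FAN

variable {S : TriSys}

private theorem kphp_TIM : Sa_TIM := m_TIM m_GLU m_ORI m_EXU

/-- the motion back to the home room -/
private theorem kphp_pw (Q : Pl S) (y v : ℂ) (N : ℝ) (js : List (ZMod 3)) (h1 : Q.In y)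
    (h2 : Run Q y v js) (h3 : (endP Q js).In (y + N * v)) :
    PW S Q.r ((y - Q.b) / Q.a) (v / Q.a) N js ∧
      clr (Pl.home S Q.r) js ((y - Q.b) / Q.a) (v / Q.a) = clr Q js y v := by
  have ha : Q.a ≠ 0 := by
    intro h
    have h' := Q.ha
    rw [h, norm_zero] at h'
    exact zero_ne_one h'
  have e1 : Q.a * ((y - Q.b) / Q.a) + Q.b = y := by
    field_simp
    ring
  have e2 : Q.a * (v / Q.a) = v := by field_simp
  have e3 : Q.a * ((y - Q.b) / Q.a + N * (v / Q.a)) + Q.b = y + N * v := by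
    field_simp
    ring
  have e4 := Pl.mv_home Q
  refine ⟨⟨?_, ?_, ?_⟩, ?_⟩
  · rw [← Pl.In_mv Q.a Q.b Q.ha, e4, e1]
    exact h1
  · rw [← Run_mv Q.a Q.b Q.ha, e4, e1, e2]
    exact h2
  · rw [← Pl.In_mv Q.a Q.b Q.ha, ← endP_mv, e4, e3]
    exact h3
  · rw [← clr_mv Q.a Q.b Q.ha, e4, e1, e2]

/-- PHP. -/
theorem m_KPHP (h1 : Sk_OFF) (h4 : Sa_UNI) : Sk_PHP := by
  intro S r₀ i₀ K n σ φ y js js' hG hB hW Q hQ
  obtain ⟨hs, ht1, ht2, hR, hI⟩ := hB
  obtain ⟨hR', hI'⟩ := hW
  have hG' := hG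
  obtain ⟨hσ0, hσ1, -, hn, -⟩ := hG'
  have hD := K.D1
  rw [← hQ] at hI hR' hI'
  set v : ℂ := ev φ with hvdef
  have hv : ‖v‖ = 1 := norm_ev φ
  set A : ℂ := S.P r₀ i₀ with hA
  set s : ℝ := cx v (y - A) with hsdef
  set t : ℝ := dt v (y - A) with htdef
  set As : ℂ := A + s * (Complex.I * v) with hAs
  have hy : y = As + t * v := by
    have h := dec hv (y - A)
    rw [hAs]
    linear_combination h
  -- the long run of the offset line
  have hrun : Run (Pl.home S r₀) As v (js ++ js') := by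
    rw [Run_append]
    constructor
    · rw [hy] at hR
      exact (Run_shift js _ As v t).1 hR
    · rw [hy, hQ] at hR'
      exact (Run_shift js' _ As v t).1 hR'
  have hend : endP (Pl.home S r₀) (js ++ js') = endP Q js' := by
    rw [endP_append, hQ]
  have hyn : y + ((n / 4 : ℝ) : ℂ) * v = As + ((t + n / 4 : ℝ) : ℂ) * v := by
    rw [hy]
    push_cast
    ring
  have hcts := m_CTS m_EXU kphp_TIM S
  have hlt : ∀ c ∈ cts (Pl.home S r₀) As v (js ++ js'), c < t + n / 4 := by
    refine hcts.2.2.1 (js ++ js') _ As v (t + n / 4) hrun ?_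
    rw [hend, ← hyn]
    exact hI'
  have htn : t + n / 4 ≤ n := by linarith
  -- `js` is not empty
  have hne : js ≠ [] := by
    intro h0
    rw [h0] at hQ
    have hQ' : Q = Pl.home S r₀ := hQ
    have h5 := K.dia2 Q y i₀ hI
    have h6 : Q.V i₀ = A := by rw [hQ', Pl.V_home]
    rw [h6] at h5
    have h7 := abs_dt_le hv (y - A)
    rw [← htdef] at h7
    have h8 := le_abs_self t
    linarith
  -- the entering time
  have hent := m_ENT m_EXU kphp_TIM (m_CTS m_EXU kphp_TIM) S
  have hrunjs : Run (Pl.home S r₀) As v js := ((Run_append js js' _ As v).1 hrun).1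
  obtain ⟨hen, -, hmem, -⟩ := hent js (Pl.home S r₀) As v 0 hne hrunjs
  rw [← hQ] at hen hmem
  set i : ZMod 3 := eI (Pl.home S r₀) 0 js with hi
  set c : ℝ := Q.ct As v i with hc
  have hct : t - 2 * K.D ≤ c := by
    have h5 := K.dia3 Q As v i i (Or.inr hen)
    have h6 := K.dia2 Q y i hI
    rw [← hc] at h5
    have h7 : ((t - c : ℝ) : ℂ) * v = (y - Q.V i) - (As + c * v - Q.V i) := by
      rw [hy]
      push_cast
      ring
    have h8 : ‖((t - c : ℝ) : ℂ) * v‖ = |t - c| := by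
      rw [norm_mul, hv, mul_one, Complex.norm_real, Real.norm_eq_abs]
    have h9 : |t - c| ≤ 2 * K.D := by
      rw [← h8, h7]
      refine (norm_sub_le _ _).trans ?_
      linarith
    have h10 := le_abs_self (t - c)
    linarith
  have hsin : 0 ≤ Real.sin σ := by
    apply Real.sin_nonneg_of_nonneg_of_le_pi hσ0.le
    have h5 := K.ρ1
    have h6 := Real.pi_gt_three
    linarith
  -- heights of all vertices of the window
  have hheight : ∀ (js₁ js₂ : List (ZMod 3)) (k : ZMod 3), js' = js₁ ++ js₂ →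
      n / 4 * Real.sin σ ≤ |cx v ((endP Q js₁).V k - y)| := by
    intro js₁ js₂ k hjs
    have e1 : js ++ js' = (js ++ js₁) ++ js₂ := by rw [hjs, List.append_assoc]
    have hr1 : Run (Pl.home S r₀) As v (js ++ js₁) := by
      rw [e1] at hrun
      exact ((Run_append _ _ _ _ _).1 hrun).1
    have hsub : ∀ d ∈ cts (Pl.home S r₀) As v (js ++ js₁), d ≤ n := by
      intro d hd
      refine ((hlt d ?_).trans_le htn).le
      rw [e1, cts_append]
      exact List.mem_append.2 (Or.inl hd)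
    obtain ⟨-, -, -, h5⟩ := h1 S r₀ i₀ K n σ φ s hG hs (js ++ js₁) hr1 hsub
    have hcm : c ∈ cts (Pl.home S r₀) As v (js ++ js₁) := by
      rw [cts_append]
      exact List.mem_append.2 (Or.inl hmem)
    have h6 := (h5 c hcm).2 k
    have e2 : endP (Pl.home S r₀) (js ++ js₁) = endP Q js₁ := by rw [endP_append, hQ]
    rw [e2] at h6
    have e3 : cx v ((endP Q js₁).V k - y) = cx v ((endP Q js₁).V k - As) := by
      rw [hy, cx_shift]
    rw [e3]
    refine le_trans ?_ h6
    refine mul_le_mul_of_nonneg_right ?_ hsin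
    linarith
  have hrunQ : Run Q y v js' := hR'
  obtain ⟨hpw, hclr⟩ := kphp_pw Q y v (n / 4) js' hI hrunQ hI'
  refine ⟨hpw, ?_⟩
  obtain ⟨-, hDD, -⟩ := h4 S Q.r _ _ _ js' js' hpw hpw
  rw [hDD, hclr]
  obtain ⟨p, hp, hp'⟩ := clr_mem js' Q y v
  rw [hp']
  obtain ⟨js₁, js₂, k, hjs, rfl⟩ := (mem_vl js' Q p).1 hp
  exact hheight js₁ js₂ k hjs

end Pool.Agent.FAN
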