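import Pool.Agent.FAN.StK

/-!
# FAN, block 5, module RCT: area of a rotated rectangle (helper72)
-/

set_option autoImplicit false

open scoped ComplexConjugate
open MeasureTheory Set

namespace Pool.Agent.FAN

theorem m_KRCT : Sk_RCT := by
  intro A v x t₁ t₂ hv hx ht
  have hcv : ‖conj v‖ = 1 := by rw [RCLike.norm_conj]; exact hv
  -- the motion
  let c : Circle := ⟨conj v, mem_sphere_zero_iff_norm.2 hcv⟩
  have hc : ∀ z : ℂ, rotation c z = conj v * z := fun z => rfl
  have hrot : MeasurePreserving (fun z : ℂ => rotation c z) volume volume :=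
    (rotation c).measurePreserving
  have htr : MeasurePreserving (fun z : ℂ => z - A) volume volume :=
    measurePreserving_sub_right volume A
  have hf : MeasurePreserving (fun y : ℂ => rotation c (y - A)) volume volume := hrot.comp htr
  have hbox : MeasurableSet (Icc t₁ t₂ ×ˢ Icc (-x) x : Set (ℝ × ℝ)) :=
    measurableSet_Icc.prod measurableSet_Icc
  have hset : {y : ℂ | |cx v (y - A)| ≤ x ∧ t₁ ≤ dt v (y - A) ∧ dt v (y - A) ≤ t₂} =
      (fun y : ℂ => rotation c (y - A)) ⁻¹' (Complex.measurableEquivRealProd ⁻¹'
        (Icc t₁ t₂ ×ˢ Icc (-x) x : Set (ℝ × ℝ))) := by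
    ext y
    have e1 : (conj v * (y - A)).re = dt v (y - A) := by
      rw [Complex.mul_re, Complex.conj_re, Complex.conj_im]
      unfold dt
      ring
    have e2 : (conj v * (y - A)).im = cx v (y - A) := by
      rw [Complex.mul_im, Complex.conj_re, Complex.conj_im]
      unfold cx
      ring
    simp only [mem_ofPred_eq, mem_preimage, mem_prod, mem_Icc, hc,
      Complex.measurableEquivRealProd_apply, e1, e2, abs_le]
    tauto
  rw [hset, hf.measure_preimage
    (Complex.measurableEquivRealProd.measurable hbox).nullMeasurableSet,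
    Complex.volume_preserving_equiv_real_prod.measure_preimage hbox.nullMeasurableSet,
    Measure.volume_eq_prod, Measure.prod_prod, Real.volume_Icc, Real.volume_Icc,
    ← ENNReal.ofReal_mul (by linarith)]
  congr 1
  ring

end Pool.Agent.FAN
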