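import Pool.Agent.FAN.StK
import Pool.Agent.FAN.Base2
import Pool.Agent.FAN.A_TIM
import Pool.Agent.FAN.A_CTS
import Pool.Agent.FAN.A_ENT

/-!
# FAN, block 5, module SEC (helper20): the sector of a good direction runs the same word
-/

set_option autoImplicit false

open scoped ComplexConjugate
open MeasureTheory Set

namespace Pool.Agent.FAN

variable {S : TriSys} {r₀ : S.R} {i₀ : ZMod 3}

private theorem ksec_cont (w : ℂ) (φ : ℝ) : Continuous fun s : ℝ => cx (ev (φ + s)) w := by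
  simp only [cx, ev]
  fun_prop

/-- crossing times of a line from the corner are positive -/
theorem ksec_pos (hCTS : Sa_CTS) (K : Cst S r₀ i₀) (ψ : ℝ) (hψ : |ψ - K.φ₀| ≤ K.ρ)
    (js : List (ZMod 3)) (hrun : Run (Pl.home S r₀) (S.P r₀ i₀) (ev ψ) js) (hne : js ≠ []) :
    (∃ js', js = i₀ :: js') ∧
      ∀ t ∈ cts (Pl.home S r₀) (S.P r₀ i₀) (ev ψ) js, K.h ≤ t := by
  obtain ⟨k, rest, rfl⟩ := List.exists_cons_of_ne_nil hne
  have hk : k = i₀ := Pl.Ex_unique hrun.1 (K.arc ψ hψ)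
  subst hk
  refine ⟨⟨rest, rfl⟩, ?_⟩
  have hpw := hCTS S |>.1 (k :: rest) (Pl.home S r₀) (S.P r₀ k) (ev ψ) hrun
  have hfirst : K.h ≤ (Pl.home S r₀).ct (S.P r₀ k) (ev ψ) k := by
    have h1 := K.alt (Pl.home S r₀) (ev ψ) k (norm_ev ψ)
    rw [Pl.V_home] at h1
    exact h1 hrun.1
  intro t ht
  have e : cts (Pl.home S r₀) (S.P r₀ k) (ev ψ) (k :: rest) =
      (Pl.home S r₀).ct (S.P r₀ k) (ev ψ) k ::
        cts ((Pl.home S r₀).nx k) (S.P r₀ k) (ev ψ) rest := rfl
  rw [e] at ht hpw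
  rcases List.mem_cons.1 ht with h | h
  · rw [h]
    exact hfirst
  · exact hfirst.trans ((List.pairwise_cons.1 hpw).1 t h).le

theorem m_KSEC (h1 : Sk_SCL) : Sk_SEC := by
  intro S r₀ i₀ K n σ φ hG js
  have hTIM : Sa_TIM := m_TIM m_GLU m_ORI m_EXU
  have hCTS : Sa_CTS := m_CTS m_EXU hTIM
  have hENT : Sa_ENT := m_ENT m_EXU hTIM hCTS
  obtain ⟨hσ0, hσ, hφ, hn, hgd⟩ := hG
  have harc : ∀ s : ℝ, |s| ≤ σ → |φ + s - K.φ₀| ≤ K.ρ := by
    intro s hs
    calc |φ + s - K.φ₀| = |(φ - K.φ₀) + s| := by ring_nf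
      _ ≤ |φ - K.φ₀| + |s| := abs_add_le _ _
      _ ≤ K.ρ := by linarith
  induction js using List.reverseRecOn with
  | nil =>
    intro _ _
    refine ⟨i₀, fun s hs => ?_⟩
    exact ⟨K.arc _ (harc s hs), trivial⟩
  | append_singleton js₁ j₁ ih =>
    intro hrun hct
    have hr1 := (Run_append js₁ [j₁] _ _ _).1 hrun
    obtain ⟨j', hj'⟩ := ih hr1.1 (fun t ht => hct t (by
      rw [cts_append]
      exact List.mem_append_left _ ht))
    have hj0 := (Run_append js₁ [j'] _ _ _).1 (hj' 0 (by simpa using hσ0.le))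
    rw [add_zero] at hj0
    have hjj : j' = j₁ := Pl.Ex_unique hj0.2.1 hr1.2.1
    subst hjj
    have hne : js₁ ++ [j'] ≠ [] := by simp
    set js := js₁ ++ [j'] with hjs
    set A := S.P r₀ i₀ with hA
    set q₀ := Pl.home S r₀ with hq₀
    set q := endP q₀ js with hq
    set i := eI q₀ i₀ js with hi
    set p := q.V i with hp
    have hent : ∀ s : ℝ, |s| ≤ σ → q.En A (ev (φ + s)) i ∧
        q.ct A (ev (φ + s)) i ∈ cts q₀ A (ev (φ + s)) js := by
      intro s hs
      obtain ⟨a1, -, a3, -⟩ := hENT S js q₀ A (ev (φ + s)) i₀ hne (hj' s hs)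
      exact ⟨a1, a3⟩
    have hct_pos : ∀ s : ℝ, |s| ≤ σ → 0 < q.ct A (ev (φ + s)) i := by
      intro s hs
      exact lt_of_lt_of_le K.h0 ((ksec_pos hCTS K (φ + s) (harc s hs) js (hj' s hs) hne).2 _
        (hent s hs).2)
    have h0 : |(0 : ℝ)| ≤ σ := by simpa using hσ0.le
    have claim : ∀ s : ℝ, |s| ≤ σ → cx (ev (φ + s)) (p - A) ≠ 0 := by
      intro s hs hzero
      obtain ⟨-, -, -, -, -, -, -, -, t9⟩ := hTIM S
      obtain ⟨b1, b2⟩ := t9 q A (ev (φ + s)) i (norm_ev _) (hent s hs).1 hzero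
      set l := dt (ev (φ + s)) (q.V i - A) with hl
      have hl0 : 0 < l := (hct_pos s hs).trans b2
      have hpA : p - A = (l : ℂ) * ev (φ + s) := by
        rw [hp, b1]
        ring
      have hrunp : Run q₀ A (p - A) js := by
        rw [hpA]
        exact ((h1 S js q₀ A (ev (φ + s))).1 l hl0).2 (hj' s hs)
      have hnorm : ‖p - A‖ ≤ 2 * n := by
        have e0 := hent 0 h0
        have c0 := hct_pos 0 h0
        rw [add_zero] at e0 c0
        have hc := hct _ e0.2
        have hd := K.dia3 q A (ev φ) i i (Or.inr e0.1)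
        have e1 : p - A = (q.ct A (ev φ) i : ℂ) * ev φ -
            (A + (q.ct A (ev φ) i : ℂ) * ev φ - q.V i) := by
          rw [hp]
          ring
        have e2 : ‖(q.ct A (ev φ) i : ℂ) * ev φ‖ = q.ct A (ev φ) i := by
          rw [norm_mul, norm_ev, mul_one, Complex.norm_real, Real.norm_eq_abs, abs_of_pos c0]
        rw [e1]
        refine (norm_sub_le _ _).trans ?_
        rw [e2]
        have hD := K.D1
        linarith
      have hmem : js ∈ GG S r₀ i₀ (2 * n) :=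
        ⟨(ksec_pos hCTS K (φ + s) (harc s hs) js (hj' s hs) hne).1, hrunp, hnorm⟩
      exact hgd js hmem s l hs hl0 hpA
    have hsign : ∀ s : ℝ, |s| ≤ σ → ∀ ε : ℝ, (ε = 1 ∨ ε = -1) →
        0 < ε * cx (ev (φ + 0)) (p - A) → 0 < ε * cx (ev (φ + s)) (p - A) := by
      intro s hs ε hε hpos
      by_contra hcon
      have hcont : ContinuousOn (fun u : ℝ => ε * cx (ev (φ + u)) (p - A)) (uIcc 0 s) :=
        (continuous_const.mul (ksec_cont (p - A) φ)).continuousOn
      have h3 : (0 : ℝ) ∈ uIcc (ε * cx (ev (φ + 0)) (p - A)) (ε * cx (ev (φ + s)) (p - A)) := by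
        rw [mem_uIcc]
        exact Or.inr ⟨not_lt.1 hcon, hpos.le⟩
      obtain ⟨u, hu, hu0⟩ := intermediate_value_uIcc hcont h3
      have hu' : u ∈ Icc (-σ) σ := uIcc_subset_Icc (abs_le.1 h0) (abs_le.1 hs) hu
      have hne0 := claim u (abs_le.2 hu')
      have hε0 : ε ≠ 0 := by
        rcases hε with h | h
        · rw [h]
          norm_num
        · rw [h]
          norm_num
      exact (mul_ne_zero hε0 hne0) hu0
    obtain ⟨-, -, -, x4, -⟩ := m_EXU S
    rcases lt_or_gt_of_ne (claim 0 h0) with hneg | hpos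
    · refine ⟨i + 2, fun s hs => ?_⟩
      have h5 := hsign s hs (-1) (Or.inr rfl) (by linarith)
      refine (Run_append js [i + 2] q₀ A (ev (φ + s))).2 ⟨hj' s hs, ?_, trivial⟩
      exact (x4 q A (ev (φ + s)) i (hent s hs).1).2 (by
        have : cx (ev (φ + s)) (p - A) < 0 := by linarith
        exact this)
    · refine ⟨i + 1, fun s hs => ?_⟩
      have h5 := hsign s hs 1 (Or.inl rfl) (by linarith)
      refine (Run_append js [i + 1] q₀ A (ev (φ + s))).2 ⟨hj' s hs, ?_, trivial⟩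
      exact (x4 q A (ev (φ + s)) i (hent s hs).1).1 (by
        have : 0 < cx (ev (φ + s)) (p - A) := by linarith
        exact this)

end Pool.Agent.FAN
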