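import Pool.Agent.FAN.StK

/-!
# FAN, block 5: SUM (helper16). Sum of the measures of the sets of the change of variables.
-/

set_option autoImplicit false

open scoped ComplexConjugate
open MeasureTheory Set

namespace Pool.Agent.FAN

theorem m_KSUM (h1 : Sk_MSB) (h2 : Sk_COV) : Sk_SUM := by
  intro S r₀ i₀ K n σ G hG hGd
  set c : ENNReal := ENNReal.ofReal (2 * (K.h * Real.sin σ / 4) * (n / 4)) with hc
  set U : Set (ℝ × ℂ) := ⋃ p : List (ZMod 3) × List (ZMod 3), BB K n σ G p.1 p.2 with hU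
  have hUm : MeasurableSet U := MeasurableSet.iUnion fun p => h1 S r₀ i₀ K n σ G p.1 p.2 hG
  have hslice : ∀ φ ∈ G, c ≤ volume (Prod.mk φ ⁻¹' U) := by
    intro φ hφ
    refine le_trans (h2 S r₀ i₀ K n σ φ (hGd φ hφ)) (measure_mono ?_)
    rintro y ⟨js, js', hB, hW⟩
    exact mem_iUnion.2 ⟨(js, js'), hφ, hB, hW⟩
  calc volume G * c = ∫⁻ _ in G, c := by rw [setLIntegral_const, mul_comm]
    _ ≤ ∫⁻ φ in G, volume (Prod.mk φ ⁻¹' U) :=
        setLIntegral_mono (measurable_measure_prodMk_left hUm) hslice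
    _ ≤ ∫⁻ φ, volume (Prod.mk φ ⁻¹' U) := setLIntegral_le_lintegral _ _
    _ = volume U := by rw [Measure.volume_eq_prod, Measure.prod_apply hUm]
    _ ≤ ∑' p : List (ZMod 3) × List (ZMod 3), volume (BB K n σ G p.1 p.2) :=
        measure_iUnion_le _

end Pool.Agent.FAN
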