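import Pool.Agent.FAN.StK
import Pool.Agent.FAN.Base2
import Pool.Agent.FAN.A_TIM
import Pool.Agent.FAN.A_CTS
import Pool.Agent.FAN.A_ENT

/-!
# FAN, block 5: VTX (helper19). Heights of vertices over the central line of a good sector.
-/

set_option autoImplicit false

open scoped ComplexConjugate
open MeasureTheory Set

namespace Pool.Agent.FAN

variable {S : TriSys} {r₀ : S.R} {i₀ : ZMod 3}

private theorem kvtx_tim : Sa_TIM := m_TIM m_GLU m_ORI m_EXU

private theorem kvtx_cts : Sa_CTS := m_CTS m_EXU kvtx_tim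

private theorem kvtx_ent : Sa_ENT := m_ENT m_EXU kvtx_tim kvtx_cts

/-- a line from a vertex leaves the room through the opposite edge -/
private theorem kvtx_first (q : Pl S) (v : ℂ) (i j : ZMod 3) (h : q.Ex (q.V i) v j) : j = i := by
  rcases z_cases j i with rfl | rfl | rfl
  · rfl
  · exfalso
    have h2 := h.2
    rw [sub_self] at h2
    simp [cx] at h2
  · exfalso
    have h2 := h.1
    rw [sub_self] at h2
    simp [cx] at h2

/-- the crossing times of a line from the corner are at least `h` -/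
private theorem kvtx_ge (K : Cst S r₀ i₀) (ψ : ℝ) (js : List (ZMod 3))
    (hr : Run (Pl.home S r₀) (S.P r₀ i₀) (ev ψ) js) :
    ∀ t ∈ cts (Pl.home S r₀) (S.P r₀ i₀) (ev ψ) js, K.h ≤ t := by
  cases js with
  | nil => intro t ht; simp [cts] at ht
  | cons j js =>
    have hE : (Pl.home S r₀).Ex (S.P r₀ i₀) (ev ψ) j := hr.1
    have hA : (Pl.home S r₀).V i₀ = S.P r₀ i₀ := Pl.V_home r₀ i₀
    have hj : j = i₀ := by
      rw [← hA] at hE
      exact kvtx_first _ _ _ _ hE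
    have h0 : K.h ≤ (Pl.home S r₀).ct (S.P r₀ i₀) (ev ψ) j := by
      have h1 := K.alt (Pl.home S r₀) (ev ψ) i₀ (norm_ev ψ)
      rw [hA] at h1
      rw [hj] at hE ⊢
      exact h1 hE
    have hp := (kvtx_cts S).1 (j :: js) (Pl.home S r₀) (S.P r₀ i₀) (ev ψ) hr
    intro t ht
    simp only [cts, List.mem_cons] at ht
    simp only [cts, List.pairwise_cons] at hp
    rcases ht with rfl | ht
    · exact h0
    · exact h0.trans (hp.1 t ht).le

theorem m_KVTX (h1 : Sk_SEC) (h2 : Sk_HTR) : Sk_VTX := by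
  intro S r₀ i₀ K n σ φ hG js hR hT
  obtain ⟨hσ0, hσρ, hφ, hn, hgd⟩ := id hG
  have hσ1 : σ ≤ 1 := by have := K.ρ1; have := K.ρ0; linarith
  have hsin : 0 ≤ Real.sin σ :=
    Real.sin_nonneg_of_nonneg_of_le_pi hσ0.le (by have := Real.pi_gt_three; linarith)
  have hA : (Pl.home S r₀).V i₀ = S.P r₀ i₀ := Pl.V_home r₀ i₀
  obtain ⟨j, hj⟩ := h1 S r₀ i₀ K n σ φ hG js hR hT
  have hz : |(0 : ℝ)| ≤ σ := by rw [abs_zero]; exact hσ0.le
  -- the nonempty case
  have key : js ≠ [] → ∀ τ : ℝ,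
      (∀ s : ℝ, |s| ≤ σ → τ ≤ (endP (Pl.home S r₀) js).ct (S.P r₀ i₀) (ev (φ + s))
        (eI (Pl.home S r₀) i₀ js)) → ∀ k, τ * Real.sin σ ≤
      |cx (ev φ) ((endP (Pl.home S r₀) js).V k - S.P r₀ i₀)| := by
    intro hne τ hτ
    refine (h2 S (endP (Pl.home S r₀) js) (S.P r₀ i₀) φ σ τ hσ0.le hσ1).1
      (eI (Pl.home S r₀) i₀ js) j ?_
    intro s hs
    have hrun := (Run_append js [j] (Pl.home S r₀) (S.P r₀ i₀) (ev (φ + s))).1 (hj s hs)
    exact ⟨(kvtx_ent S js (Pl.home S r₀) (S.P r₀ i₀) (ev (φ + s)) i₀ hne hrun.1).1, hrun.2.1, hτ s hs⟩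
  have hge : js ≠ [] → ∀ s : ℝ, |s| ≤ σ → K.h ≤ (endP (Pl.home S r₀) js).ct (S.P r₀ i₀) (ev (φ + s))
      (eI (Pl.home S r₀) i₀ js) := by
    intro hne s hs
    have hrun := (Run_append js [j] (Pl.home S r₀) (S.P r₀ i₀) (ev (φ + s))).1 (hj s hs)
    exact kvtx_ge K (φ + s) js hrun.1 _
      (kvtx_ent S js (Pl.home S r₀) (S.P r₀ i₀) (ev (φ + s)) i₀ hne hrun.1).2.2.1
  refine ⟨fun hne => key hne K.h (hge hne), ?_, ?_⟩
  · -- the home room
    have h3 := (h2 S (Pl.home S r₀) (S.P r₀ i₀) φ σ K.h hσ0.le hσ1).2 i₀ (by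
      intro s hs
      have hE : (Pl.home S r₀).Ex (S.P r₀ i₀) (ev (φ + s)) i₀ := by
        apply K.arc
        have e : φ + s - K.φ₀ = (φ - K.φ₀) + s := by ring
        rw [e]
        exact (abs_add_le _ _).trans (by linarith)
      refine ⟨hE, ?_⟩
      have h4 := K.alt (Pl.home S r₀) (ev (φ + s)) i₀ (norm_ev _)
      rw [hA] at h4
      exact h4 hE)
    exact h3
  · intro t ht k
    have hne : js ≠ [] := by
      rintro rfl
      simp [cts] at ht
    have hent := kvtx_ent S js (Pl.home S r₀) (S.P r₀ i₀) (ev φ) i₀ hne hR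
    set q := endP (Pl.home S r₀) js with hq
    set i := eI (Pl.home S r₀) i₀ js with hi
    have htc : t ≤ q.ct (S.P r₀ i₀) (ev φ) i := hent.2.2.2 t ht
    have hc0 : K.h ≤ q.ct (S.P r₀ i₀) (ev φ) i := kvtx_ge K φ js hR _ hent.2.2.1
    have hd0 := K.dia3 q (S.P r₀ i₀) (ev φ) 0 i (Or.inr hent.1)
    have hk := key hne (q.ct (S.P r₀ i₀) (ev φ) i - 2 * K.D) (by
      intro s hs
      have hrun := (Run_append js [j] (Pl.home S r₀) (S.P r₀ i₀) (ev (φ + s))).1 (hj s hs)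
      have hE := (kvtx_ent S js (Pl.home S r₀) (S.P r₀ i₀) (ev (φ + s)) i₀ hne hrun.1).1
      have hcs : K.h ≤ q.ct (S.P r₀ i₀) (ev (φ + s)) i := hge hne s hs
      have hds := K.dia3 q (S.P r₀ i₀) (ev (φ + s)) 0 i (Or.inr hE)
      have hh := K.h0
      have n0 : ‖(q.ct (S.P r₀ i₀) (ev φ) i : ℂ) * ev φ‖ = q.ct (S.P r₀ i₀) (ev φ) i := by
        rw [norm_mul, norm_ev, mul_one, Complex.norm_real, Real.norm_eq_abs, abs_of_pos (by linarith)]
      have ns : ‖(q.ct (S.P r₀ i₀) (ev (φ + s)) i : ℂ) * ev (φ + s)‖ =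
          q.ct (S.P r₀ i₀) (ev (φ + s)) i := by
        rw [norm_mul, norm_ev, mul_one, Complex.norm_real, Real.norm_eq_abs, abs_of_pos (by linarith)]
      have e : (q.ct (S.P r₀ i₀) (ev φ) i : ℂ) * ev φ =
          (q.ct (S.P r₀ i₀) (ev (φ + s)) i : ℂ) * ev (φ + s) +
          ((S.P r₀ i₀ + q.ct (S.P r₀ i₀) (ev φ) i * ev φ - q.V 0) -
          (S.P r₀ i₀ + q.ct (S.P r₀ i₀) (ev (φ + s)) i * ev (φ + s) - q.V 0)) := by ring
      have h5 : ‖(q.ct (S.P r₀ i₀) (ev φ) i : ℂ) * ev φ‖ ≤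
          ‖(q.ct (S.P r₀ i₀) (ev (φ + s)) i : ℂ) * ev (φ + s)‖ + (K.D + K.D) := by
        rw [e]
        refine (norm_add_le _ _).trans ?_
        gcongr
        exact (norm_sub_le _ _).trans (add_le_add hd0 hds)
      rw [n0, ns] at h5
      linarith)
    refine le_trans ?_ (hk k)
    exact mul_le_mul_of_nonneg_right (by linarith) hsin

end Pool.Agent.FAN
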