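import Pool.Agent.FAN.Base3
import Pool.Agent.FAN.A_CTS
import Pool.Agent.FAN.A_TIM
import Pool.Agent.FAN.A_UNI
import Pool.Agent.FAN.K_ABS
import Pool.Agent.FAN.K_COV
import Pool.Agent.FAN.K_CST
import Pool.Agent.FAN.K_DIR
import Pool.Agent.FAN.K_EXI
import Pool.Agent.FAN.K_FIN
import Pool.Agent.FAN.K_FLO
import Pool.Agent.FAN.K_GDM
import Pool.Agent.FAN.K_HTR
import Pool.Agent.FAN.K_INJ
import Pool.Agent.FAN.K_LOW
import Pool.Agent.FAN.K_MSB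
import Pool.Agent.FAN.K_MSD
import Pool.Agent.FAN.K_NUL
import Pool.Agent.FAN.K_OFF
import Pool.Agent.FAN.K_OPN
import Pool.Agent.FAN.K_PHP
import Pool.Agent.FAN.K_RCT
import Pool.Agent.FAN.K_SEC
import Pool.Agent.FAN.K_SUM
import Pool.Agent.FAN.K_VTX

/-!
# FAN, block 5: assembly (helper15)
-/

set_option autoImplicit false

namespace Pool.Agent.FAN

theorem k_low_all : Sk_LOW := by
  have hC : Sa_CTS := m_CTS m_EXU (m_TIM m_GLU m_ORI m_EXU)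
  have hU : Sa_UNI := m_UNI m_EXU (m_TIM m_GLU m_ORI m_EXU) hC
  have hSEC : Sk_SEC := m_KSEC m_KSCL
  have hVTX : Sk_VTX := m_KVTX hSEC m_KHTR
  have hOFF : Sk_OFF := m_KOFF hSEC hVTX m_KCTM hC
  have hCOV : Sk_COV := m_KCOV (m_KEXI hOFF) m_KNUL m_KRCT
  have hMSB : Sk_MSB := m_KMSB m_KOPN
  exact m_KLOW (m_KCST m_KDIR) (m_KGDM (m_KFIN m_KSCL)) m_KABS (m_KMSD m_KOPN hU) hMSB
    (m_KPHP hOFF hU) (m_KINJ hOFF hVTX) (m_KSUM hMSB hCOV) hU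

end Pool.Agent.FAN
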