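import Pool.Agent.FAN.StK

/-!
# FAN, block 5: module MSB, measurability of the sets of the change of variables
-/

set_option autoImplicit false

open scoped ComplexConjugate
open MeasureTheory Set

namespace Pool.Agent.FAN

private lemma kmsb_ev : Continuous ev := by
  have h : ev = fun ψ : ℝ => ((Real.cos ψ : ℝ) : ℂ) + ((Real.sin ψ : ℝ) : ℂ) * Complex.I := by
    funext ψ
    apply Complex.ext
    · simp only [ev, Complex.add_re, Complex.mul_re, Complex.ofReal_re, Complex.ofReal_im,
        Complex.I_re, Complex.I_im]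
      ring
    · simp only [ev, Complex.add_im, Complex.mul_im, Complex.ofReal_re, Complex.ofReal_im,
        Complex.I_re, Complex.I_im]
      ring
  rw [h]
  fun_prop

private lemma kmsb_cx (A : ℂ) : Continuous fun p : ℝ × ℂ => cx (ev p.1) (p.2 - A) := by
  have h := kmsb_ev
  unfold cx
  fun_prop

private lemma kmsb_dt (A : ℂ) : Continuous fun p : ℝ × ℂ => dt (ev p.1) (p.2 - A) := by
  have h := kmsb_ev
  unfold dt
  fun_prop

/-- MSB. -/
theorem m_KMSB (h1 : Sk_OPN) : Sk_MSB := by
  intro S r₀ i₀ K n σ G js js' hG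
  have hcx := kmsb_cx (S.P r₀ i₀)
  have hdt := kmsb_dt (S.P r₀ i₀)
  have a1 : MeasurableSet {p : ℝ × ℂ | |cx (ev p.1) (p.2 - S.P r₀ i₀)| ≤
      K.h * Real.sin σ / 4} := (isClosed_le hcx.abs continuous_const).measurableSet
  have a2 : MeasurableSet {p : ℝ × ℂ | n / 2 ≤ dt (ev p.1) (p.2 - S.P r₀ i₀)} :=
    (isClosed_le continuous_const hdt).measurableSet
  have a3 : MeasurableSet {p : ℝ × ℂ | dt (ev p.1) (p.2 - S.P r₀ i₀) ≤ 3 * n / 4} :=
    (isClosed_le hdt continuous_const).measurableSet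
  have a4 := (h1 S js (Pl.home S r₀)).1.measurableSet
  have a5 := ((h1 S js (endP (Pl.home S r₀) js)).2.1 0).measurableSet
  have b1 := (h1 S js' (endP (Pl.home S r₀) js)).1.measurableSet
  have b2 := ((h1 S js (endP (endP (Pl.home S r₀) js) js')).2.1 (n / 4)).measurableSet
  have g : MeasurableSet {p : ℝ × ℂ | p.1 ∈ G} := measurable_fst hG
  have e5 : {p : ℝ × ℂ | (endP (Pl.home S r₀) js).In (p.2 + (0 : ℝ) * ev p.1)} =
      {p : ℝ × ℂ | (endP (Pl.home S r₀) js).In p.2} := by
    ext p
    simp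
  rw [e5] at a5
  exact g.inter ((a1.inter (a2.inter (a3.inter (a4.inter a5)))).inter (b1.inter b2))

end Pool.Agent.FAN
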