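import Mathlib

/-!
# The pointwise lens inequality (helper20)

Unit length `1`, a vertex at the origin, left vertices `(t i, α i)`, right vertices `(s j, -β j)`. The strip
`|y - h (1 - θ t)| < w` of the pencil `θ` contains the origin iff `|h| ≤ w`; it is free iff
`w + h (1 - θ t i) ≤ α i` and `w - h (1 - θ s j) ≤ β j`. With `a`, `b` lower bounds of the `α i`, `β j` and
`x`, `y` the half widths of the free strips with the origin on the right / left boundary, there is a free strip
of half width at least `(2 - θ)² / 2 * x * y * (1 / a + 1 / b)`.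
-/

set_option autoImplicit false

namespace Pool.Agent.FAN

namespace LensPt

variable {ι κ : Type*}

/-- the data of the inequality; `x` and `y` are free and at least as large as the trivial lower bounds -/
structure Dat (θ a b x y : ℝ) (t α : ι → ℝ) (s β : κ → ℝ) : Prop where
  θ0 : 0 < θ
  θ1 : θ ≤ 1
  a0 : 0 < a
  b0 : 0 < b
  y0 : 0 < y
  x0 : 0 < x
  t0 : ∀ i, 0 ≤ t i
  t1 : ∀ i, t i ≤ 1
  s0 : ∀ j, 0 ≤ s j
  s1 : ∀ j, s j ≤ 1
  ha : ∀ i, a ≤ α i
  hb : ∀ j, b ≤ β j
  xα : ∀ i, x * (2 - θ * t i) ≤ α i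
  xβ : ∀ j, x * (θ * s j) ≤ β j
  yβ : ∀ j, y * (2 - θ * s j) ≤ β j
  yα : ∀ i, y * (θ * t i) ≤ α i
  xa : x * (2 - θ) ≤ a
  yb : y * (2 - θ) ≤ b
  xl : a ≤ 2 * x ∨ b ≤ θ * x
  yl : b ≤ 2 * y ∨ a ≤ θ * y

theorem Dat.symm {θ a b x y : ℝ} {t α : ι → ℝ} {s β : κ → ℝ} (D : Dat θ a b x y t α s β) :
    Dat θ b a y x s β t α :=
  ⟨D.θ0, D.θ1, D.b0, D.a0, D.x0, D.y0, D.s0, D.s1, D.t0, D.t1, D.hb, D.ha, D.yβ, D.yα, D.xα, D.xβ,
    D.yb, D.xa, D.yl, D.xl⟩

/-- the case `b ≤ a` -/
theorem aux {θ a b x y : ℝ} {t α : ι → ℝ} {s β : κ → ℝ} (D : Dat θ a b x y t α s β) (hab : b ≤ a) :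
    ∃ h w : ℝ, |h| ≤ w ∧ (2 - θ) ^ 2 / 2 * (x * y) * (1 / a + 1 / b) ≤ w ∧
      (∀ i, w + h * (1 - θ * t i) ≤ α i) ∧ ∀ j, w - h * (1 - θ * s j) ≤ β j := by
  obtain ⟨θ0, θ1, a0, b0, y0, x0, t0, t1, s0, s1, ha, hb, xα, xβ, yβ, yα, xa, yb, xl, yl⟩ := D
  -- the target is at most `T' = (2 - θ) / 2 * x * (1 + b / a)`
  have hT : (2 - θ) ^ 2 / 2 * (x * y) * (1 / a + 1 / b) ≤ (2 - θ) / 2 * x * ((a + b) / a) := by
    have e1 : (2 - θ) ^ 2 / 2 * (x * y) * (1 / a + 1 / b) =
        (2 - θ) / 2 * x * ((a + b) / a) * (y * (2 - θ) / b) := by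
      field_simp
      ring
    rw [e1]
    have h1 : y * (2 - θ) / b ≤ 1 := by
      rw [div_le_one b0]
      exact yb
    have h2 : 0 ≤ (2 - θ) / 2 * x * ((a + b) / a) := by
      have : 0 ≤ 2 - θ := by linarith
      positivity
    exact mul_le_of_le_one_right h2 h1
  by_cases hc : b * (2 - θ) ≤ θ * a
  · -- the strip with the origin on its boundary
    refine ⟨x, x, le_of_eq (abs_of_pos x0), hT.trans ?_, ?_, ?_⟩
    · have h1 : (2 - θ) / 2 * x * ((a + b) / a) = x * ((2 - θ) * (a + b) / (2 * a)) := by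
        field_simp
      rw [h1]
      refine mul_le_of_le_one_right x0.le ?_
      rw [div_le_one (by positivity)]
      nlinarith
    · intro i
      have := xα i
      nlinarith
    · intro j
      have := xβ j
      nlinarith
  · rw [not_le] at hc
    -- `a ≤ 2 x`
    have hx2 : a ≤ 2 * x := by
      rcases xl with h | h
      · exact h
      · exfalso
        have h1 : θ * x * (2 - θ) ≤ θ * a := by nlinarith
        nlinarith
    have hxb : θ * x < b := by
      have h1 : θ * x * (2 - θ) ≤ θ * a := by nlinarith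
      have h2 : θ * x * (2 - θ) < b * (2 - θ) := by linarith
      exact lt_of_mul_lt_mul_right h2 (by linarith)
    have hden : 0 < a - θ * x := by linarith
    -- the strip
    set h : ℝ := x * (a - b) / (a - θ * x) with hh
    have hh' : h * (a - θ * x) = x * (a - b) := div_mul_cancel₀ _ hden.ne'
    have h0 : 0 ≤ h := div_nonneg (mul_nonneg x0.le (by linarith)) hden.le
    have hx : h ≤ x := by
      rw [hh, div_le_iff₀ hden]
      have : 0 ≤ x * (b - θ * x) := mul_nonneg x0.le (by linarith)
      nlinarith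
    set w : ℝ := b + h * (1 - θ) with hw
    have hwh : h ≤ w := by
      -- `w - h = b - θ h ≥ 0`
      have : θ * h ≤ θ * x := mul_le_mul_of_nonneg_left hx θ0.le
      rw [hw]
      linarith
    refine ⟨h, w, by rwa [abs_of_nonneg h0], hT.trans ?_, ?_, ?_⟩
    · -- the width
      have e1 : (2 - θ) / 2 * x * ((a + b) / a) = ((2 - θ) * x * (a + b)) / (2 * a) := by
        field_simp
      rw [e1, div_le_iff₀ (by positivity)]
      -- multiply by `a - θ x`
      have hw2 : w * (a - θ * x) = b * (a - θ * x) + x * (a - b) * (1 - θ) := by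
        rw [hw, add_mul]
        have : h * (1 - θ) * (a - θ * x) = h * (a - θ * x) * (1 - θ) := by ring
        rw [this, hh']
      refine le_of_mul_le_mul_right ?_ hden
      have e2 : w * (2 * a) * (a - θ * x) =
          2 * a * (b * (a - θ * x) + x * (a - b) * (1 - θ)) := by
        rw [← hw2]
        ring
      rw [e2]
      -- affine in `b`, increasing, nonnegative at `b = θ x`
      have k1 : 0 ≤ a - (2 - θ) * x := by linarith
      have key : 2 * a * (b * (a - θ * x) + x * (a - b) * (1 - θ)) -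
          (2 - θ) * x * (a + b) * (a - θ * x) =
          (b - θ * x) * ((a - θ * x) * (a - (2 - θ) * x) + a * (a - (2 - θ) * x)) +
          x * (a - θ * x) * (θ * (a - (2 - θ) * x)) := by ring
      have k2 : 0 ≤ (b - θ * x) * ((a - θ * x) * (a - (2 - θ) * x) + a * (a - (2 - θ) * x)) := by
        have : 0 ≤ b - θ * x := by linarith
        have := hden.le
        have := a0.le
        positivity
      have k3 : 0 ≤ x * (a - θ * x) * (θ * (a - (2 - θ) * x)) := by
        have := hden.le
        have := x0.le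
        have := θ0.le
        positivity
      linarith
    · -- left vertices
      intro i
      have hk : x * w + h * (a - x) = x * a := by
        rw [hw]
        have : x * (b + h * (1 - θ)) + h * (a - x) = x * b + h * (a - θ * x) := by ring
        rw [this, hh']
        ring
      -- `w + h (1 - σ) = a + (h / x) (2 x - a - x σ) ...`
      have e1 : x * (w + h * (1 - θ * t i)) = x * a + h * (2 * x - a - x * (θ * t i)) := by
        have : x * (w + h * (1 - θ * t i)) = (x * w + h * (a - x)) +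
          h * (2 * x - a - x * (θ * t i)) := by ring
        rw [this, hk]
      refine le_of_mul_le_mul_left ?_ x0
      rw [e1]
      rcases le_total (2 * x - a - x * (θ * t i)) 0 with h1 | h1
      · have h2 : h * (2 * x - a - x * (θ * t i)) ≤ 0 := mul_nonpos_of_nonneg_of_nonpos h0 h1
        have h3 := mul_le_mul_of_nonneg_left (ha i) x0.le
        linarith
      · have h2 : h * (2 * x - a - x * (θ * t i)) ≤ x * (2 * x - a - x * (θ * t i)) :=
          mul_le_mul_of_nonneg_right hx h1
        have h3 := mul_le_mul_of_nonneg_left (xα i) x0.le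
        linarith
    · -- right vertices
      intro j
      have h1 : h * (1 - θ) ≤ h * (1 - θ * s j) := by
        refine mul_le_mul_of_nonneg_left ?_ h0
        have := mul_le_mul_of_nonneg_left (s1 j) θ0.le
        linarith
      have := hb j
      rw [hw]
      linarith

/-- THE POINTWISE LENS INEQUALITY. -/
theorem lens {θ a b x y : ℝ} {t α : ι → ℝ} {s β : κ → ℝ} (D : Dat θ a b x y t α s β) :
    ∃ h w : ℝ, |h| ≤ w ∧ (2 - θ) ^ 2 / 2 * (x * y) * (1 / a + 1 / b) ≤ w ∧
      (∀ i, w + h * (1 - θ * t i) ≤ α i) ∧ ∀ j, w - h * (1 - θ * s j) ≤ β j := by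
  rcases le_total b a with hab | hab
  · exact aux D hab
  · obtain ⟨h, w, h1, h2, h3, h4⟩ := aux D.symm hab
    refine ⟨-h, w, by rwa [abs_neg], ?_, ?_, ?_⟩
    · calc (2 - θ) ^ 2 / 2 * (x * y) * (1 / a + 1 / b) =
          (2 - θ) ^ 2 / 2 * (y * x) * (1 / b + 1 / a) := by ring
        _ ≤ w := h2
    · intro i
      have := h4 i
      linarith
    · intro j
      have := h3 j
      linarith

end LensPt

end Pool.Agent.FAN
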