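import Pool.Agent.FAN.StM

/-!
# FAN, module GGB: lower bound for the number of generalized diagonals (helper42)
-/

set_option autoImplicit false

namespace Pool.Agent.FAN

theorem g_GGB (h1 : Sx_LOW) (h2 : Sm_EDN) : Sx_GGB := by
  intro S r₀ i₀
  obtain ⟨c0, hc0, n₀, hn⟩ := h1 S r₀ i₀
  obtain ⟨C, hC, hE⟩ := h2 S
  have hk : 0 < c0 / (32 * C) := by positivity
  obtain ⟨c1, hc1, hc1s⟩ : ∃ c1 : ℝ, 0 < c1 ∧ c1 ^ 2 = c0 / (32 * C) :=
    ⟨Real.sqrt (c0 / (32 * C)), Real.sqrt_pos.2 hk, Real.sq_sqrt hk.le⟩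
  refine ⟨c1 / 2, by positivity, max (2 * n₀) (max 8 (2 / c1)), fun L hL => ?_⟩
  have hL1 : 2 * n₀ ≤ L := (le_max_left _ _).trans hL
  have hL2 : 8 ≤ L := (le_max_left _ _).trans ((le_max_right _ _).trans hL)
  have hL3 : 2 / c1 ≤ L := (le_max_right _ _).trans ((le_max_right _ _).trans hL)
  have hL0 : 0 < L := by linarith
  have h3 := hn (L / 2) (by linarith)
  have e1 : 2 * (L / 2) = L := by ring
  have e2 : L / 2 / 4 = L / 8 := by ring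
  rw [e1, e2] at h3
  have h4 := hE (L / 8) (by linarith)
  obtain ⟨g, hg⟩ : ∃ g : ℝ, g = ((GG S r₀ i₀ L).ncard : ℝ) := ⟨_, rfl⟩
  rw [← hg] at h3 ⊢
  have hg0 : 0 ≤ g := by rw [hg]; positivity
  obtain ⟨t, ht⟩ : ∃ t : ℝ, t = (L / 8) ^ (1 / 3 : ℝ) := ⟨_, rfl⟩
  have ht0 : 0 < t := by rw [ht]; positivity
  rw [Real.rpow_neg (by positivity), ← ht] at h4
  have h5 : c0 * (L / 2) ^ 2 ≤ (g + 1) ^ 2 * (C * t⁻¹) :=
    h3.trans (mul_le_mul_of_nonneg_left h4 (by positivity))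
  have h6 : c0 * L ^ 2 * t ≤ 4 * C * (g + 1) ^ 2 := by
    have h7 := mul_le_mul_of_nonneg_right h5 ht0.le
    have h8 : (g + 1) ^ 2 * (C * t⁻¹) * t = C * (g + 1) ^ 2 := by
      field_simp
    rw [h8] at h7
    linarith
  have h9 : L ^ (1 / 3 : ℝ) ≤ 8 * t := by
    have h10 : L = 8 * (L / 8) := by ring
    have h11 : L ^ (1 / 3 : ℝ) = 8 ^ (1 / 3 : ℝ) * t := by
      conv_lhs => rw [h10]
      rw [Real.mul_rpow (by norm_num) (by positivity), ht]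
    rw [h11]
    refine mul_le_mul_of_nonneg_right ?_ ht0.le
    calc (8 : ℝ) ^ (1 / 3 : ℝ) ≤ 8 ^ (1 : ℝ) :=
          Real.rpow_le_rpow_of_exponent_le (by norm_num) (by norm_num)
      _ = 8 := Real.rpow_one 8
  have h12 : (L ^ (7 / 6 : ℝ)) ^ 2 = L ^ 2 * L ^ (1 / 3 : ℝ) := by
    rw [← Real.rpow_natCast, ← Real.rpow_mul hL0.le, ← Real.rpow_natCast L 2,
      ← Real.rpow_add hL0]
    norm_num
  have h13 : (c1 * L ^ (7 / 6 : ℝ)) ^ 2 ≤ (g + 1) ^ 2 := by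
    rw [mul_pow, hc1s, h12]
    have h14 : L ^ 2 * L ^ (1 / 3 : ℝ) ≤ L ^ 2 * (8 * t) :=
      mul_le_mul_of_nonneg_left h9 (by positivity)
    have h15 : c0 * (L ^ 2 * (8 * t)) ≤ 32 * C * (g + 1) ^ 2 := by linarith
    rw [div_mul_eq_mul_div, div_le_iff₀ (by positivity)]
    calc c0 * (L ^ 2 * L ^ (1 / 3 : ℝ)) ≤ c0 * (L ^ 2 * (8 * t)) :=
          mul_le_mul_of_nonneg_left h14 hc0.le
      _ ≤ (g + 1) ^ 2 * (32 * C) := by linarith
  have h16 : c1 * L ^ (7 / 6 : ℝ) ≤ g + 1 :=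
    (pow_le_pow_iff_left₀ (by positivity) (by positivity) two_ne_zero).1 h13
  have h17 : L ≤ L ^ (7 / 6 : ℝ) := by
    calc L = L ^ (1 : ℝ) := (Real.rpow_one L).symm
      _ ≤ L ^ (7 / 6 : ℝ) :=
          Real.rpow_le_rpow_of_exponent_le (by linarith) (by norm_num)
  have h18 : 2 ≤ c1 * L ^ (7 / 6 : ℝ) := by
    have h19 : 2 ≤ c1 * L := by
      rw [div_le_iff₀ hc1] at hL3
      linarith
    exact h19.trans (mul_le_mul_of_nonneg_left h17 hc1.le)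
  linarith

end Pool.Agent.FAN
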