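import Pool.Agent.FAN.StM

/-!
# FAN, block 2, module TON: Tonelli / Fubini with a window (helper16)
-/

set_option autoImplicit false

open scoped ComplexConjugate
open MeasureTheory Set

namespace Pool.Agent.FAN

private theorem ton_int {X Y : Type*} [MeasurableSpace X] [MeasurableSpace Y] (μ : Measure X)
    (ν : Measure Y) [IsFiniteMeasure μ] [IsFiniteMeasure ν] (h : X → Y → ℝ) (B : ℝ)
    (hm : Measurable (fun p : X × Y => h p.1 p.2)) (hB : ∀ x y, |h x y| ≤ B) :
    Integrable (Function.uncurry h) (μ.prod ν) :=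
  Integrable.of_bound hm.aestronglyMeasurable B
    (Filter.Eventually.of_forall fun p => by
      rw [Real.norm_eq_abs]
      exact hB p.1 p.2)

private theorem ton_swap {X Y : Type*} [MeasurableSpace X] [MeasurableSpace Y] (μ : Measure X)
    (ν : Measure Y) [IsFiniteMeasure μ] [IsFiniteMeasure ν] (h : X → Y → ℝ) (B : ℝ)
    (hm : Measurable (fun p : X × Y => h p.1 p.2)) (hB : ∀ x y, |h x y| ≤ B) :
    Integrable (fun x => ∫ y, h x y ∂ν) μ ∧
    (∫ x, ∫ y, h x y ∂ν ∂μ) = ∫ y, ∫ x, h x y ∂μ ∂ν := by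
  have hi := ton_int μ ν h B hm hB
  exact ⟨hi.integral_prod_left, integral_integral_swap hi⟩

private theorem ton_meas {X Y : Type*} [MeasurableSpace X] [MeasurableSpace Y]
    (ν : Measure Y) [IsFiniteMeasure ν] (h : X → Y → ℝ) (B : ℝ)
    (hm : Measurable (fun p : X × Y => h p.1 p.2)) (hB : ∀ x y, |h x y| ≤ B) :
    Measurable (fun x => ∫ y, h x y ∂ν) ∧ ∀ x, |∫ y, h x y ∂ν| ≤ B * ν.real univ := by
  constructor
  · exact (StronglyMeasurable.integral_prod_right (f := h) hm.stronglyMeasurable).measurable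
  · intro x
    rw [← Real.norm_eq_abs]
    exact norm_integral_le_of_norm_le_const (Filter.Eventually.of_forall fun y => by
      rw [Real.norm_eq_abs]
      exact hB x y)

/-- TON. -/
theorem g_TON (h1 : Sm_OPN) (h2 : Sm_TO1) : Sm_TON := by
  intro S G M B hM hm hB
  have hpi : (0 : ℝ) ≤ 2 * Real.pi := by positivity
  have hf : ∀ r, IsFiniteMeasure ((volume : Measure ℂ).restrict (rm S r)) := fun r =>
    ⟨by rw [Measure.restrict_apply_univ]; exact (h1 S r).2.2.2⟩
  set κ : Measure ℝ := (volume : Measure ℝ).restrict (Ioc (0 : ℝ) M) with hκ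
  set ν : Measure ℝ := (volume : Measure ℝ).restrict (Ioc (0 : ℝ) (2 * Real.pi)) with hν
  -- the truncated function
  set H : S.R → ℂ → ℝ → ℝ → ℝ := fun r x ψ N => G r x ψ (max 0 (min N M)) with hH
  have hHB : ∀ r x ψ N, |H r x ψ N| ≤ B := fun r x ψ N =>
    hB r x ψ _ (le_max_left _ _) (max_le hM (min_le_right _ _))
  have hcl : Measurable fun N : ℝ => max 0 (min N M) :=
    measurable_const.max (measurable_id.min measurable_const)
  have hHm : ∀ r, Measurable (fun p : ℂ × ℝ × ℝ => H r p.1 p.2.1 p.2.2) := fun r =>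
    (hm r).comp (measurable_fst.prodMk ((measurable_fst.comp measurable_snd).prodMk
      (hcl.comp (measurable_snd.comp measurable_snd))))
  have hHG : ∀ r x ψ N, N ∈ Ioc (0 : ℝ) M → H r x ψ N = G r x ψ N := by
    intro r x ψ N hN
    simp only [hH]
    rw [min_eq_left hN.2, max_eq_right hN.1.le]
  have hw : ∀ r x ψ, (∫ N in (0 : ℝ)..M, G r x ψ N) = ∫ N, H r x ψ N ∂κ := by
    intro r x ψ
    rw [intervalIntegral.integral_of_le hM, hκ]
    exact setIntegral_congr_fun measurableSet_Ioc fun N hN => (hHG r x ψ N hN).symm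
  -- measurability and bound of the window integral
  have hwm : ∀ r, Measurable (fun p : ℂ × ℝ => ∫ N in (0 : ℝ)..M, G r p.1 p.2 N) ∧
      ∀ x ψ, |∫ N in (0 : ℝ)..M, G r x ψ N| ≤ B * κ.real univ := by
    intro r
    have := ton_meas κ (fun (p : ℂ × ℝ) N => H r p.1 p.2 N) B
      ((hHm r).comp ((measurable_fst.comp measurable_fst).prodMk
        ((measurable_snd.comp measurable_fst).prodMk measurable_snd)))
      (fun p N => hHB r p.1 p.2 N)
    simp only [hw]
    exact ⟨this.1, fun x ψ => this.2 (x, ψ)⟩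
  obtain ⟨t1, t2, t3⟩ := h2 S (fun r x ψ => ∫ N in (0 : ℝ)..M, G r x ψ N) (B * κ.real univ)
    (fun r => (hwm r).1) (fun r x ψ => (hwm r).2 x ψ)
  refine ⟨t1, t2, ?_⟩
  rw [← t3, EE]
  have hsum : ∀ r, Integrable (fun N => ∫ ψ, (∫ x in rm S r, H r x ψ N) ∂ν) κ ∧
      (∫ N, ∫ ψ, (∫ x in rm S r, H r x ψ N) ∂ν ∂κ) =
        ∫ ψ in (0 : ℝ)..(2 * Real.pi), ∫ x in rm S r, ∫ N in (0 : ℝ)..M, G r x ψ N := by
    intro r
    have := hf r
    have hx := ton_meas ((volume : Measure ℂ).restrict (rm S r))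
      (fun (p : ℝ × ℝ) x => H r x p.2 p.1) B
      ((hHm r).comp (measurable_snd.prodMk ((measurable_snd.comp measurable_fst).prodMk
        (measurable_fst.comp measurable_fst))))
      (fun p x => hHB r x p.2 p.1)
    have hs := ton_swap κ ν (fun N ψ => ∫ x in rm S r, H r x ψ N) _ hx.1 (fun N ψ => hx.2 (N, ψ))
    refine ⟨hs.1, ?_⟩
    rw [hs.2, intervalIntegral.integral_of_le hpi, ← hν]
    refine integral_congr_ae (Filter.Eventually.of_forall fun ψ => ?_)
    have hs2 := ton_swap κ ((volume : Measure ℂ).restrict (rm S r)) (fun N x => H r x ψ N) B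
      ((hHm r).comp (measurable_snd.prodMk (measurable_const.prodMk measurable_fst)))
      (fun N x => hHB r x ψ N)
    simp only [hw]
    exact hs2.2
  rw [intervalIntegral.integral_of_le hM, ← hκ]
  have e1 : (∫ N, EE S (fun r x ψ => G r x ψ N) ∂κ) =
      ∫ N, ∑ r, ∫ ψ, (∫ x in rm S r, H r x ψ N) ∂ν ∂κ := by
    rw [hκ]
    refine setIntegral_congr_fun measurableSet_Ioc fun N hN => ?_
    simp only [EE]
    refine Finset.sum_congr rfl fun r _ => ?_
    rw [intervalIntegral.integral_of_le hpi, ← hν]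
    simp only [hHG _ _ _ N hN]
  rw [e1, integral_finsetSum _ fun r _ => (hsum r).1]
  exact Finset.sum_congr rfl fun r _ => (hsum r).2

end Pool.Agent.FAN
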