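import Pool.Agent.FAN.StA
import Pool.Agent.Lib_helper45.Bil.Final

/-!
# FAN, block 6: definitions (polygon, triangulation by non crossing diagonals, the double) (helper63)
-/

set_option autoImplicit false

open scoped ComplexConjugate
open MeasureTheory Set
open Pool.Agent.Billiard Pool.Agent.Lib_helper45

namespace Pool.Agent.FAN

/-- closed segment between two vertices of the polygon -/
def sg (P : Polygon) (i j : ZMod P.k) : Set ℂ := segment ℝ (P.vertex i) (P.vertex j)

/-- open segment between two vertices of the polygon -/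
def osg (P : Polygon) (i j : ZMod P.k) : Set ℂ := openSegment ℝ (P.vertex i) (P.vertex j)

/-- `i`, `j` are the end points of a side -/
def Sd (P : Polygon) (i j : ZMod P.k) : Prop := j = i + 1 ∨ i = j + 1

/-- A maximal set of pairwise non crossing diagonals. -/
structure Net (P : Polygon) where
  Dg : ZMod P.k → ZMod P.k → Prop
  symm : ∀ i j, Dg i j → Dg j i
  diag : ∀ i j, Dg i j → i ≠ j ∧ osg P i j ⊆ Bil.U P
  disj : ∀ i j k l, Dg i j → Dg k l → (osg P i j ∩ osg P k l).Nonempty →
    (k = i ∧ l = j) ∨ (k = j ∧ l = i)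
  maxl : ∀ i j, i ≠ j → osg P i j ⊆ Bil.U P → (∀ k l, Dg k l → Disjoint (osg P i j) (osg P k l)) →
    Dg i j

variable {P : Polygon}

namespace Net

/-- edges: diagonals of the net and sides -/
def E (N : Net P) (i j : ZMod P.k) : Prop := N.Dg i j ∨ Sd P i j

/-- the union of all closed edges -/
def Sk (N : Net P) : Set ℂ := {z | ∃ i j, N.E i j ∧ z ∈ sg P i j}

/-- the complement of the edges in the table -/
def Om (N : Net P) : Set ℂ := Bil.U P \ N.Sk

/-- the component of the point `y` -/
def Kp (N : Net P) (y : ℂ) : Set ℂ := connectedComponentIn N.Om y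

end Net

/-- the open triangle with vertices `a 0, a 1, a 2` (counter clockwise) -/
def tri (a : ZMod 3 → ℂ) : Set ℂ := {y | ∀ i, 0 < cx (a (i + 2) - a (i + 1)) (y - a (i + 1))}

/-- A labelled triangle of the net: positively oriented, its three edges are edges of the net, its
interior is in the table and does not meet the edges. -/
structure Tr (N : Net P) where
  l : ZMod 3 → ZMod P.k
  pos : 0 < cx (P.vertex (l 1) - P.vertex (l 0)) (P.vertex (l 2) - P.vertex (l 0))
  edg : ∀ i, N.E (l (i + 1)) (l (i + 2))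
  int : tri (fun i => P.vertex (l i)) ⊆ N.Om

/-- Triangulation data: a finite set of labelled triangles (vertices = vertices of the polygon, positively
oriented, interior in the table), closed under passing to the neighbour across an edge that is not a side.
The neighbour across the edge `i` (opposite to the vertex `i`) is labelled such that the common edge is
again the edge `i`. -/
structure TD (P : Polygon) where
  T : Type
  fT : Fintype T
  l : T → ZMod 3 → ZMod P.k
  pos : ∀ t, 0 < cx (P.vertex (l t 1) - P.vertex (l t 0)) (P.vertex (l t 2) - P.vertex (l t 0))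
  int : ∀ t, tri (fun i => P.vertex (l t i)) ⊆ Bil.U P
  edg : ∀ t i, Sd P (l t (i + 1)) (l t (i + 2)) ∨ osg P (l t (i + 1)) (l t (i + 2)) ⊆ Bil.U P
  nbr : T → ZMod 3 → T
  nbr1 : ∀ t i, ¬ Sd P (l t (i + 1)) (l t (i + 2)) → l (nbr t i) (i + 1) = l t (i + 2)
  nbr2 : ∀ t i, ¬ Sd P (l t (i + 1)) (l t (i + 2)) → l (nbr t i) (i + 2) = l t (i + 1)
  nbr3 : ∀ t i, ¬ Sd P (l t (i + 1)) (l t (i + 2)) → nbr (nbr t i) i = t

attribute [instance] TD.fT

namespace TD

variable (D : TD P)

/-- the edge `e` of the triangle `t` is a side -/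
def sd (t : D.T) (e : ZMod 3) : Prop := Sd P (D.l t (e + 1)) (D.l t (e + 2))

/-- index of a vertex (or edge) of a copy of a triangle in the original triangle -/
def ix (b : Bool) (i : ZMod 3) : ZMod 3 := if b then -i else i

theorem ix_ix (b : Bool) (i : ZMod 3) : ix b (ix b i) = i := by
  cases b <;> simp [ix]

theorem ix_not (b : Bool) (i : ZMod 3) : ix (!b) (-i) = ix b i := by
  cases b <;> simp [ix]

theorem Sd_symm (i j : ZMod P.k) : Sd P i j ↔ Sd P j i := by
  unfold Sd; tauto

theorem ix1 (b : Bool) (j : ZMod 3) :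
    (ix b (j + 1) = ix b j + 1 ∧ ix b (j + 2) = ix b j + 2) ∨
      (ix b (j + 1) = ix b j + 2 ∧ ix b (j + 2) = ix b j + 1) := by
  revert b j; decide

theorem ix_false (j : ZMod 3) : ix false (j + 1) = ix false j + 1 ∧ ix false (j + 2) = ix false j + 2 := by
  revert j; decide

theorem ix_true (j : ZMod 3) : ix true (j + 1) = ix true j + 2 ∧ ix true (j + 2) = ix true j + 1 := by
  revert j; decide

/-- vertices of the two copies -/
noncomputable def PP (r : D.T × Bool) (i : ZMod 3) : ℂ :=
  if r.2 then conj (P.vertex (D.l r.1 (ix r.2 i))) else P.vertex (D.l r.1 (ix r.2 i))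

open Classical in
/-- the gluing of the double: across a diagonal to the neighbour in the same copy, across a side to the
other copy of the same triangle -/
noncomputable def nn (d : (D.T × Bool) × ZMod 3) : (D.T × Bool) × ZMod 3 :=
  if D.sd d.1.1 (ix d.1.2 d.2) then ((d.1.1, !d.1.2), -d.2)
  else ((D.nbr d.1.1 (ix d.1.2 d.2), d.1.2), d.2)

theorem sd_nbr (t : D.T) (e : ZMod 3) (h : ¬ D.sd t e) : ¬ D.sd (D.nbr t e) e := by
  unfold sd at h ⊢
  rw [D.nbr1 t e h, D.nbr2 t e h, Sd_symm]
  exact h

theorem nn_nn (d : (D.T × Bool) × ZMod 3) : D.nn (D.nn d) = d := by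
  obtain ⟨⟨t, b⟩, j⟩ := d
  by_cases h : D.sd t (ix b j)
  · have h1 : D.nn ((t, b), j) = ((t, !b), -j) := if_pos h
    have h2 : D.sd t (ix (!b) (-j)) := by rw [ix_not]; exact h
    rw [h1]
    have h3 : D.nn ((t, !b), -j) = ((t, !!b), - -j) := if_pos h2
    rw [h3, Bool.not_not, neg_neg]
  · have h1 : D.nn ((t, b), j) = ((D.nbr t (ix b j), b), j) := if_neg h
    rw [h1]
    have h3 : D.nn ((D.nbr t (ix b j), b), j) = ((D.nbr (D.nbr t (ix b j)) (ix b j), b), j) :=
      if_neg (D.sd_nbr t _ h)
    rw [h3, D.nbr3 t _ h]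

theorem conj_norm (a b : ℂ) : ‖conj a - conj b‖ = ‖a - b‖ := by
  rw [← map_sub, Complex.norm_conj]

theorem len_nn (d : (D.T × Bool) × ZMod 3) :
    ‖D.PP d.1 (d.2 + 2) - D.PP d.1 (d.2 + 1)‖ =
      ‖D.PP (D.nn d).1 ((D.nn d).2 + 2) - D.PP (D.nn d).1 ((D.nn d).2 + 1)‖ := by
  obtain ⟨⟨t, b⟩, j⟩ := d
  by_cases h : D.sd t (ix b j)
  · have h1 : D.nn ((t, b), j) = ((t, !b), -j) := if_pos h
    rw [h1]
    cases b
    · have h2 : ∀ j : ZMod 3, (ix true (-j + 2) = j + 1) ∧ (ix true (-j + 1) = j + 2) ∧
        ix false (j + 2) = j + 2 ∧ ix false (j + 1) = j + 1 := by decide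
      obtain ⟨e1, e2, e3, e4⟩ := h2 j
      simp only [PP, Bool.not_false, e1, e2, e3, e4, if_true, Bool.false_eq_true, if_false]
      rw [conj_norm, norm_sub_rev]
    · have h2 : ∀ j : ZMod 3, (ix false (-j + 2) = -j + 2) ∧ (ix false (-j + 1) = -j + 1) ∧
        ix true (j + 2) = -j + 1 ∧ ix true (j + 1) = -j + 2 := by decide
      obtain ⟨e1, e2, e3, e4⟩ := h2 j
      simp only [PP, Bool.not_true, e1, e2, e3, e4, if_true, Bool.false_eq_true, if_false]
      rw [conj_norm, norm_sub_rev]
  · have h1 : D.nn ((t, b), j) = ((D.nbr t (ix b j), b), j) := if_neg h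
    rw [h1]
    have a1 := D.nbr1 t _ h
    have a2 := D.nbr2 t _ h
    cases b
    · obtain ⟨e1, e2⟩ := ix_false j
      simp only [PP, e1, e2, Bool.false_eq_true, if_false]
      rw [a1, a2, norm_sub_rev]
    · obtain ⟨e1, e2⟩ := ix_true j
      simp only [PP, e1, e2, if_true]
      rw [a1, a2, conj_norm, conj_norm, norm_sub_rev]

/-- the double of the polygon -/
noncomputable def dbl : TriSys where
  R := D.T × Bool
  fR := inferInstance
  P := D.PP
  pos := by
    rintro ⟨t, b⟩
    have h := D.pos t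
    cases b
    · have e : ix false 0 = 0 ∧ ix false 1 = 1 ∧ ix false 2 = 2 := by decide
      simp only [PP, e.1, e.2.1, e.2.2, Bool.false_eq_true, if_false]
      exact h
    · have e : ix true 0 = 0 ∧ ix true 1 = 2 ∧ ix true 2 = 1 := by decide
      simp only [PP, e.1, e.2.1, e.2.2, if_true]
      simp only [cx, Complex.sub_re, Complex.sub_im, Complex.conj_re, Complex.conj_im] at h ⊢
      linarith
  nb := D.nn
  nb_nb := D.nn_nn
  len := D.len_nn

/-- the fold map of a placed room of the double: placed coordinates to the table -/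
noncomputable def fo (q : Pl D.dbl) (z : ℂ) : ℂ :=
  if q.r.2 then conj ((z - q.b) / q.a) else (z - q.b) / q.a

/-- the linear part of the fold map -/
noncomputable def fl (q : Pl D.dbl) (v : ℂ) : ℂ :=
  if q.r.2 then conj (v / q.a) else v / q.a

/-- label of the vertex `i` of a placed room -/
def lb (q : Pl D.dbl) (i : ZMod 3) : ZMod P.k := D.l q.r.1 (ix q.r.2 i)

/-- the edge `j` of a placed room is a side -/
def sde (q : Pl D.dbl) (j : ZMod 3) : Prop := D.sd q.r.1 (ix q.r.2 j)

end TD

end Pool.Agent.FAN
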