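import Pool.Agent.FAN.StP
import Pool.Agent.FAN.Base2

/-!
# FAN, block 6: module FLD, folding (helper7)
-/

set_option autoImplicit false

open scoped ComplexConjugate
open MeasureTheory Set Metric
open Pool.Agent.Billiard Pool.Agent.Lib_helper45

namespace Pool.Agent.FAN

namespace FLD

variable {P : Polygon} (D : TD P)

theorem n1 : ∀ i : ZMod 3, -(-i + 2) = i + 1 := by decide
theorem n2 : ∀ i : ZMod 3, -(-i + 1) = i + 2 := by decide

theorem a_ne (q : Pl D.dbl) : q.a ≠ 0 := by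
  intro h
  have := q.ha
  rw [h, norm_zero] at this
  exact zero_ne_one this

theorem V_eq (q : Pl D.dbl) (i : ZMod 3) : (q.V i - q.b) / q.a = D.PP q.r i := by
  have h := a_ne D q
  have e : q.V i = q.a * D.PP q.r i + q.b := rfl
  rw [e, add_sub_cancel_right, mul_div_cancel_left₀ _ h]

theorem fo_V (q : Pl D.dbl) (i : ZMod 3) : D.fo q (q.V i) = P.vertex (D.lb q i) := by
  unfold TD.fo
  rw [V_eq]
  unfold TD.PP TD.lb
  split_ifs with h
  · rw [Complex.conj_conj]
  · rfl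

theorem fo_lin (q : Pl D.dbl) (x v : ℂ) (τ : ℝ) :
    D.fo q (x + τ * v) = D.fo q x + τ * D.fl q v := by
  unfold TD.fo TD.fl
  have e : (x + τ * v - q.b) / q.a = (x - q.b) / q.a + τ * (v / q.a) := by ring
  rw [e]
  split_ifs
  · rw [map_add, map_mul, Complex.conj_ofReal]
  · rfl

theorem cx_conj (p p' : ℂ) : cx (conj p) (conj p') = -cx p p' := by
  simp only [cx, Complex.conj_re, Complex.conj_im]; ring

theorem fo_In (q : Pl D.dbl) (y : ℂ) (hy : q.In y) : D.fo q y ∈ Bil.U P := by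
  have ha := a_ne D q
  apply D.int q.r.1
  show ∀ i, _
  obtain ⟨⟨t, b⟩, a, c, hn⟩ := q
  cases b
  · intro i
    have h := hy i
    have ef : D.fo (⟨(t, false), a, c, hn⟩ : Pl D.dbl) y = (y - c) / a := rfl
    rw [ef]
    have e1 : ∀ j : ZMod 3, (⟨(t, false), a, c, hn⟩ : Pl D.dbl).V j =
        a * P.vertex (D.l t j) + c := fun j => rfl
    rw [e1, e1] at h
    have e2 : a * P.vertex (D.l t (i + 2)) + c - (a * P.vertex (D.l t (i + 1)) + c) =
      a * (P.vertex (D.l t (i + 2)) - P.vertex (D.l t (i + 1))) := by ring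
    have e3 : y - (a * P.vertex (D.l t (i + 1)) + c) =
        a * ((y - c) / a - P.vertex (D.l t (i + 1))) := by
      field_simp
      ring
    rw [e2, e3, cx_mul1 hn] at h
    exact h
  · intro i
    have h := hy (-i)
    have ef : D.fo (⟨(t, true), a, c, hn⟩ : Pl D.dbl) y = conj ((y - c) / a) := rfl
    rw [ef]
    have e1 : ∀ j : ZMod 3, (⟨(t, true), a, c, hn⟩ : Pl D.dbl).V j =
        a * conj (P.vertex (D.l t (-j))) + c := fun j => rfl
    rw [e1, e1] at h
    have i1 : -(-i + 2) = i + 1 := n1 i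
    have i2 : -(-i + 1) = i + 2 := n2 i
    rw [i1, i2] at h
    set A := P.vertex (D.l t (i + 1))
    set B := P.vertex (D.l t (i + 2))
    have e2 : a * conj A + c - (a * conj B + c) = a * conj (A - B) := by rw [map_sub]; ring
    have e3 : y - (a * conj B + c) = a * conj (conj ((y - c) / a) - B) := by
      rw [map_sub, Complex.conj_conj]
      field_simp
      ring
    rw [e2, e3, cx_mul1 hn, cx_conj] at h
    set w := conj ((y - c) / a)
    have e4 : cx (B - A) (w - A) = -cx (A - B) (w - B) := by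
      simp only [cx, Complex.sub_re, Complex.sub_im]; ring
    show 0 < cx (B - A) (w - A)
    rw [e4]
    exact h

/-- the fold map sends the open edge to the open segment between the labels -/
theorem fo_seg (q : Pl D.dbl) (i j : ZMod 3) (y : ℂ) (hy : y ∈ openSegment ℝ (q.V i) (q.V j)) :
    D.fo q y ∈ openSegment ℝ (P.vertex (D.lb q i)) (P.vertex (D.lb q j)) := by
  obtain ⟨s, t, hs, ht, hst, rfl⟩ := hy
  refine ⟨s, t, hs, ht, hst, ?_⟩
  rw [← fo_V, ← fo_V]
  have h1 : s • q.V i + t • q.V j = q.V i + (t : ℝ) * (q.V j - q.V i) := by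
    have : s = 1 - t := by linarith
    rw [this]
    simp only [Complex.real_smul]
    push_cast
    ring
  have h2 : D.fo q (q.V j) = D.fo q (q.V i) + D.fl q (q.V j - q.V i) := by
    have := fo_lin D q (q.V i) (q.V j - q.V i) 1
    rw [Complex.ofReal_one, one_mul, one_mul, add_sub_cancel] at this
    exact this
  rw [h1, fo_lin, h2]
  have : s = 1 - t := by linarith
  rw [this]
  simp only [Complex.real_smul]
  push_cast
  ring

theorem lb_pair (q : Pl D.dbl) (j : ZMod 3) :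
    (D.lb q (j + 1) = D.l q.r.1 (TD.ix q.r.2 j + 1) ∧
      D.lb q (j + 2) = D.l q.r.1 (TD.ix q.r.2 j + 2)) ∨
    (D.lb q (j + 1) = D.l q.r.1 (TD.ix q.r.2 j + 2) ∧
      D.lb q (j + 2) = D.l q.r.1 (TD.ix q.r.2 j + 1)) := by
  unfold TD.lb
  rcases TD.ix1 q.r.2 j with ⟨h1, h2⟩ | ⟨h1, h2⟩
  · left; rw [h1, h2]; exact ⟨rfl, rfl⟩
  · right; rw [h1, h2]; exact ⟨rfl, rfl⟩

theorem ne_V (q : Pl D.dbl) (j : ZMod 3) : q.V (j + 1) ≠ q.V (j + 2) := by
  intro h
  have h1 := q.orient j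
  rw [h, sub_self] at h1
  simp [cx] at h1

/-! ### across a diagonal -/

theorem nb_diag (q : Pl D.dbl) (j : ZMod 3) (h : ¬ D.sde q j) :
    D.dbl.nb (q.r, j) = ((D.nbr q.r.1 (TD.ix q.r.2 j), q.r.2), j) := if_neg h

theorem PP_diag (q : Pl D.dbl) (j : ZMod 3) (h : ¬ D.sde q j) :
    D.PP (D.nbr q.r.1 (TD.ix q.r.2 j), q.r.2) (j + 1) = D.PP q.r (j + 2) ∧
    D.PP (D.nbr q.r.1 (TD.ix q.r.2 j), q.r.2) (j + 2) = D.PP q.r (j + 1) := by
  obtain ⟨⟨t, b⟩, a, c, hn⟩ := q
  have a1 := D.nbr1 t _ h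
  have a2 := D.nbr2 t _ h
  cases b
  · obtain ⟨e1, e2⟩ := TD.ix_false j
    simp only [TD.PP, e1, e2, Bool.false_eq_true, if_false]
    rw [a1, a2]
    exact ⟨rfl, rfl⟩
  · obtain ⟨e1, e2⟩ := TD.ix_true j
    simp only [TD.PP, e1, e2, if_true]
    rw [a1, a2]
    exact ⟨rfl, rfl⟩

theorem gu_diag (q : Pl D.dbl) (j : ZMod 3) (h : ¬ D.sde q j) : D.dbl.gu (q.r, j) = 1 := by
  have hne := D.dbl.ne12 (q.r, j)
  obtain ⟨e1, e2⟩ := PP_diag D q j h
  have e3 : D.dbl.P (D.dbl.nb (q.r, j)).1 ((D.dbl.nb (q.r, j)).2 + 1) = D.dbl.P q.r (j + 2) := by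
    rw [nb_diag D q j h]; exact e1
  have e4 : D.dbl.P (D.dbl.nb (q.r, j)).1 ((D.dbl.nb (q.r, j)).2 + 2) = D.dbl.P q.r (j + 1) := by
    rw [nb_diag D q j h]; exact e2
  rw [TriSys.gu, e3, e4]
  exact div_self hne

theorem gt_diag (q : Pl D.dbl) (j : ZMod 3) (h : ¬ D.sde q j) : D.dbl.gt (q.r, j) = 0 := by
  obtain ⟨e1, e2⟩ := PP_diag D q j h
  have e3 : D.dbl.P (D.dbl.nb (q.r, j)).1 ((D.dbl.nb (q.r, j)).2 + 1) = D.dbl.P q.r (j + 2) := by
    rw [nb_diag D q j h]; exact e1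
  rw [TriSys.gt, gu_diag D q j h, e3, one_mul]
  exact sub_self _

theorem diag_a (q : Pl D.dbl) (j : ZMod 3) (h : ¬ D.sde q j) : (q.nx j).a = q.a := by
  show q.a * D.dbl.gu (q.r, j) = q.a
  rw [gu_diag D q j h, mul_one]

theorem diag_b (q : Pl D.dbl) (j : ZMod 3) (h : ¬ D.sde q j) : (q.nx j).b = q.b := by
  show q.a * D.dbl.gt (q.r, j) + q.b = q.b
  rw [gt_diag D q j h, mul_zero, zero_add]

theorem diag_r (q : Pl D.dbl) (j : ZMod 3) (h : ¬ D.sde q j) : (q.nx j).r.2 = q.r.2 := by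
  show (D.dbl.nb (q.r, j)).1.2 = q.r.2
  rw [nb_diag D q j h]

theorem part4 (q : Pl D.dbl) (j : ZMod 3) (h : ¬ D.sde q j) :
    (∀ z, D.fo (q.nx j) z = D.fo q z) ∧ (∀ v, D.fl (q.nx j) v = D.fl q v) ∧
    ∀ y ∈ openSegment ℝ (q.V (j + 1)) (q.V (j + 2)), D.fo q y ∈ Bil.U P := by
  refine ⟨?_, ?_, ?_⟩
  · intro z
    unfold TD.fo
    rw [diag_r D q j h, diag_a D q j h, diag_b D q j h]
  · intro v
    unfold TD.fl
    rw [diag_r D q j h, diag_a D q j h]
  · intro y hy
    have h1 := fo_seg D q _ _ y hy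
    have h2 := (D.edg q.r.1 (TD.ix q.r.2 j)).resolve_left h
    apply h2
    rcases lb_pair D q j with ⟨e1, e2⟩ | ⟨e1, e2⟩
    · rw [e1, e2] at h1
      exact h1
    · rw [e1, e2, openSegment_symm] at h1
      exact h1

/-! ### across a side -/

theorem nb_side (q : Pl D.dbl) (j : ZMod 3) (h : D.sde q j) :
    D.dbl.nb (q.r, j) = ((q.r.1, !q.r.2), -j) := if_pos h

theorem side_r (q : Pl D.dbl) (j : ZMod 3) (h : D.sde q j) :
    (q.nx j).r = (q.r.1, !q.r.2) := by
  show (D.dbl.nb (q.r, j)).1 = _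
  rw [nb_side D q j h]

theorem side_en (q : Pl D.dbl) (j : ZMod 3) (h : D.sde q j) : q.en j = -j := by
  show (D.dbl.nb (q.r, j)).2 = _
  rw [nb_side D q j h]

theorem ixn : ∀ (b : Bool) (j : ZMod 3), TD.ix (!b) (-j + 1) = TD.ix b (j + 2) ∧
    TD.ix (!b) (-j + 2) = TD.ix b (j + 1) := by decide

/-- holomorphic affine maps -/
theorem eqU {A B A' B' p p' : ℂ} (hp : p ≠ p') (h1 : A * p + B = A' * p + B')
    (h2 : A * p' + B = A' * p' + B') : ∀ z, A * z + B = A' * z + B' := by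
  have h3 : (A - A') * (p - p') = 0 := by linear_combination h1 - h2
  have h4 : A = A' := by
    rcases mul_eq_zero.mp h3 with h | h
    · exact sub_eq_zero.mp h
    · exact absurd (sub_eq_zero.mp h) hp
  subst h4
  have h5 : B = B' := by linear_combination h1
  subst h5
  intro z; rfl

theorem side_fo (q : Pl D.dbl) (j : ZMod 3) (h : D.sde q j) (a : ZMod P.k)
    (h1 : Bil.refl P a (P.vertex (D.lb q (j + 1))) = P.vertex (D.lb q (j + 1)))
    (h2 : Bil.refl P a (P.vertex (D.lb q (j + 2))) = P.vertex (D.lb q (j + 2))) (z : ℂ) :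
    D.fo (q.nx j) z = Bil.refl P a (D.fo q z) := by
  have e1 : D.fo (q.nx j) (q.V (j + 1)) = Bil.refl P a (D.fo q (q.V (j + 1))) := by
    have g : (q.nx j).V (q.en j + 2) = q.V (j + 1) := Pl.V_nx2 q j
    rw [fo_V, h1, ← g, fo_V]
    unfold TD.lb
    rw [side_r D q j h, side_en D q j h, (ixn q.r.2 j).2]
  have e2 : D.fo (q.nx j) (q.V (j + 2)) = Bil.refl P a (D.fo q (q.V (j + 2))) := by
    have g : (q.nx j).V (q.en j + 1) = q.V (j + 2) := Pl.V_nx1 q j
    rw [fo_V, h2, ← g, fo_V]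
    unfold TD.lb
    rw [side_r D q j h, side_en D q j h, (ixn q.r.2 j).1]
  have hne := ne_V D q j
  have hr := side_r D q j h
  generalize q.nx j = q' at *
  generalize q.V (j + 1) = p at *
  generalize q.V (j + 2) = p' at *
  unfold TD.fo at e1 e2 ⊢
  rw [hr] at e1 e2 ⊢
  unfold Bil.refl reflectDir at e1 e2 ⊢
  set d := Bil.dir P a
  set v := P.vertex a
  cases hb : q.r.2
  · simp only [hb, Bool.not_false, if_true, Bool.false_eq_true, if_false] at e1 e2 ⊢
    have key := eqU (A := conj (1 / q'.a)) (B := conj (-q'.b / q'.a))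
      (A' := d * conj (1 / q.a) / conj d) (B' := v + d * conj (-q.b / q.a - v) / conj d)
      (p := conj p) (p' := conj p') (fun hh => hne ((starRingEnd ℂ).injective hh))
      (by
        have : conj ((p - q'.b) / q'.a) = conj (1 / q'.a) * conj p + conj (-q'.b / q'.a) := by
          rw [← map_mul, ← map_add]; congr 1; ring
        rw [← this, e1]
        have : conj ((p - q.b) / q.a - v) = conj (1 / q.a) * conj p + conj (-q.b / q.a - v) := by
          rw [← map_mul, ← map_add]; congr 1; ring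
        rw [this]; ring)
      (by
        have : conj ((p' - q'.b) / q'.a) = conj (1 / q'.a) * conj p' + conj (-q'.b / q'.a) := by
          rw [← map_mul, ← map_add]; congr 1; ring
        rw [← this, e2]
        have : conj ((p' - q.b) / q.a - v) = conj (1 / q.a) * conj p' + conj (-q.b / q.a - v) := by
          rw [← map_mul, ← map_add]; congr 1; ring
        rw [this]; ring) (conj z)
    have c1 : conj ((z - q'.b) / q'.a) = conj (1 / q'.a) * conj z + conj (-q'.b / q'.a) := by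
      rw [← map_mul, ← map_add]; congr 1; ring
    have c2 : conj ((z - q.b) / q.a - v) = conj (1 / q.a) * conj z + conj (-q.b / q.a - v) := by
      rw [← map_mul, ← map_add]; congr 1; ring
    rw [c1, key, c2]; ring
  · simp only [hb, Bool.not_true, if_true, Bool.false_eq_true, if_false] at e1 e2 ⊢
    have key := eqU (A := 1 / q'.a) (B := -q'.b / q'.a)
      (A' := d * (1 / q.a) / conj d) (B' := v + d * (-q.b / q.a - conj v) / conj d)
      (p := p) (p' := p') hne
      (by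
        have : (p - q'.b) / q'.a = 1 / q'.a * p + -q'.b / q'.a := by ring
        rw [← this, e1, map_sub, Complex.conj_conj]; ring)
      (by
        have : (p' - q'.b) / q'.a = 1 / q'.a * p' + -q'.b / q'.a := by ring
        rw [← this, e2, map_sub, Complex.conj_conj]; ring) z
    have c1 : (z - q'.b) / q'.a = 1 / q'.a * z + -q'.b / q'.a := by ring
    rw [c1, key, map_sub, Complex.conj_conj]; ring

theorem side_fl (q q' : Pl D.dbl) (a : ZMod P.k)
    (h : ∀ z, D.fo q' z = Bil.refl P a (D.fo q z)) (v : ℂ) :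
    D.fl q' v = Bil.lrefl P a (D.fl q v) := by
  have h1 := fo_lin D q' 0 v 1
  have h2 := fo_lin D q 0 v 1
  rw [Complex.ofReal_one, one_mul, one_mul] at h1 h2
  rw [h, h2, Bil.refl_add', h] at h1
  exact (add_left_cancel h1).symm

theorem part5 (q : Pl D.dbl) (j : ZMod 3) (h : D.sde q j) : ∃ a : ZMod P.k,
    (∀ z, D.fo (q.nx j) z = Bil.refl P a (D.fo q z)) ∧
    (∀ v, D.fl (q.nx j) v = Bil.lrefl P a (D.fl q v)) ∧
    ∀ y ∈ openSegment ℝ (q.V (j + 1)) (q.V (j + 2)), D.fo q y ∈ Bil.rel P a := by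
  have key : ∃ a : ZMod P.k, (D.lb q (j + 1) = a ∧ D.lb q (j + 2) = a + 1) ∨
      (D.lb q (j + 1) = a + 1 ∧ D.lb q (j + 2) = a) := by
    have hs : Sd P (D.l q.r.1 (TD.ix q.r.2 j + 1)) (D.l q.r.1 (TD.ix q.r.2 j + 2)) := h
    rcases lb_pair D q j with ⟨e1, e2⟩ | ⟨e1, e2⟩
    · rw [← e1, ← e2] at hs
      rcases hs with hs | hs
      · exact ⟨_, Or.inl ⟨rfl, hs⟩⟩
      · exact ⟨_, Or.inr ⟨hs, rfl⟩⟩
    · rw [← e1, ← e2] at hs
      rcases hs with hs | hs
      · exact ⟨_, Or.inr ⟨hs, rfl⟩⟩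
      · exact ⟨_, Or.inl ⟨rfl, hs⟩⟩
  obtain ⟨a, ha⟩ := key
  have f1 : Bil.refl P a (P.vertex a) = P.vertex a := Bil.refl_fix (Bil.H_vertex a)
  have f2 : Bil.refl P a (P.vertex (a + 1)) = P.vertex (a + 1) :=
    Bil.refl_fix (Bil.H_of_mem_side (Bil.vertex_succ_mem_side a))
  have hfo : ∀ z, D.fo (q.nx j) z = Bil.refl P a (D.fo q z) := by
    intro z
    rcases ha with ⟨e1, e2⟩ | ⟨e1, e2⟩
    · exact side_fo D q j h a (by rw [e1, f1]) (by rw [e2, f2]) z
    · exact side_fo D q j h a (by rw [e1, f2]) (by rw [e2, f1]) z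
  refine ⟨a, hfo, side_fl D q (q.nx j) a hfo, ?_⟩
  intro y hy
  have h1 := fo_seg D q _ _ y hy
  rcases ha with ⟨e1, e2⟩ | ⟨e1, e2⟩
  · rw [e1, e2] at h1
    exact h1
  · rw [e1, e2, openSegment_symm] at h1
    exact h1

end FLD

theorem p_FLD : Sp_FLD := by
  intro P D
  exact ⟨FLD.fo_V D, FLD.fo_lin D, FLD.fo_In D, FLD.part4 D, FLD.part5 D⟩

end Pool.Agent.FAN
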