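import Pool.Agent.FAN.Defs

/-!
# FAN, block 1: algebra of triangulated flat surfaces (helper17). Statements with complete proofs.

Write `theorem m_X : Sa_X` in `Pool/Agent/FAN/A_X.lean`, namespace `Pool.Agent.FAN`. A statement may use
other statements of this file as hypotheses (`theorem m_X (h : Sa_Y) : Sa_X`), say which ones.
-/

set_option autoImplicit false

open scoped ComplexConjugate
open MeasureTheory Set

namespace Pool.Agent.FAN

variable {S : TriSys}

namespace Pl

/-- the line `x + τ v` enters the placed room through the edge `i` -/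
def En (q : Pl S) (x v : ℂ) (i : ZMod 3) : Prop :=
  0 < cx v (q.V (i + 1) - x) ∧ cx v (q.V (i + 2) - x) < 0

/-- the motion `z ↦ c z + e` applied to a placed room -/
def mv (c e : ℂ) (hc : ‖c‖ = 1) (q : Pl S) : Pl S :=
  ⟨q.r, c * q.a, c * q.b + e, by rw [norm_mul, hc, q.ha, one_mul]⟩

end Pl

/-- the crossing times -/
noncomputable def cts : Pl S → ℂ → ℂ → List (ZMod 3) → List ℝ
  | _, _, _, [] => []
  | q, x, v, j :: js => q.ct x v j :: cts (q.nx j) x v js

/-- GLU. Gluing. Proof. `V (nx j) (en j + 1) = q.a * (gu * P' (i'+1) + gt) + q.b` and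
`gu * P' (i'+1) + gt = P (j+2)` by definition of `gt`; `gu * (P' (i'+1) - P' (i'+2)) = P (j+2) - P (j+1)` by
definition of `gu` (the denominator is not zero, `TriSys.ne12` for `nb d`). Back: with
`X = P (j+2) - P (j+1)`, `Y = P' (i'+1) - P' (i'+2)`: `gu d = X / Y`, and `nb (nb d) = d` gives
`gu (nb d) = (-Y) / (-X)`, so the product is 1; the translation part follows from the position of one
vertex (or `field_simp`). Use `Pl.ext` and `Prod.ext`-rewriting with `S.nb_nb (q.r, j)`. -/
def Sa_GLU : Prop := ∀ (S : TriSys) (q : Pl S) (j : ZMod 3),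
  (q.nx j).V (q.en j + 1) = q.V (j + 2) ∧ (q.nx j).V (q.en j + 2) = q.V (j + 1) ∧
  (q.nx j).nx (q.en j) = q ∧ (q.nx j).en (q.en j) = j

/-- ORI. Orientation at every vertex of a placed room, and
`cx v (V a - x)` are related by a linear identity.
Proof. `cx (a z) (a w) = ‖a‖² cx z w = cx z w`; the three cyclic forms of the area are equal:
`cx (B - A) (C - A) = cx (C - B) (A - B) = cx (A - C) (B - C)`; `fin_cases i`. -/
def Sa_ORI : Prop := ∀ (S : TriSys) (q : Pl S) (i : ZMod 3),
  0 < cx (q.V (i + 1) - q.V i) (q.V (i + 2) - q.V i)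

/-- MOV. Everything is invariant under motions. Proof: `cx (c z) (c w) = cx z w`, `dt (c z) (c w) = dt z w`
for `‖c‖ = 1`, `V (mv q) i = c * V q i + e`; the rest by induction on `js`. -/
def Sa_MOV : Prop := ∀ (S : TriSys) (c e : ℂ) (hc : ‖c‖ = 1),
  (∀ (q : Pl S) (i : ZMod 3), (q.mv c e hc).V i = c * q.V i + e) ∧
  (∀ (q : Pl S) (j : ZMod 3), (q.mv c e hc).nx j = (q.nx j).mv c e hc ∧ (q.mv c e hc).en j = q.en j) ∧
  (∀ (q : Pl S) (y : ℂ), (q.mv c e hc).In (c * y + e) ↔ q.In y) ∧
  (∀ (q : Pl S) (x v : ℂ) (j : ZMod 3), ((q.mv c e hc).Ex (c * x + e) (c * v) j ↔ q.Ex x v j) ∧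
    (q.mv c e hc).ct (c * x + e) (c * v) j = q.ct x v j) ∧
  (∀ (js : List (ZMod 3)) (q : Pl S) (x v : ℂ) (i : ZMod 3),
    (Run (q.mv c e hc) (c * x + e) (c * v) js ↔ Run q x v js) ∧
    endP (q.mv c e hc) js = (endP q js).mv c e hc ∧ eI (q.mv c e hc) i js = eI q i js ∧
    rev (q.mv c e hc) js = rev q js ∧
    clr (q.mv c e hc) js (c * x + e) (c * v) = clr q js x v ∧
    av (q.mv c e hc) js (c * x + e) (c * v) = av q js x v)

/-- EXU. Exit edges. (1) The exit index is unique (signs of the common end point). (2) What is an exit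
for a room is an entrance for the next one and conversely (GLU). (3) A room is never left through the
edge through which it is entered. (4) After entering through `i` the line leaves through `i + 1` if the
apex is on its left, through `i + 2` if it is on its right: e.g. for `i + 1` one needs
`0 < cx v (V (i+3) - x)`, `V (i+3) = V i`, and `cx v (V (i+2) - x) < 0`. (5) conversely.
(6) Two runs of the same line: one is a prefix of the other (induction, (1)). (7) From an interior point, if no
vertex is on the line, there is an exit edge: the three numbers `cx v (V i - x)` are not all positive and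
not all negative (`x` is a convex combination of the vertices with positive weights:
`∑ w_i (V i - x) = 0`, `w_i = cx (V (i+2) - V (i+1)) (x - V (i+1)) > 0`), so going counter clockwise around
the triangle there is a change from negative to positive. (8) Concatenation. -/
def Sa_EXU : Prop := ∀ (S : TriSys),
  (∀ (q : Pl S) (x v : ℂ) (j j' : ZMod 3), q.Ex x v j → q.Ex x v j' → j = j') ∧
  (∀ (q : Pl S) (x v : ℂ) (j : ZMod 3), q.Ex x v j ↔ (q.nx j).En x v (q.en j)) ∧
  (∀ (q : Pl S) (x v : ℂ) (i : ZMod 3), q.En x v i → ¬ q.Ex x v i) ∧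
  (∀ (q : Pl S) (x v : ℂ) (i : ZMod 3), q.En x v i →
    (0 < cx v (q.V i - x) → q.Ex x v (i + 1)) ∧ (cx v (q.V i - x) < 0 → q.Ex x v (i + 2))) ∧
  (∀ (q : Pl S) (x v : ℂ) (i j : ZMod 3), q.En x v i → q.Ex x v j →
    (j = i + 1 ∧ 0 < cx v (q.V i - x)) ∨ (j = i + 2 ∧ cx v (q.V i - x) < 0)) ∧
  (∀ (js js' : List (ZMod 3)) (q : Pl S) (x v : ℂ), Run q x v js → Run q x v js' →
    js <+: js' ∨ js' <+: js) ∧
  (∀ (q : Pl S) (x v : ℂ), q.In x → (∀ i, cx v (q.V i - x) ≠ 0) → ∃ j, q.Ex x v j) ∧
  (∀ (js js' : List (ZMod 3)) (q : Pl S) (x v : ℂ) (i : ZMod 3),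
    (Run q x v (js ++ js') ↔ Run q x v js ∧ Run (endP q js) x v js') ∧
    endP q (js ++ js') = endP (endP q js) js' ∧ eI q i (js ++ js') = eI (endP q js) (eI q i js) js' ∧
    cts q x v (js ++ js') = cts q x v js ++ cts (endP q js) x v js')

/-- TIM. Crossing times, one room. In coordinates: `cx v (V (j+2) - V (j+1)) > 0` for an exit edge and
`< 0` for an entering edge. The point `x + τ v` is to the left of the directed edge `V (j+1) → V (j+2)` iff
`0 < cx (V (j+2) - V (j+1)) (x + τ v - V (j+1))`, an affine function of `τ` with slope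
`cx (V (j+2) - V (j+1)) v` and zero `ct`, so: for an exit edge iff `τ < ct`, for an entering edge iff `ct < τ`.
(1) same time from both sides (numerator and denominator change sign, GLU). (2),(3) immediate.
(4) entering time < exit time: at the crossing point with the entering edge `i` (a convex combination with
positive weights of `V (i+1), V (i+2)`, see (8)) the affine function of the exit edge `j ≠ i` is positive
(ORI: the third vertex and one common vertex give values `> 0` and `0`).
(5) the third edge: a point of the line strictly between the two crossing points is a convex combination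
with positive weights of two points of the boundary on different edges, so it is interior.
(6) from an interior point: the set of `τ` with `In` is an interval containing 0 (intersection of half
lines), bounded above exactly by the exit edge: for the other two edges the affine function is positive at
`0` and positive or zero at `ct` of the exit edge. (7) `0 < ct` from an interior point: (2) with `τ = 0`.
(8) the crossing point is a proper convex combination: `l = - cx v (V (j+1) - x) / cx v (V (j+2) - V (j+1))`.
(9) an apex on the line lies strictly beyond the entering edge (`‖v‖ = 1`): write `V i = x + s v`,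
`s = dt v (V i - x)` (because `cx v (V i - x) = 0`), and `V i` is on the left of the entering edge (ORI). -/
def Sa_TIM : Prop := ∀ (S : TriSys),
  (∀ (q : Pl S) (x v : ℂ) (j : ZMod 3), (q.nx j).ct x v (q.en j) = q.ct x v j) ∧
  (∀ (q : Pl S) (x v : ℂ) (j : ZMod 3) (τ : ℝ), q.Ex x v j → q.In (x + τ * v) → τ < q.ct x v j) ∧
  (∀ (q : Pl S) (x v : ℂ) (i : ZMod 3) (τ : ℝ), q.En x v i → q.In (x + τ * v) → q.ct x v i < τ) ∧
  (∀ (q : Pl S) (x v : ℂ) (i j : ZMod 3), q.En x v i → q.Ex x v j → q.ct x v i < q.ct x v j) ∧
  (∀ (q : Pl S) (x v : ℂ) (i j : ZMod 3) (τ : ℝ), q.En x v i → q.Ex x v j → q.ct x v i < τ →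
    τ < q.ct x v j → q.In (x + τ * v)) ∧
  (∀ (q : Pl S) (x v : ℂ) (j : ZMod 3) (τ : ℝ), q.In x → q.Ex x v j → 0 ≤ τ → τ < q.ct x v j →
    q.In (x + τ * v)) ∧
  (∀ (q : Pl S) (x v : ℂ) (j : ZMod 3), q.In x → q.Ex x v j → 0 < q.ct x v j) ∧
  (∀ (q : Pl S) (x v : ℂ) (j : ZMod 3), (q.Ex x v j ∨ q.En x v j) → ∃ l : ℝ, 0 < l ∧ l < 1 ∧
    x + q.ct x v j * v = (1 - l) * q.V (j + 1) + l * q.V (j + 2)) ∧
  (∀ (q : Pl S) (x v : ℂ) (i : ZMod 3), ‖v‖ = 1 → q.En x v i → cx v (q.V i - x) = 0 →
    q.V i = x + dt v (q.V i - x) * v ∧ q.ct x v i < dt v (q.V i - x))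

/-- CTS. Crossing times of a run are strictly increasing; a point of the line in the interior of the
last room comes after all of them; starting in the interior (or at the vertex opposite to the first edge)
they are positive. Proof: induction on `js` with EXU (2), (3), TIM (1), (4); for (3) the last entry is
the crossing time of the entering edge of the last room: use EXU (8) and write `js = js₁ ++ [j]`.
(4): if `q.In x` then the first time is positive by TIM (7) and the others are larger. -/
def Sa_CTS : Prop := ∀ (S : TriSys),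
  (∀ (js : List (ZMod 3)) (q : Pl S) (x v : ℂ), Run q x v js → (cts q x v js).Pairwise (· < ·)) ∧
  (∀ (js : List (ZMod 3)) (q : Pl S) (x v : ℂ) (j : ZMod 3), Run q x v (js ++ [j]) →
    ∀ t ∈ cts q x v js, t < (endP q js).ct x v j) ∧
  (∀ (js : List (ZMod 3)) (q : Pl S) (x v : ℂ) (τ : ℝ), Run q x v js → (endP q js).In (x + τ * v) →
    ∀ t ∈ cts q x v js, t < τ) ∧
  (∀ (js : List (ZMod 3)) (q : Pl S) (x v : ℂ), q.In x → Run q x v js → ∀ t ∈ cts q x v js, 0 < t)

/-- UNI. The word of a segment is unique. Proof: by EXU (6) one of the words is a prefix of the other,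
`js' = js ++ j :: rest`; `(endP q js).In (x + N v)` and exit `j` give `N < ct` (TIM (2)); but this `ct` is an
element of `cts q x v js'` and `(endP q js').In (x + N v)` gives `ct < N` (CTS (3)). Consequences for
`DD`, `SS`. -/
def Sa_UNI : Prop := ∀ (S : TriSys) (r : S.R) (x v : ℂ) (N : ℝ) (js js' : List (ZMod 3)),
  PW S r x v N js → PW S r x v N js' → js = js' ∧
    DD S r x v N = clr (Pl.home S r) js x v ∧
    SS S r x v N = clr (Pl.home S r) js x v * av (Pl.home S r) js x v

/-- REV. Reversal, in unfolded coordinates (`v` a unit vector only for the last claim).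
Proof. One edge: `Ex q x v j ↔ Ex (q.nx j) (x + N v) (-v) (q.en j)`: by GLU the end points are the same with
left and right exchanged, and `cx (-v) (p - (x + N v)) = - cx v (p - x)`. Induction on `js` with EXU (8) for
`rev (q.nx j) js ++ [q.en j]`: `endP (endP q (j :: js)) (rev (q.nx j) js ++ [q.en j])
= (endP (endP (q.nx j) js) (rev (q.nx j) js)).nx (q.en j) = (q.nx j).nx (q.en j) = q`. `rev` of `rev`: prove
`rev q (js ++ [j]) = (endP q js).en j :: rev q js` first. The list of visited rooms is reversed, so `vl` of the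
reversed run is a permutation of `vl`: prove `(vl (endP q js) (rev q js)).Perm (vl q js)`; `clr` is the
minimum of `|cx v (p - x)|` over `vl`, `|cx (-v) (p - (x + N v))| = |cx v (p - x)|`,
`dt (-v) (p - (x + N v)) = N - dt v (p - x)` for `‖v‖ = 1`; the sums in `av` are sums over the list, the
denominator is at least 1. -/
def Sa_REV : Prop := ∀ (S : TriSys) (q : Pl S) (x v : ℂ) (N : ℝ) (js : List (ZMod 3)),
  (Run q x v js ↔ Run (endP q js) (x + N * v) (-v) (rev q js)) ∧
  endP (endP q js) (rev q js) = q ∧ rev (endP q js) (rev q js) = js ∧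
  clr (endP q js) (rev q js) (x + N * v) (-v) = clr q js x v ∧
  (‖v‖ = 1 → av (endP q js) (rev q js) (x + N * v) (-v) = N - av q js x v)

/-- PWR. Reversal of phase points. Proof: REV (1)-(3), (4), (5) moved by the motion
`z ↦ (z - q.b) / q.a` (MOV with `c = (q.a)⁻¹`), which maps the placed room `q` to `home q.r` and
`home r` to the placed room `(r, a⁻¹, -b/a)`; then UNI. -/
def Sa_PWR : Prop := ∀ (S : TriSys) (r : S.R) (x v : ℂ) (N : ℝ) (js : List (ZMod 3)), ‖v‖ = 1 →
  PW S r x v N js → ∀ q : Pl S, q = endP (Pl.home S r) js →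
    PW S q.r ((x + N * v - q.b) / q.a) (-v / q.a) N (rev (Pl.home S r) js) ∧
    endP (Pl.home S q.r) (rev (Pl.home S r) js) = ⟨r, q.a⁻¹, -q.b / q.a, by rw [norm_inv, q.ha, inv_one]⟩ ∧
    DD S q.r ((x + N * v - q.b) / q.a) (-v / q.a) N = DD S r x v N ∧
    SS S q.r ((x + N * v - q.b) / q.a) (-v / q.a) N = N * DD S r x v N - SS S r x v N

/-- DIA. Constants of the surface: `D₀` bounds the diameters of the rooms, `h₀` is a lower bound for the
altitudes. Proof. `D₀` = maximum of the edge lengths plus 1 (finitely many rooms, `‖a‖ = 1`); a point of the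
closed triangle has distance at most the longest edge from each vertex (convexity of the norm; an interior
point is a convex combination `x = ∑ w_i V i / ∑ w_i`); crossing points by TIM (8). `h₀` = minimum over rooms
and `i` of `cx (V (i+1) - V i) (V (i+2) - V i) / ‖V (i+2) - V (i+1)‖`: for a line from the vertex `V i`,
`‖v‖ = 1`: `ct = cx (V (i+1) - V i) (V (i+2) - V i) / cx v (V (i+2) - V (i+1))` and the denominator is at most the
edge length. -/
def Sa_DIA : Prop := ∀ (S : TriSys), ∃ D₀ h₀ : ℝ, 1 ≤ D₀ ∧ 0 < h₀ ∧
  (∀ (q : Pl S) (i j : ZMod 3), ‖q.V i - q.V j‖ ≤ D₀) ∧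
  (∀ (q : Pl S) (y : ℂ) (i : ZMod 3), q.In y → ‖y - q.V i‖ ≤ D₀) ∧
  (∀ (q : Pl S) (x v : ℂ) (i j : ZMod 3), (q.Ex x v j ∨ q.En x v j) →
    ‖x + q.ct x v j * v - q.V i‖ ≤ D₀) ∧
  (∀ (q : Pl S) (v : ℂ) (i : ZMod 3), ‖v‖ = 1 → q.Ex (q.V i) v i → h₀ ≤ q.ct (q.V i) v i)

/-- LEN. The number of crossed edges is at most linear in the time.
Proof. (a) If a line enters a placed room through the edge `i` and leaves through `j` at times `t < t'`,
`‖v‖ = 1`, then the crossing points are at distance `≤ (t' - t) / s₀` from the common vertex `V p`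
(`p ≠ i, j`) of the two edges, where `s₀ > 0` is the minimum of the sines of the angles of the rooms (for
points `A, B` on the two sides of an angle `γ` at `O`: `‖A - B‖ ≥ ‖A - O‖ sin γ` if `γ ≤ π/2`, and
`≥ ‖A - O‖` otherwise). (b) Let `ℓ` be the minimal edge length, `δ = s₀ ℓ / 4`. If two consecutive rooms are
both crossed in time `≤ δ` then their pivots (the common vertex of entering and exit edge) are the same
point: both are end points of the edge between them, and the crossing point of this edge is at distance
`≤ ℓ/4` from both. (c) If `m` consecutive rooms are crossed in total time `≤ δ` they have the same pivot `O`; all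
rooms are triangles with vertex `O`, with non overlapping angles at `O` seen from `O` in the same sense
(`O` stays on the same side of the line: the turns are all `i + 1` or all `i + 2`), each angle is `≥ γ₀`, and
the sum of the angles is the angle under which the segment between the first and the last crossing point
is seen from `O`, which is `< π` because the line does not pass through `O`. So `m ≤ π / γ₀`. (An algebraic
form of (c): for the crossing points `c_k` (`k = 0..m`) with `w_k = (c_k - O)`, `arg (w_(k+1) / w_k)` has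
constant sign, is the angle at `O` of the room, and the sum of the arguments is `arg (w_m / w_0)` because all
`w_k` lie in an open half plane.) (d) So each block of `⌈π/γ₀⌉ + 2` consecutive edges takes time `≥ δ`. -/
def Sa_LEN : Prop := ∀ (S : TriSys), ∃ C : ℝ, 0 < C ∧
  ∀ (js : List (ZMod 3)) (q : Pl S) (x v : ℂ) (T₁ T₂ : ℝ), ‖v‖ = 1 → T₁ ≤ T₂ → Run q x v js →
    (∀ t ∈ cts q x v js, T₁ ≤ t ∧ t ≤ T₂) → (js.length : ℝ) ≤ C * (1 + (T₂ - T₁))

/-- ENT. The entering edge of the last room. Proof: induction on `js`, EXU (2), CTS (1). The index `eI` does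
not depend on the initial index if `js` is not empty. -/
def Sa_ENT : Prop := ∀ (S : TriSys) (js : List (ZMod 3)) (q : Pl S) (x v : ℂ) (i : ZMod 3), js ≠ [] →
  Run q x v js → (endP q js).En x v (eI q i js) ∧ eI q i js = eI q 0 js ∧
    (endP q js).ct x v (eI q i js) ∈ cts q x v js ∧
    ∀ t ∈ cts q x v js, t ≤ (endP q js).ct x v (eI q i js)

/-- CLV. The clearance is the minimum over the list of vertices. Proof: induction. -/
def Sa_CLV : Prop := ∀ (S : TriSys) (js : List (ZMod 3)) (q : Pl S) (x v : ℂ),
  (∀ p ∈ vl q js, clr q js x v ≤ |cx v (p - x)|) ∧ (∃ p ∈ vl q js, clr q js x v = |cx v (p - x)|) ∧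
  0 ≤ clr q js x v ∧ (∀ i, q.V i ∈ vl q js) ∧ (∀ i, (endP q js).V i ∈ vl q js)

/-- CLS. One more room: only its apex is new. Proof: `clr q (js ++ [j]) = min (clr q js) (h3 of the new room)`
by induction; the other two vertices of the new room are vertices of `endP q js` (GLU), whose heights are
already `≥ clr q js` (CLV). `ZMod 3 = {en, en + 1, en + 2}`. -/
def Sa_CLS : Prop := ∀ (S : TriSys) (js : List (ZMod 3)) (q : Pl S) (x v : ℂ) (j : ZMod 3),
  clr q (js ++ [j]) x v = min (clr q js x v)
    |cx v (((endP q js).nx j).V ((endP q js).en j) - x)|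

end Pool.Agent.FAN
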