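import Pool.Agent.FAN.StA

/-!
# FAN, block 3: the fan inequality (helper17). Statements with complete proofs.

Write `theorem f_X : Sf_X` in `Pool/Agent/FAN/F_X.lean`, namespace `Pool.Agent.FAN`. A statement may use
other statements (of StA.lean and of this file) as hypotheses (`theorem f_X (h : Sa_Y) : Sf_X`).

All derivatives are with respect to the angle `ψ`. Basic facts: `d/dψ cx (ev ψ) w = - dt (ev ψ) w`,
`d/dψ dt (ev ψ) w = cx (ev ψ) w`, `cx² + dt² = ‖w‖²`.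
-/

set_option autoImplicit false

open scoped ComplexConjugate
open MeasureTheory Set

namespace Pool.Agent.FAN

/-- `D₀` bounds the diameters of the placed rooms (see `Sa_DIA`) -/
def Dia (S : TriSys) (D₀ : ℝ) : Prop := 1 ≤ D₀ ∧
  (∀ (q : Pl S) (i j : ZMod 3), ‖q.V i - q.V j‖ ≤ D₀) ∧
  (∀ (q : Pl S) (y : ℂ) (i : ZMod 3), q.In y → ‖y - q.V i‖ ≤ D₀) ∧
  (∀ (q : Pl S) (x v : ℂ) (i j : ZMod 3), (q.Ex x v j ∨ q.En x v j) → ‖x + q.ct x v j * v - q.V i‖ ≤ D₀)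

/-- the line `x + τ v` does not hit a vertex -/
def NH (S : TriSys) (r : S.R) (x v : ℂ) : Prop :=
  ∀ js, Run (Pl.home S r) x v js → ∀ i, cx v ((endP (Pl.home S r) js).V i - x) ≠ 0

open Classical in
/-- the first `n` letters of the word of the ray `x + τ v` -/
noncomputable def wd (S : TriSys) (r : S.R) (x v : ℂ) : ℕ → List (ZMod 3)
  | 0 => []
  | n + 1 => if h : ∃ j, (endP (Pl.home S r) (wd S r x v n)).Ex x v j then
      wd S r x v n ++ [h.choose] else wd S r x v n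

open Classical in
/-- entering time of the last room, `0` for the first room -/
noncomputable def tm (S : TriSys) (r : S.R) (x v : ℂ) (js : List (ZMod 3)) : ℝ :=
  if js = [] then 0 else (endP (Pl.home S r) js).ct x v (eI (Pl.home S r) 0 js)

/-- the weight -/
noncomputable def om (S : TriSys) (r : S.R) (x : ℂ) (M : ℝ) (js : List (ZMod 3)) (ψ : ℝ) : ℝ :=
  max 0 (M - tm S r x (ev ψ) js)

/-- clearance as a function of the angle -/
noncomputable def ee (S : TriSys) (r : S.R) (x : ℂ) (js : List (ZMod 3)) (ψ : ℝ) : ℝ :=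
  clr (Pl.home S r) js x (ev ψ)

/-- absolute value of the derivative of half the square of the clearance -/
noncomputable def bb (S : TriSys) (r : S.R) (x : ℂ) (js : List (ZMod 3)) (ψ : ℝ) : ℝ :=
  |deriv (fun s => ee S r x js s ^ 2 / 2) ψ|

/-- the apex of the last room (the vertex opposite to the entering edge) -/
noncomputable def apx (S : TriSys) (r : S.R) (js : List (ZMod 3)) : ℂ :=
  (endP (Pl.home S r) js).V (eI (Pl.home S r) 0 js)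

/-- the entering edge of the last room is far from `x` -/
def Far (S : TriSys) (r : S.R) (x : ℂ) (D₀ : ℝ) (js : List (ZMod 3)) : Prop :=
  4 * D₀ < ‖(endP (Pl.home S r) js).V (eI (Pl.home S r) 0 js + 1) - x‖ ∧
  4 * D₀ < ‖(endP (Pl.home S r) js).V (eI (Pl.home S r) 0 js + 2) - x‖

open Classical in
/-- the right hand side of the fan inequality at one node -/
noncomputable def RR (S : TriSys) (r : S.R) (x : ℂ) (D₀ M : ℝ) (js : List (ZMod 3)) (ψ : ℝ) : ℝ :=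
  if Far S r x D₀ js then
    ‖apx S r js - x‖ * (ee S r x js.dropLast ψ - ee S r x js ψ) * om S r x M js ψ +
    9 * D₀ * ‖apx S r js - x‖ * (ee S r x js.dropLast ψ - ee S r x js ψ) *
      (if tm S r x (ev ψ) js ≤ M + D₀ then 1 else 0)
  else M * (6 * D₀) ^ 2

/-- the left hand side of the fan inequality at one node -/
noncomputable def LL (S : TriSys) (r : S.R) (x : ℂ) (M : ℝ) (js : List (ZMod 3)) (ψ : ℝ) : ℝ :=
  (bb S r x js ψ - bb S r x js.dropLast ψ) * om S r x M js ψ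

/-- ONA. One sided inequality, `g ψ = ρ |sin (ψ - θ)|` monotone on `[a, b]`.
Proof. Notation: `f₁ = min f g`, `F = f²/2`, `G = g²/2`, `F₁ = f₁²/2 = min F G`, `H = F - F₁ ≥ 0`. All are
Lipschitz on `[a, b]`, so absolutely continuous; use `AbsolutelyContinuousOnInterval` (integral of `deriv`,
integration by parts, a.e. differentiability).
(0) For a.e. `ψ` in `(a, b)` everything is differentiable; if `g < f` at `ψ` then `F₁' = G'`; if `f ≤ g` at `ψ`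
then `F₁' = F'` (clear if `f < g`; if `f = g` then `H ≥ 0` has a minimum at `ψ`, so `H' = 0`).
`G' = ρ² sin (ψ-θ) cos (ψ-θ)` is `≤ 0` for `θ - π/2 ≤ ψ ≤ θ`, `≥ 0` for `θ ≤ ψ ≤ θ + π/2`.
(1) Left of `θ`: `|F₁'| - |F'| ≤ H'` a.e. (if `g < f`: `|F₁'| = - G'`, `- |F'| ≤ F'`; otherwise `0 = 0`), so
`∫ (|F₁'| - |F'|) w ≤ ∫ H' w = H b w b - H a w a - ∫ H w'`. Right of `θ`: `|F₁'| - |F'| ≤ - H'`, so
`∫ (|F₁'| - |F'|) w ≤ - ∫ H' w = H a w a - H b w b + ∫ H w'`.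
(2) `H = (f - f₁) (f + f₁) / 2 ≤ (f - f₁) f`, so `H |w'| ≤ κ ρ (f - f₁)` a.e. -/
def Sf_ONA : Prop := ∀ (f w : ℝ → ℝ) (a b θ ρ κ : ℝ), a ≤ b → 0 < ρ → 0 ≤ κ →
  (∃ K, LipschitzOnWith K f (Icc a b)) → (∃ K, LipschitzOnWith K w (Icc a b)) →
  (∀ ψ ∈ Icc a b, 0 ≤ f ψ ∧ 0 ≤ w ψ) →
  (∀ ψ ∈ Ioo a b, DifferentiableAt ℝ w ψ → f ψ * |deriv w ψ| ≤ κ * ρ) →
  (b ≤ θ → θ - a ≤ Real.pi / 2 →
    ∫ ψ in a..b, (|deriv (fun s => (min (f s) (ρ * |Real.sin (s - θ)|)) ^ 2 / 2) ψ| -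
      |deriv (fun s => f s ^ 2 / 2) ψ|) * w ψ ≤
    (f b ^ 2 / 2 - (min (f b) (ρ * |Real.sin (b - θ)|)) ^ 2 / 2) * w b -
    (f a ^ 2 / 2 - (min (f a) (ρ * |Real.sin (a - θ)|)) ^ 2 / 2) * w a +
    κ * ρ * (∫ ψ in a..b, (f ψ - min (f ψ) (ρ * |Real.sin (ψ - θ)|)))) ∧
  (θ ≤ a → b - θ ≤ Real.pi / 2 →
    ∫ ψ in a..b, (|deriv (fun s => (min (f s) (ρ * |Real.sin (s - θ)|)) ^ 2 / 2) ψ| -
      |deriv (fun s => f s ^ 2 / 2) ψ|) * w ψ ≤
    (f a ^ 2 / 2 - (min (f a) (ρ * |Real.sin (a - θ)|)) ^ 2 / 2) * w a -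
    (f b ^ 2 / 2 - (min (f b) (ρ * |Real.sin (b - θ)|)) ^ 2 / 2) * w b +
    κ * ρ * (∫ ψ in a..b, (f ψ - min (f ψ) (ρ * |Real.sin (ψ - θ)|))))

/-- ONB. The middle part. Proof. On `(a, θ)` `F₁ = G` a.e. in the sense of derivatives (`g ≤ f`: where `g < f`
clear; where `g = f` the function `G - F₁ ≥ 0` has a minimum), `G' ≤ 0`, so `|F₁'| - |F'| ≤ - G' - F'` a.e., and
`- ∫ (G' + F') w = (G a + F a) w a - (G θ + F θ) w θ + ∫ (F + G) w'`, `G θ = 0`, `(F + G) |w'| ≤ f² |w'| ≤ κ ρ f`.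
The second claim is the mirror image. -/
def Sf_ONB : Prop := ∀ (f w : ℝ → ℝ) (a θ ρ κ : ℝ), 0 < ρ → 0 ≤ κ →
  (a ≤ θ → θ - a ≤ Real.pi / 2 →
    (∃ K, LipschitzOnWith K f (Icc a θ)) → (∃ K, LipschitzOnWith K w (Icc a θ)) →
    (∀ ψ ∈ Icc a θ, 0 ≤ f ψ ∧ 0 ≤ w ψ ∧ ρ * |Real.sin (ψ - θ)| ≤ f ψ) →
    (∀ ψ ∈ Ioo a θ, DifferentiableAt ℝ w ψ → f ψ * |deriv w ψ| ≤ κ * ρ) →
    ∫ ψ in a..θ, (|deriv (fun s => (min (f s) (ρ * |Real.sin (s - θ)|)) ^ 2 / 2) ψ| -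
      |deriv (fun s => f s ^ 2 / 2) ψ|) * w ψ ≤
    ((ρ * |Real.sin (a - θ)|) ^ 2 / 2 + f a ^ 2 / 2) * w a - f θ ^ 2 / 2 * w θ +
    κ * ρ * (∫ ψ in a..θ, f ψ)) ∧
  (θ ≤ a → a - θ ≤ Real.pi / 2 →
    (∃ K, LipschitzOnWith K f (Icc θ a)) → (∃ K, LipschitzOnWith K w (Icc θ a)) →
    (∀ ψ ∈ Icc θ a, 0 ≤ f ψ ∧ 0 ≤ w ψ ∧ ρ * |Real.sin (ψ - θ)| ≤ f ψ) →
    (∀ ψ ∈ Ioo θ a, DifferentiableAt ℝ w ψ → f ψ * |deriv w ψ| ≤ κ * ρ) →
    ∫ ψ in θ..a, (|deriv (fun s => (min (f s) (ρ * |Real.sin (s - θ)|)) ^ 2 / 2) ψ| -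
      |deriv (fun s => f s ^ 2 / 2) ψ|) * w ψ ≤
    ((ρ * |Real.sin (a - θ)|) ^ 2 / 2 + f a ^ 2 / 2) * w a - f θ ^ 2 / 2 * w θ +
    κ * ρ * (∫ ψ in θ..a, f ψ))

/-- ONC. Proof. The integral is `2 ρ (t sin t - (1 - cos t))`; `k t = t sin t - 1 + cos t - sin² t / 2` has `k 0 = 0`,
`k' t = cos t (t - sin t) ≥ 0` on `[0, π/2]`. Second claim: Jordan (`Real.mul_le_sin`). -/
def Sf_ONC : Prop := ∀ (θ ρ t : ℝ), 0 < ρ → 0 ≤ t → t ≤ Real.pi / 2 →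
  (ρ * Real.sin t) ^ 2 ≤ ρ * ∫ ψ in (θ - t)..(θ + t), (ρ * Real.sin t - ρ * |Real.sin (ψ - θ)|) ∧
  2 * t ≤ Real.pi * Real.sin t

/-- ONE. The one dimensional fan lemma, direction `θ` of the new vertex inside the arc.
Proof. Notation of ONA; `κ ρ` bounds `f |w'|`.
(3) Let `s₀` be a minimum point of `max f g` on `[α, β]`, `m` the minimum. Then `f ≥ m` on `{g < m}`, and
`f s₀ = m`: otherwise `g s₀ = m > f s₀ ≥ 0`, `s₀ ≠ θ`, and a small step towards `θ` decreases `g` strictly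
and keeps `f < m`, contradiction. Let `s₀ ≤ θ` (the other case is the mirror image; all ingredients are
stated on both sides). `m ≤ g α` and `m ≤ g β` (because `f α = f β = 0`), so `m = ρ sin t` with `0 ≤ t ≤ π/2`,
`α ≤ θ - t`, `θ + t ≤ β`, and `{g < m} = (θ - t, θ + t) =: mid`; `g s₀ ≤ m` so `s₀ ∈ [θ - t, θ]`.
(4) ONA on `[α, s₀]` (left) and on `[θ, β]` (right), with `H α w α = 0` (`f α = 0`), `H β = 0`,
`H s₀ = m²/2 - G s₀` (`f s₀ = m ≥ g s₀`), `H θ = F θ` (`g θ = 0`); ONB on `[s₀, θ]` (there `g ≤ m ≤ f`):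
`(G s₀ + m²/2) w s₀ - F θ w θ + κ ρ ∫_{[s₀,θ]} f`. Total: `m² w s₀ + κ ρ ∫ (f - f₁) + κ ρ ∫_{[s₀,θ]} f`.
(5) ONC: `m² ≤ ρ ∫_mid (m - g)`, `2 t ≤ π sin t`. If `m > 0`: for `ψ ∈ mid`,
`w s₀ ≤ w ψ + ∫_mid |w'| ≤ w ψ + 2 t κ ρ / m ≤ w ψ + π κ` (a.e. on `mid` `m |w'| ≤ f |w'| ≤ κ ρ`). So
`m² w s₀ ≤ ρ ∫_mid (f - g) w + π κ ρ ∫_mid (f - g)`; on `mid` `f₁ = g` (`g ≤ m ≤ f`).
(6) `f = (f - g) + g ≤ (f - g) + m` on `mid`, `∫_mid m = 2 t m ≤ π m sin t = π m²/ρ ≤ π ∫_mid (m - g) ≤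
π ∫_mid (f - g)`. Total of the errors `≤ (1 + 1 + 2 π) κ ρ ∫ (f - f₁) ≤ 9 κ ρ ∫ (f - f₁)`. If `m = 0` (4) is enough
with `s₀ = θ` (`g s₀ ≤ 0`). -/
def Sf_ONE : Prop := ∀ (f w : ℝ → ℝ) (α β θ ρ κ : ℝ), α < θ → θ < β → θ - α ≤ Real.pi / 2 →
  β - θ ≤ Real.pi / 2 → 0 < ρ → 0 ≤ κ → (∃ K, LipschitzOnWith K f (Icc α β)) →
  (∃ K, LipschitzOnWith K w (Icc α β)) → (∀ ψ ∈ Icc α β, 0 ≤ f ψ ∧ 0 ≤ w ψ) → f α = 0 → f β = 0 →
  (∀ ψ ∈ Ioo α β, DifferentiableAt ℝ w ψ → f ψ * |deriv w ψ| ≤ κ * ρ) →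
  ∫ ψ in α..β, (|deriv (fun s => (min (f s) (ρ * |Real.sin (s - θ)|)) ^ 2 / 2) ψ| -
      |deriv (fun s => f s ^ 2 / 2) ψ|) * w ψ ≤
    ρ * (∫ ψ in α..β, (f ψ - min (f ψ) (ρ * |Real.sin (ψ - θ)|)) * w ψ) +
    9 * κ * ρ * (∫ ψ in α..β, (f ψ - min (f ψ) (ρ * |Real.sin (ψ - θ)|)))

/-- TWO. The one dimensional fan lemma, `θ` outside the arc. Proof: ONA on the whole interval gives
`≤ κ ρ ∫ (f - f₁)` (`f α = f β = 0`, so the boundary terms vanish), and `∫ (f - f₁) w ≥ 0`. -/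
def Sf_TWO : Prop := ∀ (f w : ℝ → ℝ) (α β θ ρ κ : ℝ), α < β →
  ((θ ≤ α ∧ β - θ ≤ Real.pi / 2) ∨ (β ≤ θ ∧ θ - α ≤ Real.pi / 2)) → 0 < ρ → 0 ≤ κ →
  (∃ K, LipschitzOnWith K f (Icc α β)) →
  (∃ K, LipschitzOnWith K w (Icc α β)) → (∀ ψ ∈ Icc α β, 0 ≤ f ψ ∧ 0 ≤ w ψ) → f α = 0 → f β = 0 →
  (∀ ψ ∈ Ioo α β, DifferentiableAt ℝ w ψ → f ψ * |deriv w ψ| ≤ κ * ρ) →
  ∫ ψ in α..β, (|deriv (fun s => (min (f s) (ρ * |Real.sin (s - θ)|)) ^ 2 / 2) ψ| -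
      |deriv (fun s => f s ^ 2 / 2) ψ|) * w ψ ≤
    ρ * (∫ ψ in α..β, (f ψ - min (f ψ) (ρ * |Real.sin (ψ - θ)|)) * w ψ) +
    9 * κ * ρ * (∫ ψ in α..β, (f ψ - min (f ψ) (ρ * |Real.sin (ψ - θ)|)))

/-- LIP. The clearance is Lipschitz in the angle, and continuous in `(x, v)`. Proof: `|cx (ev ψ) (p - x)|` is
Lipschitz with constant `‖p - x‖`; minimum of two Lipschitz functions; induction on `js`. The value at the
angles `ψ` and `ψ + 2 π` is the same (`ev`). -/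
def Sf_LIP : Prop := ∀ (S : TriSys) (q : Pl S) (js : List (ZMod 3)),
  (∀ x : ℂ, ∃ K, LipschitzWith K (fun ψ : ℝ => clr q js x (ev ψ))) ∧
  Continuous (fun p : ℂ × ℂ => clr q js p.1 p.2) ∧
  ∀ (x : ℂ) (ψ : ℝ), clr q js x (ev (ψ + 2 * Real.pi)) = clr q js x (ev ψ)

/-- DER. Clearance times average foot is at most the derivative of half the square.
Proof. `F s = ee s ^ 2 / 2`. For every `p` in `vl` with `|cx (ev ψ) (p - x)| = ee ψ`: `F ≤ (cx (ev s) (p - x))²/2`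
with equality at `ψ`, so `F' ψ = - cx (ev ψ) (p - x) * dt (ev ψ) (p - x)` (the difference has a minimum), and
`clr * |dt (ev ψ) (p - x)| = |F' ψ|`. Average over these `p` (there is at least one, CLV). -/
def Sf_DER : Prop := ∀ (S : TriSys) (r : S.R) (x : ℂ) (js : List (ZMod 3)) (ψ : ℝ),
  DifferentiableAt ℝ (fun s => ee S r x js s ^ 2 / 2) ψ →
  clr (Pl.home S r) js x (ev ψ) * av (Pl.home S r) js x (ev ψ) ≤ bb S r x js ψ

/-- CRT. The derivative of a crossing time. Proof: `t = N / cx (ev ψ) (R - L)`, `N` constant, so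
`t' = N * dt (ev ψ) (R - L) / cx (ev ψ) (R - L) ^ 2 = t * dt (ev ψ) (R - L) / cx (ev ψ) (R - L)`;
`|dt (ev ψ) (R - L)| ≤ ‖R - L‖`; `|cx (ev ψ) (R - L)| = |cx (ev ψ) (R - x)| + |cx (ev ψ) (L - x)| ≥ 2 f`. -/
def Sf_CRT : Prop := ∀ (L R x : ℂ) (ψ f : ℝ), 0 < cx (ev ψ) (L - x) → cx (ev ψ) (R - x) < 0 → 0 ≤ f →
  f ≤ |cx (ev ψ) (L - x)| → f ≤ |cx (ev ψ) (R - x)| →
  DifferentiableAt ℝ (fun s => cx (L - x) (R - x) / cx (ev s) (R - L)) ψ ∧
  2 * (f * |deriv (fun s => cx (L - x) (R - x) / cx (ev s) (R - L)) ψ|) ≤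
    |cx (L - x) (R - x) / cx (ev ψ) (R - L)| * ‖R - L‖

/-- OML. The weight is Lipschitz on a closed arc and its derivative is controlled.
Proof. `q = endP (home) js`, `i = eI`; for `js ≠ []` `tm = q.ct x (ev ψ) i = N / cx (ev ψ) (R - L)` with `L = V (i+1)`,
`R = V (i+2)`. On the open arc `En` holds (ENT) and `tm > 0` (CTS (4), ENT), so `N ≠ 0`. On the closed arc
`cx (ev ψ) (L - x) ≥ 0 ≥ cx (ev ψ) (R - x)` and `cx (ev ψ) (R - L) ≠ 0` (otherwise both vanish, `L - x` and `R - x`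
are parallel to `ev ψ` and `N = 0`). So `tm` is smooth in a neighbourhood of the closed arc. `w = max 0 (M - tm)`.
At a point of differentiability of `w`: `|w'| ≤ |tm'|` (if `M - tm = 0` then `w ≥ 0` has a minimum). Then CRT, with
`f = ee js.dropLast`, which is at most the distances of `L` and `R` (they are vertices of `endP js.dropLast`, GLU,
CLV), and `‖R - L‖ ≤ D₀`. -/
def Sf_OML : Prop := ∀ (S : TriSys) (D₀ : ℝ), Dia S D₀ → ∀ (r : S.R) (x : ℂ), x ∈ rm S r →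
  ∀ (js : List (ZMod 3)) (j : ZMod 3) (α β M : ℝ), α < β →
  (∀ ψ, α < ψ → ψ < β → Run (Pl.home S r) x (ev ψ) (js ++ [j])) →
  (∃ K, LipschitzOnWith K (om S r x M (js ++ [j])) (Icc α β)) ∧
  ContinuousOn (fun ψ => tm S r x (ev ψ) (js ++ [j])) (Icc α β) ∧
  ∀ ψ ∈ Ioo α β, DifferentiableAt ℝ (om S r x M (js ++ [j])) ψ →
    2 * (ee S r x js ψ * |deriv (om S r x M (js ++ [j])) ψ|) ≤ tm S r x (ev ψ) (js ++ [j]) * D₀

/-- FAR. Geometry of a node. `t = tm`, `p = apx`, `c = x + t ev ψ` the crossing point: `t > 0` (CTS (4), ENT),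
`‖c - V k‖ ≤ D₀` for the vertices of the last room. (1) `|‖p - x‖ - t| ≤ ‖p - c‖ ≤ D₀`, and
`dt (ev ψ) (p - x) = t + dt (ev ψ) (p - c) ≥ t - D₀`. (2) far: `t = ‖c - x‖ ≥ ‖L - x‖ - D₀ > 3 D₀`. (3) not far:
`t ≤ 4 D₀ + D₀`. (4) Two directions through the same edge: both crossing points lie on the segment `[L, R]` of
length `≤ D₀` (TIM (8)), `|t - t'| = |‖c - x‖ - ‖c' - x‖| ≤ ‖c - c'‖ ≤ D₀`. -/
def Sf_FAR : Prop := ∀ (S : TriSys) (D₀ : ℝ), Dia S D₀ → ∀ (r : S.R) (x : ℂ), x ∈ rm S r →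
  ∀ (js : List (ZMod 3)) (j : ZMod 3) (ψ : ℝ), Run (Pl.home S r) x (ev ψ) (js ++ [j]) →
  0 < tm S r x (ev ψ) (js ++ [j]) ∧
  |‖apx S r (js ++ [j]) - x‖ - tm S r x (ev ψ) (js ++ [j])| ≤ D₀ ∧
  tm S r x (ev ψ) (js ++ [j]) - D₀ ≤ dt (ev ψ) (apx S r (js ++ [j]) - x) ∧
  (Far S r x D₀ (js ++ [j]) → 3 * D₀ < tm S r x (ev ψ) (js ++ [j])) ∧
  (¬ Far S r x D₀ (js ++ [j]) → tm S r x (ev ψ) (js ++ [j]) ≤ 5 * D₀) ∧
  (∀ ψ' : ℝ, Run (Pl.home S r) x (ev ψ') (js ++ [j]) →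
    |tm S r x (ev ψ) (js ++ [j]) - tm S r x (ev ψ') (js ++ [j])| ≤ D₀) ∧
  ee S r x (js ++ [j]) ψ = min (ee S r x js ψ) |cx (ev ψ) (apx S r (js ++ [j]) - x)|

/-- NODE. The fan inequality at one node.
Proof. `f = ee js`, `w = om (js ++ [j])`, `p = apx (js ++ [j])`, `ρ = ‖p - x‖`, `g ψ = |cx (ev ψ) (p - x)|`,
`ee (js ++ [j]) = min f g` (FAR; this identity holds for all angles, CLS). `f ≥ 0` (CLV), Lipschitz (LIP).
NOT FAR: pointwise a.e.: `bb (js++[j]) - bb js ≤ |(g²/2)'| ≤ ρ² ≤ (6 D₀)²` where `g < f`, `= 0` a.e. where `f ≤ g`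
(see ONA (0)), `ρ ≤ 5 D₀ + D₀`, `0 ≤ w ≤ M`.
FAR: if `tm > M` on the whole open arc, then `w = 0` there and the left side is `0`, the right side is `≥ 0`.
Otherwise `tm ≤ M + D₀` on the whole open arc (FAR (4)), so the indicator is `1`. `tm > 3 D₀`, so
`tm ≤ 3/2 ρ`, `ρ > 2 D₀`, and `dt (ev ψ) (p - x) ≥ 2 D₀ > 0` on the open, and by continuity on the closed arc. Write
`p - x = ρ (cos θ, sin θ)` with `|θ - (α+β)/2| ≤ π` (add a multiple of `2 π` to `arg`);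
`dt (ev ψ) (p - x) = ρ cos (ψ - θ)`, `cx (ev ψ) (p - x) = ρ sin (θ - ψ)`. For `ψ ∈ [α, β]`: `|ψ - θ| < 3π/2` and
`cos (ψ - θ) > 0`, so `|ψ - θ| < π/2`. By OML `f |w'| ≤ tm D₀ / 2 ≤ D₀ ρ`. Apply ONE (`α < θ < β`) or TWO
(otherwise) with `κ = D₀`. -/
def Sf_NODE : Prop := ∀ (S : TriSys) (D₀ : ℝ), Dia S D₀ → ∀ (r : S.R) (x : ℂ), x ∈ rm S r →
  ∀ (js : List (ZMod 3)) (j : ZMod 3) (α β M : ℝ), 0 ≤ M → α < β → β < α + Real.pi →
  (∀ ψ, α < ψ → ψ < β → Run (Pl.home S r) x (ev ψ) (js ++ [j])) →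
  ee S r x js α = 0 → ee S r x js β = 0 →
  ∫ ψ in α..β, LL S r x M (js ++ [j]) ψ ≤ ∫ ψ in α..β, RR S r x D₀ M (js ++ [j]) ψ

/-- ARC. The circle is the union of three arcs. Proof. `γ j = arg ((V (j+2) - x) / (V (j+1) - x)) ∈ (0, π)`
because `cx (V (j+1) - x) (V (j+2) - x) > 0` (`x` is interior); the product of the three ratios is `1`, so the
sum of the `γ j` is an integer multiple of `2 π` in `(0, 3 π)`, so it is `2 π`. `α 0 = arg (V 1 - x)`,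
`β 0 = α 1 = α 0 + γ 0`, `β 1 = α 2 = α 1 + γ 1`, `β 2 = α 2 + γ 2 = α 0 + 2 π`. `V (j+1) - x` is a positive
multiple of `ev (α j)`, `V (j+2) - x` of `ev (β j)`; `cx (ev ψ) (ev φ) = sin (φ - ψ)`. The integral:
periodicity (`Function.Periodic.intervalIntegral_add_eq`) and adjacent intervals. -/
def Sf_ARC : Prop := ∀ (S : TriSys) (r : S.R) (x : ℂ), x ∈ rm S r → ∃ α β : ZMod 3 → ℝ,
  (∀ j, α j < β j ∧ β j < α j + Real.pi) ∧
  (∀ (j : ZMod 3) (ψ : ℝ), α j < ψ → ψ < β j → (Pl.home S r).Ex x (ev ψ) j) ∧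
  (∀ j, cx (ev (α j)) ((Pl.home S r).V (j + 1) - x) = 0 ∧ cx (ev (β j)) ((Pl.home S r).V (j + 2) - x) = 0) ∧
  ∀ φ : ℝ → ℝ, (∀ ψ, φ (ψ + 2 * Real.pi) = φ ψ) → (∀ j, IntervalIntegrable φ volume (α j) (β j)) →
    (∀ a b, IntervalIntegrable φ volume a b) ∧
    ∫ ψ in (0 : ℝ)..(2 * Real.pi), φ ψ = ∑ j, ∫ ψ in (α j)..(β j), φ ψ

/-- INT. The directions that run through a given word form an interval.
Proof. (a) `{ψ ∈ (α, β) | 0 < cx (ev ψ) w}` is order connected: for `ψ₁ < ψ < ψ₂` in it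
`sin (ψ₂ - ψ₁) cx (ev ψ) w = sin (ψ₂ - ψ) cx (ev ψ₁) w + sin (ψ - ψ₁) cx (ev ψ₂) w`, `0 < ψ₂ - ψ₁ < π`. `Run` is a
finite conjunction of such conditions (with `w` and `-w`), so (induction on the word, general placed room) the
set `Z` is order connected; it is open (continuity) and bounded: `Z = Ioo a b` (`a = b = α` if it is empty).
(b) Let `Z` be not empty. At `a`: if `a = α` use the hypothesis. Otherwise `a ∈ (α, β)` is in the closure of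
`Z` and not in `Z`, so `Run` fails at `a`. Claim (induction on the word, general placed room `q`): if `a` is in the
closure of `{ψ | Run q x (ev ψ) (js ++ [j])}` and `Run q x (ev a) (js ++ [j])` is false then there is `p ∈ vl q js`
with `cx (ev a) (p - x) = 0` (the conditions of the first edge hold with `≥, ≤` at `a`; if they are strict, go to
the next room). (c) `p ∈ vl` with `cx (ev a) (p - x) = 0` gives `ee js a = 0` (CLV). Same at `b`. -/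
def Sf_INT : Prop := ∀ (S : TriSys) (r : S.R) (x : ℂ) (js : List (ZMod 3)) (j : ZMod 3) (α β : ℝ),
  α < β → β ≤ α + Real.pi → ee S r x js α = 0 → ee S r x js β = 0 →
  ∃ a b, α ≤ a ∧ a ≤ b ∧ b ≤ β ∧
    {ψ | α < ψ ∧ ψ < β ∧ Run (Pl.home S r) x (ev ψ) (js ++ [j])} = Ioo a b ∧
    (a < b → ee S r x js a = 0 ∧ ee S r x js b = 0)

/-- NHC. From an interior point all but countably many directions hit no vertex. Proof. If `NH` fails for
`ev ψ` there are `js`, `i` with `Run` and `cx (ev ψ) (p - x) = 0`, `p = (endP js).V i`. Claim: `p ≠ x`. If `js = []`: `x` is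
interior, so it is not a vertex. Otherwise let `k` be the entering index of the last room (ENT): `En` holds, so
`i = k` (the other two vertices have strict signs), and TIM (9) gives `p = x + s v` with `s > ct > 0` (CTS (4)).
For fixed `p ≠ x` the set `{ψ | cx (ev ψ) (p - x) = 0}` is countable (`sin (ψ - θ) = 0`), and there are countably
many pairs `(js, i)`. -/
def Sf_NHC : Prop := ∀ (S : TriSys) (r : S.R) (x : ℂ), x ∈ rm S r → {ψ : ℝ | ¬ NH S r x (ev ψ)}.Countable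

/-- WDP. The word of a ray. (1) A run of length `n` is `wd n` (induction from the right, EXU (1),(8); no
hypothesis on `v`). Under `NH`: (2) `Run (wd n)`, length `n` (an exit exists: EXU (7) in the first room, EXU (4)
with ENT in the others). (3) The entering times increase (TIM (4), (1), (7)). (4) `PW` between two of them: `N` is
between the entering and the exit time of the room `endP (wd n)` (TIM (5), (6) and (1)). -/
def Sf_WDP : Prop := ∀ (S : TriSys) (r : S.R) (x v : ℂ), x ∈ rm S r →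
  (∀ js, Run (Pl.home S r) x v js → wd S r x v js.length = js) ∧
  (NH S r x v → ∀ n, Run (Pl.home S r) x v (wd S r x v n) ∧ (wd S r x v n).length = n ∧
    (∃ j, wd S r x v (n + 1) = wd S r x v n ++ [j]) ∧
    tm S r x v (wd S r x v n) < tm S r x v (wd S r x v (n + 1)) ∧
    (∀ N, tm S r x v (wd S r x v n) < N → N < tm S r x v (wd S r x v (n + 1)) →
      PW S r x v N (wd S r x v n)) ∧
    (∀ N, 0 ≤ N → N < tm S r x v (wd S r x v 1) → PW S r x v N (wd S r x v 0)))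

/-- TMB. The number of crossed edges is linear in the time. Proof: LEN with `T₁ = 0`, `T₂ = tm (wd n)`, ENT
and CTS (4) (for `n = 0` nothing to prove). -/
def Sf_TMB : Prop := ∀ (S : TriSys), ∃ C : ℝ, 1 ≤ C ∧ ∀ (r : S.R) (x v : ℂ) (n : ℕ), x ∈ rm S r → ‖v‖ = 1 →
  NH S r x v → (n : ℝ) ≤ C * (1 + tm S r x v (wd S r x v n))

/-- FSUM. Summation over the words of length `n + 1`.
Proof. Take `α, β` from ARC; `φ ψ = Φ (wd (n+1)) ψ` is `2 π`-periodic (`ev` is). By ARC it is enough to compare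
on `(α j, β j)`. For a list `js` of length `n + 1`, `js = js' ++ [k]`, let `Z js = {ψ ∈ (α j, β j) | Run js}`, `= Ioo a b` by
INT (`ee js' (α j) = 0` because `V (j+1)` is in `vl`, CLV). The `Z js` are disjoint (WDP (1)), finitely many, and
cover all `ψ` in `(α j, β j)` with `NH`, so almost all (NHC, WDP (2)). On `Z js` `wd (n+1) = js` (WDP (1)), so
`∫_{(α j, β j)} φ = ∑_js ∫_{Z js} Φ js`; compare term by term (`b < a + π` because `Z js ⊆ (α j, β j)`). -/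
def Sf_FSUM : Prop := ∀ (S : TriSys) (r : S.R) (x : ℂ), x ∈ rm S r → ∀ (n : ℕ)
  (Φ₁ Φ₂ : List (ZMod 3) → ℝ → ℝ),
  (∀ js ψ, Φ₁ js (ψ + 2 * Real.pi) = Φ₁ js ψ) → (∀ js ψ, Φ₂ js (ψ + 2 * Real.pi) = Φ₂ js ψ) →
  (∀ (js : List (ZMod 3)) (j : ZMod 3) (α β : ℝ), js.length = n → α < β → β < α + Real.pi →
    (∀ ψ, α < ψ → ψ < β → Run (Pl.home S r) x (ev ψ) (js ++ [j])) →
    ee S r x js α = 0 → ee S r x js β = 0 →
    IntervalIntegrable (Φ₁ (js ++ [j])) volume α β ∧ IntervalIntegrable (Φ₂ (js ++ [j])) volume α β ∧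
    ∫ ψ in α..β, Φ₁ (js ++ [j]) ψ ≤ ∫ ψ in α..β, Φ₂ (js ++ [j]) ψ) →
  IntervalIntegrable (fun ψ => Φ₁ (wd S r x (ev ψ) (n + 1)) ψ) volume 0 (2 * Real.pi) ∧
  IntervalIntegrable (fun ψ => Φ₂ (wd S r x (ev ψ) (n + 1)) ψ) volume 0 (2 * Real.pi) ∧
  ∫ ψ in (0 : ℝ)..(2 * Real.pi), Φ₁ (wd S r x (ev ψ) (n + 1)) ψ ≤
    ∫ ψ in (0 : ℝ)..(2 * Real.pi), Φ₂ (wd S r x (ev ψ) (n + 1)) ψ

/-- FNI. Integrability and periodicity of the functions of a node. Proof: `ee` is Lipschitz and periodic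
(LIP), `bb` is the absolute value of the derivative of a function that is Lipschitz on bounded intervals, so
bounded (by the Lipschitz constant) on them and measurable (`measurable_deriv`); `om` and `tm` are continuous
on the closed arc (OML); the indicator is measurable because `tm` is a quotient of continuous functions of `ψ`. -/
def Sf_FNI : Prop := ∀ (S : TriSys) (D₀ : ℝ), Dia S D₀ → ∀ (r : S.R) (x : ℂ), x ∈ rm S r →
  ∀ (js : List (ZMod 3)) (M : ℝ), 0 ≤ M →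
  (∀ ψ, LL S r x M js (ψ + 2 * Real.pi) = LL S r x M js ψ) ∧
  (∀ ψ, RR S r x D₀ M js (ψ + 2 * Real.pi) = RR S r x D₀ M js ψ) ∧
  (∀ a b, IntervalIntegrable (bb S r x js) volume a b) ∧
  ∀ (j : ZMod 3) (α β : ℝ), α < β →
    (∀ ψ, α < ψ → ψ < β → Run (Pl.home S r) x (ev ψ) (js ++ [j])) →
    IntervalIntegrable (LL S r x M (js ++ [j])) volume α β ∧
    IntervalIntegrable (RR S r x D₀ M (js ++ [j])) volume α β

/-- BB0. First room. Proof: `ee [] s = min` of the three `|cx (ev s) (V i - x)|`, `‖V i - x‖ ≤ D₀`, so `ee []` is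
Lipschitz with constant `D₀` and `≤ D₀`, so `ee² / 2` is Lipschitz with constant `D₀²`
(`norm_deriv_le_of_lip'` or similar). -/
def Sf_BB0 : Prop := ∀ (S : TriSys) (D₀ : ℝ), Dia S D₀ → ∀ (r : S.R) (x : ℂ), x ∈ rm S r →
  ∀ ψ, bb S r x [] ψ ≤ D₀ ^ 2

/-- STP. Step functions. Proof. On `(T n, T (n+1))` the integrand is `e n` resp. `(M - 2 s) e n`; split `[0, M]` at the
points `min (T n) M`. (1) lengths. (2) with `u n = T n * max 0 (M - T n)` the integral over the part is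
`e n * (u (n+1) - u n)` (antiderivative `s (M - s)`), `u 0 = u K = 0`; Abel summation. (3) `N` = number of indices with
`T (n+1) ≤ M`: `∑_{n<N} T (n+1) (e n - e (n+1)) = ∑_{n<N} e n (T (n+1) - T n) - T N e N ≤ ∫ D` up to `T N ≤ M`.
(4) `max 0 (M - T) ≤ M`, telescoping. -/
def Sf_STP : Prop := ∀ (T e : ℕ → ℝ) (D : ℝ → ℝ) (K : ℕ) (M : ℝ), 0 ≤ M → T 0 = 0 →
  (∀ n, T n < T (n + 1)) → (∀ n s, T n < s → s < T (n + 1) → D s = e n) → M ≤ T K →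
  ∫ s in (0 : ℝ)..M, D s = ∑ n ∈ Finset.range K, e n * (max 0 (M - T n) - max 0 (M - T (n + 1))) ∧
  ∫ s in (0 : ℝ)..M, (M - 2 * s) * D s =
    ∑ n ∈ Finset.range K, T (n + 1) * max 0 (M - T (n + 1)) * (e n - e (n + 1)) ∧
  (Antitone e → (∀ n, 0 ≤ e n) →
    ∑ n ∈ Finset.range K, (if T (n + 1) ≤ M then T (n + 1) * (e n - e (n + 1)) else 0) ≤
      ∫ s in (0 : ℝ)..M, D s) ∧
  (Antitone e → (∀ n, 0 ≤ e n) →
    ∑ n ∈ Finset.range K, max 0 (M - T (n + 1)) * (e n - e (n + 1)) ≤ M * e 0)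

/-- PTW. The sum of the right hand sides at a good direction. Proof. `T n = tm (wd n)`, `e n = ee (wd n)`
(antitone by CLS, `≥ 0`, `e 0 ≤ D₀`), `DD = e n` on `(T n, T (n+1))` (WDP (4), UNI). At a far node
`ρ ≤ T (n+1) + D₀`; so the first term is at most `(T (n+1) + D₀) (e n - e (n+1)) (M - T (n+1))_+`, sum
`≤ ∫ (M - 2 s) DD + D₀ M D₀` (STP (2), (4)); the second is at most
`9 D₀ (T (n+1) + D₀) (e n - e (n+1)) 1[T (n+1) ≤ M + D₀]`, sum `≤ 9 D₀ (∫_0^(M+D₀) DD + D₀ D₀)` (STP (3) for `M + D₀`,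
telescoping). Nodes that are not far have `T (n+1) ≤ 5 D₀` (FAR), so `n + 1 ≤ C (1 + 5 D₀)` (TMB). `STP` is applied
with some `K' ≥ K`, `T K' ≥ M + D₀` (TMB); the omitted terms of the far sums are `≥ 0`. -/
def Sf_PTW : Prop := ∀ (S : TriSys) (D₀ : ℝ), Dia S D₀ → ∃ C : ℝ, 0 ≤ C ∧
  ∀ (r : S.R) (x : ℂ) (ψ M : ℝ) (K : ℕ), x ∈ rm S r → NH S r x (ev ψ) → 0 ≤ M →
  ∑ n ∈ Finset.range K, RR S r x D₀ M (wd S r x (ev ψ) (n + 1)) ψ ≤
    (∫ s in (0 : ℝ)..M, (M - 2 * s) * DD S r x (ev ψ) s) +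
    C * (∫ s in (0 : ℝ)..(M + D₀), DD S r x (ev ψ) s) + C * (M + 1)

/-- PTL. The left hand side at a good direction. Proof. `T n = tm (wd n)`, `a n = clr * av` of `wd n`; `SS = a n` on
`(T n, T (n+1))` (WDP (4), UNI). STP (1) with `K` such that `T K ≥ M`:
`∫ SS = ∑_{n<K} a n ((M - T n)_+ - (M - T (n+1))_+) ≤ ∑_{n<K} b n (...)`, `b n = bb (wd n) ≥ a n` (DER; the bracket is
`≥ 0`) `= b 0 M + ∑_{1≤n<K} (b n - b (n-1)) (M - T n)_+ - b (K-1) (M - T K)_+` (Abel), and the last term is `0`.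
`LL (wd (n+1)) = (b (n+1) - b n) (M - T (n+1))_+` (`dropLast`), the term `n + 1 = K` is `0`. -/
def Sf_PTL : Prop := ∀ (S : TriSys) (r : S.R) (x : ℂ) (ψ M : ℝ) (K : ℕ), x ∈ rm S r → NH S r x (ev ψ) →
  0 ≤ M → M ≤ tm S r x (ev ψ) (wd S r x (ev ψ) K) →
  (∀ n, DifferentiableAt ℝ (fun s => ee S r x (wd S r x (ev ψ) n) s ^ 2 / 2) ψ) →
  ∫ N in (0 : ℝ)..M, SS S r x (ev ψ) N ≤
    M * bb S r x [] ψ + ∑ n ∈ Finset.range K, LL S r x M (wd S r x (ev ψ) (n + 1)) ψ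

/-- FANF. The fan inequality, integrated over the angle. `hM`: joint measurability and boundedness of `DD`
and `SS` are the statements `Sm_MEA`, `Sm_BND` of StM.lean (use them as hypotheses of the module).
Proof. `D₀` from DIA. `T (wd K) ≥ M` for `K = ⌈C (1 + M)⌉₊ + 1`, for all good directions (TMB). For a.e. `ψ`: `NH`
(NHC) and all `ee js ^ 2 / 2` are differentiable at `ψ` (countably many `js`, LIP, Rademacher or
`AbsolutelyContinuousOnInterval.ae_differentiableAt`). Integrate PTL over `ψ ∈ [0, 2π]`, bound the first term by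
`2 π M D₀²` (BB0) and each `∫ LL (wd (n+1))` by `∫ RR (wd (n+1))` (FSUM with `Φ₁ = LL`, `Φ₂ = RR`, NODE, FNI), then
PTW. Choose the final constant `≥ D₀` and larger than all others (`DD ≥ 0`, so `∫_0^(M+D₀) ≤ ∫_0^(M+C)`). -/
def Sf_FANF : Prop := ∀ (S : TriSys), ∃ C : ℝ, 1 ≤ C ∧ ∀ (r : S.R) (x : ℂ), x ∈ rm S r → ∀ M : ℝ, 0 ≤ M →
  ∫ ψ in (0 : ℝ)..(2 * Real.pi), (∫ N in (0 : ℝ)..M, SS S r x (ev ψ) N) ≤
    (∫ ψ in (0 : ℝ)..(2 * Real.pi), ((∫ s in (0 : ℝ)..M, (M - 2 * s) * DD S r x (ev ψ) s) +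
      C * (∫ s in (0 : ℝ)..(M + C), DD S r x (ev ψ) s))) + C * (M + 1)

end Pool.Agent.FAN
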