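import Pool.Agent.FAN.StF

/-!
# FAN, block 2: measure theory of the unit tangent bundle (helper17). Statements with complete proofs.

Write `theorem g_X : Sm_X` in `Pool/Agent/FAN/M_X.lean`, namespace `Pool.Agent.FAN`. A statement may use
other statements (of StA.lean, StF.lean and of this file) as hypotheses (`theorem g_X (h : Sa_Y) : Sm_X`).
-/

set_option autoImplicit false

open scoped ComplexConjugate
open MeasureTheory Set

namespace Pool.Agent.FAN

/-- OPN. Openness. Proof: `endP`, `eI` do not depend on `x, v`, so `Run` is a finite conjunction of strict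
inequalities between continuous functions (induction on `js`), and so is `In`. `rm S r` is the case `PW` with
`N = 0`, empty word, or directly; it is bounded: all its points have distance `≤ D₀` from a vertex
(`Sa_DIA`). -/
def Sm_OPN : Prop := ∀ (S : TriSys) (r : S.R),
  (∀ js, IsOpen {p : ℂ × ℂ × ℝ | PW S r p.1 p.2.1 p.2.2 js}) ∧ IsOpen (rm S r) ∧
  MeasurableSet (rm S r) ∧ volume (rm S r) < ⊤

/-- MEA. Measurability of `DD` and `SS`. Proof: the sets `Z js = {PW .. js}` are open (OPN), pairwise disjoint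
(UNI), countably many; on `Z js` `DD = clr js` (continuous, LIP) and `SS = clr js * av js` (UNI), `av js` is a
quotient of finite sums of terms `if |cx v (p - x)| = clr js x v then .. else 0` with continuous entries, so
measurable (the condition defines a closed set); outside of all `Z js` both are `0`. -/
def Sm_MEA : Prop := ∀ (S : TriSys) (r : S.R),
  Measurable (fun p : ℂ × ℂ × ℝ => DD S r p.1 p.2.1 p.2.2) ∧
  Measurable (fun p : ℂ × ℂ × ℝ => SS S r p.1 p.2.1 p.2.2)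

/-- BND. Bounds. Proof. If there is no word both are `0`. Otherwise `DD = clr js` (UNI) `≤ |cx v (V 0 - x)| ≤ D₀`
(CLV, `x` interior). Every `p ∈ vl js` is a vertex of a visited room; this room is the first one (take `τ = 0`)
or is entered at a crossing time `τ ∈ (0, N)` (CTS (3), (4)), and `‖p - (x + τ v)‖ ≤ D₀`; so
`|dt v (p - x) - τ| ≤ D₀` and `- D₀ ≤ dt v (p - x) ≤ N + D₀` (induction on `js` for a general placed room `q`: if
`Run q x v js` and `p ∈ vl q js` then `p = q.V i` or there is `t ∈ cts q x v js` with `‖x + t v - p‖ ≤ D₀`). The average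
foot has the same bounds (average over at least one point, CLV). -/
def Sm_BND : Prop := ∀ (S : TriSys) (D₀ : ℝ), Dia S D₀ → ∀ (r : S.R) (x v : ℂ) (N : ℝ), ‖v‖ = 1 → 0 ≤ N →
  0 ≤ DD S r x v N ∧ DD S r x v N ≤ D₀ ∧ |SS S r x v N| ≤ D₀ * (N + D₀) ∧
  0 ≤ SS S r x v N + D₀ * DD S r x v N

/-- EXI. For fixed `x`, `N` all but countably many directions have a word. Proof. `N = 0`: the empty word.
`N > 0`: by NHC let `NH` hold. The times `T n = tm (wd n)` increase (WDP) and are unbounded (TMB), `T 0 = 0`; let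
`T n ≤ N < T (n+1)`. If `n = 0` or `T n < N` there is a word (WDP). Otherwise `n ≥ 1`, `T n = N`: the point
`x + N ev ψ` lies on the line through the entering edge `L R` of the room `endP (wd n)`, i.e. `ψ` is in
`{ψ | cx (R - L) (x + N * ev ψ - L) = 0}`, a countable set because `N ≠ 0`, `R ≠ L` (`N ‖R - L‖ cos (ψ - φ) = c` has
countably many solutions); there are countably many words. -/
def Sm_EXI : Prop := ∀ (S : TriSys) (r : S.R) (x : ℂ) (N : ℝ), x ∈ rm S r → 0 ≤ N →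
  {ψ : ℝ | ¬ ∃ js, PW S r x (ev ψ) N js}.Countable

/-- MON. Monotonicity. Proof. EXU (6): one word is a prefix of the other. If `js = js' ++ k :: rest`: the crossing
time `t` of the edge `k` is `< N` (CTS (3)) and `N' < t` (TIM (2) at `endP js'`), contradiction to `N ≤ N'`. So `js`
is a prefix of `js'`; `clr` decreases when the word is prolonged (CLS); UNI. -/
def Sm_MON : Prop := ∀ (S : TriSys) (r : S.R) (x v : ℂ) (N N' : ℝ) (js js' : List (ZMod 3)), N ≤ N' →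
  PW S r x v N js → PW S r x v N' js' → js <+: js' ∧ DD S r x v N' ≤ DD S r x v N

/-- TON. Tonelli / Fubini on `rm S r × [0, 2π] × [0, M]` (finite measure by OPN, bounded measurable
function). Proof: `MeasureTheory.integral_integral_swap` / `intervalIntegral_integral_swap` twice. -/
def Sm_TON : Prop := ∀ (S : TriSys) (G : S.R → ℂ → ℝ → ℝ → ℝ) (M B : ℝ), 0 ≤ M →
  (∀ r, Measurable (fun p : ℂ × ℝ × ℝ => G r p.1 p.2.1 p.2.2)) →
  (∀ r x ψ N, 0 ≤ N → N ≤ M → |G r x ψ N| ≤ B) →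
  (∀ r, IntegrableOn (fun x => ∫ ψ in (0 : ℝ)..(2 * Real.pi), ∫ N in (0 : ℝ)..M, G r x ψ N) (rm S r)) ∧
  (∀ r x, IntervalIntegrable (fun ψ => ∫ N in (0 : ℝ)..M, G r x ψ N) volume 0 (2 * Real.pi)) ∧
  ∫ N in (0 : ℝ)..M, EE S (fun r x ψ => G r x ψ N) =
    ∑ r, ∫ x in rm S r, ∫ ψ in (0 : ℝ)..(2 * Real.pi), ∫ N in (0 : ℝ)..M, G r x ψ N

/-- TO1. The same without the window. -/
def Sm_TO1 : Prop := ∀ (S : TriSys) (G : S.R → ℂ → ℝ → ℝ) (B : ℝ),
  (∀ r, Measurable (fun p : ℂ × ℝ => G r p.1 p.2)) → (∀ r x ψ, |G r x ψ| ≤ B) →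
  (∀ r, IntegrableOn (fun x => ∫ ψ in (0 : ℝ)..(2 * Real.pi), G r x ψ) (rm S r)) ∧
  (∀ r x, IntervalIntegrable (fun ψ => G r x ψ) volume 0 (2 * Real.pi)) ∧
  EE S G = ∑ r, ∫ x in rm S r, ∫ ψ in (0 : ℝ)..(2 * Real.pi), G r x ψ

/-- PHA. `Phi` is nonnegative, bounded and decreasing. Proof. TO1 with `G = DD S r x (ev ψ) N` (MEA, BND; replace
`DD` by `0` for `x` outside if convenient: `DD = 0` there because `PW` needs `x` interior). For each `x ∈ rm S r` and
all but countably many `ψ` there are words for `N` and for `N'` (EXI), so `DD N' ≤ DD N` (MON). -/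
def Sm_PHA : Prop := ∀ (S : TriSys),
  (∀ N, 0 ≤ N → 0 ≤ Phi S N) ∧ (∃ B, ∀ N, 0 ≤ N → Phi S N ≤ B) ∧ AntitoneOn (Phi S) (Ici 0)

/-- SIG. Reversal is an involution on pairs (room, word). Proof. REV (2), (3): with `q = endP (home r) js`,
`js' = rev (home r) js`: `endP q js' = home r`, `rev q js' = js`. Apply the motion `z ↦ (z - q.b) / q.a` (MOV), which
maps `q` to `home q.r` and `home r` to `(r, a⁻¹, - b / a)`. -/
def Sm_SIG : Prop := ∀ (S : TriSys) (r : S.R) (js : List (ZMod 3)) (q : Pl S), q = endP (Pl.home S r) js →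
  endP (Pl.home S q.r) (rev (Pl.home S r) js) =
    ⟨r, q.a⁻¹, -q.b / q.a, by rw [norm_inv, q.ha, inv_one]⟩ ∧
  rev (Pl.home S q.r) (rev (Pl.home S r) js) = js

/-- SH1. Change of variables for one word. Proof. Let `js' = rev (home r) js`. For fixed `ψ`, `v = ev ψ`, the map
`x ↦ x' = (x + N v - b) / a` is a measure preserving bijection of `ℂ` (translation and multiplication with a
number of modulus 1: linear isometry equivalence), with inverse `x = a x' + b - N v`. By PWR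
`PW S r x v N js → PW S q.r x' (-v/a) N js'`; conversely PWR for `(q.r, x', -v/a, js')` with SIG gives
`PW S r x v N js` back (the point `(x' + N (-v/a) + b/a) / a⁻¹ = x`, the direction `- (-v/a) / a⁻¹ = v`, the word
`rev (rev js) = js`). So the inner integral is `K (-v/a)`, `K u = ∫⁻ x' in {PW S q.r x' u N js'}, G x' u`. With
`a = ev φ`: `- ev ψ / a = ev (ψ + π - φ)`. `ψ ↦ K (ev ψ)` is `2π`-periodic, and the integral of a periodic function over
`Ioc 0 (2π)` is invariant under translation (translation of Lebesgue measure, then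
`IsAddFundamentalDomain.setLIntegral_eq` with `isAddFundamentalDomain_Ioc`). -/
def Sm_SH1 : Prop := ∀ (S : TriSys) (N : ℝ) (r : S.R) (js : List (ZMod 3)) (q : Pl S)
  (G : ℂ → ℂ → ENNReal), q = endP (Pl.home S r) js → Measurable (fun p : ℂ × ℂ => G p.1 p.2) →
  ∫⁻ ψ in Ioc (0 : ℝ) (2 * Real.pi), ∫⁻ x in {x | PW S r x (ev ψ) N js},
      G ((x + N * ev ψ - q.b) / q.a) (-ev ψ / q.a) =
    ∫⁻ ψ in Ioc (0 : ℝ) (2 * Real.pi), ∫⁻ x in {x | PW S q.r x (ev ψ) N (rev (Pl.home S r) js)},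
      G x (ev ψ)

/-- SHF. Invariance of the measure under reversal. Proof. For fixed `ψ` the sets `{x | PW S r x (ev ψ) N js}` are
open (OPN), disjoint (UNI), contained in `rm S r`, and `H`, `G` vanish on the rest of `rm S r`; so
`∫⁻ x in rm S r, H = ∑' js, ∫⁻ x in {PW js}, H`, then `lintegral_tsum` over `ψ` (joint measurability: on the
open set `{(ψ, x) | PW S r x (ev ψ) N js}` the function `H` equals `G` composed with a continuous map). So the left
side is `∑ r, ∑' js, A r js`, the right side `∑ r, ∑' js, B r js`, and SH1 says `A r js = B (q.r) (rev js)`,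
`q = endP (home r) js`. `(r, js) ↦ (q.r, rev (home r) js)` is an involution (SIG), so the sums over all pairs
(`ENNReal.tsum`, countable) agree. -/
def Sm_SHF : Prop := ∀ (S : TriSys) (N : ℝ) (G H : S.R → ℂ → ℂ → ENNReal),
  (∀ r, Measurable (fun p : ℂ × ℂ => G r p.1 p.2)) →
  (∀ (r : S.R) (x v : ℂ) (js : List (ZMod 3)) (q : Pl S), ‖v‖ = 1 → PW S r x v N js →
    q = endP (Pl.home S r) js → H r x v = G q.r ((x + N * v - q.b) / q.a) (-v / q.a)) →
  (∀ (r : S.R) (x v : ℂ), ‖v‖ = 1 → (¬ ∃ js, PW S r x v N js) → H r x v = 0 ∧ G r x v = 0) →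
  ∑ r, ∫⁻ ψ in Ioc (0 : ℝ) (2 * Real.pi), ∫⁻ x in rm S r, H r x (ev ψ) =
    ∑ r, ∫⁻ ψ in Ioc (0 : ℝ) (2 * Real.pi), ∫⁻ x in rm S r, G r x (ev ψ)

/-- SYM. Symmetry under reversal. Proof. `D₀` from DIA. SHF with
`G r x v = ENNReal.ofReal (SS S r x v N + D₀ * DD S r x v N)`,
`H r x v = ENNReal.ofReal ((N + D₀) * DD S r x v N - SS S r x v N)`: PWR gives `SS (rev) = N DD - SS`, `DD (rev) = DD`;
without a word both are `0`. Both real functions are `≥ 0` (BND, and `H` at a point is `G` at the reversed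
point), bounded and measurable (MEA), so the real integrals agree:
`EE SS + D₀ EE DD = (N + D₀) EE DD - EE SS`. -/
def Sm_SYM : Prop := ∀ (S : TriSys) (N : ℝ), 0 ≤ N →
  EE S (fun r x ψ => SS S r x (ev ψ) N) = N / 2 * Phi S N

/-- EDI. The integrated fan inequality. Proof. Sum FANF over `r` and integrate over `x ∈ rm S r`. Left side: TON
with `G = SS` (MEA, BND) and SYM: `∫_0^M EE (SS N) dN = ∫_0^M N / 2 * Phi S N`. Right side: TON with
`G r x ψ s = (M - 2 s) * DD s` and with `G = DD` on `[0, M + C]`; the constant term gives `C (M+1) ∑ volume (rm S r)`;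
enlarge the constant (`Phi ≥ 0`). -/
def Sm_EDI : Prop := ∀ (S : TriSys), ∃ C : ℝ, 1 ≤ C ∧ ∀ M : ℝ, 0 ≤ M →
  ∫ N in (0 : ℝ)..M, N / 2 * Phi S N ≤
    (∫ s in (0 : ℝ)..M, (M - 2 * s) * Phi S s) + C * (∫ s in (0 : ℝ)..(M + C), Phi S s) + C * (M + 1)

/-- GRO. Pure calculus. Proof. `I M = ∫_0^M Φ` (continuous, even Lipschitz), `Y M = ∫_0^M I`, `Y' = I`.
`∫_0^M s Φ = M I - Y` (integration by parts, or Fubini), `∫_0^M (M - 2 s) Φ = 2 Y - M I`, `I (M + C) ≤ I M + C B`. So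
`(M - c) I ≤ 5/3 Y + C₁ (M + 1)` with `c = 2 C / 3`; for `M ≥ M₁ = c + 1`: `I ≤ 5/3 Y / (M - c) + C₂`. Then
`Z M = Y M (M - c)^(-5/3) + 3/2 C₂ (M - c)^(-2/3)` has `Z' ≤ 0` on `[M₁, ∞)`, so `Y M ≤ Z M₁ (M - c)^(5/3) ≤ C₃ M^(5/3)`.
`Φ` is antitone: `Y M = ∫_0^M (M - s) Φ s ≥ M²/2 Φ M`, so `Φ M ≤ 2 C₃ M^(-1/3)` for `M ≥ M₁`; for `1 ≤ M ≤ M₁` use
`Φ ≤ B`. -/
def Sm_GRO : Prop := ∀ (Φ : ℝ → ℝ) (B C : ℝ), AntitoneOn Φ (Ici 0) → (∀ s, 0 ≤ s → 0 ≤ Φ s ∧ Φ s ≤ B) → 1 ≤ C →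
  (∀ M : ℝ, 0 ≤ M → ∫ N in (0 : ℝ)..M, N / 2 * Φ N ≤
    (∫ s in (0 : ℝ)..M, (M - 2 * s) * Φ s) + C * (∫ s in (0 : ℝ)..(M + C), Φ s) + C * (M + 1)) →
  ∃ C' : ℝ, 0 < C' ∧ ∀ N : ℝ, 1 ≤ N → Φ N ≤ C' * N ^ (-(1 / 3) : ℝ)

/-- EDN. The expected clearance decays. Proof: EDI, PHA, GRO. -/
def Sm_EDN : Prop := ∀ (S : TriSys), ∃ C : ℝ, 0 < C ∧ ∀ N : ℝ, 1 ≤ N → Phi S N ≤ C * N ^ (-(1 / 3) : ℝ)

/-- LOW (block 5, packing; blueprint note 2720). -/
def Sx_LOW : Prop := ∀ (S : TriSys) (r₀ : S.R) (i₀ : ZMod 3), ∃ c : ℝ, 0 < c ∧ ∃ n₀ : ℝ, ∀ n : ℝ, n₀ ≤ n →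
  c * n ^ 2 ≤ (((GG S r₀ i₀ (2 * n)).ncard : ℝ) + 1) ^ 2 * Phi S (n / 4)

/-- GGB. Lower bound for the number of generalized diagonals. Proof. LOW and EDN:
`c n² ≤ (G (2n) + 1)² C (n/4)^(-1/3)`, so `G (2n) + 1 ≥ c' n^(7/6)` for `n ≥ max n₀ 4`. -/
def Sx_GGB : Prop := ∀ (S : TriSys) (r₀ : S.R) (i₀ : ZMod 3), ∃ c : ℝ, 0 < c ∧ ∃ n₀ : ℝ, ∀ L : ℝ, n₀ ≤ L →
  c * L ^ (7 / 6 : ℝ) ≤ ((GG S r₀ i₀ L).ncard : ℝ)

end Pool.Agent.FAN
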