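import Pool.Agent.FAN.PDefs

/-!
# FAN, block 6: from polygons to triangulated surfaces. Statements with complete proofs (helper63).

Write `theorem p_X : Sp_X` in `Pool/Agent/FAN/P_X.lean`, namespace `Pool.Agent.FAN` (imports: this file and what
you need). A statement may use other statements of `StP` or `StA` as hypotheses
(`theorem p_X (h : Sp_Y) (h' : Sa_GLU) : Sp_X`), say which ones. Definitions: `PDefs.lean`. Geometry of polygons:
`Pool/Agent/Lib_helper45/Bil/{Geom, Step, Corner, Words, Beam, Arrive, Diag, Length, Final}.lean`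
(`U P` interior, `Gam P` frontier, `rel P i` open side `i`, `refl`, `lrefl`, `Vis`, `Corner`, `Corner.GD`, `dev`).
Notation in the proofs: `v i = P.vertex i`, `w = v m`, `D_j = v j - v m`, and `cx p q > 0` iff `q` is to the left of
`p`. Identity used often: for all `a b c : ℂ`, `cx a c • b = cx b c • a + cx a b • c`
(`cx` is bilinear, alternating).
-/

set_option autoImplicit false

open scoped ComplexConjugate
open MeasureTheory Set Metric
open Pool.Agent.Billiard Pool.Agent.Lib_helper45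

namespace Pool.Agent.FAN

/-! ## Part I: triangulation -/

/-- NET. A maximal set of pairwise non crossing diagonals exists.
Proof. `ZMod P.k` is finite (`3 ≤ P.k`). Among all Finsets `F` of ordered pairs with the properties `symm`,
`diag`, `disj` (the empty set is one) take one of maximal cardinality (bounded by the number of pairs).
`maxl`: if `(i, j)` satisfies the three conditions and is not in `F`, add `(i, j)` and `(j, i)`:
`osg P i j = osg P j i` (`openSegment_symm`); a new pair against an old pair is disjoint by hypothesis (so the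
premise of `disj` is false), new against new is the same unordered pair. The cardinality is larger,
contradiction. -/
def Sp_NET : Prop := ∀ P : Polygon, Nonempty (Net P)

/-- EDG. Facts on edges.
Proof. (1) `Bil.succ_ne`. (2) a diagonal lies in `U`, a vertex in `Gam` (`Bil.vertex_mem_Gam`,
`Bil.not_mem_U_of_Gam`); for sides `osg P i (i+1) = Bil.rel P i`, `Bil.vertex_not_mem_rel`. (3) `z ∈ sg P k l` is an
end point (impossible by (2)) or in `osg P k l` (`insert_endpoints_openSegment`); two diagonals: `N.disj`; diagonal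
and side: `U` against `Gam`; two sides: `Bil.rel_unique`. (4) finite union of compact segments;
`Bil.mem_Gam_iff`. (5) split the closed segment. (6) `v m ∈ sg P m (m+1)`. (7) for each pair `(i, j)` with
`z ∉ sg P i j` the closed segment has positive distance from `z`; finitely many pairs. -/
def Sp_EDG : Prop := ∀ (P : Polygon) (N : Net P),
  (∀ i j, N.E i j → i ≠ j ∧ N.E j i) ∧
  (∀ i j m, N.E i j → P.vertex m ∉ osg P i j) ∧
  (∀ i j k l z, N.E i j → N.E k l → z ∈ osg P i j → z ∈ sg P k l →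
    (k = i ∧ l = j) ∨ (k = j ∧ l = i)) ∧
  (IsClosed N.Sk ∧ Bil.Gam P ⊆ N.Sk ∧ IsOpen N.Om) ∧
  (∀ z ∈ N.Sk, (∃ m, z = P.vertex m) ∨ ∃ i j, N.E i j ∧ z ∈ osg P i j) ∧
  (∀ m, P.vertex m ∈ N.Sk) ∧
  (∀ z, ∃ ρ > 0, ∀ i j, N.E i j → (sg P i j ∩ ball z ρ).Nonempty → z ∈ sg P i j)

/-- DNS. The set `Om` is dense in the table. Proof. A segment has measure zero (it lies in a line, a proper
affine subspace: `MeasureTheory.Measure.addHaar_affineSubspace`; or: the complement of a line is dense), so the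
finite union `Sk` has measure zero, the nonempty open set `ball z ρ ∩ U` has positive measure. -/
def Sp_DNS : Prop := ∀ (P : Polygon) (N : Net P) (z : ℂ) (ρ : ℝ), z ∈ Bil.U P → 0 < ρ →
  ∃ y ∈ ball z ρ, y ∈ N.Om

/-- CMP. Components of `Om`. Proof (uses EDG (4)). `mem_connectedComponentIn`,
`connectedComponentIn_subset`, `IsOpen.connectedComponentIn` (ℂ is locally connected),
`isPreconnected_connectedComponentIn`. Last claim: `s` is preconnected, disjoint from `Gam ⊆ Sk` and meets `U`, so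
`s ⊆ U` (`Bil.subset_U`), so `s ⊆ Om`; then `IsPreconnected.subset_connectedComponentIn` with a common point
`x` and `connectedComponentIn_eq`. -/
def Sp_CMP : Prop := ∀ (P : Polygon) (N : Net P) (y : ℂ), y ∈ N.Om →
  y ∈ N.Kp y ∧ N.Kp y ⊆ N.Om ∧ IsOpen (N.Kp y) ∧ IsPreconnected (N.Kp y) ∧
  ∀ s : Set ℂ, IsPreconnected s → Disjoint s N.Sk → (s ∩ N.Kp y).Nonempty → s ⊆ N.Kp y

/-- LEX. The lexicographically largest point of the closure of a component `K` is a vertex.
Proof (uses EDG, CMP). `closure K` is compact (`K ⊆ U ⊆ region`, compact) and not empty. Let `w` maximize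
`re`, and among these points maximize `im`. Since `K` is open, `z ∈ K` implies `z + ε ∈ closure K`, so `z.re < w.re` for
all `z ∈ K`. `w ∈ Sk`: otherwise `w ∉ Gam`, `w ∈ closure U = region`, so `w ∈ U`, `w ∈ Om` open, a ball `B ⊆ Om` at `w`
meets `K`, so `B ⊆ K` by CMP, `w ∈ K`, contradiction with `w.re < w.re`. Suppose `w` is not a vertex: by EDG (5)
`w ∈ osg P i j`, `E i j`; by EDG (7), (3) there is a ball `B` at `w` in which `Sk` is contained in the segment
`sg P i j`, so in the line `{z | cx d (z - w) = 0}`, `d = v j - v i ≠ 0`. `w ∈ closure K` gives a point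
`z₀ ∈ K ∩ B`, `cx d (z₀ - w) ≠ 0`, say its sign is `s`. The half disc `{z ∈ B | 0 < s * cx d (z - w)}` is convex,
disjoint from `Sk`, meets `K`, so it lies in `K` (CMP). Its closure contains `w + ε d` and `w - ε d` for small `ε`
(approximate by `w ± ε d + δ s i d`): one of them is lexicographically larger than `w` (if `d.re ≠ 0` it
has larger `re`, if `d.re = 0` then `d.im ≠ 0`): contradiction. -/
def Sp_LEX : Prop := ∀ (P : Polygon) (N : Net P) (y : ℂ), y ∈ N.Om → ∃ m,
  P.vertex m ∈ closure (N.Kp y) ∧ (∀ z ∈ N.Kp y, z.re < (P.vertex m).re) ∧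
  (∀ z ∈ closure (N.Kp y), z.re ≤ (P.vertex m).re ∧
    (z.re = (P.vertex m).re → z.im ≤ (P.vertex m).im))

/-- CON. A cone at a vertex without edges in it, whose closure meets `K` near the vertex, lies in `K` near
the vertex. Proof (uses EDG, CMP). `C = {z ∈ ball w ρ | 0 < cx e (z - w) ∧ 0 < cx (z - w) f}` is convex. With
`z = w + α e + β f`: `cx e (z - w) = β cx e f`, `cx (z - w) f = α cx e f`, so the points of the conclusion are in
`C` and conversely. `C` is disjoint from `Sk`: let `z ∈ C ∩ sg P i j`, `E i j`. By `hρ`, `i = m` or `j = m`, say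
(symmetry) `i = m`: `z = w + t D_j`, `0 ≤ t ≤ 1`, `t ≠ 0` because `z ≠ w`; dividing by `t` the direction `D_j` is
strictly inside the cone, contradiction. `C` meets `K`: `z₀ + ε (e + f)` is in `K` (open) and in the ball for
small `ε > 0` and has positive coefficients. By CMP `C ⊆ K`. -/
def Sp_CON : Prop := ∀ (P : Polygon) (N : Net P) (y : ℂ) (m : ZMod P.k) (ρ : ℝ) (e f : ℂ) (α₀ β₀ : ℝ),
  y ∈ N.Om → 0 < ρ →
  (∀ i j, N.E i j → (sg P i j ∩ ball (P.vertex m) ρ).Nonempty → i = m ∨ j = m) →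
  0 < cx e f →
  (∀ j, N.E m j → ¬ (0 < cx e (P.vertex j - P.vertex m) ∧ 0 < cx (P.vertex j - P.vertex m) f)) →
  0 ≤ α₀ → 0 ≤ β₀ → P.vertex m + α₀ * e + β₀ * f ∈ N.Kp y →
  P.vertex m + α₀ * e + β₀ * f ∈ ball (P.vertex m) ρ →
  ∀ α β : ℝ, 0 < α → 0 < β → ‖α * e + β * f‖ < ρ → P.vertex m + α * e + β * f ∈ N.Kp y

/-- SEC. At the extreme vertex `w = v m` of the component `K` there is a free sector of angle `< π`.
Proof (uses EDG, CMP, CON). Choose `ρ > 0` by EDG (7) at `w`, smaller than `‖D_j‖` for all `j ≠ m`: if `E i j` and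
`sg P i j` meets `ball w ρ` then `w ∈ sg P i j`, not in `osg` (EDG (2)), so `w` is an end point, `m = i` or `m = j`. Let
`z₀ ∈ K ∩ ball w ρ`, `u = z₀ - w`; `u.re < 0`. Left: `L = {j | E m j ∧ 0 < cx u D_j}`.
(i) `L` is not empty: otherwise let `d = ⟨δ, -1⟩` with small `δ > 0`: `cx u d = -u.re - δ u.im > 0`. CON with
`(e, f) = (u, d)`, `α₀ = 1`, `β₀ = 0`: `w + α u + β d ∈ K` for small `α, β > 0`; take `β = s`,
`α = s δ / (2 |u.re|)`: the real part is `w.re + s δ / 2 > w.re`, contradiction.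
(ii) Let `p ∈ L` maximize `dt u D_j / cx u D_j`. By `‖u‖² cx D_j D_p = dt u D_j * cx u D_p - cx u D_j * dt u D_p` there
is no `j ∈ L` with `0 < cx D_j D_p`. CON with `(u, D_p)`: `w + α u + β D_p ∈ K` for small `α, β > 0`, so
`w + β D_p ∈ closure K`, so `D_p.re ≤ 0` (and `D_p.im ≤ 0` if `D_p.re = 0`).
Right: `R = {j | E m j ∧ cx u D_j < 0}`. (iii) not empty: `d = ⟨δ, 1⟩`, `cx d u = δ u.im - u.re > 0`, CON with `(d, u)`,
`α₀ = 0`, `β₀ = 1`, same contradiction. (iv) `q ∈ R` maximizing `dt u D_j / (- cx u D_j)`: no `j ∈ R` with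
`0 < cx D_q D_j`; CON with `(D_q, u)`: `D_q.re ≤ 0`, and `D_q.re = 0` would give `D_q.im ≤ 0`, but then
`cx u D_q = u.re * D_q.im ≥ 0`, contradiction; so `D_q.re < 0`.
(v) `0 < cx D_q D_p`: real part of the identity `cx D_q D_p • u = cx u D_p • D_q + cx D_q u • D_p`: the right side
is `< 0` (first term `< 0`, second `≤ 0`), and `u.re < 0`.
(vi) no edge direction `D_j` strictly inside the cone `(D_q, D_p)`: if `cx u D_j > 0` then `j ∈ L`, `0 < cx D_j D_p`,
contradiction; if `cx u D_j < 0` then `j ∈ R`, `0 < cx D_q D_j`, contradiction; if `cx u D_j = 0` then `D_j = l u`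
(`l` real), `0 < cx D_q D_j = l cx D_q u` and `cx D_q u > 0` give `l > 0`; `‖u‖ < ρ ≤ ‖D_j‖` gives `l > 1`, so
`z₀ = w + l⁻¹ D_j ∈ sg P m j ⊆ Sk`, contradiction with `K ⊆ Om`.
(vii) CON with `(D_q, D_p)`, `α₀ = cx u D_p / cx D_q D_p`, `β₀ = cx D_q u / cx D_q D_p` (point `z₀`).
Here `a = q`, `b = p`. -/
def Sp_SEC : Prop := ∀ (P : Polygon) (N : Net P) (y : ℂ) (m : ZMod P.k), y ∈ N.Om →
  P.vertex m ∈ closure (N.Kp y) → (∀ z ∈ N.Kp y, z.re < (P.vertex m).re) →
  (∀ z ∈ closure (N.Kp y), z.re ≤ (P.vertex m).re ∧ (z.re = (P.vertex m).re → z.im ≤ (P.vertex m).im)) →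
  ∃ a b : ZMod P.k, ∃ ρ > 0, N.E m a ∧ N.E m b ∧
    0 < cx (P.vertex a - P.vertex m) (P.vertex b - P.vertex m) ∧
    (∀ j, N.E m j → ¬ (0 < cx (P.vertex a - P.vertex m) (P.vertex j - P.vertex m) ∧
      0 < cx (P.vertex j - P.vertex m) (P.vertex b - P.vertex m))) ∧
    ∀ α β : ℝ, 0 < α → 0 < β →
      ‖α * (P.vertex a - P.vertex m) + β * (P.vertex b - P.vertex m)‖ < ρ →
      P.vertex m + α * (P.vertex a - P.vertex m) + β * (P.vertex b - P.vertex m) ∈ N.Kp y

/-- NVX. A corner piece `{α, β > 0, α + β < c}` (`c ≤ 1`) of a free sector that contains no vertex does not meet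
the edges. Proof (uses EDG). Coordinates `A z = cx (z - w) D_b / cx D_a D_b`, `B z = cx D_a (z - w) / cx D_a D_b`,
`z = w + A z D_a + B z D_b`; `A`, `B` are affine. Suppose `z ∈ Sk`, `A z, B z > 0`, `A z + B z < c`. By EDG (5)
`z = v n` (then `n ≠ m` because `A z > 0`, contradiction with the hypothesis) or `z ∈ osg P i j`, `E i j`. If
`m = i` (or `m = j`, symmetry): `z = w + t D_j`, `0 < t`, so `D_j` is strictly inside the sector: contradiction. Let
`m ≠ i, j`. `A + B` is affine and `< c` at `z`, a convex combination of `v i`, `v j`: so `< c` at one of them, say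
(symmetry) at `x = v i`. By hypothesis not both `A x ≥ 0` and `B x ≥ 0`. Along `z_s = z + s (x - z)`, `s ∈ [0, 1]`, we have
`A + B < c`; let `s₁ = A z / (A z - A x)` if `A x < 0`, `s₂ = B z / (B z - B x)` if `B x < 0`, and `s` the smaller one
of those defined: `y' = z_s` has `A, B ≥ 0`, one of them `0`, `A + B < c ≤ 1`, and `y' ∈ sg P i j`. If both are `0` then
`y' = w = v m ∈ sg P i j`, not an end point (`P.injective`), so in `osg P i j`: contradiction with EDG (2). If
`B y' = 0 < A y' < 1` then `y' ∈ osg P m a`, and EDG (3) with `E m a`, `E i j` gives `m = i` or `m = j`: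
contradiction. The same with `b` if `A y' = 0 < B y'`. -/
def Sp_NVX : Prop := ∀ (P : Polygon) (N : Net P) (m a b : ZMod P.k) (c : ℝ), N.E m a → N.E m b →
  0 < cx (P.vertex a - P.vertex m) (P.vertex b - P.vertex m) →
  (∀ j, N.E m j → ¬ (0 < cx (P.vertex a - P.vertex m) (P.vertex j - P.vertex m) ∧
      0 < cx (P.vertex j - P.vertex m) (P.vertex b - P.vertex m))) →
  0 < c → c ≤ 1 →
  (∀ n, n ≠ m → ∀ α β : ℝ, 0 ≤ α → 0 ≤ β → α + β < c →
    P.vertex n ≠ P.vertex m + α * (P.vertex a - P.vertex m) + β * (P.vertex b - P.vertex m)) →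
  ∀ α β : ℝ, 0 < α → 0 < β → α + β < c →
    P.vertex m + α * (P.vertex a - P.vertex m) + β * (P.vertex b - P.vertex m) ∉ N.Sk

/-- TRI. Open triangles. Let `a` be positively oriented, `A = cx (a 1 - a 0) (a 2 - a 0) > 0`. The three
functions `g_i y = cx (a (i+2) - a (i+1)) (y - a (i+1))` are affine, `∑ g_i = A`, `∑ g_i y • a i = A • y`,
`g_i (a i) = A`, `g_i (a (i+1)) = g_i (a (i+2)) = 0`. (1), (2) intersection of three open half planes; it contains
the centroid. (3) `⊆`: closed set; `⊇`: move a point slightly towards the centroid. (4) some `g_i y = 0`, so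
`A y = g_(i+1) y a (i+1) + g_(i+2) y a (i+2)` with nonnegative coefficients with sum `A`. (5) direct.
(6) at a point of the open edge `i` we have `g_(i+1), g_(i+2) > 0`; continuity. (7) coordinates:
`y = a 0 + α (a 1 - a 0) + β (a 2 - a 0)` with `α = g_1 y / A`, `β = g_2 y / A`. -/
def Sp_TRI : Prop := ∀ a : ZMod 3 → ℂ, 0 < cx (a 1 - a 0) (a 2 - a 0) →
  (IsOpen (tri a) ∧ Convex ℝ (tri a) ∧ (tri a).Nonempty) ∧
  (∀ i, 0 < cx (a (i + 1) - a i) (a (i + 2) - a i)) ∧
  closure (tri a) = {y | ∀ i, 0 ≤ cx (a (i + 2) - a (i + 1)) (y - a (i + 1))} ∧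
  (∀ y ∈ closure (tri a), y ∉ tri a → ∃ i, y ∈ segment ℝ (a (i + 1)) (a (i + 2))) ∧
  (∀ i, a i ∈ closure (tri a) ∧ segment ℝ (a (i + 1)) (a (i + 2)) ⊆ closure (tri a) ∧
    Disjoint (segment ℝ (a (i + 1)) (a (i + 2))) (tri a)) ∧
  (∀ i, ∀ z ∈ openSegment ℝ (a (i + 1)) (a (i + 2)), ∃ ρ > 0, ∀ y ∈ ball z ρ,
    0 < cx (a (i + 2) - a (i + 1)) (y - a (i + 1)) → y ∈ tri a) ∧
  (∀ y, y ∈ tri a ↔ ∃ α β : ℝ, 0 < α ∧ 0 < β ∧ α + β < 1 ∧
    y = a 0 + α * (a 1 - a 0) + β * (a 2 - a 0))

/-- TRG. The triangle at the extreme vertex. Proof (uses EDG, CMP, NVX, TRI). Step 1: no vertex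
`v n = w + α D_a + β D_b`, `α, β ≥ 0`, `α + β ≤ 1`, with `n ≠ m, a, b`. Otherwise take one with minimal `c = α + β`
(finitely many; `c > 0`). `β = 0` is impossible: `0 < α`; `α < 1` gives `v n ∈ osg P m a` (EDG (2)), `α = 1` gives
`n = a`; the same for `α = 0`. NVX with this `c` (the vertices `a`, `b` have `α + β = 1 ≥ c`, the others by
minimality): the open segment from `w` to `v n` is disjoint from `Sk`; it meets `K` (points near `w`), so it lies in
`K ⊆ U` (CMP). So `osg P m n ⊆ U`, disjoint from all `osg P k l`, `Dg k l` (they are in `Sk`): by `N.maxl`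
`Dg m n`, so `osg P m n ⊆ Sk`: contradiction, it is not empty. Step 2: NVX with `c = 1`: the open triangle is
disjoint from `Sk`, convex, meets `K`, so it is contained in `K`. Step 3: `E a b`. Case 1: `osg P a b` is
disjoint from `Sk`. Its points are in `closure (triangle) ⊆ closure U = region`, not in `Gam ⊆ Sk`, so in `U`
(`Bil.Gam_eq`); disjoint from all `osg P k l`; `N.maxl` gives `Dg a b`. Case 2: some `z ∈ osg P a b ∩ Sk`. `z` is not
a vertex (Step 1: coordinates `> 0` with sum 1, so `n ≠ m, a, b`). So `z ∈ osg P i j`, `E i j`. `m ≠ i, j`: otherwise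
`D_j` (or `D_i`) is strictly inside the sector. Let `S = A + B` (affine, coordinates as in NVX), `S z = 1`.
If `S (v i) < 1` the points `z + s (v i - z)`, small `s > 0`, are in the open triangle and in `Sk`: contradiction with Step 2; the same for
`j`. So `S (v i), S (v j) ≥ 1`, and `S z = 1` gives `S (v i) = S (v j) = 1`. Let `x_i = A (v i)`, `x_j = A (v j)`, and
`x_z ∈ (0, 1)` strictly between them, say `x_i < x_z < x_j` (symmetry). `x_i < 0` is impossible: then `v b`
(coordinate `0`) is in `osg P i j` (EDG (2)); so `0 ≤ x_i < 1`, Step 1 gives `i ∈ {m, a, b}`, so `i = b` (`v a` has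
coordinate `1`). In the same way `x_j > 1` is impossible (`v a ∈ osg P i j`) and `j = a`. So `E b a`, and EDG (1). The
labels are `l 0 = m, l 1 = a, l 2 = b`; `tri` by TRI (7). -/
def Sp_TRG : Prop := ∀ (P : Polygon) (N : Net P) (y : ℂ) (m a b : ZMod P.k) (ρ : ℝ), y ∈ N.Om → 0 < ρ →
  N.E m a → N.E m b → 0 < cx (P.vertex a - P.vertex m) (P.vertex b - P.vertex m) →
  (∀ j, N.E m j → ¬ (0 < cx (P.vertex a - P.vertex m) (P.vertex j - P.vertex m) ∧
      0 < cx (P.vertex j - P.vertex m) (P.vertex b - P.vertex m))) →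
  (∀ α β : ℝ, 0 < α → 0 < β →
      ‖α * (P.vertex a - P.vertex m) + β * (P.vertex b - P.vertex m)‖ < ρ →
      P.vertex m + α * (P.vertex a - P.vertex m) + β * (P.vertex b - P.vertex m) ∈ N.Kp y) →
  ∃ t : Tr N, t.l 0 = m ∧ t.l 1 = a ∧ t.l 2 = b ∧ tri (fun i => P.vertex (t.l i)) ⊆ N.Kp y

/-- COV. Every point of `Om` lies in a triangle. Proof (uses EDG, CMP, LEX, SEC, TRG, TRI). LEX, SEC, TRG give
`t` with `tri ⊆ K = Kp y`. `K` is preconnected, meets the open set `tri` and does not meet its frontier (TRI (4): a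
point of `closure tri` not in `tri` is on a closed edge of `t`, so in `Sk`), so `K ⊆ tri`
(e.g. `K ⊆ tri ∪ (closure tri)ᶜ`, two disjoint open sets). `y ∈ K`. -/
def Sp_COV : Prop := ∀ (P : Polygon) (N : Net P) (y : ℂ), y ∈ N.Om →
  ∃ t : Tr N, y ∈ tri (fun i => P.vertex (t.l i))

/-- OVL. Overlapping triangles; vertices in a closed triangle; uniqueness; rotation; finiteness. Proof (uses
EDG, TRI). (1) `tri t'` is preconnected, in `Om`, so it does not meet the frontier of `tri t` (in `Sk`); it meets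
`tri t`, so `tri t' ⊆ tri t`; symmetric. (2) `v m ∈ Sk` (EDG (6)) is not in `tri ⊆ Om`, so on a closed edge (TRI (4)),
not on the open edge (EDG (2)), so it is an end point; `P.injective`. (3) the midpoint of the common edge has
(TRI (6), both triangles) a neighbourhood whose left half is in both triangles; (1); the closures are
equal, so `v (t'.l i) ∈ closure (tri t)` (TRI (5)), so `t'.l i = t.l i'` for some `i'` by (2); `i' ≠ i + 1` and `i' ≠ i + 2`
because the vertices of `t'` are distinct (TRI (2)). (4) rotate the labels; `tri` is the same set; TRI (2).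
(5) `t ↦ t.l` is injective. -/
def Sp_OVL : Prop := ∀ (P : Polygon) (N : Net P),
  (∀ t t' : Tr N, (tri (fun i => P.vertex (t.l i)) ∩ tri (fun i => P.vertex (t'.l i))).Nonempty →
    tri (fun i => P.vertex (t.l i)) = tri (fun i => P.vertex (t'.l i))) ∧
  (∀ (t : Tr N) (m : ZMod P.k), P.vertex m ∈ closure (tri (fun i => P.vertex (t.l i))) →
    ∃ i, t.l i = m) ∧
  (∀ (t t' : Tr N) (i : ZMod 3), t'.l (i + 1) = t.l (i + 1) → t'.l (i + 2) = t.l (i + 2) → t' = t) ∧
  (∀ (t : Tr N) (k : ZMod 3), ∃ t' : Tr N, (∀ i, t'.l i = t.l (i + k)) ∧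
    tri (fun i => P.vertex (t'.l i)) = tri (fun i => P.vertex (t.l i))) ∧
  Finite (Tr N)

/-- NBR. The neighbour across a diagonal. Proof (uses EDG, TRI, COV, OVL). `p = t.l (i+1)`, `q = t.l (i+2)`,
`N.E p q` is not a side, so `Dg p q`, `osg P p q ⊆ U`. Let `z` be the midpoint of `v p`, `v q` and
`y_n = z - i (v q - v p) / n` (here `i` is the imaginary unit): `cx (v q - v p) (y_n - v p) < 0`. For large `n`, `y_n ∈ Om`: `U` is open; by EDG (7) at `z` a closed
edge that contains `y_n` contains `z ∈ osg P p q`, so it is `{p, q}` (EDG (3)), but `y_n` is not on the line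
through `v p`, `v q`. COV gives `t_n` with `y_n ∈ tri t_n`; `Tr N` is finite, so some `t'` occurs for infinitely many
`n`, so `z ∈ closure (tri t')`, `z ∈ Sk`, so `z ∉ tri t'`; TRI (4): `z` is on the closed edge `i'` of `t'`, EDG (3):
`{t'.l (i'+1), t'.l (i'+2)} = {p, q}`. `y_n ∈ tri t'` is on the left of this edge and on the right of `p → q`: so
`t'.l (i'+1) = q`, `t'.l (i'+2) = p`. Rotate (OVL (4)) by `k = i' - i`. -/
def Sp_NBR : Prop := ∀ (P : Polygon) (N : Net P) (t : Tr N) (i : ZMod 3),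
  ¬ Sd P (t.l (i + 1)) (t.l (i + 2)) →
  ∃ t' : Tr N, t'.l (i + 1) = t.l (i + 2) ∧ t'.l (i + 2) = t.l (i + 1)

/-- TDX. Triangulation data exist, with a triangle at a given corner. Proof (uses NET, EDG, DNS, COV, OVL,
NBR). `N` from NET, `T = Tr N` (finite by OVL (5)), `l = Tr.l`, `int`: `tri ⊆ Om ⊆ U`, `edg`: an edge of the net is a side
or a diagonal; `nbr t i` chosen by NBR (and `t` if the edge is a side); `nbr3`: `t'' = nbr (nbr t i) i` has the same
labels at `i+1`, `i+2` as `t` (the common edge is not a side seen from `nbr t i` either), OVL (3). Corner: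
`v C.j ∈ Gam ⊆ closure U` (`Bil.closure_U`), so for every `n` there is a point of `U` at distance `< 1/(n+1)`
and, by DNS, a point `y_n ∈ Om` at distance `< 2/(n+1)`. COV and finiteness: some `t` contains infinitely many `y_n`, so
`v C.j ∈ closure (tri t)`; OVL (2). -/
def Sp_TDX : Prop := ∀ (P : Polygon) (C : Bil.Corner P), ∃ (D : TD P) (t : D.T) (i : ZMod 3),
  D.l t i = C.j

/-! ## Part II: the double, folding, generalized diagonals -/

/-- APX. Entering and leaving at an apex (general surfaces). Proof. (1) Let `c = x + ct v` be the crossing point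
(TIM (8): a proper convex combination of `V (i+1)`, `V (i+2)`), `V i - c = (1 - ct) v`. `En` gives
`0 < cx (V (i+2) - V (i+1)) v`, and `0 < cx (V (i+2) - V (i+1)) (V i - c)` (ORI; `c` is on the edge). So `ct < 1`. For
`ct < τ < 1` the point is `c + s (V i - c)`, `0 < s < 1`, a convex combination of the three vertices with positive
weights, so it is interior. (2) `c = V i + ct v`; `Ex` gives `cx (V (i+2) - V (i+1)) v < 0`;
`0 < cx (V (i+2) - V (i+1)) (V i - c) = - ct cx (V (i+2) - V (i+1)) v`, so `0 < ct`; the points between are interior as before. -/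
def Sp_APX : Prop := ∀ (S : TriSys),
  (∀ (q : Pl S) (x v : ℂ) (i : ZMod 3), q.En x v i → q.V i = x + v →
    q.ct x v i < 1 ∧ ∀ τ ∈ Ioo (q.ct x v i) 1, q.In (x + (τ : ℝ) * v)) ∧
  (∀ (q : Pl S) (v : ℂ) (i : ZMod 3), q.Ex (q.V i) v i →
    0 < q.ct (q.V i) v i ∧ ∀ τ ∈ Ioo 0 (q.ct (q.V i) v i), q.In (q.V i + (τ : ℝ) * v))

/-- FLD. Folding. `S = D.dbl`. Proof (uses GLU). (1) `q.V i = q.a * PP q.r i + q.b`. (2) linear.
(3) with `y' = (y - q.b) / q.a`, `cx (u p) (u p') = cx p p'` for `‖u‖ = 1`: first copy: `y' ∈ tri` of `t` directly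
(`ix false i = i`); second copy: `cx (conj p) (conj p') = - cx p p'`, so `conj y'` is in `tri` of `t` (edge `i` of
`t` is edge `-i` of the copy, with the end points exchanged; `cx d (y - B) = cx d (y - A)` for
`d = B - A`). (4) `(q.nx j).r = (nbr t e, b)`, `en = j`, `e = ix b j`: both fold maps are `z ↦ (z - b')/a'` (followed by conj in the
second copy) and agree at the two distinct points `q.V (j+1)`, `q.V (j+2)`: GLU, (1) and `nbr1`, `nbr2` (`ix_false`,
`ix_true`), so they are equal; linear parts too. A fold map is real affine, it maps the open edge to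
`osg P (lb (j+1)) (lb (j+2))`, this is the open edge `e` of `t`, in `U` by `edg`. (5) `(q.nx j).r = (t, !b)`, `en = -j`.
Let `a` be the side: `a = l (e+1)` if `l (e+2) = l (e+1) + 1`, `a = l (e+2)` otherwise. `refl P a` is an orientation
reversing real affine map `z ↦ A * conj z + B` that fixes the two end points of the side (`Bil.refl_fix`), so
`refl P a ∘ fo q` and `fo (q.nx j)` are of the same type and agree at `q.V (j+1)`, `q.V (j+2)`
(`ix (!b) (-j+1) = ix b (j+2)`, `ix (!b) (-j+2) = ix b (j+1)`). The open edge goes to `Bil.rel P a`. -/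
def Sp_FLD : Prop := ∀ (P : Polygon) (D : TD P),
  (∀ (q : Pl D.dbl) (i : ZMod 3), D.fo q (q.V i) = P.vertex (D.lb q i)) ∧
  (∀ (q : Pl D.dbl) (x v : ℂ) (τ : ℝ), D.fo q (x + τ * v) = D.fo q x + τ * D.fl q v) ∧
  (∀ (q : Pl D.dbl) (y : ℂ), q.In y → D.fo q y ∈ Bil.U P) ∧
  (∀ (q : Pl D.dbl) (j : ZMod 3), ¬ D.sde q j →
    (∀ z, D.fo (q.nx j) z = D.fo q z) ∧ (∀ v, D.fl (q.nx j) v = D.fl q v) ∧
    ∀ y ∈ openSegment ℝ (q.V (j + 1)) (q.V (j + 2)), D.fo q y ∈ Bil.U P) ∧
  (∀ (q : Pl D.dbl) (j : ZMod 3), D.sde q j → ∃ a : ZMod P.k,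
    (∀ z, D.fo (q.nx j) z = Bil.refl P a (D.fo q z)) ∧
    (∀ v, D.fl (q.nx j) v = Bil.lrefl P a (D.fl q v)) ∧
    ∀ y ∈ openSegment ℝ (q.V (j + 1)) (q.V (j + 2)), D.fo q y ∈ Bil.rel P a)

/-- VIS. A run that ends at the apex of the last room folds to a generalized diagonal. Proof (uses FLD, APX,
EXU, TIM). Induction on `js`. `[]`: `W = []`; `Vis` is: `ct < 1`, `fo q x + 1 * fl q v = fo q (V i) = vertex (lb q i)`,
and for `τ ∈ (ct, 1)` the point is in `In q`, folded into `U` (APX (1), FLD (2), (3)). `j :: js`: `Ex q x v j`;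
`(q.nx j).En x v (q.en j)` (EXU (2)), `(q.nx j).ct x v (q.en j) = q.ct x v j` (TIM (1)), `ct i < ct j` (TIM (4)), interior
in between (TIM (5)), crossing point in the open edge (TIM (8)). If the edge is not a side: the induction hypothesis has the
same fold map (FLD (4)); `Vis` from `ct j` gives `Vis` from `ct i` (`Bil.Vis.start_earlier`, the points of
`(ct i, ct j]` are in `U`). If it is a side `a`: `Vis` with `a :: W` (FLD (5), `t' = ct j`). -/
def Sp_VIS : Prop := ∀ (P : Polygon) (D : TD P) (js : List (ZMod 3)) (q : Pl D.dbl) (x v : ℂ)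
  (i : ZMod 3), q.En x v i → Run q x v js → (endP q js).V (eI q i js) = x + v →
  ∃ W : List (ZMod P.k),
    Bil.Vis P (D.fo q x) (D.fl q v) (q.ct x v i) W (D.lb (endP q js) (eI q i js)) 1

/-- DEV. Proof. Induction on `W`: `dev (a :: W) p = refl a (dev W p) = refl a (refl a z + T lrefl a u)
= refl a (refl a (z + T u)) = z + T u` (`Bil.refl_add`, `Bil.refl_refl`). -/
def Sp_DEV : Prop := ∀ (P : Polygon) (W : List (ZMod P.k)) (z u : ℂ) (t T : ℝ) (j : ZMod P.k),
  Bil.Vis P z u t W j T → Bil.dev P W (P.vertex j) = z + T * u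

/-- GDV. Elements of `GG` give generalized diagonals from the corner. `q₀ = home (t, false)`,
`A = P.vertex C.j = C.v`, `Δ = apex - A`. Proof (uses FLD, APX, VIS, EXU, TIM, DEV). `js = i₀ :: js'`. `q₀.V i = vertex (l t i)`,
`fo q₀ z = z`, `fl q₀ v = v`. `Ex q₀ A Δ i₀` with `A = q₀.V i₀`: APX (2): `0 < ct`, and the points `A + τ Δ`, `0 < τ < ct`, are
in `U` (FLD (3)). `q₁ = q₀.nx i₀` is entered (EXU (2)) at the same time (TIM (1)); VIS for `q₁`, `js'`. If the edge `i₀` is not a side: FLD (4)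
and `Bil.Vis.start_earlier` from time `0`; if it is a side: `Vis` with `a :: W`. This is `Vis P C.v Δ 0 W j 1`.
Cone: for small `τ > 0` the point `C.v + τ Δ` is in `ball C.v C.rad` and in `U`, so by `C.hU` the two cross products
with `τ Δ` are positive, divide by `τ`. The last claim is DEV with `T = 1`. -/
def Sp_GDV : Prop := ∀ (P : Polygon) (C : Bil.Corner P) (D : TD P) (t : D.T) (i₀ : ZMod 3) (L : ℝ)
  (js : List (ZMod 3)), D.l t i₀ = C.j → js ∈ GG D.dbl (t, false) i₀ L →
  ∃ (W : List (ZMod P.k)) (j : ZMod P.k),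
    Bil.Vis P C.v ((endP (Pl.home D.dbl (t, false)) js).V (eI (Pl.home D.dbl (t, false)) i₀ js) - C.v) 0 W j 1 ∧
    C.Cone ((endP (Pl.home D.dbl (t, false)) js).V (eI (Pl.home D.dbl (t, false)) i₀ js) - C.v) ∧
    Bil.dev P W (P.vertex j) =
      (endP (Pl.home D.dbl (t, false)) js).V (eI (Pl.home D.dbl (t, false)) i₀ js)

/-- INJ. The word is determined by the position of the apex. Proof (uses EXU). Both words are run by the
line from `A = P r₀ i₀` with direction `Δ = apex - A`; one is a prefix of the other (EXU (6)), say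
`js' = js ++ j :: rest`. The last room `q = endP q₀ js` is entered through `e = eI` (js is not empty; EXU (2)
for its last letter) and left through `j` (EXU (8)), so by EXU (5) `cx Δ (V e - A) ≠ 0`; but `V e - A = Δ`. -/
def Sp_INJ : Prop := ∀ (S : TriSys) (r₀ : S.R) (i₀ : ZMod 3) (L : ℝ) (js js' : List (ZMod 3)),
  js ∈ GG S r₀ i₀ L → js' ∈ GG S r₀ i₀ L →
  (endP (Pl.home S r₀) js).V (eI (Pl.home S r₀) i₀ js) =
    (endP (Pl.home S r₀) js').V (eI (Pl.home S r₀) i₀ js') → js = js'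

/-- POL (block interface). Proof (uses TDX, GDV, INJ). `S = D.dbl`, `r₀ = (t, false)`, `i₀ = i` from TDX, `c` from
`Corner.GD_length`. For `js ∈ GG` let `γ = (W, j)` from GDV: `C.D P γ = dev P W (vertex j) - C.v = Δ`, `‖Δ‖ ≤ L`
(definition of GG, `S.P r₀ i₀ = C.v`); `γ ∈ C.GD (W.length + 1)`, so `W.length + 1 ≤ c ‖Δ‖ ≤ c L ≤ m` and `γ ∈ C.GD m`.
The map is injective on `GG` (`γ` determines the apex `Δ + C.v`; INJ); `C.GD m` is finite;
`Set.ncard_le_ncard_of_injOn`. -/
def Sp_POL : Prop := ∀ (P : Polygon) (C : Bil.Corner P), ∃ (S : TriSys) (r₀ : S.R) (i₀ : ZMod 3),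
  ∃ c > (0 : ℝ), ∀ L : ℝ, 1 ≤ L → ∀ m : ℕ, c * L ≤ m →
    (GG S r₀ i₀ L).ncard ≤ (C.GD m).ncard

/-- block 5 -/
def Sx_low : Prop := ∀ (S : TriSys) (r₀ : S.R) (i₀ : ZMod 3), ∃ c > (0 : ℝ), ∃ n₀ : ℝ, ∀ n ≥ n₀,
  c * n ^ 2 ≤ (((GG S r₀ i₀ (2 * n)).ncard : ℝ) + 1) ^ 2 * Phi S (n / 4)

/-- blocks 1 - 4 -/
def Sx_edn : Prop := ∀ S : TriSys, ∃ C : ℝ, ∀ N : ℝ, 1 ≤ N → Phi S N ≤ C * N ^ (-(1 / 3) : ℝ)

/-- FIN. The theorem. Proof (uses `Sx_low`, `Sx_edn`, POL). `C : Corner P` from `Bil.exists_corner`; `S, r₀, i₀, c₁` from POL.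
For real `x ≥ x₀` (`x ≥ 4`): `c₂ x² ≤ (g + 1)² C' (x/4)^(-1/3)`, `g = #GG(2x)`, so `(g + 1)² ≥ c₃ x^(7/3)`,
`g + 1 ≥ c₄ x^(7/6)`, `g ≥ c₅ x^(7/6)` for `x ≥ x₁`. For a natural number `m ≥ m₁` put `x = m / (2 c₁)` (so `c₁ (2 x) = m`):
`#GD(m) ≥ c₆ m^(7/6)`. `Corner.data` with `Data.F_double` (and `∑ card gset = #GD(m)`, see the proof of
`Corner.data`): `m #GD(m) / 2 ≤ F(2m)`, so `F(2m) ≥ c₇ m^(13/6)`; `F` is monotone (`Data.F_mono`) and `F ≥ 1`, so the
bound holds for all `n ≥ 1` with a smaller constant. -/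
def Sp_FIN : Prop := ∀ P : Polygon, ∃ c : ℝ, 0 < c ∧ ∀ n : ℕ, 1 ≤ n →
  c * (n : ℝ) ^ (13 / 6 : ℝ) ≤ P.complexity n

end Pool.Agent.FAN
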