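import Pool.Agent.FAN.TDefs

/-!
# FAN, block 7: `St_GDW` (after helper39's `P_GDV`) (helper63)
-/

set_option autoImplicit false

open scoped ComplexConjugate
open MeasureTheory Set Metric
open Pool.Agent.Billiard Pool.Agent.Lib_helper45

namespace Pool.Agent.FAN

private theorem gdw_osg (p q : ℂ) (l : ℝ) (h0 : 0 < l) (h1 : l < 1) :
    (1 - l) * p + l * q ∈ openSegment ℝ p q := by
  refine ⟨1 - l, l, by linarith, h0, by ring, ?_⟩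
  rw [Complex.real_smul, Complex.real_smul]
  push_cast
  ring

/-- Elements of `GG` of any corner give generalized diagonals of the polygon. -/
theorem t_GDW (hF : Sp_FLD) (hA : Sp_APX) (hV : Sp_VIS) (hD : Sp_DEV) (hE : Sa_EXU) (hT : Sa_TIM) :
    St_GDW := by
  intro P D r i₀ L js hjs
  obtain ⟨⟨js', rfl⟩, hrun, -⟩ := hjs
  obtain ⟨f1, f2, f3, f4, f5⟩ := hF P D
  obtain ⟨-, a2⟩ := hA D.dbl
  obtain ⟨-, e2, -⟩ := hE D.dbl
  obtain ⟨t1, -, -, -, -, -, -, t8, -⟩ := hT D.dbl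
  set q₀ : Pl D.dbl := Pl.home D.dbl r with hq₀
  have hPi : D.dbl.P r i₀ = q₀.V i₀ := by
    rw [hq₀]; simp [Pl.V, Pl.home]
  have hlb : P.vertex (D.l r.1 (TD.ix r.2 i₀)) = D.fo q₀ (q₀.V i₀) := by
    rw [f1]; rfl
  rw [hPi] at hrun ⊢
  rw [hlb]
  set A : ℂ := q₀.V i₀ with hAdef
  set w : ℂ := (endP q₀ (i₀ :: js')).V (eI q₀ i₀ (i₀ :: js')) with hw
  obtain ⟨hex, hrun'⟩ := hrun
  obtain ⟨hct0, hint⟩ := a2 q₀ (w - A) i₀ hex
  rw [← hAdef] at hct0 hint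
  have hUin : ∀ τ ∈ Ioo (0 : ℝ) (q₀.ct A (w - A) i₀), D.fo q₀ A + τ * D.fl q₀ (w - A) ∈ Bil.U P := by
    intro τ hτ
    have := f3 q₀ _ (hint τ hτ)
    rwa [f2] at this
  have hen : (q₀.nx i₀).En A (w - A) (q₀.en i₀) := (e2 q₀ A (w - A) i₀).1 hex
  have hct : (q₀.nx i₀).ct A (w - A) (q₀.en i₀) = q₀.ct A (w - A) i₀ := t1 _ _ _ _
  have hend : (endP (q₀.nx i₀) js').V (eI (q₀.nx i₀) (q₀.en i₀) js') = A + (w - A) := by
    rw [add_sub_cancel]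
    rfl
  obtain ⟨W, hW⟩ := hV P D js' (q₀.nx i₀) A (w - A) (q₀.en i₀) hen hrun' hend
  rw [hct] at hW
  obtain ⟨l, hl0, hl1, hle⟩ := t8 q₀ A (w - A) i₀ (Or.inl hex)
  have hseg : A + q₀.ct A (w - A) i₀ * (w - A) ∈
      openSegment ℝ (q₀.V (i₀ + 1)) (q₀.V (i₀ + 2)) := by
    rw [hle]
    exact gdw_osg _ _ l hl0 hl1
  have hvis : ∃ (W : List (ZMod P.k)) (j : ZMod P.k),
      Bil.Vis P (D.fo q₀ A) (D.fl q₀ (w - A)) 0 W j 1 := by
    by_cases hs : D.sde q₀ i₀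
    · obtain ⟨a, g1, g2, g3⟩ := f5 q₀ i₀ hs
      refine ⟨a :: W, D.lb (endP (q₀.nx i₀) js') (eI (q₀.nx i₀) (q₀.en i₀) js'), ?_⟩
      refine ⟨q₀.ct A (w - A) i₀, hct0, hUin, ?_, ?_⟩
      · have := g3 _ hseg
        rwa [f2] at this
      · rw [g1, g2] at hW
        exact hW
    · obtain ⟨g1, g2, g3⟩ := f4 q₀ i₀ hs
      refine ⟨W, D.lb (endP (q₀.nx i₀) js') (eI (q₀.nx i₀) (q₀.en i₀) js'), ?_⟩
      rw [g1, g2] at hW
      refine Bil.Vis.start_earlier hct0.le (fun τ hτ => ?_) hW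
      rcases lt_or_eq_of_le hτ.2 with h | h
      · exact hUin τ ⟨hτ.1, h⟩
      · rw [h]
        have := g3 _ hseg
        rwa [f2] at this
  obtain ⟨W', j, hvis⟩ := hvis
  refine ⟨W', j, hvis, ?_⟩
  rw [hD P W' _ _ _ _ _ hvis, ← f2]
  congr 1
  push_cast
  ring

end Pool.Agent.FAN
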