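import Pool.Agent.FAN.TDefs

/-!
# FAN, block 7: `St_TOT`, `St_MON`, `St_FIT` (helper63)
-/

set_option autoImplicit false

open scoped ComplexConjugate
open MeasureTheory Set Metric
open Pool.Agent.Billiard Pool.Agent.Lib_helper45

namespace Pool.Agent.FAN

theorem fo_home_inj {P : Polygon} (D : TD P) (r : D.T × Bool) {z z' : ℂ}
    (h : D.fo (Pl.home D.dbl r) z = D.fo (Pl.home D.dbl r) z') : z = z' := by
  have h2 : (Pl.home D.dbl r).a = 1 := rfl
  have h3 : (Pl.home D.dbl r).b = 0 := rfl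
  unfold TD.fo at h
  rw [h2, h3] at h
  by_cases hb : (Pl.home D.dbl r).r.2
  · rw [if_pos hb, if_pos hb] at h
    have := (starRingEnd ℂ).injective h
    simpa using this
  · rw [if_neg hb, if_neg hb] at h
    simpa using h

theorem norm_fl_home {P : Polygon} (D : TD P) (r : D.T × Bool) (v : ℂ) :
    ‖D.fl (Pl.home D.dbl r) v‖ = ‖v‖ := by
  have h2 : (Pl.home D.dbl r).a = 1 := rfl
  unfold TD.fl
  rw [h2]
  by_cases hb : (Pl.home D.dbl r).r.2
  · rw [if_pos hb, Complex.norm_conj, div_one]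
  · rw [if_neg hb, div_one]

theorem t_TOT (hT : Sp_TDX) (hG : St_GDW) (hI : Sp_INJ) (hL : St_LEN) : St_TOT := by
  classical
  intro P
  obtain ⟨C⟩ := Bil.exists_corner P
  obtain ⟨D, t₀, -, -⟩ := hT P C
  obtain ⟨c, hc, hlen⟩ := hL P
  refine ⟨D.dbl, c, ⟨(t₀, false)⟩, hc, fun r i => ⟨D.l r.1 (TD.ix r.2 i), ?_⟩⟩
  intro L hL m hm
  have hex : ∀ js ∈ GG D.dbl r i L, ∃ γ : List (ZMod P.k) × ZMod P.k,
      Bil.Vis P (P.vertex (D.l r.1 (TD.ix r.2 i))) (D.fl (Pl.home D.dbl r)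
      ((endP (Pl.home D.dbl r) js).V (eI (Pl.home D.dbl r) i js) - D.dbl.P r i)) 0 γ.1 γ.2 1 ∧
    Bil.dev P γ.1 (P.vertex γ.2) = D.fo (Pl.home D.dbl r)
      ((endP (Pl.home D.dbl r) js).V (eI (Pl.home D.dbl r) i js)) := by
    intro js hjs
    obtain ⟨W, j, h1, h2⟩ := hG P D r i L js hjs
    exact ⟨(W, j), h1, h2⟩
  choose! γ hγ1 hγ2 using hex
  have hmem : ∀ js ∈ GG D.dbl r i L, γ js ∈ GDv P (D.l r.1 (TD.ix r.2 i)) m := by
    intro js hjs
    set v : ℂ := (endP (Pl.home D.dbl r) js).V (eI (Pl.home D.dbl r) i js) - D.dbl.P r i with hv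
    have hv0 : v ≠ 0 := by
      obtain ⟨⟨js', e⟩, hrun, -⟩ := hjs
      rw [← hv, e] at hrun
      obtain ⟨hex, -⟩ := hrun
      intro h0
      rw [h0] at hex
      obtain ⟨hex1, -⟩ := hex
      simp [cx] at hex1
    have hD0 : D.fl (Pl.home D.dbl r) v ≠ 0 := by
      rw [← norm_ne_zero_iff, norm_fl_home]
      exact norm_ne_zero_iff.2 hv0
    have h1 := hγ1 js hjs
    have h2 := hlen _ _ _ _ hD0 h1
    rw [norm_fl_home] at h2
    have h3 : ‖v‖ ≤ L := hjs.2.2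
    have h4 : ((γ js).1.length : ℝ) + 1 ≤ m :=
      h2.trans ((mul_le_mul_of_nonneg_left h3 hc.le).trans hm)
    have h5 : (γ js).1.length < m := by
      have : (((γ js).1.length + 1 : ℕ) : ℝ) ≤ (m : ℝ) := by push_cast; exact h4
      exact_mod_cast this
    exact ⟨h5, _, hD0, h1⟩
  refine Set.ncard_le_ncard_of_injOn γ hmem ?_ (GDv_finite P _ m)
  intro js hjs js' hjs' he
  refine hI D.dbl r i L js js' hjs hjs' ?_
  apply fo_home_inj D r
  rw [← hγ2 js hjs, ← hγ2 js' hjs', he]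

theorem t_MON : St_MON := by
  intro P
  obtain ⟨C⟩ := Bil.exists_corner P
  obtain ⟨cc, nn, hD⟩ := C.data
  exact ⟨hD.F_mono, hD.hF1⟩

theorem t_FIT (hTOT : St_TOT) (hGRW : St_GRW) (hMON : St_MON) : St_FIT := by
  classical
  intro β hβ hg P
  obtain ⟨S, c₁, hne, hc₁, hG⟩ := hTOT P
  obtain ⟨c₂, hc₂, n₀, hL⟩ := hg S hne
  obtain ⟨c₃, hc₃, hgrw⟩ := hGRW P
  obtain ⟨hmono, hF1⟩ := hMON P
  set K : ℝ := 3 * (Fintype.card S.R : ℝ) + 1 with hK
  have hK0 : 0 < K := by positivity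
  -- for every m ≥ m₀: c m^(1+β) ≤ F (2 m)
  have key : ∀ m : ℕ, ⌈c₁ * max n₀ 1⌉₊ ≤ m →
      c₃ * ((c₂ / c₁ ^ β) / K) * ((m : ℝ) * (m : ℝ) ^ β) ≤ P.complexity (2 * m) := by
    intro m hm
    have hm' : c₁ * max n₀ 1 ≤ m := (Nat.le_ceil _).trans (by exact_mod_cast hm)
    have hx : max n₀ 1 ≤ (m : ℝ) / c₁ := by
      rw [le_div_iff₀ hc₁]; linarith
    have h1 := hL ((m : ℝ) / c₁) ((le_max_left _ _).trans hx)
    rw [Real.div_rpow (Nat.cast_nonneg _) hc₁.le] at h1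
    have hmβ : (0 : ℝ) ≤ (m : ℝ) ^ β := Real.rpow_nonneg (Nat.cast_nonneg _) _
    have hcβ : (0 : ℝ) < c₁ ^ β := Real.rpow_pos_of_pos hc₁ _
    -- pigeonhole
    obtain ⟨r, i, hri⟩ : ∃ (r : S.R) (i : ZMod 3),
        c₂ * ((m : ℝ) ^ β / c₁ ^ β) / K ≤ ((GG S r i ((m : ℝ) / c₁)).ncard : ℝ) := by
      by_contra hcon
      push Not at hcon
      have h2 : (GGT S ((m : ℝ) / c₁) : ℝ) ≤
          ∑ r : S.R, ∑ i : ZMod 3, c₂ * ((m : ℝ) ^ β / c₁ ^ β) / K := by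
        unfold GGT
        push_cast
        exact Finset.sum_le_sum fun r _ => Finset.sum_le_sum fun i _ => (hcon r i).le
      have hz : (0 : ℝ) ≤ c₂ * ((m : ℝ) ^ β / c₁ ^ β) := by positivity
      rcases hz.lt_or_eq with hz | hz
      · simp only [Finset.sum_const, Finset.card_univ, nsmul_eq_mul, ZMod.card] at h2
        have h3 : (Fintype.card S.R : ℝ) * (((3 : ℕ) : ℝ) * (c₂ * ((m : ℝ) ^ β / c₁ ^ β) / K)) =
            c₂ * ((m : ℝ) ^ β / c₁ ^ β) * (3 * (Fintype.card S.R : ℝ) / K) := by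
          push_cast; ring
        rw [h3] at h2
        have h4 : 3 * (Fintype.card S.R : ℝ) / K < 1 := by
          rw [div_lt_one hK0]; linarith
        have h5 : c₂ * ((m : ℝ) ^ β / c₁ ^ β) * (3 * (Fintype.card S.R : ℝ) / K) <
            c₂ * ((m : ℝ) ^ β / c₁ ^ β) := by
          nlinarith
        linarith
      · rw [← hz] at h1 h2 hcon
        obtain ⟨r⟩ : Nonempty S.R := by
          by_contra hne
          rw [not_nonempty_iff] at hne
          have : GGT S ((m : ℝ) / c₁) = 0 := by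
            unfold GGT
            simp
          rcases Nat.eq_zero_or_pos m with h0 | h0
          · have h6 : c₁ * max n₀ 1 ≤ 0 := by rw [h0] at hm'; simpa using hm'
            have h7 : 0 < c₁ * max n₀ 1 := mul_pos hc₁ (lt_max_of_lt_right one_pos)
            linarith
          · have h6 : (0 : ℝ) < (m : ℝ) ^ β := Real.rpow_pos_of_pos (by exact_mod_cast h0) _
            have h7 : (0 : ℝ) < c₂ * ((m : ℝ) ^ β / c₁ ^ β) := by positivity
            linarith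
        have := hcon r 0
        have h8 : (0 : ℝ) ≤ ((GG S r 0 ((m : ℝ) / c₁)).ncard : ℝ) := Nat.cast_nonneg _
        simp at this
        linarith
    obtain ⟨j, hj⟩ := hG r i
    have h4 : (GG S r i ((m : ℝ) / c₁)).ncard ≤ (GDv P j m).ncard := by
      apply hj _ ((le_max_right _ _).trans hx) m
      apply le_of_eq
      field_simp
    have h5 : ((GG S r i ((m : ℝ) / c₁)).ncard : ℝ) ≤ ((GDv P j m).ncard : ℝ) := by exact_mod_cast h4
    have h6 := hgrw j m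
    have h7 : (m : ℝ) * (c₂ * ((m : ℝ) ^ β / c₁ ^ β) / K) ≤ (m : ℝ) * ((GDv P j m).ncard : ℝ) :=
      mul_le_mul_of_nonneg_left (hri.trans h5) (Nat.cast_nonneg _)
    refine le_trans (le_of_eq ?_) ((mul_le_mul_of_nonneg_left h7 hc₃.le).trans h6)
    ring
  -- conclusion
  set κ : ℝ := c₃ * ((c₂ / c₁ ^ β) / K) with hκ
  have hκ0 : 0 < κ := by
    have hcβ : (0 : ℝ) < c₁ ^ β := Real.rpow_pos_of_pos hc₁ _
    positivity
  set m₀ : ℕ := ⌈c₁ * max n₀ 1⌉₊ with hm₀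
  have hβ1 : 0 ≤ 1 + β := by linarith
  have h3 : (0 : ℝ) < (3 : ℝ) ^ (1 + β) := Real.rpow_pos_of_pos (by norm_num) _
  have hm0 : (0 : ℝ) < 2 * (m₀ : ℝ) + 2 := by positivity
  have hM : (0 : ℝ) < (2 * (m₀ : ℝ) + 2) ^ (1 + β) := Real.rpow_pos_of_pos hm0 _
  refine ⟨min (κ / (3 : ℝ) ^ (1 + β)) (1 / (2 * (m₀ : ℝ) + 2) ^ (1 + β)),
    lt_min (by positivity) (by positivity), fun n hn => ?_⟩
  have hn0 : (0 : ℝ) < n := by exact_mod_cast hn
  have hnp : (0 : ℝ) < (n : ℝ) ^ (1 + β) := Real.rpow_pos_of_pos hn0 _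
  rcases lt_or_ge n (2 * m₀ + 2) with hlt | hge
  · calc min (κ / (3 : ℝ) ^ (1 + β)) (1 / (2 * (m₀ : ℝ) + 2) ^ (1 + β)) *
          (n : ℝ) ^ (1 + β) ≤ (1 / (2 * (m₀ : ℝ) + 2) ^ (1 + β)) * (n : ℝ) ^ (1 + β) :=
          mul_le_mul_of_nonneg_right (min_le_right _ _) hnp.le
      _ ≤ 1 := by
          rw [one_div, inv_mul_le_iff₀ hM, mul_one]
          apply Real.rpow_le_rpow hn0.le _ hβ1
          exact_mod_cast hlt.le
      _ ≤ P.complexity n := hF1 n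
  · obtain ⟨m, hm1, hm2⟩ : ∃ m : ℕ, 2 * m ≤ n ∧ n ≤ 2 * m + 1 := ⟨n / 2, by omega, by omega⟩
    have hmm : m₀ ≤ m := by omega
    have hm1' : 1 ≤ m := by omega
    have hmpos : (0 : ℝ) < m := by exact_mod_cast hm1'
    have hn3 : (n : ℝ) / 3 ≤ m := by
      rw [div_le_iff₀ (by norm_num)]
      have : n ≤ m * 3 := by omega
      exact_mod_cast this
    have e1 : (m : ℝ) ^ (1 + β) = m * (m : ℝ) ^ β := by
      rw [Real.rpow_add hmpos, Real.rpow_one]
    calc min (κ / (3 : ℝ) ^ (1 + β)) (1 / (2 * (m₀ : ℝ) + 2) ^ (1 + β)) *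
          (n : ℝ) ^ (1 + β) ≤ (κ / (3 : ℝ) ^ (1 + β)) * (n : ℝ) ^ (1 + β) :=
          mul_le_mul_of_nonneg_right (min_le_left _ _) hnp.le
      _ = κ * ((n : ℝ) / 3) ^ (1 + β) := by
          rw [Real.div_rpow hn0.le (by norm_num)]; ring
      _ ≤ κ * (m : ℝ) ^ (1 + β) := by
          apply mul_le_mul_of_nonneg_left _ hκ0.le
          exact Real.rpow_le_rpow (by positivity) hn3 hβ1
      _ = κ * ((m : ℝ) * (m : ℝ) ^ β) := by rw [e1]
      _ ≤ P.complexity (2 * m) := key m hmm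
      _ ≤ P.complexity n := hmono hm1

end Pool.Agent.FAN
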