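import Pool.Agent.FAN.PAll
import Pool.Agent.FAN.T_GDW
import Pool.Agent.FAN.T_TOT

/-!
# FAN, block 7: assembly of the surface side (helper63)
-/

set_option autoImplicit false

namespace Pool.Agent.FAN

theorem t_tot_all (hLEN : St_LEN) : St_TOT := by
  have hTIM : Sa_TIM := m_TIM m_GLU m_ORI m_EXU
  have hCMP : Sp_CMP := p_CMP p_EDG
  have hCON : Sp_CON := p_CON p_EDG hCMP
  have hCOV : Sp_COV := p_COV hCMP (p_LEX p_EDG hCMP) (p_SEC p_EDG hCMP hCON)
    (p_TRG p_EDG hCMP (p_NVX p_EDG) p_TRI) p_TRI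
  have hOVL : Sp_OVL := p_OVL p_EDG p_TRI
  have hNBR : Sp_NBR := p_NBR p_EDG p_TRI hCOV hOVL
  have hVIS : Sp_VIS := p_VIS p_FLD p_APX m_EXU hTIM
  exact t_TOT (p_TDX p_NET p_DNS hCOV hOVL hNBR) (t_GDW p_FLD p_APX hVIS p_DEV m_EXU hTIM)
    (p_INJ m_EXU) hLEN

/-- Growth of the total number of generalized diagonals of surfaces gives growth of the complexity of
polygons (from the two statements on polygons `St_LEN`, `St_GRW`). -/
theorem t_fit_all (hLEN : St_LEN) (hGRW : St_GRW) : St_FIT :=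
  t_FIT (t_tot_all hLEN) hGRW t_MON

end Pool.Agent.FAN
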