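import Pool.Agent.FAN.StP

/-!
# FAN, block 7: total count of generalized diagonals (all vertices, reflex vertices included) (helper63)

* `GDv P j n`: generalized diagonals from the vertex `j` with less than `n` bounces.
* `GGT S L`: number of generalized diagonals of length at most `L`, from all corners of all rooms.
-/

set_option autoImplicit false

open scoped ComplexConjugate
open MeasureTheory Set Metric
open Pool.Agent.Billiard Pool.Agent.Lib_helper45

namespace Pool.Agent.FAN

/-- Generalized diagonals from the vertex `j` with less than `n` bounces: pairs (word, end vertex).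
The direction `D` is determined: `D = dev P W (vertex j') - vertex j`. -/
def GDv (P : Polygon) (j : ZMod P.k) (n : ℕ) : Set (List (ZMod P.k) × ZMod P.k) :=
  {γ | γ.1.length < n ∧ ∃ D : ℂ, D ≠ 0 ∧ Bil.Vis P (P.vertex j) D 0 γ.1 γ.2 1}

theorem GDv_finite (P : Polygon) (j : ZMod P.k) (n : ℕ) : (GDv P j n).Finite := by
  have h : (({w : List (ZMod P.k) | w.length < n} ×ˢ (univ : Set (ZMod P.k)))).Finite :=
    (List.finite_length_lt (ZMod P.k) n).prod finite_univ
  exact h.subset fun γ hγ => ⟨hγ.1, mem_univ _⟩

/-- Number of generalized diagonals of length at most `L` of the surface, from all corners. -/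
noncomputable def GGT (S : TriSys) (L : ℝ) : ℕ := ∑ r : S.R, ∑ i : ZMod 3, (GG S r i L).ncard

/-- LEN (Bil side). The number of bounces is bounded by the length, for all vertices. -/
def St_LEN : Prop := ∀ P : Polygon, ∃ c > (0 : ℝ), ∀ (j : ZMod P.k) (D : ℂ) (W : List (ZMod P.k))
  (j' : ZMod P.k), D ≠ 0 → Bil.Vis P (P.vertex j) D 0 W j' 1 → (W.length : ℝ) + 1 ≤ c * ‖D‖

/-- GRW (Bil side). The growth of the complexity, for all vertices. -/
def St_GRW : Prop := ∀ P : Polygon, ∃ c > (0 : ℝ), ∀ (j : ZMod P.k) (n : ℕ),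
  c * ((n : ℝ) * ((GDv P j n).ncard : ℝ)) ≤ P.complexity (2 * n)

/-- MON. The complexity is monotone and positive. -/
def St_MON : Prop := ∀ P : Polygon, (Monotone fun n => (P.complexity n : ℝ)) ∧
  ∀ n, (1 : ℝ) ≤ P.complexity n

/-- GDW (surface side). Elements of `GG` of any corner of the double give generalized diagonals of the
polygon from the vertex with the label of the corner. Proof: as `Sp_GDV` with `q₀ = home (t, b)` and the fold map
`fo q₀` (identity for the first copy, conjugation for the second). -/
def St_GDW : Prop := ∀ (P : Polygon) (D : TD P) (r : D.T × Bool) (i₀ : ZMod 3) (L : ℝ)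
  (js : List (ZMod 3)), js ∈ GG D.dbl r i₀ L →
  ∃ (W : List (ZMod P.k)) (j : ZMod P.k),
    Bil.Vis P (P.vertex (D.l r.1 (TD.ix r.2 i₀))) (D.fl (Pl.home D.dbl r)
      ((endP (Pl.home D.dbl r) js).V (eI (Pl.home D.dbl r) i₀ js) - D.dbl.P r i₀)) 0 W j 1 ∧
    Bil.dev P W (P.vertex j) = D.fo (Pl.home D.dbl r)
      ((endP (Pl.home D.dbl r) js).V (eI (Pl.home D.dbl r) i₀ js))

/-- TOT (surface side, interface). For every polygon there is a surface such that the generalized diagonals of
length at most `L` from every corner inject into the generalized diagonals with less than `m` bounces from a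
vertex, `m ≥ c L`. -/
def St_TOT : Prop := ∀ P : Polygon, ∃ (S : TriSys) (c : ℝ), Nonempty S.R ∧ 0 < c ∧ ∀ (r : S.R) (i : ZMod 3),
  ∃ j : ZMod P.k, ∀ L : ℝ, 1 ≤ L → ∀ m : ℕ, c * L ≤ m → (GG S r i L).ncard ≤ (GDv P j m).ncard

/-- A lower bound `L ^ β` for the total number of generalized diagonals of length at most `L` in every
triangulated surface with at least one room. -/
def GGrowT (β : ℝ) : Prop := ∀ S : TriSys, Nonempty S.R → ∃ c : ℝ, 0 < c ∧ ∃ n₀ : ℝ,
  ∀ L : ℝ, n₀ ≤ L → c * L ^ β ≤ (GGT S L : ℝ)

/-- FIT (interface). Growth of the total number of generalized diagonals gives growth of the complexity.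
Proof: TOT, GRW, MON and the pigeonhole principle over the finitely many corners. -/
def St_FIT : Prop := ∀ β : ℝ, 0 ≤ β → GGrowT β → ∀ P : Polygon, ∃ c : ℝ, 0 < c ∧ ∀ n : ℕ, 1 ≤ n →
  c * (n : ℝ) ^ (1 + β) ≤ P.complexity n

end Pool.Agent.FAN
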