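import Pool.Agent.FAN.T_TOT

/-!
# FAN, block 7: the cones at the corners of the triangles (helper63)
-/

set_option autoImplicit false

open scoped ComplexConjugate
open MeasureTheory Set Metric
open Pool.Agent.Billiard Pool.Agent.Lib_helper45

namespace Pool.Agent.FAN

theorem im_mul_conj (p q : ℂ) : (q * conj p).im = cx p q := by
  simp only [cx, Complex.mul_im, Complex.conj_re, Complex.conj_im]
  ring

/-- Near a vertex the cone of the triangle is in the triangle. -/
theorem cone_tri (hTRI : Sp_TRI) (a : ZMod 3 → ℂ) (hpos : 0 < cx (a 1 - a 0) (a 2 - a 0)) (i : ZMod 3) :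
    0 < cx (a (i + 1) - a i) (a (i + 2) - a i) ∧
    ∃ ρ > 0, ∀ z ∈ ball (a i) ρ, 0 < cx (z - a i) (a (i + 2) - a i) →
      0 < cx (a (i + 1) - a i) (z - a i) → z ∈ tri a := by
  obtain ⟨-, h2, -⟩ := hTRI a hpos
  have hi := h2 i
  refine ⟨hi, ?_⟩
  have hcont : Continuous fun y : ℂ => cx (a (i + 2) - a (i + 1)) (y - a (i + 1)) := by
    unfold cx
    fun_prop
  have hat : 0 < cx (a (i + 2) - a (i + 1)) (a i - a (i + 1)) := by
    have e : cx (a (i + 2) - a (i + 1)) (a i - a (i + 1)) =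
        cx (a (i + 1) - a i) (a (i + 2) - a i) := by
      simp only [cx, Complex.sub_re, Complex.sub_im]; ring
    rw [e]; exact hi
  obtain ⟨ρ, hρ, hb⟩ := Metric.mem_nhds_iff.1 (hcont.continuousAt.preimage_mem_nhds
    (isOpen_Ioi.mem_nhds hat) : _ ∈ nhds (a i))
  refine ⟨ρ, hρ, fun z hz h1 h3 k => ?_⟩
  have e1 : i + 1 + 1 = i + 2 := by ring
  have e2 : i + 1 + 2 = i := by
    have : (3 : ZMod 3) = 0 := rfl
    calc i + 1 + 2 = i + 3 := by ring
      _ = i := by rw [this, add_zero]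
  have e3 : i + 2 + 1 = i := by
    have : (3 : ZMod 3) = 0 := rfl
    calc i + 2 + 1 = i + 3 := by ring
      _ = i := by rw [this, add_zero]
  have e4 : i + 2 + 2 = i + 1 := by
    have : (3 : ZMod 3) = 0 := rfl
    calc i + 2 + 2 = i + 3 + 1 := by ring
      _ = i + 1 := by rw [this, add_zero]
  have hk : k = i ∨ k = i + 1 ∨ k = i + 2 := (by decide : ∀ i k : ZMod 3,
    k = i ∨ k = i + 1 ∨ k = i + 2) i k
  rcases hk with rfl | rfl | rfl
  · exact hb hz
  · rw [e1, e2]
    have e : cx (a i - a (i + 2)) (z - a (i + 2)) = cx (z - a i) (a (i + 2) - a i) := by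
      simp only [cx, Complex.sub_re, Complex.sub_im]; ring
    rw [e]; exact h1
  · rw [e3, e4]
    exact h3

end Pool.Agent.FAN
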